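import Pool.Agent.GsF.Defs

/-!
The averages on the moment curve, box averages and the parameters of the proof.
-/

namespace Pool.Agent.GsF

open Finset

variable {d : ℕ}

/-- the phase xi . (n, n^2, .., n^d) -/
noncomputable def ph (ξ : Fin d → ℝ) (n : ℕ) : ℝ := ∑ l, ξ l * (n : ℝ) ^ ((l : ℕ) + 1)

/-- the normalised exponential sum on the moment curve -/
noncomputable def a (N : ℕ) (ξ : Fin d → ℝ) : ℂ := (∑ n ∈ range N, e (ph ξ n)) / (N : ℂ)

/-- the size of zeta at scale N -/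
noncomputable def M (ζ : Fin d → ℝ) (N : ℕ) : ℝ := ∑ l, |ζ l| * (N : ℝ) ^ ((l : ℕ) + 1)

/-- mean of e(t x) over the multiples x of Q in [0, L] -/
noncomputable def bt (L Q : ℕ) (t : ℝ) : ℂ :=
  (∑ j ∈ range (L / Q + 1), e ((j : ℝ) * Q * t)) / ((L / Q + 1 : ℕ) : ℂ)

/-- mean over the box of size (N, N^2, .., N^d) in (Q Z)^d -/
noncomputable def b (N Q : ℕ) (ξ : Fin d → ℝ) : ℂ := ∏ l : Fin d, bt (N ^ ((l : ℕ) + 1)) Q (ξ l)

/-- q beta is an integer vector -/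
def Den (q : ℕ) (β : Fin d → ℝ) : Prop := ∀ l, ∃ z : ℤ, (q : ℝ) * β l = z

/-- q is the least common denominator of beta -/
def Mind (q : ℕ) (β : Fin d → ℝ) : Prop :=
  1 ≤ q ∧ Den q β ∧ ∀ q' : ℕ, 1 ≤ q' → Den q' β → q ≤ q'

/-- xi is within t (coordinatewise) of a vector beta with Q beta integral -/
def nearQ (Q : ℕ) (t : ℝ) (ξ : Fin d → ℝ) : Prop :=
  ∃ β : Fin d → ℝ, Den Q β ∧ ∀ l, |ξ l - β l| ≤ t

/-- min (x, x^(-c)) -/
noncomputable def om (c x : ℝ) : ℝ := min x (x ^ (-c))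

/-- the scales -/
def Nk (u k : ℕ) : ℕ := u * 2 ^ k

/-- size of the denominators of block i -/
def xx (i : ℕ) : ℕ := 2 ^ (i / 4)

/-- modulus of block i -/
def Qf (i : ℕ) : ℕ := (xx i).factorial

/-- radius of block i: 2^(-K_i/2), K_i = 2^i -/
noncomputable def tau (i : ℕ) : ℝ := (1 / 2 : ℝ) ^ (2 ^ (i - 1))

/-- major set of block i -/
def V (i : ℕ) (ξ : Fin d → ℝ) : Prop := ∃ q : ℕ, 1 ≤ q ∧ q ≤ xx i ∧ nearQ q (tau i) ξ

/-- the error of block i at scale k -/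
noncomputable def E (u i k : ℕ) (ξ : Fin d → ℝ) : ℂ :=
  a (Nk u k) ξ - a (Qf i) ξ * b (Nk u k) (Qf i) ξ

/-- the set U_j : near (1/Q_j) Z^d but with beta not in (1/Q_(j-1)) Z^d -/
def U (j : ℕ) (ξ : Fin d → ℝ) : Prop :=
  ∃ β : Fin d → ℝ, Den (Qf j) β ∧ ¬ Den (Qf (j - 1)) β ∧ ∀ l, |ξ l - β l| ≤ tau j

open Classical in
/-- the main part of the difference of two consecutive models -/
noncomputable def gm (j : ℕ) (ξ : Fin d → ℝ) : ℂ := if U j ξ then a (Qf j) ξ else 0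

/-- the rest of the difference of two consecutive models -/
noncomputable def RR (u j k : ℕ) (ξ : Fin d → ℝ) : ℂ :=
  (a (Qf j) ξ * b (Nk u k) (Qf j) ξ - a (Qf (j - 1)) ξ * b (Nk u k) (Qf (j - 1)) ξ)
    - gm j ξ * b (Nk u k) (Qf j) ξ

end Pool.Agent.GsF
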