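import Pool.Agent.GsF.It
import Pool.Agent.GsF.ADefs

/-!
Facts on the sums a N xi on the moment curve.
-/

namespace Pool.Agent.GsF

open Finset

variable {d : ℕ}

/- MODULE AA1 -/
/-- the polynomial of the phase -/
private noncomputable def AA1P (ξ : Fin d → ℝ) : Polynomial ℝ :=
  ∑ l : Fin d, Polynomial.C (ξ l) * Polynomial.X ^ ((l : ℕ) + 1)

private theorem AA1_eval (ξ : Fin d → ℝ) (n : ℕ) : (AA1P ξ).eval (n : ℝ) = ph ξ n := by
  unfold AA1P ph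
  rw [Polynomial.eval_finsetSum]
  simp

private theorem AA1_deg (ξ : Fin d → ℝ) : (AA1P ξ).natDegree ≤ d := by
  unfold AA1P
  apply Polynomial.natDegree_sum_le_of_forall_le
  intro l _
  exact (Polynomial.natDegree_C_mul_X_pow_le _ _).trans l.2

private theorem AA1_coeff (ξ : Fin d → ℝ) (l : Fin d) :
    (AA1P ξ).coeff ((l : ℕ) + 1) = ξ l := by
  unfold AA1P
  rw [Polynomial.finsetSum_coeff, Finset.sum_eq_single l]
  · rw [Polynomial.coeff_C_mul_X_pow, if_pos rfl]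
  · intro j _ hj
    rw [Polynomial.coeff_C_mul_X_pow, if_neg]
    intro h
    exact hj (Fin.ext (by omega))
  · intro h
    exact absurd (Finset.mem_univ _) h

/-- The inverse theorem for a: apply it_all d to P = sum over l of xi_l X^(l+1) (P.eval n = ph xi n,
P.coeff (l+1) = xi_l, natDegree ≤ d); a N xi = W P N / N. -/
theorem it_a (d : ℕ) :
    ∃ C : ℕ, 1 ≤ C ∧ ∀ (ξ : Fin d → ℝ) (N : ℕ) (D : ℝ), 1 ≤ N → 1 ≤ D → 1 ≤ D * ‖a N ξ‖ →
      ∃ q : ℕ, 1 ≤ q ∧ (q : ℝ) ≤ pb C D ∧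
        ∀ l : Fin d, nrm (q * ξ l) * (N : ℝ) ^ ((l : ℕ) + 1) ≤ pb C D := by
  obtain ⟨C, hC, h⟩ := it_all d
  refine ⟨C, hC, fun ξ N D hN hD h1 => ?_⟩
  have hN0 : (0 : ℝ) < N := by exact_mod_cast hN
  have hW : a N ξ = W (AA1P ξ) N / N := by
    unfold a W
    congr 1
    exact Finset.sum_congr rfl fun n _ => by rw [AA1_eval]
  have h2 : (N : ℝ) ≤ D * ‖W (AA1P ξ) N‖ := by
    rw [hW, norm_div, Complex.norm_natCast] at h1
    have h3 : D * (‖W (AA1P ξ) N‖ / N) = D * ‖W (AA1P ξ) N‖ / N := by ring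
    rw [h3, le_div_iff₀ hN0, one_mul] at h1
    exact h1
  obtain ⟨q, hq, hqC, hl⟩ := h (AA1P ξ) (AA1_deg ξ) N hN D hD h2
  refine ⟨q, hq, hqC, fun l => ?_⟩
  have h4 := hl ((l : ℕ) + 1) (by omega) l.2
  rwa [AA1_coeff] at h4
/- END AA1 -/

/- MODULE AA2 -/
theorem a_norm_le (N : ℕ) (ξ : Fin d → ℝ) : ‖a N ξ‖ ≤ 1 := by
  unfold a
  rw [norm_div, Complex.norm_natCast]
  apply div_le_one_of_le₀ _ (Nat.cast_nonneg N)
  refine (norm_sum_le _ _).trans ?_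
  simp [norm_e]

theorem M_nonneg (ζ : Fin d → ℝ) (N : ℕ) : 0 ≤ M ζ N :=
  Finset.sum_nonneg fun l _ => by positivity

/-- |ph zeta n| ≤ M zeta N for n ≤ N -/
theorem ph_le (ζ : Fin d → ℝ) (N n : ℕ) (h : n ≤ N) : |ph ζ n| ≤ M ζ N := by
  unfold ph M
  refine (Finset.abs_sum_le_sum_abs _ _).trans (Finset.sum_le_sum fun l _ => ?_)
  rw [abs_mul, abs_pow, Nat.abs_cast]
  have h1 : (n : ℝ) ≤ N := by exact_mod_cast h
  exact mul_le_mul_of_nonneg_left (pow_le_pow_left₀ (Nat.cast_nonneg n) h1 _) (abs_nonneg _)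

private theorem AA2_ph_add (β ζ : Fin d → ℝ) (n : ℕ) : ph (β + ζ) n = ph β n + ph ζ n := by
  unfold ph
  rw [← Finset.sum_add_distrib]
  exact Finset.sum_congr rfl fun l _ => by rw [Pi.add_apply, add_mul]

/-- |a(beta + zeta) - a(beta)| ≤ 7 M (norm_e_sub_one', ph (beta + zeta) n = ph beta n + ph zeta n) -/
theorem a_lip (N : ℕ) (β ζ : Fin d → ℝ) : ‖a N (β + ζ) - a N β‖ ≤ 7 * M ζ N := by
  rcases Nat.eq_zero_or_pos N with rfl | hN
  · have h1 := M_nonneg ζ 0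
    simp only [a, Finset.range_zero, Finset.sum_empty, zero_div, sub_zero, norm_zero]
    linarith
  have hN0 : (0 : ℝ) < N := by exact_mod_cast hN
  unfold a
  rw [← sub_div, ← Finset.sum_sub_distrib, norm_div, Complex.norm_natCast, div_le_iff₀ hN0]
  refine (norm_sum_le _ _).trans ?_
  have h2 : ∀ n ∈ range N, ‖e (ph (β + ζ) n) - e (ph β n)‖ ≤ 7 * M ζ N := by
    intro n hn
    refine (norm_e_sub_e _ _).trans ?_
    rw [AA2_ph_add, add_sub_cancel_left]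
    exact mul_le_mul_of_nonneg_left (ph_le ζ N n (Finset.mem_range.1 hn).le) (by norm_num)
  refine (Finset.sum_le_sum h2).trans (le_of_eq ?_)
  rw [Finset.sum_const, Finset.card_range, nsmul_eq_mul]
  ring

/-- |a(zeta) - 1| ≤ 7 M -/
theorem a_one (N : ℕ) (hN : 1 ≤ N) (ζ : Fin d → ℝ) : ‖a N ζ - 1‖ ≤ 7 * M ζ N := by
  have h1 := a_lip N 0 ζ
  have h2 : a N (0 : Fin d → ℝ) = 1 := by
    have hN0 : (N : ℂ) ≠ 0 := by exact_mod_cast (by omega : N ≠ 0)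
    unfold a
    rw [div_eq_one_iff_eq hN0, Finset.sum_congr rfl fun n _ => by
      rw [show ph (0 : Fin d → ℝ) n = 0 by simp [ph], e_zero]]
    simp
  rwa [zero_add, h2] at h1

private theorem AA2_per (q : ℕ) (β : Fin d → ℝ) (hβ : Den q β) (r j : ℕ) :
    e (ph β (q * j + r)) = e (ph β r) := by
  choose z hz using hβ
  have h1 : ∀ l : Fin d, ∃ k : ℤ, ((q * j + r : ℕ) : ℝ) ^ ((l : ℕ) + 1) =
      (r : ℝ) ^ ((l : ℕ) + 1) + q * k := by
    intro l
    have h2 : ((q : ℤ) ∣ ((q * j + r : ℕ) : ℤ) ^ ((l : ℕ) + 1) - (r : ℤ) ^ ((l : ℕ) + 1)) := by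
      refine dvd_trans ?_ (sub_dvd_pow_sub_pow _ _ _)
      push_cast
      rw [add_sub_cancel_right]
      exact dvd_mul_right _ _
    obtain ⟨k, hk⟩ := h2
    refine ⟨k, ?_⟩
    have h3 : ((q * j + r : ℕ) : ℤ) ^ ((l : ℕ) + 1) = (r : ℤ) ^ ((l : ℕ) + 1) + q * k := by
      rw [← hk]
      ring
    exact_mod_cast h3
  choose k hk using h1
  have h2 : ph β (q * j + r) = ph β r + ((∑ l, z l * k l : ℤ) : ℝ) := by
    unfold ph
    push_cast
    rw [← Finset.sum_add_distrib]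
    refine Finset.sum_congr rfl fun l _ => ?_
    have h3 := hk l
    push_cast at h3
    rw [h3, ← hz l]
    ring
  rw [h2, e_add_int]

/-- if Q is a multiple of the denominator q the mean over Q is the mean over q, because
e(ph beta n) depends only on n mod q (n^(l+1) mod q) -/
theorem a_dvd (q Q : ℕ) (hq : 1 ≤ q) (hQ : 1 ≤ Q) (h : q ∣ Q) (β : Fin d → ℝ) (hβ : Den q β) :
    a Q β = a q β := by
  obtain ⟨m, rfl⟩ := h
  have hm : 0 < m := Nat.pos_of_ne_zero (by rintro rfl; omega)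
  have h1 : ∀ m : ℕ, ∑ n ∈ range (q * m), e (ph β n) = m * ∑ n ∈ range q, e (ph β n) := by
    intro m
    induction m with
    | zero => simp
    | succ m ih =>
      rw [Nat.mul_succ, Finset.sum_range_add, ih,
        Finset.sum_congr rfl fun n _ => AA2_per q β hβ n m]
      push_cast
      ring
  have hq0 : (q : ℂ) ≠ 0 := by exact_mod_cast (by omega : q ≠ 0)
  have hm0 : (m : ℂ) ≠ 0 := by exact_mod_cast (by omega : m ≠ 0)
  unfold a
  rw [h1]
  push_cast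
  field_simp
/- END AA2 -/

/- MODULE AA3 -/
private theorem AA3_add (β ζ : Fin d → ℝ) (n : ℕ) : ph (β + ζ) n = ph β n + ph ζ n := by
  unfold ph
  rw [← sum_add_distrib]
  exact sum_congr rfl fun l _ => by rw [Pi.add_apply, add_mul]

private theorem AA3_per (q : ℕ) (β : Fin d → ℝ) (hβ : Den q β) (m r : ℕ) :
    e (ph β (q * m + r)) = e (ph β r) := by
  unfold ph
  rw [e_sum, e_sum]
  refine prod_congr rfl fun l _ => ?_
  obtain ⟨z, hz⟩ := hβ l
  have h1 : ((q : ℤ) * m) ∣ ((q : ℤ) * m + r) ^ ((l : ℕ) + 1) - (r : ℤ) ^ ((l : ℕ) + 1) := by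
    have h2 := sub_dvd_pow_sub_pow ((q : ℤ) * m + r) (r : ℤ) ((l : ℕ) + 1)
    rwa [add_sub_cancel_right] at h2
  obtain ⟨w, hw⟩ := h1
  have h3 : ((q : ℝ) * m + r) ^ ((l : ℕ) + 1) = (r : ℝ) ^ ((l : ℕ) + 1) + (q : ℝ) * m * w := by
    have h4 : (((q : ℤ) * m + r) ^ ((l : ℕ) + 1) : ℤ)
        = (r : ℤ) ^ ((l : ℕ) + 1) + (q : ℤ) * m * w := by linarith
    exact_mod_cast h4
  have h5 : β l * ((q * m + r : ℕ) : ℝ) ^ ((l : ℕ) + 1)
      = β l * (r : ℝ) ^ ((l : ℕ) + 1) + ((z * (m * w) : ℤ) : ℝ) := by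
    push_cast
    rw [h3, mul_add, ← hz]
    ring
  rw [h5, e_add_int]

private theorem AA3_diff (q N n : ℕ) (hq : 1 ≤ q) (hn : n < N) (ζ : Fin d → ℝ) :
    |ph ζ n - ph ζ (q * (n / q))| ≤ d * q * M ζ N / N := by
  have hNR : (0 : ℝ) < N := by
    have : 0 < N := by omega
    exact_mod_cast this
  unfold ph
  rw [← sum_sub_distrib]
  refine (abs_sum_le_sum_abs _ _).trans ?_
  have h1 : ∀ l ∈ (univ : Finset (Fin d)),
      |ζ l * (n : ℝ) ^ ((l : ℕ) + 1) - ζ l * ((q * (n / q) : ℕ) : ℝ) ^ ((l : ℕ) + 1)|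
      ≤ d * q / N * (|ζ l| * (N : ℝ) ^ ((l : ℕ) + 1)) := by
    intro l _
    rw [← mul_sub, abs_mul]
    have h2 := abs_pow_sub_pow_le (n : ℝ) ((q * (n / q) : ℕ) : ℝ) ((l : ℕ) + 1)
    have h3 : q * (n / q) ≤ n := Nat.mul_div_le n q
    have h4 : n ≤ q * (n / q) + q := by
      have h5 := Nat.lt_mul_div_succ n (show 0 < q by omega)
      rw [Nat.mul_add, mul_one] at h5
      omega
    have h6 : |(n : ℝ) - ((q * (n / q) : ℕ) : ℝ)| ≤ q := by
      rw [abs_le]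
      constructor
      · have : ((q * (n / q) : ℕ) : ℝ) ≤ n := by exact_mod_cast h3
        have hq0 : (0 : ℝ) ≤ q := Nat.cast_nonneg q
        linarith
      · have : (n : ℝ) ≤ ((q * (n / q) : ℕ) : ℝ) + q := by exact_mod_cast h4
        linarith
    have h7 : max |(n : ℝ)| |((q * (n / q) : ℕ) : ℝ)| ≤ N := by
      rw [Nat.abs_cast, Nat.abs_cast]
      refine max_le ?_ ?_
      · exact_mod_cast hn.le
      · exact_mod_cast h3.trans hn.le
    have h8 : |(n : ℝ) ^ ((l : ℕ) + 1) - ((q * (n / q) : ℕ) : ℝ) ^ ((l : ℕ) + 1)|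
        ≤ q * d * (N : ℝ) ^ (l : ℕ) := by
      refine h2.trans ?_
      rw [Nat.add_sub_cancel]
      have h9 : (((l : ℕ) + 1 : ℕ) : ℝ) ≤ d := by
        have := l.2
        exact_mod_cast this
      have h10 : max |(n : ℝ)| |((q * (n / q) : ℕ) : ℝ)| ^ (l : ℕ) ≤ (N : ℝ) ^ (l : ℕ) :=
        pow_le_pow_left₀ ((abs_nonneg _).trans (le_max_left _ _)) h7 _
      have h11 : |(n : ℝ) - ((q * (n / q) : ℕ) : ℝ)| * (((l : ℕ) + 1 : ℕ) : ℝ) ≤ q * d :=
        mul_le_mul h6 h9 (Nat.cast_nonneg _) (Nat.cast_nonneg _)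
      exact mul_le_mul h11 h10 (pow_nonneg ((abs_nonneg _).trans (le_max_left _ _)) _)
        (mul_nonneg (Nat.cast_nonneg _) (Nat.cast_nonneg _))
    calc |ζ l| * |(n : ℝ) ^ ((l : ℕ) + 1) - ((q * (n / q) : ℕ) : ℝ) ^ ((l : ℕ) + 1)|
        ≤ |ζ l| * (q * d * (N : ℝ) ^ (l : ℕ)) := mul_le_mul_of_nonneg_left h8 (abs_nonneg _)
      _ = d * q / N * (|ζ l| * (N : ℝ) ^ ((l : ℕ) + 1)) := by
          rw [pow_succ]
          field_simp
  refine (sum_le_sum h1).trans (le_of_eq ?_)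
  rw [← mul_sum]
  unfold M
  ring

private theorem AA3_blocks (q K : ℕ) (f : ℕ → ℂ) :
    ∑ x ∈ range (q * K), f x = ∑ m ∈ range K, ∑ r ∈ range q, f (q * m + r) := by
  induction K with
  | zero => simp
  | succ K ih => rw [Nat.mul_succ, sum_range_add, ih, sum_range_succ]

/-- Factorisation near a fraction. Write n = r + q m. Replace e(ph zeta n) by e(ph zeta (q (n/q))):
error per term 7 * sum |zeta_l| (n^(l+1) - (q (n/q))^(l+1)) ≤ 7 * sum |zeta_l| (l+1) N^l q ≤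
7 d q M/N. The sum over full periods n < q (N/q) of e(ph beta n) e(ph zeta (q (n/q))) is
(sum over r < q of e(ph beta r)) * sum over m < N/q of e(ph zeta (q m)); at most q terms remain.
The same for beta = 0 turns q * sum over m back into the sum over n < N of e(ph zeta n).
(|a q beta| ≤ 1; total error ≤ 2 * 7 d q M + 2 q.) -/
theorem a_fac (q N : ℕ) (hq : 1 ≤ q) (hN : 1 ≤ N) (β ζ : Fin d → ℝ) (hβ : Den q β) :
    ‖a N (β + ζ) - a q β * a N ζ‖ ≤ (14 * d + 2) * q * (1 + M ζ N) / N := by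
  have hNR : (0 : ℝ) < N := by exact_mod_cast hN
  have hM : 0 ≤ M ζ N := M_nonneg ζ N
  have hKN : q * (N / q) ≤ N := Nat.mul_div_le N q
  set K := N / q with hK
  -- the two sums
  have hA : ‖∑ n ∈ range N, (e (ph (β + ζ) n) - e (ph β n) * e (ph ζ (q * (n / q))))‖
      ≤ 7 * d * q * M ζ N := by
    refine (norm_sum_le _ _).trans ?_
    have h1 : ∀ n ∈ range N, ‖e (ph (β + ζ) n) - e (ph β n) * e (ph ζ (q * (n / q)))‖
        ≤ 7 * (d * q * M ζ N / N) := by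
      intro n hn
      rw [AA3_add, e_add, ← mul_sub, norm_mul, norm_e, one_mul]
      refine (norm_e_sub_e _ _).trans ?_
      exact mul_le_mul_of_nonneg_left (AA3_diff q N n hq (mem_range.1 hn) ζ) (by norm_num)
    refine (sum_le_sum h1).trans (le_of_eq ?_)
    rw [sum_const, card_range, nsmul_eq_mul]
    field_simp
  have hB : ‖∑ n ∈ range N, (e (ph ζ n) - e (ph ζ (q * (n / q))))‖ ≤ 7 * d * q * M ζ N := by
    refine (norm_sum_le _ _).trans ?_
    have h1 : ∀ n ∈ range N, ‖e (ph ζ n) - e (ph ζ (q * (n / q)))‖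
        ≤ 7 * (d * q * M ζ N / N) := by
      intro n hn
      refine (norm_e_sub_e _ _).trans ?_
      exact mul_le_mul_of_nonneg_left (AA3_diff q N n hq (mem_range.1 hn) ζ) (by norm_num)
    refine (sum_le_sum h1).trans (le_of_eq ?_)
    rw [sum_const, card_range, nsmul_eq_mul]
    field_simp
  have hC : ‖∑ n ∈ range N, (e (ph β n) - a q β) * e (ph ζ (q * (n / q)))‖ ≤ 2 * q := by
    have h2 : N = q * K + (N - q * K) := by omega
    have h3 : ∑ n ∈ range N, (e (ph β n) - a q β) * e (ph ζ (q * (n / q)))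
        = ∑ x ∈ range (q * K), (e (ph β x) - a q β) * e (ph ζ (q * (x / q)))
          + ∑ x ∈ range (N - q * K), (e (ph β (q * K + x)) - a q β)
              * e (ph ζ (q * ((q * K + x) / q))) := by
      conv_lhs => rw [h2]
      rw [sum_range_add]
    have h4 : ∑ x ∈ range (q * K), (e (ph β x) - a q β) * e (ph ζ (q * (x / q))) = 0 := by
      rw [AA3_blocks q K (fun x => (e (ph β x) - a q β) * e (ph ζ (q * (x / q))))]
      refine sum_eq_zero fun m _ => ?_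
      have h5 : ∀ r ∈ range q, (e (ph β (q * m + r)) - a q β) * e (ph ζ (q * ((q * m + r) / q)))
          = (e (ph β r) - a q β) * e (ph ζ (q * m)) := by
        intro r hr
        have hr' := mem_range.1 hr
        rw [AA3_per q β hβ m r, Nat.mul_add_div (by omega), Nat.div_eq_of_lt hr', add_zero]
      rw [sum_congr rfl h5, ← sum_mul, sum_sub_distrib, sum_const, card_range, nsmul_eq_mul]
      have h6 : ∑ n ∈ range q, e (ph β n) - (q : ℂ) * a q β = 0 := by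
        unfold a
        have h7 : (q : ℂ) ≠ 0 := by
          have : q ≠ 0 := by omega
          exact_mod_cast this
        field_simp
        ring
      rw [h6, zero_mul]
    rw [h3, h4, zero_add]
    refine (norm_sum_le _ _).trans ?_
    have h8 : ∀ x ∈ range (N - q * K), ‖(e (ph β (q * K + x)) - a q β)
        * e (ph ζ (q * ((q * K + x) / q)))‖ ≤ 2 := by
      intro x _
      rw [norm_mul, norm_e, mul_one]
      refine (norm_sub_le _ _).trans ?_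
      rw [norm_e]
      have := a_norm_le q β
      linarith
    refine (sum_le_sum h8).trans ?_
    rw [sum_const, card_range, nsmul_eq_mul, mul_comm]
    have h9 : N - q * K ≤ q := by
      have h10 := Nat.lt_mul_div_succ N (show 0 < q by omega)
      rw [← hK, Nat.mul_add, mul_one] at h10
      omega
    have h11 : ((N - q * K : ℕ) : ℝ) ≤ q := by exact_mod_cast h9
    linarith
  have hNC : (N : ℂ) ≠ 0 := by
    have : N ≠ 0 := by omega
    exact_mod_cast this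
  have hE : a N (β + ζ) - a q β * a N ζ
      = ((∑ n ∈ range N, (e (ph (β + ζ) n) - e (ph β n) * e (ph ζ (q * (n / q)))))
        - a q β * (∑ n ∈ range N, (e (ph ζ n) - e (ph ζ (q * (n / q)))))
        + ∑ n ∈ range N, (e (ph β n) - a q β) * e (ph ζ (q * (n / q)))) / (N : ℂ) := by
    have h12 : a N (β + ζ) = (∑ n ∈ range N, e (ph (β + ζ) n)) / (N : ℂ) := rfl
    have h13 : a N ζ = (∑ n ∈ range N, e (ph ζ n)) / (N : ℂ) := rfl
    rw [h12, h13]
    simp only [sub_mul, sum_sub_distrib, mul_sub, ← mul_sum]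
    field_simp
    ring
  rw [hE, norm_div, Complex.norm_natCast]
  refine div_le_div_of_nonneg_right ?_ hNR.le
  refine (norm_add_le _ _).trans ?_
  have hF : ‖a q β * (∑ n ∈ range N, (e (ph ζ n) - e (ph ζ (q * (n / q)))))‖
      ≤ 7 * d * q * M ζ N := by
    rw [norm_mul]
    calc _ ≤ 1 * (7 * d * q * M ζ N) :=
          mul_le_mul (a_norm_le q β) hB (norm_nonneg _) zero_le_one
      _ = _ := one_mul _
  have hG := norm_sub_le (∑ n ∈ range N, (e (ph (β + ζ) n) - e (ph β n) * e (ph ζ (q * (n / q)))))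
    (a q β * (∑ n ∈ range N, (e (ph ζ n) - e (ph ζ (q * (n / q))))))
  have hd0 : (0 : ℝ) ≤ d := Nat.cast_nonneg d
  have hq0 : (0 : ℝ) ≤ q := Nat.cast_nonneg q
  have h14 : 0 ≤ (d : ℝ) * q := mul_nonneg hd0 hq0
  have h15 : 0 ≤ (q : ℝ) * M ζ N := mul_nonneg hq0 hM
  nlinarith
/- END AA3 -/

/- MODULE AA4 -/
/-- Denominators. -/
theorem den_add (q : ℕ) (β γ : Fin d → ℝ) (h1 : Den q β) (h2 : Den q γ) : Den q (β + γ) := by
  intro l
  obtain ⟨z, hz⟩ := h1 l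
  obtain ⟨w, hw⟩ := h2 l
  refine ⟨z + w, ?_⟩
  rw [Pi.add_apply, mul_add, hz, hw]
  push_cast
  ring

theorem den_sub (q : ℕ) (β γ : Fin d → ℝ) (h1 : Den q β) (h2 : Den q γ) : Den q (β - γ) := by
  intro l
  obtain ⟨z, hz⟩ := h1 l
  obtain ⟨w, hw⟩ := h2 l
  refine ⟨z - w, ?_⟩
  rw [Pi.sub_apply, mul_sub, hz, hw]
  push_cast
  ring

theorem den_dvd (q Q : ℕ) (h : q ∣ Q) (β : Fin d → ℝ) (hβ : Den q β) : Den Q β := by
  obtain ⟨m, rfl⟩ := h
  intro l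
  obtain ⟨z, hz⟩ := hβ l
  refine ⟨m * z, ?_⟩
  push_cast
  rw [← hz]
  ring

theorem exists_mind (Q : ℕ) (hQ : 1 ≤ Q) (β : Fin d → ℝ) (hβ : Den Q β) :
    ∃ q : ℕ, Mind q β := by
  classical
  have h : ∃ q : ℕ, 1 ≤ q ∧ Den q β := ⟨Q, hQ, hβ⟩
  exact ⟨Nat.find h, (Nat.find_spec h).1, (Nat.find_spec h).2, fun q' h1 h2 => Nat.find_min' h ⟨h1, h2⟩⟩

/-- the least denominator divides every denominator (division with remainder) -/
theorem mind_dvd (q Q : ℕ) (β : Fin d → ℝ) (h : Mind q β) (hQ : Den Q β) : q ∣ Q := by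
  obtain ⟨hq, hd, hmin⟩ := h
  rw [Nat.dvd_iff_mod_eq_zero]
  by_contra hr
  have h1 : Den (Q % q) β := by
    intro l
    obtain ⟨z, hz⟩ := hd l
    obtain ⟨w, hw⟩ := hQ l
    refine ⟨w - (Q / q : ℕ) * z, ?_⟩
    have h2 : ((Q % q : ℕ) : ℝ) = (Q : ℝ) - (q : ℝ) * ((Q / q : ℕ) : ℝ) := by
      have := Nat.mod_add_div Q q
      have h3 : ((Q % q : ℕ) : ℝ) + (q : ℝ) * ((Q / q : ℕ) : ℝ) = (Q : ℝ) := by exact_mod_cast this
      linarith
    rw [h2, Int.cast_sub, Int.cast_mul, Int.cast_natCast, ← hz, ← hw]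
    ring
  have h4 := hmin _ (Nat.one_le_iff_ne_zero.mpr hr) h1
  have h5 := Nat.mod_lt Q (show q > 0 by omega)
  omega

/-- two different vectors with denominators q, q' are at distance at least 1/(q q') in one
coordinate -/
theorem den_sep (q q' : ℕ) (hq : 1 ≤ q) (hq' : 1 ≤ q') (β β' : Fin d → ℝ) (h : Den q β)
    (h' : Den q' β') (hne : β ≠ β') : ∃ l, 1 / ((q : ℝ) * q') ≤ |β l - β' l| := by
  obtain ⟨l, hl⟩ := Function.ne_iff.mp hne
  refine ⟨l, ?_⟩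
  obtain ⟨z, hz⟩ := h l
  obtain ⟨w, hw⟩ := h' l
  have hq0 : (0 : ℝ) < q := by exact_mod_cast hq
  have hq0' : (0 : ℝ) < q' := by exact_mod_cast hq'
  have h1 : ((q' * z - q * w : ℤ) : ℝ) = (q : ℝ) * q' * (β l - β' l) := by
    push_cast
    rw [← hz, ← hw]
    ring
  have h2 : (q' * z - q * w : ℤ) ≠ 0 := by
    intro h0
    rw [h0, Int.cast_zero] at h1
    have h3 : β l - β' l = 0 := by
      rcases mul_eq_zero.mp h1.symm with h4 | h4
      · exact absurd h4 (mul_pos hq0 hq0').ne'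
      · exact h4
    exact hl (sub_eq_zero.mp h3)
  have h3 : (1 : ℝ) ≤ |((q' * z - q * w : ℤ) : ℝ)| := by
    rw [← Int.cast_abs]
    exact_mod_cast Int.one_le_abs h2
  rw [h1, abs_mul, abs_of_pos (mul_pos hq0 hq0')] at h3
  rw [div_le_iff₀ (mul_pos hq0 hq0')]
  linarith
/- END AA4 -/

/- MODULE AA5 -/
private theorem AA5_inv (C0 : ℕ) (hC0 : 1 ≤ C0) (x y : ℝ) (hx : 0 < x) (hy : 0 < y)
    (h : y ≤ pb C0 (1 / x)) : x ≤ (C0 : ℝ) ^ ((C0 : ℝ)⁻¹) * y ^ (-((C0 : ℝ)⁻¹)) := by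
  have hC : (0 : ℝ) < C0 := by exact_mod_cast hC0
  unfold pb at h
  rw [one_div, inv_pow, ← div_eq_mul_inv, le_div_iff₀ (by positivity)] at h
  have h1 : x ^ C0 ≤ (C0 : ℝ) / y := by
    rw [le_div_iff₀ hy]
    linarith
  have h2 := Real.rpow_le_rpow (by positivity) h1 (z := (C0 : ℝ)⁻¹) (by positivity)
  rw [Real.pow_rpow_inv_natCast hx.le (by omega), Real.div_rpow hC.le hy.le] at h2
  rw [Real.rpow_neg hy.le, ← div_eq_mul_inv]
  exact h2

/-- Decay of complete sums. Let x = |a q beta| > 0, D = 1/x, C from it_a. For every m ≥ 1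
a (q m) beta = a q beta (a_dvd), so it_a gives q' ≤ pb C D with nrm (q' beta_l) (q m)^(l+1) ≤ pb C D
for all l; q * (q' beta_l) is an integer, so nrm (q' beta_l) is 0 or ≥ 1/q; for m > pb C D it is 0.
So Den q' beta, q ≤ q' ≤ C x^(-C), x ≤ (C/q)^(1/C). -/
theorem a_dec (d : ℕ) :
    ∃ C c : ℝ, 0 < C ∧ 0 < c ∧ c ≤ 1 ∧ ∀ (q : ℕ) (β : Fin d → ℝ), Mind q β →
      ‖a q β‖ ≤ C * (q : ℝ) ^ (-c) := by
  obtain ⟨C0, hC0, hit⟩ := it_a d
  have hC : (0 : ℝ) < C0 := by exact_mod_cast hC0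
  refine ⟨(C0 : ℝ) ^ ((C0 : ℝ)⁻¹), (C0 : ℝ)⁻¹, by positivity, by positivity,
    inv_le_one_of_one_le₀ (by exact_mod_cast hC0), ?_⟩
  intro q β hm
  obtain ⟨hq, hd, hmin⟩ := hm
  have hq0 : (0 : ℝ) < q := by exact_mod_cast hq
  rcases (norm_nonneg (a q β)).eq_or_lt with h0 | hx
  · rw [← h0]
    positivity
  apply AA5_inv C0 hC0 _ _ hx hq0
  obtain ⟨D, hD⟩ : ∃ D : ℝ, D = 1 / ‖a q β‖ := ⟨_, rfl⟩
  have hx1 : ‖a q β‖ ≤ 1 := a_norm_le _ _
  have hD1 : 1 ≤ D := by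
    rw [hD, le_div_iff₀ hx]
    linarith
  have hDx : D * ‖a q β‖ = 1 := by
    rw [hD]
    exact one_div_mul_cancel hx.ne'
  rw [← hD]
  obtain ⟨m, hm⟩ := exists_nat_gt (pb C0 D)
  have hP : 1 ≤ pb C0 D := one_le_pb hC0 hD1
  have hm1 : 1 ≤ m := by
    by_contra h
    have : m = 0 := by omega
    rw [this, Nat.cast_zero] at hm
    linarith
  have hqm : 1 ≤ q * m := Nat.mul_pos hq hm1
  have haq : a (q * m) β = a q β := a_dvd q (q * m) hq hqm (dvd_mul_right q m) β hd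
  obtain ⟨q', hq', hq'P, hl⟩ := hit β (q * m) D hqm hD1 (by rw [haq, hDx])
  refine le_trans ?_ hq'P
  have hDen : Den q' β := by
    intro l
    obtain ⟨z, hz⟩ := hd l
    obtain ⟨w, hw⟩ := exists_nrm ((q' : ℝ) * β l)
    by_cases h1 : (q' * z - q * w : ℤ) = 0
    · refine ⟨w, ?_⟩
      have h2 : (q' : ℝ) * z - q * w = 0 := by exact_mod_cast h1
      rw [← hz] at h2
      have h3 : (q : ℝ) * (q' * β l - w) = 0 := by linarith
      rcases mul_eq_zero.mp h3 with h4 | h4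
      · exact absurd h4 hq0.ne'
      · linarith
    · exfalso
      have h2 : (1 : ℝ) ≤ |((q' * z - q * w : ℤ) : ℝ)| := by
        rw [← Int.cast_abs]
        exact_mod_cast Int.one_le_abs h1
      have h3 : ((q' * z - q * w : ℤ) : ℝ) = q * (q' * β l - w) := by
        push_cast
        rw [← hz]
        ring
      rw [h3, abs_mul, abs_of_pos hq0, ← hw] at h2
      have h4 := hl l
      have h5 : (q : ℝ) * m ≤ ((q * m : ℕ) : ℝ) ^ ((l : ℕ) + 1) := by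
        push_cast
        have h6 : (1 : ℝ) ≤ (q : ℝ) * m := by exact_mod_cast hqm
        calc (q : ℝ) * m = ((q : ℝ) * m) ^ 1 := (pow_one _).symm
          _ ≤ _ := pow_le_pow_right₀ h6 (by omega)
      have h6 : nrm ((q' : ℝ) * β l) * ((q : ℝ) * m) ≤ pb C0 D :=
        (mul_le_mul_of_nonneg_left h5 (nrm_nonneg _)).trans h4
      have hm0 : (0 : ℝ) ≤ m := Nat.cast_nonneg m
      have h7 : (m : ℝ) ≤ nrm ((q' : ℝ) * β l) * ((q : ℝ) * m) := by nlinarith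
      linarith
  exact_mod_cast hmin q' hq' hDen
/- END AA5 -/

/- MODULE AA6 -/
private theorem AA6_inv (C0 : ℕ) (hC0 : 1 ≤ C0) (x y A : ℝ) (hx : 0 < x) (hy : 0 < y)
    (hA : 0 ≤ A) (h : y ≤ A * pb C0 (1 / x)) :
    x ≤ (A * C0) ^ ((C0 : ℝ)⁻¹) * y ^ (-((C0 : ℝ)⁻¹)) := by
  have hC : (0 : ℝ) < C0 := by exact_mod_cast hC0
  unfold pb at h
  rw [← mul_assoc, one_div, inv_pow, ← div_eq_mul_inv, le_div_iff₀ (by positivity)] at h
  have h1 : x ^ C0 ≤ (A * C0) / y := by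
    rw [le_div_iff₀ hy]
    linarith
  have h2 := Real.rpow_le_rpow (by positivity) h1 (z := (C0 : ℝ)⁻¹) (by positivity)
  rw [Real.pow_rpow_inv_natCast hx.le (by omega), Real.div_rpow (by positivity) hy.le] at h2
  rw [Real.rpow_neg hy.le, ← div_eq_mul_inv]
  exact h2

/-- Decay away from the fraction. Let x = |a N (beta + zeta)| > 0, D = 1/x, C from it_a, q' ≤ pb C D
with nrm (q' xi_l) N^(l+1) ≤ pb C D, xi = beta + zeta. Then q' q zeta_l = q (q' xi_l) - q' (q beta_l),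
so nrm (q' q zeta_l) ≤ q pb C D/N^(l+1). If pb C D * q * t < 1/2 then |q' q zeta_l| < 1/2, so
q' q |zeta_l| N^(l+1) ≤ q pb C D, |zeta_l| N^(l+1) ≤ pb C D, M ≤ d pb C D = d C x^(-C):
x ≤ (d C/M)^(1/C). Otherwise C x^(-C) q t ≥ 1/2: x ≤ (2 C q t)^(1/C). c = 1/C. (d = 0: M = 0.) -/
theorem a_far (d : ℕ) :
    ∃ C c : ℝ, 0 < C ∧ 0 < c ∧ c ≤ 1 ∧ ∀ (q N : ℕ) (t : ℝ) (β ζ : Fin d → ℝ), 1 ≤ q → 1 ≤ N →
      0 ≤ t → Den q β → (∀ l, |ζ l| ≤ t) → 0 < M ζ N →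
      ‖a N (β + ζ)‖ ≤ C * ((q * t) ^ c + (M ζ N) ^ (-c)) := by
  obtain ⟨C0, hC0, hit⟩ := it_a d
  have hC : (0 : ℝ) < C0 := by exact_mod_cast hC0
  refine ⟨((d : ℝ) * C0) ^ ((C0 : ℝ)⁻¹) + (2 * (C0 : ℝ)) ^ ((C0 : ℝ)⁻¹), (C0 : ℝ)⁻¹, by positivity,
    by positivity, inv_le_one_of_one_le₀ (by exact_mod_cast hC0), ?_⟩
  intro q N t β ζ hq hN ht hd hζ hM
  have hq0 : (0 : ℝ) < q := by exact_mod_cast hq
  have hN0 : (0 : ℝ) < N := by exact_mod_cast hN
  have hqt : (0 : ℝ) ≤ (q * t) ^ ((C0 : ℝ)⁻¹) := Real.rpow_nonneg (by positivity) _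
  have hMc : (0 : ℝ) ≤ (M ζ N) ^ (-((C0 : ℝ)⁻¹)) := Real.rpow_nonneg hM.le _
  have hA1 : (0 : ℝ) ≤ ((d : ℝ) * C0) ^ ((C0 : ℝ)⁻¹) := Real.rpow_nonneg (by positivity) _
  have hA2 : (0 : ℝ) ≤ (2 * (C0 : ℝ)) ^ ((C0 : ℝ)⁻¹) := Real.rpow_nonneg (by positivity) _
  rcases (norm_nonneg (a N (β + ζ))).eq_or_lt with h0 | hx
  · rw [← h0]
    positivity
  obtain ⟨D, hD⟩ : ∃ D : ℝ, D = 1 / ‖a N (β + ζ)‖ := ⟨_, rfl⟩
  have hx1 : ‖a N (β + ζ)‖ ≤ 1 := a_norm_le _ _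
  have hD1 : 1 ≤ D := by
    rw [hD, le_div_iff₀ hx]
    linarith
  have hDx : D * ‖a N (β + ζ)‖ = 1 := by
    rw [hD]
    exact one_div_mul_cancel hx.ne'
  have hP : 1 ≤ pb C0 D := one_le_pb hC0 hD1
  obtain ⟨q', hq', hq'P, hl⟩ := hit (β + ζ) N D hN hD1 (by rw [hDx])
  have hq0' : (1 : ℝ) ≤ q' := by exact_mod_cast hq'
  by_cases hcase : pb C0 D * q * t < 1 / 2
  · have hcoord : ∀ l : Fin d, |ζ l| * (N : ℝ) ^ ((l : ℕ) + 1) ≤ pb C0 D := by
      intro l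
      obtain ⟨z, hz⟩ := hd l
      have h1 : (q : ℝ) * (q' * (β + ζ) l) = (q' : ℝ) * q * ζ l + ((q' * z : ℤ) : ℝ) := by
        rw [Pi.add_apply]
        push_cast
        rw [← hz]
        ring
      have h2 : nrm ((q' : ℝ) * q * ζ l) ≤ q * nrm (q' * (β + ζ) l) := by
        rw [← nrm_add_int ((q' : ℝ) * q * ζ l) (q' * z), ← h1]
        exact nrm_nat_mul_le _ _
      have h3 : |(q' : ℝ) * q * ζ l| ≤ 1 / 2 := by
        rw [abs_mul, abs_of_nonneg (by positivity)]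
        calc (q' : ℝ) * q * |ζ l| ≤ pb C0 D * q * t :=
              mul_le_mul (mul_le_mul_of_nonneg_right hq'P hq0.le) (hζ l) (abs_nonneg _) (by positivity)
          _ ≤ 1 / 2 := hcase.le
      rw [nrm_eq_abs h3, abs_mul, abs_of_nonneg (by positivity)] at h2
      have h4 : |ζ l| ≤ nrm (q' * (β + ζ) l) := by
        have h5 : (q : ℝ) * |ζ l| ≤ q * nrm (q' * (β + ζ) l) := by
          have h6 : (q : ℝ) * |ζ l| ≤ (q' : ℝ) * q * |ζ l| := by
            have : 0 ≤ (q : ℝ) * |ζ l| := by positivity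
            nlinarith
          exact h6.trans h2
        exact le_of_mul_le_mul_left h5 hq0
      exact (mul_le_mul_of_nonneg_right h4 (by positivity)).trans (hl l)
    have hMd : M ζ N ≤ d * pb C0 D := by
      unfold M
      refine (Finset.sum_le_sum fun l _ => hcoord l).trans (le_of_eq ?_)
      rw [Finset.sum_const, Finset.card_univ, Fintype.card_fin, nsmul_eq_mul]
    rw [hD] at hMd
    have h := AA6_inv C0 hC0 _ _ d hx hM (Nat.cast_nonneg d) hMd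
    refine h.trans ?_
    nlinarith [mul_nonneg hA1 hqt, mul_nonneg hA2 hqt, mul_nonneg hA2 hMc]
  · push Not at hcase
    have hqt0 : 0 < q * t := by
      rcases (mul_nonneg hq0.le ht).eq_or_lt with h | h
      · rw [mul_assoc, ← h, mul_zero] at hcase
        norm_num at hcase
      · exact h
    have h1 : (q * t)⁻¹ ≤ 2 * pb C0 (1 / ‖a N (β + ζ)‖) := by
      rw [← hD, inv_eq_one_div, div_le_iff₀ hqt0]
      linarith
    have h := AA6_inv C0 hC0 _ _ 2 hx (inv_pos.mpr hqt0) (by norm_num) h1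
    rw [Real.inv_rpow hqt0.le, Real.rpow_neg hqt0.le, inv_inv] at h
    refine h.trans ?_
    nlinarith [mul_nonneg hA1 hqt, mul_nonneg hA1 hMc, mul_nonneg hA2 hMc]
/- END AA6 -/

/- MODULE AA7 -/
private theorem AA7_dist (q N : ℕ) (hq : 1 ≤ q) (hN : 1 ≤ N) (β ζ : Fin d → ℝ) (hβ : Den q β) :
    ‖a N (β + ζ) - a q β‖ ≤ (14 * d + 2) * q * (1 + M ζ N) / N + 7 * M ζ N := by
  have h1 := a_fac q N hq hN β ζ hβ
  have h2 := a_one N hN ζ
  have h3 : a N (β + ζ) - a q β = (a N (β + ζ) - a q β * a N ζ) + a q β * (a N ζ - 1) := by ring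
  rw [h3]
  refine (norm_add_le _ _).trans (add_le_add h1 ?_)
  rw [norm_mul]
  calc ‖a q β‖ * ‖a N ζ - 1‖ ≤ 1 * (7 * M ζ N) :=
        mul_le_mul (a_norm_le _ _) h2 (norm_nonneg _) zero_le_one
    _ = _ := one_mul _

private theorem AA7_M (ζ : Fin d → ℝ) (u k k1 : ℕ) (X : ℝ) (hk : k + 1 ≤ k1)
    (hζ : ∀ l, |ζ l| * ((Nk u k1 : ℕ) : ℝ) ^ ((l : ℕ) + 1) ≤ X) :
    M ζ (Nk u (k + 1)) * 2 ^ k1 ≤ d * X * 2 ^ (k + 1) := by
  unfold M
  rw [Finset.sum_mul]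
  have h1 : ∀ l ∈ (Finset.univ : Finset (Fin d)),
      |ζ l| * ((Nk u (k + 1) : ℕ) : ℝ) ^ ((l : ℕ) + 1) * 2 ^ k1 ≤ X * 2 ^ (k + 1) := by
    intro l _
    have hN : ((Nk u (k + 1) : ℕ) : ℝ) * 2 ^ k1 = ((Nk u k1 : ℕ) : ℝ) * 2 ^ (k + 1) := by
      unfold Nk
      push_cast
      ring
    have hle : ((Nk u (k + 1) : ℕ) : ℝ) ≤ ((Nk u k1 : ℕ) : ℝ) := by
      unfold Nk
      exact_mod_cast Nat.mul_le_mul_left u (Nat.pow_le_pow_right (by norm_num) hk)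
    have h0 : (0 : ℝ) ≤ ((Nk u (k + 1) : ℕ) : ℝ) := Nat.cast_nonneg _
    have h00 : (0 : ℝ) ≤ ((Nk u k1 : ℕ) : ℝ) := Nat.cast_nonneg _
    have hp : ((Nk u (k + 1) : ℕ) : ℝ) ^ (l : ℕ) ≤ ((Nk u k1 : ℕ) : ℝ) ^ (l : ℕ) :=
      pow_le_pow_left₀ h0 hle _
    calc |ζ l| * ((Nk u (k + 1) : ℕ) : ℝ) ^ ((l : ℕ) + 1) * 2 ^ k1 =
        |ζ l| * (((Nk u (k + 1) : ℕ) : ℝ) ^ (l : ℕ) * (((Nk u (k + 1) : ℕ) : ℝ) * 2 ^ k1)) := by
          rw [pow_succ]
          ring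
      _ = |ζ l| * (((Nk u (k + 1) : ℕ) : ℝ) ^ (l : ℕ) * (((Nk u k1 : ℕ) : ℝ) * 2 ^ (k + 1))) := by
          rw [hN]
      _ ≤ |ζ l| * (((Nk u k1 : ℕ) : ℝ) ^ (l : ℕ) * (((Nk u k1 : ℕ) : ℝ) * 2 ^ (k + 1))) :=
          mul_le_mul_of_nonneg_left (mul_le_mul_of_nonneg_right hp (by positivity)) (abs_nonneg _)
      _ = |ζ l| * ((Nk u k1 : ℕ) : ℝ) ^ ((l : ℕ) + 1) * 2 ^ (k + 1) := by
          rw [pow_succ]
          ring
      _ ≤ X * 2 ^ (k + 1) := mul_le_mul_of_nonneg_right (hζ l) (by positivity)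
  refine (Finset.sum_le_sum h1).trans (le_of_eq ?_)
  rw [Finset.sum_const, Finset.card_univ, Fintype.card_fin, nsmul_eq_mul]
  ring

private theorem AA7_mono (ζ : Fin d → ℝ) (N N' : ℕ) (h : N ≤ N') : M ζ N ≤ M ζ N' := by
  unfold M
  refine Finset.sum_le_sum fun l _ => mul_le_mul_of_nonneg_left ?_ (abs_nonneg _)
  exact pow_le_pow_left₀ (Nat.cast_nonneg _) (by exact_mod_cast h) _

/-- The number of scales with a large increment. Let X = pb C (2 D), C from it_a (X ≥ 1), and S the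
set of k < K with |a (Nk u (k+1)) xi - a (Nk u k) xi| ≥ 1/D. Let k1 be its largest element. One of
|a (Nk u k1)|, |a (Nk u (k1+1))| is ≥ 1/(2D), so there is q ≤ X with
nrm (q xi_l) (Nk u k1)^(l+1) ≤ X; put beta_l = round (q xi_l)/q, zeta = xi - beta: |zeta_l| ≤
X/(Nk u k1)^(l+1). For k < k1: M zeta (Nk u (k+1)) ≤ d X 2^(k+1-k1) (exponents l+1 ≥ 1). By a_fac and
a_one |a N xi - a q beta| ≤ (14 d + 2) X (1 + M)/N + 7 M for N = Nk u k, Nk u (k+1). So if k in S,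
k < k1, then 1/D ≤ 2 (...) and either 2^k ≤ c1 X D (1 + d X) or 2^(k1 - k) ≤ c2 d X D: in both cases
k lies in one of two ranges of length C' (1 + log D). -/
theorem a_cnt (d : ℕ) :
    ∃ C : ℝ, 0 < C ∧ ∀ (u : ℕ), 1 ≤ u → ∀ (ξ : Fin d → ℝ) (D : ℝ), 1 ≤ D → ∀ K : ℕ,
      (((range K).filter (fun k => 1 ≤ D * ‖a (Nk u (k + 1)) ξ - a (Nk u k) ξ‖)).card : ℝ)
        ≤ C * (1 + Real.log D) := by
  classical
  obtain ⟨C0, hC0, hit⟩ := it_a d
  have hC : (1 : ℝ) ≤ C0 := by exact_mod_cast hC0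
  obtain ⟨c, hc⟩ : ∃ c : ℝ, c = 56 * (14 * d + 2) * (d + 1) * (C0 : ℝ) ^ 2 * 2 ^ (2 * C0) := ⟨_, rfl⟩
  have hd0 : (0 : ℝ) ≤ d := Nat.cast_nonneg d
  have hc1 : 1 ≤ c := by
    rw [hc]
    have h1 : (1 : ℝ) ≤ 56 * (14 * d + 2) := by linarith
    have h2 : (1 : ℝ) ≤ (d : ℝ) + 1 := by linarith
    have h3 : (1 : ℝ) ≤ (C0 : ℝ) ^ 2 := one_le_pow₀ hC
    have h4 : (1 : ℝ) ≤ 2 ^ (2 * C0) := one_le_pow₀ (by norm_num)
    exact one_le_mul_of_one_le_of_one_le (one_le_mul_of_one_le_of_one_le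
      (one_le_mul_of_one_le_of_one_le h1 h2) h3) h4
  have hlogc : 0 ≤ Real.log c := Real.log_nonneg hc1
  refine ⟨2 + 4 * Real.log c + 4 * ((2 * C0 + 1 : ℕ) : ℝ), by positivity, ?_⟩
  intro u hu ξ D hD K
  have hD0 : 0 < D := by linarith
  have hlogD : 0 ≤ Real.log D := Real.log_nonneg hD
  obtain ⟨S, hS⟩ : ∃ S : Finset ℕ,
    S = (range K).filter (fun k => 1 ≤ D * ‖a (Nk u (k + 1)) ξ - a (Nk u k) ξ‖) := ⟨_, rfl⟩
  rw [← hS]
  rcases S.eq_empty_or_nonempty with h0 | hne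
  · rw [h0, card_empty, Nat.cast_zero]
    positivity
  have hSmem : ∀ k ∈ S, 1 ≤ D * ‖a (Nk u (k + 1)) ξ - a (Nk u k) ξ‖ := by
    intro k hk
    rw [hS, mem_filter] at hk
    exact hk.2
  obtain ⟨k1, hk1, hmax⟩ : ∃ k1 ∈ S, ∀ k ∈ S, k ≤ k1 :=
    ⟨S.max' hne, S.max'_mem hne, fun k hk => S.le_max' k hk⟩
  have hNpos : ∀ k, 1 ≤ Nk u k := fun k => by
    unfold Nk
    exact Nat.mul_pos hu (Nat.pow_pos (by norm_num))
  have hNmono : ∀ k k', k ≤ k' → Nk u k ≤ Nk u k' := fun k k' h => by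
    unfold Nk
    exact Nat.mul_le_mul_left u (Nat.pow_le_pow_right (by norm_num) h)
  obtain ⟨N', hN', hbig⟩ : ∃ N', Nk u k1 ≤ N' ∧ 1 ≤ 2 * D * ‖a N' ξ‖ := by
    have h1 := hSmem k1 hk1
    have h2 := norm_sub_le (a (Nk u (k1 + 1)) ξ) (a (Nk u k1) ξ)
    by_cases h3 : 1 ≤ 2 * D * ‖a (Nk u (k1 + 1)) ξ‖
    · exact ⟨_, hNmono _ _ (Nat.le_succ _), h3⟩
    · refine ⟨_, le_rfl, ?_⟩
      push Not at h3
      have h4 := mul_le_mul_of_nonneg_left h2 hD0.le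
      nlinarith
  obtain ⟨X, hX⟩ : ∃ X : ℝ, X = pb C0 (2 * D) := ⟨_, rfl⟩
  have hX1 : 1 ≤ X := by rw [hX]; exact one_le_pb hC0 (by linarith)
  obtain ⟨q, hq, hqX, hl⟩ := hit ξ N' (2 * D) ((hNpos k1).trans hN') (by linarith) hbig
  rw [← hX] at hqX hl
  have hq0 : (0 : ℝ) < q := by exact_mod_cast hq
  have hq1 : (1 : ℝ) ≤ q := by exact_mod_cast hq
  -- the fraction
  choose z hz using fun l : Fin d => exists_nrm ((q : ℝ) * ξ l)
  obtain ⟨β, hβ⟩ : ∃ β : Fin d → ℝ, β = fun l => (z l : ℝ) / q := ⟨_, rfl⟩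
  obtain ⟨ζ, hζ⟩ : ∃ ζ : Fin d → ℝ, ζ = fun l => ξ l - β l := ⟨_, rfl⟩
  have hξ : ξ = β + ζ := by
    funext l
    rw [Pi.add_apply, hζ]
    ring
  have hDen : Den q β := by
    intro l
    refine ⟨z l, ?_⟩
    rw [hβ]
    exact mul_div_cancel₀ _ hq0.ne'
  have hζl : ∀ l, |ζ l| * ((Nk u k1 : ℕ) : ℝ) ^ ((l : ℕ) + 1) ≤ X := by
    intro l
    have h1 : |ζ l| ≤ nrm ((q : ℝ) * ξ l) := by
      have h2 : (q : ℝ) * ζ l = q * ξ l - z l := by
        rw [hζ, hβ]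
        field_simp
      have h3 : nrm ((q : ℝ) * ξ l) = q * |ζ l| := by
        rw [hz l, ← h2, abs_mul, abs_of_pos hq0]
      rw [h3]
      have := abs_nonneg (ζ l)
      nlinarith
    have h4 : ((Nk u k1 : ℕ) : ℝ) ^ ((l : ℕ) + 1) ≤ ((N' : ℕ) : ℝ) ^ ((l : ℕ) + 1) :=
      pow_le_pow_left₀ (Nat.cast_nonneg _) (by exact_mod_cast hN') _
    exact (mul_le_mul h1 h4 (by positivity) (nrm_nonneg _)).trans (hl l)
  -- the bound Y
  obtain ⟨Y, hY⟩ : ∃ Y : ℝ, Y = 56 * (14 * d + 2) * (d + 1) * X ^ 2 * D := ⟨_, rfl⟩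
  have hYc : Y = c * D ^ (2 * C0 + 1) := by
    rw [hY, hX, hc]
    unfold pb
    rw [mul_pow 2 D C0]
    ring
  have hXX : X ≤ X ^ 2 := by nlinarith
  have hkey : ∀ k ∈ S, k < k1 → (2 : ℝ) ^ k ≤ Y ∨ (2 : ℝ) ^ (k1 - k) ≤ Y := by
    intro k hk hkk
    by_contra hcon
    push Not at hcon
    obtain ⟨hc1', hc2'⟩ := hcon
    have h1 := hSmem k hk
    obtain ⟨m, hm⟩ : ∃ m : ℝ, m = M ζ (Nk u (k + 1)) := ⟨_, rfl⟩
    have hm0 : 0 ≤ m := by rw [hm]; exact M_nonneg _ _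
    have hMk : M ζ (Nk u k) ≤ m := by rw [hm]; exact AA7_mono _ _ _ (hNmono _ _ (Nat.le_succ _))
    have hM2 := AA7_M ζ u k k1 X hkk hζl
    rw [← hm] at hM2
    have hpk : (0 : ℝ) < 2 ^ k := by positivity
    have hpk1 : (0 : ℝ) < 2 ^ (k1 - k) := by positivity
    have hsplit : (2 : ℝ) ^ k1 = 2 ^ (k1 - k) * 2 ^ k := by
      rw [← pow_add]
      congr 1
      omega
    have hM3 : m * 2 ^ (k1 - k) ≤ 2 * (d * X) := by
      rw [hsplit, pow_succ] at hM2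
      have : (m * 2 ^ (k1 - k)) * 2 ^ k ≤ (2 * (d * X)) * 2 ^ k := by linarith
      exact le_of_mul_le_mul_right this hpk
    have hmdX : m ≤ d * X := by
      have h2 : (2 : ℝ) ≤ 2 ^ (k1 - k) := by
        calc (2 : ℝ) = 2 ^ 1 := (pow_one _).symm
          _ ≤ 2 ^ (k1 - k) := pow_le_pow_right₀ (by norm_num) (by omega)
      have h3 := mul_le_mul_of_nonneg_left h2 hm0
      linarith
    have hNk : (2 : ℝ) ^ k ≤ ((Nk u k : ℕ) : ℝ) := by
      unfold Nk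
      push_cast
      have hu' : (1 : ℝ) ≤ u := by exact_mod_cast hu
      exact le_mul_of_one_le_left hpk.le hu'
    have hNk2 : (2 : ℝ) ^ k ≤ ((Nk u (k + 1) : ℕ) : ℝ) :=
      hNk.trans (by exact_mod_cast hNmono _ _ (Nat.le_succ _))
    have hdist : ∀ N : ℕ, 1 ≤ N → (2 : ℝ) ^ k ≤ (N : ℝ) → M ζ N ≤ m →
        ‖a N ξ - a q β‖ ≤ (14 * d + 2) * X * (1 + m) / 2 ^ k + 7 * m := by
      intro N hN1 hN2 hN3
      have h2 := AA7_dist q N hq hN1 β ζ hDen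
      rw [← hξ] at h2
      have hM0 := M_nonneg ζ N
      refine h2.trans (add_le_add ?_ (by linarith))
      have h3 : (14 * (d : ℝ) + 2) * q * (1 + M ζ N) ≤ (14 * d + 2) * X * (1 + m) :=
        mul_le_mul (mul_le_mul_of_nonneg_left hqX (by positivity)) (by linarith) (by positivity)
          (by positivity)
      exact div_le_div₀ (by positivity) h3 hpk hN2
    have hd1 := hdist _ (hNpos (k + 1)) hNk2 hm.ge
    have hd2 := hdist _ (hNpos k) hNk hMk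
    have htri : ‖a (Nk u (k + 1)) ξ - a (Nk u k) ξ‖ ≤
        2 * ((14 * d + 2) * X * (1 + m) / 2 ^ k + 7 * m) := by
      have h2 := norm_sub_le (a (Nk u (k + 1)) ξ - a q β) (a (Nk u k) ξ - a q β)
      have h3 : (a (Nk u (k + 1)) ξ - a q β) - (a (Nk u k) ξ - a q β) =
          a (Nk u (k + 1)) ξ - a (Nk u k) ξ := by ring
      rw [h3] at h2
      linarith
    -- the first term
    have hA : D * ((14 * d + 2) * X * (1 + m) / 2 ^ k) < 1 / 4 := by
      rw [← mul_div_assoc, div_lt_iff₀ hpk]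
      have h2 : D * ((14 * d + 2) * X * (1 + m)) ≤ D * ((14 * d + 2) * X * ((d + 1) * X)) := by
        refine mul_le_mul_of_nonneg_left (mul_le_mul_of_nonneg_left ?_ (by positivity)) hD0.le
        have h5 : ((d : ℝ) + 1) * X = d * X + X := by ring
        linarith
      have h3 : D * ((14 * d + 2) * X * ((d + 1) * X)) * 56 = Y := by
        rw [hY]
        ring
      linarith
    have hB : 28 * D * m < 1 := by
      have h2 : (28 * D * m) * 2 ^ (k1 - k) ≤ Y := by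
        have h3 : (28 * D * m) * 2 ^ (k1 - k) ≤ 28 * D * (2 * (d * X)) := by
          calc (28 * D * m) * 2 ^ (k1 - k) = 28 * D * (m * 2 ^ (k1 - k)) := by ring
            _ ≤ _ := mul_le_mul_of_nonneg_left hM3 (by positivity)
        refine h3.trans ?_
        rw [hY]
        have h4 : (d : ℝ) * X ≤ (14 * d + 2) * ((d + 1) * X ^ 2) := by
          have h5 : (d : ℝ) * X ≤ (d + 1) * X ^ 2 :=
            mul_le_mul (by linarith) hXX (by linarith) (by linarith)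
          have h6 : 0 ≤ ((d : ℝ) + 1) * X ^ 2 := by positivity
          exact h5.trans (le_mul_of_one_le_left h6 (by linarith))
        have h7 : D * ((d : ℝ) * X) ≤ D * ((14 * d + 2) * ((d + 1) * X ^ 2)) :=
          mul_le_mul_of_nonneg_left h4 hD0.le
        linarith
      have h8 : (28 * D * m) * 2 ^ (k1 - k) < 1 * 2 ^ (k1 - k) := by linarith
      exact lt_of_mul_lt_mul_right h8 hpk1.le
    have hfin := mul_le_mul_of_nonneg_left htri hD0.le
    obtain ⟨T, hT⟩ : ∃ T : ℝ, T = (14 * d + 2) * X * (1 + m) / 2 ^ k := ⟨_, rfl⟩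
    rw [← hT] at hfin hA
    linarith
  -- counting
  have hY1 : 1 ≤ Y := by
    rw [hYc]
    exact one_le_mul_of_one_le_of_one_le hc1 (one_le_pow₀ hD)
  obtain ⟨L, hL⟩ : ∃ L : ℕ, L = Nat.log 2 ⌊Y⌋₊ := ⟨_, rfl⟩
  have hL1 : ∀ j : ℕ, (2 : ℝ) ^ j ≤ Y → j ≤ L := by
    intro j hj
    rw [hL]
    apply Nat.le_log_of_pow_le (by norm_num)
    apply Nat.le_floor
    push_cast
    exact hj
  have hL2 : (2 : ℝ) ^ L ≤ Y := by
    have h1 : 2 ^ L ≤ ⌊Y⌋₊ := by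
      rw [hL]
      apply Nat.pow_log_le_self
      have : 1 ≤ ⌊Y⌋₊ := Nat.le_floor (by exact_mod_cast hY1)
      omega
    have h2 : ((2 ^ L : ℕ) : ℝ) ≤ (⌊Y⌋₊ : ℝ) := by exact_mod_cast h1
    push_cast at h2
    exact h2.trans (Nat.floor_le (by linarith))
  have hL3 : (L : ℝ) ≤ 2 * Real.log Y := by
    have h1 := Real.log_le_log (by positivity) hL2
    rw [Real.log_pow] at h1
    have h2 := Real.log_two_gt_d9
    have h3 : (0 : ℝ) ≤ L := Nat.cast_nonneg L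
    have h4 := mul_le_mul_of_nonneg_left (show (1 / 2 : ℝ) ≤ Real.log 2 by linarith) h3
    linarith
  have hsub : S ⊆ range (L + 1) ∪ Icc (k1 - L) k1 := by
    intro k hk
    rw [mem_union, mem_range, mem_Icc]
    rcases (hmax k hk).eq_or_lt with h | h
    · right
      omega
    · rcases hkey k hk h with h1 | h1
      · left
        have := hL1 _ h1
        omega
      · right
        have := hL1 _ h1
        omega
  have hcard : S.card ≤ 2 * (L + 1) := by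
    refine (Finset.card_le_card hsub).trans ((Finset.card_union_le _ _).trans ?_)
    rw [card_range, Nat.card_Icc]
    omega
  have hcard' : (S.card : ℝ) ≤ 2 * (L + 1) := by exact_mod_cast hcard
  refine hcard'.trans ?_
  have hlogY : Real.log Y = Real.log c + ((2 * C0 + 1 : ℕ) : ℝ) * Real.log D := by
    rw [hYc, Real.log_mul (by linarith) (by positivity), Real.log_pow]
  rw [hlogY] at hL3
  have hm0 : (0 : ℝ) ≤ ((2 * C0 + 1 : ℕ) : ℝ) := Nat.cast_nonneg _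
  have h1 := mul_nonneg hlogc hlogD
  have h2 := mul_nonneg hm0 hlogD
  have h3 : (2 + 4 * Real.log c + 4 * ((2 * C0 + 1 : ℕ) : ℝ)) * (1 + Real.log D) =
      2 + 4 * Real.log c + 4 * ((2 * C0 + 1 : ℕ) : ℝ) + 2 * Real.log D +
        4 * (Real.log c * Real.log D) + 4 * (((2 * C0 + 1 : ℕ) : ℝ) * Real.log D) := by ring
  rw [h3]
  linarith
/- END AA7 -/

/- MODULE AA8 -/
/-- From the counting to the variation. Only k with x k > 0 matter. Sort by r with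
2^(-r-1) < x k ≤ 2^(-r); since x k ≤ dl, 2^(-r-1) < dl; the number of k with x k > 2^(-r-1) is at most
C (1 + (r+1) log 2); the sum over r of 2^(-r) C (1 + (r+1)) over 2^(-r) < 2 dl is ≤ C' sqrt dl. -/
theorem var_cnt (C : ℝ) (hC : 0 < C) :
    ∃ C' : ℝ, 0 < C' ∧ ∀ x : ℕ → ℝ, (∀ k, 0 ≤ x k) →
      (∀ D : ℝ, 1 ≤ D → ∀ K : ℕ, (((range K).filter (fun k => 1 ≤ D * x k)).card : ℝ)
        ≤ C * (1 + Real.log D)) →
      ∀ (δ : ℝ), 0 < δ → δ ≤ 1 → ∀ s : Finset ℕ, (∀ k ∈ s, x k ≤ δ) →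
        ∑ k ∈ s, x k ≤ C' * Real.sqrt δ := by
  obtain ⟨ρ, hρ⟩ : ∃ ρ : ℝ, ρ = Real.sqrt (1 / 2) := ⟨_, rfl⟩
  have hρ0 : 0 < ρ := by rw [hρ]; exact Real.sqrt_pos.mpr (by norm_num)
  have hρ2 : ρ * ρ = 1 / 2 := by rw [hρ]; exact Real.mul_self_sqrt (by norm_num)
  have hρ1 : ρ < 1 := by nlinarith
  have hs : Summable fun n : ℕ => ((n : ℝ) + 1) * ρ ^ n := by
    have h1 := summable_pow_mul_geometric_of_norm_lt_one 1
      (r := ρ) (by rw [Real.norm_of_nonneg hρ0.le]; exact hρ1)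
    have h2 := summable_geometric_of_lt_one hρ0.le hρ1
    refine (h1.add h2).congr fun n => ?_
    ring
  have hnn : ∀ n : ℕ, 0 ≤ ((n : ℝ) + 1) * ρ ^ n := fun n => by positivity
  have hK : 0 < ∑' n : ℕ, ((n : ℝ) + 1) * ρ ^ n :=
    lt_of_lt_of_le (by simp) (hs.sum_le_tsum {0} fun n _ => hnn n)
  refine ⟨2 * C * ∑' n : ℕ, ((n : ℝ) + 1) * ρ ^ n, by positivity, ?_⟩
  intro x hx hcnt δ hδ hδ1 s hsδ
  have hr : ∀ k, ∃ r : ℕ, 0 < x k → x k ≤ 1 → (1 / 2 : ℝ) ^ r ≤ x k ∧ x k ≤ 2 * (1 / 2 : ℝ) ^ r := by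
    intro k
    by_cases h : 0 < x k ∧ x k ≤ 1
    · obtain ⟨n, h1, h2⟩ := exists_nat_pow_near_of_lt_one h.1 h.2 (y := (1 / 2 : ℝ)) (by norm_num)
        (by norm_num)
      refine ⟨n + 1, fun _ _ => ⟨h1.le, ?_⟩⟩
      rw [pow_succ]
      linarith
    · exact ⟨0, fun h1 h2 => absurd ⟨h1, h2⟩ h⟩
  choose r hr using hr
  obtain ⟨R, hR⟩ : ∃ R : ℕ, ∀ k ∈ s, r k < R :=
    ⟨s.sup r + 1, fun k hk => Nat.lt_succ_of_le (Finset.le_sup hk)⟩
  have hterm : ∀ k ∈ s, x k ≤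
      2 * ∑ j ∈ range R, (if (1 / 2 : ℝ) ^ j ≤ x k then (1 / 2 : ℝ) ^ j else 0) := by
    intro k hk
    have hnn' : ∀ j ∈ range R, 0 ≤ (if (1 / 2 : ℝ) ^ j ≤ x k then (1 / 2 : ℝ) ^ j else 0) := by
      intro j _
      split_ifs
      · positivity
      · exact le_rfl
    rcases (hx k).eq_or_lt with h0 | h0
    · rw [← h0]
      have := Finset.sum_nonneg hnn'
      rw [← h0] at this
      linarith
    · obtain ⟨h1, h2⟩ := hr k h0 ((hsδ k hk).trans hδ1)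
      have h3 := Finset.single_le_sum hnn' (mem_range.mpr (hR k hk))
      rw [if_pos h1] at h3
      linarith
  have hcol : ∀ j ∈ range R, ∑ k ∈ s, (if (1 / 2 : ℝ) ^ j ≤ x k then (1 / 2 : ℝ) ^ j else 0) ≤
      C * (((j : ℝ) + 1) * ρ ^ j) * Real.sqrt δ := by
    intro j _
    rw [← Finset.sum_filter, Finset.sum_const, nsmul_eq_mul]
    rcases (s.filter (fun k => (1 / 2 : ℝ) ^ j ≤ x k)).eq_empty_or_nonempty with h0 | ⟨k, hk⟩
    · rw [h0, card_empty, Nat.cast_zero, zero_mul]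
      positivity
    · rw [mem_filter] at hk
      have h1 : (1 / 2 : ℝ) ^ j ≤ δ := hk.2.trans (hsδ k hk.1)
      have h2 : ρ ^ j ≤ Real.sqrt δ := by
        apply Real.le_sqrt_of_sq_le
        rw [← pow_mul, mul_comm, pow_mul, pow_two, hρ2]
        exact h1
      have h3 : ((s.filter (fun k => (1 / 2 : ℝ) ^ j ≤ x k)).card : ℝ) ≤ C * (j + 1) := by
        have h4 := hcnt ((2 : ℝ) ^ j) (one_le_pow₀ (by norm_num)) (s.sup id + 1)
        have h5 : s.filter (fun k => (1 / 2 : ℝ) ^ j ≤ x k) ⊆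
            (range (s.sup id + 1)).filter (fun k => 1 ≤ (2 : ℝ) ^ j * x k) := by
          intro i hi
          rw [mem_filter] at hi ⊢
          refine ⟨mem_range.mpr (Nat.lt_succ_of_le (Finset.le_sup (f := id) hi.1)), ?_⟩
          have h6 : (2 : ℝ) ^ j * (1 / 2 : ℝ) ^ j = 1 := by
            rw [← mul_pow]
            norm_num
          rw [← h6]
          exact mul_le_mul_of_nonneg_left hi.2 (by positivity)
        have h7 : ((s.filter (fun k => (1 / 2 : ℝ) ^ j ≤ x k)).card : ℝ) ≤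
            (((range (s.sup id + 1)).filter (fun k => 1 ≤ (2 : ℝ) ^ j * x k)).card : ℝ) := by
          exact_mod_cast Finset.card_le_card h5
        refine h7.trans (h4.trans (mul_le_mul_of_nonneg_left ?_ hC.le))
        rw [Real.log_pow]
        have h8 : Real.log 2 ≤ 1 := by
          have := Real.log_two_lt_d9
          linarith
        have h9 : (0 : ℝ) ≤ j := Nat.cast_nonneg j
        nlinarith
      have h10 : (1 / 2 : ℝ) ^ j = ρ ^ j * ρ ^ j := by rw [← mul_pow, hρ2]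
      have h11 : 0 ≤ ρ ^ j := by positivity
      have h12 : (1 / 2 : ℝ) ^ j ≤ ρ ^ j * Real.sqrt δ := by
        rw [h10]
        exact mul_le_mul_of_nonneg_left h2 h11
      refine (mul_le_mul h3 h12 (by positivity) (by positivity)).trans (le_of_eq ?_)
      ring
  calc ∑ k ∈ s, x k ≤ ∑ k ∈ s,
        2 * ∑ j ∈ range R, (if (1 / 2 : ℝ) ^ j ≤ x k then (1 / 2 : ℝ) ^ j else 0) :=
        Finset.sum_le_sum hterm
    _ = 2 * ∑ j ∈ range R, ∑ k ∈ s, (if (1 / 2 : ℝ) ^ j ≤ x k then (1 / 2 : ℝ) ^ j else 0) := by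
        rw [← Finset.mul_sum, Finset.sum_comm]
    _ ≤ 2 * ∑ j ∈ range R, C * (((j : ℝ) + 1) * ρ ^ j) * Real.sqrt δ :=
        mul_le_mul_of_nonneg_left (Finset.sum_le_sum hcol) (by norm_num)
    _ = 2 * C * (∑ j ∈ range R, ((j : ℝ) + 1) * ρ ^ j) * Real.sqrt δ := by
        rw [← Finset.sum_mul, ← Finset.mul_sum]
        ring
    _ ≤ 2 * C * (∑' n : ℕ, ((n : ℝ) + 1) * ρ ^ n) * Real.sqrt δ := by
        refine mul_le_mul_of_nonneg_right ?_ (Real.sqrt_nonneg _)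
        exact mul_le_mul_of_nonneg_left (hs.sum_le_tsum _ fun n _ => hnn n) (by positivity)
/- END AA8 -/

end Pool.Agent.GsF
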