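import Pool.Agent.GsF.ADefs

/-!
Facts on the box averages and on the parameters.
-/

namespace Pool.Agent.GsF

open Finset

variable {d : ℕ}

/- MODULE BT1 -/
theorem bt_norm_le (L Q : ℕ) (t : ℝ) : ‖bt L Q t‖ ≤ 1 := by
  unfold bt
  rw [norm_div, Complex.norm_natCast, div_le_one (by positivity)]
  refine (norm_sum_le _ _).trans ?_
  simp [norm_e]

private theorem BT1_mul_le {L Q j : ℕ} (h : j < L / Q + 1) : j * Q ≤ L :=
  (Nat.mul_le_mul_right Q (Nat.lt_succ_iff.1 h)).trans (Nat.div_mul_le_self L Q)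

/-- j Q ≤ L for j ≤ L/Q; norm_e_sub_one' -/
theorem bt_one (L Q : ℕ) (t : ℝ) : ‖bt L Q t - 1‖ ≤ 7 * ((L : ℝ) * |t|) := by
  have hm : (0 : ℝ) < ((L / Q + 1 : ℕ) : ℝ) := by positivity
  have hm' : ((L / Q + 1 : ℕ) : ℂ) ≠ 0 := by exact_mod_cast hm.ne'
  have h1 : bt L Q t - 1 = (∑ j ∈ range (L / Q + 1), (e ((j : ℝ) * Q * t) - 1)) /
      ((L / Q + 1 : ℕ) : ℂ) := by
    unfold bt
    rw [sum_sub_distrib, sub_div]
    congr 1
    rw [sum_const, card_range, nsmul_eq_mul, mul_one, div_self hm']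
  rw [h1, norm_div, Complex.norm_natCast, div_le_iff₀ hm]
  refine (norm_sum_le _ _).trans ?_
  have h2 : ∀ j ∈ range (L / Q + 1), ‖e ((j : ℝ) * Q * t) - 1‖ ≤ 7 * ((L : ℝ) * |t|) := by
    intro j hj
    refine (norm_e_sub_one' _).trans ?_
    rw [abs_mul, abs_of_nonneg (by positivity : (0 : ℝ) ≤ (j : ℝ) * Q)]
    have h3 : ((j * Q : ℕ) : ℝ) ≤ L := by exact_mod_cast BT1_mul_le (mem_range.1 hj)
    push_cast at h3
    have := abs_nonneg t
    nlinarith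
  refine (sum_le_sum h2).trans ?_
  rw [sum_const, card_range, nsmul_eq_mul, mul_comm]

/-- periodicity under 1/Q -/
theorem bt_per (L Q : ℕ) (t s : ℝ) (z : ℤ) (h : (Q : ℝ) * s = z) : bt L Q (s + t) = bt L Q t := by
  unfold bt
  congr 1
  refine sum_congr rfl fun j _ => ?_
  have h1 : (j : ℝ) * Q * (s + t) = (j : ℝ) * Q * t + ((j * z : ℤ) : ℝ) := by
    push_cast
    rw [← h]
    ring
  rw [h1, e_add_int]

private theorem BT1_e_ge (x : ℝ) : 4 * nrm x ≤ ‖e x - 1‖ := by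
  have h1 : e x = e (x - round x) := by
    have := e_add_int (x - round x) (round x)
    rw [sub_add_cancel] at this
    exact this
  have h2 : ‖e (x - round x) - 1‖ = 2 * |Real.sin (Real.pi * (x - round x))| := by
    unfold e
    rw [mul_comm, Complex.norm_exp_I_mul_ofReal_sub_one, norm_mul, Real.norm_eq_abs,
      Real.norm_eq_abs, abs_of_pos (by norm_num : (0 : ℝ) < 2)]
    congr 3
    ring
  have hpi := Real.pi_pos
  have h3 : |Real.pi * (x - round x)| ≤ Real.pi / 2 := by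
    rw [abs_mul, abs_of_pos hpi]
    have := abs_sub_round x
    nlinarith
  have h4 := Real.mul_abs_le_abs_sin h3
  rw [abs_mul, abs_of_pos hpi] at h4
  have h5 : 2 / Real.pi * (Real.pi * |x - round x|) = 2 * |x - round x| := by
    field_simp
  rw [h5] at h4
  rw [h1, h2]
  unfold nrm
  linarith

private theorem BT1_geo (n : ℕ) (x : ℝ) : ‖∑ j ∈ range n, e (j * x)‖ * (2 * nrm x) ≤ 1 := by
  have h1 : (∑ j ∈ range n, e (j * x)) * (e x - 1) = e (n * x) - 1 := by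
    rw [e_nat_mul, ← geom_sum_mul]
    congr 1
    exact sum_congr rfl fun j _ => e_nat_mul j x
  have h2 : ‖∑ j ∈ range n, e (j * x)‖ * ‖e x - 1‖ ≤ 2 := by
    rw [← norm_mul, h1]
    refine (norm_sub_le _ _).trans ?_
    rw [norm_e, norm_one]
    norm_num
  have h3 := mul_le_mul_of_nonneg_left (BT1_e_ge x) (norm_nonneg (∑ j ∈ range n, e (j * x)))
  linarith

/-- decay: geometric sum (|sum| * 2 nrm (Q t) ≤ 1, as in GEO; prove it again here or import It)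
and L/Q + 1 ≥ L/Q -/
theorem bt_dec (L Q : ℕ) (hQ : 1 ≤ Q) (t : ℝ) :
    ‖bt L Q t‖ * (2 * ((L : ℝ) * nrm (Q * t))) ≤ Q := by
  have hm : (0 : ℝ) < ((L / Q + 1 : ℕ) : ℝ) := by positivity
  have h1 : bt L Q t = (∑ j ∈ range (L / Q + 1), e (j * (Q * t))) / ((L / Q + 1 : ℕ) : ℂ) := by
    unfold bt
    congr 1
    exact sum_congr rfl fun j _ => by rw [mul_assoc]
  have h2 := BT1_geo (L / Q + 1) (Q * t)
  have h3 : (L : ℝ) ≤ ((L / Q + 1 : ℕ) : ℝ) * Q := by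
    have := Nat.lt_div_mul_add (a := L) hQ
    have h4 : L ≤ (L / Q + 1) * Q := by
      rw [add_mul, one_mul]
      exact this.le
    exact_mod_cast h4
  rw [h1, norm_div, Complex.norm_natCast, div_mul_eq_mul_div, div_le_iff₀ hm]
  have h5 : ‖∑ j ∈ range (L / Q + 1), e (j * (Q * t))‖ * (2 * ((L : ℝ) * nrm (Q * t))) =
      L * (‖∑ j ∈ range (L / Q + 1), e (j * (Q * t))‖ * (2 * nrm (Q * t))) := by ring
  rw [h5]
  refine le_trans ?_ (h3.trans (le_of_eq (mul_comm _ _)))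
  have : (0 : ℝ) ≤ L := by positivity
  nlinarith
/- END BT1 -/

/- MODULE BT2 -/
private theorem BT2_shift (Q : ℕ) (hQ : 1 ≤ Q) (t : ℝ) : ∃ t' : ℝ, (∀ L, bt L Q t = bt L Q t') ∧
    nrm (Q * t) = Q * |t'| := by
  have hQ0 : (0 : ℝ) < Q := by exact_mod_cast hQ
  refine ⟨t - round (Q * t) / Q, fun L => ?_, ?_⟩
  · have h := bt_per L Q (t - round (Q * t) / Q) (round (Q * t) / Q) (round (Q * t)) (by
      field_simp)
    rw [← h]
    congr 1
    ring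
  · unfold nrm
    rw [← abs_of_pos hQ0, ← abs_mul, abs_of_pos hQ0]
    congr 1
    field_simp

/-- bounded variation on the scales L_k = N_k^(l+1). Let nu = nrm (Q t)/Q; by bt_per t may be
replaced by t' with |t'| = nu. Then |bt L - 1| ≤ 7 L nu, |bt L| ≤ 1/(2 L nu), so the k-th difference
is at most min (14 y, 2^(l+1)/y) with y = nu L_(k+1), and L_(k+1) = 2^(l+1) L_k ≥ 2 L_k; a sum of
min (A y_k, B/y_k) with y_(k+1) ≥ 2 y_k > 0 is at most 2 A + 2 B + ... (split at y_k ≤ 1). -/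
theorem bt_var (m : ℕ) :
    ∃ C : ℝ, 0 < C ∧ ∀ (u Q : ℕ), 1 ≤ u → 1 ≤ Q → ∀ (t : ℝ) (K : ℕ),
      ∑ k ∈ range K, ‖bt (Nk u (k + 1) ^ (m + 1)) Q t - bt (Nk u k ^ (m + 1)) Q t‖ ≤ C := by
  refine ⟨84 * 2 ^ (m + 1), by positivity, fun u Q hu hQ t K => ?_⟩
  have hQ0 : (0 : ℝ) < Q := by exact_mod_cast hQ
  obtain ⟨t', ht', hnu⟩ := BT2_shift Q hQ t
  have hr2 : (2 : ℝ) ≤ 2 ^ (m + 1) := by
    calc (2 : ℝ) = 2 ^ 1 := (pow_one _).symm
      _ ≤ 2 ^ (m + 1) := pow_le_pow_right₀ (by norm_num) (by omega)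
  let y : ℕ → ℝ := fun k => ((Nk u k ^ (m + 1) : ℕ) : ℝ) * |t'|
  have hy : ∀ k, y (k + 1) = 2 ^ (m + 1) * y k := by
    intro k
    show ((Nk u (k + 1) ^ (m + 1) : ℕ) : ℝ) * |t'| = 2 ^ (m + 1) * (((Nk u k ^ (m + 1) : ℕ) : ℝ) * |t'|)
    unfold Nk
    push_cast
    rw [pow_succ 2 k, ← mul_assoc, mul_pow]
    ring
  have hy0 : ∀ k, 0 ≤ y k := fun k => by positivity
  let Φ : ℝ → ℝ := fun x => x / (1 + x)
  have hone : ∀ k, ‖bt (Nk u k ^ (m + 1)) Q t - 1‖ ≤ 7 * y k := by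
    intro k
    rw [ht']
    exact bt_one _ _ _
  have hdec : ∀ k, ‖bt (Nk u k ^ (m + 1)) Q t‖ * (2 * y k) ≤ 1 := by
    intro k
    have h := bt_dec (Nk u k ^ (m + 1)) Q hQ t
    rw [hnu] at h
    have h1 : ‖bt (Nk u k ^ (m + 1)) Q t‖ * (2 * (((Nk u k ^ (m + 1) : ℕ) : ℝ) * (Q * |t'|))) =
        (‖bt (Nk u k ^ (m + 1)) Q t‖ * (2 * y k)) * Q := by
      show _ = (‖bt (Nk u k ^ (m + 1)) Q t‖ * (2 * (((Nk u k ^ (m + 1) : ℕ) : ℝ) * |t'|))) * Q
      ring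
    rw [h1] at h
    exact le_of_mul_le_mul_right (by linarith) hQ0
  have key : ∀ k, ‖bt (Nk u (k + 1) ^ (m + 1)) Q t - bt (Nk u k ^ (m + 1)) Q t‖ ≤
      84 * 2 ^ (m + 1) * (Φ (y (k + 1)) - Φ (y k)) := by
    intro k
    have hk := hy0 k
    have h2y : 2 * y k ≤ y (k + 1) := by
      rw [hy]
      nlinarith
    have hk1 : 0 ≤ y (k + 1) := hy0 _
    have hΦ : y k / ((1 + 2 * y k) * (1 + y k)) ≤ Φ (y (k + 1)) - Φ (y k) := by
      have h1 : y k / ((1 + 2 * y k) * (1 + y k)) = 2 * y k / (1 + 2 * y k) - y k / (1 + y k) := by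
        field_simp
        ring
      rw [h1]
      show _ ≤ y (k + 1) / (1 + y (k + 1)) - y k / (1 + y k)
      have h2 : 2 * y k / (1 + 2 * y k) ≤ y (k + 1) / (1 + y (k + 1)) := by
        rw [div_le_div_iff₀ (by positivity) (by positivity)]
        nlinarith
      linarith
    have hA : (0 : ℝ) < 2 ^ (m + 1) := by positivity
    refine le_trans ?_ (mul_le_mul_of_nonneg_left hΦ (by positivity))
    rcases le_total (y k) 1 with h | h
    · have h1 : ‖bt (Nk u (k + 1) ^ (m + 1)) Q t - bt (Nk u k ^ (m + 1)) Q t‖ ≤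
          14 * 2 ^ (m + 1) * y k := by
        have h3 : bt (Nk u (k + 1) ^ (m + 1)) Q t - bt (Nk u k ^ (m + 1)) Q t =
            (bt (Nk u (k + 1) ^ (m + 1)) Q t - 1) - (bt (Nk u k ^ (m + 1)) Q t - 1) := by ring
        rw [h3]
        refine (norm_sub_le _ _).trans ?_
        have h4 := hone k
        have h5 := hone (k + 1)
        rw [hy] at h5
        nlinarith
      refine h1.trans ?_
      rw [← mul_div_assoc, le_div_iff₀ (by positivity)]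
      have h6 : (1 + 2 * y k) * (1 + y k) ≤ 6 := by nlinarith
      have h7 : 0 ≤ 14 * 2 ^ (m + 1) * y k := by positivity
      nlinarith
    · have hpos : 0 < y k := by linarith
      have h1 : ‖bt (Nk u (k + 1) ^ (m + 1)) Q t - bt (Nk u k ^ (m + 1)) Q t‖ * y k ≤ 1 := by
        have h3 := norm_sub_le (bt (Nk u (k + 1) ^ (m + 1)) Q t) (bt (Nk u k ^ (m + 1)) Q t)
        have h4 := hdec k
        have h5 := hdec (k + 1)
        have h6 : ‖bt (Nk u (k + 1) ^ (m + 1)) Q t‖ * (2 * y k) ≤ 1 := by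
          refine le_trans ?_ h5
          exact mul_le_mul_of_nonneg_left (by linarith) (norm_nonneg _)
        nlinarith
      rw [← mul_div_assoc, le_div_iff₀ (by positivity)]
      have h7 : (1 + 2 * y k) * (1 + y k) ≤ 6 * (y k * y k) := by nlinarith
      have hn := norm_nonneg (bt (Nk u (k + 1) ^ (m + 1)) Q t - bt (Nk u k ^ (m + 1)) Q t)
      calc ‖bt (Nk u (k + 1) ^ (m + 1)) Q t - bt (Nk u k ^ (m + 1)) Q t‖ *
            ((1 + 2 * y k) * (1 + y k))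
          ≤ ‖bt (Nk u (k + 1) ^ (m + 1)) Q t - bt (Nk u k ^ (m + 1)) Q t‖ * (6 * (y k * y k)) :=
            mul_le_mul_of_nonneg_left h7 hn
        _ = 6 * y k * (‖bt (Nk u (k + 1) ^ (m + 1)) Q t - bt (Nk u k ^ (m + 1)) Q t‖ * y k) := by
            ring
        _ ≤ 6 * y k * 1 := mul_le_mul_of_nonneg_left h1 (by positivity)
        _ ≤ 84 * 2 ^ (m + 1) * y k := by nlinarith
  refine (sum_le_sum fun k _ => key k).trans ?_
  rw [← mul_sum, sum_range_sub fun k => Φ (y k)]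
  have h1 : Φ (y K) ≤ 1 := by
    show y K / (1 + y K) ≤ 1
    rw [div_le_one (by have := hy0 K; linarith)]
    linarith
  have h2 : 0 ≤ Φ (y 0) := div_nonneg (hy0 0) (by have := hy0 0; linarith)
  have hA : (0 : ℝ) < 84 * 2 ^ (m + 1) := by positivity
  nlinarith
/- END BT2 -/

/- MODULE BT3 -/
private theorem BT3_split (n w Q : ℕ) (t : ℝ) : ∑ j ∈ range (n * w), e ((j : ℝ) * Q * t) =
    (∑ i ∈ range n, e ((i : ℝ) * ((w * Q : ℕ) : ℝ) * t)) * ∑ r ∈ range w, e ((r : ℝ) * Q * t) := by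
  induction n with
  | zero => simp
  | succ n ih =>
    rw [Nat.succ_mul, Finset.sum_range_add, ih, sum_range_succ, add_mul,
      Finset.mul_sum (range w) (fun r => e ((r : ℝ) * Q * t)) (e ((n : ℝ) * ((w * Q : ℕ) : ℝ) * t))]
    congr 1
    refine sum_congr rfl fun r _ => ?_
    rw [← e_add]
    congr 1
    push_cast
    ring

/-- comparison of two moduli Q | Q' = w Q near 0. m = L/Q + 1, m' = L/Q' + 1, |m' w - m| ≤ 2 w.
sum over j < m' w of e(j Q t) = S' * (sum over i < w of e(i Q t)), S' = sum over j < m' of e(j Q' t);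
|bt L Q t - bt L Q' t * cw| ≤ 4 w/m ≤ 4 Q'/L with cw = mean over i < w of e(i Q t), and
|cw - 1| ≤ 7 Q' |t|, |bt L Q' t| ≤ 1/(2 L |t|) (bt_dec, nrm (Q' t) = Q' |t|). -/
theorem bt_cmp (L Q Q' : ℕ) (hL : 1 ≤ L) (hQ : 1 ≤ Q) (hQ' : 1 ≤ Q') (h : Q ∣ Q') (t : ℝ)
    (ht : |t| * (2 * Q') ≤ 1) : ‖bt L Q t - bt L Q' t‖ ≤ 8 * Q' / L := by
  obtain ⟨w, rfl⟩ := h
  have hw : 1 ≤ w := Nat.pos_of_ne_zero (by rintro rfl; simp at hQ')
  have hL0 : (0 : ℝ) < L := by exact_mod_cast hL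
  have hQ0 : (0 : ℝ) < Q := by exact_mod_cast hQ
  have hw0 : (0 : ℝ) < w := by exact_mod_cast hw
  -- `m = l + 1`, `m' = l / w + 1`
  set l : ℕ := L / Q with hl
  set n : ℕ := l / w + 1 with hn
  have hm' : L / (Q * w) + 1 = n := by rw [hn, hl, Nat.div_div_eq_div_mul]
  have hle : l + 1 ≤ n * w := by
    have := Nat.lt_div_mul_add (a := l) hw
    rw [hn, add_mul, one_mul]
    omega
  have hge : n * w ≤ l + 1 + w := by
    have := Nat.div_mul_le_self l w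
    rw [hn, add_mul, one_mul]
    omega
  obtain ⟨v, hv⟩ := Nat.exists_eq_add_of_le hle
  have hvw : v ≤ w := by omega
  set S : ℂ := ∑ j ∈ range (l + 1), e ((j : ℝ) * Q * t) with hS
  set R : ℂ := ∑ j ∈ range v, e (((l + 1 + j : ℕ) : ℝ) * Q * t) with hR
  set S' : ℂ := ∑ i ∈ range n, e ((i : ℝ) * ((Q * w : ℕ) : ℝ) * t) with hS'
  set c : ℂ := ∑ r ∈ range w, e ((r : ℝ) * Q * t) with hc
  have hsplit : S + R = S' * c := by
    have h1 := BT3_split n w Q t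
    rw [hv, Finset.sum_range_add] at h1
    rw [hS', mul_comm Q w]
    exact h1
  have hnS : ‖S‖ ≤ ((l + 1 : ℕ) : ℝ) := by
    refine (norm_sum_le _ _).trans ?_
    simp [norm_e]
  have hnR : ‖R‖ ≤ (v : ℝ) := by
    refine (norm_sum_le _ _).trans ?_
    simp [norm_e]
  have hn0 : (0 : ℝ) < (n : ℝ) := by exact_mod_cast Nat.succ_pos _
  have hl0 : (0 : ℝ) < ((l + 1 : ℕ) : ℝ) := by positivity
  have hbt : bt L Q t = S / ((l + 1 : ℕ) : ℂ) := rfl
  have hbt' : bt L (Q * w) t = S' / (n : ℂ) := by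
    unfold bt
    rw [hm']
  -- first part
  have hnw : ((n * w : ℕ) : ℝ) = ((l + 1 : ℕ) : ℝ) + v := by
    rw [hv]
    push_cast
    ring
  have hnC : (n : ℂ) ≠ 0 := by exact_mod_cast hn0.ne'
  have hlC : ((l + 1 : ℕ) : ℂ) ≠ 0 := by exact_mod_cast hl0.ne'
  have hwC : (w : ℂ) ≠ 0 := by exact_mod_cast hw0.ne'
  have h1 : ‖bt L Q t - bt L (Q * w) t * (c / w)‖ ≤ 2 / n := by
    have e1 : bt L Q t - bt L (Q * w) t * (c / w) =
        (S * v / ((l + 1 : ℕ) : ℂ) - R) / ((n : ℂ) * w) := by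
      rw [hbt, hbt', div_mul_div_comm, ← hsplit]
      have h2 : ((n : ℂ) * w) = ((l + 1 : ℕ) : ℂ) + v := by
        have := congrArg (fun x : ℝ => (x : ℂ)) hnw
        push_cast at this ⊢
        exact this
      rw [h2]
      have h3 : ((l + 1 : ℕ) : ℂ) + v ≠ 0 := by
        rw [← h2]
        exact mul_ne_zero hnC hwC
      field_simp
      ring
    rw [e1, norm_div, norm_mul, Complex.norm_natCast, Complex.norm_natCast,
      div_le_div_iff₀ (by positivity) hn0]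
    have h4 : ‖S * v / ((l + 1 : ℕ) : ℂ) - R‖ ≤ 2 * w := by
      refine (norm_sub_le _ _).trans ?_
      have h5 : ‖S * v / ((l + 1 : ℕ) : ℂ)‖ ≤ v := by
        rw [norm_div, norm_mul, Complex.norm_natCast, Complex.norm_natCast, div_le_iff₀ hl0,
          mul_comm]
        exact mul_le_mul_of_nonneg_left hnS (by positivity)
      have h6 : (v : ℝ) ≤ w := by exact_mod_cast hvw
      linarith
    calc ‖S * v / ((l + 1 : ℕ) : ℂ) - R‖ * n ≤ 2 * w * n :=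
          mul_le_mul_of_nonneg_right h4 hn0.le
      _ = 2 * (n * w) := by ring
  have h2 : (2 : ℝ) / n ≤ 2 * (Q * w) / L := by
    rw [div_le_div_iff₀ hn0 hL0]
    have h3 : L ≤ n * (Q * w) := by
      have h4 := Nat.lt_div_mul_add (a := L) (b := Q * w) hQ'
      rw [← hm', add_mul, one_mul]
      exact h4.le
    have h5 : (L : ℝ) ≤ n * (Q * w) := by exact_mod_cast h3
    nlinarith
  -- second part
  have h3 : ‖c / w - 1‖ ≤ 7 * ((Q * w) * |t|) := by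
    have e1 : c / w - 1 = (∑ r ∈ range w, (e ((r : ℝ) * Q * t) - 1)) / w := by
      rw [sum_sub_distrib, sub_div]
      congr 1
      rw [sum_const, card_range, nsmul_eq_mul, mul_one, div_self hwC]
    rw [e1, norm_div, Complex.norm_natCast, div_le_iff₀ hw0]
    refine (norm_sum_le _ _).trans ?_
    have h4 : ∀ r ∈ range w, ‖e ((r : ℝ) * Q * t) - 1‖ ≤ 7 * ((Q * w) * |t|) := by
      intro r hr
      refine (norm_e_sub_one' _).trans ?_
      rw [abs_mul, abs_of_nonneg (by positivity : (0 : ℝ) ≤ (r : ℝ) * Q)]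
      have h5 : (r : ℝ) ≤ w := by exact_mod_cast (mem_range.1 hr).le
      have h6 := abs_nonneg t
      have h7 : (r : ℝ) * Q * |t| ≤ (Q * w) * |t| :=
        mul_le_mul_of_nonneg_right (by nlinarith) h6
      linarith
    refine (sum_le_sum h4).trans ?_
    rw [sum_const, card_range, nsmul_eq_mul, mul_comm]
  have h4 : ‖bt L (Q * w) t‖ * (2 * (L * |t|)) ≤ 1 := by
    have h5 := bt_dec L (Q * w) hQ' t
    have hQw : (0 : ℝ) < ((Q * w : ℕ) : ℝ) := by exact_mod_cast hQ'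
    have h6 : nrm (((Q * w : ℕ) : ℝ) * t) = ((Q * w : ℕ) : ℝ) * |t| := by
      rw [nrm_eq_abs, abs_mul, abs_of_pos hQw]
      rw [abs_mul, abs_of_pos hQw]
      linarith
    rw [h6] at h5
    have h7 : ‖bt L (Q * w) t‖ * (2 * ((L : ℝ) * (((Q * w : ℕ) : ℝ) * |t|))) =
        (‖bt L (Q * w) t‖ * (2 * (L * |t|))) * ((Q * w : ℕ) : ℝ) := by ring
    rw [h7] at h5
    exact le_of_mul_le_mul_right (by linarith) hQw
  have h5 : ‖bt L (Q * w) t * (c / w - 1)‖ ≤ 4 * (Q * w) / L := by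
    rw [norm_mul, le_div_iff₀ hL0]
    have h6 := norm_nonneg (bt L (Q * w) t)
    have h7 := mul_le_mul_of_nonneg_left h3 h6
    have h8 : (0 : ℝ) < (Q : ℝ) * w := by positivity
    calc ‖bt L (Q * w) t‖ * ‖c / w - 1‖ * L
        ≤ ‖bt L (Q * w) t‖ * (7 * ((Q * w) * |t|)) * L := mul_le_mul_of_nonneg_right h7 hL0.le
      _ = (Q * w) * (7 / 2) * (‖bt L (Q * w) t‖ * (2 * (L * |t|))) := by ring
      _ ≤ (Q * w) * (7 / 2) * 1 := mul_le_mul_of_nonneg_left h4 (by positivity)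
      _ ≤ 4 * (Q * w) := by nlinarith
  have h6 : bt L Q t - bt L (Q * w) t = (bt L Q t - bt L (Q * w) t * (c / w)) +
      bt L (Q * w) t * (c / w - 1) := by ring
  rw [h6]
  refine (norm_add_le _ _).trans ((add_le_add (h1.trans h2) h5).trans ?_)
  rw [← add_div]
  push_cast
  refine div_le_div_of_nonneg_right ?_ hL0.le
  have : (0 : ℝ) < (Q : ℝ) * w := by positivity
  linarith
/- END BT3 -/

/- MODULE BB1 -/
private theorem BB1_prod {ι : Type*} (s : Finset ι) (f g : ι → ℂ) (hf : ∀ i ∈ s, ‖f i‖ ≤ 1)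
    (hg : ∀ i ∈ s, ‖g i‖ ≤ 1) :
    ‖∏ i ∈ s, f i - ∏ i ∈ s, g i‖ ≤ ∑ i ∈ s, ‖f i - g i‖ := by
  classical
  induction s using Finset.induction_on with
  | empty => simp
  | insert j s hj ih =>
    rw [prod_insert hj, prod_insert hj, sum_insert hj]
    have h1 : f j * ∏ i ∈ s, f i - g j * ∏ i ∈ s, g i =
        (f j - g j) * ∏ i ∈ s, f i + g j * (∏ i ∈ s, f i - ∏ i ∈ s, g i) := by ring
    rw [h1]
    refine (norm_add_le _ _).trans (add_le_add ?_ ?_)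
    · rw [norm_mul]
      have h2 : ‖∏ i ∈ s, f i‖ ≤ 1 := by
        rw [norm_prod]
        exact prod_le_one (fun i _ => norm_nonneg _) fun i hi => hf i (mem_insert_of_mem hi)
      exact mul_le_of_le_one_right (norm_nonneg _) h2
    · rw [norm_mul]
      refine (mul_le_of_le_one_left (norm_nonneg _) (hg j (mem_insert_self _ _))).trans ?_
      exact ih (fun i hi => hf i (mem_insert_of_mem hi)) fun i hi => hg i (mem_insert_of_mem hi)

theorem b_norm_le (N Q : ℕ) (ξ : Fin d → ℝ) : ‖b N Q ξ‖ ≤ 1 := by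
  unfold b
  rw [norm_prod]
  exact prod_le_one (fun i _ => norm_nonneg _) fun i _ => bt_norm_le _ _ _

theorem b_per (N Q : ℕ) (β ζ : Fin d → ℝ) (h : Den Q β) : b N Q (β + ζ) = b N Q ζ := by
  unfold b
  refine prod_congr rfl fun l _ => ?_
  obtain ⟨z, hz⟩ := h l
  exact bt_per _ _ _ _ z hz

/-- |product - 1| ≤ sum of |factor - 1| for factors of modulus ≤ 1 -/
theorem b_one (N Q : ℕ) (ζ : Fin d → ℝ) : ‖b N Q ζ - 1‖ ≤ 7 * M ζ N := by
  have h := BB1_prod (Finset.univ : Finset (Fin d)) (fun l => bt (N ^ ((l : ℕ) + 1)) Q (ζ l))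
    (fun _ => 1) (fun l _ => bt_norm_le _ _ _) fun l _ => by rw [norm_one]
  rw [prod_const_one] at h
  refine h.trans ?_
  unfold M
  rw [mul_sum]
  refine sum_le_sum fun l _ => (bt_one _ _ _).trans (le_of_eq ?_)
  push_cast
  ring

private theorem BB1_le (N Q : ℕ) (ξ : Fin d → ℝ) (l : Fin d) :
    ‖b N Q ξ‖ ≤ ‖bt (N ^ ((l : ℕ) + 1)) Q (ξ l)‖ := by
  classical
  unfold b
  rw [← mul_prod_erase univ _ (mem_univ l), norm_mul, norm_prod]
  exact mul_le_of_le_one_right (norm_nonneg _)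
    (prod_le_one (fun i _ => norm_nonneg _) fun i _ => bt_norm_le _ _ _)

theorem b_dec (N Q : ℕ) (hQ : 1 ≤ Q) (ξ : Fin d → ℝ) (l : Fin d) :
    ‖b N Q ξ‖ * (2 * ((N : ℝ) ^ ((l : ℕ) + 1) * nrm (Q * ξ l))) ≤ Q := by
  have h := bt_dec (N ^ ((l : ℕ) + 1)) Q hQ (ξ l)
  push_cast at h
  refine le_trans (mul_le_mul_of_nonneg_right (BB1_le N Q ξ l) ?_) h
  have := nrm_nonneg (Q * ξ l)
  positivity

/-- sum of b_dec over l, nrm (Q zeta_l) = Q |zeta_l| -/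
theorem b_dec' (N Q : ℕ) (hQ : 1 ≤ Q) (ζ : Fin d → ℝ) (h : ∀ l, |ζ l| * (2 * Q) ≤ 1) :
    ‖b N Q ζ‖ * M ζ N ≤ d := by
  have hQ0 : (0 : ℝ) < Q := by exact_mod_cast hQ
  unfold M
  rw [mul_sum]
  have h1 : ∀ l ∈ (Finset.univ : Finset (Fin d)),
      ‖b N Q ζ‖ * (|ζ l| * (N : ℝ) ^ ((l : ℕ) + 1)) ≤ 1 := by
    intro l _
    have h2 := b_dec N Q hQ ζ l
    have h3 : nrm ((Q : ℝ) * ζ l) = Q * |ζ l| := by
      rw [nrm_eq_abs, abs_mul, abs_of_pos hQ0]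
      rw [abs_mul, abs_of_pos hQ0]
      have := h l
      linarith
    rw [h3] at h2
    have h4 : ‖b N Q ζ‖ * (2 * ((N : ℝ) ^ ((l : ℕ) + 1) * (Q * |ζ l|))) =
        (2 * (‖b N Q ζ‖ * (|ζ l| * (N : ℝ) ^ ((l : ℕ) + 1)))) * Q := by ring
    rw [h4] at h2
    have h5 : 2 * (‖b N Q ζ‖ * (|ζ l| * (N : ℝ) ^ ((l : ℕ) + 1))) ≤ 1 :=
      le_of_mul_le_mul_right (by linarith) hQ0
    have h6 : 0 ≤ ‖b N Q ζ‖ * (|ζ l| * (N : ℝ) ^ ((l : ℕ) + 1)) := by positivity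
    linarith
  refine (sum_le_sum h1).trans ?_
  simp

/-- |product - product| ≤ sum of |factor - factor| -/
theorem b_var (d : ℕ) :
    ∃ C : ℝ, 0 < C ∧ ∀ (u Q : ℕ), 1 ≤ u → 1 ≤ Q → ∀ (ξ : Fin d → ℝ) (K : ℕ),
      ∑ k ∈ range K, ‖b (Nk u (k + 1)) Q ξ - b (Nk u k) Q ξ‖ ≤ C := by
  choose C hC0 hC using bt_var
  refine ⟨∑ l : Fin d, C l + 1, by
    have : 0 ≤ ∑ l : Fin d, C l := sum_nonneg fun l _ => (hC0 _).le
    linarith, fun u Q hu hQ ξ K => ?_⟩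
  have h1 : ∀ k ∈ range K, ‖b (Nk u (k + 1)) Q ξ - b (Nk u k) Q ξ‖ ≤ ∑ l : Fin d,
      ‖bt (Nk u (k + 1) ^ ((l : ℕ) + 1)) Q (ξ l) - bt (Nk u k ^ ((l : ℕ) + 1)) Q (ξ l)‖ :=
    fun k _ => BB1_prod _ _ _ (fun l _ => bt_norm_le _ _ _) fun l _ => bt_norm_le _ _ _
  refine (sum_le_sum h1).trans ?_
  rw [sum_comm]
  have h2 : ∑ l : Fin d, ∑ k ∈ range K,
      ‖bt (Nk u (k + 1) ^ ((l : ℕ) + 1)) Q (ξ l) - bt (Nk u k ^ ((l : ℕ) + 1)) Q (ξ l)‖ ≤
      ∑ l : Fin d, C l := sum_le_sum fun l _ => hC l u Q hu hQ (ξ l) K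
  linarith

theorem b_cmp (N Q Q' : ℕ) (hN : 1 ≤ N) (hQ : 1 ≤ Q) (hQ' : 1 ≤ Q') (h : Q ∣ Q') (ζ : Fin d → ℝ)
    (ht : ∀ l, |ζ l| * (2 * Q') ≤ 1) : ‖b N Q ζ - b N Q' ζ‖ ≤ 8 * d * Q' / N := by
  have hN0 : (0 : ℝ) < N := by exact_mod_cast hN
  refine (BB1_prod _ _ _ (fun l _ => bt_norm_le _ _ _) fun l _ => bt_norm_le _ _ _).trans ?_
  have h1 : ∀ l ∈ (Finset.univ : Finset (Fin d)),
      ‖bt (N ^ ((l : ℕ) + 1)) Q (ζ l) - bt (N ^ ((l : ℕ) + 1)) Q' (ζ l)‖ ≤ 8 * Q' / N := by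
    intro l _
    refine (bt_cmp (N ^ ((l : ℕ) + 1)) Q Q' (Nat.one_le_pow _ _ hN) hQ hQ' h (ζ l) (ht l)).trans ?_
    refine div_le_div_of_nonneg_left (by positivity) hN0 ?_
    have h2 : N ≤ N ^ ((l : ℕ) + 1) := Nat.le_self_pow (Nat.succ_ne_zero _) N
    exact_mod_cast h2
  refine (sum_le_sum h1).trans (le_of_eq ?_)
  rw [sum_const, card_univ, Fintype.card_fin, nsmul_eq_mul]
  ring
/- END BB1 -/

/- MODULE PAR -/
theorem xx_pos (i : ℕ) : 1 ≤ xx i := Nat.one_le_two_pow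

theorem Qf_pos (i : ℕ) : 1 ≤ Qf i := Nat.factorial_pos _

theorem xx_le_Qf (i : ℕ) : xx i ≤ Qf i := Nat.self_le_factorial _

theorem xx_mono {i j : ℕ} (h : i ≤ j) : xx i ≤ xx j :=
  Nat.pow_le_pow_right (by norm_num) (Nat.div_le_div_right h)

theorem Qf_dvd {i j : ℕ} (h : i ≤ j) : Qf i ∣ Qf j := Nat.factorial_dvd_factorial (xx_mono h)

theorem dvd_Qf {q i : ℕ} (h1 : 1 ≤ q) (h2 : q ≤ xx i) : q ∣ Qf i := Nat.dvd_factorial h1 h2

theorem pow_le_xx (i : ℕ) : 2 ^ i ≤ 8 * xx i ^ 4 := by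
  have h1 : i = i % 4 + i / 4 * 4 := by omega
  have h2 : i % 4 ≤ 3 := by omega
  unfold xx
  calc 2 ^ i = 2 ^ (i % 4) * 2 ^ (i / 4 * 4) := by
        conv_lhs => rw [h1]
        rw [pow_add]
    _ ≤ 2 ^ 3 * 2 ^ (i / 4 * 4) := Nat.mul_le_mul_right _ (Nat.pow_le_pow_right (by norm_num) h2)
    _ = 8 * (2 ^ (i / 4)) ^ 4 := by rw [← pow_mul]

/-- x! ≤ x^x, so Qf i ≤ 2^((i/4) 2^(i/4)) and A (A + i + (i/4) 2^(i/4)) ≤ 2^i for large i -/
theorem par_growth (A : ℕ) : ∃ i0 : ℕ, ∀ i : ℕ, i0 ≤ i → (A * 2 ^ i * Qf i) ^ A ≤ 2 ^ 2 ^ i := by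
  refine ⟨4 * (A + 3), fun i hi => ?_⟩
  set j : ℕ := i / 4 with hj
  have hj1 : A + 3 ≤ j := by omega
  have hij : i ≤ 4 * j + 3 := by omega
  have hji : 4 * j ≤ i := by omega
  have hQ : Qf i ≤ 2 ^ (j * 2 ^ j) := by
    unfold Qf xx
    rw [← hj, pow_mul]
    exact Nat.factorial_le_pow _
  have hA : A ≤ 2 ^ A := Nat.lt_two_pow_self.le
  have h1 : A * 2 ^ i * Qf i ≤ 2 ^ (A + i + j * 2 ^ j) := by
    rw [pow_add, pow_add]
    exact Nat.mul_le_mul (Nat.mul_le_mul_right _ hA) hQ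
  refine (Nat.pow_le_pow_left h1 A).trans ?_
  rw [← pow_mul]
  refine Nat.pow_le_pow_right (by norm_num) ?_
  have hJ : j < 2 ^ j := Nat.lt_two_pow_self
  have h8 : 8 ≤ 2 ^ j := by
    calc 8 = 2 ^ 3 := by norm_num
      _ ≤ 2 ^ j := Nat.pow_le_pow_right (by norm_num) (by omega)
  have h2 : A + i + j * 2 ^ j ≤ 2 ^ j * 2 ^ j * 2 ^ j := by
    have h3 : A + i ≤ 5 * 2 ^ j := by omega
    have h4 : j * 2 ^ j ≤ 2 ^ j * 2 ^ j := Nat.mul_le_mul_right _ hJ.le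
    have h5 : 8 * (2 ^ j * 2 ^ j) ≤ 2 ^ j * 2 ^ j * 2 ^ j := by
      rw [mul_comm (2 ^ j * 2 ^ j)]
      exact Nat.mul_le_mul_right _ h8
    have h6 : 8 * 2 ^ j ≤ 2 ^ j * 2 ^ j := Nat.mul_le_mul_right _ h8
    omega
  calc (A + i + j * 2 ^ j) * A ≤ (2 ^ j * 2 ^ j * 2 ^ j) * 2 ^ j :=
        Nat.mul_le_mul h2 (by omega)
    _ = 2 ^ (4 * j) := by
        rw [← pow_add, ← pow_add, ← pow_add]
        congr 1
        ring
    _ ≤ 2 ^ i := Nat.pow_le_pow_right (by norm_num) hji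

theorem tau_pos (i : ℕ) : 0 < tau i := by
  unfold tau
  positivity

theorem tau_anti {i j : ℕ} (h : i ≤ j) : tau j ≤ tau i := by
  unfold tau
  exact pow_le_pow_of_le_one (by norm_num) (by norm_num)
    (Nat.pow_le_pow_right (by norm_num) (by omega))

/-- tau_i^2 = 2^(-K_i) -/
theorem tau_sq (i : ℕ) (hi : 1 ≤ i) : tau i ^ 2 * 2 ^ 2 ^ i = 1 := by
  unfold tau
  have h1 : 2 ^ (i - 1) * 2 = 2 ^ i := by
    rw [← pow_succ]
    congr 1
    omega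
  rw [← pow_mul, h1, ← mul_pow]
  norm_num

/-- (A 2^i Q_i)^A tau_i ≤ 1 for large i (par_growth with 2 A and tau_sq) -/
theorem par_tau (A : ℕ) :
    ∃ i0 : ℕ, ∀ i : ℕ, i0 ≤ i → ((A : ℝ) * 2 ^ i * Qf i) ^ A * tau i ≤ 1 := by
  obtain ⟨i0, h0⟩ := par_growth (2 * A)
  refine ⟨i0 + 1, fun i hi => ?_⟩
  have h1 := h0 i (by omega)
  have h2 : (((2 * A : ℕ) : ℝ) * 2 ^ i * Qf i) ^ (2 * A) ≤ 2 ^ 2 ^ i := by exact_mod_cast h1
  have hA : (0 : ℝ) ≤ (A : ℝ) * 2 ^ i * Qf i := by positivity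
  have h3 : ((A : ℝ) * 2 ^ i * Qf i) ^ (2 * A) ≤ 2 ^ 2 ^ i := by
    refine le_trans (pow_le_pow_left₀ hA ?_ _) h2
    push_cast
    have : (0 : ℝ) ≤ (A : ℝ) * 2 ^ i * Qf i := hA
    nlinarith
  have ht := tau_pos i
  have h4 : (((A : ℝ) * 2 ^ i * Qf i) ^ A * tau i) ^ 2 ≤ 1 := by
    rw [mul_pow, ← pow_mul, mul_comm A 2, ← tau_sq i (by omega), mul_comm]
    exact mul_le_mul_of_nonneg_left h3 (by positivity)
  exact (sq_le_one_iff₀ (by positivity)).1 h4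
/- END PAR -/

end Pool.Agent.GsF
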