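import Mathlib

/-!
Basic definitions for the polynomial exponential sums: e(x), distance to the nearest integer,
Weyl sums of real polynomials, the averages on the moment curve, the box averages.
-/

namespace Pool.Agent.GsF

open Finset

/-- e(x) = exp(2 pi i x) -/
noncomputable def e (x : ℝ) : ℂ := Complex.exp ((2 * Real.pi * x : ℝ) * Complex.I)

/-- distance to the nearest integer -/
noncomputable def nrm (x : ℝ) : ℝ := |x - round x|

/-- a bound which grows polynomially in D -/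
noncomputable def pb (C : ℕ) (D : ℝ) : ℝ := (C : ℝ) * D ^ C

/-- Weyl sum of a real polynomial -/
noncomputable def W (P : Polynomial ℝ) (N : ℕ) : ℂ := ∑ n ∈ range N, e (P.eval (n : ℝ))

/-- the difference polynomial P(X + h) - P(X) -/
noncomputable def dif (P : Polynomial ℝ) (h : ℕ) : Polynomial ℝ :=
  P.comp (Polynomial.X + Polynomial.C (h : ℝ)) - P

/-- the inverse Weyl theorem in degree at most d -/
def IT (d : ℕ) : Prop :=
  ∃ C : ℕ, 1 ≤ C ∧ ∀ P : Polynomial ℝ, P.natDegree ≤ d → ∀ N : ℕ, 1 ≤ N → ∀ D : ℝ, 1 ≤ D →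
    (N : ℝ) ≤ D * ‖W P N‖ →
    ∃ q : ℕ, 1 ≤ q ∧ (q : ℝ) ≤ pb C D ∧
      ∀ l : ℕ, 1 ≤ l → l ≤ d → nrm (q * P.coeff l) * (N : ℝ) ^ l ≤ pb C D

/-! ### the function e -/

theorem e_zero : e 0 = 1 := by simp [e]

theorem e_add (x y : ℝ) : e (x + y) = e x * e y := by
  unfold e
  rw [← Complex.exp_add]
  congr 1
  push_cast
  ring

theorem norm_e (x : ℝ) : ‖e x‖ = 1 := by
  unfold e
  exact Complex.norm_exp_ofReal_mul_I _

theorem e_ne_zero (x : ℝ) : e x ≠ 0 := Complex.exp_ne_zero _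

theorem e_neg (x : ℝ) : e (-x) = (starRingEnd ℂ) (e x) := by
  unfold e
  rw [← Complex.exp_conj]
  congr 1
  rw [map_mul, Complex.conj_I, Complex.conj_ofReal]
  push_cast
  ring

theorem e_sub (x y : ℝ) : e (x - y) = e x * (starRingEnd ℂ) (e y) := by
  rw [sub_eq_add_neg, e_add, e_neg]

theorem e_int (n : ℤ) : e (n : ℝ) = 1 := by
  unfold e
  rw [Complex.exp_eq_one_iff]
  refine ⟨n, ?_⟩
  push_cast
  ring

theorem e_add_int (x : ℝ) (n : ℤ) : e (x + n) = e x := by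
  rw [e_add, e_int, mul_one]

theorem e_nat_mul (n : ℕ) (x : ℝ) : e (n * x) = e x ^ n := by
  induction n with
  | zero => simp [e_zero]
  | succ n ih =>
    rw [pow_succ, ← ih, ← e_add]
    congr 1
    push_cast
    ring

theorem e_sum {ι : Type*} (s : Finset ι) (f : ι → ℝ) : e (∑ i ∈ s, f i) = ∏ i ∈ s, e (f i) := by
  classical
  induction s using Finset.induction_on with
  | empty => simp [e_zero]
  | insert a s ha ih => rw [Finset.sum_insert ha, Finset.prod_insert ha, e_add, ih]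

/-- |e(x) - 1| ≤ 2 pi |x| -/
theorem norm_e_sub_one (x : ℝ) : ‖e x - 1‖ ≤ 2 * Real.pi * |x| := by
  unfold e
  have h := Real.norm_exp_I_mul_ofReal_sub_one_le (x := 2 * Real.pi * x)
  rw [mul_comm Complex.I] at h
  refine h.trans ?_
  rw [Real.norm_eq_abs, abs_mul, abs_of_pos Real.two_pi_pos]

theorem norm_e_sub_one' (x : ℝ) : ‖e x - 1‖ ≤ 7 * |x| := by
  refine (norm_e_sub_one x).trans ?_
  have := Real.pi_lt_d2
  have h0 := abs_nonneg x
  nlinarith

/-- e is 7-Lipschitz -/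
theorem norm_e_sub_e (x y : ℝ) : ‖e x - e y‖ ≤ 7 * |x - y| := by
  have h : e x - e y = e y * (e (x - y) - 1) := by
    rw [mul_sub, ← e_add, mul_one]
    congr 2
    ring
  rw [h, norm_mul, norm_e, one_mul]
  exact norm_e_sub_one' _

/-! ### distance to the nearest integer -/

theorem nrm_nonneg (x : ℝ) : 0 ≤ nrm x := abs_nonneg _

theorem nrm_le_half (x : ℝ) : nrm x ≤ 1 / 2 := abs_sub_round x

theorem nrm_le_abs_sub (x : ℝ) (z : ℤ) : nrm x ≤ |x - z| := round_le x z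

theorem exists_nrm (x : ℝ) : ∃ z : ℤ, nrm x = |x - z| := ⟨round x, rfl⟩

theorem nrm_le_abs (x : ℝ) : nrm x ≤ |x| := by simpa using nrm_le_abs_sub x 0

theorem nrm_add_int (x : ℝ) (z : ℤ) : nrm (x + z) = nrm x := by
  unfold nrm
  rw [round_add_intCast]
  congr 1
  push_cast
  ring

theorem nrm_int (z : ℤ) : nrm (z : ℝ) = 0 := by simp [nrm]

theorem nrm_zero : nrm 0 = 0 := by simp [nrm]

theorem nrm_neg (x : ℝ) : nrm (-x) = nrm x := by
  apply le_antisymm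
  · obtain ⟨z, hz⟩ := exists_nrm x
    rw [hz]
    have := nrm_le_abs_sub (-x) (-z)
    refine this.trans (le_of_eq ?_)
    rw [← abs_neg]
    congr 1
    push_cast
    ring
  · obtain ⟨z, hz⟩ := exists_nrm (-x)
    rw [hz]
    have := nrm_le_abs_sub x (-z)
    refine this.trans (le_of_eq ?_)
    rw [← abs_neg]
    congr 1
    push_cast
    ring

theorem nrm_add_le (x y : ℝ) : nrm (x + y) ≤ nrm x + nrm y := by
  obtain ⟨z, hz⟩ := exists_nrm x
  obtain ⟨w, hw⟩ := exists_nrm y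
  rw [hz, hw]
  refine (nrm_le_abs_sub _ (z + w)).trans ?_
  refine le_trans (le_of_eq ?_) (abs_add_le _ _)
  congr 1
  push_cast
  ring

theorem nrm_sub_le (x y : ℝ) : nrm (x - y) ≤ nrm x + nrm y := by
  rw [sub_eq_add_neg, ← nrm_neg y]
  exact nrm_add_le _ _

theorem nrm_nat_mul_le (n : ℕ) (x : ℝ) : nrm (n * x) ≤ n * nrm x := by
  obtain ⟨z, hz⟩ := exists_nrm x
  rw [hz]
  refine (nrm_le_abs_sub _ (n * z)).trans (le_of_eq ?_)
  push_cast
  rw [← mul_sub, abs_mul, Nat.abs_cast]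

theorem nrm_sum_le {ι : Type*} (s : Finset ι) (f : ι → ℝ) :
    nrm (∑ i ∈ s, f i) ≤ ∑ i ∈ s, nrm (f i) := by
  classical
  induction s using Finset.induction_on with
  | empty => simp [nrm_zero]
  | insert a s ha ih =>
    rw [Finset.sum_insert ha, Finset.sum_insert ha]
    exact (nrm_add_le _ _).trans (by linarith)

theorem nrm_eq_abs {x : ℝ} (h : |x| ≤ 1 / 2) : nrm x = |x| := by
  apply le_antisymm (nrm_le_abs x)
  by_contra hlt
  push Not at hlt
  obtain ⟨z, hz⟩ := exists_nrm x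
  have hz0 : z ≠ 0 := by
    rintro rfl
    rw [hz] at hlt
    simp at hlt
  have h1 : (1 : ℝ) ≤ |(z : ℝ)| := by
    rw [← Int.cast_abs]
    exact_mod_cast Int.one_le_abs hz0
  have h2 : |(z : ℝ)| ≤ |x - z| + |x| := by
    have := abs_sub_abs_le_abs_sub (z : ℝ) x
    rw [abs_sub_comm (z : ℝ) x] at this
    linarith
  rw [hz] at hlt
  linarith

/-- nrm x = 0 iff x is an integer -/
theorem nrm_eq_zero {x : ℝ} : nrm x = 0 ↔ ∃ z : ℤ, x = z := by
  constructor
  · intro h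
    obtain ⟨z, hz⟩ := exists_nrm x
    refine ⟨z, ?_⟩
    rw [h] at hz
    have := abs_eq_zero.mp hz.symm
    linarith
  · rintro ⟨z, rfl⟩
    exact nrm_int z

/-! ### polynomial bounds -/

theorem pb_nonneg (C : ℕ) {D : ℝ} (hD : 1 ≤ D) : 0 ≤ pb C D := by
  unfold pb
  positivity

theorem one_le_pb {C : ℕ} (hC : 1 ≤ C) {D : ℝ} (hD : 1 ≤ D) : 1 ≤ pb C D := by
  unfold pb
  have h1 : (1 : ℝ) ≤ C := by exact_mod_cast hC
  have h2 : (1 : ℝ) ≤ D ^ C := one_le_pow₀ hD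
  nlinarith

theorem pb_mono {C C' : ℕ} (h : C ≤ C') {D : ℝ} (hD : 1 ≤ D) : pb C D ≤ pb C' D := by
  unfold pb
  have h1 : (C : ℝ) ≤ C' := by exact_mod_cast h
  have h2 : D ^ C ≤ D ^ C' := pow_le_pow_right₀ hD h
  have h3 : (0 : ℝ) ≤ D ^ C := by positivity
  exact mul_le_mul h1 h2 h3 (by positivity)

/-- constants times powers of D are bounded by pb -/
theorem exists_pb (c : ℝ) (m : ℕ) : ∃ C : ℕ, 1 ≤ C ∧ ∀ D : ℝ, 1 ≤ D → c * D ^ m ≤ pb C D := by
  obtain ⟨n, hn⟩ := exists_nat_ge c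
  refine ⟨max (max n m) 1, le_max_right _ _, fun D hD => ?_⟩
  unfold pb
  have h1 : c ≤ ((max (max n m) 1 : ℕ) : ℝ) := by
    refine hn.trans ?_
    exact_mod_cast (le_max_left n m).trans (le_max_left _ 1)
  have h2 : D ^ m ≤ D ^ (max (max n m) 1) :=
    pow_le_pow_right₀ hD ((le_max_right n m).trans (le_max_left _ 1))
  exact mul_le_mul h1 h2 (by positivity) (by positivity)

/-- products of polynomial bounds -/
theorem exists_pb_mul (C C' : ℕ) :
    ∃ C'' : ℕ, 1 ≤ C'' ∧ ∀ D : ℝ, 1 ≤ D → pb C D * pb C' D ≤ pb C'' D := by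
  obtain ⟨K, hK1, hK⟩ := exists_pb ((C : ℝ) * C') (C + C')
  refine ⟨K, hK1, fun D hD => ?_⟩
  refine le_trans (le_of_eq ?_) (hK D hD)
  unfold pb
  ring

/-- sums of polynomial bounds -/
theorem exists_pb_add (C C' : ℕ) :
    ∃ C'' : ℕ, 1 ≤ C'' ∧ ∀ D : ℝ, 1 ≤ D → pb C D + pb C' D ≤ pb C'' D := by
  refine ⟨2 * (C + C' + 1), by omega, fun D hD => ?_⟩
  have h1 : pb C D ≤ pb (C + C' + 1) D := pb_mono (by omega) hD
  have h2 : pb C' D ≤ pb (C + C' + 1) D := pb_mono (by omega) hD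
  have h3 : 2 * pb (C + C' + 1) D ≤ pb (2 * (C + C' + 1)) D := by
    unfold pb
    have : D ^ (C + C' + 1) ≤ D ^ (2 * (C + C' + 1)) := pow_le_pow_right₀ hD (by omega)
    push_cast
    nlinarith [pow_nonneg (zero_le_one.trans hD) (C + C' + 1)]
  linarith

/-- powers of polynomial bounds -/
theorem exists_pb_pow (C m : ℕ) :
    ∃ C'' : ℕ, 1 ≤ C'' ∧ ∀ D : ℝ, 1 ≤ D → pb C D ^ m ≤ pb C'' D := by
  obtain ⟨K, hK1, hK⟩ := exists_pb ((C : ℝ) ^ m) (C * m)
  refine ⟨K, hK1, fun D hD => ?_⟩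
  refine le_trans (le_of_eq ?_) (hK D hD)
  unfold pb
  rw [mul_pow, ← pow_mul]

/-- composition of polynomial bounds with c D^m -/
theorem exists_pb_comp (C : ℕ) (c : ℝ) (m : ℕ) :
    ∃ C'' : ℕ, 1 ≤ C'' ∧ ∀ D : ℝ, 1 ≤ D → pb C (c * D ^ m) ≤ pb C'' D := by
  obtain ⟨K, hK1, hK⟩ := exists_pb ((C : ℝ) * c ^ C) (m * C)
  refine ⟨K, hK1, fun D hD => ?_⟩
  refine le_trans (le_of_eq ?_) (hK D hD)
  unfold pb
  rw [mul_pow, ← pow_mul]
  ring

theorem norm_W_le (P : Polynomial ℝ) (N : ℕ) : ‖W P N‖ ≤ N := by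
  unfold W
  refine (norm_sum_le _ _).trans ?_
  simp [norm_e]

end Pool.Agent.GsF
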