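import Pool.Agent.GsF.ADefs

/-!
Fourier multipliers and maximal functions on the finite group (Z/R)^d.
-/

namespace Pool.Agent.GsF

open Finset
open scoped NNReal

variable {R d : ℕ} [NeZero R]

/-- squared l2 norm -/
noncomputable def n2 (f : (Fin d → ZMod R) → ℂ) : ℝ := ∑ x, ‖f x‖ ^ 2

/-- the frequency of r -/
noncomputable def fr (r : Fin d → ZMod R) : Fin d → ℝ := fun l => ((r l).val : ℝ) / R

/-- the characters -/
noncomputable def chh (r x : Fin d → ZMod R) : ℂ :=
  e (∑ l, ((r l).val : ℝ) * ((x l).val : ℝ) / R)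

/-- Fourier multiplier -/
noncomputable def Tm (m f : (Fin d → ZMod R) → ℂ) : (Fin d → ZMod R) → ℂ :=
  fun x => (1 / (R : ℂ) ^ d) * ∑ r, m r * (∑ y, f y * (starRingEnd ℂ) (chh r y)) * chh r x

/-- average over the moment curve -/
noncomputable def Ag (N : ℕ) (f : (Fin d → ZMod R) → ℂ) : (Fin d → ZMod R) → ℂ :=
  fun x => (∑ n ∈ range N, f (fun l => x l + (n : ZMod R) ^ ((l : ℕ) + 1))) / (N : ℂ)

/-- average over a box in (Q Z)^d -/
noncomputable def Bg (N Q : ℕ) (f : (Fin d → ZMod R) → ℂ) : (Fin d → ZMod R) → ℂ :=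
  fun x => (∑ j ∈ Fintype.piFinset (fun l : Fin d => range (N ^ ((l : ℕ) + 1) / Q + 1)),
    f (fun l => x l + ((Q * j l : ℕ) : ZMod R))) /
      (∏ l : Fin d, ((N ^ ((l : ℕ) + 1) / Q + 1 : ℕ) : ℂ))

/-- maximal function of a finite family -/
noncomputable def mx {X : Type*} (s : Finset ℕ) (v : ℕ → X → ℂ) (x : X) : ℝ :=
  ((s.sup fun k => ‖v k x‖₊ : ℝ≥0) : ℝ)

/-- l2 norm of a real function -/
noncomputable def l2 {X : Type*} [Fintype X] (g : X → ℝ) : ℝ := Real.sqrt (∑ x, g x ^ 2)

/- MODULE FA -/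
private theorem FA_sum (g : ℕ → ℂ) : ∑ r : ZMod R, g r.val = ∑ k ∈ range R, g k := by
  refine Finset.sum_nbij' (fun r => r.val) (fun k => (k : ZMod R)) ?_ ?_ ?_ ?_ ?_
  · intro r _
    exact Finset.mem_range.2 (ZMod.val_lt r)
  · intro k _
    exact Finset.mem_univ _
  · intro r _
    exact ZMod.natCast_zmod_val r
  · intro k hk
    exact ZMod.val_natCast_of_lt (Finset.mem_range.1 hk)
  · intro r _
    rfl

private theorem FA_one (x y : ZMod R) :
    ∑ s : ZMod R, e ((s.val : ℝ) * (x.val : ℝ) / R) * (starRingEnd ℂ) (e ((s.val : ℝ) * (y.val : ℝ) / R)) =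
      if x = y then (R : ℂ) else 0 := by
  have hR : (R : ℝ) ≠ 0 := Nat.cast_ne_zero.2 (NeZero.ne R)
  have h1 : ∀ s : ZMod R, e ((s.val : ℝ) * (x.val : ℝ) / R) *
      (starRingEnd ℂ) (e ((s.val : ℝ) * (y.val : ℝ) / R)) =
      (fun k : ℕ => e (((x.val : ℝ) - (y.val : ℝ)) / R) ^ k) s.val := by
    intro s
    show _ = e (((x.val : ℝ) - (y.val : ℝ)) / R) ^ s.val
    rw [← e_sub, ← e_nat_mul]
    congr 1
    ring
  rw [Finset.sum_congr rfl fun s _ => h1 s, FA_sum]
  by_cases hxy : x = y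
  · subst hxy
    rw [if_pos rfl, sub_self, zero_div, e_zero]
    simp
  · rw [if_neg hxy]
    have h2 : e (((x.val : ℝ) - (y.val : ℝ)) / R) ≠ 1 := by
      intro hc
      unfold e at hc
      rw [Complex.exp_eq_one_iff] at hc
      obtain ⟨n, hn⟩ := hc
      have hpi : (2 * Real.pi * Complex.I : ℂ) ≠ 0 := Complex.two_pi_I_ne_zero
      have h3 : ((((x.val : ℝ) - (y.val : ℝ)) / R : ℝ) : ℂ) = (n : ℂ) := by
        have h4 : (2 * Real.pi * Complex.I : ℂ) * ((((x.val : ℝ) - (y.val : ℝ)) / R : ℝ) : ℂ) =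
            (2 * Real.pi * Complex.I : ℂ) * (n : ℂ) := by
          rw [mul_comm (2 * Real.pi * Complex.I : ℂ) (n : ℂ), ← hn]
          push_cast
          ring
        exact mul_left_cancel₀ hpi h4
      have h5 : ((x.val : ℝ) - (y.val : ℝ)) / R = (n : ℝ) := by exact_mod_cast h3
      have h6 : (x.val : ℝ) - (y.val : ℝ) = n * R := by
        rw [← h5]
        field_simp
      have h7 : (x.val : ℤ) - (y.val : ℤ) = n * R := by exact_mod_cast h6
      have h8 : (((x.val : ℤ) - (y.val : ℤ) : ℤ) : ZMod R) = 0 := by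
        rw [h7]
        push_cast
        rw [ZMod.natCast_self, mul_zero]
      push_cast at h8
      rw [ZMod.natCast_zmod_val, ZMod.natCast_zmod_val, sub_eq_zero] at h8
      exact hxy h8
    rw [geom_sum_eq h2, ← e_nat_mul]
    have h9 : (R : ℝ) * (((x.val : ℝ) - (y.val : ℝ)) / R) = (((x.val : ℤ) - (y.val : ℤ) : ℤ) : ℝ) := by
      push_cast
      field_simp
    rw [h9, e_int, sub_self, zero_div]

/-- orthogonality of the characters (product over the coordinates of geometric sums over ZMod R) -/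
theorem chh_orth (x y : Fin d → ZMod R) :
    ∑ r, chh r x * (starRingEnd ℂ) (chh r y) = if x = y then (R : ℂ) ^ d else 0 := by
  classical
  have h1 : ∀ r : Fin d → ZMod R, chh r x * (starRingEnd ℂ) (chh r y) =
      ∏ l, (e (((r l).val : ℝ) * ((x l).val : ℝ) / R) *
        (starRingEnd ℂ) (e (((r l).val : ℝ) * ((y l).val : ℝ) / R))) := by
    intro r
    unfold chh
    rw [e_sum, e_sum, map_prod, Finset.prod_mul_distrib]
  rw [Finset.sum_congr rfl fun r _ => h1 r]
  have h2 := Finset.prod_univ_sum (fun _ : Fin d => (Finset.univ : Finset (ZMod R)))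
    (fun (l : Fin d) (s : ZMod R) => e ((s.val : ℝ) * ((x l).val : ℝ) / R) *
        (starRingEnd ℂ) (e ((s.val : ℝ) * ((y l).val : ℝ) / R)))
  rw [Fintype.piFinset_univ] at h2
  rw [← h2, Finset.prod_congr rfl fun l _ => FA_one (x l) (y l)]
  by_cases hxy : x = y
  · subst hxy
    rw [if_pos rfl]
    simp
  · rw [if_neg hxy]
    obtain ⟨l, hl⟩ : ∃ l, x l ≠ y l := by
      by_contra hc
      rw [not_exists] at hc
      exact hxy (funext fun l => not_not.1 (hc l))
    exact Finset.prod_eq_zero (Finset.mem_univ l) (if_neg hl)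

/-- the same for two frequencies -/
theorem chh_orth' (r s : Fin d → ZMod R) :
    ∑ x, chh r x * (starRingEnd ℂ) (chh s x) = if r = s then (R : ℂ) ^ d else 0 := by
  have h1 : ∀ r x : Fin d → ZMod R, chh r x = chh x r := by
    intro r x
    unfold chh
    congr 1
    exact Finset.sum_congr rfl fun l _ => by ring
  rw [Finset.sum_congr rfl fun x _ => by rw [h1 r x, h1 s x]]
  exact chh_orth r s
/- END FA -/

/- MODULE FB -/
theorem Tm_one (f : (Fin d → ZMod R) → ℂ) : Tm (fun _ => 1) f = f := by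
  funext x
  show (1 / (R : ℂ) ^ d) * ∑ r, (1 : ℂ) * (∑ y, f y * (starRingEnd ℂ) (chh r y)) * chh r x = f x
  have h1 : ∑ r, (1 : ℂ) * (∑ y, f y * (starRingEnd ℂ) (chh r y)) * chh r x =
      ∑ y, f y * ∑ r, chh r x * (starRingEnd ℂ) (chh r y) := by
    simp only [one_mul, Finset.sum_mul, Finset.mul_sum]
    rw [Finset.sum_comm]
    exact Finset.sum_congr rfl fun y _ => Finset.sum_congr rfl fun r _ => by ring
  rw [h1, Finset.sum_congr rfl fun y _ => by rw [chh_orth x y]]
  have hR : ((R : ℂ) ^ d) ≠ 0 := pow_ne_zero _ (Nat.cast_ne_zero.2 (NeZero.ne R))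
  simp only [mul_ite, mul_zero, Finset.sum_ite_eq, Finset.mem_univ, if_true]
  field_simp

private theorem FB_hat (m f : (Fin d → ZMod R) → ℂ) (s : Fin d → ZMod R) :
    ∑ y, Tm m f y * (starRingEnd ℂ) (chh s y) = m s * ∑ y, f y * (starRingEnd ℂ) (chh s y) := by
  have hR : ((R : ℂ) ^ d) ≠ 0 := pow_ne_zero _ (Nat.cast_ne_zero.2 (NeZero.ne R))
  have h1 : ∑ y, Tm m f y * (starRingEnd ℂ) (chh s y) =
      (1 / (R : ℂ) ^ d) * ∑ r, (m r * ∑ y, f y * (starRingEnd ℂ) (chh r y)) *
        ∑ y, chh r y * (starRingEnd ℂ) (chh s y) := by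
    have h2 : ∀ y, Tm m f y * (starRingEnd ℂ) (chh s y) =
        ∑ r, (1 / (R : ℂ) ^ d) * ((m r * ∑ y, f y * (starRingEnd ℂ) (chh r y)) *
          (chh r y * (starRingEnd ℂ) (chh s y))) := by
      intro y
      show ((1 / (R : ℂ) ^ d) * ∑ r, m r * (∑ y, f y * (starRingEnd ℂ) (chh r y)) * chh r y) *
        (starRingEnd ℂ) (chh s y) = _
      rw [mul_assoc, Finset.sum_mul, Finset.mul_sum]
      exact Finset.sum_congr rfl fun r _ => by ring
    rw [Finset.sum_congr rfl fun y _ => h2 y, Finset.sum_comm, Finset.mul_sum]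
    refine Finset.sum_congr rfl fun r _ => ?_
    rw [← Finset.mul_sum, ← Finset.mul_sum]
  rw [h1, Finset.sum_congr rfl fun r _ => by rw [chh_orth' r s]]
  simp only [mul_ite, mul_zero, Finset.sum_ite_eq', Finset.mem_univ, if_true]
  field_simp

theorem Tm_mul (m m' f : (Fin d → ZMod R) → ℂ) :
    Tm m (Tm m' f) = Tm (fun r => m r * m' r) f := by
  funext x
  show (1 / (R : ℂ) ^ d) * ∑ r, m r * (∑ y, Tm m' f y * (starRingEnd ℂ) (chh r y)) * chh r x =
    (1 / (R : ℂ) ^ d) * ∑ r, (m r * m' r) * (∑ y, f y * (starRingEnd ℂ) (chh r y)) * chh r x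
  congr 1
  refine Finset.sum_congr rfl fun r _ => ?_
  rw [FB_hat]
  ring

theorem Tm_add (m m' f : (Fin d → ZMod R) → ℂ) :
    Tm (fun r => m r + m' r) f = fun x => Tm m f x + Tm m' f x := by
  funext x
  unfold Tm
  rw [← mul_add, ← Finset.sum_add_distrib]
  congr 1
  exact Finset.sum_congr rfl fun r _ => by ring

theorem Tm_sub (m m' f : (Fin d → ZMod R) → ℂ) :
    Tm (fun r => m r - m' r) f = fun x => Tm m f x - Tm m' f x := by
  funext x
  unfold Tm
  rw [← mul_sub, ← Finset.sum_sub_distrib]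
  congr 1
  exact Finset.sum_congr rfl fun r _ => by ring

theorem Tm_sum {ι : Type*} (s : Finset ι) (m : ι → (Fin d → ZMod R) → ℂ)
    (f : (Fin d → ZMod R) → ℂ) :
    Tm (fun r => ∑ i ∈ s, m i r) f = fun x => ∑ i ∈ s, Tm (m i) f x := by
  funext x
  unfold Tm
  rw [← Finset.mul_sum]
  congr 1
  rw [Finset.sum_comm]
  refine Finset.sum_congr rfl fun r _ => ?_
  rw [Finset.sum_mul, Finset.sum_mul]
/- END FB -/

/- MODULE FC -/
private theorem FC_par (m f : (Fin d → ZMod R) → ℂ) :
    n2 (Tm m f) = (1 / (R : ℝ) ^ d) * ∑ r, ‖m r‖ ^ 2 * ‖∑ y, f y * (starRingEnd ℂ) (chh r y)‖ ^ 2 := by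
  have hR : ((R : ℂ) ^ d) ≠ 0 := pow_ne_zero _ (Nat.cast_ne_zero.2 (NeZero.ne R))
  have h0 : ∀ z : ℂ, ((‖z‖ ^ 2 : ℝ) : ℂ) = z * (starRingEnd ℂ) z := by
    intro z
    rw [Complex.mul_conj, Complex.normSq_eq_norm_sq]
  have h1 : ((n2 (Tm m f) : ℝ) : ℂ) = ∑ x, Tm m f x * (starRingEnd ℂ) (Tm m f x) := by
    unfold n2
    rw [Complex.ofReal_sum]
    exact Finset.sum_congr rfl fun x _ => h0 _
  have h2 : ∑ x, Tm m f x * (starRingEnd ℂ) (Tm m f x) =
      (1 / (R : ℂ) ^ d) * ∑ r, (starRingEnd ℂ) (m r * ∑ y, f y * (starRingEnd ℂ) (chh r y)) *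
        ∑ x, Tm m f x * (starRingEnd ℂ) (chh r x) := by
    have h3 : ∀ x, (starRingEnd ℂ) (Tm m f x) =
        (1 / (R : ℂ) ^ d) * ∑ r, (starRingEnd ℂ) (m r * ∑ y, f y * (starRingEnd ℂ) (chh r y)) *
          (starRingEnd ℂ) (chh r x) := by
      intro x
      show (starRingEnd ℂ) ((1 / (R : ℂ) ^ d) * ∑ r, m r * (∑ y, f y * (starRingEnd ℂ) (chh r y)) *
        chh r x) = _
      rw [map_mul, map_sum]
      congr 1
      · simp
      · exact Finset.sum_congr rfl fun r _ => by rw [map_mul]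
    have h4 : ∀ x, Tm m f x * (starRingEnd ℂ) (Tm m f x) =
        ∑ r, (1 / (R : ℂ) ^ d) * ((starRingEnd ℂ) (m r * ∑ y, f y * (starRingEnd ℂ) (chh r y)) *
          (Tm m f x * (starRingEnd ℂ) (chh r x))) := by
      intro x
      rw [h3 x, ← mul_assoc, Finset.mul_sum]
      exact Finset.sum_congr rfl fun r _ => by ring
    rw [Finset.sum_congr rfl fun x _ => h4 x, Finset.sum_comm, Finset.mul_sum]
    refine Finset.sum_congr rfl fun r _ => ?_
    rw [← Finset.mul_sum, ← Finset.mul_sum]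
  have h4 : ((n2 (Tm m f) : ℝ) : ℂ) =
      (((1 / (R : ℝ) ^ d) * ∑ r, ‖m r‖ ^ 2 * ‖∑ y, f y * (starRingEnd ℂ) (chh r y)‖ ^ 2 : ℝ) : ℂ) := by
    rw [h1, h2]
    push_cast
    congr 1
    refine Finset.sum_congr rfl fun r _ => ?_
    rw [FB_hat]
    have h5 := h0 (m r * ∑ y, f y * (starRingEnd ℂ) (chh r y))
    rw [norm_mul, mul_pow] at h5
    push_cast at h5
    rw [h5]
    ring
  exact_mod_cast h4

/-- Parseval for multipliers: n2 (Tm m f) = R^(-d) sum |m r|^2 |fhat r|^2, n2 f = R^(-d) sum |fhat r|^2 -/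
theorem n2_Tm_sum_le {ι : Type*} (s : Finset ι) (m : ι → (Fin d → ZMod R) → ℂ) (V : ℝ)
    (h : ∀ r, ∑ i ∈ s, ‖m i r‖ ^ 2 ≤ V) (f : (Fin d → ZMod R) → ℂ) :
    ∑ i ∈ s, n2 (Tm (m i) f) ≤ V * n2 f := by
  have hR : (0 : ℝ) < (R : ℝ) ^ d := pow_pos (Nat.cast_pos.2 (Nat.pos_of_ne_zero (NeZero.ne R))) _
  have h1 : n2 f = (1 / (R : ℝ) ^ d) * ∑ r, ‖(1 : ℂ)‖ ^ 2 * ‖∑ y, f y * (starRingEnd ℂ) (chh r y)‖ ^ 2 := by
    have h2 := FC_par (fun _ => 1) f
    rw [Tm_one] at h2
    exact h2
  rw [Finset.sum_congr rfl fun i _ => FC_par (m i) f, ← Finset.mul_sum, Finset.sum_comm, h1,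
    mul_left_comm]
  refine mul_le_mul_of_nonneg_left ?_ (by positivity)
  rw [Finset.mul_sum]
  refine Finset.sum_le_sum fun r _ => ?_
  rw [← Finset.sum_mul, norm_one, one_pow, one_mul]
  exact mul_le_mul_of_nonneg_right (h r) (by positivity)

theorem n2_Tm_le (m : (Fin d → ZMod R) → ℂ) (V : ℝ) (hV : 0 ≤ V) (h : ∀ r, ‖m r‖ ≤ V)
    (f : (Fin d → ZMod R) → ℂ) : n2 (Tm m f) ≤ V ^ 2 * n2 f := by
  have h1 := n2_Tm_sum_le (Finset.univ : Finset Unit) (fun _ => m) (V ^ 2)
    (fun r => by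
      rw [Finset.univ_unique, Finset.sum_singleton]
      exact pow_le_pow_left₀ (norm_nonneg _) (h r) 2) f
  rw [Finset.univ_unique, Finset.sum_singleton] at h1
  exact h1
/- END FC -/

/- MODULE FD -/
private theorem FD_one (k : ℕ) (x : ZMod R) (c : ℤ) :
    e ((c : ℝ) * ((k : ℝ) / R) + (k : ℝ) * (x.val : ℝ) / R) =
      e ((k : ℝ) * ((x + (c : ZMod R)).val : ℝ) / R) := by
  have hR : (R : ℝ) ≠ 0 := Nat.cast_ne_zero.2 (NeZero.ne R)
  have h1 : (((x.val : ℤ) + c - ((x + (c : ZMod R)).val : ℤ) : ℤ) : ZMod R) = 0 := by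
    push_cast
    rw [ZMod.natCast_zmod_val, ZMod.natCast_zmod_val]
    ring
  rw [ZMod.intCast_zmod_eq_zero_iff_dvd] at h1
  obtain ⟨q, hq⟩ := h1
  have h2 : (x.val : ℝ) + c - ((x + (c : ZMod R)).val : ℝ) = R * q := by exact_mod_cast hq
  have h3 : (c : ℝ) * ((k : ℝ) / R) + (k : ℝ) * (x.val : ℝ) / R =
      (k : ℝ) * ((x + (c : ZMod R)).val : ℝ) / R + ((k * q : ℤ) : ℝ) := by
    have h4 : (x.val : ℝ) = R * q - c + ((x + (c : ZMod R)).val : ℝ) := by linarith
    rw [h4]
    push_cast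
    field_simp
    ring
  rw [h3, e_add_int]

/-- a translation is a multiplier: chh r (y - c) etc; e(sum c_l (r l).val/R) depends only on c mod R -/
theorem Tm_shift (c : Fin d → ℤ) (f : (Fin d → ZMod R) → ℂ) :
    Tm (fun r => e (∑ l, (c l : ℝ) * fr r l)) f = fun x => f (fun l => x l + (c l : ZMod R)) := by
  funext x
  have h1 := congrFun (Tm_one f) (fun l => x l + (c l : ZMod R))
  rw [← h1]
  unfold Tm
  congr 1
  refine Finset.sum_congr rfl fun r _ => ?_
  have h2 : e (∑ l, (c l : ℝ) * fr r l) * chh r x = chh r (fun l => x l + (c l : ZMod R)) := by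
    unfold chh fr
    rw [← e_add, ← Finset.sum_add_distrib, e_sum, e_sum]
    exact Finset.prod_congr rfl fun l _ => FD_one (r l).val (x l) (c l)
  rw [← h2]
  ring
/- END FD -/

/- MODULE FE -/
private theorem FE_smul (c : ℂ) (m f : (Fin d → ZMod R) → ℂ) :
    Tm (fun r => c * m r) f = fun x => c * Tm m f x := by
  funext x
  have h1 : ∑ r, (c * m r) * (∑ y, f y * (starRingEnd ℂ) (chh r y)) * chh r x =
      c * ∑ r, m r * (∑ y, f y * (starRingEnd ℂ) (chh r y)) * chh r x := by
    rw [Finset.mul_sum]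
    exact Finset.sum_congr rfl fun r _ => by ring
  show (1 / (R : ℂ) ^ d) * ∑ r, (c * m r) * (∑ y, f y * (starRingEnd ℂ) (chh r y)) * chh r x = _
  rw [h1, mul_left_comm]
  rfl

/-- Ag and Bg are multipliers (Tm_shift, Tm_sum; b is a product of sums: Finset.prod_univ_sum) -/
theorem Ag_eq (N : ℕ) (f : (Fin d → ZMod R) → ℂ) : Ag N f = Tm (fun r => a N (fr r)) f := by
  funext x
  have h1 : (fun r : Fin d → ZMod R => a N (fr r)) =
      fun r => (1 / (N : ℂ)) * ∑ n ∈ range N, e (∑ l : Fin d, (((n : ℤ) ^ ((l : ℕ) + 1) : ℤ) : ℝ) * fr r l) := by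
    funext r
    unfold a ph
    rw [div_eq_mul_inv, mul_comm, one_div]
    congr 1
    refine Finset.sum_congr rfl fun n _ => ?_
    congr 1
    refine Finset.sum_congr rfl fun l _ => ?_
    push_cast
    ring
  rw [h1, FE_smul, Tm_sum]
  unfold Ag
  rw [div_eq_mul_inv, mul_comm, one_div]
  congr 1
  refine Finset.sum_congr rfl fun n _ => ?_
  rw [Tm_shift]
  congr 1
  funext l
  push_cast
  rfl

theorem Bg_eq (N Q : ℕ) (f : (Fin d → ZMod R) → ℂ) : Bg N Q f = Tm (fun r => b N Q (fr r)) f := by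
  funext x
  have h1 : (fun r : Fin d → ZMod R => b N Q (fr r)) =
      fun r => (1 / (∏ l : Fin d, ((N ^ ((l : ℕ) + 1) / Q + 1 : ℕ) : ℂ))) *
        ∑ j ∈ Fintype.piFinset (fun l : Fin d => range (N ^ ((l : ℕ) + 1) / Q + 1)),
          e (∑ l : Fin d, (((Q * j l : ℕ) : ℤ) : ℝ) * fr r l) := by
    funext r
    unfold b bt
    rw [Finset.prod_div_distrib, div_eq_mul_inv, mul_comm, one_div]
    congr 1
    rw [Finset.prod_univ_sum]
    refine Finset.sum_congr rfl fun j _ => ?_
    rw [e_sum]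
    refine Finset.prod_congr rfl fun l _ => ?_
    congr 1
    push_cast
    ring
  rw [h1, FE_smul, Tm_sum]
  unfold Bg
  rw [div_eq_mul_inv, mul_comm, one_div]
  congr 1
  refine Finset.sum_congr rfl fun n _ => ?_
  rw [Tm_shift]
  congr 1
  funext l
  push_cast
  rfl
/- END FE -/

/- MODULE FM -/
theorem mx_nonneg {X : Type*} (s : Finset ℕ) (v : ℕ → X → ℂ) (x : X) : 0 ≤ mx s v x := by
  exact NNReal.coe_nonneg _

theorem le_mx {X : Type*} (s : Finset ℕ) (v : ℕ → X → ℂ) (x : X) (k : ℕ) (hk : k ∈ s) :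
    ‖v k x‖ ≤ mx s v x := by
  unfold mx
  rw [← coe_nnnorm]
  exact NNReal.coe_le_coe.2 (Finset.le_sup (f := fun k => ‖v k x‖₊) hk)

theorem mx_le {X : Type*} (s : Finset ℕ) (v : ℕ → X → ℂ) (x : X) (c : ℝ) (hc : 0 ≤ c)
    (h : ∀ k ∈ s, ‖v k x‖ ≤ c) : mx s v x ≤ c := by
  unfold mx
  have h1 : (s.sup fun k => ‖v k x‖₊) ≤ (⟨c, hc⟩ : ℝ≥0) := by
    refine Finset.sup_le fun k hk => ?_
    exact NNReal.coe_le_coe.1 (by rw [coe_nnnorm]; exact h k hk)
  exact NNReal.coe_le_coe.2 h1

/-- Minkowski -/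
theorem l2_add_le {X : Type*} [Fintype X] (g h : X → ℝ) : l2 (fun x => g x + h x) ≤ l2 g + l2 h := by
  unfold l2
  rw [← Real.sqrt_sq (Real.sqrt_nonneg (∑ x, g x ^ 2) |> fun h1 => add_nonneg h1
    (Real.sqrt_nonneg (∑ x, h x ^ 2)))]
  apply Real.sqrt_le_sqrt
  have hg : 0 ≤ ∑ x, g x ^ 2 := Finset.sum_nonneg fun x _ => sq_nonneg _
  have hh : 0 ≤ ∑ x, h x ^ 2 := Finset.sum_nonneg fun x _ => sq_nonneg _
  have h1 : (∑ x, g x * h x) ≤ Real.sqrt (∑ x, g x ^ 2) * Real.sqrt (∑ x, h x ^ 2) :=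
    Real.sum_mul_le_sqrt_mul_sqrt _ _ _
  have h2 := Real.sq_sqrt hg
  have h3 := Real.sq_sqrt hh
  have h4 : ∑ x, (g x + h x) ^ 2 = ∑ x, g x ^ 2 + 2 * (∑ x, g x * h x) + ∑ x, h x ^ 2 := by
    rw [Finset.mul_sum, ← Finset.sum_add_distrib, ← Finset.sum_add_distrib]
    exact Finset.sum_congr rfl fun x _ => by ring
  rw [h4]
  nlinarith

theorem l2_sum_le {X : Type*} [Fintype X] {ι : Type*} (s : Finset ι) (g : ι → X → ℝ) :
    l2 (fun x => ∑ i ∈ s, g i x) ≤ ∑ i ∈ s, l2 (g i) := by
  classical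
  induction s using Finset.induction_on with
  | empty => simp [l2]
  | insert i s hi ih =>
    simp only [Finset.sum_insert hi]
    exact (l2_add_le _ _).trans (by linarith)

theorem l2_mono {X : Type*} [Fintype X] (g h : X → ℝ) (h0 : ∀ x, 0 ≤ g x) (hgh : ∀ x, g x ≤ h x) :
    l2 g ≤ l2 h := by
  unfold l2
  exact Real.sqrt_le_sqrt (Finset.sum_le_sum fun x _ => pow_le_pow_left₀ (h0 x) (hgh x) 2)

theorem l2_nonneg {X : Type*} [Fintype X] (g : X → ℝ) : 0 ≤ l2 g := by
  exact Real.sqrt_nonneg _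

theorem l2_const_mul {X : Type*} [Fintype X] (c : ℝ) (hc : 0 ≤ c) (g : X → ℝ) :
    l2 (fun x => c * g x) = c * l2 g := by
  unfold l2
  have h1 : ∑ x, (c * g x) ^ 2 = c ^ 2 * ∑ x, g x ^ 2 := by
    rw [Finset.mul_sum]
    exact Finset.sum_congr rfl fun x _ => by ring
  rw [h1, Real.sqrt_mul (sq_nonneg c), Real.sqrt_sq hc]

/-- the l2 norm of |f| -/
theorem l2_norm (f : (Fin d → ZMod R) → ℂ) : l2 (fun x => ‖f x‖) = Real.sqrt (n2 f) := by
  rfl

/-- sup ≤ square function -/
theorem l2_mx_sq (s : Finset ℕ) (v : ℕ → (Fin d → ZMod R) → ℂ) (V : ℝ)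
    (h : ∑ k ∈ s, n2 (v k) ≤ V) : l2 (mx s v) ≤ Real.sqrt V := by
  unfold l2
  apply Real.sqrt_le_sqrt
  refine le_trans ?_ h
  unfold n2
  rw [Finset.sum_comm]
  refine Finset.sum_le_sum fun x _ => ?_
  have h1 : mx s v x ≤ Real.sqrt (∑ k ∈ s, ‖v k x‖ ^ 2) := by
    refine mx_le s v x _ (Real.sqrt_nonneg _) fun k hk => ?_
    refine Real.le_sqrt_of_sq_le ?_
    exact Finset.single_le_sum (f := fun k => ‖v k x‖ ^ 2) (fun k _ => by positivity) hk
  calc mx s v x ^ 2 ≤ Real.sqrt (∑ k ∈ s, ‖v k x‖ ^ 2) ^ 2 :=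
        pow_le_pow_left₀ (mx_nonneg s v x) h1 2
    _ = _ := Real.sq_sqrt (Finset.sum_nonneg fun k _ => by positivity)
/- END FM -/

/- MODULE RM -/
private theorem RM_pair (g : ℕ → ℝ) (n : ℕ) :
    ∑ j ∈ range (2 * n), g j = ∑ t ∈ range n, (g (2 * t) + g (2 * t + 1)) := by
  induction n with
  | zero => simp
  | succ n ih =>
    rw [show 2 * (n + 1) = 2 * n + 1 + 1 from by ring, Finset.sum_range_succ, Finset.sum_range_succ, ih,
      Finset.sum_range_succ]
    ring

/-- Rademacher-Menshov. For j < 2^i the binary expansion gives a chain 0 = j_0 ≤ .. ≤ j = j_n of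
points, each step of the form t 2^l → (t+1) 2^l with l < i, at most one for each l, so
|Tm (m j) f x| ≤ |Tm (m 0) f x| + sum over l < i of (sum over t < 2^(i-l) of
|Tm (m ((t+1) 2^l) - m (t 2^l)) f x|^2)^(1/2). For each l and r the sum over t of
|m ((t+1)2^l) r - m (t 2^l) r|^2 ≤ (sum of the norms)^2 ≤ V^2; use n2_Tm_sum_le, l2_sum_le. -/
theorem rm (i : ℕ) (m : ℕ → (Fin d → ZMod R) → ℂ) (V : ℝ)
    (h : ∀ r, ‖m 0 r‖ + ∑ j ∈ range (2 ^ i), ‖m (j + 1) r - m j r‖ ≤ V)
    (f : (Fin d → ZMod R) → ℂ) :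
    l2 (mx (range (2 ^ i)) (fun j => Tm (m j) f)) ≤ (i + 1) * V * Real.sqrt (n2 f) := by
  induction i generalizing m with
  | zero =>
    have hV : ∀ r, ‖m 0 r‖ ≤ V := by
      intro r
      have h1 := h r
      have h2 : 0 ≤ ∑ j ∈ range (2 ^ 0), ‖m (j + 1) r - m j r‖ :=
        Finset.sum_nonneg fun j _ => norm_nonneg _
      linarith
    have hV0 : 0 ≤ V := (norm_nonneg _).trans (hV 0)
    have h1 : l2 (mx (range (2 ^ 0)) (fun j => Tm (m j) f)) ≤ Real.sqrt (V ^ 2 * n2 f) := by
      refine l2_mx_sq _ _ _ ?_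
      rw [pow_zero, Finset.range_one, Finset.sum_singleton]
      exact n2_Tm_le (m 0) V hV0 hV f
    rw [Real.sqrt_mul (sq_nonneg V), Real.sqrt_sq hV0] at h1
    refine h1.trans (le_of_eq ?_)
    push_cast
    ring
  | succ i ih =>
    have hdec : ∀ r, ∑ j ∈ range (2 ^ (i + 1)), ‖m (j + 1) r - m j r‖ =
        ∑ t ∈ range (2 ^ i), (‖m (2 * t + 1) r - m (2 * t) r‖ + ‖m (2 * t + 2) r - m (2 * t + 1) r‖) := by
      intro r
      rw [pow_succ, mul_comm]
      exact RM_pair _ _
    have hm0 : ∀ r, 0 ≤ ‖m 0 r‖ := fun r => norm_nonneg _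
    have h1 : ∀ r, ‖m (2 * 0) r‖ + ∑ j ∈ range (2 ^ i), ‖m (2 * (j + 1)) r - m (2 * j) r‖ ≤ V := by
      intro r
      refine le_trans ?_ (h r)
      rw [hdec, mul_zero]
      refine add_le_add le_rfl (Finset.sum_le_sum fun t _ => ?_)
      have h2 : m (2 * (t + 1)) r - m (2 * t) r =
          (m (2 * t + 1) r - m (2 * t) r) + (m (2 * t + 2) r - m (2 * t + 1) r) := by
        rw [show 2 * (t + 1) = 2 * t + 2 from by ring]
        ring
      rw [h2]
      exact norm_add_le _ _
    have h3 := ih (fun j => m (2 * j)) h1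
    have hV0 : 0 ≤ V := by
      refine le_trans ?_ (h 0)
      have : 0 ≤ ∑ j ∈ range (2 ^ (i + 1)), ‖m (j + 1) 0 - m j 0‖ :=
        Finset.sum_nonneg fun j _ => norm_nonneg _
      linarith [hm0 0]
    have h4 : l2 (mx (range (2 ^ i)) (fun t => Tm (fun r => m (2 * t + 1) r - m (2 * t) r) f)) ≤
        V * Real.sqrt (n2 f) := by
      have h5 : ∀ r, ∑ t ∈ range (2 ^ i), ‖m (2 * t + 1) r - m (2 * t) r‖ ^ 2 ≤ V ^ 2 := by
        intro r
        have h6 : ∑ t ∈ range (2 ^ i), ‖m (2 * t + 1) r - m (2 * t) r‖ ≤ V := by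
          refine le_trans ?_ (h r)
          rw [hdec]
          have h7 : ∑ t ∈ range (2 ^ i), ‖m (2 * t + 1) r - m (2 * t) r‖ ≤
              ∑ t ∈ range (2 ^ i),
                (‖m (2 * t + 1) r - m (2 * t) r‖ + ‖m (2 * t + 2) r - m (2 * t + 1) r‖) :=
            Finset.sum_le_sum fun t _ => le_add_of_nonneg_right (norm_nonneg _)
          linarith [hm0 r]
        have h8 : 0 ≤ ∑ t ∈ range (2 ^ i), ‖m (2 * t + 1) r - m (2 * t) r‖ :=
          Finset.sum_nonneg fun t _ => norm_nonneg _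
        refine le_trans ?_ (pow_le_pow_left₀ h8 h6 2)
        exact Finset.sum_sq_le_sq_sum_of_nonneg fun t _ => norm_nonneg _
      have h9 := l2_mx_sq (range (2 ^ i)) (fun t => Tm (fun r => m (2 * t + 1) r - m (2 * t) r) f)
        (V ^ 2 * n2 f) (n2_Tm_sum_le (range (2 ^ i)) (fun t r => m (2 * t + 1) r - m (2 * t) r) (V ^ 2) h5 f)
      rwa [Real.sqrt_mul (sq_nonneg V), Real.sqrt_sq hV0] at h9
    have h10 : l2 (mx (range (2 ^ (i + 1))) (fun j => Tm (m j) f)) ≤
        l2 (fun x => mx (range (2 ^ i)) (fun j => Tm (m (2 * j)) f) x +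
          mx (range (2 ^ i)) (fun t => Tm (fun r => m (2 * t + 1) r - m (2 * t) r) f) x) := by
      refine l2_mono _ _ (fun x => mx_nonneg _ _ _) fun x => ?_
      refine mx_le _ _ _ _ (add_nonneg (mx_nonneg _ _ _) (mx_nonneg _ _ _)) fun k hk => ?_
      have hk' : k < 2 ^ (i + 1) := Finset.mem_range.1 hk
      have ht : k / 2 < 2 ^ i := by
        rw [pow_succ] at hk'
        omega
      have h11 := le_mx (range (2 ^ i)) (fun j => Tm (m (2 * j)) f) x (k / 2) (Finset.mem_range.2 ht)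
      have h12 := le_mx (range (2 ^ i)) (fun t => Tm (fun r => m (2 * t + 1) r - m (2 * t) r) f) x (k / 2)
        (Finset.mem_range.2 ht)
      rcases Nat.mod_two_eq_zero_or_one k with hk2 | hk2
      · have h13 : 2 * (k / 2) = k := by omega
        simp only [h13] at h11
        have h14 := mx_nonneg (range (2 ^ i)) (fun t => Tm (fun r => m (2 * t + 1) r - m (2 * t) r) f) x
        linarith
      · have h13 : 2 * (k / 2) + 1 = k := by omega
        rw [Tm_sub] at h12
        simp only [h13] at h12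
        have h14 : ‖Tm (m k) f x‖ ≤ ‖Tm (m (2 * (k / 2))) f x‖ +
            ‖Tm (m k) f x - Tm (m (2 * (k / 2))) f x‖ := by
          have h15 : Tm (m k) f x = Tm (m (2 * (k / 2))) f x + (Tm (m k) f x - Tm (m (2 * (k / 2))) f x) := by
            ring
          calc ‖Tm (m k) f x‖ = ‖Tm (m (2 * (k / 2))) f x +
                (Tm (m k) f x - Tm (m (2 * (k / 2))) f x)‖ := by rw [← h15]
            _ ≤ _ := norm_add_le _ _
        refine h14.trans (add_le_add h11 h12)
    refine h10.trans ((l2_add_le _ _).trans ((add_le_add h3 h4).trans (le_of_eq ?_)))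
    push_cast
    ring
/- END RM -/

/- MODULE HL1 -/
private theorem HL1_layer {X : Type*} [Fintype X] : ∀ (n : ℕ) (F f : X → ℝ), (∀ x, 0 ≤ F x) →
    ((Finset.univ.filter fun x => 0 < F x).card ≤ n) →
    (∀ t : ℝ, 0 < t → t * ((Finset.univ.filter fun x => t ≤ F x).card : ℝ)
      ≤ ∑ x ∈ Finset.univ.filter (fun x => t ≤ F x), f x) →
    ∑ x, F x ^ 2 ≤ 2 * ∑ x, f x * F x := by
  classical
  intro n
  induction n with
  | zero =>
    intro F f hF hn _
    have h0 : ∀ x, F x = 0 := by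
      intro x
      by_contra hne
      have hx : x ∈ Finset.univ.filter fun x => 0 < F x := by
        simp [lt_of_le_of_ne (hF x) (Ne.symm hne)]
      have := Finset.card_pos.mpr ⟨x, hx⟩
      omega
    simp [h0]
  | succ n ih =>
    intro F f hF hn ht
    set S := Finset.univ.filter fun x => 0 < F x with hS
    rcases S.eq_empty_or_nonempty with hSe | hSn
    · refine ih F f hF ?_ ht
      rw [← hS, hSe]
      simp
    obtain ⟨x0, hx0, hmin⟩ := S.exists_min_image F hSn
    set v := F x0 with hv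
    have hv0 : 0 < v := by
      rw [hS, Finset.mem_filter] at hx0
      exact hx0.2
    -- the set where F is at least v is S
    have hSv : (Finset.univ.filter fun x => v ≤ F x) = S := by
      ext x
      simp only [hS, Finset.mem_filter, Finset.mem_univ, true_and]
      constructor
      · intro h
        linarith
      · intro h
        exact hmin x (by simp [hS, h])
    have key := ih (fun x => max (F x - v) 0) (fun x => f x - v) (fun x => le_max_right _ _) ?_ ?_
    · -- conclusion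
      have e1 : ∑ x, (max (F x - v) 0) ^ 2 = ∑ x ∈ S, (F x - v) ^ 2 := by
        rw [← Finset.sum_subset (Finset.subset_univ S)]
        · refine Finset.sum_congr rfl fun x hx => ?_
          rw [max_eq_left]
          linarith [hmin x hx]
        · intro x _ hx
          have : F x ≤ 0 := by
            by_contra hcon
            push Not at hcon
            exact hx (by simp [hS, hcon])
          rw [max_eq_right (by linarith)]
          norm_num
      have e2 : ∑ x, (f x - v) * max (F x - v) 0 = ∑ x ∈ S, (f x - v) * (F x - v) := by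
        rw [← Finset.sum_subset (Finset.subset_univ S)]
        · refine Finset.sum_congr rfl fun x hx => ?_
          rw [max_eq_left]
          linarith [hmin x hx]
        · intro x _ hx
          have : F x ≤ 0 := by
            by_contra hcon
            push Not at hcon
            exact hx (by simp [hS, hcon])
          rw [max_eq_right (by linarith)]
          ring
      have e3 : ∑ x, F x ^ 2 = ∑ x ∈ S, F x ^ 2 := by
        rw [← Finset.sum_subset (Finset.subset_univ S)]
        intro x _ hx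
        have : F x = 0 := by
          by_contra hcon
          exact hx (by simp [hS, lt_of_le_of_ne (hF x) (Ne.symm hcon)])
        rw [this]
        norm_num
      have e4 : ∑ x, f x * F x = ∑ x ∈ S, f x * F x := by
        rw [← Finset.sum_subset (Finset.subset_univ S)]
        intro x _ hx
        have : F x = 0 := by
          by_contra hcon
          exact hx (by simp [hS, lt_of_le_of_ne (hF x) (Ne.symm hcon)])
        rw [this]
        norm_num
      rw [e1, e2] at key
      rw [e3, e4]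
      have h5 := ht v hv0
      rw [hSv] at h5
      have e6 : ∑ x ∈ S, (F x - v) ^ 2 = ∑ x ∈ S, F x ^ 2 - 2 * v * ∑ x ∈ S, F x + v ^ 2 * S.card := by
        rw [Finset.mul_sum, ← Finset.sum_sub_distrib, mul_comm (v ^ 2), ← nsmul_eq_mul,
          ← Finset.sum_const, ← Finset.sum_add_distrib]
        refine Finset.sum_congr rfl fun x _ => ?_
        ring
      have e7 : ∑ x ∈ S, (f x - v) * (F x - v)
          = ∑ x ∈ S, f x * F x - v * ∑ x ∈ S, f x - v * ∑ x ∈ S, F x + v ^ 2 * S.card := by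
        rw [Finset.mul_sum, Finset.mul_sum, ← Finset.sum_sub_distrib, ← Finset.sum_sub_distrib,
          mul_comm (v ^ 2), ← nsmul_eq_mul, ← Finset.sum_const, ← Finset.sum_add_distrib]
        refine Finset.sum_congr rfl fun x _ => ?_
        ring
      rw [e6, e7] at key
      have h8 := mul_le_mul_of_nonneg_left h5 hv0.le
      have h9 : 0 ≤ v ^ 2 * (S.card : ℝ) := by positivity
      nlinarith
    · -- the number of positive values drops
      have hsub : (Finset.univ.filter fun x => 0 < max (F x - v) 0) ⊆ S.erase x0 := by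
        intro x hx
        simp only [Finset.mem_filter, Finset.mem_univ, true_and, lt_max_iff, lt_irrefl,
          or_false] at hx
        rw [Finset.mem_erase]
        refine ⟨?_, by simp [hS]; linarith⟩
        rintro rfl
        linarith
      have := Finset.card_le_card hsub
      rw [Finset.card_erase_of_mem hx0] at this
      omega
    · -- the level sets
      intro t ht0
      have e1 : (Finset.univ.filter fun x => t ≤ max (F x - v) 0)
          = Finset.univ.filter fun x => t + v ≤ F x := by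
        ext x
        simp only [Finset.mem_filter, Finset.mem_univ, true_and, le_max_iff]
        constructor
        · rintro (h | h) <;> linarith
        · intro h
          left
          linarith
      rw [e1, Finset.sum_sub_distrib, Finset.sum_const, nsmul_eq_mul]
      have := ht (t + v) (by linarith)
      linarith

/-- Maximal ergodic inequality on a finite set with a permutation T (Hopf, Garsia, Doob). For t ≥ 0
let g = f - t, M_K = max over 0 ≤ m ≤ K of sum over j < m of g(T^j x) (so M_K ≥ 0); on {M_K > 0}: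
M_K(x) ≤ g(x) + M_K(T x); summing, sum over {M_K > 0} of g ≥ 0; and {M_K > 0} = {f* > t}. So
t #{f* > t} ≤ sum over {f* > t} of f, and sum of (f*)^2 = integral over t of 2 t #{f* > t} dt ≤
2 sum of f f* ≤ 2 (sum f^2)^(1/2) (sum (f*)^2)^(1/2). (Discrete version of the integral: order the
finitely many values of f*, or integrate over [0, max f*] with Finset.sum of interval integrals.) -/
theorem hopf {X : Type*} [Fintype X] (T : Equiv.Perm X) (f : X → ℝ) (hf : ∀ x, 0 ≤ f x) (K : ℕ)
    (F : X → ℝ) (hF0 : ∀ x, 0 ≤ F x)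
    (hF : ∀ x, (∀ m ∈ Icc 1 K, (∑ j ∈ range m, f ((T ^ j) x)) / m ≤ F x) ∧
      (F x = 0 ∨ ∃ m ∈ Icc 1 K, F x = (∑ j ∈ range m, f ((T ^ j) x)) / m)) :
    l2 F ≤ 2 * l2 f := by
  classical
  -- the maximal inequality
  have hmax : ∀ t : ℝ, 0 < t → t * ((Finset.univ.filter fun x => t ≤ F x).card : ℝ)
      ≤ ∑ x ∈ Finset.univ.filter (fun x => t ≤ F x), f x := by
    intro t ht
    set E := Finset.univ.filter fun x => t ≤ F x with hE
    let Sm : ℕ → X → ℝ := fun m x => ∑ j ∈ range m, (f ((T ^ j) x) - t)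
    have hSm : ∀ m x, Sm m x = (∑ j ∈ range m, f ((T ^ j) x)) - m * t := by
      intro m x
      simp [Sm, Finset.sum_sub_distrib]
    let Mx : X → ℝ := fun x => (range (K + 1)).sup' ⟨0, by simp⟩ (fun m => Sm m x)
    have hMx : ∀ x, ∀ m ≤ K, Sm m x ≤ Mx x := by
      intro x m hm
      exact Finset.le_sup' (fun m => Sm m x) (by simp; omega)
    have hMx0 : ∀ x, 0 ≤ Mx x := by
      intro x
      have := hMx x 0 (Nat.zero_le _)
      simpa [Sm] using this
    have hstep : ∀ m x, Sm (m + 1) x = (f x - t) + Sm m (T x) := by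
      intro m x
      simp only [Sm]
      rw [Finset.sum_range_succ']
      rw [add_comm]
      rfl
    have hin : ∀ x ∈ E, Mx x ≤ (f x - t) + Mx (T x) := by
      intro x hx
      rw [hE, Finset.mem_filter] at hx
      have hge : ∃ m, 1 ≤ m ∧ m ≤ K ∧ 0 ≤ Sm m x := by
        rcases (hF x).2 with h0 | ⟨m, hm, hmF⟩
        · linarith [hx.2]
        · rw [Finset.mem_Icc] at hm
          refine ⟨m, hm.1, hm.2, ?_⟩
          rw [hSm]
          have hm0 : (0 : ℝ) < m := by exact_mod_cast hm.1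
          have : t * m ≤ ∑ j ∈ range m, f ((T ^ j) x) := by
            rw [← le_div_iff₀ hm0, ← hmF]
            exact hx.2
          linarith
      have hpos : ∀ m, 1 ≤ m → m ≤ K → Sm m x ≤ (f x - t) + Mx (T x) := by
        intro m hm1 hmK
        obtain ⟨m', rfl⟩ : ∃ m', m = m' + 1 := ⟨m - 1, by omega⟩
        rw [hstep]
        have := hMx (T x) m' (by omega)
        linarith
      refine Finset.sup'_le _ _ fun m hm => ?_
      rw [Finset.mem_range] at hm
      rcases Nat.eq_zero_or_pos m with rfl | hm1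
      · obtain ⟨m', h1, h2, h3⟩ := hge
        have := hpos m' h1 h2
        have h4 : Sm 0 x = 0 := by simp [Sm]
        rw [h4]
        linarith
      · exact hpos m hm1 (by omega)
    have hout : ∀ x, x ∉ E → Mx x ≤ 0 := by
      intro x hx
      have hlt : F x < t := by
        by_contra hcon
        push Not at hcon
        exact hx (by simp [hE, hcon])
      refine Finset.sup'_le _ _ fun m hm => ?_
      rw [Finset.mem_range] at hm
      rcases Nat.eq_zero_or_pos m with rfl | hm1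
      · simp [Sm]
      · rw [hSm]
        have h1 := (hF x).1 m (by simp; omega)
        have hm0 : (0 : ℝ) < m := by exact_mod_cast hm1
        rw [div_le_iff₀ hm0] at h1
        nlinarith
    have hsum : ∑ x, Mx x ≤ ∑ x ∈ E, (f x - t) + ∑ x, Mx (T x) := by
      have h1 : ∑ x, Mx x ≤ ∑ x ∈ E, Mx x := by
        rw [← Finset.sum_add_sum_compl E]
        have : ∑ x ∈ Eᶜ, Mx x ≤ 0 :=
          Finset.sum_nonpos fun x hx => hout x (by simpa using hx)
        linarith
      have h2 : ∑ x ∈ E, Mx x ≤ ∑ x ∈ E, ((f x - t) + Mx (T x)) := Finset.sum_le_sum hin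
      have h3 : ∑ x ∈ E, Mx (T x) ≤ ∑ x, Mx (T x) :=
        Finset.sum_le_sum_of_subset_of_nonneg (Finset.subset_univ _) fun x _ _ => hMx0 _
      rw [Finset.sum_add_distrib] at h2
      linarith
    have hperm : ∑ x, Mx (T x) = ∑ x, Mx x := Equiv.sum_comp T Mx
    rw [hperm, Finset.sum_sub_distrib, Finset.sum_const, nsmul_eq_mul] at hsum
    linarith
  have h1 := HL1_layer _ F f hF0 le_rfl hmax
  have h2 := Finset.sum_mul_sq_le_sq_mul_sq (Finset.univ : Finset X) f F
  unfold l2
  have hA : 0 ≤ ∑ x, F x ^ 2 := Finset.sum_nonneg fun x _ => sq_nonneg _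
  have hB : 0 ≤ ∑ x, f x ^ 2 := Finset.sum_nonneg fun x _ => sq_nonneg _
  have h3 : ∑ x, F x ^ 2 ≤ 2 ^ 2 * ∑ x, f x ^ 2 := by
    rcases hA.eq_or_lt with h0 | hpos
    · rw [← h0]
      positivity
    · have h4 : (∑ x, F x ^ 2) * (∑ x, F x ^ 2) ≤ (2 ^ 2 * ∑ x, f x ^ 2) * ∑ x, F x ^ 2 := by
        have h5 : (∑ x, F x ^ 2) ^ 2 ≤ (2 * ∑ x, f x * F x) ^ 2 := pow_le_pow_left₀ hA h1 2
        nlinarith
      exact le_of_mul_le_mul_right h4 hpos
  calc Real.sqrt (∑ x, F x ^ 2) ≤ Real.sqrt (2 ^ 2 * ∑ x, f x ^ 2) := Real.sqrt_le_sqrt h3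
    _ = 2 * Real.sqrt (∑ x, f x ^ 2) := by
        rw [Real.sqrt_mul (by norm_num), Real.sqrt_sq (by norm_num)]
/- END HL1 -/

/- MODULE HL2 -/
/-- One direction: sup over L in a finite set S of lengths ≥ 1 of the averages over L steps w. -/
theorem hl_dir (w : Fin d → ZMod R) (S : Finset ℕ) (hS : ∀ L ∈ S, 1 ≤ L)
    (g : (Fin d → ZMod R) → ℝ) (hg : ∀ x, 0 ≤ g x) :
    ∃ G : (Fin d → ZMod R) → ℝ, (∀ x, 0 ≤ G x) ∧ l2 G ≤ 2 * l2 g ∧
      ∀ x, ∀ L ∈ S, (∑ j ∈ range L, g (fun l => x l + (j : ZMod R) * w l)) / L ≤ G x := by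
  classical
  have hT : ∀ (j : ℕ) (x : Fin d → ZMod R), ((Equiv.addRight w) ^ j) x = fun l => x l + (j : ZMod R) * w l := by
    intro j
    induction j with
    | zero =>
      intro x
      funext l
      simp
    | succ j ih =>
      intro x
      rw [pow_succ, Equiv.Perm.mul_apply, ih]
      funext l
      simp only [Equiv.coe_addRight, Pi.add_apply]
      push_cast
      ring
  let A : (Fin d → ZMod R) → ℕ → ℝ := fun x m =>
    (∑ j ∈ range m, g (((Equiv.addRight w) ^ j) x)) / m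
  let K : ℕ := S.sup id
  let F : (Fin d → ZMod R) → ℝ := fun x =>
    if h : (Icc 1 K).Nonempty then (Icc 1 K).sup' h (A x) else 0
  have hA0 : ∀ x m, 0 ≤ A x m := fun x m =>
    div_nonneg (Finset.sum_nonneg fun j _ => hg _) (Nat.cast_nonneg m)
  have hF0 : ∀ x, 0 ≤ F x := by
    intro x
    show 0 ≤ if h : (Icc 1 K).Nonempty then (Icc 1 K).sup' h (A x) else 0
    split_ifs with h
    · obtain ⟨m, hm⟩ := h
      exact (hA0 x m).trans (Finset.le_sup' (A x) hm)
    · exact le_rfl
  have hF1 : ∀ x, ∀ m ∈ Icc 1 K, A x m ≤ F x := by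
    intro x m hm
    show A x m ≤ if h : (Icc 1 K).Nonempty then (Icc 1 K).sup' h (A x) else 0
    rw [dif_pos ⟨m, hm⟩]
    exact Finset.le_sup' (A x) hm
  have hF2 : ∀ x, F x = 0 ∨ ∃ m ∈ Icc 1 K, F x = A x m := by
    intro x
    by_cases h : (Icc 1 K).Nonempty
    · right
      obtain ⟨m, hm, he⟩ := Finset.exists_mem_eq_sup' h (A x)
      exact ⟨m, hm, by
        show (if h : (Icc 1 K).Nonempty then (Icc 1 K).sup' h (A x) else 0) = A x m
        rw [dif_pos h, he]⟩
    · left
      show (if h : (Icc 1 K).Nonempty then (Icc 1 K).sup' h (A x) else 0) = 0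
      rw [dif_neg h]
  refine ⟨F, hF0, hopf (Equiv.addRight w) g hg K F hF0 fun x => ⟨hF1 x, hF2 x⟩, fun x L hL => ?_⟩
  have h1 : L ∈ Icc 1 K := Finset.mem_Icc.2 ⟨hS L hL, Finset.le_sup (f := id) hL⟩
  refine le_trans (le_of_eq ?_) (hF1 x L h1)
  show _ = (∑ j ∈ range L, g (((Equiv.addRight w) ^ j) x)) / L
  congr 1
  exact Finset.sum_congr rfl fun j _ => by rw [hT]

open Classical in
private noncomputable def HL2_t (u Q k : ℕ) (A : Finset (Fin d)) (l : Fin d) : Finset ℕ :=
  if l ∈ A then range (Nk u k ^ ((l : ℕ) + 1) / Q + 1) else {0}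

open Classical in
private theorem HL2_split (u Q k : ℕ) (A : Finset (Fin d)) (a : Fin d) (ha : a ∉ A)
    (h : (Fin d → ℕ) → ℝ) :
    ∑ j ∈ Fintype.piFinset (HL2_t u Q k (insert a A)), h j =
      ∑ m ∈ range (Nk u k ^ ((a : ℕ) + 1) / Q + 1),
        ∑ j ∈ Fintype.piFinset (HL2_t u Q k A), h (Function.update j a m) := by
  rw [← Finset.sum_product']
  refine Finset.sum_nbij' (fun j => (j a, Function.update j a 0)) (fun p => Function.update p.2 a p.1)
    ?_ ?_ ?_ ?_ ?_
  · intro j hj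
    rw [Fintype.mem_piFinset] at hj
    rw [Finset.mem_product, Fintype.mem_piFinset]
    constructor
    · have h1 := hj a
      unfold HL2_t at h1
      rwa [if_pos (Finset.mem_insert_self a A)] at h1
    · intro l
      by_cases hl : l = a
      · subst hl
        unfold HL2_t
        rw [if_neg ha]
        simp
      · have h1 := hj l
        show Function.update j a 0 l ∈ _
        rw [Function.update_of_ne hl]
        unfold HL2_t at h1 ⊢
        by_cases h2 : l ∈ A
        · rw [if_pos (Finset.mem_insert_of_mem h2)] at h1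
          rwa [if_pos h2]
        · rw [if_neg (by rw [Finset.mem_insert]; exact fun h3 => h3.elim hl h2)] at h1
          rwa [if_neg h2]
  · intro p hp
    rw [Finset.mem_product, Fintype.mem_piFinset] at hp
    rw [Fintype.mem_piFinset]
    intro l
    by_cases hl : l = a
    · subst hl
      show Function.update p.2 l p.1 l ∈ _
      rw [Function.update_self]
      unfold HL2_t
      rw [if_pos (Finset.mem_insert_self l A)]
      exact hp.1
    · show Function.update p.2 a p.1 l ∈ _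
      rw [Function.update_of_ne hl]
      have h1 := hp.2 l
      unfold HL2_t at h1 ⊢
      by_cases h2 : l ∈ A
      · rw [if_pos h2] at h1
        rwa [if_pos (Finset.mem_insert_of_mem h2)]
      · rw [if_neg h2] at h1
        rwa [if_neg (by rw [Finset.mem_insert]; exact fun h3 => h3.elim hl h2)]
  · intro j _
    show Function.update (Function.update j a 0) a (j a) = j
    rw [Function.update_idem, Function.update_eq_self]
  · intro p hp
    rw [Finset.mem_product, Fintype.mem_piFinset] at hp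
    have h1 := hp.2 a
    unfold HL2_t at h1
    rw [if_neg ha, Finset.mem_singleton] at h1
    refine Prod.ext ?_ ?_
    · show Function.update p.2 a p.1 a = p.1
      rw [Function.update_self]
    · show Function.update (Function.update p.2 a p.1) a 0 = p.2
      rw [Function.update_idem, ← h1, Function.update_eq_self]
  · intro j _
    show h j = h (Function.update (Function.update j a 0) a (j a))
    rw [Function.update_idem, Function.update_eq_self]

open Classical in
private theorem HL2_ind (u Q : ℕ) (s : Finset ℕ) (f : (Fin d → ZMod R) → ℂ) (A : Finset (Fin d)) :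
    ∃ G : (Fin d → ZMod R) → ℝ, (∀ x, 0 ≤ G x) ∧ l2 G ≤ 2 ^ A.card * Real.sqrt (n2 f) ∧
      ∀ x, ∀ k ∈ s, ∑ j ∈ Fintype.piFinset (HL2_t u Q k A),
        ‖f (fun l => x l + ((Q * j l : ℕ) : ZMod R))‖ ≤
          (∏ l ∈ A, ((Nk u k ^ ((l : ℕ) + 1) / Q + 1 : ℕ) : ℝ)) * G x := by
  induction A using Finset.induction_on with
  | empty =>
    refine ⟨fun x => ‖f x‖, fun x => norm_nonneg _, ?_, fun x k _ => ?_⟩
    · rw [l2_norm]
      simp
    · have h1 : Fintype.piFinset (HL2_t u Q k (∅ : Finset (Fin d))) = {fun _ => 0} := by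
        ext j
        rw [Fintype.mem_piFinset, Finset.mem_singleton]
        constructor
        · intro h
          funext l
          have h2 := h l
          unfold HL2_t at h2
          rw [if_neg (Finset.notMem_empty l), Finset.mem_singleton] at h2
          exact h2
        · intro h l
          rw [h]
          unfold HL2_t
          rw [if_neg (Finset.notMem_empty l)]
          exact Finset.mem_singleton_self 0
      rw [h1, Finset.sum_singleton, Finset.prod_empty, one_mul]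
      refine le_of_eq ?_
      congr 2
      funext l
      simp
  | insert a A ha ih =>
    obtain ⟨G, hG0, hG1, hG2⟩ := ih
    obtain ⟨G', hG'0, hG'1, hG'2⟩ := hl_dir (fun l => if l = a then (Q : ZMod R) else 0)
      (s.image fun k => Nk u k ^ ((a : ℕ) + 1) / Q + 1)
      (fun L hL => by
        obtain ⟨k, _, rfl⟩ := Finset.mem_image.1 hL
        exact Nat.succ_pos _) G hG0
    refine ⟨G', hG'0, ?_, fun x k hk => ?_⟩
    · refine hG'1.trans ?_
      rw [Finset.card_insert_of_notMem ha, pow_succ]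
      linarith
    · rw [HL2_split u Q k A a ha, Finset.prod_insert ha]
      have hP : (0 : ℝ) ≤ ∏ l ∈ A, ((Nk u k ^ ((l : ℕ) + 1) / Q + 1 : ℕ) : ℝ) :=
        Finset.prod_nonneg fun l _ => Nat.cast_nonneg _
      have h1 : ∀ m ∈ range (Nk u k ^ ((a : ℕ) + 1) / Q + 1),
          ∑ j ∈ Fintype.piFinset (HL2_t u Q k A),
            ‖f (fun l => x l + ((Q * (Function.update j a m) l : ℕ) : ZMod R))‖ ≤
          (∏ l ∈ A, ((Nk u k ^ ((l : ℕ) + 1) / Q + 1 : ℕ) : ℝ)) *
            G (fun l => x l + (m : ZMod R) * (if l = a then (Q : ZMod R) else 0)) := by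
        intro m _
        refine le_trans (le_of_eq ?_)
          (hG2 (fun l => x l + (m : ZMod R) * (if l = a then (Q : ZMod R) else 0)) k hk)
        refine Finset.sum_congr rfl fun j hj => ?_
        congr 2
        funext l
        have h2 : j a = 0 := by
          have h3 := (Fintype.mem_piFinset.1 hj) a
          unfold HL2_t at h3
          rwa [if_neg ha, Finset.mem_singleton] at h3
        by_cases hl : l = a
        · subst hl
          rw [Function.update_self, if_pos rfl, h2]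
          push_cast
          ring
        · rw [Function.update_of_ne hl, if_neg hl]
          ring
      refine (Finset.sum_le_sum h1).trans ?_
      rw [← Finset.mul_sum]
      have h4 := hG'2 x (Nk u k ^ ((a : ℕ) + 1) / Q + 1) (Finset.mem_image_of_mem _ hk)
      have h5 : (0 : ℝ) < ((Nk u k ^ ((a : ℕ) + 1) / Q + 1 : ℕ) : ℝ) := by positivity
      rw [div_le_iff₀ h5] at h4
      calc _ ≤ (∏ l ∈ A, ((Nk u k ^ ((l : ℕ) + 1) / Q + 1 : ℕ) : ℝ)) *
            (G' x * ((Nk u k ^ ((a : ℕ) + 1) / Q + 1 : ℕ) : ℝ)) :=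
            mul_le_mul_of_nonneg_left h4 hP
        _ = _ := by ring

/-- Box averages: apply hl_dir for the directions Q e_0, Q e_1, .. one after the other (the
average over the box is the iterated average; start with |f| and average the last coordinate
first). Induction over the number of treated coordinates. -/
theorem hl_box (u Q : ℕ) (s : Finset ℕ) (f : (Fin d → ZMod R) → ℂ) :
    l2 (mx s (fun k => Bg (Nk u k) Q f)) ≤ 2 ^ d * Real.sqrt (n2 f) := by
  classical
  obtain ⟨G, hG0, hG1, hG2⟩ := HL2_ind u Q s f Finset.univ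
  rw [Finset.card_univ, Fintype.card_fin] at hG1
  refine (l2_mono _ G (fun x => mx_nonneg _ _ _) fun x => ?_).trans hG1
  refine mx_le _ _ _ _ (hG0 x) fun k hk => ?_
  have h1 := hG2 x k hk
  have h2 : (0 : ℝ) < ∏ l : Fin d, ((Nk u k ^ ((l : ℕ) + 1) / Q + 1 : ℕ) : ℝ) :=
    Finset.prod_pos fun l _ => by positivity
  unfold Bg
  rw [norm_div]
  have h3 : ‖∏ l : Fin d, ((Nk u k ^ ((l : ℕ) + 1) / Q + 1 : ℕ) : ℂ)‖ =
      ∏ l : Fin d, ((Nk u k ^ ((l : ℕ) + 1) / Q + 1 : ℕ) : ℝ) := by
    rw [norm_prod]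
    exact Finset.prod_congr rfl fun l _ => Complex.norm_natCast _
  rw [h3, div_le_iff₀ h2, mul_comm]
  refine (norm_sum_le _ _).trans (le_trans (le_of_eq ?_) h1)
  have h4 : (fun l : Fin d => range (Nk u k ^ ((l : ℕ) + 1) / Q + 1)) =
      HL2_t u Q k Finset.univ := by
    funext l
    unfold HL2_t
    rw [if_pos (Finset.mem_univ l)]
  rw [h4]
/- END HL2 -/

end Pool.Agent.GsF
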