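import Pool.Agent.GsF.Ta

/-!
Factors, Furstenberg systems and the final theorem.
-/

namespace Pool.Agent.GsF

open Finset MeasureTheory Filter Topology ProbabilityTheory Polynomial

/- MODULE WA1 -/
private theorem WA1_nat {Y Z : Type*} [MeasurableSpace Y] [MeasurableSpace Z] {ν : Measure Y} {S : Y ≃ᵐ Y}
    {ζ : Measure Z} {Q : Z ≃ᵐ Z} {f : Y → Z} (hS : MeasurePreserving S ν ν) (h : Fac ν S ζ Q f)
    (n : ℕ) : ∀ᵐ y ∂ν, f (pw S (n : ℤ) y) = pw Q (n : ℤ) (f y) := by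
  induction n with
  | zero =>
    refine Filter.Eventually.of_forall (fun y => ?_)
    rw [Nat.cast_zero, pw_zero, pw_zero]
  | succ n ih =>
    have h1 : ∀ᵐ y ∂ν, f (S (pw S (n : ℤ) y)) = Q (f (pw S (n : ℤ) y)) :=
      (pw_mp ν S hS (n : ℤ)).quasiMeasurePreserving.ae h.eq
    filter_upwards [ih, h1] with y h2 h3
    rw [Nat.cast_succ, add_comm, pw_add, pw_add, pw_one, pw_one, h3, h2]

/-- powers of a factor map -/
theorem fac_pw {Y Z : Type*} [MeasurableSpace Y] [MeasurableSpace Z] {ν : Measure Y} {S : Y ≃ᵐ Y}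
    {ζ : Measure Z} {Q : Z ≃ᵐ Z} {f : Y → Z} (hS : MeasurePreserving S ν ν) (h : Fac ν S ζ Q f)
    (n : ℤ) : ∀ᵐ y ∂ν, f (pw S n y) = pw Q n (f y) := by
  rcases Int.le_total 0 n with hn | hn
  · obtain ⟨m, rfl⟩ := Int.eq_ofNat_of_zero_le hn
    exact WA1_nat hS h m
  · obtain ⟨m, hm⟩ := Int.eq_ofNat_of_zero_le (Int.neg_nonneg_of_nonpos hn)
    have hnm : n = -(m : ℤ) := by omega
    subst hnm
    have h1 : ∀ᵐ y ∂ν, f (pw S (m : ℤ) (pw S (-(m : ℤ)) y)) =
        pw Q (m : ℤ) (f (pw S (-(m : ℤ)) y)) :=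
      (pw_mp ν S hS (-(m : ℤ))).quasiMeasurePreserving.ae (WA1_nat hS h m)
    filter_upwards [h1] with y h2
    rw [← pw_add, add_neg_cancel, pw_zero] at h2
    rw [h2, ← pw_add, neg_add_cancel, pw_zero]
/- END WA1 -/

/- MODULE WA2 -/
private theorem WA2_simple {Y Z : Type*} [MeasurableSpace Y] [MeasurableSpace Z] {ν : Measure Y}
    (ρ : Y → Z) (f : Y → ℂ)
    (ht : ∀ s : Set ℂ, MeasurableSet s → ∃ E : Set Z, MeasurableSet E ∧ f ⁻¹' s =ᵐ[ν] ρ ⁻¹' E)
    (u : SimpleFunc ℂ ℂ) : ∃ g : Z → ℂ, Measurable g ∧ ∀ᵐ y ∂ν, u (f y) = g (ρ y) := by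
  classical
  induction u using SimpleFunc.induction with
  | @const c s hs =>
    obtain ⟨E, hE, hDE⟩ := ht s hs
    refine ⟨E.indicator (fun _ => c), measurable_const.indicator hE, ?_⟩
    filter_upwards [hDE] with y hy
    have hy' : (f y ∈ s) = (ρ y ∈ E) := hy
    have hy2 : f y ∈ s ↔ ρ y ∈ E := by rw [hy']
    by_cases h1 : f y ∈ s
    · simp [h1, hy2.1 h1]
    · have h3 : ρ y ∉ E := fun h2 => h1 (hy2.2 h2)
      simp [h1, h3]
  | @add u v hd hu hv =>
    obtain ⟨g1, hg1, h1⟩ := hu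
    obtain ⟨g2, hg2, h2⟩ := hv
    refine ⟨g1 + g2, hg1.add hg2, ?_⟩
    filter_upwards [h1, h2] with y h3 h4
    rw [SimpleFunc.coe_add, Pi.add_apply, Pi.add_apply, h3, h4]

/-- Tail functions come from the factor. Real and imaginary part separately; for rational q the set
{f > q} is a tail set (f is a.e. equal to an Al n measurable function), hence a.e. equal to the
preimage under rho of a measurable set E_q; f is a.e. equal to sup {q | rho y in E_q}, which is h o rho. -/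
theorem tail_factor {Y Z : Type*} {A : MeasurableSpace Y} [mY : MeasurableSpace Y]
    [MeasurableSpace Z] {ν : Measure Y} [IsProbabilityMeasure ν] {S : Y ≃ᵐ Y} (h : Exh A ν S)
    (ρ : Y → Z) (hρ : Measurable ρ)
    (ht : ∀ D : Set Y, MeasurableSet D →
      (∀ n : ℤ, ∃ D' : Set Y, MeasurableSet[Al A S n] D' ∧ D =ᵐ[ν] D') →
      ∃ E : Set Z, MeasurableSet E ∧ D =ᵐ[ν] ρ ⁻¹' E)
    (f : Y → ℂ) (hf : Measurable f) (B : ℝ) (hB : ∀ y, ‖f y‖ ≤ B) (hft : TailF A ν S f) :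
    ∃ g : Z → ℂ, Measurable g ∧ (∀ z, ‖g z‖ ≤ B) ∧ f =ᵐ[ν] fun y => g (ρ y) := by
  classical
  have hne : Nonempty Y := by
    by_contra hne
    rw [not_nonempty_iff] at hne
    have h1 : ν Set.univ = 1 := measure_univ
    rw [Set.eq_empty_of_isEmpty (Set.univ : Set Y), measure_empty] at h1
    exact zero_ne_one h1
  have hB0 : 0 ≤ B := (norm_nonneg _).trans (hB hne.some)
  have ht' : ∀ s : Set ℂ, MeasurableSet s → ∃ E : Set Z, MeasurableSet E ∧ f ⁻¹' s =ᵐ[ν] ρ ⁻¹' E := by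
    intro s hs
    refine ht _ (hf hs) (fun n => ?_)
    obtain ⟨f', hf', hff⟩ := hft n
    refine ⟨f' ⁻¹' s, hf'.measurable hs, ?_⟩
    filter_upwards [hff] with y hy
    show (f y ∈ s) = (f' y ∈ s)
    rw [hy]
  have hid : StronglyMeasurable (fun z : ℂ => z) := measurable_id.stronglyMeasurable
  choose g hg hgu using fun n => WA2_simple ρ f ht' (hid.approx n)
  set G : Z → ℂ := fun z => limUnder atTop (fun n => g n z) with hG
  have hGm : Measurable G := (StronglyMeasurable.limUnder (fun n => (hg n).stronglyMeasurable)).measurable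
  have hfG : ∀ᵐ y ∂ν, G (ρ y) = f y := by
    filter_upwards [ae_all_iff.2 hgu] with y hy
    have h1 : Tendsto (fun n => g n (ρ y)) atTop (𝓝 (f y)) := by
      have h2 := hid.tendsto_approx (f y)
      refine h2.congr (fun n => hy n)
    exact h1.limUnder_eq
  refine ⟨fun z => if ‖G z‖ ≤ B then G z else 0,
    Measurable.ite (measurableSet_le hGm.norm measurable_const) hGm measurable_const, ?_, ?_⟩
  · intro z
    show ‖if ‖G z‖ ≤ B then G z else 0‖ ≤ B
    split_ifs with h1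
    · exact h1
    · simpa using hB0
  · filter_upwards [hfG] with y hy
    rw [if_pos (by rw [hy]; exact hB y), hy]
/- END WA2 -/

/- MODULE WA3 -/
/-- Transport of the convergence: W → Z ← Y. conv_gauss for f i o pi on W; fac_pw for pi; the set of
good z in Z has full zeta-measure (mp of pi), hence its preimage under rho has full measure; fac_pw
for rho. int f o pi = int f d zeta. -/
theorem base_conv {W Y Z : Type*} [MeasurableSpace W] [MeasurableSpace Y] [MeasurableSpace Z]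
    {ω : Measure W} {R : W ≃ᵐ W} {X : ℕ → W → ℝ} (h : GSys ω R X)
    {ν : Measure Y} [IsProbabilityMeasure ν] {S : Y ≃ᵐ Y} (hS : MeasurePreserving S ν ν)
    {ζ : Measure Z} {Q : Z ≃ᵐ Z} {ρ : Y → Z} (hρ : Fac ν S ζ Q ρ) {π : W → Z} (hπ : Fac ω R ζ Q π)
    (p : ℤ[X]) (hp : 2 ≤ p.natDegree) (k : ℕ) (f : Fin (k + 1) → Z → ℂ) (hf : ∀ i, Measurable (f i))
    (B : ℝ) (hB : ∀ i z, ‖f i z‖ ≤ B) :
    ∀ᵐ y ∂ν, Tendsto (fun N : ℕ => (∑ n ∈ range N,
        ∏ i, f i (ρ (pw S (p.eval ((n : ℤ) + (i : ℕ))) y))) / (N : ℂ))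
        atTop (𝓝 (∏ i, ∫ y, f i (ρ y) ∂ν)) := by
  have hπm : Measurable π := hπ.mp.measurable
  have hρm : Measurable ρ := hρ.mp.measurable
  have hQm : ∀ n : ℤ, Measurable (pw Q n) := fun n => pw_meas Q n
  have c1 := conv_gauss h p hp k (fun i w => f i (π w)) (fun i => (hf i).comp hπm) B
    (fun i w => hB i (π w))
  have i1 : ∀ i, ∫ w, f i (π w) ∂ω = ∫ z, f i z ∂ζ := by
    intro i
    rw [← hπ.mp.map_eq, integral_map hπm.aemeasurable (hf i).aestronglyMeasurable]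
  have i2 : ∀ i, ∫ y, f i (ρ y) ∂ν = ∫ z, f i z ∂ζ := by
    intro i
    rw [← hρ.mp.map_eq, integral_map hρm.aemeasurable (hf i).aestronglyMeasurable]
  have hset : MeasurableSet {z : Z | Tendsto (fun N : ℕ => (∑ n ∈ range N,
        ∏ i, f i (pw Q (p.eval ((n : ℤ) + (i : ℕ))) z)) / (N : ℂ))
        atTop (𝓝 (∏ i, ∫ z', f i z' ∂ζ))} := by
    refine measurableSet_tendsto _ (fun N => ?_)
    refine Measurable.div_const ?_ _
    refine Finset.measurable_fun_sum _ (fun n _ => ?_)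
    exact Finset.measurable_fun_prod _ (fun i _ => (hf i).comp (hQm _))
  have c2 : ∀ᵐ w ∂ω, Tendsto (fun N : ℕ => (∑ n ∈ range N,
        ∏ i, f i (pw Q (p.eval ((n : ℤ) + (i : ℕ))) (π w))) / (N : ℂ))
        atTop (𝓝 (∏ i, ∫ z', f i z' ∂ζ)) := by
    have hfac : ∀ᵐ w ∂ω, ∀ n : ℤ, π (pw R n w) = pw Q n (π w) :=
      ae_all_iff.2 (fun n => fac_pw h.erg.toMeasurePreserving hπ n)
    filter_upwards [c1, hfac] with w h1 h2
    simp only [i1] at h1
    refine h1.congr (fun N => ?_)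
    congr 1
    exact Finset.sum_congr rfl (fun n _ => Finset.prod_congr rfl (fun i _ => by rw [h2]))
  have c3 : ∀ᵐ z ∂ζ, Tendsto (fun N : ℕ => (∑ n ∈ range N,
        ∏ i, f i (pw Q (p.eval ((n : ℤ) + (i : ℕ))) z)) / (N : ℂ))
        atTop (𝓝 (∏ i, ∫ z', f i z' ∂ζ)) := by
    rw [← hπ.mp.map_eq, ae_map_iff hπm.aemeasurable (by rw [hπ.mp.map_eq]; exact hset),
      hπ.mp.map_eq]
    exact c2
  have hfac : ∀ᵐ y ∂ν, ∀ n : ℤ, ρ (pw S n y) = pw Q n (ρ y) :=
    ae_all_iff.2 (fun n => fac_pw hS hρ n)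
  have c4 := hρ.mp.quasiMeasurePreserving.ae c3
  filter_upwards [c4, hfac] with y h1 h2
  simp only [i2]
  refine h1.congr (fun N => ?_)
  congr 1
  exact Finset.sum_congr rfl (fun n _ => Finset.prod_congr rfl (fun i _ => by rw [h2]))
/- END WA3 -/

/- MODULE WA4 -/
/-- ALL CORRELATIONS for systems with Gaussian tail: tail_reduce, tail_factor, base_conv. -/
theorem corr {W Y Z : Type*} {A : MeasurableSpace Y} [MeasurableSpace W] [mY : MeasurableSpace Y]
    [MeasurableSpace Z] {ω : Measure W} {R : W ≃ᵐ W} {X : ℕ → W → ℝ} (h : GSys ω R X)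
    {ν : Measure Y} [IsProbabilityMeasure ν] {S : Y ≃ᵐ Y} (hA : Exh A ν S)
    {ζ : Measure Z} {Q : Z ≃ᵐ Z} {ρ : Y → Z} (hρ : Fac ν S ζ Q ρ) {π : W → Z} (hπ : Fac ω R ζ Q π)
    (ht : ∀ D : Set Y, MeasurableSet D →
      (∀ n : ℤ, ∃ D' : Set Y, MeasurableSet[Al A S n] D' ∧ D =ᵐ[ν] D') →
      ∃ E : Set Z, MeasurableSet E ∧ D =ᵐ[ν] ρ ⁻¹' E)
    (p : ℤ[X]) (hp : 2 ≤ p.natDegree) (k : ℕ) (f : Fin (k + 1) → Y → ℂ) (hf : ∀ i, Measurable (f i))
    (B : ℝ) (hB : ∀ i y, ‖f i y‖ ≤ B) :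
    ∀ᵐ y ∂ν, Tendsto (fun N : ℕ => (∑ n ∈ range N,
        ∏ i, f i (pw S (p.eval ((n : ℤ) + (i : ℕ))) y)) / (N : ℂ))
        atTop (𝓝 (∏ i, ∫ y, f i y ∂ν)) := by
  refine tail_reduce hA p hp k B (fun fb hfb hbB hbt => ?_) f hf hB
  choose g hg hgB hgf using fun i => tail_factor hA ρ hρ.mp.measurable ht (fb i) (hfb i) B (hbB i)
    (hbt i)
  have c1 := base_conv h hA.mp hρ hπ p hp k g hg B hgB
  have hint : ∀ i, ∫ y, g i (ρ y) ∂ν = ∫ y, fb i y ∂ν := fun i =>
    integral_congr_ae (hgf i).symm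
  have hall : ∀ᵐ y ∂ν, ∀ i : Fin (k + 1), ∀ n : ℤ, fb i (pw S n y) = g i (ρ (pw S n y)) :=
    ae_all_iff.2 (fun i => ae_all_iff.2 (fun n =>
      (pw_mp ν S hA.mp n).quasiMeasurePreserving.ae (hgf i)))
  filter_upwards [c1, hall] with y h1 h2
  simp only [hint] at h1
  refine h1.congr (fun N => ?_)
  congr 1
  exact Finset.sum_congr rfl (fun n _ => Finset.prod_congr rfl (fun i _ => by rw [h2]))
/- END WA4 -/

/- MODULE WB1 -/
private theorem WB1_int {𝕜 : Type*} [RCLike 𝕜] {X : Type*} [TopologicalSpace X] [CompactSpace X]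
    [MeasurableSpace X] [BorelSpace X] (μ : Measure X) [IsProbabilityMeasure μ] (φ : C(X, 𝕜)) :
    Integrable (fun z => φ z) μ :=
  Integrable.of_bound φ.continuous.measurable.aestronglyMeasurable ‖φ‖
    (Filter.Eventually.of_forall fun z => φ.norm_coe_le_norm z)

private theorem WB1_closed {𝕜 : Type*} [RCLike 𝕜] {X : Type*} [TopologicalSpace X] [CompactSpace X]
    [MeasurableSpace X] [BorelSpace X] (μ : Measure X) [IsProbabilityMeasure μ] (p : ℕ → X) :
    IsClosed {φ : C(X, 𝕜) | Tendsto (fun N : ℕ => (∑ n ∈ Finset.Icc 1 N, φ (p n)) / (N : 𝕜)) atTop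
      (𝓝 (∫ z, φ z ∂μ))} := by
  have hlip : ∀ N : ℕ, LipschitzWith 1
      (fun φ : C(X, 𝕜) => (∑ n ∈ Finset.Icc 1 N, φ (p n)) / (N : 𝕜)) := by
    intro N
    refine LipschitzWith.mk_one fun φ φ' => ?_
    rw [dist_eq_norm, dist_eq_norm, ← sub_div, ← Finset.sum_sub_distrib, norm_div,
      RCLike.norm_natCast]
    rcases Nat.eq_zero_or_pos N with h0 | h0
    · rw [h0]
      simp
    · have hN : (0 : ℝ) < N := by exact_mod_cast h0
      rw [div_le_iff₀ hN]
      refine (norm_sum_le _ _).trans ?_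
      have h1 : ∀ n ∈ Finset.Icc 1 N, ‖φ (p n) - φ' (p n)‖ ≤ ‖φ - φ'‖ := fun n _ =>
        (φ - φ').norm_coe_le_norm (p n)
      refine (Finset.sum_le_sum h1).trans ?_
      rw [Finset.sum_const, Nat.card_Icc, nsmul_eq_mul]
      rw [Nat.add_sub_cancel, mul_comm]
  have hF := (LipschitzWith.uniformEquicontinuous _ 1 hlip).equicontinuous
  have hf : Continuous (fun φ : C(X, 𝕜) => ∫ z, φ z ∂μ) := by
    refine (LipschitzWith.mk_one fun φ φ' => ?_ : LipschitzWith 1 _).continuous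
    rw [dist_eq_norm, dist_eq_norm, ← integral_sub (WB1_int μ φ) (WB1_int μ φ')]
    refine (norm_integral_le_of_norm_le_const (C := ‖φ - φ'‖)
      (Filter.Eventually.of_forall fun z => (φ - φ').norm_coe_le_norm z)).trans ?_
    simp
  exact Equicontinuous.isClosed_setOfPred_tendsto hF hf

private theorem WB1_reindex {M : Type*} [CommMonoid M] (K : ℕ) (f : ℤ → M) :
    ∏ j ∈ Finset.Icc (-(K : ℤ)) K, f j =
      ∏ i : Fin (2 * K + 1), f (-(K : ℤ) + ((i : ℕ) : ℤ)) := by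
  rw [← Finset.prod_range (fun i : ℕ => f (-(K : ℤ) + (i : ℤ)))]
  symm
  refine Finset.prod_bij (fun i _ => -(K : ℤ) + (i : ℤ)) ?_ ?_ ?_ ?_
  · intro i hi
    rw [Finset.mem_range] at hi
    rw [Finset.mem_Icc]
    omega
  · intro i _ j _ hij
    omega
  · intro j hj
    rw [Finset.mem_Icc] at hj
    refine ⟨(j + K).toNat, ?_, ?_⟩
    · rw [Finset.mem_range]
      omega
    · omega
  · intro i _
    rfl

private theorem WB1_integral {D : Type*} [TopologicalSpace D] [MeasurableSpace D] [BorelSpace D]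
    (m : Measure D) [IsProbabilityMeasure m] (I : Finset ℤ) (ψ : ℤ → C(D, ℝ)) :
    ∫ z : ℤ → D, ∏ j ∈ I, ψ j (z j) ∂(Measure.infinitePi (fun _ : ℤ => m)) =
      ∏ j ∈ I, ∫ z, ψ j z ∂m := by
  have h1 := Measure.infinitePi_map_restrict (fun _ : ℤ => m) (I := I)
  have h2 : ∫ w : I → D, ∏ i : I, ψ i (w i) ∂(Measure.pi (fun _ : I => m)) =
      ∏ i : I, ∫ z, ψ i z ∂m :=
    integral_fintype_prod_eq_prod (μ := fun _ : I => m) (fun (i : I) (z : D) => ψ i z)
  rw [Finset.prod_coe_sort I (fun j => ∫ z, ψ j z ∂m)] at h2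
  rw [← h2, ← h1, integral_map]
  · refine integral_congr_ae (Filter.Eventually.of_forall fun z => ?_)
    exact (Finset.prod_coe_sort I (fun j => ψ j (z j))).symm
  · exact (Finset.measurable_restrict I).aemeasurable
  · refine Measurable.aestronglyMeasurable ?_
    exact Finset.measurable_prod _ fun i _ =>
      (ψ i).continuous.measurable.comp (measurable_pi_apply i)

private theorem WB1_form {D : Type*} [TopologicalSpace D] (f : C((ℤ → D), ℝ))
    (hf : f ∈ Submonoid.closure {f : C((ℤ → D), ℝ) | ∃ (j : ℤ) (ψ : C(D, ℝ)),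
      f = ψ.comp ⟨fun z => z j, continuous_apply j⟩}) :
    ∃ (K0 : ℕ) (ψ : ℤ → C(D, ℝ)), ∀ K : ℕ, K0 ≤ K → ∀ z, f z =
      ∏ j ∈ Finset.Icc (-(K : ℤ)) K, ψ j (z j) := by
  classical
  refine Submonoid.closure_induction (motive := fun f _ => ∃ (K0 : ℕ) (ψ : ℤ → C(D, ℝ)),
    ∀ K : ℕ, K0 ≤ K → ∀ z, f z = ∏ j ∈ Finset.Icc (-(K : ℤ)) K, ψ j (z j)) ?_ ?_ ?_ hf
  · rintro f ⟨j, ψ, rfl⟩
    refine ⟨j.natAbs, fun k => if k = j then ψ else 1, fun K hK z => ?_⟩
    rw [Finset.prod_eq_single j]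
    · show ψ (z j) = (if j = j then ψ else 1 : C(D, ℝ)) (z j)
      rw [if_pos rfl]
    · intro k _ hk
      show (if k = j then ψ else 1 : C(D, ℝ)) (z k) = 1
      rw [if_neg hk]
      rfl
    · intro hj
      exfalso
      apply hj
      rw [Finset.mem_Icc]
      omega
  · exact ⟨0, fun _ => 1, fun K _ z => by simp⟩
  · rintro f g _ _ ⟨K1, ψ1, h1⟩ ⟨K2, ψ2, h2⟩
    refine ⟨max K1 K2, fun j => ψ1 j * ψ2 j, fun K hK z => ?_⟩
    have e1 := h1 K ((le_max_left _ _).trans hK) z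
    have e2 := h2 K ((le_max_right _ _).trans hK) z
    show f z * g z = _
    rw [e1, e2, ← Finset.prod_mul_distrib]
    rfl

/-- Weak convergence from products: every continuous function on D^Z is a uniform limit of finite
sums of products of continuous functions of the coordinates -K, .., K (Stone-Weierstrass for the
algebra generated by the functions of one coordinate; complex valued, then real part), for which the
integral over infinitePi is the product. -/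
theorem furst_of_prod (C : ℝ) (x : ℤ → Metric.closedBall (0 : ℂ) C)
    (m : Measure (Metric.closedBall (0 : ℂ) C)) [IsProbabilityMeasure m]
    (h : ∀ (K : ℕ) (ψ : Fin (2 * K + 1) → C(Metric.closedBall (0 : ℂ) C, ℂ)),
      Tendsto (fun N : ℕ => (∑ n ∈ Finset.Icc 1 N,
        ∏ i, ψ i (x ((n : ℤ) - K + (i : ℕ)))) / (N : ℂ)) atTop (𝓝 (∏ i, ∫ z, ψ i z ∂m))) :
    UniqueFurstenberg C x (Measure.infinitePi (fun _ : ℤ => m)) := by
  have : CompactSpace (Metric.closedBall (0 : ℂ) C) :=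
    isCompact_iff_compactSpace.1 (isCompact_closedBall 0 C)
  intro φ
  have hcl := WB1_closed (𝕜 := ℝ) (Measure.infinitePi (fun _ : ℤ => m))
    (fun n : ℕ => (fun k : ℤ => x (k + (n : ℤ))))
  set T : Set C((ℤ → Metric.closedBall (0 : ℂ) C), ℝ) :=
    {φ | Tendsto (fun N : ℕ => (∑ n ∈ Finset.Icc 1 N, φ (fun k => x (k + (n : ℤ)))) / (N : ℝ))
      atTop (𝓝 (∫ z, φ z ∂(Measure.infinitePi (fun _ : ℤ => m))))} with hT
  set gen : Set C((ℤ → Metric.closedBall (0 : ℂ) C), ℝ) :=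
    {f | ∃ (j : ℤ) (ψ : C(Metric.closedBall (0 : ℂ) C, ℝ)),
      f = ψ.comp ⟨fun z => z j, continuous_apply j⟩} with hgen
  have hmon : ∀ f ∈ Submonoid.closure gen, f ∈ T := by
    intro f hf
    obtain ⟨K0, ψ, hψ⟩ := WB1_form f hf
    have h1 := hψ K0 le_rfl
    have h2 := h K0 (fun i => ⟨fun z => ((ψ (-(K0 : ℤ) + ((i : ℕ) : ℤ)) z : ℝ) : ℂ),
      Complex.continuous_ofReal.comp (ψ _).continuous⟩)
    have h3 := (Complex.continuous_re.tendsto _).comp h2
    show Tendsto _ _ _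
    have e1 : ∫ z, f z ∂(Measure.infinitePi (fun _ : ℤ => m)) =
        (∏ i : Fin (2 * K0 + 1), ∫ z, (((ψ (-(K0 : ℤ) + ((i : ℕ) : ℤ)) z : ℝ) : ℂ)) ∂m).re := by
      have e2 : ∀ i : Fin (2 * K0 + 1), ∫ z, (((ψ (-(K0 : ℤ) + ((i : ℕ) : ℤ)) z : ℝ) : ℂ)) ∂m =
          ((∫ z, ψ (-(K0 : ℤ) + ((i : ℕ) : ℤ)) z ∂m : ℝ) : ℂ) := fun i => integral_ofReal
      rw [Finset.prod_congr rfl fun i _ => e2 i, ← Complex.ofReal_prod, Complex.ofReal_re,
        ← WB1_reindex K0 (fun j => ∫ z, ψ j z ∂m), ← WB1_integral]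
      exact integral_congr_ae (Filter.Eventually.of_forall h1)
    rw [e1]
    refine h3.congr fun N => ?_
    have e3 : ∀ n : ℕ, ((∏ i : Fin (2 * K0 + 1),
        (((ψ (-(K0 : ℤ) + ((i : ℕ) : ℤ)) (x ((n : ℤ) - K0 + ((i : ℕ) : ℤ))) : ℝ) : ℂ))) : ℂ) =
        ((f (fun k => x (k + (n : ℤ))) : ℝ) : ℂ) := by
      intro n
      rw [h1, WB1_reindex K0 (fun j => ψ j (x (j + (n : ℤ)))), Complex.ofReal_prod]
      refine Finset.prod_congr rfl fun i _ => ?_
      have e4 : (n : ℤ) - K0 + ((i : ℕ) : ℤ) = -(K0 : ℤ) + ((i : ℕ) : ℤ) + n := by ring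
      rw [e4]
    show ((∑ n ∈ Finset.Icc 1 N, (∏ i : Fin (2 * K0 + 1),
        (((ψ (-(K0 : ℤ) + ((i : ℕ) : ℤ)) (x ((n : ℤ) - K0 + ((i : ℕ) : ℤ))) : ℝ) : ℂ)))) /
        (N : ℂ)).re = _
    rw [Finset.sum_congr rfl fun n _ => e3 n, ← Complex.ofReal_sum, ← Complex.ofReal_natCast,
      ← Complex.ofReal_div, Complex.ofReal_re]
  have hadj : ∀ f ∈ Algebra.adjoin ℝ gen, f ∈ T := by
    intro f hf
    have hf2 : f ∈ Submodule.span ℝ (Submonoid.closure gen : Set _) := by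
      rw [← Algebra.adjoin_eq_span]
      exact hf
    refine Submodule.span_induction (p := fun f _ => f ∈ T) ?_ ?_ ?_ ?_ hf2
    · intro f hf
      exact hmon f hf
    · show Tendsto _ _ _
      simp
    · intro f g _ _ hf hg
      show Tendsto _ _ _
      have h1 := Tendsto.add (show Tendsto _ _ _ from hf) (show Tendsto _ _ _ from hg)
      have e1 : ∫ z, (f + g) z ∂(Measure.infinitePi (fun _ : ℤ => m)) =
          ∫ z, f z ∂(Measure.infinitePi (fun _ : ℤ => m)) +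
          ∫ z, g z ∂(Measure.infinitePi (fun _ : ℤ => m)) :=
        integral_add (WB1_int _ f) (WB1_int _ g)
      rw [e1]
      refine h1.congr fun N => ?_
      rw [← add_div, ← Finset.sum_add_distrib]
      rfl
    · intro c f _ hf
      show Tendsto _ _ _
      have h1 := (show Tendsto _ _ _ from hf).const_mul c
      have e1 : ∫ z, (c • f) z ∂(Measure.infinitePi (fun _ : ℤ => m)) =
          c * ∫ z, f z ∂(Measure.infinitePi (fun _ : ℤ => m)) :=
        integral_const_mul c _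
      rw [e1]
      refine h1.congr fun N => ?_
      rw [← mul_div_assoc, Finset.mul_sum]
      rfl
  have hsep : (Algebra.adjoin ℝ gen).SeparatesPoints := by
    intro z z' hz
    obtain ⟨j, hj⟩ := Function.ne_iff.1 hz
    let ψ : C(Metric.closedBall (0 : ℂ) C, ℝ) := ⟨fun w => dist w (z j), by fun_prop⟩
    refine ⟨_, ⟨ψ.comp ⟨fun z => z j, continuous_apply j⟩, Algebra.subset_adjoin ⟨j, ψ, rfl⟩,
      rfl⟩, ?_⟩
    show dist (z j) (z j) ≠ dist (z' j) (z j)
    rw [dist_self]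
    exact (dist_pos.2 (Ne.symm hj)).ne
  have htop := ContinuousMap.subalgebra_topologicalClosure_eq_top_of_separatesPoints _ hsep
  have hφ : φ ∈ (Algebra.adjoin ℝ gen).topologicalClosure := by
    rw [htop]
    trivial
  have hφ2 : φ ∈ closure ((Algebra.adjoin ℝ gen : Subalgebra ℝ _) : Set _) := hφ
  exact (closure_minimal (fun f hf => hadj f hf) hcl) hφ2
/- END WB1 -/

/- MODULE WB2 -/
/-- It is enough to have the products for psi in a countable dense subset of C(D, C) (D compact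
metric, so C(D, C) is separable): uniform approximation, all functions bounded. -/
theorem furst_of_dense (C : ℝ) (S0 : Set C(Metric.closedBall (0 : ℂ) C, ℂ)) (hS0 : Dense S0)
    (x : ℤ → Metric.closedBall (0 : ℂ) C)
    (m : Measure (Metric.closedBall (0 : ℂ) C)) [IsProbabilityMeasure m]
    (h : ∀ (K : ℕ) (ψ : Fin (2 * K + 1) → C(Metric.closedBall (0 : ℂ) C, ℂ)), (∀ i, ψ i ∈ S0) →
      Tendsto (fun N : ℕ => (∑ n ∈ Finset.Icc 1 N,
        ∏ i, ψ i (x ((n : ℤ) - K + (i : ℕ)))) / (N : ℂ)) atTop (𝓝 (∏ i, ∫ z, ψ i z ∂m))) :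
    UniqueFurstenberg C x (Measure.infinitePi (fun _ : ℤ => m)) := by
  have : CompactSpace (Metric.closedBall (0 : ℂ) C) :=
    isCompact_iff_compactSpace.1 (isCompact_closedBall 0 C)
  refine furst_of_prod C x m fun K ψ => ?_
  let Φ : (Fin (2 * K + 1) → C(Metric.closedBall (0 : ℂ) C, ℂ)) →
      C((Fin (2 * K + 1) → Metric.closedBall (0 : ℂ) C), ℂ) :=
    fun ψ => ∏ i, (ψ i).comp ⟨fun z => z i, continuous_apply i⟩
  have hΦ : Continuous Φ := continuous_finsetProd _ fun i _ =>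
    (ContinuousMap.continuous_precomp _).comp (continuous_apply i)
  have hΦz : ∀ ψ z, Φ ψ z = ∏ i, ψ i (z i) := by
    intro ψ z
    show (∏ i, (ψ i).comp ⟨fun z => z i, continuous_apply i⟩ : C(_, ℂ)) z = _
    rw [ContinuousMap.prod_apply]
    rfl
  have hcl := (WB1_closed (𝕜 := ℂ) (Measure.pi (fun _ : Fin (2 * K + 1) => m))
    (fun n : ℕ => (fun i : Fin (2 * K + 1) => x ((n : ℤ) - K + (i : ℕ))))).preimage hΦ
  have hint : ∀ ψ, ∫ z, Φ ψ z ∂(Measure.pi (fun _ : Fin (2 * K + 1) => m)) =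
      ∏ i, ∫ z, ψ i z ∂m := by
    intro ψ
    rw [← integral_fintype_prod_eq_prod (μ := fun _ : Fin (2 * K + 1) => m)
      (fun (i : Fin (2 * K + 1)) z => ψ i z)]
    exact integral_congr_ae (Filter.Eventually.of_forall fun z => hΦz ψ z)
  have hmem : ∀ ψ, ψ ∈ (Φ ⁻¹' {φ : C((Fin (2 * K + 1) → Metric.closedBall (0 : ℂ) C), ℂ) |
      Tendsto (fun N : ℕ => (∑ n ∈ Finset.Icc 1 N,
        φ (fun i : Fin (2 * K + 1) => x ((n : ℤ) - K + (i : ℕ)))) / (N : ℂ)) atTop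
      (𝓝 (∫ z, φ z ∂(Measure.pi (fun _ : Fin (2 * K + 1) => m))))}) ↔
      Tendsto (fun N : ℕ => (∑ n ∈ Finset.Icc 1 N,
        ∏ i, ψ i (x ((n : ℤ) - K + (i : ℕ)))) / (N : ℂ)) atTop (𝓝 (∏ i, ∫ z, ψ i z ∂m)) := by
    intro ψ
    rw [← hint ψ]
    show Tendsto (fun N : ℕ => (∑ n ∈ Finset.Icc 1 N,
        Φ ψ (fun i : Fin (2 * K + 1) => x ((n : ℤ) - K + (i : ℕ)))) / (N : ℂ)) atTop _ ↔ _
    simp only [hΦz]
  have hd : Dense (Set.pi Set.univ (fun _ : Fin (2 * K + 1) => S0)) :=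
    dense_pi _ fun _ _ => hS0
  refine (hmem ψ).1 (closure_minimal ?_ hcl (hd ψ))
  intro ψ' hψ'
  exact (hmem ψ').2 (h K ψ' fun i => hψ' i (Set.mem_univ i))
/- END WB2 -/

/- MODULE WB3 -/
private theorem WB3_Icc (b : ℕ → ℂ) (N : ℕ) :
    ∑ n ∈ Finset.Icc 1 N, b n = ∑ n ∈ range N, b (n + 1) := by
  induction N with
  | zero => rfl
  | succ N ih => rw [Finset.sum_Icc_succ_top (by omega), ih, Finset.sum_range_succ]

private theorem WB3_shift (c : ℕ → ℂ) (L : ℂ) :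
    Tendsto (fun N : ℕ => (∑ n ∈ range N, c n) / (N : ℂ)) atTop (𝓝 L) ↔
    Tendsto (fun N : ℕ => (∑ n ∈ range N, c (n + 1)) / (N : ℂ)) atTop (𝓝 L) := by
  have hN0 : ∀ N : ℕ, ((N + 1 : ℕ) : ℂ) ≠ 0 := fun N => by exact_mod_cast N.succ_ne_zero
  have hr : Tendsto (fun N : ℕ => (N : ℂ) / ((N + 1 : ℕ) : ℂ)) atTop (𝓝 1) := by
    have := tendsto_natCast_div_add_atTop (𝕜 := ℂ) (1 : ℂ)
    refine this.congr fun N => ?_
    push_cast
    rfl
  have hi : Tendsto (fun N : ℕ => (((N + 1 : ℕ) : ℂ))⁻¹) atTop (𝓝 0) := by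
    have := tendsto_inv_atTop_nhds_zero_nat (𝕜 := ℂ)
    exact this.comp (tendsto_add_atTop_nat 1)
  constructor
  · intro h
    have h1 := h.comp (tendsto_add_atTop_nat 1)
    have h2 : Tendsto (fun N : ℕ => ((∑ n ∈ range (N + 1), c n) / ((N + 1 : ℕ) : ℂ) -
        c 0 * (((N + 1 : ℕ) : ℂ))⁻¹) / ((N : ℂ) / ((N + 1 : ℕ) : ℂ))) atTop
        (𝓝 ((L - c 0 * 0) / 1)) :=
      (Tendsto.sub h1 (hi.const_mul (c 0))).div hr one_ne_zero
    rw [mul_zero, sub_zero, div_one] at h2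
    refine h2.congr' ?_
    filter_upwards [eventually_gt_atTop 0] with N hN
    have hN1 : (N : ℂ) ≠ 0 := by exact_mod_cast hN.ne'
    rw [Finset.sum_range_succ' c N]
    have := hN0 N
    field_simp
    ring
  · intro h
    have h2 : Tendsto (fun N : ℕ => (∑ n ∈ range N, c (n + 1)) / (N : ℂ) *
        ((N : ℂ) / ((N + 1 : ℕ) : ℂ)) + c 0 * (((N + 1 : ℕ) : ℂ))⁻¹) atTop
        (𝓝 (L * 1 + c 0 * 0)) := (h.mul hr).add (hi.const_mul (c 0))
    rw [mul_one, mul_zero, add_zero] at h2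
    refine (tendsto_add_atTop_iff_nat 1).1 ?_
    refine h2.congr' ?_
    filter_upwards [eventually_gt_atTop 0] with N hN
    have hN1 : (N : ℂ) ≠ 0 := by exact_mod_cast hN.ne'
    rw [Finset.sum_range_succ' c N]
    have := hN0 N
    field_simp

private theorem WB3_shiftK (K : ℕ) (c : ℕ → ℂ) (L : ℂ) :
    Tendsto (fun N : ℕ => (∑ n ∈ range N, c (n + K)) / (N : ℂ)) atTop (𝓝 L) ↔
    Tendsto (fun N : ℕ => (∑ n ∈ range N, c n) / (N : ℂ)) atTop (𝓝 L) := by
  induction K generalizing c with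
  | zero => rfl
  | succ K ih =>
    rw [← ih c, WB3_shift (fun n => c (n + K))]
    have e : ∀ n, c (n + 1 + K) = c (n + (K + 1)) := fun n => by
      rw [show n + 1 + K = n + (K + 1) by ring]
    simp only [e]

/-- The final theorem in the form of correlations implies the form with Furstenberg systems: for the
countably many K and psi in a countable dense set S0 (TopologicalSpace.exists_countable_dense) apply
the hypothesis with k = 2 K and f i = psi i o g; the window n - K .. n + K of seqPt agrees with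
g(S^(p(n - K + i)) y) for n > K, so the average over Icc 1 N differs from the average over
range (N - K) by O(K/N). -/
theorem furst_final {Y : Type*} [MeasurableSpace Y] {ν : Measure Y} [IsProbabilityMeasure ν]
    (S : Y ≃ᵐ Y) (p : ℤ[X]) (C : ℝ) (hC : 0 ≤ C) (g : Y → ℂ) (hg : Measurable g)
    (hgC : ∀ y, ‖g y‖ ≤ C)
    (h : ∀ (k : ℕ) (f : Fin (k + 1) → Y → ℂ), (∀ i, Measurable (f i)) →
      (∃ B : ℝ, ∀ i y, ‖f i y‖ ≤ B) →
      ∀ᵐ y ∂ν, Tendsto (fun N : ℕ => (∑ n ∈ range N,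
        ∏ i, f i (pw S (p.eval ((n : ℤ) + (i : ℕ))) y)) / (N : ℂ))
        atTop (𝓝 (∏ i, ∫ y, f i y ∂ν))) :
    ∀ᵐ y ∂ν, UniqueFurstenberg C
      (seqPt C hC (fun n => g (pw S (p.eval (n : ℤ)) y)) (fun n => hgC _))
      (Measure.infinitePi (fun _ : ℤ =>
        ν.map (fun y => (⟨g y, by simpa using hgC y⟩ : Metric.closedBall (0 : ℂ) C)))) := by
  have : CompactSpace (Metric.closedBall (0 : ℂ) C) :=
    isCompact_iff_compactSpace.1 (isCompact_closedBall 0 C)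
  set G : Y → Metric.closedBall (0 : ℂ) C := fun y => ⟨g y, by simpa using hgC y⟩ with hG
  have hGm : Measurable G := hg.subtype_mk
  have : IsProbabilityMeasure (ν.map G) := Measure.isProbabilityMeasure_map hGm.aemeasurable
  obtain ⟨S0, hc, hd⟩ :=
    TopologicalSpace.exists_countable_dense C(Metric.closedBall (0 : ℂ) C, ℂ)
  have : Countable S0 := hc.to_subtype
  have hall : ∀ᵐ y ∂ν, ∀ (K : ℕ) (ψ : Fin (2 * K + 1) → S0),
      Tendsto (fun N : ℕ => (∑ n ∈ range N,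
        ∏ i, (ψ i).1 (G (pw S (p.eval ((n : ℤ) + (i : ℕ))) y))) / (N : ℂ))
        atTop (𝓝 (∏ i, ∫ y, (ψ i).1 (G y) ∂ν)) := by
    rw [ae_all_iff]
    intro K
    rw [ae_all_iff]
    intro ψ
    refine h (2 * K) (fun i y => (ψ i).1 (G y)) (fun i => ?_) ?_
    · exact (ψ i).1.continuous.measurable.comp hGm
    · refine ⟨∑ i, ‖(ψ i).1‖, fun i y => ?_⟩
      exact ((ψ i).1.norm_coe_le_norm _).trans
        (Finset.single_le_sum (f := fun i => ‖(ψ i).1‖) (fun i _ => norm_nonneg _)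
          (Finset.mem_univ i))
  filter_upwards [hall] with y hy
  refine furst_of_dense C S0 hd _ _ fun K ψ hψ => ?_
  have h1 := hy K (fun i => ⟨ψ i, hψ i⟩)
  have e1 : ∏ i, ∫ z, ψ i z ∂(ν.map G) = ∏ i, ∫ y, ψ i (G y) ∂ν := by
    refine Finset.prod_congr rfl fun i _ => ?_
    rw [integral_map hGm.aemeasurable (ψ i).continuous.measurable.aestronglyMeasurable]
  rw [e1]
  set xs := seqPt C hC (fun n => g (pw S (p.eval (n : ℤ)) y)) (fun n => hgC _) with hxs
  have h2 : Tendsto (fun N : ℕ => (∑ n ∈ range N,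
      ∏ i : Fin (2 * K + 1), ψ i (xs (((n + 1 : ℕ) : ℤ) - K + (i : ℕ)))) / (N : ℂ)) atTop
      (𝓝 (∏ i, ∫ y, ψ i (G y) ∂ν)) := by
    refine (WB3_shiftK K (fun n => ∏ i : Fin (2 * K + 1),
      ψ i (xs (((n + 1 : ℕ) : ℤ) - K + (i : ℕ)))) _).1 ?_
    refine ((WB3_shift _ _).1 h1).congr fun N => ?_
    congr 1
    refine Finset.sum_congr rfl fun n _ => Finset.prod_congr rfl fun i _ => ?_
    have e2 : (((n + K + 1 : ℕ) : ℤ) - K + (i : ℕ)) = ((n + 1 + (i : ℕ) : ℕ) : ℤ) := by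
      push_cast
      ring
    have e3 : xs (((n + K + 1 : ℕ) : ℤ) - K + (i : ℕ)) =
        G (pw S (p.eval (((n + 1 : ℕ) : ℤ) + (i : ℕ))) y) := by
      rw [e2, hxs]
      unfold seqPt
      rw [if_pos (by omega)]
      apply Subtype.ext
      show g (pw S (p.eval ((((n + 1 + (i : ℕ) : ℕ) : ℤ).toNat : ℕ) : ℤ)) y) = g _
      rw [Int.toNat_natCast]
      push_cast
      rfl
    rw [e3]
  refine h2.congr fun N => ?_
  congr 1
  exact (WB3_Icc (fun n => ∏ i : Fin (2 * K + 1), ψ i (xs ((n : ℤ) - K + (i : ℕ)))) N).symm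
/- END WB3 -/

end Pool.Agent.GsF
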