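import Pool.Agent.GsF.T1

/-!
Transference to measure preserving actions of Z^d and pointwise convergence.
-/

namespace Pool.Agent.GsF

open Finset MeasureTheory Filter Topology
open scoped NNReal

/-- an action of Z^d by measure preserving maps -/
structure Act (d : ℕ) {Ω : Type*} [MeasurableSpace Ω] (P : Measure Ω)
    (T : (Fin d → ℤ) → Ω → Ω) : Prop where
  zero : ∀ x, T 0 x = x
  add : ∀ a b x, T (a + b) x = T a (T b x)
  mp : ∀ a, MeasurePreserving (T a) P P

/-- the moment curve -/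
def gam (d n : ℕ) : Fin d → ℤ := fun l => (n : ℤ) ^ ((l : ℕ) + 1)

/-- averages along the moment curve -/
noncomputable def As {Ω : Type*} {d : ℕ} (T : (Fin d → ℤ) → Ω → Ω) (N : ℕ) (F : Ω → ℂ) (x : Ω) : ℂ :=
  (∑ n ∈ range N, F (T (gam d n) x)) / (N : ℂ)

/-- averages over boxes in (Q Z)^d -/
noncomputable def Bs {Ω : Type*} {d : ℕ} (T : (Fin d → ℤ) → Ω → Ω) (N Q : ℕ) (F : Ω → ℂ) (x : Ω) : ℂ :=
  (∑ j ∈ Fintype.piFinset (fun l : Fin d => range (N ^ ((l : ℕ) + 1) / Q + 1)),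
    F (T (fun l => ((Q * j l : ℕ) : ℤ)) x)) / (∏ l : Fin d, ((N ^ ((l : ℕ) + 1) / Q + 1 : ℕ) : ℂ))

variable {Ω : Type*} [MeasurableSpace Ω]

/- MODULE SA -/
private theorem SA_meas_mx {X : Type*} [MeasurableSpace X] (s : Finset ℕ) (v : ℕ → X → ℂ)
    (hv : ∀ k ∈ s, Measurable (v k)) : Measurable (mx s v) := by
  have h : Measurable (fun x => s.sup fun k => ‖v k x‖₊) := by
    classical
    induction s using Finset.induction_on with
    | empty => simp
    | insert k s hk ih =>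
      have h1 : (fun x => (insert k s).sup fun k => ‖v k x‖₊) =
          fun x => ‖v k x‖₊ ⊔ s.sup fun k => ‖v k x‖₊ := by
        funext x
        rw [Finset.sup_insert]
      rw [h1]
      exact (hv k (Finset.mem_insert_self _ _)).nnnorm.sup
        (ih fun k hk => hv k (Finset.mem_insert_of_mem hk))
  exact h.coe_nnreal_real

private theorem SA_int {P : Measure Ω} [IsProbabilityMeasure P] (g : Ω → ℝ) (hg : Measurable g)
    (K : ℝ) (hK : ∀ x, 0 ≤ g x ∧ g x ≤ K) : Integrable g P :=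
  Integrable.of_bound hg.aestronglyMeasurable K
    (Eventually.of_forall fun x => by
      rw [Real.norm_of_nonneg (hK x).1]
      exact (hK x).2)

private theorem SA_inv {d : ℕ} {P : Measure Ω} {T : (Fin d → ℤ) → Ω → Ω} (hT : Act d P T)
    (g : Ω → ℝ) (hg : Measurable g) (a : Fin d → ℤ) : ∫ x, g (T a x) ∂P = ∫ x, g x ∂P := by
  have h := (integral_map (hT.mp a).measurable.aemeasurable
    (hg.aestronglyMeasurable (μ := P.map (T a)))).symm
  rw [h, (hT.mp a).map_eq]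

/-- TRANSFERENCE (Calderon). S k, w k: finite sets of translations and weights. Let D bound all
coordinates of all elements of the S k, k in s, and let R > 2 D + 1. For fixed x put
f(z) = F(T (z.val) x) on (ZMod R)^d. For z with D ≤ z.val l < R - D for all l no wrap around happens:
the operator on the group at z equals the operator of the system at T (z.val) x. So
sum over these z of (mx at T (z.val) x)^2 ≤ C^2 sum over all z of |F(T (z.val) x)|^2; integrate over x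
(mp): (R - 2D)^d * left side ≤ R^d * right side; let R tend to infinity. -/
theorem transfer (d : ℕ) (s : Finset ℕ) (S : ℕ → Finset (Fin d → ℤ)) (w : ℕ → (Fin d → ℤ) → ℂ)
    (C : ℝ) (hC : 0 ≤ C)
    (h : ∀ (R : ℕ) [NeZero R] (f : (Fin d → ZMod R) → ℂ),
      l2 (mx s (fun k (x : Fin d → ZMod R) =>
          ∑ a ∈ S k, w k a * f (fun l => x l + (a l : ZMod R))))
        ≤ C * Real.sqrt (n2 f))
    (P : Measure Ω) [IsProbabilityMeasure P] (T : (Fin d → ℤ) → Ω → Ω) (hT : Act d P T)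
    (F : Ω → ℂ) (hF : Measurable F) (B : ℝ) (hB : ∀ x, ‖F x‖ ≤ B) :
    ∫ x, mx s (fun k x => ∑ a ∈ S k, w k a * F (T a x)) x ^ 2 ∂P ≤ C ^ 2 * ∫ x, ‖F x‖ ^ 2 ∂P := by
  -- a bound for the coordinates
  obtain ⟨D, hD⟩ : ∃ D : ℕ, ∀ k ∈ s, ∀ a ∈ S k, ∀ l, |a l| ≤ (D : ℤ) := by
    refine ⟨∑ k ∈ s, ∑ a ∈ S k, ∑ l, (a l).natAbs, fun k hk a ha l => ?_⟩
    have h1 : (a l).natAbs ≤ ∑ l, (a l).natAbs :=
      Finset.single_le_sum (f := fun l => (a l).natAbs) (fun _ _ => Nat.zero_le _) (Finset.mem_univ l)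
    have h2 : ∑ l, (a l).natAbs ≤ ∑ a ∈ S k, ∑ l, (a l).natAbs :=
      Finset.single_le_sum (f := fun a : Fin d → ℤ => ∑ l, (a l).natAbs) (fun _ _ => Nat.zero_le _) ha
    have h3 : ∑ a ∈ S k, ∑ l, (a l).natAbs ≤ ∑ k ∈ s, ∑ a ∈ S k, ∑ l, (a l).natAbs :=
      Finset.single_le_sum (f := fun k => ∑ a ∈ S k, ∑ l, (a l).natAbs) (fun _ _ => Nat.zero_le _) hk
    rw [Int.abs_eq_natAbs]
    exact_mod_cast (h1.trans h2).trans h3
  have hB0 : ∀ x, 0 ≤ B := fun x => (norm_nonneg _).trans (hB x)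
  -- the operator of the system
  set g : Ω → ℝ := fun x => mx s (fun k x => ∑ a ∈ S k, w k a * F (T a x)) x ^ 2 with hg
  have hgm : Measurable g := by
    have := SA_meas_mx s (fun k x => ∑ a ∈ S k, w k a * F (T a x)) (fun k _ =>
      Finset.measurable_sum _ fun a _ => (hF.comp (hT.mp a).measurable).const_mul (w k a))
    exact this.pow_const 2
  set K : ℝ := ∑ k ∈ s, ∑ a ∈ S k, ‖w k a‖ * B with hK
  have hgb : ∀ x, 0 ≤ g x ∧ g x ≤ K ^ 2 := by
    intro x
    refine ⟨sq_nonneg _, ?_⟩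
    have hnn : ∀ k, 0 ≤ ∑ a ∈ S k, ‖w k a‖ * B := fun k =>
      Finset.sum_nonneg fun a _ => mul_nonneg (norm_nonneg _) (hB0 x)
    refine pow_le_pow_left₀ (mx_nonneg _ _ _) (mx_le _ _ _ _ (Finset.sum_nonneg fun k _ => hnn k) ?_) 2
    intro k hk
    refine (norm_sum_le _ _).trans ?_
    refine le_trans (Finset.sum_le_sum fun a _ => ?_)
      (Finset.single_le_sum (f := fun k => ∑ a ∈ S k, ‖w k a‖ * B) (fun k _ => hnn k) hk)
    rw [norm_mul]
    exact mul_le_mul_of_nonneg_left (hB _) (norm_nonneg _)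
  set g' : Ω → ℝ := fun x => ‖F x‖ ^ 2 with hg'
  have hgm' : Measurable g' := hF.norm.pow_const 2
  have hgb' : ∀ x, 0 ≤ g' x ∧ g' x ≤ B ^ 2 := fun x =>
    ⟨sq_nonneg _, pow_le_pow_left₀ (norm_nonneg _) (hB x) 2⟩
  have hcomp : ∀ a, Measurable fun x => g (T a x) := fun a => hgm.comp (hT.mp a).measurable
  have hcomp' : ∀ a, Measurable fun x => g' (T a x) := fun a => hgm'.comp (hT.mp a).measurable
  -- the inequality at level m
  have key : ∀ m : ℕ, ((m : ℝ) + 1) ^ d * ∫ x, g x ∂P ≤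
      C ^ 2 * ((m : ℝ) + 1 + 2 * D) ^ d * ∫ x, g' x ∂P := by
    intro m
    set R : ℕ := m + 1 + 2 * D with hR
    have : NeZero R := ⟨by omega⟩
    -- the good points
    let io : (Fin d → Fin (m + 1)) → (Fin d → ZMod R) := fun j l => (((D + (j l : ℕ) : ℕ)) : ZMod R)
    have hval : ∀ (j : Fin d → Fin (m + 1)) l, (io j l).val = D + (j l : ℕ) := by
      intro j l
      have := (j l).isLt
      exact ZMod.val_natCast_of_lt (by omega)
    have hinj : Function.Injective io := by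
      intro j j' hj
      funext l
      have h1 := hval j l
      have h2 := hval j' l
      rw [hj, h2] at h1
      exact Fin.ext (by omega)
    have pt : ∀ x, ∑ j : Fin d → Fin (m + 1), g (T (fun l => ((D + (j l : ℕ) : ℕ) : ℤ)) x) ≤
        C ^ 2 * ∑ z : Fin d → ZMod R, g' (T (fun l => ((z l).val : ℤ)) x) := by
      intro x
      have h1 := h R (fun z => F (T (fun l => ((z l).val : ℤ)) x))
      have hn : 0 ≤ n2 (fun z : Fin d → ZMod R => F (T (fun l => ((z l).val : ℤ)) x)) :=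
        Finset.sum_nonneg fun _ _ => sq_nonneg _
      unfold l2 at h1
      set G : (Fin d → ZMod R) → ℝ := fun z => mx s (fun k (z : Fin d → ZMod R) =>
          ∑ a ∈ S k, w k a * F (T (fun l => ((z l + (a l : ZMod R)).val : ℤ)) x)) z ^ 2 with hG
      have h2 : ∑ z : Fin d → ZMod R, G z ≤
          C ^ 2 * n2 (fun z : Fin d → ZMod R => F (T (fun l => ((z l).val : ℤ)) x)) := by
        have h3 := pow_le_pow_left₀ (Real.sqrt_nonneg _) h1 2
        rw [mul_pow, Real.sq_sqrt (Finset.sum_nonneg fun _ _ => sq_nonneg _), Real.sq_sqrt hn] at h3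
        exact h3
      refine le_trans ?_ h2
      have h4 : ∑ j : Fin d → Fin (m + 1), G (io j) ≤ ∑ z, G z := by
        have h5 := Finset.sum_map Finset.univ ⟨io, hinj⟩ G
        simp only [Function.Embedding.coeFn_mk] at h5
        rw [← h5]
        exact Finset.sum_le_sum_of_subset_of_nonneg (Finset.subset_univ _) fun z _ _ => sq_nonneg _
      refine le_trans (le_of_eq (Finset.sum_congr rfl fun j _ => ?_)) h4
      -- no wrap around
      have h6 : ∀ k ∈ s, ∀ a ∈ S k, (fun l => ((io j l + (a l : ZMod R)).val : ℤ)) =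
          a + fun l => ((D + (j l : ℕ) : ℕ) : ℤ) := by
        intro k hk a ha
        funext l
        have hal := abs_le.mp (hD k hk a ha l)
        have hjl := (j l).isLt
        obtain ⟨t, ht⟩ : ∃ t : ℕ, (t : ℤ) = a l + ((D + (j l : ℕ) : ℕ) : ℤ) :=
          ⟨(a l + ((D + (j l : ℕ) : ℕ) : ℤ)).toNat, Int.toNat_of_nonneg (by push_cast; linarith [hal.1])⟩
        have h7 : io j l + (a l : ZMod R) = (t : ZMod R) := by
          have h8 : ((t : ℤ) : ZMod R) = ((a l + ((D + (j l : ℕ) : ℕ) : ℤ) : ℤ) : ZMod R) := by rw [ht]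
          rw [Int.cast_natCast, Int.cast_add, Int.cast_natCast] at h8
          rw [h8, add_comm]
        have ht2 : t < R := by
          have : (t : ℤ) < R := by
            rw [ht, hR]
            push_cast
            have := hal.2
            omega
          exact_mod_cast this
        rw [h7, ZMod.val_natCast_of_lt ht2, ht]
        rfl
      have h9 : mx s (fun k x => ∑ a ∈ S k, w k a * F (T a x)) (T (fun l => ((D + (j l : ℕ) : ℕ) : ℤ)) x) =
          mx s (fun k (z : Fin d → ZMod R) =>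
          ∑ a ∈ S k, w k a * F (T (fun l => ((z l + (a l : ZMod R)).val : ℤ)) x)) (io j) := by
        unfold mx
        congr 1
        refine Finset.sup_congr rfl fun k hk => ?_
        congr 1
        refine Finset.sum_congr rfl fun a ha => ?_
        rw [h6 k hk a ha, hT.add]
      change mx s (fun k x => ∑ a ∈ S k, w k a * F (T a x)) (T (fun l => ((D + (j l : ℕ) : ℕ) : ℤ)) x) ^ 2 = _
      rw [h9]
    have hint : ∀ a, Integrable (fun x => g (T a x)) P := fun a =>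
      SA_int _ (hcomp a) (K ^ 2) fun x => hgb _
    have hint' : ∀ a, Integrable (fun x => g' (T a x)) P := fun a =>
      SA_int _ (hcomp' a) (B ^ 2) fun x => hgb' _
    have h10 := integral_mono (integrable_finsetSum _ fun j _ => hint _)
      ((integrable_finsetSum _ fun z _ => hint' _).const_mul (C ^ 2)) pt
    rw [integral_finsetSum _ fun j _ => hint _, integral_const_mul,
      integral_finsetSum _ fun z _ => hint' _] at h10
    simp only [SA_inv hT g hgm, SA_inv hT g' hgm', Finset.sum_const, Finset.card_univ, nsmul_eq_mul,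
      Fintype.card_pi_const, Fintype.card_fin, ZMod.card] at h10
    rw [hR] at h10
    push_cast at h10
    rw [mul_assoc]
    exact h10
  -- the limit
  have hlim : Tendsto (fun m : ℕ => (((m : ℝ) + 1 + 2 * D) / ((m : ℝ) + 1)) ^ d) atTop (𝓝 1) := by
    have h1 : Tendsto (fun m : ℕ => (2 * (D : ℝ)) / ((m : ℝ) + 1)) atTop (𝓝 0) := by
      refine Tendsto.div_atTop tendsto_const_nhds ?_
      exact tendsto_atTop_add_const_right _ _ tendsto_natCast_atTop_atTop
    have h2 : Tendsto (fun m : ℕ => (1 + (2 * (D : ℝ)) / ((m : ℝ) + 1)) ^ d) atTop (𝓝 1) := by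
      have := (h1.const_add 1).pow d
      simpa using this
    refine h2.congr fun m => ?_
    congr 1
    have : (m : ℝ) + 1 ≠ 0 := by positivity
    field_simp
  have hfin : ∀ m : ℕ, ∫ x, g x ∂P ≤
      (((m : ℝ) + 1 + 2 * D) / ((m : ℝ) + 1)) ^ d * (C ^ 2 * ∫ x, g' x ∂P) := by
    intro m
    have h1 : (0 : ℝ) < ((m : ℝ) + 1) ^ d := by positivity
    rw [div_pow, div_mul_eq_mul_div, le_div_iff₀ h1, mul_comm]
    refine (key m).trans (le_of_eq ?_)
    ring
  have hlim2 : Tendsto (fun m : ℕ => (((m : ℝ) + 1 + 2 * D) / ((m : ℝ) + 1)) ^ d *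
      (C ^ 2 * ∫ x, g' x ∂P)) atTop (𝓝 (C ^ 2 * ∫ x, g' x ∂P)) := by
    have := hlim.mul_const (C ^ 2 * ∫ x, g' x ∂P)
    rwa [one_mul] at this
  exact ge_of_tendsto' hlim2 hfin
/- END SA -/

/- MODULE SB -/
private theorem SB_meas_mx {X : Type*} [MeasurableSpace X] (s : Finset ℕ) (v : ℕ → X → ℂ)
    (hv : ∀ k ∈ s, Measurable (v k)) : Measurable (mx s v) := by
  have h : Measurable (fun x => s.sup fun k => ‖v k x‖₊) := by
    classical
    induction s using Finset.induction_on with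
    | empty => simp
    | insert k s hk ih =>
      have h1 : (fun x => (insert k s).sup fun k => ‖v k x‖₊) =
          fun x => ‖v k x‖₊ ⊔ s.sup fun k => ‖v k x‖₊ := by
        funext x
        rw [Finset.sup_insert]
      rw [h1]
      exact (hv k (Finset.mem_insert_self _ _)).nnnorm.sup
        (ih fun k hk => hv k (Finset.mem_insert_of_mem hk))
  exact h.coe_nnreal_real

/-- The maximal function of an infinite family of uniformly bounded functions, from finite
subfamilies (monotone convergence; H x = supremum over k in A of |v k x|, 0 if A is empty). -/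
theorem sup_fun (P : Measure Ω) [IsProbabilityMeasure P] (v : ℕ → Ω → ℂ) (hv : ∀ k, Measurable (v k))
    (B : ℝ) (hB0 : 0 ≤ B) (hB : ∀ k x, ‖v k x‖ ≤ B) (A : Set ℕ) (V : ℝ)
    (h : ∀ s : Finset ℕ, (∀ k ∈ s, k ∈ A) → ∫ x, mx s v x ^ 2 ∂P ≤ V) :
    ∃ H : Ω → ℝ, Measurable H ∧ (∀ x, 0 ≤ H x ∧ H x ≤ B) ∧ ∫ x, H x ^ 2 ∂P ≤ V ∧
      ∀ k ∈ A, ∀ x, ‖v k x‖ ≤ H x := by
  classical
  set S : ℕ → Finset ℕ := fun n => (range n).filter (· ∈ A) with hS
  set f : ℕ → Ω → ℝ := fun n => mx (S n) v with hf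
  have hfm : ∀ n, Measurable (f n) := fun n => SB_meas_mx _ _ fun k _ => hv k
  have hf0 : ∀ n x, 0 ≤ f n x := fun n x => mx_nonneg _ _ _
  have hfB : ∀ n x, f n x ≤ B := fun n x => mx_le _ _ _ _ hB0 fun k _ => hB k x
  have hmono : ∀ x, Monotone fun n => f n x := by
    intro x m n hmn
    refine mx_le _ _ _ _ (mx_nonneg _ _ _) fun k hk => le_mx _ _ _ _ ?_
    rw [Finset.mem_filter, Finset.mem_range] at hk ⊢
    exact ⟨lt_of_lt_of_le hk.1 hmn, hk.2⟩
  have hbdd : ∀ x, BddAbove (Set.range fun n => f n x) := fun x => ⟨B, by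
    rintro _ ⟨n, rfl⟩
    exact hfB n x⟩
  set H : Ω → ℝ := fun x => ⨆ n, f n x with hH
  have hlim : ∀ x, Tendsto (fun n => f n x) atTop (𝓝 (H x)) := fun x =>
    tendsto_atTop_ciSup (hmono x) (hbdd x)
  have hle : ∀ n x, f n x ≤ H x := fun n x => le_ciSup (hbdd x) n
  refine ⟨H, Measurable.iSup hfm, fun x => ⟨(hf0 0 x).trans (hle 0 x), ciSup_le fun n => hfB n x⟩, ?_, ?_⟩
  · have h1 : Tendsto (fun n => ∫ x, f n x ^ 2 ∂P) atTop (𝓝 (∫ x, H x ^ 2 ∂P)) := by
      refine tendsto_integral_of_dominated_convergence (fun _ => B ^ 2)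
        (fun n => ((hfm n).pow_const 2).aestronglyMeasurable) (integrable_const _) ?_ ?_
      · intro n
        refine Eventually.of_forall fun x => ?_
        rw [Real.norm_of_nonneg (sq_nonneg _)]
        exact pow_le_pow_left₀ (hf0 n x) (hfB n x) 2
      · exact Eventually.of_forall fun x => (hlim x).pow 2
    refine le_of_tendsto' h1 fun n => h (S n) fun k hk => ?_
    exact (Finset.mem_filter.mp hk).2
  · intro k hk x
    refine le_trans (le_mx (S (k + 1)) v x k ?_) (hle (k + 1) x)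
    rw [Finset.mem_filter, Finset.mem_range]
    exact ⟨Nat.lt_succ_self k, hk⟩
/- END SB -/

/- MODULE SC -/
private theorem SC_rep {ι : Type*} {d : ℕ} (I : Finset ι) (φ : ι → Fin d → ℤ) (c : ι → ℂ) :
    ∃ (S : Finset (Fin d → ℤ)) (w : (Fin d → ℤ) → ℂ), ∀ G : (Fin d → ℤ) → ℂ,
      ∑ a ∈ S, w a * G a = ∑ i ∈ I, c i * G (φ i) := by
  classical
  refine ⟨I.image φ, fun a => ∑ i ∈ I.filter (fun i => φ i = a), c i, fun G => ?_⟩
  rw [← Finset.sum_fiberwise_of_maps_to (t := I.image φ) (g := φ)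
    (fun i hi => Finset.mem_image_of_mem φ hi)]
  refine Finset.sum_congr rfl fun a _ => ?_
  rw [Finset.sum_mul]
  refine Finset.sum_congr rfl fun i hi => ?_
  rw [(Finset.mem_filter.mp hi).2]

private theorem SC_tr {ι : Type*} (d : ℕ) (s : Finset ℕ) (I : ℕ → Finset ι) (φ : ℕ → ι → Fin d → ℤ)
    (c : ℕ → ι → ℂ) (C : ℝ) (hC : 0 ≤ C)
    (h : ∀ (R : ℕ) [NeZero R] (f : (Fin d → ZMod R) → ℂ),
      l2 (mx s (fun k (x : Fin d → ZMod R) =>
          ∑ i ∈ I k, c k i * f (fun l => x l + (φ k i l : ZMod R))))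
        ≤ C * Real.sqrt (n2 f))
    (P : Measure Ω) [IsProbabilityMeasure P] (T : (Fin d → ℤ) → Ω → Ω) (hT : Act d P T)
    (F : Ω → ℂ) (hF : Measurable F) (B : ℝ) (hB : ∀ x, ‖F x‖ ≤ B) :
    ∫ x, mx s (fun k x => ∑ i ∈ I k, c k i * F (T (φ k i) x)) x ^ 2 ∂P ≤
      C ^ 2 * ∫ x, ‖F x‖ ^ 2 ∂P := by
  choose S w hSw using fun k => SC_rep (I k) (φ k) (c k)
  have h1 := transfer d s S w C hC (fun R _ f => by
    have h2 : (fun k (x : Fin d → ZMod R) => ∑ a ∈ S k, w k a * f (fun l => x l + (a l : ZMod R))) =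
        fun k (x : Fin d → ZMod R) => ∑ i ∈ I k, c k i * f (fun l => x l + (φ k i l : ZMod R)) := by
      funext k x
      exact hSw k (fun a => f (fun l => x l + (a l : ZMod R)))
    rw [h2]
    exact h R f) P T hT F hF B hB
  have h3 : (fun k x => ∑ a ∈ S k, w k a * F (T a x)) =
      fun k x => ∑ i ∈ I k, c k i * F (T (φ k i) x) := by
    funext k x
    exact hSw k (fun a => F (T a x))
  rw [h3] at h1
  exact h1

/-- BOURGAIN'S MAXIMAL INEQUALITY for systems: transfer applied to maximal_grp (As T (2^k) F is a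
finite sum of weights; group the equal translations or index the weights by n: use
S k = image of gam d, w k a = card of the fibre / 2^k), sup_fun, and As N F ≤ 2 As (2^(k+1)) F for
2^k ≤ N < 2^(k+1) because F ≥ 0. -/
theorem maximal_sys (d : ℕ) :
    ∃ C : ℝ, 0 < C ∧ ∀ (P : Measure Ω) [IsProbabilityMeasure P] (T : (Fin d → ℤ) → Ω → Ω),
      Act d P T → ∀ (F : Ω → ℝ), Measurable F → ∀ B : ℝ, (∀ x, 0 ≤ F x ∧ F x ≤ B) →
        ∃ H : Ω → ℝ, Measurable H ∧ (∀ x, 0 ≤ H x ∧ H x ≤ B) ∧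
          ∫ x, H x ^ 2 ∂P ≤ C * ∫ x, F x ^ 2 ∂P ∧
          ∀ N : ℕ, ∀ x, (∑ n ∈ range N, F (T (gam d n) x)) / N ≤ H x := by
  obtain ⟨C, hC, hmax⟩ := maximal_grp d
  refine ⟨4 * C ^ 2, by positivity, ?_⟩
  intro P _ T hT F hF B hB
  obtain ⟨x0⟩ := nonempty_of_isProbabilityMeasure P
  have hB0 : 0 ≤ B := (hB x0).1.trans (hB x0).2
  have hTm : ∀ a, Measurable (T a) := fun a => (hT.mp a).measurable
  set v : ℕ → Ω → ℂ := fun k x => ∑ n ∈ range (2 ^ k), (1 / ((2 ^ k : ℕ) : ℂ)) *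
    (F (T (gam d n) x) : ℂ) with hv
  have hFc : Measurable fun x => (F x : ℂ) := Complex.measurable_ofReal.comp hF
  have hvm : ∀ k, Measurable (v k) := fun k =>
    Finset.measurable_sum _ fun n _ => (hFc.comp (hTm _)).const_mul _
  have hveq : ∀ k x, v k x = (((∑ n ∈ range (2 ^ k), F (T (gam d n) x)) / ((2 ^ k : ℕ) : ℝ) : ℝ) : ℂ) := by
    intro k x
    simp only [hv]
    rw [← Finset.mul_sum]
    push_cast
    ring
  have hvn : ∀ k x, ‖v k x‖ = (∑ n ∈ range (2 ^ k), F (T (gam d n) x)) / ((2 ^ k : ℕ) : ℝ) := by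
    intro k x
    rw [hveq, Complex.norm_real, Real.norm_of_nonneg]
    exact div_nonneg (Finset.sum_nonneg fun n _ => (hB _).1) (Nat.cast_nonneg _)
  have hsumle : ∀ N x, ∑ n ∈ range N, F (T (gam d n) x) ≤ N * B := by
    intro N x
    refine (Finset.sum_le_sum fun n _ => (hB _).2).trans (le_of_eq ?_)
    rw [Finset.sum_const, Finset.card_range, nsmul_eq_mul]
  have hvB : ∀ k x, ‖v k x‖ ≤ B := by
    intro k x
    have : (0 : ℝ) < ((2 ^ k : ℕ) : ℝ) := by positivity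
    rw [hvn, div_le_iff₀ this, mul_comm]
    exact hsumle _ x
  have hFB : ∀ x, ‖((F x : ℝ) : ℂ)‖ ≤ B := fun x => by
    rw [Complex.norm_real, Real.norm_of_nonneg (hB x).1]
    exact (hB x).2
  have hst : ∀ s : Finset ℕ, ∫ x, mx s v x ^ 2 ∂P ≤ C ^ 2 * ∫ x, ‖((F x : ℝ) : ℂ)‖ ^ 2 ∂P := by
    intro s
    have h0 : ∀ (R : ℕ) [NeZero R] (f : (Fin d → ZMod R) → ℂ),
        l2 (mx s (fun k (x : Fin d → ZMod R) => ∑ i ∈ range (2 ^ k), (1 / ((2 ^ k : ℕ) : ℂ)) *
          f (fun l => x l + ((gam d i l : ℤ) : ZMod R)))) ≤ C * Real.sqrt (n2 f) := by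
      intro R _ f
      have h2 : (fun k (x : Fin d → ZMod R) => ∑ n ∈ range (2 ^ k), (1 / ((2 ^ k : ℕ) : ℂ)) *
          f (fun l => x l + (gam d n l : ZMod R))) = fun k => Ag (2 ^ k) f := by
        funext k x
        unfold Ag
        rw [← Finset.mul_sum, one_div, mul_comm, ← div_eq_mul_inv]
        congr 1
        refine Finset.sum_congr rfl fun n _ => ?_
        congr 1
        funext l
        simp [gam]
      rw [h2]
      exact hmax R s f
    exact SC_tr d s (fun k => range (2 ^ k)) (fun _ n => gam d n) (fun k _ => 1 / ((2 ^ k : ℕ) : ℂ))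
      C hC.le h0 P T hT (fun x => ((F x : ℝ) : ℂ)) hFc B hFB
  obtain ⟨H', hH'm, hH'b, hH'i, hH'k⟩ := sup_fun P v hvm B hB0 hvB Set.univ
    (C ^ 2 * ∫ x, ‖((F x : ℝ) : ℂ)‖ ^ 2 ∂P) (fun s _ => hst s)
  refine ⟨fun x => min (2 * H' x) B, (hH'm.const_mul 2).min measurable_const, fun x =>
    ⟨le_min (mul_nonneg zero_le_two (hH'b x).1) hB0, min_le_right _ _⟩, ?_, ?_⟩
  · have h1 : ∫ x, (min (2 * H' x) B) ^ 2 ∂P ≤ ∫ x, 4 * H' x ^ 2 ∂P := by
      refine integral_mono ?_ ?_ fun x => ?_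
      · exact Integrable.of_bound
          (((hH'm.const_mul 2).min measurable_const).pow_const 2).aestronglyMeasurable (B ^ 2)
          (Eventually.of_forall fun x => by
            rw [Real.norm_of_nonneg (sq_nonneg _)]
            exact pow_le_pow_left₀ (le_min (mul_nonneg zero_le_two (hH'b x).1) hB0)
              (min_le_right _ _) 2)
      · exact Integrable.of_bound ((hH'm.pow_const 2).const_mul 4).aestronglyMeasurable (4 * B ^ 2)
          (Eventually.of_forall fun x => by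
            rw [Real.norm_of_nonneg (by positivity)]
            have := pow_le_pow_left₀ (hH'b x).1 (hH'b x).2 2
            linarith)
      · have h2 := pow_le_pow_left₀ (le_min (mul_nonneg zero_le_two (hH'b x).1) hB0)
          (min_le_left (2 * H' x) B) 2
        calc (min (2 * H' x) B) ^ 2 ≤ (2 * H' x) ^ 2 := h2
          _ = 4 * H' x ^ 2 := by ring
    refine h1.trans ?_
    rw [integral_const_mul]
    have h3 : ∫ x, ‖(F x : ℂ)‖ ^ 2 ∂P = ∫ x, F x ^ 2 ∂P := by
      congr 1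
      funext x
      rw [Complex.norm_real, Real.norm_of_nonneg (hB x).1]
    rw [h3] at hH'i
    linarith
  · intro N x
    rcases Nat.eq_zero_or_pos N with hN | hN
    · subst hN
      simp only [Finset.range_zero, Finset.sum_empty, zero_div]
      exact le_min (mul_nonneg zero_le_two (hH'b x).1) hB0
    · have hNr : (0 : ℝ) < N := by exact_mod_cast hN
      refine le_min ?_ ?_
      · set k := Nat.log 2 N with hk
        have hk1 : 2 ^ k ≤ N := Nat.pow_log_le_self 2 hN.ne'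
        have hk2 : N < 2 ^ (k + 1) := Nat.lt_pow_succ_log_self (by norm_num) N
        have h4 := hH'k (k + 1) (Set.mem_univ _) x
        rw [hvn] at h4
        have h5 : (0 : ℝ) < ((2 ^ (k + 1) : ℕ) : ℝ) := by positivity
        rw [div_le_iff₀ h5] at h4
        have h6 : ∑ n ∈ range N, F (T (gam d n) x) ≤ ∑ n ∈ range (2 ^ (k + 1)), F (T (gam d n) x) :=
          Finset.sum_le_sum_of_subset_of_nonneg (Finset.range_subset_range.mpr hk2.le)
            fun n _ _ => (hB _).1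
        have h7 : ((2 ^ (k + 1) : ℕ) : ℝ) ≤ 2 * N := by
          have : 2 ^ (k + 1) ≤ 2 * N := by rw [pow_succ]; linarith
          exact_mod_cast this
        rw [div_le_iff₀ hNr]
        calc ∑ n ∈ range N, F (T (gam d n) x) ≤ H' x * ((2 ^ (k + 1) : ℕ) : ℝ) := h6.trans h4
          _ ≤ H' x * (2 * N) := mul_le_mul_of_nonneg_left h7 (hH'b x).1
          _ = 2 * H' x * N := by ring
      · rw [div_le_iff₀ hNr, mul_comm]
        exact hsumle N x
/- END SC -/

/- MODULE SD -/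
private noncomputable def SD_c {d : ℕ} (N Q M0 : ℕ) : ℕ ⊕ (ℕ × (Fin d → ℕ)) → ℂ
  | Sum.inl _ => 1 / (N : ℂ)
  | Sum.inr _ => -(1 / (N : ℂ) * (1 / (∏ l : Fin d, ((M0 ^ ((l : ℕ) + 1) / Q + 1 : ℕ) : ℂ))))

private def SD_phi {d : ℕ} (Q : ℕ) : ℕ ⊕ (ℕ × (Fin d → ℕ)) → Fin d → ℤ
  | Sum.inl n => gam d n
  | Sum.inr p => (fun l => ((Q * p.2 l : ℕ) : ℤ)) + gam d p.1

private theorem SD_exp {d : ℕ} (N Q M0 : ℕ) (G : (Fin d → ℤ) → ℂ) :
    ∑ i ∈ (range N).disjSum (range N ×ˢ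
      Fintype.piFinset (fun l : Fin d => range (M0 ^ ((l : ℕ) + 1) / Q + 1))),
      SD_c N Q M0 i * G (SD_phi Q i) =
    (∑ n ∈ range N, (G (gam d n) -
      (∑ j ∈ Fintype.piFinset (fun l : Fin d => range (M0 ^ ((l : ℕ) + 1) / Q + 1)),
        G ((fun l => ((Q * j l : ℕ) : ℤ)) + gam d n)) /
          (∏ l : Fin d, ((M0 ^ ((l : ℕ) + 1) / Q + 1 : ℕ) : ℂ)))) / (N : ℂ) := by
  rw [Finset.sum_disjSum, Finset.sum_product]
  simp only [SD_c, SD_phi]
  rw [Finset.sum_div, ← Finset.sum_add_distrib]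
  refine Finset.sum_congr rfl fun n _ => ?_
  rw [← Finset.mul_sum]
  ring

/-- DECAY for systems: transfer applied to decay_grp (the operator
Ag (Nk u k) (f - Bg M0 (Qf s) f) is a finite sum of weighted translations: expand), sup_fun with
A = {k | K0 ≤ k}. -/
theorem decay_sys (d u : ℕ) (hu : 1 ≤ u) :
    ∃ (C c : ℝ) (i0 : ℕ), 0 < C ∧ 0 < c ∧ ∀ s : ℕ, i0 ≤ s → ∀ M0 : ℕ, 1 ≤ M0 →
      ∃ K0 : ℕ, ∀ (P : Measure Ω) [IsProbabilityMeasure P] (T : (Fin d → ℤ) → Ω → Ω),
        Act d P T → ∀ (F : Ω → ℂ), Measurable F → ∀ B : ℝ, (∀ x, ‖F x‖ ≤ B) →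
          ∃ H : Ω → ℝ, Measurable H ∧ (∀ x, 0 ≤ H x ∧ H x ≤ 2 * B) ∧
            ∫ x, H x ^ 2 ∂P ≤ (C * (2 : ℝ) ^ (-(c * s))) ^ 2 * ∫ x, ‖F x‖ ^ 2 ∂P ∧
            ∀ k : ℕ, K0 ≤ k → ∀ x,
              ‖As T (Nk u k) (fun y => F y - Bs T M0 (Qf s) F y) x‖ ≤ H x := by
  obtain ⟨C, c, i0, hC, hc, hdec⟩ := decay_grp d u hu
  refine ⟨C, c, i0, hC, hc, fun s hs M0 hM0 => ?_⟩
  obtain ⟨K0, hK0⟩ := hdec s hs M0 hM0
  refine ⟨K0, ?_⟩
  intro P _ T hT F hF B hB
  obtain ⟨x0⟩ := nonempty_of_isProbabilityMeasure P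
  have hB0 : 0 ≤ B := (norm_nonneg _).trans (hB x0)
  have hTm : ∀ a, Measurable (T a) := fun a => (hT.mp a).measurable
  set I : ℕ → Finset (ℕ ⊕ (ℕ × (Fin d → ℕ))) := fun k => (range (Nk u k)).disjSum (range (Nk u k) ×ˢ
      Fintype.piFinset (fun l : Fin d => range (M0 ^ ((l : ℕ) + 1) / (Qf s) + 1))) with hI
  set v : ℕ → Ω → ℂ := fun k x => ∑ i ∈ I k, SD_c (Nk u k) (Qf s) M0 i * F (T (SD_phi (Qf s) i) x)
    with hv
  have hvm : ∀ k, Measurable (v k) := fun k =>
    Finset.measurable_sum _ fun n _ => (hF.comp (hTm _)).const_mul _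
  have hveq : ∀ k x, v k x = As T (Nk u k) (fun y => F y - Bs T M0 (Qf s) F y) x := by
    intro k x
    simp only [hv, hI]
    rw [SD_exp (Nk u k) (Qf s) M0 (fun a => F (T a x))]
    unfold As Bs
    congr 1
    refine Finset.sum_congr rfl fun n _ => ?_
    congr 2
    refine Finset.sum_congr rfl fun j _ => ?_
    rw [hT.add]
  have hBs : ∀ y, ‖Bs T M0 (Qf s) F y‖ ≤ B := by
    intro y
    unfold Bs
    rw [norm_div]
    have hpos : (0 : ℝ) < ∏ l : Fin d, ((M0 ^ ((l : ℕ) + 1) / (Qf s) + 1 : ℕ) : ℝ) :=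
      Finset.prod_pos fun l _ => by positivity
    have hnorm : ‖(∏ l : Fin d, ((M0 ^ ((l : ℕ) + 1) / (Qf s) + 1 : ℕ) : ℂ))‖ =
        ∏ l : Fin d, ((M0 ^ ((l : ℕ) + 1) / (Qf s) + 1 : ℕ) : ℝ) := by
      rw [norm_prod]
      refine Finset.prod_congr rfl fun l _ => ?_
      rw [Complex.norm_natCast]
    rw [hnorm, div_le_iff₀ hpos]
    refine (norm_sum_le _ _).trans ((Finset.sum_le_sum fun j _ => hB _).trans (le_of_eq ?_))
    rw [Finset.sum_const, Fintype.card_piFinset, nsmul_eq_mul, mul_comm]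
    congr 1
    push_cast
    refine Finset.prod_congr rfl fun l _ => ?_
    rw [Finset.card_range]
    push_cast
    rfl
  have hvB : ∀ k x, ‖v k x‖ ≤ 2 * B := by
    intro k x
    rw [hveq]
    unfold As
    rw [norm_div, Complex.norm_natCast]
    have h1 : ‖∑ n ∈ range (Nk u k), (F (T (gam d n) x) - Bs T M0 (Qf s) F (T (gam d n) x))‖ ≤
        (Nk u k : ℝ) * (2 * B) := by
      refine (norm_sum_le _ _).trans ((Finset.sum_le_sum (g := fun _ => 2 * B) fun n _ => ?_).trans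
        (le_of_eq ?_))
      · have h2 := norm_sub_le (F (T (gam d n) x)) (Bs T M0 (Qf s) F (T (gam d n) x))
        have h3 := hB (T (gam d n) x)
        have h4 := hBs (T (gam d n) x)
        linarith
      · rw [Finset.sum_const, Finset.card_range, nsmul_eq_mul]
    have hN : (0 : ℝ) < (Nk u k : ℝ) := by
      unfold Nk
      have : 0 < u * 2 ^ k := by positivity
      exact_mod_cast this
    rw [div_le_iff₀ hN, mul_comm]
    exact h1
  obtain ⟨H, hHm, hHb, hHi, hHk⟩ := sup_fun P v hvm (2 * B) (by linarith) hvB {k | K0 ≤ k}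
    ((C * (2 : ℝ) ^ (-(c * s))) ^ 2 * ∫ x, ‖F x‖ ^ 2 ∂P) (fun t ht => by
      refine SC_tr d t I (fun k => SD_phi (Qf s)) (fun k => SD_c (Nk u k) (Qf s) M0)
        (C * (2 : ℝ) ^ (-(c * s))) (by positivity) (fun R _ f => ?_) P T hT F hF B hB
      have h2 : (fun k (x : Fin d → ZMod R) => ∑ i ∈ I k, SD_c (Nk u k) (Qf s) M0 i *
          f (fun l => x l + (SD_phi (Qf s) i l : ZMod R))) =
          fun k => Ag (Nk u k) (fun x => f x - Bg M0 (Qf s) f x) := by
        funext k x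
        simp only [hI]
        rw [SD_exp (Nk u k) (Qf s) M0 (fun a => f (fun l => x l + (a l : ZMod R)))]
        unfold Ag Bg
        congr 1
        refine Finset.sum_congr rfl fun n _ => ?_
        congr 1
        · congr 1
          funext l
          simp [gam]
        · congr 1
          refine Finset.sum_congr rfl fun j _ => ?_
          congr 1
          funext l
          simp only [gam, Pi.add_apply]
          push_cast
          ring
      rw [h2]
      exact hK0 R t f fun k hk => ht k hk)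
  refine ⟨H, hHm, hHb, hHi, fun k hk x => ?_⟩
  rw [← hveq]
  exact hHk k hk x
/- END SD -/

/- MODULE SE -/
/-- Convergence by approximation. For del > 0 the set where limsup |v N x - c| > del is, for each
ep < del/2, contained up to a null set in {H > del/2}, of measure at most 4 ep/del^2 (Chebyshev). -/
theorem conv_approx (P : Measure Ω) [IsProbabilityMeasure P] (v : ℕ → Ω → ℂ) (c : ℂ)
    (hv : ∀ N, Measurable (v N))
    (h : ∀ ε : ℝ, 0 < ε → ∃ (v' : ℕ → Ω → ℂ) (c' : ℂ) (H : Ω → ℝ), ‖c - c'‖ ≤ ε ∧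
      Measurable H ∧ (∀ x, 0 ≤ H x) ∧ Integrable (fun x => H x ^ 2) P ∧ ∫ x, H x ^ 2 ∂P ≤ ε ∧
      (∀ᵐ x ∂P, Tendsto (fun N => v' N x) atTop (𝓝 c')) ∧
      ∀ᵐ x ∂P, ∀ N, ‖v N x - v' N x‖ ≤ H x) :
    ∀ᵐ x ∂P, Tendsto (fun N => v N x) atTop (𝓝 c) := by
  have key : ∀ δ : ℝ, 0 < δ → ∀ᵐ x ∂P, ∀ᶠ N in atTop, ‖v N x - c‖ ≤ δ := by
    intro δ hδ
    rw [ae_iff]
    have hb : ∀ ε : ℝ, 0 < ε → ε ≤ δ / 4 →
        P.real {x | ¬ ∀ᶠ N in atTop, ‖v N x - c‖ ≤ δ} ≤ 16 / δ ^ 2 * ε := by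
      intro ε hε hεδ
      obtain ⟨v', c', H, h1, h2, h3, h4, h5, h6, h7⟩ := h ε hε
      have h8 : ∀ᵐ x ∂P, x ∈ {x | ¬ ∀ᶠ N in atTop, ‖v N x - c‖ ≤ δ} →
          x ∈ {x | (δ / 4) ^ 2 ≤ H x ^ 2} := by
        filter_upwards [h6, h7] with x hx6 hx7 hbad
        by_contra hH
        apply hbad
        have hH2 : H x < δ / 4 := by
          by_contra hge
          push Not at hge
          exact hH (pow_le_pow_left₀ (by linarith) hge 2)
        have h9 : ∀ᶠ N in atTop, ‖v' N x - c'‖ < δ / 4 := by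
          have := (Metric.tendsto_nhds.mp hx6) (δ / 4) (by linarith)
          simpa [dist_eq_norm] using this
        filter_upwards [h9] with N hN
        have h10 : v N x - c = (v N x - v' N x) + (v' N x - c') - (c - c') := by ring
        rw [h10]
        have h11 := norm_sub_le ((v N x - v' N x) + (v' N x - c')) (c - c')
        have h12 := norm_add_le (v N x - v' N x) (v' N x - c')
        have h13 := hx7 N
        linarith
      have h9 : P.real {x | ¬ ∀ᶠ N in atTop, ‖v N x - c‖ ≤ δ} ≤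
          P.real {x | (δ / 4) ^ 2 ≤ H x ^ 2} :=
        ENNReal.toReal_mono (measure_ne_top _ _) (measure_mono_ae h8)
      have h10 := mul_meas_ge_le_integral_of_nonneg (μ := P) (f := fun x => H x ^ 2)
        (Eventually.of_forall fun x => sq_nonneg _) h4 ((δ / 4) ^ 2)
      have hδ2 : 0 < δ ^ 2 := by positivity
      rw [div_mul_eq_mul_div, le_div_iff₀ hδ2]
      have h11 : (δ / 4) ^ 2 * P.real {x | ¬ ∀ᶠ N in atTop, ‖v N x - c‖ ≤ δ} ≤ ε :=
        (mul_le_mul_of_nonneg_left h9 (by positivity)).trans (h10.trans h5)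
      linarith
    have h0 : P.real {x | ¬ ∀ᶠ N in atTop, ‖v N x - c‖ ≤ δ} = 0 := by
      refine le_antisymm ?_ measureReal_nonneg
      refine le_of_forall_pos_le_add fun η hη => ?_
      rw [zero_add]
      have hK : 0 < 16 / δ ^ 2 := by positivity
      refine (hb (min (δ / 4) (η / (16 / δ ^ 2))) (lt_min (by linarith) (by positivity))
        (min_le_left _ _)).trans ?_
      calc 16 / δ ^ 2 * min (δ / 4) (η / (16 / δ ^ 2)) ≤ 16 / δ ^ 2 * (η / (16 / δ ^ 2)) :=
            mul_le_mul_of_nonneg_left (min_le_right _ _) hK.le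
        _ = η := by field_simp
    rcases (ENNReal.toReal_eq_zero_iff _).mp h0 with h1 | h1
    · exact h1
    · exact absurd h1 (measure_ne_top _ _)
  have key2 : ∀ᵐ x ∂P, ∀ m : ℕ, ∀ᶠ N in atTop, ‖v N x - c‖ ≤ 1 / ((m : ℝ) + 1) :=
    ae_all_iff.mpr fun m => key _ (by positivity)
  filter_upwards [key2] with x hx
  rw [Metric.tendsto_nhds]
  intro ε hε
  obtain ⟨m, hm⟩ := exists_nat_one_div_lt hε
  filter_upwards [hx m] with N hN
  rw [dist_eq_norm]
  exact lt_of_le_of_lt hN hm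
/- END SE -/

/- MODULE SF -/
private theorem SF_meas_Bs {d : ℕ} {P : Measure Ω} {T : (Fin d → ℤ) → Ω → Ω} (hT : Act d P T)
    (F : Ω → ℂ) (hF : Measurable F) (M0 Q : ℕ) : Measurable (Bs T M0 Q F) := by
  unfold Bs
  exact (Finset.measurable_sum _ fun j _ => hF.comp (hT.mp _).measurable).div_const _

private theorem SF_meas_As {d : ℕ} {P : Measure Ω} {T : (Fin d → ℤ) → Ω → Ω} (hT : Act d P T)
    (F : Ω → ℂ) (hF : Measurable F) (N : ℕ) : Measurable (As T N F) := by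
  unfold As
  exact (Finset.measurable_sum _ fun j _ => hF.comp (hT.mp _).measurable).div_const _

omit [MeasurableSpace Ω] in
private theorem SF_Bs_le {d : ℕ} (T : (Fin d → ℤ) → Ω → Ω) (F : Ω → ℂ) (B : ℝ)
    (hB : ∀ x, ‖F x‖ ≤ B) (M0 Q : ℕ) (y : Ω) : ‖Bs T M0 Q F y‖ ≤ B := by
  unfold Bs
  rw [norm_div]
  have hpos : (0 : ℝ) < ∏ l : Fin d, ((M0 ^ ((l : ℕ) + 1) / Q + 1 : ℕ) : ℝ) :=
    Finset.prod_pos fun l _ => by positivity
  have hnorm : ‖(∏ l : Fin d, ((M0 ^ ((l : ℕ) + 1) / Q + 1 : ℕ) : ℂ))‖ =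
      ∏ l : Fin d, ((M0 ^ ((l : ℕ) + 1) / Q + 1 : ℕ) : ℝ) := by
    rw [norm_prod]
    refine Finset.prod_congr rfl fun l _ => ?_
    rw [Complex.norm_natCast]
  rw [hnorm, div_le_iff₀ hpos]
  refine (norm_sum_le _ _).trans ((Finset.sum_le_sum fun j _ => hB _).trans (le_of_eq ?_))
  rw [Finset.sum_const, Fintype.card_piFinset, nsmul_eq_mul, mul_comm]
  congr 1
  push_cast
  refine Finset.prod_congr rfl fun l _ => ?_
  rw [Finset.card_range]
  push_cast
  rfl

/-- Scales Nk u k. For ep choose s with (C 2^(-c s))^2 B^2 small, M0 with int |Bs M0 (Qf s) F|^2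
small; for k ≥ K0: |As F| ≤ (average of |Bs M0 (Qf s) F|) + |As (F - Bs F)| ≤ H1 + H2 (maximal_sys for
|Bs .. F|, decay_sys). conv_approx with v' k = v k for k < K0, 0 otherwise, c = c' = 0. -/
theorem conv_scales (d u : ℕ) (hu : 1 ≤ u) (P : Measure Ω) [IsProbabilityMeasure P]
    (T : (Fin d → ℤ) → Ω → Ω) (hT : Act d P T) (F : Ω → ℂ) (hF : Measurable F) (B : ℝ)
    (hB : ∀ x, ‖F x‖ ≤ B)
    (h : ∀ Q : ℕ, 1 ≤ Q → Tendsto (fun M0 => ∫ x, ‖Bs T M0 Q F x‖ ^ 2 ∂P) atTop (𝓝 0)) :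
    ∀ᵐ x ∂P, Tendsto (fun k => As T (Nk u k) F x) atTop (𝓝 0) := by
  obtain ⟨C1, hC1, hmax⟩ := maximal_sys (Ω := Ω) d
  obtain ⟨C, c, i0, hC, hc, hdec⟩ := decay_sys (Ω := Ω) d u hu
  refine conv_approx P (fun k x => As T (Nk u k) F x) 0 (fun k => SF_meas_As hT F hF _) ?_
  intro ε hε
  have hpow : Tendsto (fun s : ℕ => 2 * ((C * (2 : ℝ) ^ (-(c * (s : ℝ)))) ^ 2 *
      ∫ x, ‖F x‖ ^ 2 ∂P)) atTop (𝓝 0) := by
    have h1 : Tendsto (fun s : ℕ => ((2 : ℝ) ^ (-c)) ^ s) atTop (𝓝 0) :=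
      tendsto_pow_atTop_nhds_zero_of_lt_one (by positivity)
        (Real.rpow_lt_one_of_one_lt_of_neg one_lt_two (by linarith))
    have h2 : (fun s : ℕ => (2 : ℝ) ^ (-(c * (s : ℝ)))) = fun s : ℕ => ((2 : ℝ) ^ (-c)) ^ s := by
      funext s
      rw [← neg_mul, Real.rpow_mul zero_le_two, Real.rpow_natCast]
    have h3 : Tendsto (fun s : ℕ => (2 : ℝ) ^ (-(c * (s : ℝ)))) atTop (𝓝 0) := by rw [h2]; exact h1
    have h4 := (((h3.const_mul C).pow 2).mul_const (∫ x, ‖F x‖ ^ 2 ∂P)).const_mul 2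
    simpa using h4
  obtain ⟨s, hs1, hs2⟩ : ∃ s : ℕ, i0 ≤ s ∧ 2 * ((C * (2 : ℝ) ^ (-(c * (s : ℝ)))) ^ 2 *
      ∫ x, ‖F x‖ ^ 2 ∂P) ≤ ε / 2 := by
    have h1 := (hpow.eventually_le_const (show (0 : ℝ) < ε / 2 by linarith)).and
      (eventually_ge_atTop i0)
    obtain ⟨s, hs⟩ := h1.exists
    exact ⟨s, hs.2, hs.1⟩
  have hQ : 1 ≤ Qf s := Nat.factorial_pos _
  obtain ⟨M0, hM1, hM2⟩ : ∃ M0 : ℕ, 1 ≤ M0 ∧ 2 * (C1 * ∫ x, ‖Bs T M0 (Qf s) F x‖ ^ 2 ∂P) ≤ ε / 2 := by
    have h0 : Tendsto (fun M0 => 2 * (C1 * ∫ x, ‖Bs T M0 (Qf s) F x‖ ^ 2 ∂P)) atTop (𝓝 0) := by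
      have := ((h (Qf s) hQ).const_mul C1).const_mul 2
      simpa using this
    have h1 := (h0.eventually_le_const (show (0 : ℝ) < ε / 2 by linarith)).and
      (eventually_ge_atTop 1)
    obtain ⟨M0, hM⟩ := h1.exists
    exact ⟨M0, hM.2, hM.1⟩
  obtain ⟨K0, hK0⟩ := hdec s hs1 M0 hM1
  obtain ⟨H2, hH2m, hH2b, hH2i, hH2k⟩ := hK0 P T hT F hF B hB
  obtain ⟨H1, hH1m, hH1b, hH1i, hH1k⟩ := hmax P T hT (fun x => ‖Bs T M0 (Qf s) F x‖)
    (SF_meas_Bs hT F hF _ _).norm B (fun x => ⟨norm_nonneg _, SF_Bs_le T F B hB _ _ x⟩)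
  have hint1 : Integrable (fun x => 2 * H1 x ^ 2) P :=
    Integrable.of_bound ((hH1m.pow_const 2).const_mul 2).aestronglyMeasurable (2 * B ^ 2)
      (Eventually.of_forall fun x => by
        rw [Real.norm_of_nonneg (by positivity)]
        have := pow_le_pow_left₀ (hH1b x).1 (hH1b x).2 2
        linarith)
  have hint2 : Integrable (fun x => 2 * H2 x ^ 2) P :=
    Integrable.of_bound ((hH2m.pow_const 2).const_mul 2).aestronglyMeasurable (2 * (2 * B) ^ 2)
      (Eventually.of_forall fun x => by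
        rw [Real.norm_of_nonneg (by positivity)]
        have := pow_le_pow_left₀ (hH2b x).1 (hH2b x).2 2
        linarith)
  have hint : Integrable (fun x => (H1 x + H2 x) ^ 2) P := by
    refine Integrable.mono' (hint1.add hint2) ((hH1m.add hH2m).pow_const 2).aestronglyMeasurable ?_
    refine Eventually.of_forall fun x => ?_
    rw [Real.norm_of_nonneg (sq_nonneg _), Pi.add_apply]
    nlinarith [sq_nonneg (H1 x - H2 x)]
  refine ⟨fun k x => if K0 ≤ k then 0 else As T (Nk u k) F x, 0, fun x => H1 x + H2 x,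
    by rw [sub_zero, norm_zero]; exact hε.le, hH1m.add hH2m,
    fun x => add_nonneg (hH1b x).1 (hH2b x).1, hint, ?_, ?_, ?_⟩
  · have h1 : ∫ x, (H1 x + H2 x) ^ 2 ∂P ≤ ∫ x, (2 * H1 x ^ 2 + 2 * H2 x ^ 2) ∂P := by
      refine integral_mono hint (hint1.add hint2) fun x => ?_
      simp only
      nlinarith [sq_nonneg (H1 x - H2 x)]
    rw [integral_add hint1 hint2, integral_const_mul, integral_const_mul] at h1
    linarith
  · refine Eventually.of_forall fun x => ?_
    refine tendsto_const_nhds.congr' ?_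
    filter_upwards [eventually_ge_atTop K0] with k hk
    rw [if_pos hk]
  · refine Eventually.of_forall fun x k => ?_
    change ‖As T (Nk u k) F x - (if K0 ≤ k then 0 else As T (Nk u k) F x)‖ ≤ H1 x + H2 x
    by_cases hk : K0 ≤ k
    · rw [if_pos hk, sub_zero]
      have h1 : As T (Nk u k) F x = As T (Nk u k) (Bs T M0 (Qf s) F) x +
          As T (Nk u k) (fun y => F y - Bs T M0 (Qf s) F y) x := by
        unfold As
        rw [← add_div, ← Finset.sum_add_distrib]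
        congr 1
        refine Finset.sum_congr rfl fun n _ => ?_
        ring
      rw [h1]
      refine (norm_add_le _ _).trans (add_le_add ?_ (hH2k k hk x))
      refine le_trans ?_ (hH1k (Nk u k) x)
      unfold As
      rw [norm_div, Complex.norm_natCast]
      exact div_le_div_of_nonneg_right (norm_sum_le _ _) (Nat.cast_nonneg _)
    · rw [if_neg hk, sub_self, norm_zero]
      exact add_nonneg (hH1b x).1 (hH2b x).1

/-- All N. For m ≥ 1 and N large choose k with m 2^k ≤ N < 2 m 2^k and u = N/2^k in [m, 2m):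
|As N F - As (u 2^k) F| ≤ 2 B/m (there are at most 2^k ≤ N/m further terms). Countable
intersection over u. -/
theorem conv_sys (d : ℕ) (P : Measure Ω) [IsProbabilityMeasure P]
    (T : (Fin d → ℤ) → Ω → Ω) (hT : Act d P T) (F : Ω → ℂ) (hF : Measurable F) (B : ℝ)
    (hB : ∀ x, ‖F x‖ ≤ B)
    (h : ∀ Q : ℕ, 1 ≤ Q → Tendsto (fun M0 => ∫ x, ‖Bs T M0 Q F x‖ ^ 2 ∂P) atTop (𝓝 0)) :
    ∀ᵐ x ∂P, Tendsto (fun N => As T N F x) atTop (𝓝 0) := by
  have hall : ∀ᵐ x ∂P, ∀ u : ℕ, 1 ≤ u → Tendsto (fun k => As T (Nk u k) F x) atTop (𝓝 0) := by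
    rw [ae_all_iff]
    intro u
    by_cases hu : 1 ≤ u
    · filter_upwards [conv_scales d u hu P T hT F hF B hB h] with x hx _
      exact hx
    · exact Eventually.of_forall fun x hu' => absurd hu' hu
  filter_upwards [hall] with x hx
  have hB0 : 0 ≤ B := (norm_nonneg _).trans (hB x)
  rw [Metric.tendsto_atTop]
  intro ε hε
  obtain ⟨m, hm⟩ := exists_nat_gt (2 * B / ε)
  have hm1 : (0 : ℝ) < m := lt_of_le_of_lt (by positivity) hm
  have hm0 : 1 ≤ m := by
    have : 0 < m := by exact_mod_cast hm1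
    exact this
  have hmB : B / m < ε / 2 := by
    rw [div_lt_iff₀ hε] at hm
    rw [div_lt_iff₀ hm1]
    linarith
  have hev : ∀ᶠ k in atTop, ∀ u ∈ Finset.Ico m (2 * m), ‖As T (Nk u k) F x‖ < ε / 2 := by
    rw [Filter.eventually_all_finset]
    intro u hu
    have hu1 : 1 ≤ u := hm0.trans (Finset.mem_Ico.mp hu).1
    have := Metric.tendsto_nhds.mp (hx u hu1) (ε / 2) (by linarith)
    filter_upwards [this] with k hk
    rwa [dist_zero_right] at hk
  obtain ⟨K, hK⟩ := eventually_atTop.mp hev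
  refine ⟨m * 2 ^ K, fun N hN => ?_⟩
  rw [dist_zero_right]
  have hNm : 2 ^ K ≤ N / m := (Nat.le_div_iff_mul_le (by omega)).mpr (by rw [mul_comm]; exact hN)
  have hNm0 : N / m ≠ 0 := by
    have : 0 < 2 ^ K := by positivity
    omega
  set k := Nat.log 2 (N / m) with hk
  have hk1 : 2 ^ k ≤ N / m := Nat.pow_log_le_self 2 hNm0
  have hk2 : N / m < 2 ^ (k + 1) := Nat.lt_pow_succ_log_self (by norm_num) _
  have hkK : K ≤ k := Nat.le_log_of_pow_le (by norm_num) hNm
  have hk3 : m * 2 ^ k ≤ N := by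
    have := (Nat.le_div_iff_mul_le (show 0 < m by omega)).mp hk1
    rw [mul_comm]
    exact this
  have hk4 : N < 2 * m * 2 ^ k := by
    have := (Nat.div_lt_iff_lt_mul (show 0 < m by omega)).mp hk2
    rw [pow_succ] at this
    linarith [this, mul_comm (2 ^ k * 2) m, mul_assoc m (2 ^ k) 2,
      show 2 ^ k * 2 * m = 2 * m * 2 ^ k by ring]
  have h2k : 0 < 2 ^ k := by positivity
  set u := N / 2 ^ k with hu
  have hu1 : m ≤ u := (Nat.le_div_iff_mul_le h2k).mpr hk3
  have hu2 : u < 2 * m := (Nat.div_lt_iff_lt_mul h2k).mpr hk4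
  have hu3 : Nk u k ≤ N := by
    unfold Nk
    exact Nat.div_mul_le_self N (2 ^ k)
  have hu4 : N - Nk u k ≤ 2 ^ k := by
    unfold Nk
    have := Nat.lt_div_mul_add h2k (a := N)
    rw [← hu] at this
    omega
  have hM0 : (0 : ℝ) < (Nk u k : ℝ) := by
    have : 0 < Nk u k := by
      unfold Nk
      exact Nat.mul_pos (by omega) h2k
    exact_mod_cast this
  have hMN : (Nk u k : ℝ) ≤ (N : ℝ) := by exact_mod_cast hu3
  have hN0 : (0 : ℝ) < (N : ℝ) := lt_of_lt_of_le hM0 hMN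
  have h1 := hK k hkK u (Finset.mem_Ico.mpr ⟨hu1, hu2⟩)
  have h2 : ‖∑ n ∈ range N, F (T (gam d n) x)‖ ≤
      ‖∑ n ∈ range (Nk u k), F (T (gam d n) x)‖ + (2 ^ k : ℝ) * B := by
    rw [← Finset.sum_range_add_sum_Ico _ hu3]
    refine (norm_add_le _ _).trans (by
      have h3 : ‖∑ n ∈ Finset.Ico (Nk u k) N, F (T (gam d n) x)‖ ≤ ((N - Nk u k : ℕ) : ℝ) * B := by
        refine (norm_sum_le _ _).trans ((Finset.sum_le_sum fun n _ => hB _).trans (le_of_eq ?_))
        rw [Finset.sum_const, Nat.card_Ico, nsmul_eq_mul]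
      have h4 : ((N - Nk u k : ℕ) : ℝ) * B ≤ (2 ^ k : ℝ) * B :=
        mul_le_mul_of_nonneg_right (by exact_mod_cast hu4) hB0
      linarith)
  have h3 : ‖As T N F x‖ ≤ ‖As T (Nk u k) F x‖ + B / m := by
    unfold As
    rw [norm_div, norm_div, Complex.norm_natCast, Complex.norm_natCast]
    have h5 : ‖∑ n ∈ range N, F (T (gam d n) x)‖ / (N : ℝ) ≤
        ‖∑ n ∈ range (Nk u k), F (T (gam d n) x)‖ / (N : ℝ) + (2 ^ k : ℝ) * B / (N : ℝ) := by
      rw [← add_div]
      exact div_le_div_of_nonneg_right h2 hN0.le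
    have h6 : ‖∑ n ∈ range (Nk u k), F (T (gam d n) x)‖ / (N : ℝ) ≤
        ‖∑ n ∈ range (Nk u k), F (T (gam d n) x)‖ / (Nk u k : ℝ) :=
      div_le_div_of_nonneg_left (norm_nonneg _) hM0 hMN
    have h7 : (2 ^ k : ℝ) * B / (N : ℝ) ≤ B / m := by
      rw [div_le_div_iff₀ hN0 hm1]
      have h8 : (m : ℝ) * 2 ^ k ≤ N := by exact_mod_cast hk3
      nlinarith
    linarith
  linarith
/- END SF -/

end Pool.Agent.GsF
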