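import Pool.Agent.GsF.SDefs
import Pool.Agent.GsF.Sys

/-!
Gaussian systems: exponentials, decay of correlations in density, the product system.
-/

namespace Pool.Agent.GsF

open Finset MeasureTheory Filter Topology ProbabilityTheory Polynomial

/-- e^(i x) -/
noncomputable def ei (x : ℝ) : ℂ := Complex.exp ((x : ℂ) * Complex.I)

variable {W : Type*} [MeasurableSpace W]

/-- linear form in the variables X_i o R^n -/
noncomputable def LF (R : W ≃ᵐ W) (X : ℕ → W → ℝ) (c : (ℕ × ℤ) →₀ ℝ) (w : W) : ℝ :=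
  c.sum fun q t => t * X q.1 (pw R q.2 w)

/-- shift of the coefficients -/
noncomputable def sh (m : ℤ) (c : (ℕ × ℤ) →₀ ℝ) : (ℕ × ℤ) →₀ ℝ :=
  c.mapDomain (fun q => (q.1, q.2 + m))

/-- variance -/
noncomputable def vv (ω : Measure W) (R : W ≃ᵐ W) (X : ℕ → W → ℝ) (c : (ℕ × ℤ) →₀ ℝ) : ℝ :=
  ∫ w, LF R X c w ^ 2 ∂ω

/-- correlation -/
noncomputable def rr (ω : Measure W) (R : W ≃ᵐ W) (X : ℕ → W → ℝ) (c c' : (ℕ × ℤ) →₀ ℝ) (n : ℤ) :
    ℝ := ∫ w, LF R X c (pw R n w) * LF R X c' w ∂ω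

/- MODULE GA0 -/
theorem pw_zero (R : W ≃ᵐ W) (w : W) : pw R 0 w = w := by
  simp [pw]

theorem pw_one (R : W ≃ᵐ W) (w : W) : pw R 1 w = R w := by
  simp [pw]

theorem pw_add (R : W ≃ᵐ W) (m n : ℤ) (w : W) : pw R (m + n) w = pw R m (pw R n w) := by
  unfold pw
  rw [zpow_add, Equiv.Perm.mul_apply]

private theorem GA0_neg (R : W ≃ᵐ W) : pw R (-1) = ⇑R.symm := by
  funext w
  simp [pw, Equiv.Perm.inv_def]

private theorem GA0_step (R : W ≃ᵐ W) (n : ℕ) : pw R ((n + 1 : ℕ) : ℤ) = pw R (n : ℤ) ∘ R := by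
  funext w
  rw [Nat.cast_succ, pw_add, pw_one]
  rfl

private theorem GA0_step' (R : W ≃ᵐ W) (n : ℕ) :
    pw R (-((n + 1 : ℕ) : ℤ)) = pw R (-(n : ℤ)) ∘ R.symm := by
  funext w
  rw [Nat.cast_succ, neg_add, pw_add, GA0_neg]
  rfl

theorem pw_meas (R : W ≃ᵐ W) (n : ℤ) : Measurable (pw R n) := by
  obtain ⟨m, rfl | rfl⟩ := n.eq_nat_or_neg
  · induction m with
    | zero =>
      have : pw R ((0 : ℕ) : ℤ) = id := by
        funext w
        exact pw_zero R w
      rw [this]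
      exact measurable_id
    | succ m ih => rw [GA0_step]; exact ih.comp R.measurable
  · induction m with
    | zero =>
      have : pw R (-((0 : ℕ) : ℤ)) = id := by
        funext w
        rw [Nat.cast_zero, neg_zero]
        exact pw_zero R w
      rw [this]
      exact measurable_id
    | succ m ih => rw [GA0_step']; exact ih.comp R.symm.measurable

theorem pw_mp (ω : Measure W) (R : W ≃ᵐ W) (h : MeasurePreserving R ω ω) (n : ℤ) :
    MeasurePreserving (pw R n) ω ω := by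
  obtain ⟨m, rfl | rfl⟩ := n.eq_nat_or_neg
  · induction m with
    | zero =>
      have : pw R ((0 : ℕ) : ℤ) = id := by
        funext w
        exact pw_zero R w
      rw [this]
      exact MeasurePreserving.id ω
    | succ m ih => rw [GA0_step]; exact ih.comp h
  · induction m with
    | zero =>
      have : pw R (-((0 : ℕ) : ℤ)) = id := by
        funext w
        rw [Nat.cast_zero, neg_zero]
        exact pw_zero R w
      rw [this]
      exact MeasurePreserving.id ω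
    | succ m ih => rw [GA0_step']; exact ih.comp (h.symm R)

theorem norm_ei (x : ℝ) : ‖ei x‖ = 1 :=
  Complex.norm_exp_ofReal_mul_I x

theorem ei_add (x y : ℝ) : ei (x + y) = ei x * ei y := by
  unfold ei
  rw [← Complex.exp_add]
  congr 1
  push_cast
  ring

theorem ei_neg (x : ℝ) : ei (-x) = (starRingEnd ℂ) (ei x) := by
  unfold ei
  rw [← Complex.exp_conj]
  congr 1
  rw [map_mul, Complex.conj_I, Complex.conj_ofReal]
  push_cast
  ring

theorem ei_sum {ι : Type*} (s : Finset ι) (f : ι → ℝ) : ei (∑ i ∈ s, f i) = ∏ i ∈ s, ei (f i) := by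
  classical
  induction s using Finset.induction_on with
  | empty => simp [ei]
  | insert a s ha ih => rw [Finset.sum_insert ha, Finset.prod_insert ha, ei_add, ih]

theorem ei_cont : Continuous ei := by
  unfold ei
  fun_prop
/- END GA0 -/

/- MODULE GA1 -/
theorem LF_add (R : W ≃ᵐ W) (X : ℕ → W → ℝ) (c c' : (ℕ × ℤ) →₀ ℝ) (w : W) :
    LF R X (c + c') w = LF R X c w + LF R X c' w := by
  unfold LF
  exact Finsupp.sum_add_index' (fun _ => zero_mul _) (fun _ _ _ => add_mul _ _ _)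

theorem LF_smul (R : W ≃ᵐ W) (X : ℕ → W → ℝ) (t : ℝ) (c : (ℕ × ℤ) →₀ ℝ) (w : W) :
    LF R X (t • c) w = t * LF R X c w := by
  unfold LF
  rw [Finsupp.sum_smul_index (fun _ => zero_mul _), Finsupp.mul_sum]
  exact Finsupp.sum_congr fun q _ => mul_assoc _ _ _

theorem LF_sub (R : W ≃ᵐ W) (X : ℕ → W → ℝ) (c c' : (ℕ × ℤ) →₀ ℝ) (w : W) :
    LF R X (c - c') w = LF R X c w - LF R X c' w := by
  unfold LF
  exact Finsupp.sum_sub_index (fun _ _ _ => sub_mul _ _ _)

theorem LF_sum {ι : Type*} (R : W ≃ᵐ W) (X : ℕ → W → ℝ) (s : Finset ι) (c : ι → (ℕ × ℤ) →₀ ℝ)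
    (w : W) : LF R X (∑ i ∈ s, c i) w = ∑ i ∈ s, LF R X (c i) w := by
  classical
  induction s using Finset.induction_on with
  | empty =>
    rw [Finset.sum_empty, Finset.sum_empty]
    exact Finsupp.sum_zero_index
  | insert a s ha ih => rw [Finset.sum_insert ha, Finset.sum_insert ha, LF_add, ih]

theorem LF_sh (R : W ≃ᵐ W) (X : ℕ → W → ℝ) (m : ℤ) (c : (ℕ × ℤ) →₀ ℝ) (w : W) :
    LF R X (sh m c) w = LF R X c (pw R m w) := by
  unfold LF sh
  rw [Finsupp.sum_mapDomain_index (fun _ => zero_mul _) (fun _ _ _ => add_mul _ _ _)]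
  refine Finsupp.sum_congr fun q _ => ?_
  rw [pw_add]

theorem LF_meas {ω : Measure W} {R : W ≃ᵐ W} {X : ℕ → W → ℝ} (h : GSys ω R X)
    (c : (ℕ × ℤ) →₀ ℝ) : Measurable (LF R X c) := by
  unfold LF Finsupp.sum
  exact Finset.measurable_fun_sum _ fun q _ =>
    ((h.meas q.1).comp (pw_meas R q.2)).const_mul _

private theorem GA1_gauss {ω : Measure W} {R : W ≃ᵐ W} {X : ℕ → W → ℝ} (h : GSys ω R X)
    (c : (ℕ × ℤ) →₀ ℝ) : HasGaussianLaw (LF R X c) ω :=
  (h.gauss.smul (fun q => c q)).hasGaussianLaw_fun_sum (I := c.support)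

/-- linear combinations of a Gaussian process are Gaussian -/
theorem LF_memLp {ω : Measure W} {R : W ≃ᵐ W} {X : ℕ → W → ℝ} (h : GSys ω R X)
    (c : (ℕ × ℤ) →₀ ℝ) : MemLp (LF R X c) 2 ω :=
  (GA1_gauss h c).memLp_two

private theorem GA1_pw {G : Type*} [NormedAddCommGroup G] [NormedSpace ℝ G] {ω : Measure W}
    {R : W ≃ᵐ W} (h : MeasurePreserving R ω ω) (n : ℤ) {F : W → G}
    (hF : AEStronglyMeasurable F ω) : ∫ w, F (pw R n w) ∂ω = ∫ w, F w ∂ω := by
  have h1 := pw_mp ω R h n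
  conv_rhs => rw [← h1.map_eq]
  rw [integral_map h1.measurable.aemeasurable (by rw [h1.map_eq]; exact hF)]

private theorem GA1_mean {ω : Measure W} {R : W ≃ᵐ W} {X : ℕ → W → ℝ} (h : GSys ω R X)
    (c : (ℕ × ℤ) →₀ ℝ) : ∫ w, LF R X c w ∂ω = 0 := by
  unfold LF Finsupp.sum
  rw [integral_finsetSum]
  · refine Finset.sum_eq_zero fun q _ => ?_
    rw [integral_const_mul, GA1_pw h.erg.toMeasurePreserving q.2
      (h.meas q.1).aestronglyMeasurable, h.mean, mul_zero]
  · intro q _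
    exact ((h.gauss.hasGaussianLaw_eval q).integrable).const_mul _

/-- CHARACTERISTIC FUNCTION: LF c has law gaussianReal 0 (vv c) -/
theorem int_ei {ω : Measure W} {R : W ≃ᵐ W} {X : ℕ → W → ℝ} (h : GSys ω R X)
    (c : (ℕ × ℤ) →₀ ℝ) : ∫ w, ei (LF R X c w) ∂ω = (Real.exp (-(vv ω R X c) / 2) : ℂ) := by
  have h1 := (GA1_gauss h c).map_eq_gaussianReal
  have h2 : Var[LF R X c; ω] = vv ω R X c := by
    rw [variance_of_integral_eq_zero (LF_meas h c).aemeasurable (GA1_mean h c)]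
    rfl
  have h3 : ∫ w, ei (LF R X c w) ∂ω = ∫ x, ei x ∂(ω.map (LF R X c)) := by
    rw [integral_map (LF_meas h c).aemeasurable ei_cont.aestronglyMeasurable]
  have hv : 0 ≤ vv ω R X c := integral_nonneg fun _ => sq_nonneg _
  rw [h3, h1, GA1_mean h c, h2]
  have h4 := charFun_gaussianReal (μ := 0) (v := (vv ω R X c).toNNReal) 1
  rw [charFun_apply_real] at h4
  have h5 : ∫ x, ei x ∂(gaussianReal 0 (vv ω R X c).toNNReal) =
      ∫ x : ℝ, Complex.exp (((1 : ℝ) : ℂ) * x * Complex.I)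
        ∂(gaussianReal 0 (vv ω R X c).toNNReal) := by
    refine integral_congr_ae (Filter.Eventually.of_forall fun x => ?_)
    simp [ei]
  rw [h5, h4, Real.coe_toNNReal _ hv, Complex.ofReal_exp]
  congr 1
  push_cast
  ring
/- END GA1 -/

/- MODULE GA2 -/
theorem vv_nonneg (ω : Measure W) (R : W ≃ᵐ W) (X : ℕ → W → ℝ) (c : (ℕ × ℤ) →₀ ℝ) :
    0 ≤ vv ω R X c :=
  integral_nonneg fun _ => sq_nonneg _

theorem vv_sh {ω : Measure W} {R : W ≃ᵐ W} {X : ℕ → W → ℝ} (h : GSys ω R X) (m : ℤ)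
    (c : (ℕ × ℤ) →₀ ℝ) : vv ω R X (sh m c) = vv ω R X c := by
  unfold vv
  simp only [LF_sh]
  exact GA1_pw h.erg.toMeasurePreserving m (F := fun w => LF R X c w ^ 2)
    ((LF_meas h c).pow_const 2).aestronglyMeasurable

theorem vv_smul (ω : Measure W) (R : W ≃ᵐ W) (X : ℕ → W → ℝ) (t : ℝ) (c : (ℕ × ℤ) →₀ ℝ) :
    vv ω R X (t • c) = t ^ 2 * vv ω R X c := by
  unfold vv
  simp only [LF_smul, mul_pow]
  rw [integral_const_mul]

/-- rr (m - n) is the correlation of the shifts -/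
theorem rr_sh {ω : Measure W} {R : W ≃ᵐ W} {X : ℕ → W → ℝ} (h : GSys ω R X) (m n : ℤ)
    (c c' : (ℕ × ℤ) →₀ ℝ) :
    ∫ w, LF R X (sh m c) w * LF R X (sh n c') w ∂ω = rr ω R X c c' (m - n) := by
  unfold rr
  simp only [LF_sh]
  have h1 := GA1_pw h.erg.toMeasurePreserving n
    (F := fun w => LF R X c (pw R (m - n) w) * LF R X c' w)
    (((LF_meas h c).comp (pw_meas R _)).mul (LF_meas h c')).aestronglyMeasurable
  rw [← h1]
  refine integral_congr_ae (Filter.Eventually.of_forall fun w => ?_)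
  simp only
  rw [← pw_add, sub_add_cancel]

private theorem GA2_int {ω : Measure W} {R : W ≃ᵐ W} {X : ℕ → W → ℝ} (h : GSys ω R X)
    (c c' : (ℕ × ℤ) →₀ ℝ) : Integrable (fun w => LF R X c w * LF R X c' w) ω :=
  (LF_memLp h c).integrable_mul (LF_memLp h c')

private theorem GA2_rr {ω : Measure W} {R : W ≃ᵐ W} {X : ℕ → W → ℝ} (h : GSys ω R X)
    (c c' : (ℕ × ℤ) →₀ ℝ) (n : ℤ) :
    rr ω R X c c' n = ∫ w, LF R X (sh n c) w * LF R X c' w ∂ω := by
  unfold rr
  simp only [LF_sh]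

private theorem GA2_sub {ω : Measure W} {R : W ≃ᵐ W} {X : ℕ → W → ℝ} (h : GSys ω R X)
    (c c' : (ℕ × ℤ) →₀ ℝ) : vv ω R X (c - c') = vv ω R X c + vv ω R X c' -
      2 * ∫ w, LF R X c w * LF R X c' w ∂ω := by
  unfold vv
  have e1 : ∀ w, LF R X (c - c') w ^ 2 = LF R X c w * LF R X c w + LF R X c' w * LF R X c' w -
      2 * (LF R X c w * LF R X c' w) := fun w => by
    rw [LF_sub]
    ring
  have i1 : Integrable (fun w => LF R X c w * LF R X c w + LF R X c' w * LF R X c' w) ω :=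
    (GA2_int h c c).add (GA2_int h c' c')
  simp only [e1]
  rw [integral_sub i1 ((GA2_int h c c').const_mul 2),
    integral_add (GA2_int h c c) (GA2_int h c' c'), integral_const_mul]
  simp only [sq]

/-- |rr| ≤ (vv c + vv c')/2 -/
theorem rr_le {ω : Measure W} {R : W ≃ᵐ W} {X : ℕ → W → ℝ} (h : GSys ω R X)
    (c c' : (ℕ × ℤ) →₀ ℝ) (n : ℤ) : |rr ω R X c c' n| ≤ (vv ω R X c + vv ω R X c') / 2 := by
  have h1 := GA2_sub h (sh n c) c'
  have h2 := vv_nonneg ω R X (sh n c - c')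
  have h3 := GA2_sub h (sh n c) ((-1 : ℝ) • c')
  have h4 := vv_nonneg ω R X (sh n c - (-1 : ℝ) • c')
  rw [vv_sh h, ← GA2_rr h] at h1
  rw [vv_sh h, vv_smul] at h3
  simp only [LF_smul] at h3
  have h5 : ∫ w, LF R X (sh n c) w * (-1 * LF R X c' w) ∂ω = - rr ω R X c c' n := by
    rw [GA2_rr h, ← integral_neg]
    refine integral_congr_ae (Filter.Eventually.of_forall fun w => ?_)
    simp only
    ring
  rw [h5] at h3
  rw [abs_le]
  constructor <;> linarith

theorem rr_neg (ω : Measure W) (R : W ≃ᵐ W) (X : ℕ → W → ℝ)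
    (c c' : (ℕ × ℤ) →₀ ℝ) (n : ℤ) : rr ω R X c (-c') n = - rr ω R X c c' n := by
  unfold rr
  rw [← integral_neg]
  refine integral_congr_ae (Filter.Eventually.of_forall fun w => ?_)
  have h1 : LF R X (-c') w = - LF R X c' w := by
    rw [← neg_one_smul ℝ c', LF_smul, neg_one_mul]
  simp only [h1, mul_neg]

/-- variance of a difference of shifts -/
theorem vv_sub {ω : Measure W} {R : W ≃ᵐ W} {X : ℕ → W → ℝ} (h : GSys ω R X) (m n : ℤ)
    (c c' : (ℕ × ℤ) →₀ ℝ) :
    vv ω R X (sh m c - sh n c') = vv ω R X c + vv ω R X c' - 2 * rr ω R X c c' (m - n) := by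
  rw [GA2_sub h, vv_sh h, vv_sh h, rr_sh h]

/-- LAGRANGE: (k+1) sum |x_j|^2 = |sum x_j|^2 + (1/2) sum over i, j of |x_i - x_j|^2 in L^2 -/
theorem lagrange {ω : Measure W} {R : W ≃ᵐ W} {X : ℕ → W → ℝ} (h : GSys ω R X) (k : ℕ)
    (c : Fin (k + 1) → (ℕ × ℤ) →₀ ℝ) :
    ((k : ℝ) + 1) * ∑ j, vv ω R X (c j)
      = vv ω R X (∑ j, c j) + (1 / 2) * ∑ i, ∑ j, vv ω R X (c i - c j) := by
  have h1 : vv ω R X (∑ j, c j) = ∑ i, ∑ j, ∫ w, LF R X (c i) w * LF R X (c j) w ∂ω := by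
    unfold vv
    have e1 : ∀ w, LF R X (∑ j, c j) w ^ 2 = ∑ i, ∑ j, LF R X (c i) w * LF R X (c j) w := fun w => by
      rw [LF_sum, sq, Finset.sum_mul_sum]
    simp only [e1]
    rw [integral_finsetSum _ fun i _ => integrable_finsetSum _ fun j _ => GA2_int h (c i) (c j)]
    exact Finset.sum_congr rfl fun i _ =>
      integral_finsetSum _ fun j _ => GA2_int h (c i) (c j)
  have h2 : ∑ i, ∑ j, vv ω R X (c i - c j) = 2 * (((k : ℝ) + 1) * ∑ j, vv ω R X (c j)) -
      2 * ∑ i, ∑ j, ∫ w, LF R X (c i) w * LF R X (c j) w ∂ω := by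
    simp only [GA2_sub h, Finset.sum_sub_distrib, Finset.sum_add_distrib, Finset.sum_const,
      Finset.card_univ, Fintype.card_fin, nsmul_eq_mul, ← Finset.mul_sum]
    push_cast
    ring
  rw [h1, h2]
  ring
/- END GA2 -/

/- MODULE GB1 -/
private theorem GB1_pw (R : W ≃ᵐ W) (n : ℕ) (w : W) : pw R n w = (R : W → W)^[n] w := by
  unfold pw
  rw [zpow_natCast, ← Equiv.Perm.iterate_eq_pow]
  rfl

private theorem GB1_int {E : Type*} [NormedAddCommGroup E] [NormedSpace ℝ E] [MeasurableSpace E]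
    [BorelSpace E] [SecondCountableTopology E] (ω : Measure W) (T : W → W)
    (hT : MeasurePreserving T ω ω) (f : W → E) (hf : Measurable f) : ∫ w, f (T w) ∂ω = ∫ w, f w ∂ω := by
  have h1 := integral_map (μ := ω) hT.measurable.aemeasurable (f := f)
    (hf.stronglyMeasurable.aestronglyMeasurable)
  rw [hT.map_eq] at h1
  exact h1.symm

private theorem GB1_sq (ω : Measure W) (x : Lp ℂ 2 ω) : ‖x‖ ^ 2 = ∫ w, ‖(x : W → ℂ) w‖ ^ 2 ∂ω := by
  have h1 := @inner_self_eq_norm_sq_to_K ℂ (Lp ℂ 2 ω) _ _ _ x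
  rw [L2.inner_def] at h1
  have h2 : ∀ w, inner ℂ ((x : W → ℂ) w) ((x : W → ℂ) w) = ((‖(x : W → ℂ) w‖ ^ 2 : ℝ) : ℂ) := by
    intro w
    rw [inner_self_eq_norm_sq_to_K]
    push_cast
    rfl
  simp only [h2] at h1
  rw [integral_complex_ofReal] at h1
  have h3 : ((∫ w, ‖(x : W → ℂ) w‖ ^ 2 ∂ω : ℝ) : ℂ) = ((‖x‖ ^ 2 : ℝ) : ℂ) := by
    rw [h1]
    push_cast
    rfl
  exact (Complex.ofReal_injective h3).symm

/-- Mean ergodic theorem in L^2 for bounded functions (von Neumann; the fixed functions of an ergodic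
map are constant). In Mathlib: birkhoffAverage and the orthogonal projection onto the fixed space. -/
theorem mean_ergodic (ω : Measure W) [IsProbabilityMeasure ω] (R : W ≃ᵐ W) (h : Ergodic R ω)
    (f : W → ℂ) (hf : Measurable f) (B : ℝ) (hB : ∀ w, ‖f w‖ ≤ B) :
    Tendsto (fun N : ℕ => ∫ w, ‖(∑ n ∈ range N, f (pw R n w)) / (N : ℂ) - ∫ w', f w' ∂ω‖ ^ 2 ∂ω)
      atTop (𝓝 0) := by
  have hmem : MemLp f 2 ω := MemLp.of_bound hf.aestronglyMeasurable B (Filter.Eventually.of_forall hB)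
  have hmp : MeasurePreserving R ω ω := h.toMeasurePreserving
  let U : Lp ℂ 2 ω →ₗᵢ[ℂ] Lp ℂ 2 ω := Lp.compMeasurePreservingₗᵢ ℂ R hmp
  let F : Lp ℂ 2 ω := hmem.toLp f
  have hUn : ‖U.toContinuousLinearMap‖ ≤ 1 := U.norm_toContinuousLinearMap_le
  have hlim := U.toContinuousLinearMap.tendsto_birkhoffAverage_orthogonalProjection hUn F
  set G' := (U.toContinuousLinearMap.eqLocus (1 : Lp ℂ 2 ω →L[ℂ] Lp ℂ 2 ω)).orthogonalProjectionOnto F
    with hG'
  set G : Lp ℂ 2 ω := (G' : Lp ℂ 2 ω) with hG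
  have hGfix : Lp.compMeasurePreserving R hmp G = G := G'.2
  have hGR : (G : W → ℂ) ∘ R =ᵐ[ω] (G : W → ℂ) := by
    have h1 := Lp.coeFn_compMeasurePreserving G hmp
    rw [hGfix] at h1
    exact h1.symm
  obtain ⟨c, hc⟩ := h.ae_eq_const_of_ae_eq_comp_ae (Lp.aestronglyMeasurable G) hGR
  have hiter : ∀ n : ℕ, ((U.toContinuousLinearMap : Lp ℂ 2 ω → Lp ℂ 2 ω)^[n] F : W → ℂ) =ᵐ[ω]
      fun w => f (pw R n w) := by
    intro n
    have h1 : (U.toContinuousLinearMap : Lp ℂ 2 ω → Lp ℂ 2 ω)^[n] =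
        Lp.compMeasurePreserving R^[n] (hmp.iterate n) := Lp.compMeasurePreserving_iterate hmp n
    rw [h1]
    have h2 := Lp.coeFn_compMeasurePreserving F (hmp.iterate n)
    have h3 : (F : W → ℂ) ∘ R^[n] =ᵐ[ω] f ∘ R^[n] :=
      (hmp.iterate n).quasiMeasurePreserving.ae_eq_comp hmem.coeFn_toLp
    filter_upwards [h2, h3] with w hw1 hw2
    rw [hw1, hw2, GB1_pw]
    rfl
  set A : ℕ → Lp ℂ 2 ω := fun N =>
    birkhoffAverage ℂ (⇑U.toContinuousLinearMap) (_root_.id : Lp ℂ 2 ω → Lp ℂ 2 ω) N F with hA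
  have hav : ∀ N : ℕ, (A N : W → ℂ) =ᵐ[ω] fun w => (∑ n ∈ range N, f (pw R n w)) / (N : ℂ) := by
    intro N
    have h1 : ∀ᵐ w ∂ω, ∀ n ∈ range N,
        ((⇑U.toContinuousLinearMap)^[n] F : W → ℂ) w = f (pw R n w) :=
      (Filter.eventually_all_finset _).2 fun n _ => hiter n
    have h2 := Lp.coeFn_smul ((N : ℂ)⁻¹) (∑ n ∈ range N, (⇑U.toContinuousLinearMap)^[n] F)
    have h3 := Lp.coeFn_fun_finsetSum (range N) fun n => (⇑U.toContinuousLinearMap)^[n] F
    filter_upwards [h1, h2, h3] with w hw1 hw2 hw3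
    show (((N : ℂ)⁻¹ • ∑ n ∈ range N, (⇑U.toContinuousLinearMap)^[n] F : Lp ℂ 2 ω) : W → ℂ) w = _
    rw [hw2, Pi.smul_apply, hw3, Finset.sum_congr rfl hw1, smul_eq_mul, div_eq_inv_mul]
  have hlim' : Tendsto A atTop (𝓝 G) := hlim
  have hone : ∀ x : Lp ℂ 2 ω, inner ℂ ((memLp_const (1 : ℂ)).toLp (fun _ : W => (1 : ℂ)) : Lp ℂ 2 ω) x =
      ∫ w, (x : W → ℂ) w ∂ω := by
    intro x
    rw [L2.inner_def]
    refine integral_congr_ae ?_
    filter_upwards [(memLp_const (1 : ℂ) (μ := ω) (p := 2)).coeFn_toLp] with w hw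
    rw [hw]
    simp
  have hint : ∀ N : ℕ, 1 ≤ N → ∫ w, (A N : W → ℂ) w ∂ω = ∫ w, f w ∂ω := by
    intro N hN
    rw [integral_congr_ae (hav N), integral_div, integral_finset_sum]
    · have hs : ∀ n ∈ range N, ∫ w, f (pw R (n : ℤ) w) ∂ω = ∫ w, f w ∂ω := fun n _ =>
        GB1_int ω (pw R n) (pw_mp ω R hmp n) f hf
      rw [Finset.sum_congr rfl hs, Finset.sum_const, Finset.card_range, nsmul_eq_mul]
      have : (N : ℂ) ≠ 0 := Nat.cast_ne_zero.2 (by omega)
      field_simp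
    · intro n _
      exact Integrable.of_bound (hf.comp (pw_meas R n)).aestronglyMeasurable B
        (Filter.Eventually.of_forall fun w => hB _)
  have hc2 : c = ∫ w, f w ∂ω := by
    have h1 : Tendsto (fun N => ∫ w, (A N : W → ℂ) w ∂ω) atTop (𝓝 (∫ w, (G : W → ℂ) w ∂ω)) := by
      have h2 := (tendsto_const_nhds (x := ((memLp_const (1 : ℂ)).toLp (fun _ : W => (1 : ℂ)) :
        Lp ℂ 2 ω))).inner (𝕜 := ℂ) hlim'
      simpa only [hone] using h2
    have h3 : Tendsto (fun N => ∫ w, (A N : W → ℂ) w ∂ω) atTop (𝓝 (∫ w, f w ∂ω)) := by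
      refine tendsto_const_nhds.congr' ?_
      filter_upwards [eventually_ge_atTop 1] with N hN
      exact (hint N hN).symm
    have h4 := tendsto_nhds_unique h1 h3
    rw [integral_congr_ae hc] at h4
    simpa using h4
  have hfin : ∀ N : ℕ, ∫ w, ‖(∑ n ∈ range N, f (pw R n w)) / (N : ℂ) - ∫ w', f w' ∂ω‖ ^ 2 ∂ω =
      ‖A N - G‖ ^ 2 := by
    intro N
    rw [GB1_sq]
    refine integral_congr_ae ?_
    filter_upwards [hav N, hc, Lp.coeFn_sub (A N) G] with w h1 h2 h3
    rw [h3, Pi.sub_apply, h1, h2, ← hc2]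
    rfl
  simp only [hfin]
  have h5 : Tendsto (fun N => ‖A N - G‖) atTop (𝓝 0) := by
    have h6 := (hlim'.sub_const G).norm
    simpa using h6
  simpa using h5.pow 2
/- END GB1 -/

/- MODULE GB2 -/
private theorem GB2_cs (ω : Measure W) [IsProbabilityMeasure ω] (g : W → ℝ) (hg : Measurable g) (B : ℝ)
    (hB : ∀ w, |g w| ≤ B) : (∫ w, g w ∂ω) ^ 2 ≤ ∫ w, g w ^ 2 ∂ω := by
  have hi : Integrable g ω := Integrable.of_bound hg.aestronglyMeasurable B
    (Filter.Eventually.of_forall fun w => by rw [Real.norm_eq_abs]; exact hB w)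
  have hi2 : Integrable (fun w => g w ^ 2) ω :=
    Integrable.of_bound (hg.pow_const 2).aestronglyMeasurable (B ^ 2)
      (Filter.Eventually.of_forall fun w => by
        rw [Real.norm_eq_abs, abs_pow]
        exact pow_le_pow_left₀ (abs_nonneg _) (hB w) 2)
  have h1 : 0 ≤ ∫ w, (g w - ∫ w', g w' ∂ω) ^ 2 ∂ω := integral_nonneg fun w => sq_nonneg _
  have h2 : ∫ w, (g w - ∫ w', g w' ∂ω) ^ 2 ∂ω =
      ∫ w, (g w ^ 2 - 2 * (∫ w', g w' ∂ω) * g w + (∫ w', g w' ∂ω) ^ 2) ∂ω :=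
    integral_congr_ae (Filter.Eventually.of_forall fun w => by
      show (g w - ∫ w', g w' ∂ω) ^ 2 = g w ^ 2 - 2 * (∫ w', g w' ∂ω) * g w + (∫ w', g w' ∂ω) ^ 2
      ring)
  have h3 : Integrable (fun w => g w ^ 2 - 2 * (∫ w', g w' ∂ω) * g w) ω := hi2.sub (hi.const_mul _)
  rw [h2, integral_add h3 (integrable_const _),
    integral_sub hi2 (hi.const_mul _), integral_const_mul, integral_const] at h1
  simp only [probReal_univ, one_smul] at h1
  nlinarith

private theorem GB2_l1 (ω : Measure W) [IsProbabilityMeasure ω] (g : W → ℂ) (hg : Measurable g) (B : ℝ)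
    (hB : ∀ w, ‖g w‖ ≤ B) : ∫ w, ‖g w‖ ∂ω ≤ Real.sqrt (∫ w, ‖g w‖ ^ 2 ∂ω) := by
  refine Real.le_sqrt_of_sq_le ?_
  exact GB2_cs ω (fun w => ‖g w‖) hg.norm B fun w => by
    rw [abs_of_nonneg (norm_nonneg _)]
    exact hB w

private theorem GB2_cosh (x : ℝ) : x ^ 2 ≤ Real.exp x + Real.exp (-x) - 2 := by
  have h1 : Real.exp x + Real.exp (-x) - 2 = (2 * Real.sinh (x / 2)) ^ 2 := by
    rw [Real.sinh_eq]
    have h2 : Real.exp x = Real.exp (x / 2) ^ 2 := by
      rw [← Real.exp_nat_mul]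
      congr 1
      push_cast
      ring
    have h3 : Real.exp (-x) = Real.exp (-(x / 2)) ^ 2 := by
      rw [← Real.exp_nat_mul]
      congr 1
      push_cast
      ring
    have h4 : Real.exp (x / 2) * Real.exp (-(x / 2)) = 1 := by
      rw [← Real.exp_add]
      simp
    rw [h2, h3]
    nlinarith
  rw [h1]
  have h5 : |x| ≤ |2 * Real.sinh (x / 2)| := by
    rw [abs_mul, Real.abs_sinh, abs_div, abs_two]
    have h6 := Real.self_le_sinh_iff.2 (by positivity : 0 ≤ |x| / 2)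
    linarith
  exact sq_le_sq.2 h5

private theorem GB2_neg (ω : Measure W) (R : W ≃ᵐ W) (X : ℕ → W → ℝ) (c : (ℕ × ℤ) →₀ ℝ) :
    vv ω R X (-c) = vv ω R X c := by
  have h1 := vv_smul ω R X (-1) c
  rw [neg_one_smul] at h1
  rw [h1]
  ring

private theorem GB2_one {ω : Measure W} {R : W ≃ᵐ W} {X : ℕ → W → ℝ} (h : GSys ω R X)
    (c c' : (ℕ × ℤ) →₀ ℝ) (s : ℕ → ℤ) (N : ℕ) (hN : 1 ≤ N) :
    |Real.exp (-((vv ω R X c + vv ω R X c') / 2)) *
      ((∑ n ∈ range N, Real.exp (rr ω R X c c' (s n))) / N - 1)| ≤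
      Real.sqrt (∫ w, ‖(∑ n ∈ range N, ei (LF R X c (pw R (s n) w))) / (N : ℂ) -
        ∫ w', ei (LF R X c w') ∂ω‖ ^ 2 ∂ω) := by
  have hprob : IsProbabilityMeasure ω := h.gauss.isProbabilityMeasure
  have hNc : (N : ℂ) ≠ 0 := Nat.cast_ne_zero.2 (by omega)
  have hm : ∀ c, Measurable fun w => ei (LF R X c w) := fun c => ei_cont.measurable.comp (LF_meas h c)
  have hms : ∀ n : ℤ, Measurable fun w => ei (LF R X c (pw R n w)) := fun n => (hm c).comp (pw_meas R n)
  set m : ℂ := ∫ w', ei (LF R X c w') ∂ω with hmdef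
  set A : W → ℂ := fun w => (∑ n ∈ range N, ei (LF R X c (pw R (s n) w))) / (N : ℂ) with hA
  have hAm : Measurable A := (Finset.measurable_sum _ fun n _ => hms (s n)).div_const _
  have hA1 : ∀ w, ‖A w‖ ≤ 1 := by
    intro w
    show ‖(∑ n ∈ range N, ei (LF R X c (pw R (s n) w))) / (N : ℂ)‖ ≤ 1
    rw [norm_div, Complex.norm_natCast, div_le_one (by exact_mod_cast hN)]
    refine (norm_sum_le _ _).trans ?_
    rw [Finset.sum_congr rfl fun n _ => norm_ei _]
    simp
  have hg : ∀ w, ei (-(LF R X c' w)) = ei (LF R X (-c') w) := by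
    intro w
    have h1 := LF_smul R X (-1) c' w
    rw [neg_one_smul] at h1
    rw [h1, neg_one_mul]
  have hgm : Measurable fun w => ei (-(LF R X c' w)) := by
    simp only [hg]
    exact hm _
  have hgi : Integrable (fun w => ei (-(LF R X c' w))) ω :=
    Integrable.of_bound hgm.aestronglyMeasurable 1 (Filter.Eventually.of_forall fun w => (norm_ei _).le)
  have hgint : ∫ w, ei (-(LF R X c' w)) ∂ω = (Real.exp (-(vv ω R X c') / 2) : ℂ) := by
    simp only [hg]
    rw [int_ei h, GB2_neg]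
  have hterm : ∀ n : ℤ, ∫ w, ei (LF R X c (pw R n w)) * ei (-(LF R X c' w)) ∂ω =
      (Real.exp (-((vv ω R X c + vv ω R X c') / 2)) * Real.exp (rr ω R X c c' n) : ℝ) := by
    intro n
    have h1 : ∀ w, ei (LF R X c (pw R n w)) * ei (-(LF R X c' w)) = ei (LF R X (sh n c - sh 0 c') w) := by
      intro w
      rw [LF_sub, LF_sh, LF_sh, pw_zero, sub_eq_add_neg, ei_add]
    simp only [h1]
    rw [int_ei h, vv_sub h, sub_zero, ← Real.exp_add]
    congr 2
    ring
  have hprod : ∀ n : ℤ, Integrable (fun w => ei (LF R X c (pw R n w)) * ei (-(LF R X c' w))) ω := by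
    intro n
    refine Integrable.of_bound ((hms n).mul hgm).aestronglyMeasurable 1 (Filter.Eventually.of_forall fun w => ?_)
    rw [norm_mul, norm_ei, norm_ei, one_mul]
  have hI : ∫ w, (A w - m) * ei (-(LF R X c' w)) ∂ω =
      (Real.exp (-((vv ω R X c + vv ω R X c') / 2)) *
        ((∑ n ∈ range N, Real.exp (rr ω R X c c' (s n))) / N - 1) : ℝ) := by
    have h1 : ∀ w, (A w - m) * ei (-(LF R X c' w)) =
        (∑ n ∈ range N, ei (LF R X c (pw R (s n) w)) * ei (-(LF R X c' w))) / (N : ℂ) -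
          m * ei (-(LF R X c' w)) := by
      intro w
      show ((∑ n ∈ range N, ei (LF R X c (pw R (s n) w))) / (N : ℂ) - m) * ei (-(LF R X c' w)) = _
      rw [← Finset.sum_mul]
      ring
    simp only [h1]
    rw [integral_sub ((integrable_finset_sum _ fun n _ => hprod (s n)).div_const _) (hgi.const_mul m),
      integral_div, integral_finset_sum _ fun n _ => hprod (s n),
      Finset.sum_congr rfl fun n _ => hterm (s n), integral_const_mul, hgint, hmdef, int_ei h,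
      ← Complex.ofReal_sum, ← Finset.mul_sum]
    have h2 : (Real.exp (-(vv ω R X c) / 2) : ℂ) * (Real.exp (-(vv ω R X c') / 2) : ℂ) =
        (Real.exp (-((vv ω R X c + vv ω R X c') / 2)) : ℂ) := by
      rw [← Complex.ofReal_mul, ← Real.exp_add]
      congr 2
      ring
    rw [h2]
    push_cast
    ring
  have h2 : ‖∫ w, (A w - m) * ei (-(LF R X c' w)) ∂ω‖ ≤ ∫ w, ‖A w - m‖ ∂ω := by
    refine (norm_integral_le_integral_norm _).trans (le_of_eq ?_)
    refine integral_congr_ae (Filter.Eventually.of_forall fun w => ?_)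
    show ‖(A w - m) * ei (-(LF R X c' w))‖ = ‖A w - m‖
    rw [norm_mul, norm_ei, mul_one]
  rw [hI, Complex.norm_real, Real.norm_eq_abs] at h2
  refine h2.trans ?_
  exact GB2_l1 ω (fun w => A w - m) (hAm.sub_const _) (1 + ‖m‖) fun w =>
    (norm_sub_le _ _).trans (add_le_add (hA1 w) le_rfl)

private theorem GB2_pair {ω : Measure W} {R : W ≃ᵐ W} {X : ℕ → W → ℝ} (h : GSys ω R X)
    (c c' : (ℕ × ℤ) →₀ ℝ) (s : ℕ → ℤ) (N : ℕ) :
    (∑ n ∈ range N, rr ω R X c c' (s n) ^ 2) / N ≤ 2 * Real.exp ((vv ω R X c + vv ω R X c') / 2) *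
      Real.sqrt (∫ w, ‖(∑ n ∈ range N, ei (LF R X c (pw R (s n) w))) / (N : ℂ) -
        ∫ w', ei (LF R X c w') ∂ω‖ ^ 2 ∂ω) := by
  rcases Nat.eq_zero_or_pos N with hN | hN
  · subst hN
    simp only [Finset.range_zero, Finset.sum_empty, zero_div]
    positivity
  · have hNr : (0 : ℝ) < N := by exact_mod_cast hN
    set V := (vv ω R X c + vv ω R X c') / 2 with hV
    set δ := Real.sqrt (∫ w, ‖(∑ n ∈ range N, ei (LF R X c (pw R (s n) w))) / (N : ℂ) -
        ∫ w', ei (LF R X c w') ∂ω‖ ^ 2 ∂ω) with hδ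
    have h1 := (abs_le.1 (GB2_one h c c' s N hN)).2
    have h2 := (abs_le.1 (GB2_one h c (-c') s N hN)).2
    rw [GB2_neg] at h2
    simp only [rr_neg] at h2
    rw [← hV, ← hδ] at h1 h2
    have h3 : (∑ n ∈ range N, rr ω R X c c' (s n) ^ 2) / N ≤
        ((∑ n ∈ range N, Real.exp (rr ω R X c c' (s n))) / N - 1) +
          ((∑ n ∈ range N, Real.exp (-rr ω R X c c' (s n))) / N - 1) := by
      have h4 : ((∑ n ∈ range N, Real.exp (rr ω R X c c' (s n))) / N - 1) +
          ((∑ n ∈ range N, Real.exp (-rr ω R X c c' (s n))) / N - 1) =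
          (∑ n ∈ range N, (Real.exp (rr ω R X c c' (s n)) + Real.exp (-rr ω R X c c' (s n)) - 2)) / N := by
        rw [Finset.sum_sub_distrib, Finset.sum_add_distrib, Finset.sum_const, Finset.card_range,
          nsmul_eq_mul]
        field_simp
        ring
      rw [h4]
      exact div_le_div_of_nonneg_right (Finset.sum_le_sum fun n _ => GB2_cosh _) hNr.le
    have h5 : Real.exp (-V) * ((∑ n ∈ range N, rr ω R X c c' (s n) ^ 2) / N) ≤ 2 * δ := by
      have h6 := mul_le_mul_of_nonneg_left h3 (Real.exp_pos (-V)).le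
      rw [mul_add] at h6
      linarith
    have h7 : Real.exp V * Real.exp (-V) = 1 := by
      rw [← Real.exp_add]
      simp
    have h8 := mul_le_mul_of_nonneg_left h5 (Real.exp_pos V).le
    rw [← mul_assoc, h7, one_mul] at h8
    linarith

/-- Uniform decay in density. f = ei (LF c), g = conj (ei (LF c')): int f(pw R (m+n) w) g(w) =
exp(-(vv c + vv c')/2) exp (rr c c' (m+n)) (int_ei, vv_sub), and
|(1/L) sum over n < L of int f(pw R (m+n) w) g(w) - int f int g| ≤ L^1 norm of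
(1/L) sum f(pw R n w) - int f (substitute w → pw R (-m) w, |g| = 1), which tends to 0 (mean_ergodic),
uniformly in m. So (1/L) sum (exp (rr(m+n)) - 1) → 0 uniformly in m; the same for -c' (rr_neg):
exp(-rr). Add: 2 (cosh x - 1) ≥ x^2. -/
theorem rr_density {ω : Measure W} {R : W ≃ᵐ W} {X : ℕ → W → ℝ} (h : GSys ω R X)
    (c c' : (ℕ × ℤ) →₀ ℝ) (ε : ℝ) (hε : 0 < ε) :
    ∃ L0 : ℕ, ∀ L : ℕ, L0 ≤ L → ∀ m : ℤ,
      ∑ n ∈ range L, rr ω R X c c' (m + n) ^ 2 ≤ ε * L := by
  have hprob : IsProbabilityMeasure ω := h.gauss.isProbabilityMeasure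
  have hmp : MeasurePreserving R ω ω := h.erg.toMeasurePreserving
  have hm1 : Measurable fun w => ei (LF R X c w) := ei_cont.measurable.comp (LF_meas h c)
  have h1 := mean_ergodic ω R h.erg (fun w => ei (LF R X c w)) hm1 1 fun w => (norm_ei _).le
  set V := Real.exp ((vv ω R X c + vv ω R X c') / 2) with hV
  have hVp : 0 < V := Real.exp_pos _
  have h2 : Tendsto (fun N : ℕ => 2 * V * Real.sqrt (∫ w, ‖(∑ n ∈ range N, ei (LF R X c (pw R n w))) / (N : ℂ) -
      ∫ w', ei (LF R X c w') ∂ω‖ ^ 2 ∂ω)) atTop (𝓝 0) := by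
    have h3 := (Real.continuous_sqrt.tendsto 0).comp h1
    rw [Real.sqrt_zero] at h3
    have h4 := h3.const_mul (2 * V)
    rw [mul_zero] at h4
    exact h4
  obtain ⟨L0, hL0⟩ := Filter.eventually_atTop.1 (h2.eventually (gt_mem_nhds hε))
  refine ⟨L0 + 1, fun L hL m => ?_⟩
  have hLr : (0 : ℝ) < L := by
    have : 0 < L := by omega
    exact_mod_cast this
  have h5 := hL0 L (by omega)
  have h6 := GB2_pair h c c' (fun n => m + n) L
  have h7 : ∫ w, ‖(∑ n ∈ range L, ei (LF R X c (pw R (m + n) w))) / (L : ℂ) -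
      ∫ w', ei (LF R X c w') ∂ω‖ ^ 2 ∂ω = ∫ w, ‖(∑ n ∈ range L, ei (LF R X c (pw R n w))) / (L : ℂ) -
      ∫ w', ei (LF R X c w') ∂ω‖ ^ 2 ∂ω := by
    obtain ⟨g, hg⟩ : ∃ g : W → ℝ, g = fun w => ‖(∑ n ∈ range L, ei (LF R X c (pw R n w))) / (L : ℂ) -
      ∫ w', ei (LF R X c w') ∂ω‖ ^ 2 := ⟨_, rfl⟩
    have hgm : Measurable g := by
      have q0 : ∀ n : ℕ, Measurable fun w => ei (LF R X c (pw R n w)) := fun n => hm1.comp (pw_meas R n)
      have q1 : Measurable fun w => ∑ n ∈ range L, ei (LF R X c (pw R n w)) :=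
        Finset.measurable_sum _ fun n _ => q0 n
      have q2 : Measurable fun w => (∑ n ∈ range L, ei (LF R X c (pw R n w))) / (L : ℂ) -
          ∫ w', ei (LF R X c w') ∂ω := (q1.div_const _).sub_const _
      rw [hg]
      exact q2.norm.pow_const 2
    have h8 := GB1_int ω (pw R m) (pw_mp ω R hmp m) g hgm
    have h9 : ∀ w, ‖(∑ n ∈ range L, ei (LF R X c (pw R (m + n) w))) / (L : ℂ) -
      ∫ w', ei (LF R X c w') ∂ω‖ ^ 2 = g (pw R m w) := by
      intro w
      have h10 : ∀ n : ℕ, pw R (m + n) w = pw R n (pw R m w) := fun n => by rw [← pw_add, add_comm]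
      rw [hg]
      simp only [h10]
    simp only [h9]
    rw [h8, hg]
  rw [h7] at h6
  have h8 : (∑ n ∈ range L, rr ω R X c c' (m + n) ^ 2) / L ≤ ε := h6.trans h5.le
  rwa [div_le_iff₀ hLr] at h8
/- END GB2 -/

/- MODULE GB3 -/
private theorem GB3_diff {E : Type*} [NormedAddCommGroup E] (a : ℕ → E) (ha : ∀ n, ‖a n‖ ≤ 1) (k N : ℕ) :
    ‖∑ n ∈ range N, a (n + k) - ∑ n ∈ range N, a n‖ ≤ 2 * k := by
  have h1 : ∑ n ∈ range (N + k), a n = ∑ n ∈ range N, a n + ∑ n ∈ range k, a (N + n) :=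
    Finset.sum_range_add _ _ _
  have h2 : ∑ n ∈ range (k + N), a n = ∑ n ∈ range k, a n + ∑ n ∈ range N, a (k + n) :=
    Finset.sum_range_add _ _ _
  have h3 : ∑ n ∈ range N, a (n + k) - ∑ n ∈ range N, a n =
      ∑ n ∈ range k, a (N + n) - ∑ n ∈ range k, a n := by
    rw [Finset.sum_congr rfl fun n _ => by rw [add_comm n k]]
    rw [add_comm N k] at h1
    rw [h1] at h2
    have h4 : ∑ n ∈ range N, a (k + n) = ∑ n ∈ range N, a n + ∑ n ∈ range k, a (N + n) -
        ∑ n ∈ range k, a n := by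
      rw [h2]
      abel
    rw [h4]
    abel
  rw [h3]
  have h5 : ∀ b : ℕ → E, (∀ n, ‖b n‖ ≤ 1) → ‖∑ n ∈ range k, b n‖ ≤ k := by
    intro b hb
    refine (norm_sum_le _ _).trans ?_
    refine (Finset.sum_le_sum fun n _ => hb n).trans ?_
    simp
  have h6 := h5 (fun n => a (N + n)) fun n => ha _
  have h7 := h5 a ha
  have h8 := norm_sub_le (∑ n ∈ range k, a (N + n)) (∑ n ∈ range k, a n)
  linarith

private theorem GB3_shift {H : Type*} [NormedAddCommGroup H] [InnerProductSpace ℂ H] (u : ℕ → H)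
    (hu : ∀ n, ‖u n‖ ≤ 1) (K N : ℕ) :
    (K : ℝ) * ‖∑ n ∈ range N, u n‖ ≤ ‖∑ n ∈ range N, ∑ i ∈ range K, u (n + i)‖ + 2 * K * K := by
  rw [Finset.sum_comm]
  have h1 : ‖∑ i ∈ range K, (∑ n ∈ range N, u (n + i) - ∑ n ∈ range N, u n)‖ ≤ 2 * K * K := by
    refine (norm_sum_le _ _).trans ?_
    have h2 : ∀ i ∈ range K, ‖∑ n ∈ range N, u (n + i) - ∑ n ∈ range N, u n‖ ≤ 2 * K := by
      intro i hi
      refine (GB3_diff u hu i N).trans ?_
      have h3 : (i : ℝ) ≤ K := by exact_mod_cast (Finset.mem_range.1 hi).le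
      linarith
    refine (Finset.sum_le_sum h2).trans ?_
    rw [Finset.sum_const, Finset.card_range, nsmul_eq_mul]
    linarith
  rw [Finset.sum_sub_distrib, Finset.sum_const, Finset.card_range] at h1
  have h4 : ‖(K : ℕ) • ∑ n ∈ range N, u n‖ = (K : ℝ) * ‖∑ n ∈ range N, u n‖ := by
    rw [← Nat.cast_smul_eq_nsmul ℝ, norm_smul, Real.norm_of_nonneg (Nat.cast_nonneg K)]
  rw [← h4]
  have h5 := norm_sub_rev (∑ i ∈ range K, ∑ n ∈ range N, u (n + i)) ((K : ℕ) • ∑ n ∈ range N, u n)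
  have h6 := norm_sub_norm_le ((K : ℕ) • ∑ n ∈ range N, u n) (∑ i ∈ range K, ∑ n ∈ range N, u (n + i))
  linarith

private theorem GB3_sq {H : Type*} [NormedAddCommGroup H] [InnerProductSpace ℂ H] (u : ℕ → H)
    (hu : ∀ n, ‖u n‖ ≤ 1) (K N : ℕ) (hN : 1 ≤ N) :
    ‖∑ n ∈ range N, ∑ i ∈ range K, u (n + i)‖ ^ 2 ≤ N ^ 2 * (∑ i ∈ range K, ∑ j ∈ range K,
        if i = j then (1 : ℝ) else ‖∑ n ∈ range N, inner ℂ (u (n + i)) (u (n + j))‖ / N) := by
  have hNr : (0 : ℝ) < N := by exact_mod_cast hN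
  have h1 : ‖∑ n ∈ range N, ∑ i ∈ range K, u (n + i)‖ ^ 2 ≤
      N * ∑ n ∈ range N, ‖∑ i ∈ range K, u (n + i)‖ ^ 2 := by
    have h2 := pow_le_pow_left₀ (norm_nonneg _)
      (norm_sum_le (range N) fun n => ∑ i ∈ range K, u (n + i)) 2
    refine h2.trans ?_
    have h3 := sq_sum_le_card_mul_sum_sq (s := range N) (f := fun n => ‖∑ i ∈ range K, u (n + i)‖)
    rwa [Finset.card_range] at h3
  have h4 : ∑ n ∈ range N, ‖∑ i ∈ range K, u (n + i)‖ ^ 2 =
      ∑ i ∈ range K, ∑ j ∈ range K, RCLike.re (∑ n ∈ range N, inner ℂ (u (n + i)) (u (n + j))) := by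
    have h5 : ∀ n, ‖∑ i ∈ range K, u (n + i)‖ ^ 2 =
        ∑ i ∈ range K, ∑ j ∈ range K, RCLike.re (inner ℂ (u (n + i)) (u (n + j))) := by
      intro n
      rw [← @inner_self_eq_norm_sq ℂ, sum_inner, map_sum]
      refine Finset.sum_congr rfl fun i _ => ?_
      rw [inner_sum, map_sum]
    rw [Finset.sum_congr rfl fun n _ => h5 n, Finset.sum_comm]
    refine Finset.sum_congr rfl fun i _ => ?_
    rw [Finset.sum_comm]
    refine Finset.sum_congr rfl fun j _ => ?_
    rw [map_sum]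
  have h6 : ∑ n ∈ range N, ‖∑ i ∈ range K, u (n + i)‖ ^ 2 ≤ N * (∑ i ∈ range K, ∑ j ∈ range K,
        if i = j then (1 : ℝ) else ‖∑ n ∈ range N, inner ℂ (u (n + i)) (u (n + j))‖ / N) := by
    rw [h4, Finset.mul_sum]
    refine Finset.sum_le_sum fun i _ => ?_
    rw [Finset.mul_sum]
    refine Finset.sum_le_sum fun j _ => ?_
    by_cases hij : i = j
    · subst hij
      rw [if_pos rfl, map_sum, mul_one]
      have h7 : ∀ n ∈ range N, RCLike.re (inner ℂ (u (n + i)) (u (n + i))) ≤ 1 := by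
        intro n _
        rw [@inner_self_eq_norm_sq ℂ]
        exact pow_le_one₀ (norm_nonneg _) (hu _)
      refine (Finset.sum_le_sum h7).trans ?_
      simp
    · rw [if_neg hij, mul_div_cancel₀ _ hNr.ne']
      exact RCLike.re_le_norm _
  calc _ ≤ N * ∑ n ∈ range N, ‖∑ i ∈ range K, u (n + i)‖ ^ 2 := h1
    _ ≤ N * (N * (∑ i ∈ range K, ∑ j ∈ range K,
        if i = j then (1 : ℝ) else ‖∑ n ∈ range N, inner ℂ (u (n + i)) (u (n + j))‖ / N)) :=
        mul_le_mul_of_nonneg_left h6 hNr.le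
    _ = _ := by ring

private theorem GB3_lim {H : Type*} [NormedAddCommGroup H] [InnerProductSpace ℂ H] (u : ℕ → H)
    (hu : ∀ n, ‖u n‖ ≤ 1)
    (h : ∀ k : ℕ, 1 ≤ k →
      Tendsto (fun N : ℕ => ‖∑ n ∈ range N, inner ℂ (u (n + k)) (u n)‖ / N) atTop (𝓝 0)) (K : ℕ) :
    Tendsto (fun N : ℕ => ∑ i ∈ range K, ∑ j ∈ range K,
        if i = j then (1 : ℝ) else ‖∑ n ∈ range N, inner ℂ (u (n + i)) (u (n + j))‖ / N)
      atTop (𝓝 K) := by
  have hlt : ∀ i j : ℕ, j < i →
      Tendsto (fun N : ℕ => ‖∑ n ∈ range N, inner ℂ (u (n + i)) (u (n + j))‖ / N) atTop (𝓝 0) := by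
    intro i j hij
    have h1 := h (i - j) (by omega)
    have h2 : Tendsto (fun N : ℕ => 2 * (j : ℝ) / N) atTop (𝓝 0) :=
      tendsto_const_nhds.div_atTop tendsto_natCast_atTop_atTop
    have h3 := h1.add h2
    rw [add_zero] at h3
    refine squeeze_zero (fun N => by positivity) (fun N => ?_) h3
    have h4 := GB3_diff (fun n => inner ℂ (u (n + (i - j))) (u n)) (fun n => by
      refine (norm_inner_le_norm _ _).trans ?_
      exact mul_le_one₀ (hu _) (norm_nonneg _) (hu _)) j N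
    have h5 : ∀ n, n + j + (i - j) = n + i := fun n => by omega
    simp only [h5] at h4
    rw [← add_div]
    refine div_le_div_of_nonneg_right ?_ (Nat.cast_nonneg N)
    have h6 := norm_sub_norm_le (∑ n ∈ range N, inner ℂ (u (n + i)) (u (n + j)))
      (∑ n ∈ range N, inner ℂ (u (n + (i - j))) (u n))
    linarith
  have hne : ∀ i j : ℕ, i ≠ j →
      Tendsto (fun N : ℕ => ‖∑ n ∈ range N, inner ℂ (u (n + i)) (u (n + j))‖ / N) atTop (𝓝 0) := by
    intro i j hij
    rcases lt_or_gt_of_ne hij with h1 | h1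
    · have h2 := hlt j i h1
      refine h2.congr fun N => ?_
      congr 1
      rw [← RCLike.norm_conj, map_sum]
      congr 1
      exact Finset.sum_congr rfl fun n _ => inner_conj_symm _ _
    · exact hlt i j h1
  have h4 : (K : ℝ) = ∑ i ∈ range K, ∑ j ∈ range K, if i = j then (1 : ℝ) else 0 := by
    rw [Finset.sum_congr rfl fun i hi => by rw [Finset.sum_ite_eq, if_pos hi]]
    simp
  rw [h4]
  refine tendsto_finsetSum _ fun i _ => tendsto_finsetSum _ fun j _ => ?_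
  by_cases hij : i = j
  · simp only [if_pos hij]
    exact tendsto_const_nhds
  · simp only [if_neg hij]
    exact hne i j hij

/-- Van der Corput's lemma in a Hilbert space. For H ≥ 1, N ≥ H: N-average of u_n is within 2H/N of
the average of (1/H) sum over h < H of u_(n+h); by Cauchy-Schwarz its norm squared is at most
(1/N) sum over n of |(1/H) sum over h < H of u_(n+h)|^2 = (1/H^2) sum over h, h' of
(1/N) sum over n of <u_(n+h), u_(n+h')>, whose diagonal part is ≤ 1/H and whose other terms tend to 0. -/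
theorem vdc_hilbert {H : Type*} [NormedAddCommGroup H] [InnerProductSpace ℂ H] (u : ℕ → H)
    (hu : ∀ n, ‖u n‖ ≤ 1)
    (h : ∀ k : ℕ, 1 ≤ k →
      Tendsto (fun N : ℕ => ‖∑ n ∈ range N, inner ℂ (u (n + k)) (u n)‖ / N) atTop (𝓝 0)) :
    Tendsto (fun N : ℕ => ‖∑ n ∈ range N, u n‖ / N) atTop (𝓝 0) := by
  have key : ∀ K : ℕ, 1 ≤ K → ∀ᶠ N : ℕ in atTop,
      ‖∑ n ∈ range N, u n‖ / N ≤ Real.sqrt (K + 1) / K + 2 * K / N := by
    intro K hK
    have hKr : (0 : ℝ) < K := by exact_mod_cast hK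
    have h1 := GB3_lim u hu h K
    have h2 : ∀ᶠ N : ℕ in atTop, (∑ i ∈ range K, ∑ j ∈ range K,
        if i = j then (1 : ℝ) else ‖∑ n ∈ range N, inner ℂ (u (n + i)) (u (n + j))‖ / N) ≤ K + 1 :=
      (h1.eventually (gt_mem_nhds (by linarith : (K : ℝ) < K + 1))).mono fun N hN => hN.le
    filter_upwards [h2, eventually_ge_atTop 1] with N hN hN1
    have hNr : (0 : ℝ) < N := by exact_mod_cast hN1
    have h3 := GB3_sq u hu K N hN1
    have h4 := GB3_shift u hu K N
    have h5 : ‖∑ n ∈ range N, ∑ i ∈ range K, u (n + i)‖ ^ 2 ≤ N ^ 2 * ((K : ℝ) + 1) := by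
      refine h3.trans ?_
      exact mul_le_mul_of_nonneg_left hN (by positivity)
    have h6 : ‖∑ n ∈ range N, ∑ i ∈ range K, u (n + i)‖ ≤ N * Real.sqrt (K + 1) := by
      have h7 := Real.sqrt_le_sqrt h5
      rwa [Real.sqrt_sq (norm_nonneg _), Real.sqrt_mul (by positivity), Real.sqrt_sq hNr.le] at h7
    have h8 : (K : ℝ) * ‖∑ n ∈ range N, u n‖ ≤ N * Real.sqrt (K + 1) + 2 * K * K := by linarith
    have h9 : ‖∑ n ∈ range N, u n‖ / N = (K * ‖∑ n ∈ range N, u n‖) / (K * N) := by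
      field_simp
    rw [h9]
    calc (K * ‖∑ n ∈ range N, u n‖) / (K * N) ≤ (N * Real.sqrt (K + 1) + 2 * K * K) / (K * N) :=
          div_le_div_of_nonneg_right h8 (by positivity)
      _ = _ := by
          field_simp
  rw [Metric.tendsto_atTop]
  intro ε hε
  obtain ⟨K, hK⟩ := exists_nat_gt (8 / ε ^ 2)
  have hK0 : (0 : ℝ) < K := lt_trans (by positivity) hK
  have hK1 : 1 ≤ K := by exact_mod_cast hK0
  have hKr1 : (1 : ℝ) ≤ K := by exact_mod_cast hK1
  have h1 : Real.sqrt (K + 1) / K < ε / 2 := by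
    rw [div_lt_iff₀ hK0, Real.sqrt_lt' (by positivity)]
    have h2 : 8 < K * ε ^ 2 := by
      rwa [div_lt_iff₀ (by positivity)] at hK
    have h3 : (ε / 2 * K) ^ 2 = K * (K * ε ^ 2) / 4 := by ring
    rw [h3]
    nlinarith
  have h2 : Tendsto (fun N : ℕ => 2 * (K : ℝ) / N) atTop (𝓝 0) :=
    tendsto_const_nhds.div_atTop tendsto_natCast_atTop_atTop
  have h3 : ∀ᶠ N : ℕ in atTop, 2 * (K : ℝ) / N < ε / 2 :=
    h2.eventually (gt_mem_nhds (by positivity))
  obtain ⟨N0, hN0⟩ := Filter.eventually_atTop.1 ((key K hK1).and h3)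
  refine ⟨N0, fun N hN => ?_⟩
  obtain ⟨h4, h5⟩ := hN0 N hN
  rw [Real.dist_eq, sub_zero, abs_of_nonneg (by positivity)]
  linarith
/- END GB3 -/

/- MODULE GB4 -/
private theorem GB4_sq (a : ℕ → ℝ) (h : Tendsto (fun N : ℕ => (∑ n ∈ range N, a n ^ 2) / N) atTop (𝓝 0)) :
    Tendsto (fun N : ℕ => (∑ n ∈ range N, |a n|) / N) atTop (𝓝 0) := by
  have h1 := (Real.continuous_sqrt.tendsto 0).comp h
  rw [Real.sqrt_zero] at h1
  refine squeeze_zero (fun N => div_nonneg (Finset.sum_nonneg fun n _ => abs_nonneg _)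
    (Nat.cast_nonneg N)) (fun N => ?_) h1
  show (∑ n ∈ range N, |a n|) / N ≤ Real.sqrt ((∑ n ∈ range N, a n ^ 2) / N)
  refine Real.le_sqrt_of_sq_le ?_
  have h2 := sq_sum_le_card_mul_sum_sq (s := range N) (f := fun n => |a n|)
  rw [Finset.card_range] at h2
  simp only [sq_abs] at h2
  rcases Nat.eq_zero_or_pos N with hN | hN
  · subst hN
    simp
  · have hNr : (0 : ℝ) < N := by exact_mod_cast hN
    rw [div_pow, div_le_div_iff₀ (by positivity) hNr]
    nlinarith

private theorem GB4_lin (g : ℤ → ℝ) (hg : ∀ m, 0 ≤ g m)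
    (h : ∀ ε : ℝ, 0 < ε → ∃ L0 : ℕ, ∀ L : ℕ, L0 ≤ L → ∀ m : ℤ, ∑ n ∈ range L, g (m + n) ≤ ε * L)
    (a b : ℤ) (ha : a ≠ 0) :
    Tendsto (fun N : ℕ => (∑ n ∈ range N, g (a * (n : ℤ) + b)) / N) atTop (𝓝 0) := by
  have hsum : ∀ (N L : ℕ) (m : ℤ) (i : ℕ → ℕ), (∀ n ∈ range N, i n ∈ range L) →
      (∀ x ∈ range N, ∀ y ∈ range N, i x = i y → x = y) → (∀ n ∈ range N, a * (n : ℤ) + b = m + i n) →
      ∑ n ∈ range N, g (a * (n : ℤ) + b) ≤ ∑ n ∈ range L, g (m + n) := by
    intro N L m i h1 h2 h3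
    rw [Finset.sum_congr rfl fun n hn => by rw [h3 n hn]]
    have h4 : ∑ n ∈ range N, g (m + i n) = ∑ j ∈ (range N).image i, g (m + j) :=
      (Finset.sum_image (f := fun j : ℕ => g (m + j)) h2).symm
    rw [h4]
    refine Finset.sum_le_sum_of_subset_of_nonneg ?_ fun _ _ _ => hg _
    intro j hj
    obtain ⟨n, hn, rfl⟩ := Finset.mem_image.1 hj
    exact h1 n hn
  have hapos : 0 < a.natAbs := Int.natAbs_pos.2 ha
  have hbound : ∀ N : ℕ, ∃ m : ℤ,
      ∑ n ∈ range N, g (a * (n : ℤ) + b) ≤ ∑ n ∈ range (a.natAbs * N), g (m + n) := by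
    intro N
    rcases lt_or_gt_of_ne ha with h1 | h1
    · obtain ⟨k, hk⟩ : ∃ k : ℕ, a = -(k : ℤ) := ⟨a.natAbs, by omega⟩
      have hk0 : 0 < k := by omega
      subst hk
      rw [Int.natAbs_neg, Int.natAbs_natCast]
      refine ⟨b - k * ((N : ℤ) - 1), hsum N _ _ (fun n => k * (N - 1 - n)) ?_ ?_ ?_⟩
      · intro n hn
        rw [Finset.mem_range] at hn ⊢
        exact Nat.mul_lt_mul_of_pos_left (by omega) hk0
      · intro x hx y hy hxy
        rw [Finset.mem_range] at hx hy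
        have h2 := Nat.eq_of_mul_eq_mul_left hk0 hxy
        omega
      · intro n hn
        rw [Finset.mem_range] at hn
        have h2 : ((N - 1 - n : ℕ) : ℤ) = (N : ℤ) - 1 - n := by omega
        rw [Nat.cast_mul, h2]
        ring
    · obtain ⟨k, hk⟩ : ∃ k : ℕ, a = (k : ℤ) := ⟨a.natAbs, by omega⟩
      have hk0 : 0 < k := by omega
      subst hk
      rw [Int.natAbs_natCast]
      refine ⟨b, hsum N _ _ (fun n => k * n) ?_ ?_ ?_⟩
      · intro n hn
        rw [Finset.mem_range] at hn ⊢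
        exact Nat.mul_lt_mul_of_pos_left hn hk0
      · intro x _ y _ hxy
        exact Nat.eq_of_mul_eq_mul_left hk0 hxy
      · intro n _
        rw [Nat.cast_mul]
        ring
  rw [Metric.tendsto_atTop]
  intro ε hε
  have hA : (0 : ℝ) < (a.natAbs : ℝ) := by exact_mod_cast hapos
  obtain ⟨L0, hL0⟩ := h (ε / (2 * a.natAbs)) (by positivity)
  refine ⟨L0 + 1, fun N hN => ?_⟩
  have hNr : (0 : ℝ) < N := by
    have : 0 < N := by omega
    exact_mod_cast this
  have h0 : 0 ≤ ∑ n ∈ range N, g (a * (n : ℤ) + b) := Finset.sum_nonneg fun _ _ => hg _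
  rw [Real.dist_eq, sub_zero, abs_of_nonneg (div_nonneg h0 hNr.le), div_lt_iff₀ hNr]
  obtain ⟨m, hm⟩ := hbound N
  have h1 : L0 ≤ a.natAbs * N := by
    have : N ≤ a.natAbs * N := Nat.le_mul_of_pos_left N hapos
    omega
  have h2 := hL0 (a.natAbs * N) h1 m
  have h3 : ε / (2 * (a.natAbs : ℝ)) * ((a.natAbs * N : ℕ) : ℝ) = ε / 2 * N := by
    push_cast
    field_simp
  rw [h3] at h2
  nlinarith

private theorem GB4_deg (q : ℤ[X]) (k : ℕ) (hk : 1 ≤ k) (hq : 1 < q.natDegree) :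
    1 ≤ (q - q.comp (Polynomial.X + Polynomial.C (k : ℤ))).natDegree ∧
      (q - q.comp (Polynomial.X + Polynomial.C (k : ℤ))).natDegree < q.natDegree := by
  have hq0 : q ≠ 0 := by
    rintro rfl
    simp at hq
  have hnd : (Polynomial.X + Polynomial.C (k : ℤ) : ℤ[X]).natDegree = 1 := Polynomial.natDegree_X_add_C _
  have hlc : (Polynomial.X + Polynomial.C (k : ℤ) : ℤ[X]).leadingCoeff = 1 :=
    Polynomial.leadingCoeff_X_add_C _
  have hcomp : (q.comp (Polynomial.X + Polynomial.C (k : ℤ))).natDegree = q.natDegree := by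
    rw [Polynomial.natDegree_comp, hnd, mul_one]
  have hclc : (q.comp (Polynomial.X + Polynomial.C (k : ℤ))).leadingCoeff = q.leadingCoeff := by
    rw [Polynomial.leadingCoeff_comp (by rw [hnd]; norm_num), hlc, one_pow, mul_one]
  have hc0 : q.comp (Polynomial.X + Polynomial.C (k : ℤ)) ≠ 0 := by
    rw [← Polynomial.leadingCoeff_ne_zero, hclc]
    exact Polynomial.leadingCoeff_ne_zero.2 hq0
  constructor
  · by_contra hcon
    have h0 : (q - q.comp (Polynomial.X + Polynomial.C (k : ℤ))).natDegree = 0 := by omega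
    obtain ⟨z, hz⟩ := Polynomial.natDegree_eq_zero.1 h0
    have h1 : ∀ n : ℤ, q.eval (n + k) = q.eval n - z := by
      intro n
      have h2 := congrArg (Polynomial.eval n) hz
      rw [Polynomial.eval_C, Polynomial.eval_sub, Polynomial.eval_comp, Polynomial.eval_add,
        Polynomial.eval_X, Polynomial.eval_C] at h2
      linarith
    have h3 : ∀ j : ℕ, q.eval ((k : ℤ) * j) = q.eval 0 - z * j := by
      intro j
      induction j with
      | zero => simp
      | succ j ih =>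
        have h4 : (k : ℤ) * ((j + 1 : ℕ) : ℤ) = (k : ℤ) * j + k := by
          push_cast
          ring
        rw [h4, h1, ih]
        push_cast
        ring
    have h5 : q.comp (Polynomial.C (k : ℤ) * Polynomial.X) =
        Polynomial.C (-z) * Polynomial.X + Polynomial.C (q.eval 0) := by
      refine Polynomial.eq_of_infinite_eval_eq _ _ ?_
      refine Set.Infinite.mono (s := Set.range fun j : ℕ => (j : ℤ)) ?_
        (Set.infinite_range_of_injective Nat.cast_injective)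
      rintro _ ⟨j, rfl⟩
      show Polynomial.eval (j : ℤ) (q.comp (Polynomial.C (k : ℤ) * Polynomial.X)) =
        Polynomial.eval (j : ℤ) (Polynomial.C (-z) * Polynomial.X + Polynomial.C (q.eval 0))
      rw [Polynomial.eval_comp, Polynomial.eval_mul, Polynomial.eval_C, Polynomial.eval_X, h3,
        Polynomial.eval_add, Polynomial.eval_mul, Polynomial.eval_C, Polynomial.eval_X,
        Polynomial.eval_C]
      ring
    have h6 := congrArg Polynomial.natDegree h5
    have hk0 : (k : ℤ) ≠ 0 := by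
      have : k ≠ 0 := by omega
      exact_mod_cast this
    rw [Polynomial.natDegree_comp, Polynomial.natDegree_C_mul_X _ hk0, mul_one] at h6
    have h7 : (Polynomial.C (-z) * Polynomial.X + Polynomial.C (q.eval 0) : ℤ[X]).natDegree ≤ 1 :=
      Polynomial.natDegree_linear_le
    omega
  · have h1 : q.degree = (q.comp (Polynomial.X + Polynomial.C (k : ℤ))).degree := by
      rw [Polynomial.degree_eq_natDegree hq0, Polynomial.degree_eq_natDegree hc0, hcomp]
    have h2 := Polynomial.degree_sub_lt h1 hq0 hclc.symm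
    by_cases h3 : q - q.comp (Polynomial.X + Polynomial.C (k : ℤ)) = 0
    · rw [h3, Polynomial.natDegree_zero]
      omega
    · exact (Polynomial.natDegree_lt_natDegree_iff h3).2 h2

private theorem GB4_exp (r v : ℝ) (h : |r| ≤ v) : |Real.exp (-v) * (Real.exp r - 1)| ≤ |r| := by
  have h1 : |Real.exp r - 1| ≤ |r| * Real.exp |r| := by
    rcases le_total 0 r with hr | hr
    · rw [abs_of_nonneg hr, abs_of_nonneg (by linarith [Real.add_one_le_exp r])]
      have h2 := Real.add_one_le_exp (-r)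
      have h3 : Real.exp (-r) * Real.exp r = 1 := by
        rw [← Real.exp_add]
        simp
      have h4 := mul_le_mul_of_nonneg_right h2 (Real.exp_pos r).le
      rw [h3] at h4
      linarith
    · have h2 := Real.add_one_le_exp r
      have h3 : Real.exp r ≤ 1 := Real.exp_le_one_iff.2 hr
      rw [abs_of_nonpos hr, abs_of_nonpos (by linarith)]
      have h4 : 1 ≤ Real.exp (-r) := Real.one_le_exp (by linarith)
      nlinarith
  rw [abs_mul, abs_of_pos (Real.exp_pos _)]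
  have h5 : Real.exp |r| ≤ Real.exp v := Real.exp_le_exp.2 h
  have h6 : Real.exp (-v) * Real.exp v = 1 := by
    rw [← Real.exp_add]
    simp
  calc Real.exp (-v) * |Real.exp r - 1| ≤ Real.exp (-v) * (|r| * Real.exp v) := by
        refine mul_le_mul_of_nonneg_left (h1.trans ?_) (Real.exp_pos _).le
        exact mul_le_mul_of_nonneg_left h5 (abs_nonneg _)
    _ = |r| * (Real.exp (-v) * Real.exp v) := by ring
    _ = |r| := by rw [h6, mul_one]

private theorem GB4_vdc {ω : Measure W} {R : W ≃ᵐ W} {X : ℕ → W → ℝ} (h : GSys ω R X)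
    (q : ℤ[X]) (hq : 1 < q.natDegree) (c : (ℕ × ℤ) →₀ ℝ)
    (ih : ∀ k : ℕ, 1 ≤ k → Tendsto (fun N : ℕ => (∑ n ∈ range N,
      |rr ω R X c c (q.eval (n : ℤ) - q.eval (((n + k : ℕ) : ℤ)))|) / N) atTop (𝓝 0)) :
    Tendsto (fun N : ℕ => ∫ w, ‖(∑ n ∈ range N, ei (LF R X c (pw R (q.eval (n : ℤ)) w))) / (N : ℂ) -
          ∫ w', ei (LF R X c w') ∂ω‖ ^ 2 ∂ω) atTop (𝓝 0) := by
  have hprob : IsProbabilityMeasure ω := h.gauss.isProbabilityMeasure
  have hmp : MeasurePreserving R ω ω := h.erg.toMeasurePreserving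
  have hm1 : Measurable fun w => ei (LF R X c w) := ei_cont.measurable.comp (LF_meas h c)
  have hmn : ∀ n : ℤ, Measurable fun w => ei (LF R X c (pw R n w)) := fun n => hm1.comp (pw_meas R n)
  obtain ⟨m, hm⟩ : ∃ m : ℝ, m = Real.exp (-(vv ω R X c) / 2) := ⟨_, rfl⟩
  have hmi : ∫ w', ei (LF R X c w') ∂ω = (m : ℂ) := by
    rw [int_ei h, hm]
  have hm01 : 0 ≤ m ∧ m ≤ 1 := by
    rw [hm]
    refine ⟨(Real.exp_pos _).le, Real.exp_le_one_iff.2 ?_⟩
    have := vv_nonneg ω R X c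
    linarith
  rw [hmi]
  -- the vectors
  have hgm : ∀ n : ℤ, Measurable fun w => (ei (LF R X c (pw R n w)) - (m : ℂ)) / 2 := fun n =>
    ((hmn n).sub_const _).div_const _
  have hgb : ∀ (n : ℤ) (w : W), ‖(ei (LF R X c (pw R n w)) - (m : ℂ)) / 2‖ ≤ 1 := by
    intro n w
    rw [norm_div]
    have h1 := norm_sub_le (ei (LF R X c (pw R n w))) (m : ℂ)
    rw [norm_ei, Complex.norm_real, Real.norm_of_nonneg hm01.1] at h1
    have h2 : ‖(2 : ℂ)‖ = 2 := by norm_num
    rw [h2]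
    linarith [hm01.2]
  have hgL : ∀ n : ℤ, MemLp (fun w => (ei (LF R X c (pw R n w)) - (m : ℂ)) / 2) 2 ω := fun n =>
    MemLp.of_bound (hgm n).aestronglyMeasurable 1 (Filter.Eventually.of_forall (hgb n))
  obtain ⟨u, hu⟩ : ∃ u : ℤ → Lp ℂ 2 ω, ∀ n, u n = (hgL n).toLp _ := ⟨fun n => (hgL n).toLp _, fun n => rfl⟩
  have hua : ∀ n, (u n : W → ℂ) =ᵐ[ω] fun w => (ei (LF R X c (pw R n w)) - (m : ℂ)) / 2 := by
    intro n
    rw [hu]
    exact (hgL n).coeFn_toLp
  have hu1 : ∀ n, ‖u n‖ ≤ 1 := by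
    intro n
    have h1 : ‖u n‖ ^ 2 ≤ 1 := by
      rw [GB1_sq]
      have h2 : ∫ w, ‖(u n : W → ℂ) w‖ ^ 2 ∂ω ≤ ∫ _w, (1 : ℝ) ∂ω := by
        refine integral_mono_of_nonneg (Filter.Eventually.of_forall fun w => sq_nonneg _)
          (integrable_const _) ?_
        filter_upwards [hua n] with w hw
        rw [hw]
        exact pow_le_one₀ (norm_nonneg _) (hgb n w)
      simpa using h2
    nlinarith [norm_nonneg (u n)]
  -- inner products
  have hin : ∀ a b : ℤ, ‖(inner ℂ (u a) (u b) : ℂ)‖ ≤ |rr ω R X c c (b - a)| := by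
    intro a b
    have h1 : (inner ℂ (u a) (u b) : ℂ) =
        (1 / 4) * (Real.exp (-(vv ω R X c)) * (Real.exp (rr ω R X c c (b - a)) - 1) : ℝ) := by
      rw [L2.inner_def]
      have h2 : ∫ w, inner ℂ ((u a : W → ℂ) w) ((u b : W → ℂ) w) ∂ω =
          ∫ w, (1 / 4 : ℂ) * (ei (LF R X (sh b c - sh a c) w) - m * ei (LF R X c (pw R b w)) -
            m * (starRingEnd ℂ) (ei (LF R X c (pw R a w))) + m * m) ∂ω := by
        refine integral_congr_ae ?_
        filter_upwards [hua a, hua b] with w ha hb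
        rw [ha, hb]
        have h3 : ei (LF R X (sh b c - sh a c) w) =
            ei (LF R X c (pw R b w)) * (starRingEnd ℂ) (ei (LF R X c (pw R a w))) := by
          rw [LF_sub, LF_sh, LF_sh, sub_eq_add_neg, ei_add, ei_neg]
        rw [h3]
        simp only [RCLike.inner_apply, map_div₀, map_sub, Complex.conj_ofReal]
        have h4 : (starRingEnd ℂ) (2 : ℂ) = 2 := Complex.conj_ofNat 2
        rw [h4]
        ring
      rw [h2, integral_const_mul]
      have i1 : Integrable (fun w => ei (LF R X (sh b c - sh a c) w)) ω :=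
        Integrable.of_bound (ei_cont.measurable.comp (LF_meas h _)).aestronglyMeasurable 1
          (Filter.Eventually.of_forall fun w => (norm_ei _).le)
      have i2 : ∀ n : ℤ, Integrable (fun w => ei (LF R X c (pw R n w))) ω := fun n =>
        Integrable.of_bound (hmn n).aestronglyMeasurable 1
          (Filter.Eventually.of_forall fun w => (norm_ei _).le)
      have i3 : Integrable (fun w => (starRingEnd ℂ) (ei (LF R X c (pw R a w)))) ω :=
        Integrable.of_bound (Complex.continuous_conj.measurable.comp (hmn a)).aestronglyMeasurable 1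
          (Filter.Eventually.of_forall fun w => by rw [RCLike.norm_conj, norm_ei])
      have j1 : Integrable (fun w => ei (LF R X (sh b c - sh a c) w) - m * ei (LF R X c (pw R b w))) ω :=
        i1.sub ((i2 b).const_mul _)
      have j2 : Integrable (fun w => ei (LF R X (sh b c - sh a c) w) - m * ei (LF R X c (pw R b w)) -
            m * (starRingEnd ℂ) (ei (LF R X c (pw R a w)))) ω := j1.sub (i3.const_mul _)
      have e1 : ∀ n : ℤ, ∫ w, ei (LF R X c (pw R n w)) ∂ω = (m : ℂ) := by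
        intro n
        rw [← hmi]
        exact GB1_int ω (pw R n) (pw_mp ω R hmp n) (fun w => ei (LF R X c w)) hm1
      have e2 : ∫ w, (starRingEnd ℂ) (ei (LF R X c (pw R a w))) ∂ω = (m : ℂ) := by
        rw [integral_conj, e1, Complex.conj_ofReal]
      rw [integral_add j2 (integrable_const _), integral_sub j1 (i3.const_mul _),
        integral_sub i1 ((i2 b).const_mul _), integral_const_mul, integral_const_mul, e1, e2, int_ei h,
        vv_sub h, integral_const]
      simp only [probReal_univ, one_smul]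
      congr 1
      have h5 : m * m = Real.exp (-(vv ω R X c)) := by
        rw [hm, ← Real.exp_add]
        congr 1
        ring
      have h6 : Real.exp (-(vv ω R X c + vv ω R X c - 2 * rr ω R X c c (b - a)) / 2) =
          Real.exp (-(vv ω R X c)) * Real.exp (rr ω R X c c (b - a)) := by
        rw [← Real.exp_add]
        congr 1
        ring
      rw [h6, ← h5]
      push_cast
      ring
    rw [h1, norm_mul, Complex.norm_real, Real.norm_eq_abs]
    have h7 : |rr ω R X c c (b - a)| ≤ vv ω R X c := by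
      have := rr_le h c c (b - a)
      linarith
    have h8 := GB4_exp _ _ h7
    have h9 : ‖(1 / 4 : ℂ)‖ = 1 / 4 := by norm_num
    rw [h9]
    have h10 := abs_nonneg (Real.exp (-(vv ω R X c)) * (Real.exp (rr ω R X c c (b - a)) - 1))
    linarith
  have hv := vdc_hilbert (fun n : ℕ => u (q.eval (n : ℤ))) (fun n => hu1 _) fun k hk => by
    refine squeeze_zero (fun N => by positivity) (fun N => ?_) (ih k hk)
    refine div_le_div_of_nonneg_right ?_ (Nat.cast_nonneg N)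
    refine (norm_sum_le _ _).trans (Finset.sum_le_sum fun n _ => ?_)
    exact hin _ _
  have hfin : ∀ N : ℕ, 1 ≤ N →
      ∫ w, ‖(∑ n ∈ range N, ei (LF R X c (pw R (q.eval (n : ℤ)) w))) / (N : ℂ) - (m : ℂ)‖ ^ 2 ∂ω =
      (2 * (‖∑ n ∈ range N, u (q.eval (n : ℤ))‖ / N)) ^ 2 := by
    intro N hN
    have hNc : (N : ℂ) ≠ 0 := Nat.cast_ne_zero.2 (by omega)
    rw [mul_pow, div_pow, GB1_sq, mul_div_assoc', ← integral_const_mul, ← integral_div]
    refine integral_congr_ae ?_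
    have h1 : ∀ᵐ w ∂ω, ∀ n ∈ range N, (u (q.eval (n : ℤ)) : W → ℂ) w =
        (ei (LF R X c (pw R (q.eval (n : ℤ)) w)) - (m : ℂ)) / 2 :=
      (Filter.eventually_all_finset _).2 fun n _ => hua _
    filter_upwards [h1, Lp.coeFn_fun_finsetSum (range N) fun n : ℕ => u (q.eval (n : ℤ))] with w hw1 hw2
    rw [hw2, Finset.sum_congr rfl hw1]
    have h2 : (∑ n ∈ range N, ei (LF R X c (pw R (q.eval (n : ℤ)) w))) / (N : ℂ) - (m : ℂ) =
        (2 / (N : ℂ)) * ∑ n ∈ range N, (ei (LF R X c (pw R (q.eval (n : ℤ)) w)) - (m : ℂ)) / 2 := by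
      rw [← Finset.sum_div, Finset.sum_sub_distrib, Finset.sum_const, Finset.card_range, nsmul_eq_mul]
      field_simp
    rw [h2, norm_mul, norm_div, Complex.norm_natCast]
    have h3 : ‖(2 : ℂ)‖ = 2 := by norm_num
    rw [h3]
    ring
  have h4 : Tendsto (fun N : ℕ => (2 * (‖∑ n ∈ range N, u (q.eval (n : ℤ))‖ / N)) ^ 2) atTop (𝓝 0) := by
    have h5 := (hv.const_mul 2).pow 2
    simpa using h5
  refine h4.congr' ?_
  filter_upwards [eventually_ge_atTop 1] with N hN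
  exact (hfin N hN).symm

/-- Decay along polynomials, by induction on the degree. Degree 1, q(n) = b + a n, a ≠ 0: the numbers
q(n), n < N, are distinct and lie in a window of length |a| N, so sum of rr(q n)^2 ≤ sum over the
window ≤ ep |a| N (rr_density); then Cauchy-Schwarz. Degree D ≥ 2: in L^2(omega) take
u_n = (f(pw R (q n) w) - int f)/2, f = ei (LF c); <u_(n+k), u_n> is a constant times
exp (rr c c (q(n+k) - q(n))) - 1 (int_ei, vv_sub), of modulus ≤ C |rr c c (..)| (rr_le), and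
q(X+k) - q(X) has degree D - 1 ≥ 1; vdc_hilbert. Pair the averages of u_n with conj (ei (LF c')):
(1/N) sum (exp (rr c c' (q n)) - 1) → 0, the same with -c'; cosh as in rr_density; Cauchy-Schwarz. -/
theorem rr_poly {ω : Measure W} {R : W ≃ᵐ W} {X : ℕ → W → ℝ} (h : GSys ω R X)
    (q : ℤ[X]) (hq : 1 ≤ q.natDegree) (c c' : (ℕ × ℤ) →₀ ℝ) :
    Tendsto (fun N : ℕ => (∑ n ∈ range N, |rr ω R X c c' (q.eval (n : ℤ))|) / N) atTop (𝓝 0) := by
  classical
  have hprob : IsProbabilityMeasure ω := h.gauss.isProbabilityMeasure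
  obtain ⟨D, hD⟩ : ∃ D, q.natDegree ≤ D := ⟨_, le_rfl⟩
  induction D generalizing q c c' with
  | zero => omega
  | succ D ih =>
    refine GB4_sq _ ?_
    rcases Nat.lt_or_ge 1 q.natDegree with hq2 | hq1
    · -- degree at least two
      have h3 := GB4_vdc h q hq2 c fun k hk => by
        obtain ⟨d1, d2⟩ := GB4_deg q k hk hq2
        have h4 := ih (q - q.comp (Polynomial.X + Polynomial.C (k : ℤ))) d1 c c (by omega)
        refine h4.congr fun N => ?_
        congr 1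
        refine Finset.sum_congr rfl fun n _ => ?_
        rw [Polynomial.eval_sub, Polynomial.eval_comp, Polynomial.eval_add, Polynomial.eval_X,
          Polynomial.eval_C]
        push_cast
        rfl
      have h5 : Tendsto (fun N : ℕ => 2 * Real.exp ((vv ω R X c + vv ω R X c') / 2) *
        Real.sqrt (∫ w, ‖(∑ n ∈ range N, ei (LF R X c (pw R (q.eval (n : ℤ)) w))) / (N : ℂ) -
          ∫ w', ei (LF R X c w') ∂ω‖ ^ 2 ∂ω)) atTop (𝓝 0) := by
        have h6 := (Real.continuous_sqrt.tendsto 0).comp h3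
        rw [Real.sqrt_zero] at h6
        have h7 := h6.const_mul (2 * Real.exp ((vv ω R X c + vv ω R X c') / 2))
        rw [mul_zero] at h7
        exact h7
      exact squeeze_zero (fun N => div_nonneg (Finset.sum_nonneg fun n _ => sq_nonneg _)
        (Nat.cast_nonneg N)) (fun N => GB2_pair h c c' (fun n => q.eval (n : ℤ)) N) h5
    · -- degree one
      have hq' : q.natDegree = 1 := le_antisymm hq1 hq
      obtain ⟨a, b, ha, hab⟩ : ∃ a b : ℤ, a ≠ 0 ∧ ∀ n : ℤ, q.eval n = a * n + b := by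
        refine ⟨q.coeff 1, q.coeff 0, ?_, fun n => ?_⟩
        · have h1 : q.leadingCoeff ≠ 0 := by
            rw [Ne, Polynomial.leadingCoeff_eq_zero]
            rintro rfl
            simp at hq'
          rwa [Polynomial.leadingCoeff, hq'] at h1
        · conv_lhs => rw [Polynomial.eq_X_add_C_of_natDegree_le_one hq1]
          simp
      simp only [hab]
      exact GB4_lin (fun m => rr ω R X c c' m ^ 2) (fun m => sq_nonneg _)
        (fun ε hε => rr_density h c c' ε hε) a b ha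
/- END GB4 -/

/-- the action of Z^d on a power of W: coordinate j moves by the integer Cm j . a -/
def Tp {d : ℕ} {J : Type*} (R : W ≃ᵐ W) (Cm : J → Fin d → ℤ) (a : Fin d → ℤ) (y : J → W) : J → W :=
  fun j => pw R (∑ l, Cm j l * a l) (y j)

/- MODULE GC1 -/
theorem Tp_act {d : ℕ} {J : Type*} [Fintype J] (ω : Measure W) [IsProbabilityMeasure ω]
    (R : W ≃ᵐ W) (h : MeasurePreserving R ω ω) (Cm : J → Fin d → ℤ) :
    Act d (Measure.pi (fun _ : J => ω)) (Tp R Cm) := by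
  refine ⟨fun y => ?_, fun a b y => ?_, fun a => ?_⟩
  · funext j
    show pw R (∑ l, Cm j l * (0 : Fin d → ℤ) l) (y j) = y j
    have h1 : ∑ l, Cm j l * (0 : Fin d → ℤ) l = 0 := Finset.sum_eq_zero fun l _ => mul_zero _
    rw [h1, pw_zero]
  · funext j
    show pw R (∑ l, Cm j l * (a + b) l) (y j) =
      pw R (∑ l, Cm j l * a l) (pw R (∑ l, Cm j l * b l) (y j))
    rw [← pw_add, ← Finset.sum_add_distrib]
    congr 1
    exact Finset.sum_congr rfl fun l _ => mul_add _ _ _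
  · exact measurePreserving_pi (fun _ : J => ω) (fun _ : J => ω) fun j => pw_mp ω R h _
/- END GC1 -/

/- MODULE GC2 -/
private theorem GC2_unif (r : ℤ → ℝ)
    (h : ∀ ε : ℝ, 0 < ε → ∃ L0 : ℕ, ∀ L : ℕ, L0 ≤ L → ∀ m : ℤ, ∑ n ∈ range L, r (m + n) ^ 2 ≤ ε * L)
    (a : ℤ) (ha : a ≠ 0) (ε : ℝ) (hε : 0 < ε) :
    ∃ L0 : ℕ, ∀ m : ℕ, L0 ≤ m → ∀ b : ℤ, ∑ s ∈ range m, |r (a * (s : ℤ) + b)| ≤ ε * m := by
  have hapos : 0 < a.natAbs := Int.natAbs_pos.2 ha
  have hA : (0 : ℝ) < (a.natAbs : ℝ) := by exact_mod_cast hapos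
  obtain ⟨L0, hL0⟩ := h (ε ^ 2 / a.natAbs) (by positivity)
  refine ⟨L0, fun N hN b => ?_⟩
  have hsum : ∀ (L : ℕ) (m : ℤ) (i : ℕ → ℕ), (∀ n ∈ range N, i n ∈ range L) →
      (∀ x ∈ range N, ∀ y ∈ range N, i x = i y → x = y) → (∀ n ∈ range N, a * (n : ℤ) + b = m + i n) →
      ∑ n ∈ range N, r (a * (n : ℤ) + b) ^ 2 ≤ ∑ n ∈ range L, r (m + n) ^ 2 := by
    intro L m i h1 h2 h3
    rw [Finset.sum_congr rfl fun n hn => by rw [h3 n hn]]
    have h4 : ∑ n ∈ range N, r (m + i n) ^ 2 = ∑ j ∈ (range N).image i, r (m + j) ^ 2 :=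
      (Finset.sum_image (f := fun j : ℕ => r (m + j) ^ 2) h2).symm
    rw [h4]
    refine Finset.sum_le_sum_of_subset_of_nonneg ?_ fun _ _ _ => sq_nonneg _
    intro j hj
    obtain ⟨n, hn, rfl⟩ := Finset.mem_image.1 hj
    exact h1 n hn
  have hbound : ∃ m : ℤ,
      ∑ n ∈ range N, r (a * (n : ℤ) + b) ^ 2 ≤ ∑ n ∈ range (a.natAbs * N), r (m + n) ^ 2 := by
    rcases lt_or_gt_of_ne ha with h1 | h1
    · obtain ⟨k, hk⟩ : ∃ k : ℕ, a = -(k : ℤ) := ⟨a.natAbs, by omega⟩
      have hk0 : 0 < k := by omega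
      have hka : a.natAbs = k := by omega
      rw [hka]
      refine ⟨b - k * ((N : ℤ) - 1), hsum _ _ (fun n => k * (N - 1 - n)) ?_ ?_ ?_⟩
      · intro n hn
        rw [Finset.mem_range] at hn ⊢
        exact Nat.mul_lt_mul_of_pos_left (by omega) hk0
      · intro x hx y hy hxy
        rw [Finset.mem_range] at hx hy
        have h2 := Nat.eq_of_mul_eq_mul_left hk0 hxy
        omega
      · intro n hn
        rw [Finset.mem_range] at hn
        have h2 : ((N - 1 - n : ℕ) : ℤ) = (N : ℤ) - 1 - n := by omega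
        rw [Nat.cast_mul, h2, hk]
        ring
    · obtain ⟨k, hk⟩ : ∃ k : ℕ, a = (k : ℤ) := ⟨a.natAbs, by omega⟩
      have hk0 : 0 < k := by omega
      have hka : a.natAbs = k := by omega
      rw [hka]
      refine ⟨b, hsum _ _ (fun n => k * n) ?_ ?_ ?_⟩
      · intro n hn
        rw [Finset.mem_range] at hn ⊢
        exact Nat.mul_lt_mul_of_pos_left hn hk0
      · intro x _ y _ hxy
        exact Nat.eq_of_mul_eq_mul_left hk0 hxy
      · intro n _
        rw [Nat.cast_mul, hk]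
        ring
  obtain ⟨m, hm⟩ := hbound
  have h1 : L0 ≤ a.natAbs * N := hN.trans (Nat.le_mul_of_pos_left N hapos)
  have h2 := hL0 (a.natAbs * N) h1 m
  have h3 : ε ^ 2 / (a.natAbs : ℝ) * ((a.natAbs * N : ℕ) : ℝ) = ε ^ 2 * N := by
    push_cast
    field_simp
  rw [h3] at h2
  have h4 := sq_sum_le_card_mul_sum_sq (s := range N) (f := fun n => |r (a * (n : ℤ) + b)|)
  rw [Finset.card_range] at h4
  simp only [sq_abs] at h4
  have h5 : (∑ s ∈ range N, |r (a * (s : ℤ) + b)|) ^ 2 ≤ (ε * N) ^ 2 := by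
    have hN0 : (0 : ℝ) ≤ N := Nat.cast_nonneg N
    have h6 := mul_le_mul_of_nonneg_left (hm.trans h2) hN0
    calc _ ≤ _ := h4
      _ ≤ _ := h6
      _ = _ := by ring
  exact le_of_sq_le_sq h5 (by positivity)

private theorem GC2_upd {d : ℕ} (C : Fin d → ℤ) (Q : ℕ) (x : Fin d → ℕ) (l : Fin d) (s : ℕ) :
    ∑ i, C i * ((Q * Function.update x l s i : ℕ) : ℤ) =
      C l * Q * (s : ℤ) + ∑ i, C i * ((Q * Function.update x l 0 i : ℕ) : ℤ) := by
  rw [← sub_eq_iff_eq_add, ← Finset.sum_sub_distrib]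
  rw [Finset.sum_eq_single l]
  · rw [Function.update_self, Function.update_self]
    push_cast
    ring
  · intro i _ hi
    rw [Function.update_of_ne hi, Function.update_of_ne hi, sub_self]
  · intro hl
    exact absurd (Finset.mem_univ l) hl

private theorem GC2_box {d : ℕ} (t : Fin d → ℕ) (ht : ∀ l, 1 ≤ t l) (l : Fin d) (g : (Fin d → ℕ) → ℝ)
    (ε : ℝ) (h : ∀ x : Fin d → ℕ, ∑ s ∈ range (t l), g (Function.update x l s) ≤ ε * t l) :
    ∑ x ∈ Fintype.piFinset (fun l => range (t l)), g x ≤ ε * ((∏ l, t l : ℕ) : ℝ) := by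
  classical
  have htl : (0 : ℝ) < t l := by exact_mod_cast ht l
  have h1 : ∑ x ∈ Fintype.piFinset (fun l => range (t l)), ∑ s ∈ range (t l), g (Function.update x l s) =
      ∑ x ∈ Fintype.piFinset (fun l => range (t l)), ∑ _s ∈ range (t l), g x := by
    rw [← Finset.sum_product', ← Finset.sum_product']
    have hmem : ∀ p ∈ Fintype.piFinset (fun l => range (t l)) ×ˢ range (t l),
        (Function.update p.1 l p.2, p.1 l) ∈ Fintype.piFinset (fun l => range (t l)) ×ˢ range (t l) := by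
      intro p hp
      rw [Finset.mem_product, Fintype.mem_piFinset] at hp ⊢
      refine ⟨fun i => ?_, hp.1 l⟩
      by_cases hi : i = l
      · subst hi
        show Function.update p.1 i p.2 i ∈ _
        rw [Function.update_self]
        exact hp.2
      · show Function.update p.1 l p.2 i ∈ _
        rw [Function.update_of_ne hi]
        exact hp.1 i
    have hinv : ∀ p : (Fin d → ℕ) × ℕ,
        (Function.update (Function.update p.1 l p.2) l (p.1 l), Function.update p.1 l p.2 l) = p := by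
      intro p
      rw [Function.update_idem, Function.update_eq_self, Function.update_self]
    refine Finset.sum_nbij' (fun p => (Function.update p.1 l p.2, p.1 l))
      (fun p => (Function.update p.1 l p.2, p.1 l)) hmem hmem (fun p _ => hinv p) (fun p _ => hinv p) ?_
    intro p _
    rfl
  have h2 : ∑ x ∈ Fintype.piFinset (fun l => range (t l)), ∑ s ∈ range (t l), g (Function.update x l s) ≤
      ∑ x ∈ Fintype.piFinset (fun l => range (t l)), ε * t l := Finset.sum_le_sum fun x _ => h x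
  rw [h1] at h2
  simp only [Finset.sum_const, Finset.card_range, nsmul_eq_mul] at h2
  rw [← Finset.mul_sum, Fintype.card_piFinset] at h2
  have h3 : ∏ l, (range (t l)).card = ∏ l, t l := Finset.prod_congr rfl fun l _ => Finset.card_range _
  rw [h3] at h2
  have h4 : (t l : ℝ) * ∑ x ∈ Fintype.piFinset (fun l => range (t l)), g x ≤
      t l * (ε * ((∏ l, t l : ℕ) : ℝ)) := by
    refine h2.trans (le_of_eq ?_)
    ring
  exact le_of_mul_le_mul_left h4 htl

private theorem GC2_var {Y ι : Type*} [MeasurableSpace Y] (P : Measure Y) [IsProbabilityMeasure P]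
    (I : Finset ι) (G : ι → Y → ℂ) (hG : ∀ x, Measurable (G x)) (hG1 : ∀ x y, ‖G x y‖ ≤ 1) (Φ : ℝ)
    (hi : ∀ x, ∫ y, G x y ∂P = (Φ : ℂ)) (b : ι → ι → ℝ)
    (hb : ∀ x x', ‖(∫ y, G x y * (starRingEnd ℂ) (G x' y) ∂P) - (Φ : ℂ) * Φ‖ ≤ b x x') (n : ℝ)
    (hn : 0 < n) :
    ∫ y, ‖(∑ x ∈ I, (G x y - (Φ : ℂ))) / (n : ℂ)‖ ^ 2 ∂P ≤ (∑ x ∈ I, ∑ x' ∈ I, b x x') / (n * n) := by
  have iG : ∀ x, Integrable (G x) P := fun x =>
    Integrable.of_bound (hG x).aestronglyMeasurable 1 (Filter.Eventually.of_forall (hG1 x))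
  have mGc : ∀ x, Measurable fun y => (starRingEnd ℂ) (G x y) := fun x =>
    Complex.continuous_conj.measurable.comp (hG x)
  have iGc : ∀ x, Integrable (fun y => (starRingEnd ℂ) (G x y)) P := fun x =>
    Integrable.of_bound (mGc x).aestronglyMeasurable 1
      (Filter.Eventually.of_forall fun y => by rw [RCLike.norm_conj]; exact hG1 x y)
  have iGG : ∀ x x', Integrable (fun y => G x y * (starRingEnd ℂ) (G x' y)) P := fun x x' =>
    Integrable.of_bound ((hG x).mul (mGc x')).aestronglyMeasurable 1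
      (Filter.Eventually.of_forall fun y => by
        rw [norm_mul, RCLike.norm_conj]
        exact mul_le_one₀ (hG1 x y) (norm_nonneg _) (hG1 x' y))
  have hc : ∀ x x', ∫ y, (G x y - (Φ : ℂ)) * ((starRingEnd ℂ) (G x' y) - (Φ : ℂ)) ∂P =
      (∫ y, G x y * (starRingEnd ℂ) (G x' y) ∂P) - (Φ : ℂ) * Φ := by
    intro x x'
    have h1 : ∀ y, (G x y - (Φ : ℂ)) * ((starRingEnd ℂ) (G x' y) - (Φ : ℂ)) =
        G x y * (starRingEnd ℂ) (G x' y) - (Φ : ℂ) * G x y - (Φ : ℂ) * (starRingEnd ℂ) (G x' y) +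
          (Φ : ℂ) * Φ := fun y => by ring
    simp only [h1]
    have j1 : Integrable (fun y => G x y * (starRingEnd ℂ) (G x' y) - (Φ : ℂ) * G x y) P :=
      (iGG x x').sub ((iG x).const_mul _)
    have j2 : Integrable (fun y => G x y * (starRingEnd ℂ) (G x' y) - (Φ : ℂ) * G x y -
        (Φ : ℂ) * (starRingEnd ℂ) (G x' y)) P := j1.sub ((iGc x').const_mul _)
    rw [integral_add j2 (integrable_const _), integral_sub j1 ((iGc x').const_mul _),
      integral_sub (iGG x x') ((iG x).const_mul _), integral_const_mul, integral_const_mul, hi,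
      integral_conj, hi, Complex.conj_ofReal, integral_const]
    simp only [probReal_univ, one_smul]
    ring
  have hic : ∀ x x', Integrable (fun y => (G x y - (Φ : ℂ)) * ((starRingEnd ℂ) (G x' y) - (Φ : ℂ))) P := by
    intro x x'
    refine Integrable.of_bound (((hG x).sub_const _).mul ((mGc x').sub_const _)).aestronglyMeasurable
      ((1 + ‖(Φ : ℂ)‖) * (1 + ‖(Φ : ℂ)‖)) (Filter.Eventually.of_forall fun y => ?_)
    rw [norm_mul]
    refine mul_le_mul ((norm_sub_le _ _).trans (add_le_add (hG1 x y) le_rfl))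
      ((norm_sub_le _ _).trans (add_le_add ?_ le_rfl)) (norm_nonneg _) (by positivity)
    rw [RCLike.norm_conj]
    exact hG1 x' y
  have hsq : ((∫ y, ‖(∑ x ∈ I, (G x y - (Φ : ℂ))) / (n : ℂ)‖ ^ 2 ∂P : ℝ) : ℂ) =
      (∑ x ∈ I, ∑ x' ∈ I, ((∫ y, G x y * (starRingEnd ℂ) (G x' y) ∂P) - (Φ : ℂ) * Φ)) / ((n * n : ℝ) : ℂ) := by
    rw [← integral_complex_ofReal]
    have h1 : ∀ y, ((‖(∑ x ∈ I, (G x y - (Φ : ℂ))) / (n : ℂ)‖ ^ 2 : ℝ) : ℂ) =
        (∑ x ∈ I, ∑ x' ∈ I, (G x y - (Φ : ℂ)) * ((starRingEnd ℂ) (G x' y) - (Φ : ℂ))) /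
          ((n * n : ℝ) : ℂ) := by
      intro y
      have h2 : ((‖(∑ x ∈ I, (G x y - (Φ : ℂ))) / (n : ℂ)‖ ^ 2 : ℝ) : ℂ) =
          ((∑ x ∈ I, (G x y - (Φ : ℂ))) / (n : ℂ)) *
            (starRingEnd ℂ) ((∑ x ∈ I, (G x y - (Φ : ℂ))) / (n : ℂ)) := by
        rw [Complex.mul_conj, Complex.normSq_eq_norm_sq]
      rw [h2, map_div₀, map_sum, Complex.conj_ofReal, div_mul_div_comm, Finset.sum_mul_sum]
      push_cast
      congr 1
      refine Finset.sum_congr rfl fun x _ => Finset.sum_congr rfl fun x' _ => ?_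
      rw [map_sub, Complex.conj_ofReal]
    simp only [h1]
    rw [integral_div, integral_finset_sum _ fun x _ => integrable_finset_sum _ fun x' _ => hic x x']
    congr 1
    refine Finset.sum_congr rfl fun x _ => ?_
    rw [integral_finset_sum _ fun x' _ => hic x x']
    exact Finset.sum_congr rfl fun x' _ => hc x x'
  have h0 : 0 ≤ ∫ y, ‖(∑ x ∈ I, (G x y - (Φ : ℂ))) / (n : ℂ)‖ ^ 2 ∂P := integral_nonneg fun y => sq_nonneg _
  have h3 : ‖((∫ y, ‖(∑ x ∈ I, (G x y - (Φ : ℂ))) / (n : ℂ)‖ ^ 2 ∂P : ℝ) : ℂ)‖ ≤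
      (∑ x ∈ I, ∑ x' ∈ I, b x x') / (n * n) := by
    rw [hsq, norm_div, Complex.norm_real, Real.norm_of_nonneg (by positivity : 0 ≤ n * n)]
    refine div_le_div_of_nonneg_right ?_ (by positivity)
    refine (norm_sum_le _ _).trans (Finset.sum_le_sum fun x _ => ?_)
    exact (norm_sum_le _ _).trans (Finset.sum_le_sum fun x' _ => hb x x')
  rwa [Complex.norm_real, Real.norm_of_nonneg h0] at h3

/-- The box averages of the exponentials on the product system tend to their mean in L^2.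
int |Bs F|^2 = mean over x, x' in the box of [prod phi_j^2 exp (rr (c_j) (c_j) (Cm_j . (x - x')))
- prod phi_j^2], phi_j = exp(-vv c_j/2) (Fubini, int_ei, vv_sub), of modulus ≤ C sum over j of
|rr (..)| (all rr bounded, rr_le); for each j choose l with Cm j l ≠ 0, fix the other coordinates and
x'_l: as x_l = Q t runs over t < m = M0^(l+1)/Q + 1 the argument runs over an arithmetic progression
of difference Cm j l * Q inside a window of length |Cm j l| Q m: rr_density and Cauchy-Schwarz. -/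
theorem box_mean {ω : Measure W} {R : W ≃ᵐ W} {X : ℕ → W → ℝ} (h : GSys ω R X) {d k : ℕ}
    (Cm : Fin (k + 1) → Fin d → ℤ) (hC : ∀ j, ∃ l, Cm j l ≠ 0)
    (c : Fin (k + 1) → (ℕ × ℤ) →₀ ℝ) (Q : ℕ) (hQ : 1 ≤ Q) :
    Tendsto (fun M0 : ℕ => ∫ y, ‖Bs (Tp R Cm) M0 Q
      (fun y => ∏ j, ei (LF R X (c j) (y j)) - ∏ j, (Real.exp (-(vv ω R X (c j)) / 2) : ℂ)) y‖ ^ 2
        ∂(Measure.pi (fun _ : Fin (k + 1) => ω))) atTop (𝓝 0) := by
  classical
  have hprob : IsProbabilityMeasure ω := h.gauss.isProbabilityMeasure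
  have hmp : MeasurePreserving R ω ω := h.erg.toMeasurePreserving
  have hm : ∀ j, Measurable fun w => ei (LF R X (c j) w) := fun j =>
    ei_cont.measurable.comp (LF_meas h (c j))
  obtain ⟨Φ, hΦ⟩ : ∃ Φ : ℝ, Φ = ∏ j, Real.exp (-(vv ω R X (c j)) / 2) := ⟨_, rfl⟩
  have hΦc : (∏ j, (Real.exp (-(vv ω R X (c j)) / 2) : ℂ)) = (Φ : ℂ) := by
    rw [hΦ, Complex.ofReal_prod]
  have hΦ2 : Φ * Φ = Real.exp (-(∑ j, vv ω R X (c j))) := by
    rw [hΦ, ← Real.exp_sum, ← Real.exp_add, ← Finset.sum_div, Finset.sum_neg_distrib]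
    congr 1
    ring
  -- the shifts
  obtain ⟨sf, hsf⟩ : ∃ sf : (Fin d → ℕ) → Fin (k + 1) → ℤ,
      ∀ x j, sf x j = ∑ l, Cm j l * ((Q * x l : ℕ) : ℤ) := ⟨_, fun x j => rfl⟩
  obtain ⟨G, hG⟩ : ∃ G : (Fin d → ℕ) → (Fin (k + 1) → W) → ℂ,
      ∀ x y, G x y = ∏ j, ei (LF R X (c j) (pw R (sf x j) (y j))) := ⟨_, fun x y => rfl⟩
  have hGm : ∀ x, Measurable (G x) := by
    intro x
    have h1 : G x = fun y => ∏ j, ei (LF R X (c j) (pw R (sf x j) (y j))) := funext (hG x)
    rw [h1]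
    refine Finset.measurable_prod _ fun j _ => ?_
    exact ((hm j).comp (pw_meas R (sf x j))).comp (measurable_pi_apply j)
  have hGn : ∀ x y, ‖G x y‖ = 1 := by
    intro x y
    rw [hG, norm_prod]
    exact Finset.prod_eq_one fun j _ => norm_ei _
  have hGi : ∀ x, ∫ y, G x y ∂(Measure.pi (fun _ : Fin (k + 1) => ω)) = (Φ : ℂ) := by
    intro x
    simp only [hG]
    rw [integral_fintype_prod_eq_prod (fun (j : Fin (k + 1)) (w : W) => ei (LF R X (c j) (pw R (sf x j) w))),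
      ← hΦc]
    refine Finset.prod_congr rfl fun j _ => ?_
    rw [← int_ei h]
    exact GB1_int ω (pw R (sf x j)) (pw_mp ω R hmp _) (fun w => ei (LF R X (c j) w)) (hm j)
  have hGG : ∀ x x', ‖(∫ y, G x y * (starRingEnd ℂ) (G x' y) ∂(Measure.pi (fun _ : Fin (k + 1) => ω))) -
      (Φ : ℂ) * Φ‖ ≤ ∑ j, |rr ω R X (c j) (c j) (sf x j - sf x' j)| := by
    intro x x'
    have h1 : ∀ y, G x y * (starRingEnd ℂ) (G x' y) =
        ∏ j, ei (LF R X (sh (sf x j) (c j) - sh (sf x' j) (c j)) (y j)) := by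
      intro y
      rw [hG, hG, map_prod, ← Finset.prod_mul_distrib]
      refine Finset.prod_congr rfl fun j _ => ?_
      rw [LF_sub, LF_sh, LF_sh, sub_eq_add_neg, ei_add, ei_neg]
    simp only [h1]
    rw [integral_fintype_prod_eq_prod (fun (j : Fin (k + 1)) (w : W) =>
      ei (LF R X (sh (sf x j) (c j) - sh (sf x' j) (c j)) w))]
    have h2 : ∀ j ∈ (Finset.univ : Finset (Fin (k + 1))),
        ∫ w, ei (LF R X (sh (sf x j) (c j) - sh (sf x' j) (c j)) w) ∂ω =
        ((Real.exp (-(vv ω R X (c j))) * Real.exp (rr ω R X (c j) (c j) (sf x j - sf x' j)) : ℝ) : ℂ) := by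
      intro j _
      rw [int_ei h, vv_sub h, ← Real.exp_add]
      congr 2
      ring
    rw [Finset.prod_congr rfl h2, ← Complex.ofReal_prod, Finset.prod_mul_distrib, ← Real.exp_sum,
      ← Real.exp_sum, Finset.sum_neg_distrib, ← Complex.ofReal_mul, ← Complex.ofReal_sub, hΦ2,
      Complex.norm_real, Real.norm_eq_abs]
    have h3 : |∑ j, rr ω R X (c j) (c j) (sf x j - sf x' j)| ≤ ∑ j, vv ω R X (c j) := by
      refine (Finset.abs_sum_le_sum_abs _ _).trans (Finset.sum_le_sum fun j _ => ?_)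
      have := rr_le h (c j) (c j) (sf x j - sf x' j)
      linarith
    have h4 := GB4_exp _ _ h3
    rw [mul_sub, mul_one] at h4
    exact h4.trans (Finset.abs_sum_le_sum_abs _ _)
  -- uniform smallness
  rw [Metric.tendsto_atTop]
  intro ε hε
  have hloc : ∀ j : Fin (k + 1), ∃ l : Fin d, Cm j l ≠ 0 := hC
  choose l hl using hloc
  have hunif : ∀ j : Fin (k + 1), ∃ L0 : ℕ, ∀ m : ℕ, L0 ≤ m → ∀ b : ℤ,
      ∑ s ∈ range m, |rr ω R X (c j) (c j) ((Cm j (l j) * Q) * (s : ℤ) + b)| ≤ ε / (2 * (k + 1)) * m := by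
    intro j
    refine GC2_unif (fun m => rr ω R X (c j) (c j) m)
      (fun ε hε => rr_density h (c j) (c j) ε hε) _ ?_ _ (by positivity)
    have hQ0 : (Q : ℤ) ≠ 0 := by
      have : Q ≠ 0 := by omega
      exact_mod_cast this
    exact mul_ne_zero (hl j) hQ0
  choose L0 hL0 using hunif
  refine ⟨Q * (∑ j, L0 j + 1), fun M0 hM0 => ?_⟩
  obtain ⟨t, ht⟩ : ∃ t : Fin d → ℕ, ∀ l, t l = M0 ^ ((l : ℕ) + 1) / Q + 1 := ⟨_, fun l => rfl⟩
  have ht1 : ∀ l, 1 ≤ t l := fun l => by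
    rw [ht]
    exact Nat.succ_pos _
  have htL : ∀ j l, L0 j ≤ t l := by
    intro j l
    rw [ht]
    have hM1 : 1 ≤ M0 := by
      have : 1 ≤ Q * (∑ j, L0 j + 1) := Nat.mul_pos hQ (Nat.succ_pos _)
      omega
    have h1 : M0 ≤ M0 ^ ((l : ℕ) + 1) := Nat.le_self_pow (Nat.succ_ne_zero _) M0
    have h2 : ∑ j, L0 j + 1 ≤ M0 / Q := (Nat.le_div_iff_mul_le hQ).2 (by rw [mul_comm]; exact hM0)
    have h3 : M0 / Q ≤ M0 ^ ((l : ℕ) + 1) / Q := Nat.div_le_div_right h1
    have h4 : L0 j ≤ ∑ j, L0 j := Finset.single_le_sum (fun _ _ => Nat.zero_le _) (Finset.mem_univ j)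
    omega
  obtain ⟨n, hn⟩ : ∃ n : ℕ, n = ∏ l, t l := ⟨_, rfl⟩
  have hn1 : (0 : ℝ) < n := by
    rw [hn]
    exact_mod_cast Finset.prod_pos fun l _ => ht1 l
  set I : Finset (Fin d → ℕ) := Fintype.piFinset fun l => range (t l) with hI
  have hIc : I.card = n := by
    rw [hI, Fintype.card_piFinset, hn]
    exact Finset.prod_congr rfl fun l _ => Finset.card_range _
  have hBs : ∀ y : Fin (k + 1) → W, Bs (Tp R Cm) M0 Q
      (fun y => ∏ j, ei (LF R X (c j) (y j)) - ∏ j, (Real.exp (-(vv ω R X (c j)) / 2) : ℂ)) y =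
      (∑ x ∈ I, (G x y - (Φ : ℂ))) / ((n : ℝ) : ℂ) := by
    intro y
    unfold Bs
    have h1 : (Fintype.piFinset fun l : Fin d => range (M0 ^ ((l : ℕ) + 1) / Q + 1)) = I := by
      rw [hI]
      congr 1
      funext l
      rw [ht]
    have h2 : (∏ l : Fin d, ((M0 ^ ((l : ℕ) + 1) / Q + 1 : ℕ) : ℂ)) = ((n : ℝ) : ℂ) := by
      rw [hn]
      push_cast
      refine Finset.prod_congr rfl fun l _ => ?_
      rw [ht]
      push_cast
      rfl
    rw [h1, h2, hΦc]
    congr 1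
    refine Finset.sum_congr rfl fun x _ => ?_
    have h3 : ∏ j, ei (LF R X (c j) (Tp R Cm (fun l => ((Q * x l : ℕ) : ℤ)) y j)) = G x y := by
      rw [hG]
      refine Finset.prod_congr rfl fun j _ => ?_
      rw [hsf]
      rfl
    exact congrArg (fun z => z - (Φ : ℂ)) h3
  simp only [hBs]
  have hvar := GC2_var (Measure.pi (fun _ : Fin (k + 1) => ω)) I G hGm (fun x y => (hGn x y).le) Φ
    hGi (fun x x' => ∑ j, |rr ω R X (c j) (c j) (sf x j - sf x' j)|) hGG n hn1
  have hsum : ∑ x ∈ I, ∑ x' ∈ I, ∑ j, |rr ω R X (c j) (c j) (sf x j - sf x' j)| ≤ ε / 2 * (n * n) := by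
    have h1 : ∀ x' ∈ I, ∀ j ∈ (Finset.univ : Finset (Fin (k + 1))),
        ∑ x ∈ I, |rr ω R X (c j) (c j) (sf x j - sf x' j)| ≤ ε / (2 * (k + 1)) * n := by
      intro x' _ j _
      have h2 := GC2_box t ht1 (l j) (fun x => |rr ω R X (c j) (c j) (sf x j - sf x' j)|)
        (ε / (2 * (k + 1))) (fun x => by
          refine le_trans (le_of_eq ?_) (hL0 j (t (l j)) (htL j (l j))
            (sf (Function.update x (l j) 0) j - sf x' j))
          refine Finset.sum_congr rfl fun s _ => ?_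
          have h3 : sf (Function.update x (l j) s) j =
              Cm j (l j) * Q * (s : ℤ) + sf (Function.update x (l j) 0) j := by
            rw [hsf, hsf]
            exact GC2_upd (Cm j) Q x (l j) s
          show |rr ω R X (c j) (c j) (sf (Function.update x (l j) s) j - sf x' j)| = _
          rw [h3]
          congr 2
          ring)
      refine h2.trans (le_of_eq ?_)
      rw [hn]
    rw [Finset.sum_comm]
    calc ∑ x' ∈ I, ∑ x ∈ I, ∑ j, |rr ω R X (c j) (c j) (sf x j - sf x' j)|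
        = ∑ x' ∈ I, ∑ j, ∑ x ∈ I, |rr ω R X (c j) (c j) (sf x j - sf x' j)| :=
          Finset.sum_congr rfl fun x' _ => Finset.sum_comm
      _ ≤ ∑ x' ∈ I, ∑ j : Fin (k + 1), ε / (2 * (k + 1)) * n :=
          Finset.sum_le_sum fun x' hx' => Finset.sum_le_sum fun j hj => h1 x' hx' j hj
      _ = ε / 2 * (n * n) := by
          rw [Finset.sum_const, Finset.sum_const, hIc, Finset.card_univ, Fintype.card_fin, nsmul_eq_mul,
            nsmul_eq_mul]
          push_cast
          field_simp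
  have hfin : ∫ y, ‖(∑ x ∈ I, (G x y - (Φ : ℂ))) / ((n : ℝ) : ℂ)‖ ^ 2
      ∂(Measure.pi (fun _ : Fin (k + 1) => ω)) ≤ ε / 2 := by
    refine hvar.trans ?_
    rw [div_le_iff₀ (by positivity)]
    refine hsum.trans (le_of_eq ?_)
    ring
  rw [Real.dist_eq, sub_zero, abs_of_nonneg (integral_nonneg fun y => sq_nonneg _)]
  linarith
/- END GC2 -/

/- MODULE GC3 -/
/-- POINTWISE CONVERGENCE ON INDEPENDENT COPIES. Let d = natDegree p ≥ 1. For each j the polynomial
p(X + j) = C0_j + sum over l : Fin d of Cm j l X^(l+1), Cm j (d-1) = leading coefficient ≠ 0. With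
c'_j = sh C0_j (t • c_j): t * LF (c_j) (pw R (p(n+j)) (y j)) = LF (c'_j) (Tp R Cm (gam d n) y j).
conv_sys for F = prod ei (LF c'_j (y j)) - prod exp(-vv c'_j/2), box_mean, vv_sh, vv_smul. -/
theorem conv_prod {ω : Measure W} {R : W ≃ᵐ W} {X : ℕ → W → ℝ} (h : GSys ω R X) (p : ℤ[X])
    (hp : 1 ≤ p.natDegree) (k : ℕ) (t : ℝ) (c : Fin (k + 1) → (ℕ × ℤ) →₀ ℝ) :
    ∀ᵐ y ∂(Measure.pi (fun _ : Fin (k + 1) => ω)),
      Tendsto (fun N : ℕ => (∑ n ∈ range N,
        ei (t * ∑ j, LF R X (c j) (pw R (p.eval ((n : ℤ) + (j : ℕ))) (y j)))) / (N : ℂ))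
        atTop (𝓝 (∏ j, (Real.exp (-(t ^ 2 * vv ω R X (c j)) / 2) : ℂ))) := by
  classical
  have hprob : IsProbabilityMeasure ω := h.gauss.isProbabilityMeasure
  have hmp : MeasurePreserving R ω ω := h.erg.toMeasurePreserving
  obtain ⟨d, hd⟩ : ∃ d, d = p.natDegree := ⟨_, rfl⟩
  obtain ⟨P, hP⟩ : ∃ P : Fin (k + 1) → ℤ[X], ∀ j, P j = p.comp (Polynomial.X + Polynomial.C ((j : ℕ) : ℤ)) :=
    ⟨_, fun j => rfl⟩
  have hPd : ∀ j, (P j).natDegree = d := by
    intro j
    rw [hP, Polynomial.natDegree_comp, Polynomial.natDegree_X_add_C, mul_one, hd]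
  have hPe : ∀ j (n : ℤ), (P j).eval n = p.eval (n + (j : ℕ)) := by
    intro j n
    rw [hP, Polynomial.eval_comp, Polynomial.eval_add, Polynomial.eval_X, Polynomial.eval_C]
  have hPs : ∀ j (n : ℕ), (P j).eval (n : ℤ) =
      (∑ l : Fin d, (P j).coeff ((l : ℕ) + 1) * gam d n l) + (P j).coeff 0 := by
    intro j n
    rw [Polynomial.eval_eq_sum_range, hPd, Finset.sum_range_succ', pow_zero, mul_one]
    congr 1
    rw [Finset.sum_range fun i => (P j).coeff (i + 1) * (n : ℤ) ^ (i + 1)]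
    rfl
  obtain ⟨c', hc'⟩ : ∃ c' : Fin (k + 1) → (ℕ × ℤ) →₀ ℝ, ∀ j, c' j = sh ((P j).coeff 0) (t • c j) :=
    ⟨_, fun j => rfl⟩
  obtain ⟨Cm, hCm⟩ : ∃ Cm : Fin (k + 1) → Fin d → ℤ, ∀ j l, Cm j l = (P j).coeff ((l : ℕ) + 1) :=
    ⟨_, fun j l => rfl⟩
  have hC : ∀ j, ∃ l, Cm j l ≠ 0 := by
    intro j
    refine ⟨⟨d - 1, by omega⟩, ?_⟩
    rw [hCm]
    have h1 : d - 1 + 1 = (P j).natDegree := by
      rw [hPd]
      omega
    show (P j).coeff (d - 1 + 1) ≠ 0
    rw [h1, Polynomial.coeff_natDegree, Ne, Polynomial.leadingCoeff_eq_zero]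
    intro h2
    have h3 := hPd j
    rw [h2, Polynomial.natDegree_zero] at h3
    omega
  have hvv : ∀ j, vv ω R X (c' j) = t ^ 2 * vv ω R X (c j) := by
    intro j
    rw [hc', vv_sh h, vv_smul]
  have hLF : ∀ (y : Fin (k + 1) → W) (n : ℕ) (j : Fin (k + 1)),
      LF R X (c' j) (Tp R Cm (gam d n) y j) =
        t * LF R X (c j) (pw R (p.eval ((n : ℤ) + (j : ℕ))) (y j)) := by
    intro y n j
    rw [hc', LF_sh, LF_smul]
    congr 2
    show pw R ((P j).coeff 0) (pw R (∑ l, Cm j l * gam d n l) (y j)) = _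
    rw [← pw_add, ← hPe, hPs, add_comm]
    simp only [hCm]
  have hm : ∀ j, Measurable fun w => ei (LF R X (c' j) w) := fun j =>
    ei_cont.measurable.comp (LF_meas h (c' j))
  have hF : Measurable fun y : Fin (k + 1) → W =>
      ∏ j, ei (LF R X (c' j) (y j)) - ∏ j, (Real.exp (-(vv ω R X (c' j)) / 2) : ℂ) := by
    refine Measurable.sub_const ?_ _
    exact Finset.measurable_prod _ fun j _ => (hm j).comp (measurable_pi_apply j)
  have hB : ∀ y : Fin (k + 1) → W,
      ‖∏ j, ei (LF R X (c' j) (y j)) - ∏ j, (Real.exp (-(vv ω R X (c' j)) / 2) : ℂ)‖ ≤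
        1 + ‖∏ j, (Real.exp (-(vv ω R X (c' j)) / 2) : ℂ)‖ := by
    intro y
    refine (norm_sub_le _ _).trans (add_le_add (le_of_eq ?_) le_rfl)
    rw [norm_prod]
    exact Finset.prod_eq_one fun j _ => norm_ei _
  have h1 := conv_sys d (Measure.pi (fun _ : Fin (k + 1) => ω)) (Tp R Cm) (Tp_act ω R hmp Cm) _ hF _ hB
    fun Q hQ => box_mean h Cm hC c' Q hQ
  filter_upwards [h1] with y hy
  have h2 : ∀ N : ℕ, 1 ≤ N → As (Tp R Cm) N (fun y : Fin (k + 1) → W =>
      ∏ j, ei (LF R X (c' j) (y j)) - ∏ j, (Real.exp (-(vv ω R X (c' j)) / 2) : ℂ)) y +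
        ∏ j, (Real.exp (-(t ^ 2 * vv ω R X (c j)) / 2) : ℂ) = (∑ n ∈ range N,
        ei (t * ∑ j, LF R X (c j) (pw R (p.eval ((n : ℤ) + (j : ℕ))) (y j)))) / (N : ℂ) := by
    intro N hN
    have hNc : (N : ℂ) ≠ 0 := Nat.cast_ne_zero.2 (by omega)
    unfold As
    have h3 : ∀ n ∈ range N, (∏ j, ei (LF R X (c' j) (Tp R Cm (gam d n) y j)) -
        ∏ j, (Real.exp (-(vv ω R X (c' j)) / 2) : ℂ)) =
        ei (t * ∑ j, LF R X (c j) (pw R (p.eval ((n : ℤ) + (j : ℕ))) (y j))) -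
          ∏ j, (Real.exp (-(t ^ 2 * vv ω R X (c j)) / 2) : ℂ) := by
      intro n _
      rw [Finset.mul_sum, ei_sum]
      simp only [hLF, hvv]
    rw [Finset.sum_congr rfl h3, Finset.sum_sub_distrib, Finset.sum_const, Finset.card_range, nsmul_eq_mul,
      sub_div, mul_div_cancel_left₀ _ hNc]
    ring
  have h3 := hy.add_const (∏ j, (Real.exp (-(t ^ 2 * vv ω R X (c j)) / 2) : ℂ))
  rw [zero_add] at h3
  refine h3.congr' ?_
  filter_upwards [eventually_ge_atTop 1] with N hN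
  exact h2 N hN
/- END GC3 -/

/- MODULE GD1 -/
private theorem GD1_dual {I : Finset ℕ} (L : StrongDual ℝ (I → ℝ)) :
    ∃ t : I → ℝ, ∀ v : I → ℝ, L v = ∑ i, t i * v i := by
  classical
  refine ⟨fun i => L fun j => if i = j then 1 else 0, fun v => ?_⟩
  have h1 := LinearMap.pi_apply_eq_sum_univ (L : (I → ℝ) →ₗ[ℝ] ℝ) v
  simp only [ContinuousLinearMap.coe_coe, smul_eq_mul] at h1
  rw [h1]
  exact Finset.sum_congr rfl fun i _ => mul_comm _ _

private theorem GD1_m1 {ω : Measure W} {R : W ≃ᵐ W} {X : ℕ → W → ℝ} (h : GSys ω R X) {k : ℕ}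
    (c : Fin (k + 1) → (ℕ × ℤ) →₀ ℝ) (s : ℕ → Fin (k + 1) → ℤ) (a : ℝ) :
    Measurable (fun (y : Fin (k + 1) → W) (n : ℕ) =>
      a * ∑ j, LF R X (c j) (pw R (s n j) (y j))) := by
  refine measurable_pi_lambda _ fun n => Measurable.const_mul ?_ _
  exact Finset.measurable_fun_sum _ fun j _ =>
    ((LF_meas h (c j)).comp (pw_meas R (s n j))).comp (measurable_pi_apply j)

private theorem GD1_m2 {ω : Measure W} {R : W ≃ᵐ W} {X : ℕ → W → ℝ} (h : GSys ω R X) {k : ℕ}
    (c : Fin (k + 1) → (ℕ × ℤ) →₀ ℝ) (s : ℕ → Fin (k + 1) → ℤ) (n : ℕ) :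
    Measurable (fun z : Fin (k + 1) × Fin (k + 1) → W => (1 / Real.sqrt 2) * ∑ i, ∑ j,
          (LF R X (c i) (pw R (s n i) (z (i, j))) -
            LF R X (c j) (pw R (s n j) (z (i, j))))) := by
  refine Measurable.const_mul ?_ _
  refine Finset.measurable_fun_sum _ fun i _ => Finset.measurable_fun_sum _ fun j _ => ?_
  exact (((LF_meas h (c i)).comp (pw_meas R (s n i))).comp (measurable_pi_apply (i, j))).sub
    (((LF_meas h (c j)).comp (pw_meas R (s n j))).comp (measurable_pi_apply (i, j)))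

private theorem GD1_m3 {ω : Measure W} {R : W ≃ᵐ W} {X : ℕ → W → ℝ} (h : GSys ω R X) {k : ℕ}
    (c : Fin (k + 1) → (ℕ × ℤ) →₀ ℝ) (s : ℕ → Fin (k + 1) → ℤ) :
    Measurable (fun (wz : W × (Fin (k + 1) × Fin (k + 1) → W)) (n : ℕ) =>
        (∑ j, LF R X (c j) (pw R (s n j) wz.1)) + (1 / Real.sqrt 2) * ∑ i, ∑ j,
          (LF R X (c i) (pw R (s n i) (wz.2 (i, j))) -
            LF R X (c j) (pw R (s n j) (wz.2 (i, j))))) := by
  refine measurable_pi_lambda _ fun n => Measurable.add ?_ ((GD1_m2 h c s n).comp measurable_snd)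
  exact Finset.measurable_fun_sum _ fun j _ =>
    ((LF_meas h (c j)).comp (pw_meas R (s n j))).comp measurable_fst

private theorem GD1_prod {ι κ : Type*} (s : Finset ι) (s' : Finset κ) (a : ι → ℝ) (b : ℝ)
    (e : κ → ℝ) (h : ∑ i ∈ s, a i = b + ∑ i ∈ s', e i) :
    ∏ i ∈ s, (Real.exp (a i) : ℂ) = (Real.exp b : ℂ) * ∏ i ∈ s', (Real.exp (e i) : ℂ) := by
  rw [← Complex.ofReal_prod, ← Complex.ofReal_prod, ← Complex.ofReal_mul, ← Real.exp_sum,
    ← Real.exp_sum, ← Real.exp_add, h]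

/-- GAUSSIAN DOMINATION, equality of laws. Both sequences are compared through their finite
dimensional distributions (ProbabilityTheory.map_eq_iff_forall_finset_map_restrict_eq) and these
through characteristic functions (Measure.ext_of_charFun or charFunDual). For finitely supported
t : N → R put x_j = sum over n of t_n sh (s n j) (c j) (coefficients of sum t_n LF c_j o R^(s n j)).
Left: int ei (sqrt (k+1) sum over j of LF x_j (y j)) = prod over j of exp (-(k+1) vv x_j/2)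
(Fubini for Measure.pi, int_ei, vv_smul). Right: int ei (LF (sum x_j) w) * prod over (i, j) of
int ei ((1/sqrt 2) LF (x_i - x_j) z) = exp (-vv (sum x_j)/2) prod exp (-vv (x_i - x_j)/4). Equal by
lagrange. -/
theorem law_eq {ω : Measure W} {R : W ≃ᵐ W} {X : ℕ → W → ℝ} (h : GSys ω R X) (k : ℕ)
    (c : Fin (k + 1) → (ℕ × ℤ) →₀ ℝ) (s : ℕ → Fin (k + 1) → ℤ) :
    (Measure.pi (fun _ : Fin (k + 1) => ω)).map
      (fun y (n : ℕ) => Real.sqrt ((k : ℝ) + 1) * ∑ j, LF R X (c j) (pw R (s n j) (y j)))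
    = (ω.prod (Measure.pi (fun _ : Fin (k + 1) × Fin (k + 1) => ω))).map
      (fun (wz : W × (Fin (k + 1) × Fin (k + 1) → W)) (n : ℕ) =>
        (∑ j, LF R X (c j) (pw R (s n j) wz.1)) + (1 / Real.sqrt 2) * ∑ i, ∑ j,
          (LF R X (c i) (pw R (s n i) (wz.2 (i, j))) - LF R X (c j) (pw R (s n j) (wz.2 (i, j))))) := by
  classical
  have hP : IsProbabilityMeasure ω := h.gauss.isProbabilityMeasure
  have hm1 := GD1_m1 h c s (Real.sqrt ((k : ℝ) + 1))
  have hm2 := GD1_m3 h c s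
  have hl1 := isProjectiveLimit_map (P := Measure.pi (fun _ : Fin (k + 1) => ω))
    (X := fun (n : ℕ) (y : Fin (k + 1) → W) =>
      Real.sqrt ((k : ℝ) + 1) * ∑ j, LF R X (c j) (pw R (s n j) (y j))) hm1.aemeasurable
  have hl2 := isProjectiveLimit_map
    (P := ω.prod (Measure.pi (fun _ : Fin (k + 1) × Fin (k + 1) => ω)))
    (X := fun (n : ℕ) (wz : W × (Fin (k + 1) × Fin (k + 1) → W)) =>
        (∑ j, LF R X (c j) (pw R (s n j) wz.1)) + (1 / Real.sqrt 2) * ∑ i, ∑ j,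
          (LF R X (c i) (pw R (s n i) (wz.2 (i, j))) -
            LF R X (c j) (pw R (s n j) (wz.2 (i, j))))) hm2.aemeasurable
  refine hl1.unique ?_
  have hfin : ∀ I : Finset ℕ, (Measure.pi (fun _ : Fin (k + 1) => ω)).map
      (fun y => I.restrict fun n : ℕ =>
        Real.sqrt ((k : ℝ) + 1) * ∑ j, LF R X (c j) (pw R (s n j) (y j))) =
      (ω.prod (Measure.pi (fun _ : Fin (k + 1) × Fin (k + 1) => ω))).map
      (fun (wz : W × (Fin (k + 1) × Fin (k + 1) → W)) => I.restrict fun n : ℕ =>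
        (∑ j, LF R X (c j) (pw R (s n j) wz.1)) + (1 / Real.sqrt 2) * ∑ i, ∑ j,
          (LF R X (c i) (pw R (s n i) (wz.2 (i, j))) -
            LF R X (c j) (pw R (s n j) (wz.2 (i, j))))) := by
    intro I
    have hr1 : Measurable (fun y : Fin (k + 1) → W => I.restrict fun n : ℕ =>
        Real.sqrt ((k : ℝ) + 1) * ∑ j, LF R X (c j) (pw R (s n j) (y j))) :=
      (Finset.measurable_restrict I).comp hm1
    have hr2 : Measurable (fun (wz : W × (Fin (k + 1) × Fin (k + 1) → W)) => I.restrict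
        fun n : ℕ => (∑ j, LF R X (c j) (pw R (s n j) wz.1)) + (1 / Real.sqrt 2) * ∑ i, ∑ j,
          (LF R X (c i) (pw R (s n i) (wz.2 (i, j))) -
            LF R X (c j) (pw R (s n j) (wz.2 (i, j))))) :=
      (Finset.measurable_restrict I).comp hm2
    have hf1 := Measure.isProbabilityMeasure_map hr1.aemeasurable
      (μ := Measure.pi (fun _ : Fin (k + 1) => ω))
    have hf2 := Measure.isProbabilityMeasure_map hr2.aemeasurable
      (μ := ω.prod (Measure.pi (fun _ : Fin (k + 1) × Fin (k + 1) => ω)))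
    apply Measure.ext_of_charFunDual
    funext L
    obtain ⟨t, ht⟩ := GD1_dual L
    have hLc : Continuous fun v : I → ℝ => Complex.exp (L v * Complex.I) := by fun_prop
    rw [charFunDual_apply, charFunDual_apply, integral_map hr1.aemeasurable
      hLc.aestronglyMeasurable, integral_map hr2.aemeasurable hLc.aestronglyMeasurable]
    -- the coefficients
    let x : Fin (k + 1) → (ℕ × ℤ) →₀ ℝ := fun j => ∑ n : I, t n • sh (s n j) (c j)
    have hx : ∀ j w, LF R X (x j) w = ∑ n : I, t n * LF R X (c j) (pw R (s n j) w) := by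
      intro j w
      simp only [x]
      rw [LF_sum]
      exact Finset.sum_congr rfl fun n _ => by rw [LF_smul, LF_sh]
    have hk : (0 : ℝ) ≤ (k : ℝ) + 1 := by positivity
    have e1 : ∀ y : Fin (k + 1) → W, Complex.exp (L (I.restrict fun n : ℕ =>
        Real.sqrt ((k : ℝ) + 1) * ∑ j, LF R X (c j) (pw R (s n j) (y j))) * Complex.I) =
        ∏ j, ei (LF R X (Real.sqrt ((k : ℝ) + 1) • x j) (y j)) := by
      intro y
      rw [← ei_sum, ht]
      unfold ei
      congr 3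
      simp only [LF_smul, hx, Finset.restrict, Finset.mul_sum]
      rw [Finset.sum_comm]
      refine Finset.sum_congr rfl fun j _ => Finset.sum_congr rfl fun n _ => ?_
      ring
    have e2 : ∀ wz : W × (Fin (k + 1) × Fin (k + 1) → W), Complex.exp (L (I.restrict
        fun n : ℕ => (∑ j, LF R X (c j) (pw R (s n j) wz.1)) + (1 / Real.sqrt 2) * ∑ i, ∑ j,
          (LF R X (c i) (pw R (s n i) (wz.2 (i, j))) -
            LF R X (c j) (pw R (s n j) (wz.2 (i, j))))) * Complex.I) =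
        ei (LF R X (∑ j, x j) wz.1) * ∏ q : Fin (k + 1) × Fin (k + 1),
          ei (LF R X ((1 / Real.sqrt 2) • (x q.1 - x q.2)) (wz.2 q)) := by
      intro wz
      rw [← ei_sum, ← ei_add, ht]
      unfold ei
      congr 3
      have e3 : ∀ q : Fin (k + 1) × Fin (k + 1),
          LF R X ((1 / Real.sqrt 2) • (x q.1 - x q.2)) (wz.2 q) =
          ∑ n : I, t n * ((1 / Real.sqrt 2) * (LF R X (c q.1) (pw R (s n q.1) (wz.2 q)) -
            LF R X (c q.2) (pw R (s n q.2) (wz.2 q)))) := by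
        intro q
        rw [LF_smul, LF_sub, hx, hx, ← Finset.sum_sub_distrib, Finset.mul_sum]
        refine Finset.sum_congr rfl fun n _ => ?_
        ring
      simp only [e3]
      rw [LF_sum]
      simp only [hx]
      rw [Finset.sum_comm, Finset.sum_comm (s := (Finset.univ : Finset (Fin (k + 1) × Fin (k + 1)))),
        ← Finset.sum_add_distrib]
      refine Finset.sum_congr rfl fun n _ => ?_
      rw [Fintype.sum_prod_type, ← Finset.mul_sum]
      simp only [Finset.restrict, ← Finset.mul_sum]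
      ring
    simp only [e1, e2]
    rw [integral_fintype_prod_eq_prod (𝕜 := ℂ)
      (fun j => fun w => ei (LF R X (Real.sqrt ((k : ℝ) + 1) • x j) w)),
      integral_prod_mul (fun w => ei (LF R X (∑ j, x j) w))
        (fun z : Fin (k + 1) × Fin (k + 1) → W => ∏ q : Fin (k + 1) × Fin (k + 1),
          ei (LF R X ((1 / Real.sqrt 2) • (x q.1 - x q.2)) (z q))),
      integral_fintype_prod_eq_prod (𝕜 := ℂ)
      (fun q : Fin (k + 1) × Fin (k + 1) => fun w =>
        ei (LF R X ((1 / Real.sqrt 2) • (x q.1 - x q.2)) w))]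
    simp only [int_ei h, vv_smul]
    apply GD1_prod
    have h2 : (1 / Real.sqrt 2) ^ 2 = (1 / 2 : ℝ) := by
      rw [div_pow, Real.sq_sqrt (by norm_num)]
      norm_num
    rw [Real.sq_sqrt hk, h2, Fintype.sum_prod_type]
    have h3 := lagrange h k x
    have h4 : ∑ j, -(((k : ℝ) + 1) * vv ω R X (x j)) / 2 =
        -((((k : ℝ) + 1) * ∑ j, vv ω R X (x j)) / 2) := by
      rw [Finset.mul_sum, Finset.sum_div, ← Finset.sum_neg_distrib]
      exact Finset.sum_congr rfl fun j _ => neg_div _ _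
    have h5 : ∑ i, ∑ j, -(1 / 2 * vv ω R X (x i - x j)) / 2 =
        -((1 / 4) * ∑ i, ∑ j, vv ω R X (x i - x j)) := by
      simp only [Finset.mul_sum, ← Finset.sum_neg_distrib]
      refine Finset.sum_congr rfl fun i _ => Finset.sum_congr rfl fun j _ => ?_
      ring
    rw [h4, h5, h3]
    ring
  have : (fun I : Finset ℕ => (Measure.pi (fun _ : Fin (k + 1) => ω)).map
      (fun y => I.restrict fun n : ℕ =>
        Real.sqrt ((k : ℝ) + 1) * ∑ j, LF R X (c j) (pw R (s n j) (y j)))) = fun I =>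
      (ω.prod (Measure.pi (fun _ : Fin (k + 1) × Fin (k + 1) => ω))).map
      (fun (wz : W × (Fin (k + 1) × Fin (k + 1) → W)) => I.restrict fun n : ℕ =>
        (∑ j, LF R X (c j) (pw R (s n j) wz.1)) + (1 / Real.sqrt 2) * ∑ i, ∑ j,
          (LF R X (c i) (pw R (s n i) (wz.2 (i, j))) -
            LF R X (c j) (pw R (s n j) (wz.2 (i, j))))) := funext hfin
  rw [this]
  exact hl2
/- END GD1 -/

/- MODULE GD2 -/
private theorem GD2_deg (p : ℤ[X]) (hp : 2 ≤ p.natDegree) (a b : ℤ) (hab : a ≠ b) :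
    1 ≤ (p.comp (Polynomial.X + C a) - p.comp (Polynomial.X + C b)).natDegree := by
  obtain ⟨e, he⟩ : ∃ e, p.natDegree = e + 1 := ⟨p.natDegree - 1, by omega⟩
  have h1 : ∀ x : ℤ, (p.comp (Polynomial.X + C x)).coeff e =
      (hasseDeriv e p).coeff 0 + (hasseDeriv e p).coeff 1 * x := by
    intro x
    have h2 := taylor_coeff x p e
    rw [taylor_apply] at h2
    rw [h2, eval_eq_sum_range' (n := 2) (by
      have := natDegree_hasseDeriv_le p e
      omega)]
    simp [Finset.sum_range_succ]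
  have h2 : (hasseDeriv e p).coeff 1 ≠ 0 := by
    rw [hasseDeriv_coeff]
    have h3 : p.coeff (1 + e) ≠ 0 := by
      rw [add_comm, ← he]
      exact leadingCoeff_ne_zero.2 (by rintro rfl; simp at hp)
    have h4 : (((1 + e).choose e : ℕ) : ℤ) ≠ 0 := by
      exact_mod_cast (Nat.choose_pos (by omega)).ne'
    exact mul_ne_zero h4 h3
  have h3 : (p.comp (Polynomial.X + C a) - p.comp (Polynomial.X + C b)).coeff e ≠ 0 := by
    rw [coeff_sub, h1, h1]
    have h4 : (hasseDeriv e p).coeff 0 + (hasseDeriv e p).coeff 1 * a -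
        ((hasseDeriv e p).coeff 0 + (hasseDeriv e p).coeff 1 * b) =
        (hasseDeriv e p).coeff 1 * (a - b) := by ring
    rw [h4]
    exact mul_ne_zero h2 (sub_ne_zero.2 hab)
  have h4 := le_natDegree_of_ne_zero h3
  omega

private theorem GD2_exp {u v : ℝ} (hu : u ≤ 0) (hv : v ≤ 0) :
    |Real.exp u - Real.exp v| ≤ |u - v| := by
  wlog h : u ≤ v generalizing u v
  · rw [abs_sub_comm, abs_sub_comm u]
    exact this hv hu (le_of_not_ge h)
  have h1 : Real.exp u ≤ Real.exp v := Real.exp_le_exp.2 h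
  rw [abs_sub_comm, abs_of_nonneg (by linarith), abs_sub_comm, abs_of_nonneg (by linarith)]
  have h2 := Real.add_one_le_exp (u - v)
  have h3 : Real.exp v ≤ 1 := Real.exp_le_one_iff.2 hv
  have h4 : Real.exp u = Real.exp v * Real.exp (u - v) := by
    rw [← Real.exp_add]
    congr 1
    ring
  have h5 := Real.exp_pos v
  rw [h4]
  nlinarith

/-- The deterministic weights. v_n = exp (-(1/4) sum over i, j of vv (sh (s n i) c_i - sh (s n j) c_j))
with s n j = p(n + j); by vv_sub the exponent is -(k/2) sum vv c_j + (1/2) sum over i ≠ j of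
rr c_i c_j (p(n+i) - p(n+j)) (the diagonal terms i = j are 0), and p(X+i) - p(X+j) has degree ≥ 1 for
i ≠ j because natDegree p ≥ 2; rr_poly, |e^x - e^y| ≤ C |x - y| on bounded sets. -/
theorem weights {ω : Measure W} {R : W ≃ᵐ W} {X : ℕ → W → ℝ} (h : GSys ω R X) (p : ℤ[X])
    (hp : 2 ≤ p.natDegree) (k : ℕ) (c : Fin (k + 1) → (ℕ × ℤ) →₀ ℝ) :
    Tendsto (fun N : ℕ => (∑ n ∈ range N,
      |Real.exp (-(∑ i : Fin (k + 1), ∑ j : Fin (k + 1), vv ω R X (sh (p.eval ((n : ℤ) + (i : ℕ))) (c i)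
          - sh (p.eval ((n : ℤ) + (j : ℕ))) (c j))) / 4)
        - Real.exp (-((k : ℝ) * ∑ j, vv ω R X (c j)) / 2)|) / N) atTop (𝓝 0) := by
  classical
  let q : Fin (k + 1) → Fin (k + 1) → ℤ[X] := fun i j =>
    p.comp (Polynomial.X + C ((i : ℕ) : ℤ)) - p.comp (Polynomial.X + C ((j : ℕ) : ℤ))
  have hq : ∀ i j (n : ℤ), (q i j).eval n = p.eval (n + (i : ℕ)) - p.eval (n + (j : ℕ)) := by
    intro i j n
    simp only [q]
    rw [eval_sub, eval_comp, eval_comp]
    simp
  let ρ : Fin (k + 1) → Fin (k + 1) → ℕ → ℝ := fun i j n =>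
    if i = j then 0 else rr ω R X (c i) (c j) ((q i j).eval (n : ℤ))
  have hvv : ∀ (n : ℕ) (i j : Fin (k + 1)),
      vv ω R X (sh (p.eval ((n : ℤ) + (i : ℕ))) (c i) - sh (p.eval ((n : ℤ) + (j : ℕ))) (c j)) =
      vv ω R X (c i) + vv ω R X (c j) - 2 * ((if i = j then vv ω R X (c i) else 0) + ρ i j n) := by
    intro n i j
    rw [vv_sub h, ← hq]
    simp only [ρ]
    by_cases hij : i = j
    · subst hij
      rw [if_pos rfl, if_pos rfl, add_zero]
      have h1 : (q i i).eval (n : ℤ) = 0 := by rw [hq, sub_self]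
      rw [h1]
      congr 2
      unfold rr vv
      simp only [pw_zero, sq]
    · rw [if_neg hij, if_neg hij, zero_add]
  have hsum : ∀ n : ℕ, ∑ i : Fin (k + 1), ∑ j : Fin (k + 1),
      vv ω R X (sh (p.eval ((n : ℤ) + (i : ℕ))) (c i) - sh (p.eval ((n : ℤ) + (j : ℕ))) (c j)) =
      2 * ((k : ℝ) * ∑ j, vv ω R X (c j)) - 2 * ∑ i, ∑ j, ρ i j n := by
    intro n
    simp only [hvv, Finset.sum_sub_distrib, Finset.sum_add_distrib, ← Finset.mul_sum,
      Finset.sum_ite_eq, Finset.mem_univ, if_true, Finset.sum_const, Finset.card_univ,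
      Fintype.card_fin, nsmul_eq_mul]
    push_cast
    ring
  have hbd : ∀ n : ℕ, |Real.exp (-(∑ i : Fin (k + 1), ∑ j : Fin (k + 1),
      vv ω R X (sh (p.eval ((n : ℤ) + (i : ℕ))) (c i)
          - sh (p.eval ((n : ℤ) + (j : ℕ))) (c j))) / 4)
        - Real.exp (-((k : ℝ) * ∑ j, vv ω R X (c j)) / 2)| ≤ ∑ i, ∑ j, |ρ i j n| := by
    intro n
    have h0 : 0 ≤ ∑ i : Fin (k + 1), ∑ j : Fin (k + 1),
      vv ω R X (sh (p.eval ((n : ℤ) + (i : ℕ))) (c i)
          - sh (p.eval ((n : ℤ) + (j : ℕ))) (c j)) :=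
      Finset.sum_nonneg fun i _ => Finset.sum_nonneg fun j _ => vv_nonneg _ _ _ _
    have h1 : 0 ≤ (k : ℝ) * ∑ j, vv ω R X (c j) :=
      mul_nonneg (Nat.cast_nonneg k) (Finset.sum_nonneg fun j _ => vv_nonneg _ _ _ _)
    refine (GD2_exp (by linarith) (by linarith)).trans ?_
    rw [hsum]
    have h2 : -(2 * ((k : ℝ) * ∑ j, vv ω R X (c j)) - 2 * ∑ i, ∑ j, ρ i j n) / 4 -
        -((k : ℝ) * ∑ j, vv ω R X (c j)) / 2 = (∑ i, ∑ j, ρ i j n) / 2 := by ring
    rw [h2, abs_div, abs_of_pos (by norm_num : (0 : ℝ) < 2)]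
    have h3 : |∑ i, ∑ j, ρ i j n| ≤ ∑ i, ∑ j, |ρ i j n| :=
      (Finset.abs_sum_le_sum_abs _ _).trans
        (Finset.sum_le_sum fun i _ => Finset.abs_sum_le_sum_abs _ _)
    have h4 := abs_nonneg (∑ i, ∑ j, ρ i j n)
    linarith
  have hlim : Tendsto (fun N : ℕ => ∑ i : Fin (k + 1), ∑ j : Fin (k + 1),
      (∑ n ∈ range N, |ρ i j n|) / N) atTop (𝓝 0) := by
    have h1 : ∀ i j : Fin (k + 1), Tendsto (fun N : ℕ => (∑ n ∈ range N, |ρ i j n|) / (N : ℝ))
        atTop (𝓝 0) := by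
      intro i j
      by_cases hij : i = j
      · have : (fun N : ℕ => (∑ n ∈ range N, |ρ i j n|) / (N : ℝ)) = fun _ => 0 := by
          funext N
          simp [ρ, hij]
        rw [this]
        exact tendsto_const_nhds
      · have h2 := rr_poly h (q i j) (GD2_deg p hp _ _ (by
          intro h3
          exact hij (Fin.ext (by exact_mod_cast h3)))) (c i) (c j)
        have : (fun N : ℕ => (∑ n ∈ range N, |ρ i j n|) / (N : ℝ)) = fun N : ℕ =>
            (∑ n ∈ range N, |rr ω R X (c i) (c j) ((q i j).eval (n : ℤ))|) / N := by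
          funext N
          simp only [ρ, if_neg hij]
        rw [this]
        exact h2
    have h2 := tendsto_finsetSum (Finset.univ : Finset (Fin (k + 1))) fun i _ =>
      tendsto_finsetSum (Finset.univ : Finset (Fin (k + 1))) fun j _ => h1 i j
    simpa using h2
  refine squeeze_zero (fun N => by positivity) (fun N => ?_) hlim
  have h1 : ∑ i : Fin (k + 1), ∑ j : Fin (k + 1), (∑ n ∈ range N, |ρ i j n|) / (N : ℝ) =
      (∑ n ∈ range N, ∑ i, ∑ j, |ρ i j n|) / N := by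
    simp only [← Finset.sum_div]
    congr 1
    rw [Finset.sum_comm (s := range N)]
    exact Finset.sum_congr rfl fun i _ => Finset.sum_comm
  rw [h1]
  exact div_le_div_of_nonneg_right (Finset.sum_le_sum fun n _ => hbd n) (Nat.cast_nonneg N)
/- END GD2 -/

/- MODULE GD3 -/
/-- the integral over the auxiliary coordinates -/
private theorem GD3_int {ω : Measure W} [IsProbabilityMeasure ω] {R : W ≃ᵐ W} {X : ℕ → W → ℝ}
    (h : GSys ω R X) {k : ℕ}
    (c : Fin (k + 1) → (ℕ × ℤ) →₀ ℝ) (s : ℕ → Fin (k + 1) → ℤ) (n : ℕ) :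
    ∫ z : Fin (k + 1) × Fin (k + 1) → W, ei ((1 / Real.sqrt 2) * ∑ i, ∑ j,
          (LF R X (c i) (pw R (s n i) (z (i, j))) -
            LF R X (c j) (pw R (s n j) (z (i, j)))))
          ∂(Measure.pi (fun _ : Fin (k + 1) × Fin (k + 1) => ω)) =
      (Real.exp (-(∑ i : Fin (k + 1), ∑ j : Fin (k + 1), vv ω R X (sh (s n i) (c i)
          - sh (s n j) (c j))) / 4) : ℂ) := by
  have e1 : ∀ z : Fin (k + 1) × Fin (k + 1) → W, ei ((1 / Real.sqrt 2) * ∑ i, ∑ j,
          (LF R X (c i) (pw R (s n i) (z (i, j))) -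
            LF R X (c j) (pw R (s n j) (z (i, j))))) = ∏ q : Fin (k + 1) × Fin (k + 1),
          ei (LF R X ((1 / Real.sqrt 2) • (sh (s n q.1) (c q.1) - sh (s n q.2) (c q.2)))
            (z q)) := by
    intro z
    rw [← ei_sum, Fintype.sum_prod_type, Finset.mul_sum]
    congr 1
    refine Finset.sum_congr rfl fun i _ => ?_
    rw [Finset.mul_sum]
    refine Finset.sum_congr rfl fun j _ => ?_
    rw [LF_smul, LF_sub, LF_sh, LF_sh]
  simp only [e1]
  rw [integral_fintype_prod_eq_prod (𝕜 := ℂ)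
      (fun q : Fin (k + 1) × Fin (k + 1) => fun w =>
        ei (LF R X ((1 / Real.sqrt 2) • (sh (s n q.1) (c q.1) - sh (s n q.2) (c q.2))) w))]
  simp only [int_ei h, vv_smul]
  rw [← Complex.ofReal_prod, ← Real.exp_sum]
  congr 2
  have h2 : (1 / Real.sqrt 2) ^ 2 = (1 / 2 : ℝ) := by
    rw [div_pow, Real.sq_sqrt (by norm_num)]
    norm_num
  rw [h2, Fintype.sum_prod_type]
  simp only [neg_div, Finset.sum_neg_distrib, Finset.sum_div]
  congr 1
  refine Finset.sum_congr rfl fun i _ => Finset.sum_congr rfl fun j _ => ?_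
  ring

/-- EXPONENTIALS ON THE DIAGONAL. The set of sequences v in N → R for which
(1/N) sum over n < N of ei (v n) converges to L = prod exp (-(k+1) vv c_j/2) is measurable; it has
full measure for the first law of law_eq (conv_prod with t = sqrt (k+1)), hence for the second. By
Fubini for a.e. w: for a.e. z the averages of ei (Z_n(w)) ei (Z'_n(z)) converge to L; integrate over
z (dominated convergence, modulus ≤ 1): (1/N) sum ei (Z_n(w)) v_n → L with v_n = int ei (Z'_n) =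
exp (-(1/4) sum vv (..)) (int_ei, Measure.pi). By weights v_n may be replaced by
v = exp (-(k/2) sum vv c_j), and L/v = prod exp (-vv c_j/2). -/
theorem conv_diag {ω : Measure W} {R : W ≃ᵐ W} {X : ℕ → W → ℝ} (h : GSys ω R X) (p : ℤ[X])
    (hp : 2 ≤ p.natDegree) (k : ℕ) (c : Fin (k + 1) → (ℕ × ℤ) →₀ ℝ) :
    ∀ᵐ w ∂ω, Tendsto (fun N : ℕ => (∑ n ∈ range N,
        ei (∑ j, LF R X (c j) (pw R (p.eval ((n : ℤ) + (j : ℕ))) w))) / (N : ℂ))
        atTop (𝓝 (∏ j, (Real.exp (-(vv ω R X (c j)) / 2) : ℂ))) := by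
  classical
  have hP : IsProbabilityMeasure ω := h.gauss.isProbabilityMeasure
  have hk : (0 : ℝ) ≤ (k : ℝ) + 1 := by positivity
  let s : ℕ → Fin (k + 1) → ℤ := fun n j => p.eval ((n : ℤ) + (j : ℕ))
  let Lim : ℂ := ∏ j, (Real.exp (-(Real.sqrt ((k : ℝ) + 1) ^ 2 * vv ω R X (c j)) / 2) : ℂ)
  have h1 := conv_prod h p (by omega) k (Real.sqrt ((k : ℝ) + 1)) c
  have hA : MeasurableSet {v : ℕ → ℝ | Tendsto (fun N : ℕ =>
      (∑ n ∈ range N, ei (v n)) / (N : ℂ)) atTop (𝓝 Lim)} := by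
    apply measurableSet_tendsto
    intro N
    refine Measurable.div_const ?_ _
    exact Finset.measurable_fun_sum _ fun n _ => ei_cont.measurable.comp (measurable_pi_apply n)
  have hm1 := GD1_m1 h c s (Real.sqrt ((k : ℝ) + 1))
  have hm3 := GD1_m3 h c s
  have h3 : ∀ᵐ v ∂((Measure.pi (fun _ : Fin (k + 1) => ω)).map
      (fun y (n : ℕ) => Real.sqrt ((k : ℝ) + 1) * ∑ j, LF R X (c j) (pw R (s n j) (y j)))),
      Tendsto (fun N : ℕ => (∑ n ∈ range N, ei (v n)) / (N : ℂ)) atTop (𝓝 Lim) := by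
    rw [ae_map_iff hm1.aemeasurable hA]
    filter_upwards [h1] with y hy
    exact hy
  rw [law_eq h k c s, ae_map_iff hm3.aemeasurable hA] at h3
  have h4 := Measure.ae_ae_of_ae_prod h3
  filter_upwards [h4] with w hw
  -- abbreviations
  let Z : ℕ → ℝ := fun n => ∑ j, LF R X (c j) (pw R (s n j) w)
  let Z' : ℕ → (Fin (k + 1) × Fin (k + 1) → W) → ℝ := fun n z => (1 / Real.sqrt 2) * ∑ i, ∑ j,
          (LF R X (c i) (pw R (s n i) (z (i, j))) - LF R X (c j) (pw R (s n j) (z (i, j))))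
  let v : ℕ → ℝ := fun n => Real.exp (-(∑ i : Fin (k + 1), ∑ j : Fin (k + 1),
    vv ω R X (sh (s n i) (c i) - sh (s n j) (c j))) / 4)
  let v0 : ℝ := Real.exp (-((k : ℝ) * ∑ j, vv ω R X (c j)) / 2)
  have hZ' : ∀ n, Measurable (Z' n) := fun n => GD1_m2 h c s n
  have hmF : ∀ n, Measurable fun z => ei (Z n + Z' n z) := fun n =>
    ei_cont.measurable.comp ((hZ' n).const_add (Z n))
  have hw' : ∀ᵐ z ∂(Measure.pi (fun _ : Fin (k + 1) × Fin (k + 1) => ω)),
      Tendsto (fun N : ℕ => (∑ n ∈ range N, ei (Z n + Z' n z)) / (N : ℂ)) atTop (𝓝 Lim) := hw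
  have h5 : Tendsto (fun N : ℕ => ∫ z, (∑ n ∈ range N, ei (Z n + Z' n z)) / (N : ℂ)
      ∂(Measure.pi (fun _ : Fin (k + 1) × Fin (k + 1) => ω))) atTop (𝓝 Lim) := by
    have h6 := tendsto_integral_of_dominated_convergence
      (μ := Measure.pi (fun _ : Fin (k + 1) × Fin (k + 1) => ω))
      (F := fun (N : ℕ) z => (∑ n ∈ range N, ei (Z n + Z' n z)) / (N : ℂ)) (f := fun _ => Lim)
      (fun _ => (1 : ℝ)) (fun N => ?_) (integrable_const _) (fun N => ?_) hw'
    · simpa using h6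
    · exact ((Finset.measurable_fun_sum _ fun n _ => hmF n).div_const _).aestronglyMeasurable
    · refine Filter.Eventually.of_forall fun z => ?_
      rw [norm_div, Complex.norm_natCast]
      apply div_le_one_of_le₀ _ (Nat.cast_nonneg N)
      refine (norm_sum_le _ _).trans ?_
      simp [norm_ei]
  have h6 : ∀ N : ℕ, ∫ z, (∑ n ∈ range N, ei (Z n + Z' n z)) / (N : ℂ)
      ∂(Measure.pi (fun _ : Fin (k + 1) × Fin (k + 1) => ω)) =
      (∑ n ∈ range N, ei (Z n) * (v n : ℂ)) / (N : ℂ) := by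
    intro N
    rw [integral_div, integral_finsetSum]
    · congr 1
      refine Finset.sum_congr rfl fun n _ => ?_
      have e1 : ∀ z, ei (Z n + Z' n z) = ei (Z n) * ei (Z' n z) := fun z => ei_add _ _
      simp only [e1]
      rw [integral_const_mul]
      congr 1
      exact GD3_int h c s n
    · intro n _
      refine Integrable.of_bound (hmF n).aestronglyMeasurable 1 ?_
      exact Filter.Eventually.of_forall fun z => by rw [norm_ei]
  simp only [h6] at h5
  have h7 := weights h p hp k c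
  have h8 : Tendsto (fun N : ℕ => (∑ n ∈ range N, ei (Z n) * (v n : ℂ)) / (N : ℂ) -
      (∑ n ∈ range N, ei (Z n) * (v0 : ℂ)) / (N : ℂ)) atTop (𝓝 0) := by
    apply squeeze_zero_norm (fun N => ?_) h7
    rw [← sub_div, ← Finset.sum_sub_distrib, norm_div, Complex.norm_natCast]
    refine div_le_div_of_nonneg_right ?_ (Nat.cast_nonneg N)
    refine (norm_sum_le _ _).trans (Finset.sum_le_sum fun n _ => ?_)
    rw [← mul_sub, norm_mul, norm_ei, one_mul, ← Complex.ofReal_sub, Complex.norm_real,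
      Real.norm_eq_abs]
  have h9 := h5.sub h8
  simp only [sub_sub_cancel, sub_zero] at h9
  have hv0 : (v0 : ℂ) ≠ 0 := by
    rw [Complex.ofReal_ne_zero]
    exact (Real.exp_pos _).ne'
  have h10 := h9.div_const (v0 : ℂ)
  have h11 : Lim / (v0 : ℂ) = ∏ j, (Real.exp (-(vv ω R X (c j)) / 2) : ℂ) := by
    rw [div_eq_iff hv0]
    simp only [Lim, v0]
    rw [← Complex.ofReal_prod, ← Complex.ofReal_prod, ← Complex.ofReal_mul, ← Real.exp_sum,
      ← Real.exp_sum, ← Real.exp_add, Real.sq_sqrt hk]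
    congr 2
    simp only [neg_div, Finset.sum_neg_distrib, ← Finset.sum_div, ← Finset.mul_sum]
    ring
  rw [h11] at h10
  refine h10.congr fun N => ?_
  rw [← Finset.sum_mul, mul_div_right_comm, mul_div_cancel_right₀ _ hv0]
/- END GD3 -/

/- MODULE GE1 -/
private theorem GE1_int {ω : Measure W} [IsProbabilityMeasure ω] (g : W → ℝ) (hg : Integrable g ω)
    (h : W → ℂ) (hm : Measurable h) (hb : ∀ w, ‖h w‖ ≤ 1) :
    ∫ w, h w ∂(ω.withDensity fun w => ENNReal.ofReal (g w)) -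
      ∫ w, h w ∂(ω.withDensity fun w => ENNReal.ofReal (- g w)) = ∫ w, (g w : ℂ) * h w ∂ω := by
  have h1 : ∀ g : W → ℝ, Integrable g ω → Integrable (fun w => (ENNReal.ofReal (g w)).toReal • h w) ω := by
    intro g hg
    have h2 : Integrable (fun w => (ENNReal.ofReal (g w)).toReal) ω := by
      refine (hg.pos_part).congr (Eventually.of_forall fun w => ?_)
      exact ENNReal.toReal_ofReal'.symm
    refine (h2.norm).mono ?_ (Eventually.of_forall fun w => ?_)
    · exact (h2.aestronglyMeasurable).smul hm.aestronglyMeasurable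
    · rw [norm_smul, norm_norm]
      exact mul_le_of_le_one_right (norm_nonneg _) (hb w)
  have hgn : Integrable (fun w => - g w) ω := hg.neg
  rw [integral_withDensity_eq_integral_toReal_smul₀ hg.aemeasurable.ennreal_ofReal
      (Eventually.of_forall fun w => ENNReal.ofReal_lt_top),
    integral_withDensity_eq_integral_toReal_smul₀ hgn.aemeasurable.ennreal_ofReal
      (Eventually.of_forall fun w => ENNReal.ofReal_lt_top),
    ← integral_sub (h1 g hg) (h1 _ hgn)]
  refine integral_congr_ae (Eventually.of_forall fun w => ?_)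
  simp only [ENNReal.toReal_ofReal', Complex.real_smul]
  rw [← sub_mul, ← Complex.ofReal_sub]
  congr 2
  rcases le_total 0 (g w) with h3 | h3
  · rw [max_eq_left h3, max_eq_right (by linarith), sub_zero]
  · rw [max_eq_right h3, max_eq_left (by linarith)]
    ring

private theorem GE1_fin {ω : Measure W} {R : W ≃ᵐ W} {X : ℕ → W → ℝ} (h : GSys ω R X)
    (μ ν : Measure W) [IsFiniteMeasure μ] [IsFiniteMeasure ν]
    (h0 : ∀ c : (ℕ × ℤ) →₀ ℝ, ∫ w, ei (LF R X c w) ∂μ = ∫ w, ei (LF R X c w) ∂ν)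
    (A : Set W) (hA : MeasurableSet[⨆ q : ℕ × ℤ,
      MeasurableSpace.comap (fun w => X q.1 (pw R q.2 w)) inferInstance] A) : μ A = ν A := by
  classical
  have hΦ : Measurable (fun w (q : ℕ × ℤ) => X q.1 (pw R q.2 w)) :=
    measurable_pi_lambda _ fun q => (h.meas q.1).comp (pw_meas R q.2)
  have hmap : μ.map (fun w (q : ℕ × ℤ) => X q.1 (pw R q.2 w)) =
      ν.map (fun w (q : ℕ × ℤ) => X q.1 (pw R q.2 w)) := by
    refine IsProjectiveLimit.unique (P := fun I : Finset (ℕ × ℤ) =>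
      (μ.map (fun w (q : ℕ × ℤ) => X q.1 (pw R q.2 w))).map I.restrict) (fun I => rfl) (fun I => ?_)
    have hr : Measurable (I.restrict : ((ℕ × ℤ) → ℝ) → (I → ℝ)) :=
      measurable_pi_lambda _ fun _ => measurable_pi_apply _
    change (ν.map _).map _ = (μ.map _).map _
    rw [Measure.map_map hr hΦ, Measure.map_map hr hΦ]
    symm
    refine Measure.ext_of_charFunDual (funext fun L => ?_)
    rw [charFunDual_apply, charFunDual_apply, integral_map (hr.comp hΦ).aemeasurable (by fun_prop),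
      integral_map (hr.comp hΦ).aemeasurable (by fun_prop)]
    let c : (ℕ × ℤ) →₀ ℝ := Finsupp.onFinset I
      (fun q => if hq : q ∈ I then L (Pi.single ⟨q, hq⟩ 1) else 0) (fun q hq => by
        by_contra hq'
        exact hq (dif_neg hq'))
    have hc : ∀ w, L ((I.restrict ∘ fun w (q : ℕ × ℤ) => X q.1 (pw R q.2 w)) w) = LF R X c w := by
      intro w
      unfold LF
      rw [Finsupp.onFinset_sum _ (fun q => zero_mul _), ← Finset.sum_coe_sort I]
      have h1 : ((I.restrict ∘ fun w (q : ℕ × ℤ) => X q.1 (pw R q.2 w)) w) =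
          ∑ i : I, (X i.1.1 (pw R i.1.2 w)) • (Pi.single i (1 : ℝ) : I → ℝ) := by
        funext j
        simp [Finset.sum_apply, Pi.single_apply]
      rw [h1, map_sum]
      refine Finset.sum_congr rfl fun i _ => ?_
      rw [map_smul, dif_pos i.2, smul_eq_mul, mul_comm]
    simp only [hc]
    exact h0 c
  have hcm : (⨆ q : ℕ × ℤ, MeasurableSpace.comap (fun w => X q.1 (pw R q.2 w)) inferInstance) =
      MeasurableSpace.comap (fun w (q : ℕ × ℤ) => X q.1 (pw R q.2 w)) MeasurableSpace.pi := by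
    rw [MeasurableSpace.pi, MeasurableSpace.comap_iSup]
    refine iSup_congr fun q => ?_
    rw [MeasurableSpace.comap_comp]
    rfl
  rw [hcm] at hA
  obtain ⟨S, hS, rfl⟩ := hA
  rw [← Measure.map_apply hΦ hS, hmap, Measure.map_apply hΦ hS]

private theorem GE1_real {ω : Measure W} {R : W ≃ᵐ W} {X : ℕ → W → ℝ} (h : GSys ω R X) (g : W → ℝ)
    (hg : Integrable g ω) (h0 : ∀ c : (ℕ × ℤ) →₀ ℝ, ∫ w, (g w : ℂ) * ei (LF R X c w) ∂ω = 0) :
    g =ᵐ[ω] 0 := by
  have : IsProbabilityMeasure ω := h.gauss.isProbabilityMeasure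
  have h1 : IsFiniteMeasure (ω.withDensity fun w => ENNReal.ofReal (g w)) :=
    isFiniteMeasure_withDensity_ofReal hg.2
  have h2 : IsFiniteMeasure (ω.withDensity fun w => ENNReal.ofReal (- g w)) :=
    isFiniteMeasure_withDensity_ofReal hg.neg.2
  have h3 : ∀ c : (ℕ × ℤ) →₀ ℝ, ∫ w, ei (LF R X c w) ∂(ω.withDensity fun w => ENNReal.ofReal (g w)) =
      ∫ w, ei (LF R X c w) ∂(ω.withDensity fun w => ENNReal.ofReal (- g w)) := by
    intro c
    have h4 := GE1_int g hg (fun w => ei (LF R X c w)) (ei_cont.measurable.comp (LF_meas h c))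
      (fun w => (norm_ei _).le)
    rw [h0 c] at h4
    exact sub_eq_zero.1 h4
  refine Integrable.ae_eq_zero_of_forall_setIntegral_eq_zero hg fun s hs _ => ?_
  obtain ⟨A', hA', hAe⟩ := h.gen s hs
  have h5 := GE1_fin h _ _ h3 A' hA'
  have h6 : ∀ g : W → ℝ, (ω.withDensity fun w => ENNReal.ofReal (g w)) s =
      (ω.withDensity fun w => ENNReal.ofReal (g w)) A' := fun g =>
    measure_congr ((withDensity_absolutelyContinuous ω _).ae_eq hAe)
  rw [← h6, ← h6, withDensity_apply _ hs, withDensity_apply _ hs] at h5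
  rw [integral_eq_lintegral_pos_part_sub_lintegral_neg_part hg.integrableOn, h5, sub_self]

/-- Uniqueness: a bounded function orthogonal to all exponentials is 0. Real and imaginary parts
separately (c and -c). For real f and finitely many coordinates the finite measures f^+ omega and
f^- omega pushed forward by (LF c_1, .., LF c_m) have equal characteristic functions, so they agree on
the sigma-algebra generated by finitely many X_i o R^n, hence (pi-lambda) on the generated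
sigma-algebra, and by gen on all sets. -/
theorem exp_total {ω : Measure W} {R : W ≃ᵐ W} {X : ℕ → W → ℝ} (h : GSys ω R X) (f : W → ℂ)
    (hf : MemLp f 2 ω) (h0 : ∀ c : (ℕ × ℤ) →₀ ℝ, ∫ w, f w * ei (LF R X c w) ∂ω = 0) :
    f =ᵐ[ω] 0 := by
  have : IsProbabilityMeasure ω := h.gauss.isProbabilityMeasure
  have hfi : Integrable f ω := hf.integrable (by norm_num)
  have hei : ∀ c, Integrable (fun w => f w * ei (LF R X c w)) ω := by
    intro c
    refine hfi.norm.mono (hfi.aestronglyMeasurable.mul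
      (ei_cont.measurable.comp (LF_meas h c)).aestronglyMeasurable) (Eventually.of_forall fun w => ?_)
    rw [norm_mul, norm_ei, mul_one, norm_norm]
  have hcj : ∀ c : (ℕ × ℤ) →₀ ℝ, ∫ w, (starRingEnd ℂ) (f w) * ei (LF R X c w) ∂ω = 0 := by
    intro c
    have h1 : ∀ w, (starRingEnd ℂ) (f w) * ei (LF R X c w) =
        (starRingEnd ℂ) (f w * ei (LF R X ((-1 : ℝ) • c) w)) := by
      intro w
      rw [map_mul, ← ei_neg, LF_smul]
      congr 2
      ring
    simp only [h1]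
    rw [integral_conj, h0, map_zero]
  have hcji : ∀ c, Integrable (fun w => (starRingEnd ℂ) (f w) * ei (LF R X c w)) ω := by
    intro c
    refine hfi.norm.mono ((Complex.continuous_conj.comp_aestronglyMeasurable hfi.aestronglyMeasurable).mul
      (ei_cont.measurable.comp (LF_meas h c)).aestronglyMeasurable) (Eventually.of_forall fun w => ?_)
    rw [norm_mul, norm_ei, mul_one, norm_norm, RCLike.norm_conj]
  have hre := GE1_real h (fun w => (f w).re) hfi.re (fun c => by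
    have h1 : ∀ w, (((f w).re : ℝ) : ℂ) * ei (LF R X c w) =
        (1 / 2 : ℂ) * (f w * ei (LF R X c w) + (starRingEnd ℂ) (f w) * ei (LF R X c w)) := by
      intro w
      rw [← add_mul, Complex.add_conj]
      push_cast
      ring
    simp only [h1]
    rw [integral_const_mul, integral_add (hei c) (hcji c), h0, hcj, add_zero, mul_zero])
  have him := GE1_real h (fun w => (f w).im) hfi.im (fun c => by
    have h1 : ∀ w, (((f w).im : ℝ) : ℂ) * ei (LF R X c w) =
        (1 / (2 * Complex.I) : ℂ) * (f w * ei (LF R X c w) - (starRingEnd ℂ) (f w) * ei (LF R X c w)) := by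
      intro w
      rw [← sub_mul, Complex.sub_conj]
      have h2 : (2 * Complex.I : ℂ) ≠ 0 := by simp
      field_simp
      push_cast
      ring
    simp only [h1]
    rw [integral_const_mul, integral_sub (hei c) (hcji c), h0, hcj, sub_zero, mul_zero])
  filter_upwards [hre, him] with w h1 h2
  exact Complex.ext h1 h2
/- END GE1 -/

/- MODULE GE2 -/
private theorem GE2_norm {ω : Measure W} (g : Lp ℂ 2 ω) : ∫ w, ‖g w‖ ^ 2 ∂ω = ‖g‖ ^ 2 := by
  have h1 := inner_self_eq_norm_sq (𝕜 := ℂ) g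
  rw [← h1, L2.inner_def]
  simp only [inner_self_eq_norm_sq_to_K]
  have h2 : ∫ a, ((‖g a‖ : ℝ) : ℂ) ^ 2 ∂ω = ((∫ a, ‖g a‖ ^ 2 ∂ω : ℝ) : ℂ) := by
    rw [← integral_complex_ofReal]
    refine integral_congr_ae (Eventually.of_forall fun a => ?_)
    push_cast
    rfl
  change _ = RCLike.re (∫ a, ((‖g a‖ : ℝ) : ℂ) ^ 2 ∂ω)
  rw [h2]
  exact (Complex.ofReal_re _).symm

/-- DENSITY of the exponentials in L^2 (exp_total: the orthogonal complement of their closed span
is 0; Submodule.topologicalClosure_eq_top_iff). -/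
theorem exp_dense {ω : Measure W} {R : W ≃ᵐ W} {X : ℕ → W → ℝ} (h : GSys ω R X) (f : W → ℂ)
    (hf : MemLp f 2 ω) (ε : ℝ) (hε : 0 < ε) :
    ∃ (s : Finset ((ℕ × ℤ) →₀ ℝ)) (b : ((ℕ × ℤ) →₀ ℝ) → ℂ),
      ∫ w, ‖f w - ∑ c ∈ s, b c * ei (LF R X c w)‖ ^ 2 ∂ω ≤ ε := by
  classical
  have : IsProbabilityMeasure ω := h.gauss.isProbabilityMeasure
  have hE : ∀ c : (ℕ × ℤ) →₀ ℝ, MemLp (fun w => ei (LF R X c w)) 2 ω := fun c =>
    MemLp.of_bound (ei_cont.measurable.comp (LF_meas h c)).aestronglyMeasurable 1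
      (Eventually.of_forall fun w => (norm_ei _).le)
  let v : ((ℕ × ℤ) →₀ ℝ) → Lp ℂ 2 ω := fun c => (hE c).toLp
  have hv : ∀ c, v c =ᵐ[ω] fun w => ei (LF R X c w) := fun c => (hE c).coeFn_toLp
  have htop : (Submodule.span ℂ (Set.range v)).topologicalClosure = ⊤ := by
    rw [Submodule.topologicalClosure_eq_top_iff, Submodule.eq_bot_iff]
    intro g hg
    rw [Submodule.mem_orthogonal] at hg
    have h1 : ∀ c : (ℕ × ℤ) →₀ ℝ, ∫ w, g w * ei (LF R X c w) ∂ω = 0 := by
      intro c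
      have h2 := hg (v ((-1 : ℝ) • c)) (Submodule.subset_span ⟨_, rfl⟩)
      rw [L2.inner_def] at h2
      rw [← h2]
      refine integral_congr_ae ?_
      filter_upwards [hv ((-1 : ℝ) • c)] with w hw
      rw [hw, RCLike.inner_apply, ← ei_neg, LF_smul]
      congr 2
      ring
    exact (Lp.eq_zero_iff_ae_eq_zero).2 (exp_total h g (Lp.memLp g) h1)
  have hmem : hf.toLp f ∈ closure ((Submodule.span ℂ (Set.range v) : Submodule ℂ (Lp ℂ 2 ω)) :
      Set (Lp ℂ 2 ω)) := by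
    rw [← Submodule.topologicalClosure_coe, htop]
    trivial
  obtain ⟨u, hu, hdist⟩ := Metric.mem_closure_iff.1 hmem (Real.sqrt ε) (Real.sqrt_pos.2 hε)
  obtain ⟨b, hb⟩ := Finsupp.mem_span_range_iff_exists_finsupp.1 hu
  refine ⟨b.support, b, ?_⟩
  have hsum : ∀ s : Finset ((ℕ × ℤ) →₀ ℝ), ((∑ c ∈ s, b c • v c : Lp ℂ 2 ω) : W → ℂ) =ᵐ[ω]
      fun w => ∑ c ∈ s, b c * ei (LF R X c w) := by
    intro s
    induction s using Finset.induction_on with
    | empty =>
      rw [Finset.sum_empty]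
      filter_upwards [Lp.coeFn_zero ℂ 2 ω] with w hw
      rw [hw, Finset.sum_empty]
      rfl
    | insert a s ha ih =>
      rw [Finset.sum_insert ha]
      filter_upwards [Lp.coeFn_add (b a • v a) (∑ c ∈ s, b c • v c), ih, hv a,
        Lp.coeFn_smul (b a) (v a)] with w h1 h2 h3 h4
      rw [h1, Pi.add_apply, h2, h4, Pi.smul_apply, h3, Finset.sum_insert ha, smul_eq_mul]
  have hu' : (u : W → ℂ) =ᵐ[ω] fun w => ∑ c ∈ b.support, b c * ei (LF R X c w) := by
    rw [← hb]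
    exact hsum b.support
  have hfin : ∫ w, ‖f w - ∑ c ∈ b.support, b c * ei (LF R X c w)‖ ^ 2 ∂ω = ‖hf.toLp f - u‖ ^ 2 := by
    rw [← GE2_norm]
    refine integral_congr_ae ?_
    filter_upwards [Lp.coeFn_sub (hf.toLp f) u, hf.coeFn_toLp, hu'] with w h1 h2 h3
    rw [h1, Pi.sub_apply, h2, h3]
  rw [hfin, ← dist_eq_norm]
  calc dist (hf.toLp f) u ^ 2 ≤ Real.sqrt ε ^ 2 := pow_le_pow_left₀ dist_nonneg hdist.le 2
    _ = ε := Real.sq_sqrt hε.le
/- END GE2 -/

/- MODULE GE3 -/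
/-- The maximal function for one polynomial: S : Z → Z^d-action a ↦ pw R (Cm . a) with the
coefficients of p(X + j) (Tp with J = Unit, or directly), maximal_sys; the constant term is a
further power of R (apply maximal_sys to F o pw R C0). The constant C depends on natDegree p only. -/
theorem max_poly (p : ℤ[X]) : ∃ C : ℝ, 0 < C ∧
    ∀ (ω : Measure W) [IsProbabilityMeasure ω] (R : W ≃ᵐ W), MeasurePreserving R ω ω →
      ∀ (j : ℕ) (F : W → ℝ), Measurable F → ∀ B : ℝ, (∀ x, 0 ≤ F x ∧ F x ≤ B) →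
        ∃ H : W → ℝ, Measurable H ∧ (∀ x, 0 ≤ H x ∧ H x ≤ B) ∧
          ∫ x, H x ^ 2 ∂ω ≤ C * ∫ x, F x ^ 2 ∂ω ∧
          ∀ N : ℕ, ∀ x, (∑ n ∈ range N, F (pw R (p.eval ((n : ℤ) + (j : ℤ))) x)) / N ≤ H x := by
  obtain ⟨K, hK, hmax⟩ := maximal_sys (Ω := W) p.natDegree
  refine ⟨K, hK, fun ω _ R hR j F hF B hB => ?_⟩
  obtain ⟨P, hP⟩ : ∃ P : ℤ[X], P = p.comp (X + C (j : ℤ)) := ⟨_, rfl⟩
  have hPd : P.natDegree < p.natDegree + 1 := by
    rw [hP]
    refine lt_of_le_of_lt natDegree_comp_le ?_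
    rw [natDegree_X_add_C, mul_one]
    exact Nat.lt_succ_self _
  have hPe : ∀ n : ℕ, p.eval ((n : ℤ) + (j : ℤ)) =
      P.coeff 0 + ∑ l : Fin p.natDegree, P.coeff ((l : ℕ) + 1) * gam p.natDegree n l := by
    intro n
    have h1 : p.eval ((n : ℤ) + (j : ℤ)) = P.eval (n : ℤ) := by
      rw [hP, eval_comp, eval_add, eval_X, eval_C]
    rw [h1, eval_eq_sum_range' hPd, Finset.sum_range_succ', pow_zero, mul_one, add_comm]
    congr 1
    rw [← Fin.sum_univ_eq_sum_range (fun i => P.coeff (i + 1) * (n : ℤ) ^ (i + 1))]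
    rfl
  have hT : Act p.natDegree ω (fun (a : Fin p.natDegree → ℤ) (x : W) =>
      pw R (∑ l : Fin p.natDegree, P.coeff ((l : ℕ) + 1) * a l) x) := by
    refine ⟨fun x => ?_, fun a b x => ?_, fun a => ?_⟩
    · simp only [Pi.zero_apply, mul_zero, Finset.sum_const_zero]
      exact pw_zero R x
    · simp only [Pi.add_apply, mul_add, Finset.sum_add_distrib]
      exact pw_add R _ _ x
    · exact pw_mp ω R hR _
  obtain ⟨H, hH1, hH2, hH3, hH4⟩ := hmax ω _ hT (fun x => F (pw R (P.coeff 0) x))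
    (hF.comp (pw_meas R _)) B (fun x => hB _)
  refine ⟨H, hH1, hH2, ?_, fun N x => ?_⟩
  · have h1 : ∫ x, F (pw R (P.coeff 0) x) ^ 2 ∂ω = ∫ x, F x ^ 2 ∂ω := by
      have h2 := (pw_mp ω R hR (P.coeff 0)).map_eq
      conv_rhs => rw [← h2]
      rw [integral_map (pw_meas R _).aemeasurable]
      exact (hF.pow_const 2).aestronglyMeasurable
    rw [← h1]
    exact hH3
  · refine le_trans (le_of_eq ?_) (hH4 N x)
    congr 1
    refine Finset.sum_congr rfl fun n _ => ?_
    rw [hPe, pw_add]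
/- END GE3 -/

/- MODULE GE4 -/
/-- Telescoping with a maximal function, for any system. f_j bounded by B_j, g_j bounded by B'_j;
prod f_j - prod g_j = sum over j of g_0 .. g_(j-1) (f_j - g_j) f_(j+1) .. f_k; so the difference of the
averages is at most H = sum over j of a_j H_j, H_j from max_poly for |f_j - g_j|,
a_j = prod_(i<j) B'_i prod_(i>j) B_i, and int H^2 ≤ (k+1) sum a_j^2 C int |f_j - g_j|^2. -/
theorem prod_max (p : ℤ[X]) (k : ℕ) : ∃ C : ℝ, 0 < C ∧
    ∀ (ω : Measure W) [IsProbabilityMeasure ω] (R : W ≃ᵐ W), MeasurePreserving R ω ω →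
      ∀ (f g : Fin (k + 1) → W → ℂ) (B B' : Fin (k + 1) → ℝ), (∀ j, Measurable (f j)) →
        (∀ j, Measurable (g j)) → (∀ j w, ‖f j w‖ ≤ B j) → (∀ j w, ‖g j w‖ ≤ B' j) →
        ∃ H : W → ℝ, Measurable H ∧ (∀ x, 0 ≤ H x) ∧ Integrable (fun x => H x ^ 2) ω ∧
          ∫ x, H x ^ 2 ∂ω ≤ C * ∑ j : Fin (k + 1),
            ((∏ i ∈ univ.filter (· < j), B' i) * ∏ i ∈ univ.filter (j < ·), B i) ^ 2 *
              ∫ w, ‖f j w - g j w‖ ^ 2 ∂ω ∧
          ∀ N : ℕ, ∀ w, ‖(∑ n ∈ range N, ∏ j, f j (pw R (p.eval ((n : ℤ) + (j : ℕ))) w)) / (N : ℂ)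
            - (∑ n ∈ range N, ∏ j, g j (pw R (p.eval ((n : ℤ) + (j : ℕ))) w)) / (N : ℂ)‖ ≤ H w := by
  obtain ⟨K, hK, hmax⟩ := max_poly (W := W) p
  refine ⟨((k : ℝ) + 1) * K, by positivity, fun ω _ R hR f g B B' hf hg hfB hgB => ?_⟩
  have hne : Nonempty W := nonempty_of_isProbabilityMeasure ω
  obtain ⟨w0⟩ := hne
  have hB0 : ∀ j, 0 ≤ B j := fun j => (norm_nonneg _).trans (hfB j w0)
  have hB'0 : ∀ j, 0 ≤ B' j := fun j => (norm_nonneg _).trans (hgB j w0)
  have hA0 : ∀ j : Fin (k + 1), 0 ≤ (∏ i ∈ univ.filter (· < j), B' i) *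
      ∏ i ∈ univ.filter (j < ·), B i := fun j =>
    mul_nonneg (Finset.prod_nonneg fun i _ => hB'0 i) (Finset.prod_nonneg fun i _ => hB0 i)
  obtain ⟨A, hA⟩ : ∃ A : Fin (k + 1) → ℝ, ∀ j, A j = (∏ i ∈ univ.filter (· < j), B' i) *
      ∏ i ∈ univ.filter (j < ·), B i := ⟨_, fun j => rfl⟩
  simp only [← hA] at hA0 ⊢
  have hF : ∀ j : Fin (k + 1), ∃ H : W → ℝ, Measurable H ∧ (∀ x, 0 ≤ H x ∧ H x ≤ B j + B' j) ∧
      ∫ x, H x ^ 2 ∂ω ≤ K * ∫ x, ‖f j x - g j x‖ ^ 2 ∂ω ∧
      ∀ N : ℕ, ∀ x, (∑ n ∈ range N, ‖f j (pw R (p.eval ((n : ℤ) + ((j : ℕ) : ℤ))) x) -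
        g j (pw R (p.eval ((n : ℤ) + ((j : ℕ) : ℤ))) x)‖) / N ≤ H x := fun j =>
    hmax ω R hR (j : ℕ) (fun x => ‖f j x - g j x‖) ((hf j).sub (hg j)).norm (B j + B' j)
      (fun x => ⟨norm_nonneg _, (norm_sub_le _ _).trans (add_le_add (hfB j x) (hgB j x))⟩)
  choose H hH1 hH2 hH3 hH4 using hF
  have hHm : Measurable fun x => ∑ j, A j * H j x :=
    Finset.measurable_sum _ fun j _ => (hH1 j).const_mul _
  have hH20 : ∀ j, Integrable (fun x => H j x ^ 2) ω := by
    intro j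
    refine Integrable.of_bound ((hH1 j).pow_const 2).aestronglyMeasurable ((B j + B' j) ^ 2)
      (Eventually.of_forall fun x => ?_)
    rw [Real.norm_eq_abs, abs_of_nonneg (sq_nonneg _)]
    exact pow_le_pow_left₀ (hH2 j x).1 (hH2 j x).2 2
  have hHn : ∀ x, 0 ≤ ∑ j, A j * H j x := fun x =>
    Finset.sum_nonneg fun j _ => mul_nonneg (hA0 j) (hH2 j x).1
  have hHsq : Integrable (fun x => (∑ j, A j * H j x) ^ 2) ω := by
    refine Integrable.of_bound (hHm.pow_const 2).aestronglyMeasurable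
      ((∑ j, A j * (B j + B' j)) ^ 2) (Eventually.of_forall fun x => ?_)
    rw [Real.norm_eq_abs, abs_of_nonneg (sq_nonneg _)]
    refine pow_le_pow_left₀ (hHn x) (Finset.sum_le_sum fun j _ => ?_) 2
    exact mul_le_mul_of_nonneg_left (hH2 j x).2 (hA0 j)
  refine ⟨fun x => ∑ j, A j * H j x, hHm, hHn, hHsq, ?_, fun N w => ?_⟩
  · have h1 : ∀ x, (∑ j, A j * H j x) ^ 2 ≤ ((k : ℝ) + 1) * ∑ j, A j ^ 2 * H j x ^ 2 := by
      intro x
      have h2 := sq_sum_le_card_mul_sum_sq (s := (univ : Finset (Fin (k + 1))))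
        (f := fun j => A j * H j x)
      rw [Finset.card_univ, Fintype.card_fin] at h2
      push_cast at h2
      simpa only [mul_pow] using h2
    have h3 : Integrable (fun x => ((k : ℝ) + 1) * ∑ j, A j ^ 2 * H j x ^ 2) ω :=
      (integrable_finsetSum _ fun j _ => (hH20 j).const_mul _).const_mul _
    calc ∫ x, (∑ j, A j * H j x) ^ 2 ∂ω ≤ ∫ x, ((k : ℝ) + 1) * ∑ j, A j ^ 2 * H j x ^ 2 ∂ω :=
          integral_mono hHsq h3 h1
      _ = ((k : ℝ) + 1) * ∑ j, A j ^ 2 * ∫ x, H j x ^ 2 ∂ω := by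
          rw [integral_const_mul, integral_finsetSum _ fun j _ => (hH20 j).const_mul _]
          simp only [integral_const_mul]
      _ ≤ ((k : ℝ) + 1) * ∑ j, A j ^ 2 * (K * ∫ x, ‖f j x - g j x‖ ^ 2 ∂ω) := by
          refine mul_le_mul_of_nonneg_left (Finset.sum_le_sum fun j _ => ?_) (by positivity)
          exact mul_le_mul_of_nonneg_left (hH3 j) (sq_nonneg _)
      _ = ((k : ℝ) + 1) * K * ∑ j, A j ^ 2 * ∫ x, ‖f j x - g j x‖ ^ 2 ∂ω := by
          rw [mul_assoc, Finset.mul_sum (a := K)]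
          congr 1
          refine Finset.sum_congr rfl fun j _ => ?_
          ring
  · have hpt : ∀ n : ℕ, ‖∏ j, f j (pw R (p.eval ((n : ℤ) + (j : ℕ))) w) -
        ∏ j, g j (pw R (p.eval ((n : ℤ) + (j : ℕ))) w)‖ ≤
        ∑ j, A j * ‖f j (pw R (p.eval ((n : ℤ) + ((j : ℕ) : ℤ))) w) -
          g j (pw R (p.eval ((n : ℤ) + ((j : ℕ) : ℤ))) w)‖ := by
      intro n
      have h1 := Finset.prod_sub_ordered (univ : Finset (Fin (k + 1)))
        (fun j => f j (pw R (p.eval ((n : ℤ) + (j : ℕ))) w))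
        (fun j => f j (pw R (p.eval ((n : ℤ) + (j : ℕ))) w) - g j (pw R (p.eval ((n : ℤ) + (j : ℕ))) w))
      simp only [sub_sub_cancel] at h1
      rw [h1, sub_sub_cancel]
      refine (norm_sum_le _ _).trans (Finset.sum_le_sum fun j _ => ?_)
      rw [norm_mul, norm_mul, mul_assoc, mul_comm, hA]
      refine mul_le_mul_of_nonneg_right ?_ (norm_nonneg _)
      rw [norm_prod, norm_prod]
      exact mul_le_mul (Finset.prod_le_prod (fun i _ => norm_nonneg _) fun i _ => hgB i _)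
        (Finset.prod_le_prod (fun i _ => norm_nonneg _) fun i _ => hfB i _)
        (Finset.prod_nonneg fun i _ => norm_nonneg _) (Finset.prod_nonneg fun i _ => hB'0 i)
    rw [← sub_div, ← Finset.sum_sub_distrib, norm_div, Complex.norm_natCast]
    calc ‖∑ n ∈ range N, (∏ j, f j (pw R (p.eval ((n : ℤ) + (j : ℕ))) w) -
            ∏ j, g j (pw R (p.eval ((n : ℤ) + (j : ℕ))) w))‖ / N
        ≤ (∑ n ∈ range N, ∑ j, A j * ‖f j (pw R (p.eval ((n : ℤ) + ((j : ℕ) : ℤ))) w) -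
          g j (pw R (p.eval ((n : ℤ) + ((j : ℕ) : ℤ))) w)‖) / N :=
          div_le_div_of_nonneg_right ((norm_sum_le _ _).trans (Finset.sum_le_sum fun n _ => hpt n))
            (Nat.cast_nonneg N)
      _ = ∑ j, A j * ((∑ n ∈ range N, ‖f j (pw R (p.eval ((n : ℤ) + ((j : ℕ) : ℤ))) w) -
          g j (pw R (p.eval ((n : ℤ) + ((j : ℕ) : ℤ))) w)‖) / N) := by
          rw [Finset.sum_comm, Finset.sum_div]
          refine Finset.sum_congr rfl fun j _ => ?_
          rw [← Finset.mul_sum, mul_div_assoc]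
      _ ≤ ∑ j, A j * H j w :=
          Finset.sum_le_sum fun j _ => mul_le_mul_of_nonneg_left (hH4 j N w) (hA0 j)
/- END GE4 -/

/- MODULE GE5 -/
/-- Trigonometric polynomials: the averages converge. -/
private theorem GE5_trig {ω : Measure W} {R : W ≃ᵐ W} {X : ℕ → W → ℝ} (h : GSys ω R X) (p : ℤ[X])
    (hp : 2 ≤ p.natDegree) (k : ℕ) (s : Fin (k + 1) → Finset ((ℕ × ℤ) →₀ ℝ))
    (b : Fin (k + 1) → ((ℕ × ℤ) →₀ ℝ) → ℂ) :
    ∀ᵐ w ∂ω, Tendsto (fun N : ℕ => (∑ n ∈ range N,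
        ∏ j, ∑ c ∈ s j, b j c * ei (LF R X c (pw R (p.eval ((n : ℤ) + (j : ℕ))) w))) / (N : ℂ))
        atTop (𝓝 (∏ j, ∫ w', ∑ c ∈ s j, b j c * ei (LF R X c w') ∂ω)) := by
  classical
  have : IsProbabilityMeasure ω := h.gauss.isProbabilityMeasure
  have hall : ∀ᵐ w ∂ω, ∀ φ ∈ Fintype.piFinset s, Tendsto (fun N : ℕ => (∑ n ∈ range N,
      ei (∑ j, LF R X (φ j) (pw R (p.eval ((n : ℤ) + (j : ℕ))) w))) / (N : ℂ))
      atTop (𝓝 (∏ j, (Real.exp (-(vv ω R X (φ j)) / 2) : ℂ))) := by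
    rw [Filter.eventually_all_finset]
    intro φ _
    exact conv_diag h p hp k φ
  have hint : ∀ j, ∫ w', ∑ c ∈ s j, b j c * ei (LF R X c w') ∂ω =
      ∑ c ∈ s j, b j c * (Real.exp (-(vv ω R X c) / 2) : ℂ) := by
    intro j
    rw [integral_finsetSum]
    · refine Finset.sum_congr rfl fun c _ => ?_
      rw [integral_const_mul, int_ei h]
    · intro c _
      refine Integrable.const_mul (Integrable.of_bound
        (ei_cont.measurable.comp (LF_meas h c)).aestronglyMeasurable 1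
        (Eventually.of_forall fun w => (norm_ei _).le)) _
  filter_upwards [hall] with w hw
  have h1 : ∏ j, ∫ w', ∑ c ∈ s j, b j c * ei (LF R X c w') ∂ω = ∑ φ ∈ Fintype.piFinset s,
      (∏ j, b j (φ j)) * ∏ j, (Real.exp (-(vv ω R X (φ j)) / 2) : ℂ) := by
    simp only [hint]
    rw [Finset.prod_univ_sum]
    refine Finset.sum_congr rfl fun φ _ => ?_
    rw [Finset.prod_mul_distrib]
  have h2 : ∀ N : ℕ, (∑ n ∈ range N,
        ∏ j, ∑ c ∈ s j, b j c * ei (LF R X c (pw R (p.eval ((n : ℤ) + (j : ℕ))) w))) / (N : ℂ) =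
      ∑ φ ∈ Fintype.piFinset s, (∏ j, b j (φ j)) * ((∑ n ∈ range N,
      ei (∑ j, LF R X (φ j) (pw R (p.eval ((n : ℤ) + (j : ℕ))) w))) / (N : ℂ)) := by
    intro N
    have h3 : ∀ n : ℕ, ∏ j, ∑ c ∈ s j, b j c * ei (LF R X c (pw R (p.eval ((n : ℤ) + (j : ℕ))) w)) =
        ∑ φ ∈ Fintype.piFinset s, (∏ j, b j (φ j)) *
          ei (∑ j, LF R X (φ j) (pw R (p.eval ((n : ℤ) + (j : ℕ))) w)) := by
      intro n
      rw [Finset.prod_univ_sum]
      refine Finset.sum_congr rfl fun φ _ => ?_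
      rw [Finset.prod_mul_distrib, ei_sum]
    simp only [h3]
    rw [Finset.sum_comm, Finset.sum_div]
    refine Finset.sum_congr rfl fun φ _ => ?_
    rw [← Finset.mul_sum, mul_div_assoc]
  simp only [h2]
  rw [h1]
  exact tendsto_finsetSum _ fun φ hφ => (hw φ hφ).const_mul _

/-- The choice of the approximations one after the other. -/
private theorem GE5_choice {ω : Measure W} {R : W ≃ᵐ W} {X : ℕ → W → ℝ} (h : GSys ω R X) (k : ℕ)
    (f : Fin (k + 1) → W → ℂ) (hf : ∀ j, MemLp (f j) 2 ω) (B τ : ℝ) (hτ : 0 < τ) (m : ℕ) :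
    ∃ (s : Fin (k + 1) → Finset ((ℕ × ℤ) →₀ ℝ)) (b : Fin (k + 1) → ((ℕ × ℤ) →₀ ℝ) → ℂ),
      ∀ j : Fin (k + 1), (j : ℕ) < m →
        ((∏ i ∈ univ.filter (· < j), ∑ c ∈ s i, ‖b i c‖) * ∏ _i ∈ univ.filter (j < ·), B) ^ 2 *
          ∫ w, ‖f j w - ∑ c ∈ s j, b j c * ei (LF R X c w)‖ ^ 2 ∂ω ≤ τ := by
  classical
  induction m with
  | zero => exact ⟨fun _ => ∅, fun _ _ => 0, fun j hj => absurd hj (Nat.not_lt_zero _)⟩
  | succ m ih =>
    obtain ⟨s, b, hsb⟩ := ih
    by_cases hm : m < k + 1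
    · obtain ⟨A, hA⟩ : ∃ A : ℝ, A = ((∏ i ∈ univ.filter (· < (⟨m, hm⟩ : Fin (k + 1))), ∑ c ∈ s i, ‖b i c‖) *
          ∏ i ∈ univ.filter ((⟨m, hm⟩ : Fin (k + 1)) < ·), B) ^ 2 := ⟨_, rfl⟩
      have hA0 : 0 ≤ A := by
        rw [hA]
        positivity
      obtain ⟨s', b', hs'⟩ := exp_dense h (f ⟨m, hm⟩) (hf _) (τ / (A + 1)) (by positivity)
      refine ⟨Function.update s ⟨m, hm⟩ s', Function.update b ⟨m, hm⟩ b', fun j hj => ?_⟩
      have hup : ∀ i : Fin (k + 1), (i : ℕ) < m → Function.update s ⟨m, hm⟩ s' i = s i ∧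
          Function.update b ⟨m, hm⟩ b' i = b i := by
        intro i hi
        have hne : i ≠ ⟨m, hm⟩ := fun h => by
          rw [h] at hi
          exact lt_irrefl _ hi
        exact ⟨Function.update_of_ne hne _ _, Function.update_of_ne hne _ _⟩
      have hprod : ∀ j : Fin (k + 1), (j : ℕ) ≤ m →
          ∏ i ∈ univ.filter (· < j), ∑ c ∈ Function.update s ⟨m, hm⟩ s' i,
            ‖Function.update b ⟨m, hm⟩ b' i c‖ = ∏ i ∈ univ.filter (· < j), ∑ c ∈ s i, ‖b i c‖ := by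
        intro j hj
        refine Finset.prod_congr rfl fun i hi => ?_
        have hi2 : i < j := (Finset.mem_filter.1 hi).2
        have hi3 : (i : ℕ) < m := lt_of_lt_of_le hi2 hj
        rw [(hup i hi3).1, (hup i hi3).2]
      rcases Nat.lt_succ_iff_lt_or_eq.1 hj with hjm | hjm
      · rw [hprod j hjm.le, (hup j hjm).1, (hup j hjm).2]
        exact hsb j hjm
      · have hj2 : j = ⟨m, hm⟩ := Fin.ext hjm
        subst hj2
        rw [hprod _ le_rfl, Function.update_self, Function.update_self, ← hA]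
        calc A * ∫ w, ‖f ⟨m, hm⟩ w - ∑ c ∈ s', b' c * ei (LF R X c w)‖ ^ 2 ∂ω
            ≤ A * (τ / (A + 1)) := mul_le_mul_of_nonneg_left hs' hA0
          _ = τ * (A / (A + 1)) := by ring
          _ ≤ τ * 1 := mul_le_mul_of_nonneg_left ((div_le_one (by linarith)).2 (by linarith)) hτ.le
          _ = τ := mul_one τ
    · refine ⟨s, b, fun j hj => hsb j ?_⟩
      have := j.2
      omega

private theorem GE5_jensen {ω : Measure W} [IsProbabilityMeasure ω] (u : W → ℂ) (hu : Measurable u)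
    (K : ℝ) (hK : ∀ w, ‖u w‖ ≤ K) : ‖∫ w, u w ∂ω‖ ^ 2 ≤ ∫ w, ‖u w‖ ^ 2 ∂ω := by
  have h1 : Integrable (fun w => ‖u w‖) ω := by
    refine Integrable.of_bound hu.norm.aestronglyMeasurable K (Eventually.of_forall fun w => ?_)
    rw [norm_norm]
    exact hK w
  have h2 : Integrable (fun w => ‖u w‖ ^ 2) ω := by
    refine Integrable.of_bound (hu.norm.pow_const 2).aestronglyMeasurable (K ^ 2)
      (Eventually.of_forall fun w => ?_)
    rw [norm_pow, norm_norm]
    exact pow_le_pow_left₀ (norm_nonneg _) (hK w) 2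
  have h3 : ‖∫ w, u w ∂ω‖ ≤ ∫ w, ‖u w‖ ∂ω := norm_integral_le_integral_norm _
  obtain ⟨M, hM⟩ : ∃ M : ℝ, M = ∫ w, ‖u w‖ ∂ω := ⟨_, rfl⟩
  have h4 : 0 ≤ ∫ w, (‖u w‖ - M) ^ 2 ∂ω := integral_nonneg fun w => sq_nonneg _
  have h5 : ∫ w, (‖u w‖ - M) ^ 2 ∂ω = ∫ w, ‖u w‖ ^ 2 ∂ω - M ^ 2 := by
    have h6 : ∀ w, (‖u w‖ - M) ^ 2 = (‖u w‖ ^ 2 - 2 * M * ‖u w‖) + M ^ 2 := fun w => by ring
    have h8 : Integrable (fun w => ‖u w‖ ^ 2 - 2 * M * ‖u w‖) ω := h2.sub (h1.const_mul _)
    simp only [h6]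
    rw [integral_add h8 (integrable_const _), integral_sub h2 (h1.const_mul _),
      integral_const_mul, ← hM, integral_const, probReal_univ, one_smul]
    ring
  have h7 : M ^ 2 ≤ ∫ w, ‖u w‖ ^ 2 ∂ω := by linarith
  rw [← hM] at h3
  exact (pow_le_pow_left₀ (norm_nonneg _) h3 2).trans h7

/-- ALL BOUNDED FUNCTIONS ON A GAUSSIAN SYSTEM. For trigonometric polynomials g_j (finite sums of
b ei (LF c)) the averages converge a.e. (expand the product; conv_diag; the limit is prod int g_j by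
int_ei). For bounded f_j choose g_0, g_1, .. one after the other (exp_dense): int |f_j - g_j|^2 ≤
ep_j with ep_j so small that the bound of prod_max and |prod int f_j - prod int g_j| are ≤ ep (B'_i,
i < j, is known when g_j is chosen: B'_i = sum |b|). conv_approx. -/
theorem conv_gauss {ω : Measure W} {R : W ≃ᵐ W} {X : ℕ → W → ℝ} (h : GSys ω R X) (p : ℤ[X])
    (hp : 2 ≤ p.natDegree) (k : ℕ) (f : Fin (k + 1) → W → ℂ) (hf : ∀ j, Measurable (f j))
    (B : ℝ) (hB : ∀ j w, ‖f j w‖ ≤ B) :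
    ∀ᵐ w ∂ω, Tendsto (fun N : ℕ => (∑ n ∈ range N,
        ∏ j, f j (pw R (p.eval ((n : ℤ) + (j : ℕ))) w)) / (N : ℂ))
        atTop (𝓝 (∏ j, ∫ w', f j w' ∂ω)) := by
  have : IsProbabilityMeasure ω := h.gauss.isProbabilityMeasure
  obtain ⟨w0⟩ := nonempty_of_isProbabilityMeasure ω
  have hB0 : 0 ≤ B := (norm_nonneg _).trans (hB 0 w0)
  obtain ⟨K, hK, hmax⟩ := prod_max (W := W) p k
  have hmp : MeasurePreserving R ω ω := h.erg.toMeasurePreserving
  refine conv_approx ω _ _ (fun N => ?_) (fun ε hε => ?_)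
  · refine Measurable.div_const (Finset.measurable_sum _ fun n _ => ?_) _
    exact Finset.measurable_prod _ fun j _ => (hf j).comp (pw_meas R _)
  · obtain ⟨τ, hτ⟩ : ∃ τ : ℝ, τ = min (ε / (((k : ℝ) + 1) * K)) ((ε / ((k : ℝ) + 1)) ^ 2) := ⟨_, rfl⟩
    have hτ0 : 0 < τ := by
      rw [hτ]
      positivity
    have hτ1 : K * (((k : ℝ) + 1) * τ) ≤ ε := by
      have h1 : τ ≤ ε / (((k : ℝ) + 1) * K) := by
        rw [hτ]
        exact min_le_left _ _
      rw [le_div_iff₀ (by positivity)] at h1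
      linarith
    have hτ2 : ((k : ℝ) + 1) * Real.sqrt τ ≤ ε := by
      have h1 : Real.sqrt τ ≤ ε / ((k : ℝ) + 1) := by
        rw [Real.sqrt_le_left (by positivity), hτ]
        exact min_le_right _ _
      rw [le_div_iff₀ (by positivity)] at h1
      linarith
    obtain ⟨s, b, hsb⟩ := GE5_choice h k f (fun j => MemLp.of_bound (hf j).aestronglyMeasurable B
      (Eventually.of_forall (hB j))) B τ hτ0 (k + 1)
    obtain ⟨g, hg⟩ : ∃ g : Fin (k + 1) → W → ℂ, ∀ j w, g j w = ∑ c ∈ s j, b j c * ei (LF R X c w) :=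
      ⟨_, fun j w => rfl⟩
    have hgm : ∀ j, Measurable (g j) := by
      intro j
      have h1 : g j = fun w => ∑ c ∈ s j, b j c * ei (LF R X c w) := funext fun w => hg j w
      rw [h1]
      exact Finset.measurable_sum _ fun c _ =>
        (ei_cont.measurable.comp (LF_meas h c)).const_mul _
    have hgb : ∀ j w, ‖g j w‖ ≤ ∑ c ∈ s j, ‖b j c‖ := by
      intro j w
      rw [hg]
      refine (norm_sum_le _ _).trans (Finset.sum_le_sum fun c _ => ?_)
      rw [norm_mul, norm_ei, mul_one]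
    obtain ⟨H, hH1, hH2, hH3, hH4, hH5⟩ := hmax ω R hmp f g (fun _ => B)
      (fun j => ∑ c ∈ s j, ‖b j c‖) hf hgm hB hgb
    obtain ⟨A, hA⟩ : ∃ A : Fin (k + 1) → ℝ, ∀ j, A j = (∏ i ∈ univ.filter (· < j), ∑ c ∈ s i, ‖b i c‖) *
        ∏ i ∈ univ.filter (j < ·), B := ⟨_, fun j => rfl⟩
    have hA0 : ∀ j, 0 ≤ A j := by
      intro j
      rw [hA]
      refine mul_nonneg (Finset.prod_nonneg fun i _ => Finset.sum_nonneg fun c _ => norm_nonneg _)
        (Finset.prod_nonneg fun i _ => hB0)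
    have hA2 : ∀ j, A j ^ 2 * ∫ w, ‖f j w - g j w‖ ^ 2 ∂ω ≤ τ := by
      intro j
      have h1 := hsb j j.2
      rw [← hA] at h1
      simpa only [hg] using h1
    refine ⟨fun N w => (∑ n ∈ range N, ∏ j, g j (pw R (p.eval ((n : ℤ) + (j : ℕ))) w)) / (N : ℂ),
      ∏ j, ∫ w', g j w' ∂ω, H, ?_, hH1, hH2, hH3, ?_, ?_, Eventually.of_forall fun w N => hH5 N w⟩
    · have hfi : ∀ j, Integrable (f j) ω := fun j =>
        Integrable.of_bound (hf j).aestronglyMeasurable B (Eventually.of_forall (hB j))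
      have hgi : ∀ j, Integrable (g j) ω := fun j =>
        Integrable.of_bound (hgm j).aestronglyMeasurable _ (Eventually.of_forall (hgb j))
      have h1 := Finset.prod_sub_ordered (univ : Finset (Fin (k + 1)))
        (fun j => ∫ w, f j w ∂ω) (fun j => ∫ w, f j w ∂ω - ∫ w, g j w ∂ω)
      simp only [sub_sub_cancel] at h1
      rw [h1, sub_sub_cancel]
      have h2 : ∀ j, ‖(∫ w, f j w ∂ω - ∫ w, g j w ∂ω) * (∏ i ∈ univ.filter (· < j), ∫ w, g i w ∂ω) *
          ∏ i ∈ univ.filter (j < ·), ∫ w, f i w ∂ω‖ ≤ Real.sqrt τ := by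
        intro j
        have h3 : ‖∏ i ∈ univ.filter (· < j), ∫ w, g i w ∂ω‖ ≤
            ∏ i ∈ univ.filter (· < j), ∑ c ∈ s i, ‖b i c‖ := by
          rw [norm_prod]
          refine Finset.prod_le_prod (fun i _ => norm_nonneg _) fun i _ => ?_
          exact (norm_integral_le_of_norm_le_const (Eventually.of_forall (hgb i))).trans
            (by rw [probReal_univ, mul_one])
        have h4 : ‖∏ i ∈ univ.filter (j < ·), ∫ w, f i w ∂ω‖ ≤ ∏ i ∈ univ.filter (j < ·), B := by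
          rw [norm_prod]
          refine Finset.prod_le_prod (fun i _ => norm_nonneg _) fun i _ => ?_
          exact (norm_integral_le_of_norm_le_const (Eventually.of_forall (hB i))).trans
            (by rw [probReal_univ, mul_one])
        have h5 : ‖∫ w, f j w ∂ω - ∫ w, g j w ∂ω‖ ^ 2 ≤ ∫ w, ‖f j w - g j w‖ ^ 2 ∂ω := by
          rw [← integral_sub (hfi j) (hgi j)]
          exact GE5_jensen (fun w => f j w - g j w) ((hf j).sub (hgm j)) (B + ∑ c ∈ s j, ‖b j c‖)
            (fun w => (norm_sub_le _ _).trans (add_le_add (hB j w) (hgb j w)))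
        refine Real.le_sqrt_of_sq_le ?_
        rw [norm_mul, norm_mul, mul_assoc, mul_pow]
        have h6 : (‖∏ i ∈ univ.filter (· < j), ∫ w, g i w ∂ω‖ *
            ‖∏ i ∈ univ.filter (j < ·), ∫ w, f i w ∂ω‖) ^ 2 ≤ A j ^ 2 := by
          rw [hA]
          refine pow_le_pow_left₀ (by positivity) ?_ 2
          exact mul_le_mul h3 h4 (norm_nonneg _) ((norm_nonneg _).trans h3)
        calc ‖∫ w, f j w ∂ω - ∫ w, g j w ∂ω‖ ^ 2 * (‖∏ i ∈ univ.filter (· < j), ∫ w, g i w ∂ω‖ *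
            ‖∏ i ∈ univ.filter (j < ·), ∫ w, f i w ∂ω‖) ^ 2
            ≤ (∫ w, ‖f j w - g j w‖ ^ 2 ∂ω) * A j ^ 2 :=
              mul_le_mul h5 h6 (sq_nonneg _) ((sq_nonneg _).trans h5)
          _ = A j ^ 2 * ∫ w, ‖f j w - g j w‖ ^ 2 ∂ω := mul_comm _ _
          _ ≤ τ := hA2 j
      calc ‖∑ j, (∫ w, f j w ∂ω - ∫ w, g j w ∂ω) * (∏ i ∈ univ.filter (· < j), ∫ w, g i w ∂ω) *
          ∏ i ∈ univ.filter (j < ·), ∫ w, f i w ∂ω‖
          ≤ ∑ j : Fin (k + 1), Real.sqrt τ := (norm_sum_le _ _).trans (Finset.sum_le_sum fun j _ => h2 j)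
        _ = ((k : ℝ) + 1) * Real.sqrt τ := by
            rw [Finset.sum_const, Finset.card_univ, Fintype.card_fin, nsmul_eq_mul]
            push_cast
            ring
        _ ≤ ε := hτ2
    · refine hH4.trans (le_trans ?_ hτ1)
      refine mul_le_mul_of_nonneg_left ?_ hK.le
      calc ∑ j : Fin (k + 1), ((∏ i ∈ univ.filter (· < j), ∑ c ∈ s i, ‖b i c‖) *
            ∏ i ∈ univ.filter (j < ·), B) ^ 2 * ∫ w, ‖f j w - g j w‖ ^ 2 ∂ω
          ≤ ∑ j : Fin (k + 1), τ := by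
            refine Finset.sum_le_sum fun j _ => ?_
            rw [← hA]
            exact hA2 j
        _ = ((k : ℝ) + 1) * τ := by
            rw [Finset.sum_const, Finset.card_univ, Fintype.card_fin, nsmul_eq_mul]
            push_cast
            ring
    · have h1 := GE5_trig h p hp k s b
      simpa only [← hg] using h1
/- END GE5 -/

end Pool.Agent.GsF
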