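import Pool.Agent.GsF.Defs

/-!
THE INVERSE WEYL THEOREM. If a Weyl sum of degree at most d is at least N/D then all nonconstant
coefficients are close to fractions with a common denominator which is polynomially bounded in D.
-/

namespace Pool.Agent.GsF

open Finset Polynomial

/- MODULE GEO -/
private theorem GEO_lower (t : ℝ) : 4 * nrm t ≤ ‖e t - 1‖ := by
  have h0 : e t = e (t - round t) := by
    have h := e_add_int (t - round t) (round t)
    rw [sub_add_cancel] at h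
    exact h
  have h1 : |t - round t| ≤ 1 / 2 := abs_sub_round t
  rw [h0]
  unfold nrm
  set x : ℝ := t - round t with hx
  unfold e
  have h2 := Complex.norm_exp_I_mul_ofReal_sub_one (2 * Real.pi * x)
  rw [mul_comm Complex.I] at h2
  rw [h2]
  have h3 : 2 * Real.pi * x / 2 = Real.pi * x := by ring
  rw [h3, norm_mul, Real.norm_eq_abs, Real.norm_eq_abs, abs_two]
  have hpi := Real.pi_pos
  have h4 : |Real.sin (Real.pi * x)| = Real.sin (Real.pi * |x|) := by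
    rcases le_total 0 x with hx0 | hx0
    · rw [abs_of_nonneg hx0, abs_of_nonneg]
      apply Real.sin_nonneg_of_nonneg_of_le_pi (by positivity)
      rw [abs_of_nonneg hx0] at h1
      nlinarith
    · rw [abs_of_nonpos hx0, ← abs_neg, ← Real.sin_neg, abs_of_nonneg]
      · congr 1
        ring
      · rw [abs_of_nonpos hx0] at h1
        apply Real.sin_nonneg_of_nonneg_of_le_pi
        · nlinarith
        · nlinarith
  rw [h4]
  have h5 : 2 / Real.pi * (Real.pi * |x|) ≤ Real.sin (Real.pi * |x|) := by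
    apply Real.mul_le_sin (by positivity)
    nlinarith
  have h6 : 2 / Real.pi * (Real.pi * |x|) = 2 * |x| := by
    field_simp
  linarith

/-- Geometric sum. (1 - e(t)) * sum = 1 - e(N t), so the left factor times |1 - e(t)| is at most 2,
and |1 - e(t)| = 2 |sin (pi t)| = 2 sin (pi nrm t) ≥ 4 nrm t since sin (pi x) ≥ 2 x on [0, 1/2]
(Real.mul_le_sin or concavity: 2/pi * y ≤ sin y for 0 ≤ y ≤ pi/2; the square of |1 - e(t)| is
2 - 2 cos (2 pi t), and t may be replaced by t - round t by periodicity). -/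
theorem geo (N : ℕ) (t : ℝ) : ‖∑ n ∈ range N, e (n * t)‖ * (2 * nrm t) ≤ 1 := by
  have h1 : (∑ n ∈ range N, e (n * t)) * (e t - 1) = e t ^ N - 1 := by
    rw [← geom_sum_mul]
    congr 1
    exact Finset.sum_congr rfl fun n _ => e_nat_mul n t
  have h2 : ‖∑ n ∈ range N, e (n * t)‖ * ‖e t - 1‖ ≤ 2 := by
    rw [← norm_mul, h1]
    refine (norm_sub_le _ _).trans ?_
    rw [norm_pow, norm_e, one_pow, norm_one]
    norm_num
  have h3 := GEO_lower t
  have h4 : ‖∑ n ∈ range N, e (n * t)‖ * (4 * nrm t) ≤ ‖∑ n ∈ range N, e (n * t)‖ * ‖e t - 1‖ :=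
    mul_le_mul_of_nonneg_left h3 (norm_nonneg _)
  linarith
/- END GEO -/

/- MODULE VIN -/
private theorem VIN_card (A : Finset ℤ) (L : ℝ) (hL : 0 ≤ L) (h : ∀ x ∈ A, ∀ y ∈ A, (x : ℝ) - y ≤ L) :
    (A.card : ℝ) ≤ L + 1 := by
  rcases A.eq_empty_or_nonempty with rfl | hA
  · simp
    linarith
  · have hsub : A ⊆ Finset.Icc (A.min' hA) (A.max' hA) := fun x hx =>
      Finset.mem_Icc.2 ⟨A.min'_le x hx, A.le_max' x hx⟩
    have h1 := Finset.card_le_card hsub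
    rw [Int.card_Icc] at h1
    have h2 := h _ (A.max'_mem hA) _ (A.min'_mem hA)
    have h3 : A.min' hA ≤ A.max' hA := A.min'_le _ (A.max'_mem hA)
    have h4 : ((A.card : ℤ) : ℝ) ≤ ((A.max' hA + 1 - A.min' hA : ℤ) : ℝ) := by
      have h5 : (A.card : ℤ) ≤ A.max' hA + 1 - A.min' hA := by omega
      exact_mod_cast h5
    push_cast at h4
    linarith

private theorem VIN_pig (N : ℕ) (ρ : ℝ) (T : Finset ℕ) (hT : ∀ h ∈ T, 1 ≤ h ∧ h ≤ N)
    (hρ : 0 < ρ) (hρ1 : ρ ≤ 1) (hc : ρ * N ≤ T.card) (h2 : 8 ≤ ρ ^ 2 * N) :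
    ∃ h ∈ T, ∃ h' ∈ T, h < h' ∧ ((h' - h : ℕ) : ℝ) * ρ ≤ 2 := by
  set g : ℕ := ⌊2 / ρ⌋₊ with hg
  have h2ρ : 2 ≤ 2 / ρ := by
    rw [le_div_iff₀ hρ]
    linarith
  have hg1 : (g : ℝ) ≤ 2 / ρ := Nat.floor_le (by positivity)
  have hg2 : 2 ≤ g := Nat.le_floor (by exact_mod_cast h2ρ)
  have hg3 : 2 / ρ < g + 1 := Nat.lt_floor_add_one _
  have hg2' : (2 : ℝ) ≤ g := by exact_mod_cast hg2
  have hg4 : 4 / (3 * ρ) < g := by
    have : 4 / (3 * ρ) = (2 / 3) * (2 / ρ) := by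
      field_simp
      norm_num
    rw [this]
    linarith
  have hρg : 4 < 3 * ρ * g := by
    rw [div_lt_iff₀ (by positivity)] at hg4
    linarith
  have hρN : 8 ≤ ρ * N := by
    have : ρ ^ 2 * N ≤ ρ * N := by
      have h0 : (0 : ℝ) ≤ N := Nat.cast_nonneg N
      nlinarith
    linarith
  have hmap : ∀ h ∈ T, h / g ∈ Finset.range (N / g + 1) := by
    intro h hh
    rw [Finset.mem_range]
    exact Nat.lt_succ_of_le (Nat.div_le_div_right (hT h hh).2)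
  have hcard : (Finset.range (N / g + 1)).card < T.card := by
    rw [Finset.card_range]
    have h3 : ((N / g : ℕ) : ℝ) ≤ (N : ℝ) / g := Nat.cast_div_le
    have h4 : (N : ℝ) / g ≤ 3 / 4 * (ρ * N) := by
      rw [div_le_iff₀ (by linarith)]
      have h0 : (0 : ℝ) ≤ N := Nat.cast_nonneg N
      nlinarith
    have h5 : ((N / g + 1 : ℕ) : ℝ) < T.card := by
      push_cast
      linarith
    exact_mod_cast h5
  obtain ⟨x, hx, y, hy, hne, hxy⟩ := Finset.exists_ne_map_eq_of_card_lt_of_maps_to hcard hmap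
  have key : ∀ a b : ℕ, a ∈ T → b ∈ T → a < b → a / g = b / g → ∃ h ∈ T, ∃ h' ∈ T, h < h' ∧ ((h' - h : ℕ) : ℝ) * ρ ≤ 2 := by
    intro a b ha hb hab hq
    refine ⟨a, ha, b, hb, hab, ?_⟩
    have h3 : b - a ≤ g := by
      have h4 := Nat.div_add_mod a g
      have h5 := Nat.div_add_mod b g
      have h6 := Nat.mod_lt b (show g > 0 by omega)
      rw [hq] at h4
      omega
    have h4 : ((b - a : ℕ) : ℝ) ≤ g := by exact_mod_cast h3
    have h5 : (g : ℝ) * ρ ≤ 2 := by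
      rw [le_div_iff₀ hρ] at hg1
      exact hg1
    nlinarith
  rcases Nat.lt_or_gt_of_ne hne with h | h
  · exact key x y hx hy h hxy
  · exact key y x hy hx h hxy.symm

private theorem VIN_fib (α : ℝ) (N : ℕ) (ε : ℝ) (T : Finset ℕ) (hT : ∀ h ∈ T, 1 ≤ h ∧ h ≤ N) (hε : 0 ≤ ε)
    (hn : ∀ h ∈ T, nrm (h * α) ≤ ε) (q : ℕ) (hq : 1 ≤ q) (hθ : 0 < nrm (q * α)) (s : ℕ) :
    ((T.filter (fun h => h % q = s)).card : ℝ) ≤
      ((N : ℝ) / q * nrm (q * α) + 2 * ε + 1) * (2 * ε / nrm (q * α) + 1) := by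
  classical
  set R : ℤ := round (q * α) with hR
  set θ : ℝ := q * α - R with hθdef
  have hθ' : nrm (q * α) = |θ| := rfl
  rw [hθ'] at hθ ⊢
  set Ts := T.filter (fun h => h % q = s) with hTs
  let f : ℕ → ℤ := fun h => round ((s : ℝ) * α + ((h / q : ℕ) : ℝ) * θ)
  have hfb : ∀ h ∈ Ts, |(s : ℝ) * α + ((h / q : ℕ) : ℝ) * θ - f h| ≤ ε := by
    intro h hh
    obtain ⟨hhT, hhs⟩ := Finset.mem_filter.1 hh
    have h1 := hn h hhT
    have h2 : (h : ℝ) * α = (s : ℝ) * α + ((h / q : ℕ) : ℝ) * θ + ((((h / q : ℕ) : ℤ) * R : ℤ) : ℝ) := by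
      have h3 : ((q * (h / q) + h % q : ℕ) : ℝ) = (h : ℝ) := by rw [Nat.div_add_mod]
      rw [hhs] at h3
      have h4 : (h : ℝ) = q * ((h / q : ℕ) : ℝ) + s := by
        rw [← h3, Nat.cast_add, Nat.cast_mul]
      rw [Int.cast_mul, Int.cast_natCast, hθdef]
      nth_rewrite 1 [h4]
      ring
    rw [h2, nrm_add_int] at h1
    exact h1
  have hmb : ∀ h ∈ Ts, (0 : ℝ) ≤ ((h / q : ℕ) : ℝ) ∧ ((h / q : ℕ) : ℝ) ≤ (N : ℝ) / q := by
    intro h hh
    obtain ⟨hhT, hhs⟩ := Finset.mem_filter.1 hh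
    refine ⟨Nat.cast_nonneg _, ?_⟩
    refine Nat.cast_div_le.trans ?_
    apply div_le_div_of_nonneg_right _ (Nat.cast_nonneg q)
    exact_mod_cast (hT h hhT).2
  have hNq : (0 : ℝ) ≤ (N : ℝ) / q := by positivity
  -- image
  have himg : ((Ts.image f).card : ℝ) ≤ ((N : ℝ) / q * |θ| + 2 * ε) + 1 := by
    apply VIN_card
    · positivity
    · intro x hx y hy
      obtain ⟨h, hh, rfl⟩ := Finset.mem_image.1 hx
      obtain ⟨h', hh', rfl⟩ := Finset.mem_image.1 hy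
      have h1 := hfb h hh
      have h2 := hfb h' hh'
      have h3 := hmb h hh
      have h4 := hmb h' hh'
      have h5 : (((h / q : ℕ) : ℝ) - ((h' / q : ℕ) : ℝ)) * θ ≤ (N : ℝ) / q * |θ| := by
        refine (le_abs_self _).trans ?_
        rw [abs_mul]
        apply mul_le_mul_of_nonneg_right _ (abs_nonneg _)
        rw [abs_le]
        constructor <;> linarith [h3.1, h3.2, h4.1, h4.2]
      have h6 := abs_le.1 h1
      have h7 := abs_le.1 h2
      have h8 : (((h / q : ℕ) : ℝ) - ((h' / q : ℕ) : ℝ)) * θ = ((h / q : ℕ) : ℝ) * θ - ((h' / q : ℕ) : ℝ) * θ := by ring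
      rw [h8] at h5
      linarith [h6.1, h6.2, h7.1, h7.2]
  -- fibres
  have hfibre : ∀ z ∈ Ts.image f, (Ts.filter (fun h => f h = z)).card ≤ ⌊2 * ε / |θ| + 1⌋₊ := by
    intro z hz
    apply Nat.le_floor
    have hinj : Set.InjOn (fun h : ℕ => ((h / q : ℕ) : ℤ)) (Ts.filter (fun h => f h = z)) := by
      intro x hx y hy hxy
      have hx1 := (Finset.mem_filter.1 (Finset.mem_filter.1 (Finset.mem_coe.1 hx)).1).2
      have hy1 := (Finset.mem_filter.1 (Finset.mem_filter.1 (Finset.mem_coe.1 hy)).1).2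
      have hxy' : x / q = y / q := Int.ofNat_inj.1 hxy
      rw [← Nat.div_add_mod x q, ← Nat.div_add_mod y q, hx1, hy1, hxy']
    rw [← Finset.card_image_of_injOn hinj]
    apply VIN_card
    · positivity
    · intro x hx y hy
      obtain ⟨h, hh, rfl⟩ := Finset.mem_image.1 hx
      obtain ⟨h', hh', rfl⟩ := Finset.mem_image.1 hy
      obtain ⟨hh1, hh2⟩ := Finset.mem_filter.1 hh
      obtain ⟨hh1', hh2'⟩ := Finset.mem_filter.1 hh'
      have h1 := hfb h hh1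
      have h2 := hfb h' hh1'
      rw [hh2] at h1
      rw [hh2'] at h2
      rw [le_div_iff₀ hθ]
      simp only [Int.cast_natCast]
      have h6 := abs_le.1 h1
      have h7 := abs_le.1 h2
      rcases le_total 0 θ with h0 | h0
      · rw [abs_of_nonneg h0]
        linarith [h6.1, h6.2, h7.1, h7.2]
      · rw [abs_of_nonpos h0]
        linarith [h6.1, h6.2, h7.1, h7.2]
  have hcard := Finset.card_le_mul_card_image Ts ⌊2 * ε / |θ| + 1⌋₊ hfibre
  have h9 : (Ts.card : ℝ) ≤ (⌊2 * ε / |θ| + 1⌋₊ : ℝ) * ((Ts.image f).card : ℝ) := by exact_mod_cast hcard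
  have h10 : (⌊2 * ε / |θ| + 1⌋₊ : ℝ) ≤ 2 * ε / |θ| + 1 := Nat.floor_le (by positivity)
  calc (Ts.card : ℝ) ≤ (⌊2 * ε / |θ| + 1⌋₊ : ℝ) * ((Ts.image f).card : ℝ) := h9
    _ ≤ (2 * ε / |θ| + 1) * (((N : ℝ) / q * |θ| + 2 * ε) + 1) :=
        mul_le_mul h10 himg (Nat.cast_nonneg _) (by positivity)
    _ = _ := by ring

/-- Vinogradov's lemma. Proof. Put g = floor(2/r), g ≥ 2 and g ≥ (2/3)(2/r); the map h ↦ h / g sends
T to at most N/g + 1 ≤ (3/4) r N + 1 < r N ≤ #T values (r N ≥ 8), so two elements h < h' of T have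
h' - h < g; put q = h' - h: q r ≤ 2 and nrm (q al) ≤ 2 ep. Let th = q al - round(q al),
|th| = nrm (q al) ≤ 2 ep. If th = 0 done. Otherwise, for each residue s mod q the elements
h = s + q m of T (m ≤ N/q) satisfy: s al + m th (modulo the integer m round(q al)) is within ep of an
integer z. The numbers s al + m th lie in an interval of length ≤ (N/q)|th|, so at most
(N/q)|th| + 2 ep + 1 ≤ (N/q)|th| + 2 integers z occur, and for each z at most 2 ep/|th| + 1 values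
of m. Hence r N ≤ #T ≤ q ((N/q)|th| + 2)(2 ep/|th| + 1) = 2 ep N + N |th| + 4 q ep/|th| + 2 q
≤ 4 ep N + 4 q ep/|th| + 2 q, where 4 ep N ≤ r N/4 and 2 q ≤ 4/r ≤ r N/2. So
r N/4 ≤ 4 q ep/|th| ≤ 8 ep/(r |th|). -/
theorem vin (α : ℝ) (N : ℕ) (ε ρ : ℝ) (T : Finset ℕ) (hT : ∀ h ∈ T, 1 ≤ h ∧ h ≤ N) (hε : 0 ≤ ε)
    (hρ : 0 < ρ) (hρ1 : ρ ≤ 1) (hc : ρ * N ≤ T.card) (hn : ∀ h ∈ T, nrm (h * α) ≤ ε)
    (h1 : 16 * ε ≤ ρ) (h2 : 8 ≤ ρ ^ 2 * N) :
    ∃ q : ℕ, 1 ≤ q ∧ q * ρ ≤ 2 ∧ nrm (q * α) * N * ρ ^ 2 ≤ 32 * ε := by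
  classical
  obtain ⟨h, hh, h', hh', hlt, hqρ⟩ := VIN_pig N ρ T hT hρ hρ1 hc h2
  refine ⟨h' - h, by omega, hqρ, ?_⟩
  set q := h' - h with hqdef
  have hq1 : 1 ≤ q := by omega
  have hθ2 : nrm (q * α) ≤ 2 * ε := by
    have h3 : (q : ℝ) * α = h' * α - h * α := by
      rw [hqdef, Nat.cast_sub hlt.le]
      ring
    rw [h3]
    refine (nrm_sub_le _ _).trans ?_
    linarith [hn h hh, hn h' hh']
  rcases (nrm_nonneg (q * α)).eq_or_lt with h0 | h0
  · rw [← h0]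
    linarith
  · have hfib := VIN_fib α N ε T hT hε hn q hq1 h0
    set θ := nrm (q * α) with hθ
    have hsum : (T.card : ℝ) ≤ q * (((N : ℝ) / q * θ + 2 * ε + 1) * (2 * ε / θ + 1)) := by
      have h3 : T.card = ∑ s ∈ Finset.range q, (T.filter (fun h => h % q = s)).card := by
        apply Finset.card_eq_sum_card_fiberwise
        intro x hx
        exact Finset.mem_coe.2 (Finset.mem_range.2 (Nat.mod_lt _ hq1))
      rw [h3]
      push_cast
      refine (Finset.sum_le_sum fun s _ => hfib s).trans ?_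
      rw [Finset.sum_const, Finset.card_range, nsmul_eq_mul]
    have hq0 : (0 : ℝ) < q := by exact_mod_cast hq1
    have hN0 : (0 : ℝ) ≤ N := Nat.cast_nonneg N
    have h4 : (q : ℝ) * (((N : ℝ) / q * θ + 2 * ε + 1) * (2 * ε / θ + 1)) =
        2 * ε * N + N * θ + q * (2 * ε + 1) * (2 * ε / θ) + q * (2 * ε + 1) := by
      field_simp
      ring
    rw [h4] at hsum
    have hε8 : 2 * ε ≤ 1 := by linarith
    have h5 : N * θ ≤ N * (2 * ε) := mul_le_mul_of_nonneg_left hθ2 hN0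
    have hεθ : 0 ≤ 2 * ε / θ := by positivity
    have h6 : q * (2 * ε + 1) * (2 * ε / θ) ≤ q * 2 * (2 * ε / θ) := by
      apply mul_le_mul_of_nonneg_right _ hεθ
      nlinarith
    have h7 : q * (2 * ε + 1) ≤ q * 2 := by nlinarith
    have h8 : ρ * N ≤ 4 * ε * N + 4 * (q * ε / θ) + 2 * q := by
      have : q * 2 * (2 * ε / θ) = 4 * (q * ε / θ) := by ring
      rw [this] at h6
      linarith
    have h9 : 4 * ε * N ≤ ρ * N / 4 := by nlinarith
    have h10 : 2 * (q : ℝ) ≤ ρ * N / 2 := by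
      have h11 : 2 * (q : ℝ) * ρ ≤ ρ * N / 2 * ρ := by nlinarith
      exact le_of_mul_le_mul_right h11 hρ
    have h11 : ρ * N / 4 ≤ 4 * (q * ε / θ) := by linarith
    have h12 : ρ * N / 4 * θ ≤ 4 * (q * ε) := by
      have := mul_le_mul_of_nonneg_right h11 h0.le
      have h13 : 4 * (q * ε / θ) * θ = 4 * (q * ε) := by
        field_simp
      linarith
    have h14 : 4 * (q * ε) * ρ ≤ 8 * ε := by nlinarith
    have h15 : ρ * N / 4 * θ * ρ ≤ 4 * (q * ε) * ρ := mul_le_mul_of_nonneg_right h12 hρ.le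
    nlinarith
/- END VIN -/

/- MODULE VDC -/
private theorem VDC_sum (F : ℕ → ℕ → ℂ) (N : ℕ) :
    ∑ h ∈ Ico 1 (N + 1), ∑ n ∈ range (N + 1 - h), F (n + h) n =
      ∑ h ∈ Ico 1 N, ∑ n ∈ range (N - h), F (n + h) n + ∑ n ∈ range N, F N n := by
  have h1 : ∀ h ∈ Ico 1 (N + 1), ∑ n ∈ range (N + 1 - h), F (n + h) n =
      ∑ n ∈ range (N - h), F (n + h) n + F N (N - h) := by
    intro h hh
    rw [Finset.mem_Ico] at hh
    rw [show N + 1 - h = (N - h) + 1 by omega, Finset.sum_range_succ, show N - h + h = N by omega]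
  rw [Finset.sum_congr rfl h1, Finset.sum_add_distrib]
  congr 1
  · rcases Nat.eq_zero_or_pos N with rfl | hN
    · simp
    · rw [Finset.sum_Ico_succ_top hN, Nat.sub_self, Finset.sum_range_zero, add_zero]
  · rw [Finset.sum_Ico_eq_sum_range, Nat.add_sub_cancel, ← Finset.sum_range_reflect]
    refine Finset.sum_congr rfl fun j hj => ?_
    rw [Finset.mem_range] at hj
    congr 1
    omega

private theorem VDC_sq (g : ℕ → ℂ) (N : ℕ) :
    ‖∑ n ∈ range N, g n‖ ^ 2 = ∑ n ∈ range N, ‖g n‖ ^ 2 +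
      2 * (∑ h ∈ Ico 1 N, ∑ n ∈ range (N - h), g (n + h) * (starRingEnd ℂ) (g n)).re := by
  induction N with
  | zero => simp
  | succ N ih =>
    rw [VDC_sum (fun a b => g a * (starRingEnd ℂ) (g b)), Finset.sum_range_succ, Finset.sum_range_succ, Complex.add_re,
      ← Complex.normSq_eq_norm_sq, Complex.normSq_add, Complex.normSq_eq_norm_sq, Complex.normSq_eq_norm_sq, ih,
      ← Finset.mul_sum, ← map_sum]
    have h1 : ((∑ n ∈ range N, g n) * (starRingEnd ℂ) (g N)).re = (g N * (starRingEnd ℂ) (∑ n ∈ range N, g n)).re := by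
      rw [← Complex.conj_re, map_mul, Complex.conj_conj, mul_comm]
    rw [h1]
    ring

/-- One van der Corput step with a count. |W|^2 = sum over n, n' < N of e(P(n) - P(n')) =
N + 2 Re (sum over 1 ≤ h < N of W (dif P h) (N - h)); so the sum of |W (dif P h) (N - h)| over
1 ≤ h < N is at least (|W|^2 - N)/2 ≥ (N^2/D^2 - N)/2 ≥ (7/16) N^2/D^2 because 8 D^2 ≤ N. The h
outside the filter contribute at most N * N/(8 D^2), each h of the filter at most N. -/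
theorem vdc (P : ℝ[X]) (N : ℕ) (D : ℝ) (hD : 1 ≤ D) (hN : 8 * D ^ 2 ≤ N)
    (h : (N : ℝ) ≤ D * ‖W P N‖) :
    (N : ℝ) / (4 * D ^ 2) ≤
      (((Finset.Ico 1 N).filter
        (fun h => (N : ℝ) / (8 * D ^ 2) ≤ ‖W (dif P h) (N - h)‖)).card : ℝ) := by
  set F := (Finset.Ico 1 N).filter (fun h => (N : ℝ) / (8 * D ^ 2) ≤ ‖W (dif P h) (N - h)‖) with hF
  have hD2 : 1 ≤ D ^ 2 := one_le_pow₀ hD
  have hN0 : (8 : ℝ) ≤ N := by linarith
  have h1 : ‖W P N‖ ^ 2 ≤ N + 2 * ∑ h ∈ Ico 1 N, ‖W (dif P h) (N - h)‖ := by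
    have h2 := VDC_sq (fun n => e (P.eval (n : ℝ))) N
    have h3 : ∑ n ∈ range N, ‖e (P.eval (n : ℝ))‖ ^ 2 = N := by
      rw [Finset.sum_congr rfl fun n _ => by rw [norm_e, one_pow]]
      rw [Finset.sum_const, Finset.card_range, nsmul_eq_mul, mul_one]
    have h4 : ∑ h ∈ Ico 1 N, ∑ n ∈ range (N - h), e (P.eval ((n + h : ℕ) : ℝ)) * (starRingEnd ℂ) (e (P.eval (n : ℝ))) =
        ∑ h ∈ Ico 1 N, W (dif P h) (N - h) := by
      refine Finset.sum_congr rfl fun h _ => ?_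
      unfold W
      refine Finset.sum_congr rfl fun n _ => ?_
      rw [← e_sub]
      congr 1
      unfold dif
      rw [Polynomial.eval_sub, Polynomial.eval_comp, Polynomial.eval_add, Polynomial.eval_X, Polynomial.eval_C,
        Nat.cast_add]
    rw [h3, h4] at h2
    unfold W at h2 ⊢
    rw [h2]
    have h5 : (∑ h ∈ Ico 1 N, ∑ n ∈ range (N - h), e (eval (n : ℝ) (dif P h))).re ≤
        ∑ h ∈ Ico 1 N, ‖∑ n ∈ range (N - h), e (eval (n : ℝ) (dif P h))‖ :=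
      (Complex.re_le_norm _).trans (norm_sum_le _ _)
    linarith
  have h2 : ∑ h ∈ Ico 1 N, ‖W (dif P h) (N - h)‖ ≤ F.card * (N : ℝ) + N * (N / (8 * D ^ 2)) := by
    rw [← Finset.sum_filter_add_sum_filter_not (Ico 1 N) (fun h => (N : ℝ) / (8 * D ^ 2) ≤ ‖W (dif P h) (N - h)‖)]
    apply add_le_add
    · have h3 : ∀ h ∈ F, ‖W (dif P h) (N - h)‖ ≤ N := by
        intro h _
        refine (norm_W_le _ _).trans ?_
        exact_mod_cast Nat.sub_le N h
      refine (Finset.sum_le_sum h3).trans ?_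
      rw [Finset.sum_const, nsmul_eq_mul]
    · have h3 : ∀ h ∈ (Ico 1 N).filter (fun h => ¬ (N : ℝ) / (8 * D ^ 2) ≤ ‖W (dif P h) (N - h)‖),
          ‖W (dif P h) (N - h)‖ ≤ N / (8 * D ^ 2) := by
        intro h hh
        exact (not_le.1 (Finset.mem_filter.1 hh).2).le
      refine (Finset.sum_le_sum h3).trans ?_
      rw [Finset.sum_const, nsmul_eq_mul]
      apply mul_le_mul_of_nonneg_right _ (by positivity)
      have h4 := Finset.card_filter_le (Ico 1 N) (fun h => ¬ (N : ℝ) / (8 * D ^ 2) ≤ ‖W (dif P h) (N - h)‖)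
      rw [Nat.card_Ico] at h4
      exact_mod_cast h4.trans (Nat.sub_le N 1)
  have h3 : (N : ℝ) ^ 2 ≤ D ^ 2 * ‖W P N‖ ^ 2 := by
    rw [← mul_pow]
    exact pow_le_pow_left₀ (by linarith) h 2
  have h4 : (N : ℝ) ^ 2 ≤ D ^ 2 * (N + 2 * (F.card * (N : ℝ) + N * (N / (8 * D ^ 2)))) := by
    refine h3.trans (mul_le_mul_of_nonneg_left ?_ (by positivity))
    linarith
  have h5 : D ^ 2 * (N + 2 * (F.card * (N : ℝ) + N * (N / (8 * D ^ 2)))) =
      N * (D ^ 2 + 2 * (F.card * D ^ 2) + N / 4) := by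
    field_simp
    ring
  rw [h5, sq] at h4
  have h6 : (N : ℝ) ≤ D ^ 2 + 2 * (F.card * D ^ 2) + N / 4 := le_of_mul_le_mul_left h4 (by linarith)
  rw [div_le_iff₀ (by positivity)]
  nlinarith
/- END VDC -/

/- MODULE DIF -/
private theorem DIF_coeff (P : ℝ[X]) (m : ℕ) (hP : P.natDegree < m) (h : ℝ) (n : ℕ) :
    (P.comp (X + C h)).coeff n = ∑ i ∈ range m, P.coeff i * (h ^ (i - n) * (i.choose n : ℝ)) := by
  rw [Polynomial.comp, Polynomial.eval₂_eq_sum_range' _ hP, Polynomial.finsetSum_coeff]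
  refine Finset.sum_congr rfl fun i _ => ?_
  rw [Polynomial.coeff_C_mul, Polynomial.coeff_X_add_C_pow]

/-- The difference polynomial has smaller degree and leading coefficient (d+1) h c_(d+1). -/
theorem natDegree_dif (P : ℝ[X]) (d h : ℕ) (hP : P.natDegree ≤ d + 1) :
    (dif P h).natDegree ≤ d ∧ (dif P h).coeff d = (d + 1) * h * P.coeff (d + 1) := by
  have h1 := DIF_coeff P (d + 2) (by omega) (h : ℝ)
  constructor
  · rw [Polynomial.natDegree_le_iff_coeff_eq_zero]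
    intro n hn
    unfold dif
    rw [Polynomial.coeff_sub, h1]
    rcases Nat.lt_or_ge (d + 1) n with h2 | h2
    · rw [Finset.sum_eq_zero, zero_sub, Polynomial.coeff_eq_zero_of_natDegree_lt (by omega), neg_zero]
      intro i hi
      rw [Finset.mem_range] at hi
      rw [Nat.choose_eq_zero_of_lt (by omega), Nat.cast_zero, mul_zero, mul_zero]
    · have h3 : n = d + 1 := by omega
      subst h3
      rw [Finset.sum_range_succ, Finset.sum_eq_zero, zero_add, Nat.choose_self, Nat.sub_self, pow_zero,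
        Nat.cast_one, mul_one, mul_one, sub_self]
      intro i hi
      rw [Finset.mem_range] at hi
      rw [Nat.choose_eq_zero_of_lt (by omega), Nat.cast_zero, mul_zero, mul_zero]
  · unfold dif
    rw [Polynomial.coeff_sub, h1, Finset.sum_range_succ, Finset.sum_range_succ, Finset.sum_eq_zero, zero_add,
      Nat.choose_self, Nat.sub_self, pow_zero, Nat.cast_one, mul_one, mul_one,
      show d + 1 - d = 1 by omega, pow_one, Nat.choose_succ_self_right]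
    · push_cast
      ring
    · intro i hi
      rw [Finset.mem_range] at hi
      rw [Nat.choose_eq_zero_of_lt (by omega), Nat.cast_zero, mul_zero, mul_zero]
/- END DIF -/

/- MODULE TOP -/
private theorem TOP_large (d : ℕ) (hd : 1 ≤ d) (K : ℕ) (hK1 : 1 ≤ K)
    (hK : ∀ P : ℝ[X], P.natDegree ≤ d → ∀ N : ℕ, 1 ≤ N → ∀ D : ℝ, 1 ≤ D →
    (N : ℝ) ≤ D * ‖W P N‖ →
    ∃ q : ℕ, 1 ≤ q ∧ (q : ℝ) ≤ pb K D ∧
      ∀ l : ℕ, 1 ≤ l → l ≤ d → nrm (q * P.coeff l) * (N : ℝ) ^ l ≤ pb K D)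
    (P : ℝ[X]) (hP : P.natDegree ≤ d + 1) (N : ℕ) (D : ℝ) (hD : 1 ≤ D)
    (h : (N : ℝ) ≤ D * ‖W P N‖) (hN : 512 * D ^ 4 * (pb K (8 * D ^ 2)) ^ 2 ≤ N) :
    ∃ q : ℕ, 1 ≤ q ∧ (q : ℝ) ≤ 8 * D ^ 2 * pb K (8 * D ^ 2) ^ 2 * (d + 1) ∧
      nrm (q * P.coeff (d + 1)) * (N : ℝ) ^ (d + 1) ≤ 512 * D ^ 4 * pb K (8 * D ^ 2) ^ 3 * (8 * D ^ 2) ^ d := by
  classical
  have hD2 : 1 ≤ D ^ 2 := one_le_pow₀ hD
  have h8D : 1 ≤ 8 * D ^ 2 := by linarith
  set A := pb K (8 * D ^ 2) with hA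
  have hA1 : 1 ≤ A := one_le_pb hK1 h8D
  have hA2 : 1 ≤ A ^ 2 := one_le_pow₀ hA1
  have hD4 : D ^ 2 ≤ D ^ 4 := pow_le_pow_right₀ hD (by norm_num)
  have hN8 : 8 * D ^ 2 ≤ N := by nlinarith
  have hN0 : (0 : ℝ) < N := by linarith
  have hcount := vdc P N D hD hN8 h
  set F := (Finset.Ico 1 N).filter (fun h => (N : ℝ) / (8 * D ^ 2) ≤ ‖W (dif P h) (N - h)‖) with hF
  have hex : ∀ x ∈ F, ∃ q : ℕ, (1 ≤ q ∧ (q : ℝ) ≤ A) ∧ nrm (x * ((q : ℝ) * (d + 1) * P.coeff (d + 1))) * (N : ℝ) ^ d ≤ A * (8 * D ^ 2) ^ d := by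
    intro x hx
    obtain ⟨hx1, hx2⟩ := Finset.mem_filter.1 hx
    rw [Finset.mem_Ico] at hx1
    have hW := norm_W_le (dif P x) (N - x)
    have h1 : (N : ℝ) / (8 * D ^ 2) ≤ ((N - x : ℕ) : ℝ) := hx2.trans hW
    have h2 : ((N - x : ℕ) : ℝ) ≤ 8 * D ^ 2 * ‖W (dif P x) (N - x)‖ := by
      have h3 : ((N - x : ℕ) : ℝ) ≤ N := by exact_mod_cast Nat.sub_le N x
      rw [div_le_iff₀ (by linarith)] at hx2
      linarith
    obtain ⟨q, hq1, hq2, hq3⟩ := hK (dif P x) (natDegree_dif P d x hP).1 (N - x) (by omega) (8 * D ^ 2) h8D h2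
    refine ⟨q, ⟨hq1, hq2⟩, ?_⟩
    have h4 := hq3 d hd le_rfl
    rw [(natDegree_dif P d x hP).2] at h4
    have h5 : (x : ℝ) * ((q : ℝ) * (d + 1) * P.coeff (d + 1)) = q * ((d + 1) * x * P.coeff (d + 1)) := by ring
    rw [h5]
    have h6 : (N : ℝ) ^ d ≤ ((N - x : ℕ) : ℝ) ^ d * (8 * D ^ 2) ^ d := by
      rw [← mul_pow]
      apply pow_le_pow_left₀ hN0.le
      rw [div_le_iff₀ (by linarith)] at h1
      exact h1
    have hnn := nrm_nonneg (q * ((d + 1) * x * P.coeff (d + 1)))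
    calc nrm (q * ((d + 1) * x * P.coeff (d + 1))) * (N : ℝ) ^ d
        ≤ nrm (q * ((d + 1) * x * P.coeff (d + 1))) * (((N - x : ℕ) : ℝ) ^ d * (8 * D ^ 2) ^ d) :=
          mul_le_mul_of_nonneg_left h6 hnn
      _ = nrm (q * ((d + 1) * x * P.coeff (d + 1))) * ((N - x : ℕ) : ℝ) ^ d * (8 * D ^ 2) ^ d := by ring
      _ ≤ A * (8 * D ^ 2) ^ d := mul_le_mul_of_nonneg_right h4 (by positivity)
  choose! f hf1 hf2 using hex
  have hmaps : ∀ x ∈ F, f x ∈ Finset.Icc 1 ⌊A⌋₊ := by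
    intro x hx
    rw [Finset.mem_Icc]
    exact ⟨(hf1 x hx).1, Nat.le_floor (hf1 x hx).2⟩
  have hρ0 : 0 < 1 / (4 * D ^ 2 * A) := by positivity
  have hρ1 : 1 / (4 * D ^ 2 * A) ≤ 1 := by
    rw [div_le_one (by positivity)]
    nlinarith
  have hne : (Finset.Icc 1 ⌊A⌋₊).Nonempty := by
    rw [Finset.nonempty_Icc]
    exact Nat.le_floor (by exact_mod_cast hA1)
  have hfl : (⌊A⌋₊ : ℝ) ≤ A := Nat.floor_le (by linarith)
  have hpig : ((Finset.Icc 1 ⌊A⌋₊).card : ℕ) • (1 / (4 * D ^ 2 * A) * (N : ℝ)) ≤ (F.card : ℝ) := by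
    rw [Nat.card_Icc, Nat.add_sub_cancel, nsmul_eq_mul]
    refine le_trans ?_ hcount
    have h1 : A * (1 / (4 * D ^ 2 * A) * (N : ℝ)) = (N : ℝ) / (4 * D ^ 2) := by
      field_simp
    rw [← h1]
    exact mul_le_mul_of_nonneg_right hfl (by positivity)
  obtain ⟨q0, hq0, hcard⟩ := Finset.exists_le_card_fiber_of_nsmul_le_card_of_maps_to hmaps hne hpig
  rw [Finset.mem_Icc] at hq0
  have hq0A : (q0 : ℝ) ≤ A := le_trans (by exact_mod_cast hq0.2) hfl
  set T := F.filter (fun x => f x = q0) with hT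
  have hTn : ∀ x ∈ T, nrm (x * ((q0 : ℝ) * (d + 1) * P.coeff (d + 1))) ≤ A * (8 * D ^ 2) ^ d / (N : ℝ) ^ d := by
    intro x hx
    obtain ⟨hx1, hx2⟩ := Finset.mem_filter.1 hx
    have h1 := hf2 x hx1
    rw [hx2] at h1
    rw [le_div_iff₀ (by positivity)]
    exact h1
  have hTN : ∀ x ∈ T, 1 ≤ x ∧ x ≤ N := by
    intro x hx
    have h1 := (Finset.mem_filter.1 (Finset.mem_filter.1 hx).1).1
    rw [Finset.mem_Ico] at h1
    exact ⟨h1.1, h1.2.le⟩
  have hc16 : 16 * (A * (8 * D ^ 2) ^ d / (N : ℝ) ^ d) ≤ 1 / (4 * D ^ 2 * A) := by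
    rw [le_div_iff₀ (by positivity)]
    have h1 : 16 * (A * (8 * D ^ 2) ^ d / (N : ℝ) ^ d) * (4 * D ^ 2 * A) =
        (64 * D ^ 2 * A ^ 2) * (8 * D ^ 2) ^ d / (N : ℝ) ^ d := by
      field_simp
      ring
    rw [h1, div_le_one (by positivity)]
    have h2 : (64 * D ^ 2 * A ^ 2) * (8 * D ^ 2) ≤ N := by
      refine le_trans (le_of_eq ?_) hN
      ring
    have h3 : ((64 * D ^ 2 * A ^ 2) * (8 * D ^ 2)) ^ d ≤ (N : ℝ) ^ d := pow_le_pow_left₀ (by positivity) h2 d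
    rw [mul_pow] at h3
    refine le_trans ?_ h3
    apply mul_le_mul_of_nonneg_right _ (by positivity)
    apply le_self_pow₀ _ (by omega)
    nlinarith
  have hc8 : 8 ≤ (1 / (4 * D ^ 2 * A)) ^ 2 * (N : ℝ) := by
    rw [div_pow, one_pow, one_div, inv_mul_eq_div, le_div_iff₀ (by positivity)]
    refine le_trans ?_ hN
    have h1 : 8 * (4 * D ^ 2 * A) ^ 2 = 128 * (D ^ 4 * A ^ 2) := by ring
    have h2 : 512 * D ^ 4 * A ^ 2 = 512 * (D ^ 4 * A ^ 2) := by ring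
    rw [h1, h2]
    have h3 : 0 ≤ D ^ 4 * A ^ 2 := by positivity
    linarith
  obtain ⟨q', hq'1, hq'2, hq'3⟩ := vin ((q0 : ℝ) * (d + 1) * P.coeff (d + 1)) N (A * (8 * D ^ 2) ^ d / (N : ℝ) ^ d)
    (1 / (4 * D ^ 2 * A)) T hTN (by positivity) hρ0 hρ1 hcard hTn hc16 hc8
  refine ⟨q' * q0 * (d + 1), ?_, ?_, ?_⟩
  · exact Nat.mul_pos (Nat.mul_pos hq'1 hq0.1) (Nat.succ_pos d)
  · push_cast
    have h1 : (q' : ℝ) ≤ 8 * D ^ 2 * A := by
      rw [mul_one_div, div_le_iff₀ (by positivity)] at hq'2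
      linarith
    have h2 : (q' : ℝ) * q0 ≤ 8 * D ^ 2 * A * A := mul_le_mul h1 hq0A (Nat.cast_nonneg _) (by positivity)
    have h3 : (q' : ℝ) * q0 * (d + 1) ≤ 8 * D ^ 2 * A * A * (d + 1) := mul_le_mul_of_nonneg_right h2 (by positivity)
    refine h3.trans (le_of_eq ?_)
    ring
  · have h1 : ((q' * q0 * (d + 1) : ℕ) : ℝ) * P.coeff (d + 1) = q' * ((q0 : ℝ) * (d + 1) * P.coeff (d + 1)) := by
      push_cast
      ring
    rw [h1]
    set x := nrm (q' * ((q0 : ℝ) * (d + 1) * P.coeff (d + 1))) with hx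
    have h2 : x * (N : ℝ) ^ (d + 1) = (x * N * (1 / (4 * D ^ 2 * A)) ^ 2) * ((4 * D ^ 2 * A) ^ 2 * (N : ℝ) ^ d) := by
      field_simp
      ring
    rw [h2]
    refine (mul_le_mul_of_nonneg_right hq'3 (by positivity)).trans (le_of_eq ?_)
    field_simp
    ring

/-- The top coefficient, from IT d and vdc. Let K be the constant of IT d, al = P.coeff (d+1).
If N is smaller than a suitable polynomial bound in D take q = 1 (nrm ≤ 1/2, N^(d+1) ≤ pb). Otherwise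
vdc gives at least N/(4 D^2) numbers h in [1, N) with |W (dif P h) (N - h)| ≥ N/(8 D^2); for such h
(N - h) ≤ (8 D^2) |W (dif P h) (N-h)|, so IT d (natDegree_dif, 1 ≤ N - h) gives q_h ≤ pb K (8D^2)
with nrm (q_h (d+1) h al) (N-h)^d ≤ pb K (8 D^2), and N - h ≥ |W ..| ≥ N/(8 D^2). By pigeonhole one
value q0 of q_h occurs for at least r N of these h, r = 1/(4 D^2 * (pb K (8 D^2))) (r ≤ 1). Apply vin
to al' = q0 (d+1) al with ep = pb K (8 D^2) (8 D^2)^d / N^d; 16 ep ≤ r and 8 ≤ r^2 N hold for N large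
(here d ≥ 1 is used). Result q = q' q0 (d+1). Bookkeeping with exists_pb, exists_pb_mul, .. . -/
theorem top_coeff (d : ℕ) (hd : 1 ≤ d) (h : IT d) :
    ∃ C : ℕ, 1 ≤ C ∧ ∀ P : ℝ[X], P.natDegree ≤ d + 1 → ∀ N : ℕ, 1 ≤ N → ∀ D : ℝ, 1 ≤ D →
      (N : ℝ) ≤ D * ‖W P N‖ →
      ∃ q : ℕ, 1 ≤ q ∧ (q : ℝ) ≤ pb C D ∧ nrm (q * P.coeff (d + 1)) * (N : ℝ) ^ (d + 1) ≤ pb C D := by
  obtain ⟨K, hK1, hK⟩ := h
  obtain ⟨C1, hC1, hC1'⟩ := exists_pb (8 * ((K : ℝ) * 8 ^ K) ^ 2 * (d + 1)) (2 + (2 * K) * 2)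
  obtain ⟨C2, hC2, hC2'⟩ := exists_pb (512 * ((K : ℝ) * 8 ^ K) ^ 3 * 8 ^ d) (4 + (2 * K) * 3 + 2 * d)
  obtain ⟨C3, hC3, hC3'⟩ := exists_pb ((512 * ((K : ℝ) * 8 ^ K) ^ 2) ^ (d + 1)) ((4 + (2 * K) * 2) * (d + 1))
  have hA : ∀ D : ℝ, pb K (8 * D ^ 2) = (K : ℝ) * 8 ^ K * D ^ (2 * K) := by
    intro D
    unfold pb
    rw [mul_pow, ← pow_mul]
    ring
  refine ⟨max C1 (max C2 C3), hC1.trans (le_max_left _ _), fun P hP N hN D hD h => ?_⟩
  have hm1 : pb C1 D ≤ pb (max C1 (max C2 C3)) D := pb_mono (le_max_left _ _) hD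
  have hm2 : pb C2 D ≤ pb (max C1 (max C2 C3)) D := pb_mono ((le_max_left _ _).trans (le_max_right _ _)) hD
  have hm3 : pb C3 D ≤ pb (max C1 (max C2 C3)) D := pb_mono ((le_max_right _ _).trans (le_max_right _ _)) hD
  rcases le_or_gt (512 * D ^ 4 * (pb K (8 * D ^ 2)) ^ 2) (N : ℝ) with hlarge | hsmall
  · obtain ⟨q, hq1, hq2, hq3⟩ := TOP_large d hd K hK1 hK P hP N D hD h hlarge
    refine ⟨q, hq1, ?_, ?_⟩
    · refine (hq2.trans (le_trans (le_of_eq ?_) (hC1' D hD))).trans hm1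
      rw [hA]
      ring
    · refine (hq3.trans (le_trans (le_of_eq ?_) (hC2' D hD))).trans hm2
      rw [hA, mul_pow (8 : ℝ), ← pow_mul D]
      ring
  · refine ⟨1, le_rfl, ?_, ?_⟩
    · rw [Nat.cast_one]
      exact one_le_pb (hC1.trans (le_max_left _ _)) hD
    · have h1 := nrm_le_half (((1 : ℕ) : ℝ) * P.coeff (d + 1))
      have h2 : (N : ℝ) ^ (d + 1) ≤ (512 * D ^ 4 * (pb K (8 * D ^ 2)) ^ 2) ^ (d + 1) :=
        pow_le_pow_left₀ (Nat.cast_nonneg N) hsmall.le _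
      have h3 : (512 * D ^ 4 * (pb K (8 * D ^ 2)) ^ 2) ^ (d + 1) =
          ((512 * ((K : ℝ) * 8 ^ K) ^ 2) ^ (d + 1)) * D ^ ((4 + (2 * K) * 2) * (d + 1)) := by
        rw [hA, pow_mul D (4 + (2 * K) * 2) (d + 1), ← mul_pow]
        congr 1
        ring
      have h4 := hC3' D hD
      have h5 : (0 : ℝ) ≤ (N : ℝ) ^ (d + 1) := by positivity
      have h6 : nrm (((1 : ℕ) : ℝ) * P.coeff (d + 1)) * (N : ℝ) ^ (d + 1) ≤ 1 * (N : ℝ) ^ (d + 1) :=
        mul_le_mul_of_nonneg_right (h1.trans (by norm_num)) h5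
      refine h6.trans ?_
      rw [one_mul]
      refine h2.trans ?_
      rw [h3]
      exact h4.trans hm3
/- END TOP -/

/- MODULE SHF -/
private theorem SHF_shift (g : ℕ → ℂ) (hg : ∀ n, ‖g n‖ ≤ 1) (N t : ℕ) :
    ‖∑ n ∈ range N, g n - ∑ n ∈ range N, g (n + t)‖ ≤ 2 * t := by
  have h1 : ∑ n ∈ range N, g n + ∑ n ∈ range t, g (N + n) = ∑ n ∈ range t, g n + ∑ n ∈ range N, g (n + t) := by
    rw [← Finset.sum_range_add, Nat.add_comm N t, Finset.sum_range_add]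
    congr 1
    exact Finset.sum_congr rfl fun n _ => by rw [Nat.add_comm]
  have h2 : ∑ n ∈ range N, g n - ∑ n ∈ range N, g (n + t) = ∑ n ∈ range t, g n - ∑ n ∈ range t, g (N + n) := by
    rw [sub_eq_sub_iff_add_eq_add, h1]
  have h3 : ∀ f : ℕ → ℂ, (∀ n, ‖f n‖ ≤ 1) → ‖∑ n ∈ range t, f n‖ ≤ t := by
    intro f hf
    refine (norm_sum_le _ _).trans ?_
    refine (Finset.sum_le_sum fun n _ => hf n).trans ?_
    rw [Finset.sum_const, Finset.card_range, nsmul_eq_mul, mul_one]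
  rw [h2]
  have h4 := h3 g hg
  have h5 := h3 (fun n => g (N + n)) fun n => hg _
  refine (norm_sub_le _ _).trans ?_
  linarith

/-- Averaging over shifts. For every t the sums of e(P(n)) and of e(P(n + t)) over n < N differ by at
most 2 t; take t = q1 m, m < L: L |W| ≤ sum over n < N of |sum over m < L of e(P(n + q1 m))| + q1 L^2;
so some n0 < N has |sum over m| ≥ L/D - q1 L^2/N ≥ L/(2 D). -/
theorem shift_avg (P : ℝ[X]) (N L q1 : ℕ) (D : ℝ) (hN : 1 ≤ N) (hL : 1 ≤ L) (hD : 1 ≤ D)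
    (h : (N : ℝ) ≤ D * ‖W P N‖) (h2 : 2 * D * q1 * L ≤ N) :
    ∃ n0 < N, (L : ℝ) ≤ 2 * D * ‖∑ m ∈ range L, e (P.eval ((n0 : ℝ) + q1 * m))‖ := by
  by_contra hcon
  push Not at hcon
  have hN0 : (1 : ℝ) ≤ N := by exact_mod_cast hN
  have hL0 : (1 : ℝ) ≤ L := by exact_mod_cast hL
  have hq0 : (0 : ℝ) ≤ q1 := Nat.cast_nonneg q1
  have h3 : ∀ m : ℕ, ‖W P N - ∑ n ∈ range N, e (P.eval ((n : ℝ) + q1 * m))‖ ≤ 2 * ((q1 : ℝ) * m) := by
    intro m
    have h4 := SHF_shift (fun n => e (P.eval (n : ℝ))) (fun n => (norm_e _).le) N (q1 * m)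
    unfold W
    rw [Nat.cast_mul] at h4
    refine (le_of_eq ?_).trans h4
    congr 2
    refine Finset.sum_congr rfl fun n _ => ?_
    rw [Nat.cast_add, Nat.cast_mul]
  have h5 : (L : ℝ) * ‖W P N‖ ≤ ∑ n ∈ range N, ‖∑ m ∈ range L, e (P.eval ((n : ℝ) + q1 * m))‖ +
      ∑ m ∈ range L, 2 * ((q1 : ℝ) * m) := by
    have h6 : (L : ℝ) * ‖W P N‖ = ‖∑ m ∈ range L, W P N‖ := by
      rw [Finset.sum_const, Finset.card_range, nsmul_eq_mul, norm_mul, Complex.norm_natCast]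
    have h7 : ∑ m ∈ range L, W P N = ∑ n ∈ range N, ∑ m ∈ range L, e (P.eval ((n : ℝ) + q1 * m)) +
        ∑ m ∈ range L, (W P N - ∑ n ∈ range N, e (P.eval ((n : ℝ) + q1 * m))) := by
      rw [Finset.sum_sub_distrib, Finset.sum_comm]
      ring
    rw [h6, h7]
    refine (norm_add_le _ _).trans (add_le_add (norm_sum_le _ _) ?_)
    exact (norm_sum_le _ _).trans (Finset.sum_le_sum fun m _ => h3 m)
  have h8 : ∑ n ∈ range N, ‖∑ m ∈ range L, e (P.eval ((n : ℝ) + q1 * m))‖ < N * (L / (2 * D)) := by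
    have h9 : ∀ n ∈ range N, ‖∑ m ∈ range L, e (P.eval ((n : ℝ) + q1 * m))‖ < L / (2 * D) := by
      intro n hn
      rw [lt_div_iff₀ (by linarith)]
      have := hcon n (Finset.mem_range.1 hn)
      linarith
    refine (Finset.sum_lt_sum_of_nonempty (Finset.nonempty_range_iff.2 (by omega)) h9).trans_le ?_
    rw [Finset.sum_const, Finset.card_range, nsmul_eq_mul]
  have h10 : ∑ m ∈ range L, 2 * ((q1 : ℝ) * m) ≤ q1 * L * L := by
    have h11 : ∀ K : ℕ, ∑ m ∈ range K, 2 * ((q1 : ℝ) * m) ≤ q1 * K * K := by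
      intro K
      induction K with
      | zero => simp
      | succ K ih =>
        rw [Finset.sum_range_succ]
        push_cast
        nlinarith
    exact h11 L
  have h12 : (L : ℝ) * (N / D) ≤ L * ‖W P N‖ := by
    apply mul_le_mul_of_nonneg_left _ (by linarith)
    rw [div_le_iff₀ (by linarith)]
    linarith
  have h13 : (N : ℝ) * (L / (2 * D)) = L * (N / D) / 2 := by
    field_simp
  have h14 : (L : ℝ) * (N / D) / 2 < q1 * L * L := by linarith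
  have h15 : (N : ℝ) / D / 2 < q1 * L := by
    have h16 : (L : ℝ) * (N / D / 2) < L * (q1 * L) := by linarith
    exact lt_of_mul_lt_mul_left h16 (by linarith)
  rw [div_div, div_lt_iff₀ (by linarith)] at h15
  linarith
/- END SHF -/

/- MODULE RMV -/
private theorem RMV_w (K : ℕ) (n0 q1 m : ℕ) : ∃ w : ℕ, ((n0 : ℝ) + q1 * m) ^ K = (n0 : ℝ) ^ K + q1 * w ∧
    (w : ℝ) ≤ m * (K * ((n0 : ℝ) + q1 * m) ^ (K - 1)) := by
  have h1 := geom_sum₂_mul ((n0 : ℝ) + q1 * m) (n0 : ℝ) K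
  refine ⟨m * ∑ i ∈ range K, (n0 + q1 * m) ^ i * n0 ^ (K - 1 - i), ?_, ?_⟩
  · push_cast
    have h2 : ((n0 : ℝ) + q1 * m) ^ K = (n0 : ℝ) ^ K + (∑ i ∈ range K, ((n0 : ℝ) + q1 * m) ^ i * (n0 : ℝ) ^ (K - 1 - i)) *
        ((n0 : ℝ) + q1 * m - n0) := by
      rw [h1]
      ring
    rw [h2]
    ring
  · push_cast
    apply mul_le_mul_of_nonneg_left _ (Nat.cast_nonneg m)
    have h0 : (0 : ℝ) ≤ n0 := Nat.cast_nonneg _
    have h0' : (0 : ℝ) ≤ (q1 : ℝ) * m := by positivity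
    have h3 : ∀ i ∈ range K, ((n0 : ℝ) + q1 * m) ^ i * (n0 : ℝ) ^ (K - 1 - i) ≤ ((n0 : ℝ) + q1 * m) ^ (K - 1) := by
      intro i hi
      rw [Finset.mem_range] at hi
      have h4 : ((n0 : ℝ) + q1 * m) ^ (K - 1) = ((n0 : ℝ) + q1 * m) ^ i * ((n0 : ℝ) + q1 * m) ^ (K - 1 - i) := by
        rw [← pow_add]
        congr 1
        omega
      rw [h4]
      apply mul_le_mul_of_nonneg_left _ (by positivity)
      apply pow_le_pow_left₀ h0
      linarith
    refine (Finset.sum_le_sum h3).trans ?_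
    rw [Finset.sum_const, Finset.card_range, nsmul_eq_mul]

/-- Removing the top term on a short progression. With q1 al = z + th, z integer,
|th| = nrm (q1 al) ≤ B/N^K and w_m = ((n0 + q1 m)^K - n0^K)/q1 (a natural number):
e(al (n0 + q1 m)^K) = e(al n0^K) e(th w_m), w_m ≤ L K (2 N)^(K-1) (n0 < N, q1 L ≤ N), so
|e(th w_m) - 1| ≤ 7 |th| w_m ≤ 7 B L K 2^(K-1)/N ≤ 1/(4 D). -/
theorem remove_top (K : ℕ) (hK : 1 ≤ K) (P1 : ℝ[X]) (α : ℝ) (q1 N L n0 : ℕ) (B D : ℝ)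
    (hq1 : 1 ≤ q1) (hn0 : n0 < N) (hB0 : 0 ≤ B) (hD : 1 ≤ D)
    (hB : nrm (q1 * α) * (N : ℝ) ^ K ≤ B) (hL : q1 * L ≤ N)
    (hL2 : 28 * D * B * K * 2 ^ K * L ≤ N)
    (h : (L : ℝ) ≤ 2 * D * ‖∑ m ∈ range L, e ((C α * X ^ K + P1).eval ((n0 : ℝ) + q1 * m))‖) :
    (L : ℝ) ≤ 4 * D * ‖∑ m ∈ range L, e (P1.eval ((n0 : ℝ) + q1 * m))‖ := by
  have hN : (1 : ℝ) ≤ N := by exact_mod_cast (show 1 ≤ N by omega)
  obtain ⟨z, hz⟩ := exists_nrm (q1 * α)
  set θ : ℝ := q1 * α - z with hθ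
  choose w hw1 hw2 using fun m : ℕ => RMV_w K n0 q1 m
  have h1 : ∀ m : ℕ, e ((C α * X ^ K + P1).eval ((n0 : ℝ) + q1 * m)) =
      e (α * (n0 : ℝ) ^ K) * (e (θ * w m) * e (P1.eval ((n0 : ℝ) + q1 * m))) := by
    intro m
    rw [Polynomial.eval_add, Polynomial.eval_mul, Polynomial.eval_C, Polynomial.eval_pow, Polynomial.eval_X, hw1,
      e_add, ← mul_assoc]
    congr 1
    have h2 : α * ((n0 : ℝ) ^ K + q1 * w m) = α * (n0 : ℝ) ^ K + θ * w m + ((z * w m : ℤ) : ℝ) := by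
      rw [hθ]
      push_cast
      ring
    rw [h2, e_add_int, e_add]
  have h3 : ‖∑ m ∈ range L, e ((C α * X ^ K + P1).eval ((n0 : ℝ) + q1 * m))‖ =
      ‖∑ m ∈ range L, e (θ * w m) * e (P1.eval ((n0 : ℝ) + q1 * m))‖ := by
    rw [Finset.sum_congr rfl fun m _ => h1 m, ← Finset.mul_sum, norm_mul, norm_e, one_mul]
  rw [h3] at h
  have h4 : ∀ m ∈ range L, ‖(e (θ * w m) - 1) * e (P1.eval ((n0 : ℝ) + q1 * m))‖ ≤ 1 / (4 * D) := by
    intro m hm
    rw [Finset.mem_range] at hm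
    rw [norm_mul, norm_e, mul_one]
    refine (norm_e_sub_one' _).trans ?_
    have hw0 : (0 : ℝ) ≤ w m := Nat.cast_nonneg _
    rw [abs_mul, abs_of_nonneg hw0, ← hz]
    have h5 : (n0 : ℝ) + q1 * m ≤ 2 * N := by
      have h6 : (n0 : ℝ) ≤ N := by exact_mod_cast hn0.le
      have h7 : (q1 : ℝ) * m ≤ N := by
        have : q1 * m ≤ N := (Nat.mul_le_mul_left q1 hm.le).trans hL
        exact_mod_cast this
      linarith
    have h8 : (w m : ℝ) ≤ L * (K * (2 * N) ^ (K - 1)) := by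
      refine (hw2 m).trans ?_
      have hm' : (m : ℝ) ≤ L := by exact_mod_cast hm.le
      have h9 : ((n0 : ℝ) + q1 * m) ^ (K - 1) ≤ (2 * N) ^ (K - 1) := pow_le_pow_left₀ (by positivity) h5 _
      apply mul_le_mul hm' _ (by positivity) (Nat.cast_nonneg L)
      exact mul_le_mul_of_nonneg_left h9 (Nat.cast_nonneg K)
    have hnn := nrm_nonneg (q1 * α)
    have h10 : nrm (q1 * α) * w m ≤ nrm (q1 * α) * (L * (K * (2 * N) ^ (K - 1))) :=
      mul_le_mul_of_nonneg_left h8 hnn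
    -- multiply by N
    have h11 : nrm (q1 * α) * (L * (K * (2 * N) ^ (K - 1))) * (2 * N) = nrm (q1 * α) * (N : ℝ) ^ K * (L * K * 2 ^ K) := by
      obtain ⟨k, rfl⟩ : ∃ k, K = k + 1 := ⟨K - 1, by omega⟩
      rw [Nat.add_sub_cancel, mul_pow, pow_succ, pow_succ]
      ring
    have h12 : nrm (q1 * α) * (N : ℝ) ^ K * (L * K * 2 ^ K) ≤ B * (L * K * 2 ^ K) :=
      mul_le_mul_of_nonneg_right hB (by positivity)
    have h13 : 28 * D * (B * (L * K * 2 ^ K)) ≤ N := by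
      refine le_trans (le_of_eq ?_) hL2
      ring
    rw [le_div_iff₀ (by linarith)]
    have h14 : 7 * (nrm (q1 * α) * w m) * (4 * D) * (2 * N) ≤ 1 * N := by
      have h15 : nrm (q1 * α) * w m * (2 * N) ≤ B * (L * K * 2 ^ K) := by
        refine le_trans ?_ h12
        rw [← h11]
        exact mul_le_mul_of_nonneg_right h10 (by linarith)
      have h16 : 28 * D * (nrm (q1 * α) * w m * (2 * N)) ≤ 28 * D * (B * (L * K * 2 ^ K)) :=
        mul_le_mul_of_nonneg_left h15 (by linarith)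
      linarith
    have h17 : 7 * (nrm (q1 * α) * w m) * (4 * D) * 2 ≤ 1 := by
      have h18 : 7 * (nrm (q1 * α) * w m) * (4 * D) * 2 * N ≤ 1 * N := by linarith
      exact le_of_mul_le_mul_right h18 (by linarith)
    have h19 : 0 ≤ 7 * (nrm (q1 * α) * w m) * (4 * D) := by positivity
    linarith
  have h5 : ‖∑ m ∈ range L, e (θ * w m) * e (P1.eval ((n0 : ℝ) + q1 * m))‖ ≤
      ‖∑ m ∈ range L, e (P1.eval ((n0 : ℝ) + q1 * m))‖ + L * (1 / (4 * D)) := by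
    have h6 : ∑ m ∈ range L, e (θ * w m) * e (P1.eval ((n0 : ℝ) + q1 * m)) =
        ∑ m ∈ range L, e (P1.eval ((n0 : ℝ) + q1 * m)) +
          ∑ m ∈ range L, (e (θ * w m) - 1) * e (P1.eval ((n0 : ℝ) + q1 * m)) := by
      rw [← Finset.sum_add_distrib]
      refine Finset.sum_congr rfl fun m _ => ?_
      ring
    rw [h6]
    refine (norm_add_le _ _).trans (add_le_add le_rfl ?_)
    refine (norm_sum_le _ _).trans ((Finset.sum_le_sum h4).trans ?_)
    rw [Finset.sum_const, Finset.card_range, nsmul_eq_mul]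
  have h7 : 2 * D * (L * (1 / (4 * D))) = L / 2 := by
    field_simp
    ring
  have h8 : 2 * D * ‖∑ m ∈ range L, e (θ * w m) * e (P1.eval ((n0 : ℝ) + q1 * m))‖ ≤
      2 * D * (‖∑ m ∈ range L, e (P1.eval ((n0 : ℝ) + q1 * m))‖ + L * (1 / (4 * D))) :=
    mul_le_mul_of_nonneg_left h5 (by linarith)
  rw [mul_add, h7] at h8
  linarith
/- END RMV -/

/- MODULE CFS -/
private theorem CFS_coeff (P : ℝ[X]) (m : ℕ) (hP : P.natDegree < m) (a h : ℝ) (n : ℕ) :
    (P.comp (C a * X + C h)).coeff n = a ^ n * ∑ i ∈ range m, P.coeff i * (h ^ (i - n) * (i.choose n : ℝ)) := by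
  have h1 : P.comp (C a * X + C h) = (P.comp (X + C h)).comp (C a * X) := by
    rw [Polynomial.comp_assoc, Polynomial.add_comp, Polynomial.X_comp, Polynomial.C_comp]
  rw [h1, Polynomial.comp_C_mul_X_coeff, mul_comm]
  congr 1
  rw [Polynomial.comp, Polynomial.eval₂_eq_sum_range' _ hP, Polynomial.finsetSum_coeff]
  refine Finset.sum_congr rfl fun i _ => ?_
  rw [Polynomial.coeff_C_mul, Polynomial.coeff_X_add_C_pow]

private theorem CFS_geo (x : ℝ) (d l : ℕ) (hl : l ≤ d) :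
    1 + (x - 1) * ∑ j ∈ Ico (l + 1) (d + 1), x ^ (d - j) = x ^ (d - l) := by
  obtain ⟨k, rfl⟩ : ∃ k, d = l + k := ⟨d - l, by omega⟩
  rw [Finset.sum_Ico_eq_sum_range, show l + k + 1 - (l + 1) = k by omega, show l + k - l = k by omega,
    ← Finset.sum_range_reflect]
  have h1 : ∑ j ∈ range k, x ^ (l + k - (l + 1 + (k - 1 - j))) = ∑ j ∈ range k, x ^ j := by
    refine Finset.sum_congr rfl fun j hj => ?_
    rw [Finset.mem_range] at hj
    congr 1
    omega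
  rw [h1, mul_geom_sum]
  ring

/-- Solving for the coefficients. Let Pt = P1.comp (C q1 * X + C n0):
Pt.coeff l = q1^l * sum over j in [l, d] of (j choose l) n0^(j-l) P1.coeff j. Let
E_l = nrm (q2 q1^d P1.coeff l) N^l, F = B^(d+1) B3^d. Then
q2 q1^d P1.coeff l = q1^(d-l) (q2 Pt.coeff l) - sum over j > l of (j choose l) n0^(j-l) (q2 q1^d P1.coeff j),
hence E_l ≤ B^(d-l) B B3^l + 2^d sum over l < j ≤ d of E_j, and by descending induction
E_l ≤ F (1 + 2^d)^(d-l). -/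
theorem coeff_solve (d : ℕ) (P1 : ℝ[X]) (hP : P1.natDegree ≤ d) (q1 q2 N L n0 : ℕ) (B B3 : ℝ)
    (hn0 : n0 ≤ N) (hL : 1 ≤ L) (hB : 1 ≤ B) (hB3 : 1 ≤ B3)
    (hN : (N : ℝ) ≤ B3 * L) (hq1 : (q1 : ℝ) ≤ B)
    (h : ∀ l : ℕ, 1 ≤ l → l ≤ d →
      nrm (q2 * (P1.comp (C (q1 : ℝ) * X + C (n0 : ℝ))).coeff l) * (L : ℝ) ^ l ≤ B) :
    ∀ l : ℕ, 1 ≤ l → l ≤ d →
      nrm (((q2 * q1 ^ d : ℕ) : ℝ) * P1.coeff l) * (N : ℝ) ^ l
        ≤ B ^ (d + 1) * B3 ^ d * (1 + 2 ^ d) ^ d := by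
  have key : ∀ k l : ℕ, d - l = k → 1 ≤ l → l ≤ d →
      nrm (((q2 * q1 ^ d : ℕ) : ℝ) * P1.coeff l) * (N : ℝ) ^ l ≤ B ^ (d + 1) * B3 ^ d * (1 + 2 ^ d) ^ (d - l) := by
    intro k
    induction k using Nat.strong_induction_on with
    | _ k ih =>
      intro l hk hl1 hl2
      have hcf := CFS_coeff P1 (d + 1) (by omega) (q1 : ℝ) (n0 : ℝ) l
      have hsum : ∑ i ∈ range (d + 1), P1.coeff i * ((n0 : ℝ) ^ (i - l) * (i.choose l : ℝ)) =
          P1.coeff l + ∑ i ∈ Ico (l + 1) (d + 1), P1.coeff i * ((n0 : ℝ) ^ (i - l) * (i.choose l : ℝ)) := by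
        rw [← Finset.sum_range_add_sum_Ico _ (show l + 1 ≤ d + 1 by omega), Finset.sum_range_succ,
          Finset.sum_eq_zero, zero_add, Nat.sub_self, pow_zero, Nat.choose_self, Nat.cast_one, mul_one, mul_one]
        intro i hi
        rw [Finset.mem_range] at hi
        rw [Nat.choose_eq_zero_of_lt hi, Nat.cast_zero, mul_zero, mul_zero]
      rw [hsum] at hcf
      have hpow : (q1 : ℝ) ^ d = (q1 : ℝ) ^ (d - l) * (q1 : ℝ) ^ l := by
        rw [← pow_add]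
        congr 1
        omega
      have heq : ((q2 * q1 ^ d : ℕ) : ℝ) * P1.coeff l =
          ((q1 ^ (d - l) : ℕ) : ℝ) * (q2 * (P1.comp (C (q1 : ℝ) * X + C (n0 : ℝ))).coeff l) -
            ∑ i ∈ Ico (l + 1) (d + 1), ((n0 ^ (i - l) * i.choose l : ℕ) : ℝ) * (((q2 * q1 ^ d : ℕ) : ℝ) * P1.coeff i) := by
        have h1 : ∑ i ∈ Ico (l + 1) (d + 1), ((n0 ^ (i - l) * i.choose l : ℕ) : ℝ) * (((q2 * q1 ^ d : ℕ) : ℝ) * P1.coeff i) =
            ((q2 : ℝ) * (q1 : ℝ) ^ d) * ∑ i ∈ Ico (l + 1) (d + 1), P1.coeff i * ((n0 : ℝ) ^ (i - l) * (i.choose l : ℝ)) := by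
          rw [Finset.mul_sum]
          refine Finset.sum_congr rfl fun i _ => ?_
          push_cast
          ring
        rw [h1, hcf]
        push_cast
        rw [hpow]
        ring
      have hB0 : (0 : ℝ) < B := by linarith
      have hn : nrm (((q2 * q1 ^ d : ℕ) : ℝ) * P1.coeff l) ≤
          ((q1 ^ (d - l) : ℕ) : ℝ) * nrm (q2 * (P1.comp (C (q1 : ℝ) * X + C (n0 : ℝ))).coeff l) +
          ∑ i ∈ Ico (l + 1) (d + 1), ((n0 ^ (i - l) * i.choose l : ℕ) : ℝ) * nrm (((q2 * q1 ^ d : ℕ) : ℝ) * P1.coeff i) := by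
        rw [heq]
        refine (nrm_sub_le _ _).trans (add_le_add (nrm_nat_mul_le _ _) ?_)
        refine (nrm_sum_le _ _).trans (Finset.sum_le_sum fun i _ => ?_)
        exact nrm_nat_mul_le _ _
      have hNl : (0 : ℝ) ≤ (N : ℝ) ^ l := by positivity
      have h2 := mul_le_mul_of_nonneg_right hn hNl
      rw [add_mul, Finset.sum_mul] at h2
      -- first term
      have h3 : ((q1 ^ (d - l) : ℕ) : ℝ) * nrm (q2 * (P1.comp (C (q1 : ℝ) * X + C (n0 : ℝ))).coeff l) * (N : ℝ) ^ l ≤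
          B ^ (d + 1) * B3 ^ d := by
        have h4 : (N : ℝ) ^ l ≤ B3 ^ l * (L : ℝ) ^ l := by
          rw [← mul_pow]
          exact pow_le_pow_left₀ (Nat.cast_nonneg N) hN l
        have h5 : ((q1 ^ (d - l) : ℕ) : ℝ) ≤ B ^ (d - l) := by
          push_cast
          exact pow_le_pow_left₀ (Nat.cast_nonneg q1) hq1 _
        have hnn := nrm_nonneg (q2 * (P1.comp (C (q1 : ℝ) * X + C (n0 : ℝ))).coeff l)
        have h6 := h l hl1 hl2
        calc ((q1 ^ (d - l) : ℕ) : ℝ) * nrm (q2 * (P1.comp (C (q1 : ℝ) * X + C (n0 : ℝ))).coeff l) * (N : ℝ) ^ l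
            ≤ B ^ (d - l) * nrm (q2 * (P1.comp (C (q1 : ℝ) * X + C (n0 : ℝ))).coeff l) * (B3 ^ l * (L : ℝ) ^ l) := by
              apply mul_le_mul _ h4 hNl (by positivity)
              exact mul_le_mul_of_nonneg_right h5 hnn
          _ = B ^ (d - l) * B3 ^ l * (nrm (q2 * (P1.comp (C (q1 : ℝ) * X + C (n0 : ℝ))).coeff l) * (L : ℝ) ^ l) := by ring
          _ ≤ B ^ (d - l) * B3 ^ l * B := mul_le_mul_of_nonneg_left h6 (by positivity)
          _ = B ^ (d - l + 1) * B3 ^ l := by ring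
          _ ≤ B ^ (d + 1) * B3 ^ d := by
              apply mul_le_mul (pow_le_pow_right₀ hB (by omega)) (pow_le_pow_right₀ hB3 hl2) (by positivity) (by positivity)
      -- second term
      have h4 : ∑ i ∈ Ico (l + 1) (d + 1), ((n0 ^ (i - l) * i.choose l : ℕ) : ℝ) *
          nrm (((q2 * q1 ^ d : ℕ) : ℝ) * P1.coeff i) * (N : ℝ) ^ l ≤
          ∑ i ∈ Ico (l + 1) (d + 1), 2 ^ d * (B ^ (d + 1) * B3 ^ d * (1 + 2 ^ d) ^ (d - i)) := by
        refine Finset.sum_le_sum fun i hi => ?_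
        rw [Finset.mem_Ico] at hi
        have h5 := ih (d - i) (by omega) i rfl (by omega) (by omega)
        have hnn := nrm_nonneg (((q2 * q1 ^ d : ℕ) : ℝ) * P1.coeff i)
        have h6 : ((n0 : ℝ) ^ (i - l)) * (N : ℝ) ^ l ≤ (N : ℝ) ^ i := by
          have h7 : (N : ℝ) ^ i = (N : ℝ) ^ (i - l) * (N : ℝ) ^ l := by
            rw [← pow_add]
            congr 1
            omega
          rw [h7]
          apply mul_le_mul_of_nonneg_right _ hNl
          exact pow_le_pow_left₀ (Nat.cast_nonneg _) (by exact_mod_cast hn0) _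
        have h7 : (i.choose l : ℝ) ≤ 2 ^ d := by
          have h8 : i.choose l ≤ 2 ^ d := (Nat.choose_le_two_pow i l).trans (Nat.pow_le_pow_right (by norm_num) (by omega))
          exact_mod_cast h8
        calc ((n0 ^ (i - l) * i.choose l : ℕ) : ℝ) * nrm (((q2 * q1 ^ d : ℕ) : ℝ) * P1.coeff i) * (N : ℝ) ^ l
            = (i.choose l : ℝ) * (nrm (((q2 * q1 ^ d : ℕ) : ℝ) * P1.coeff i) * ((n0 : ℝ) ^ (i - l) * (N : ℝ) ^ l)) := by
              rw [Nat.cast_mul (n0 ^ (i - l)), Nat.cast_pow]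
              ring
          _ ≤ 2 ^ d * (nrm (((q2 * q1 ^ d : ℕ) : ℝ) * P1.coeff i) * (N : ℝ) ^ i) := by
              apply mul_le_mul h7 _ (by positivity) (by positivity)
              exact mul_le_mul_of_nonneg_left h6 hnn
          _ ≤ 2 ^ d * (B ^ (d + 1) * B3 ^ d * (1 + 2 ^ d) ^ (d - i)) :=
              mul_le_mul_of_nonneg_left h5 (by positivity)
      have h5 := CFS_geo ((1 : ℝ) + 2 ^ d) d l hl2
      have h6 : ∑ i ∈ Ico (l + 1) (d + 1), 2 ^ d * (B ^ (d + 1) * B3 ^ d * (1 + 2 ^ d) ^ (d - i)) =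
          B ^ (d + 1) * B3 ^ d * ((1 + 2 ^ d - 1) * ∑ j ∈ Ico (l + 1) (d + 1), ((1 : ℝ) + 2 ^ d) ^ (d - j)) := by
        rw [Finset.mul_sum, Finset.mul_sum]
        refine Finset.sum_congr rfl fun i _ => ?_
        ring
      rw [← h5, mul_add, ← h6, mul_one]
      linarith
  intro l hl1 hl2
  refine (key (d - l) l rfl hl1 hl2).trans ?_
  apply mul_le_mul_of_nonneg_left _ (by positivity)
  apply pow_le_pow_right₀ _ (by omega)
  have : (0 : ℝ) ≤ 2 ^ d := by positivity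
  linarith
/- END CFS -/

/- MODULE STP -/
/-- The induction step. Let C1 be the constant of top_coeff, B = pb C1 D, al = P.coeff (d+1),
P1 = P - C al * X^(d+1) (natDegree ≤ d), q1 ≤ B with nrm (q1 al) N^(d+1) ≤ B. Put
t = 28 D B (d+1) 2^(d+1) (≥ 2 D B) and L = floor(N/t). If N < 2 t take q = 1 (all nrm ≤ 1/2 and
N^l ≤ (2 t)^(d+1) ≤ pb). Otherwise 1 ≤ L, N ≤ 2 t L, 2 D q1 L ≤ N, q1 L ≤ N; shift_avg and
remove_top (K = d+1) give n0 with L ≤ 4 D |sum over m < L of e(P1(n0 + q1 m))| = 4 D |W Pt L|,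
Pt = P1.comp (C q1 * X + C n0) of natDegree ≤ d. IT d gives q2, coeff_solve (B' = max of B and
pb C (4 D), B3 = 2 t) the coefficients 1 .. d for q = q2 q1^d, and for the coefficient d+1:
nrm (q2 q1^d al) ≤ q2 q1^(d-1) nrm (q1 al) (d ≥ 1). -/
theorem it_step (d : ℕ) (hd : 1 ≤ d) (h : IT d) : IT (d + 1) := by
  obtain ⟨C1, hC1, htop⟩ := top_coeff d hd h
  obtain ⟨C0, hC0, hIT⟩ := h
  obtain ⟨Ca, hCa1, hCa⟩ := exists_pb_comp C0 4 1
  obtain ⟨C2, hC2, hC2b⟩ := exists_pb_add C1 Ca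
  obtain ⟨C3, hC3, hC3b⟩ := exists_pb (56 * C1 * ((d + 1 : ℕ) : ℝ) * 2 ^ (d + 1)) (C1 + 1)
  obtain ⟨C4, hC4, hC4b⟩ := exists_pb_pow C2 (d + 1)
  obtain ⟨C5, hC5, hC5b⟩ := exists_pb_pow C3 (d + 1)
  obtain ⟨C6, hC6, hC6b⟩ := exists_pb ((1 + 2 ^ d) ^ d) 0
  obtain ⟨C7, hC7, hC7b⟩ := exists_pb_mul C4 C5
  obtain ⟨C8, hC8, hC8b⟩ := exists_pb_mul C7 C6
  refine ⟨C8, hC8, fun P hP N hN D hD hW => ?_⟩
  obtain ⟨q1, hq1, hq1b, hq1n⟩ := htop P hP N hN D hD hW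
  obtain ⟨B, hB⟩ : ∃ B, B = pb C1 D := ⟨_, rfl⟩
  rw [← hB] at hq1b hq1n
  have hB1 : 1 ≤ B := by
    rw [hB]
    exact one_le_pb hC1 hD
  have hD4 : (1 : ℝ) ≤ 4 * D := by linarith
  have hE1 : 1 ≤ pb C0 (4 * D) := one_le_pb hC0 hD4
  obtain ⟨B', hB'⟩ : ∃ B', B' = B + pb C0 (4 * D) := ⟨_, rfl⟩
  have hB'1 : 1 ≤ B' := by linarith
  have hBB' : B ≤ B' := by linarith
  have hEB' : pb C0 (4 * D) ≤ B' := by linarith
  obtain ⟨t, ht⟩ : ∃ t : ℝ, t = 28 * D * B * ((d + 1 : ℕ) : ℝ) * 2 ^ (d + 1) := ⟨_, rfl⟩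
  have hk1 : (1 : ℝ) ≤ ((d + 1 : ℕ) : ℝ) * 2 ^ (d + 1) := by
    have h1 : (1 : ℝ) ≤ ((d + 1 : ℕ) : ℝ) := by
      exact_mod_cast Nat.le_add_left 1 d
    have h2 : (1 : ℝ) ≤ 2 ^ (d + 1) := one_le_pow₀ (by norm_num)
    nlinarith
  have hDB : B ≤ D * B := by nlinarith
  have ht1 : 2 * (D * B) ≤ t := by
    have h1 : t = 28 * (D * B) * (((d + 1 : ℕ) : ℝ) * 2 ^ (d + 1)) := by
      rw [ht]
      ring
    rw [h1]
    nlinarith
  have htB : B ≤ t := by linarith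
  have ht0 : 0 < t := by linarith
  have h2t : 1 ≤ 2 * t := by linarith
  -- the final bound
  have hM : B' ^ (d + 1) * (2 * t) ^ (d + 1) * (1 + 2 ^ d) ^ d ≤ pb C8 D := by
    have h1 : B' ≤ pb C2 D := by
      refine le_trans ?_ (hC2b D hD)
      have h2 := hCa D hD
      rw [pow_one] at h2
      rw [hB', hB]
      linarith
    have h2 : 2 * t ≤ pb C3 D := by
      refine le_trans (le_of_eq ?_) (hC3b D hD)
      rw [ht, hB]
      unfold pb
      ring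
    have h3 : B' ^ (d + 1) ≤ pb C4 D :=
      (pow_le_pow_left₀ (by linarith) h1 _).trans (hC4b D hD)
    have h4 : (2 * t) ^ (d + 1) ≤ pb C5 D :=
      (pow_le_pow_left₀ (by linarith) h2 _).trans (hC5b D hD)
    have h5 : ((1 : ℝ) + 2 ^ d) ^ d ≤ pb C6 D := by
      have h6 := hC6b D hD
      rw [pow_zero, mul_one] at h6
      exact h6
    have h7 : B' ^ (d + 1) * (2 * t) ^ (d + 1) ≤ pb C7 D :=
      (mul_le_mul h3 h4 (by positivity) (pb_nonneg C4 hD)).trans (hC7b D hD)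
    exact (mul_le_mul h7 h5 (by positivity) (pb_nonneg C7 hD)).trans (hC8b D hD)
  have hF1 : (1 : ℝ) ≤ (1 + 2 ^ d) ^ d := one_le_pow₀ (by
    have : (0 : ℝ) ≤ 2 ^ d := by positivity
    linarith)
  have hG1 : (1 : ℝ) ≤ B' ^ (d + 1) := one_le_pow₀ hB'1
  have hH1 : (1 : ℝ) ≤ (2 * t) ^ (d + 1) := one_le_pow₀ h2t
  have hMa : (2 * t) ^ (d + 1) ≤ pb C8 D := by
    refine le_trans ?_ hM
    have h1 : (2 * t) ^ (d + 1) ≤ B' ^ (d + 1) * (2 * t) ^ (d + 1) :=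
      le_mul_of_one_le_left (by linarith) hG1
    exact h1.trans (le_mul_of_one_le_right (by positivity) hF1)
  have hMb : B' ^ (d + 1) ≤ pb C8 D := by
    refine le_trans ?_ hM
    have h1 : B' ^ (d + 1) ≤ B' ^ (d + 1) * (2 * t) ^ (d + 1) :=
      le_mul_of_one_le_right (by linarith) hH1
    exact h1.trans (le_mul_of_one_le_right (by positivity) hF1)
  have hMc : B' ^ (d + 1) * (2 * t) ^ d * (1 + 2 ^ d) ^ d ≤ pb C8 D := by
    refine le_trans ?_ hM
    refine mul_le_mul_of_nonneg_right ?_ (by positivity)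
    exact mul_le_mul_of_nonneg_left (pow_le_pow_right₀ h2t (Nat.le_succ d)) (by positivity)
  by_cases hNt : (N : ℝ) < 2 * t
  · refine ⟨1, le_refl 1, ?_, fun l hl1 hl2 => ?_⟩
    · rw [Nat.cast_one]
      exact one_le_pb hC8 hD
    · have h1 : (N : ℝ) ^ l ≤ (2 * t) ^ (d + 1) :=
        (pow_le_pow_left₀ (Nat.cast_nonneg N) hNt.le l).trans (pow_le_pow_right₀ h2t hl2)
      have h2 : nrm (((1 : ℕ) : ℝ) * P.coeff l) ≤ 1 := (nrm_le_half _).trans (by norm_num)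
      calc nrm (((1 : ℕ) : ℝ) * P.coeff l) * (N : ℝ) ^ l ≤ 1 * (2 * t) ^ (d + 1) :=
            mul_le_mul h2 h1 (by positivity) zero_le_one
        _ = (2 * t) ^ (d + 1) := one_mul _
        _ ≤ pb C8 D := hMa
  · push Not at hNt
    obtain ⟨L, hL⟩ : ∃ L : ℕ, L = ⌊(N : ℝ) / t⌋₊ := ⟨_, rfl⟩
    have hNt2 : (2 : ℝ) ≤ (N : ℝ) / t := by
      rw [le_div_iff₀ ht0]
      exact hNt
    have hL2 : 2 ≤ L := by
      rw [hL]
      exact Nat.le_floor (by exact_mod_cast hNt2)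
    have hL1 : 1 ≤ L := by omega
    have hLr1 : (1 : ℝ) ≤ L := by exact_mod_cast hL1
    have hLle : (L : ℝ) ≤ (N : ℝ) / t := by
      rw [hL]
      exact Nat.floor_le (by positivity)
    have hLlt : (N : ℝ) / t < L + 1 := by
      rw [hL]
      exact Nat.lt_floor_add_one _
    have htL : t * L ≤ N := by
      rw [le_div_iff₀ ht0] at hLle
      linarith
    have hN2 : (N : ℝ) ≤ 2 * t * L := by
      rw [div_lt_iff₀ ht0] at hLlt
      nlinarith
    have hq1r : (0 : ℝ) ≤ q1 := Nat.cast_nonneg _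
    have hLr : (0 : ℝ) ≤ L := Nat.cast_nonneg _
    have hs1 : 2 * D * q1 * L ≤ N := by
      have h1 : D * q1 ≤ D * B := mul_le_mul_of_nonneg_left hq1b (by linarith)
      have h2 : 2 * D * q1 ≤ t := by nlinarith
      exact (mul_le_mul_of_nonneg_right h2 hLr).trans htL
    have hs2 : q1 * L ≤ N := by
      have h1 : (q1 : ℝ) * L ≤ N :=
        (mul_le_mul_of_nonneg_right (hq1b.trans htB) hLr).trans htL
      exact_mod_cast h1
    have hs3 : 28 * D * B * ((d + 1 : ℕ) : ℝ) * 2 ^ (d + 1) * L ≤ N := by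
      rw [← ht]
      exact htL
    obtain ⟨n0, hn0, hn0b⟩ := shift_avg P N L q1 D hN hL1 hD hW hs1
    obtain ⟨α, hα⟩ : ∃ α : ℝ, α = P.coeff (d + 1) := ⟨_, rfl⟩
    obtain ⟨P1, hP1⟩ : ∃ P1 : ℝ[X], P1 = P - C α * X ^ (d + 1) := ⟨_, rfl⟩
    have hP1c : ∀ l, P1.coeff l = P.coeff l - if l = d + 1 then α else 0 := by
      intro l
      rw [hP1, coeff_sub, coeff_C_mul_X_pow]
    have hP1d : P1.natDegree ≤ d := by
      rw [natDegree_le_iff_coeff_eq_zero]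
      intro m hm
      rw [hP1c]
      by_cases h1 : m = d + 1
      · rw [if_pos h1, h1, hα, sub_self]
      · rw [if_neg h1, sub_zero]
        exact coeff_eq_zero_of_natDegree_lt (by omega)
    have hPe : C α * X ^ (d + 1) + P1 = P := by
      rw [hP1]
      ring
    rw [← hα] at hq1n
    have hrm := remove_top (d + 1) (by omega) P1 α q1 N L n0 B D hq1 hn0 (by linarith) hD hq1n hs2
      hs3 (by rw [hPe]; exact hn0b)
    obtain ⟨Pt, hPt⟩ : ∃ Pt : ℝ[X], Pt = P1.comp (C (q1 : ℝ) * X + C (n0 : ℝ)) := ⟨_, rfl⟩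
    have hPtd : Pt.natDegree ≤ d := by
      rw [hPt]
      refine natDegree_comp_le.trans ?_
      calc P1.natDegree * (C (q1 : ℝ) * X + C (n0 : ℝ)).natDegree ≤ d * 1 :=
            Nat.mul_le_mul hP1d natDegree_linear_le
        _ = d := mul_one d
    have hWt : (L : ℝ) ≤ 4 * D * ‖W Pt L‖ := by
      have h1 : W Pt L = ∑ m ∈ range L, e (P1.eval ((n0 : ℝ) + q1 * m)) := by
        unfold W
        refine Finset.sum_congr rfl fun m _ => ?_
        rw [hPt, eval_comp, eval_add, eval_mul, eval_C, eval_X, eval_C, add_comm]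
      rw [h1]
      exact hrm
    obtain ⟨q2, hq2, hq2b, hq2n⟩ := hIT Pt hPtd L hL1 (4 * D) hD4 hWt
    have hcs := coeff_solve d P1 hP1d q1 q2 N L n0 B' (2 * t) hn0.le hL1 hB'1 h2t hN2
      (hq1b.trans hBB') (fun l hl1 hl2 => by
        rw [← hPt]
        exact (hq2n l hl1 hl2).trans hEB')
    have hq2r : (0 : ℝ) ≤ q2 := Nat.cast_nonneg _
    refine ⟨q2 * q1 ^ d, Nat.mul_pos hq2 (Nat.pow_pos hq1), ?_, fun l hl1 hl2 => ?_⟩
    · refine le_trans ?_ hMb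
      push_cast
      calc (q2 : ℝ) * (q1 : ℝ) ^ d ≤ B' * B' ^ d :=
            mul_le_mul (hq2b.trans hEB') (pow_le_pow_left₀ hq1r (hq1b.trans hBB') d)
              (by positivity) (by linarith)
        _ = B' ^ (d + 1) := by ring
    · by_cases hl : l = d + 1
      · rw [hl, ← hα]
        obtain ⟨d', rfl⟩ : ∃ d', d = d' + 1 := ⟨d - 1, by omega⟩
        have h1 : ((q2 * q1 ^ (d' + 1) : ℕ) : ℝ) * α = ((q2 * q1 ^ d' : ℕ) : ℝ) * ((q1 : ℝ) * α) := by
          push_cast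
          ring
        have h2 : nrm (((q2 * q1 ^ (d' + 1) : ℕ) : ℝ) * α) ≤
            ((q2 * q1 ^ d' : ℕ) : ℝ) * nrm ((q1 : ℝ) * α) := by
          rw [h1]
          exact nrm_nat_mul_le _ _
        have h3 : ((q2 * q1 ^ d' : ℕ) : ℝ) ≤ B' * B' ^ d' := by
          push_cast
          exact mul_le_mul (hq2b.trans hEB') (pow_le_pow_left₀ hq1r (hq1b.trans hBB') d')
              (by positivity) (by linarith)
        calc nrm (((q2 * q1 ^ (d' + 1) : ℕ) : ℝ) * α) * (N : ℝ) ^ (d' + 1 + 1)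
            ≤ (((q2 * q1 ^ d' : ℕ) : ℝ) * nrm ((q1 : ℝ) * α)) * (N : ℝ) ^ (d' + 1 + 1) :=
              mul_le_mul_of_nonneg_right h2 (by positivity)
          _ = ((q2 * q1 ^ d' : ℕ) : ℝ) * (nrm ((q1 : ℝ) * α) * (N : ℝ) ^ (d' + 1 + 1)) := by ring
          _ ≤ (B' * B' ^ d') * B' :=
              mul_le_mul h3 (hq1n.trans hBB') (mul_nonneg (nrm_nonneg _) (by positivity))
                (by positivity)
          _ = B' ^ (d' + 1 + 1) := by ring
          _ ≤ pb C8 D := hMb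
      · have h1 := hcs l hl1 (by omega)
        rw [hP1c l, if_neg hl, sub_zero] at h1
        exact h1.trans hMc
/- END STP -/

/- MODULE ITA -/
/-- The base case: P = c0 + c1 X, |W P N| = |sum of e(n c1)|, geo; q = 1, C = 1. -/
theorem it_one : IT 1 := by
  refine ⟨1, le_rfl, fun P hP N hN D hD h => ⟨1, le_rfl, ?_, ?_⟩⟩
  · rw [Nat.cast_one]
    exact one_le_pb le_rfl hD
  · intro l hl1 hl2
    have hl : l = 1 := by omega
    subst hl
    have h1 : W P N = e (P.coeff 0) * ∑ n ∈ range N, e (n * P.coeff 1) := by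
      unfold W
      rw [Finset.mul_sum]
      refine Finset.sum_congr rfl fun n _ => ?_
      rw [← e_add]
      congr 1
      rw [Polynomial.eval_eq_sum_range' (show P.natDegree < 2 by omega), Finset.sum_range_succ, Finset.sum_range_one,
        pow_zero, pow_one, mul_one, mul_comm (P.coeff 1)]
    rw [h1, norm_mul, norm_e, one_mul] at h
    have h2 := geo N (P.coeff 1)
    have h3 := nrm_nonneg (P.coeff 1)
    unfold pb
    rw [Nat.cast_one, one_mul, one_mul, pow_one, pow_one]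
    have h4 : nrm (P.coeff 1) * N ≤ nrm (P.coeff 1) * (D * ‖∑ n ∈ range N, e (n * P.coeff 1)‖) :=
      mul_le_mul_of_nonneg_left h h3
    have h5 : D * (‖∑ n ∈ range N, e (n * P.coeff 1)‖ * (2 * nrm (P.coeff 1))) ≤ D * 1 :=
      mul_le_mul_of_nonneg_left h2 (by linarith)
    have h6 : 0 ≤ D * (‖∑ n ∈ range N, e (n * P.coeff 1)‖ * nrm (P.coeff 1)) := by positivity
    nlinarith

/-- The inverse Weyl theorem. IT 0 is trivial (q = 1), IT 1 is it_one, then it_step. -/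
theorem it_all (d : ℕ) : IT d := by
  rcases Nat.eq_zero_or_pos d with rfl | hd
  · refine ⟨1, le_rfl, fun P hP N hN D hD h => ⟨1, le_rfl, ?_, ?_⟩⟩
    · rw [Nat.cast_one]
      exact one_le_pb le_rfl hD
    · intro l hl1 hl2
      omega
  · induction d, hd using Nat.le_induction with
    | base => exact it_one
    | succ n hn ih => exact it_step n hn ih
/- END ITA -/

end Pool.Agent.GsF
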