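import Pool.Agent.GsF.An
import Pool.Agent.GsF.Bt

/-!
Pointwise estimates of the multipliers: the error E in block i and the differences of the models.
-/

namespace Pool.Agent.GsF

open Finset

variable {d : ℕ}

/- MODULE PC1 -/
private theorem PC1_root (m : ℕ) (hm : 1 ≤ m) {B : ℝ} (hB : 0 < B) (i : ℕ) {x : ℝ} (hx : 0 ≤ x)
    (h : x ^ m * 2 ^ i ≤ B) : x ≤ B ^ ((m : ℝ)⁻¹) * (2 : ℝ) ^ (-((m : ℝ)⁻¹ * i)) := by
  have h2 : (0 : ℝ) < 2 ^ i := by positivity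
  have h1 : x ^ m ≤ B / 2 ^ i := by rwa [le_div_iff₀ h2]
  have h3 : (x ^ m) ^ ((m : ℝ)⁻¹) = x := Real.pow_rpow_inv_natCast hx (by omega)
  calc x = (x ^ m) ^ ((m : ℝ)⁻¹) := h3.symm
    _ ≤ (B / 2 ^ i) ^ ((m : ℝ)⁻¹) := Real.rpow_le_rpow (by positivity) h1 (by positivity)
    _ = B ^ ((m : ℝ)⁻¹) * (2 : ℝ) ^ (-((m : ℝ)⁻¹ * i)) := by
      rw [Real.div_rpow hB.le h2.le, ← Real.rpow_natCast 2 i, ← Real.rpow_mul (by norm_num),
        div_eq_mul_inv, ← Real.rpow_neg (by norm_num), mul_comm (i : ℝ)]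

private theorem PC1_round (q : ℕ) (hq : 1 ≤ q) (ξ : Fin d → ℝ) :
    Den q (fun l => (round ((q : ℝ) * ξ l) : ℝ) / q) ∧
      ∀ l, q * |ξ l - (round ((q : ℝ) * ξ l) : ℝ) / q| = nrm (q * ξ l) := by
  have hq0 : (0 : ℝ) < q := by exact_mod_cast hq
  refine ⟨fun l => ⟨round ((q : ℝ) * ξ l), by field_simp⟩, fun l => ?_⟩
  have h1 : (q : ℝ) * ξ l - round ((q : ℝ) * ξ l) =
      q * (ξ l - (round ((q : ℝ) * ξ l) : ℝ) / q) := by field_simp
  unfold nrm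
  rw [h1, abs_mul, abs_of_pos hq0]

private theorem PC1_tau (B : ℝ) {c : ℝ} (hc : 0 < c) (m : ℕ) :
    ∃ i0 : ℕ, ∀ i : ℕ, i0 ≤ i → B * (2 ^ i * (Qf i : ℝ)) ^ m * tau i ^ c ≤ 1 := by
  obtain ⟨A1, hA1⟩ := exists_nat_ge B
  obtain ⟨A2, hA2⟩ := exists_nat_ge (((m : ℝ) + 1) / c)
  obtain ⟨A, hA⟩ : ∃ A : ℕ, A = A1 + A2 + 1 := ⟨_, rfl⟩
  obtain ⟨i0, hi0⟩ := par_tau A
  refine ⟨i0, fun i hi => ?_⟩
  have h1 := hi0 i hi
  have ht := tau_pos i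
  have hQ : (1 : ℝ) ≤ Qf i := by exact_mod_cast Qf_pos i
  have h2i : (1 : ℝ) ≤ 2 ^ i := one_le_pow₀ (by norm_num)
  have hA0 : (A : ℝ) = A1 + A2 + 1 := by rw [hA]; push_cast; ring
  have hA1n : (0 : ℝ) ≤ A1 := Nat.cast_nonneg _
  have hA2n : (0 : ℝ) ≤ A2 := Nat.cast_nonneg _
  have hA1' : (1 : ℝ) ≤ A := by linarith
  obtain ⟨z, hz⟩ : ∃ z : ℝ, z = 2 ^ i * (Qf i : ℝ) := ⟨_, rfl⟩
  have hz1 : 1 ≤ z := by rw [hz]; exact one_le_mul_of_one_le_of_one_le h2i hQ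
  have hyz : (A : ℝ) * 2 ^ i * Qf i = A * z := by rw [hz]; ring
  rw [hyz] at h1
  rw [← hz]
  obtain ⟨y, hy⟩ : ∃ y : ℝ, y = A * z := ⟨_, rfl⟩
  rw [← hy] at h1
  have hy1 : 1 ≤ y := by rw [hy]; exact one_le_mul_of_one_le_of_one_le hA1' hz1
  have h4 : B * z ^ m ≤ y ^ (m + 1) := by
    have h5 : (A : ℝ) ≤ (A : ℝ) ^ (m + 1) := le_self_pow₀ hA1' (by omega)
    have h6 : z ^ m ≤ z ^ (m + 1) := pow_le_pow_right₀ hz1 (by omega)
    rw [hy, mul_pow]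
    exact mul_le_mul (by linarith) h6 (by positivity) (by positivity)
  have h5 : y ^ (m + 1) ≤ (y ^ A) ^ c := by
    rw [← Real.rpow_natCast y A, ← Real.rpow_mul (by linarith), ← Real.rpow_natCast y (m + 1)]
    apply Real.rpow_le_rpow_of_exponent_le hy1
    have h7 : ((m : ℝ) + 1) / c ≤ A := by linarith
    rw [div_le_iff₀ hc] at h7
    push_cast
    exact h7
  calc B * z ^ m * tau i ^ c ≤ (y ^ A) ^ c * tau i ^ c := by
        apply mul_le_mul_of_nonneg_right (h4.trans h5)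
        exact Real.rpow_nonneg ht.le _
    _ = (y ^ A * tau i) ^ c := (Real.mul_rpow (by positivity) ht.le).symm
    _ ≤ 1 := Real.rpow_le_one (by positivity) h1 hc.le

private theorem PC1_Nk {u : ℕ} (hu : 1 ≤ u) (k : ℕ) : 2 ^ k ≤ Nk u k := by
  unfold Nk
  exact Nat.le_mul_of_pos_left _ hu

private theorem PC1_Nk' {u : ℕ} (hu : 1 ≤ u) {i k : ℕ} (hk : 2 ^ i ≤ k) :
    (2 : ℝ) ^ 2 ^ i ≤ (Nk u k : ℝ) := by
  have h1 := PC1_Nk hu k
  have h2 : 2 ^ 2 ^ i ≤ 2 ^ k := Nat.pow_le_pow_right (by norm_num) hk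
  exact_mod_cast h2.trans h1

/-- Outside the major set the sums are small. C0 from it_a, x = |a (Nk u k) xi| > 0, D = 1/x ≥ 1:
q ≤ pb C0 D, nrm (q xi_l) N^(l+1) ≤ pb C0 D. If pb C0 D ≤ xx i then q ≤ xx i and for
beta_l = round (q xi_l)/q: |xi_l - beta_l| ≤ xx i/N ≤ xx i/2^(2^i) ≤ tau i, so V i xi. Hence
C0 x^(-C0) > xx i, x < (C0/xx i)^(1/C0), and 2^i ≤ 8 (xx i)^4. -/
theorem a_small (d : ℕ) :
    ∃ (C c : ℝ) (i0 : ℕ), 0 < C ∧ 0 < c ∧ ∀ (u : ℕ), 1 ≤ u → ∀ i : ℕ, i0 ≤ i →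
      ∀ ξ : Fin d → ℝ, ¬ V i ξ → ∀ k : ℕ, 2 ^ i ≤ k →
        ‖a (Nk u k) ξ‖ ≤ C * (2 : ℝ) ^ (-(c * i)) := by
  obtain ⟨C0, hC0, hit⟩ := it_a d
  obtain ⟨i0, hi0⟩ := PC1_tau 1 (c := 1) one_pos 1
  have hC0' : (0 : ℝ) < C0 := by exact_mod_cast hC0
  have hB : (0 : ℝ) < 8 * (C0 : ℝ) ^ 4 := by positivity
  have hm0 : (0 : ℝ) < ((4 * C0 : ℕ) : ℝ) := by exact_mod_cast (by omega : 0 < 4 * C0)
  refine ⟨(8 * (C0 : ℝ) ^ 4) ^ (((4 * C0 : ℕ) : ℝ)⁻¹), ((4 * C0 : ℕ) : ℝ)⁻¹, max i0 1,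
    Real.rpow_pos_of_pos hB _, inv_pos.2 hm0, ?_⟩
  intro u hu i hi ξ hV k hk
  have hNN := PC1_Nk' hu hk
  have hN1 : 1 ≤ Nk u k := (Nat.one_le_two_pow).trans (PC1_Nk hu k)
  obtain ⟨N, hN⟩ : ∃ N, N = Nk u k := ⟨_, rfl⟩
  rw [← hN] at hNN hN1 ⊢
  apply PC1_root (4 * C0) (by omega) hB i (norm_nonneg _)
  rcases (norm_nonneg (a N ξ)).eq_or_lt with h0 | h0
  · rw [← h0, zero_pow (by omega), zero_mul]
    positivity
  · obtain ⟨q, hq1, hq2, hq3⟩ := hit ξ N (‖a N ξ‖)⁻¹ hN1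
      ((one_le_inv₀ h0).2 (a_norm_le N ξ)) (by rw [inv_mul_cancel₀ h0.ne'])
    have h1 : (xx i : ℝ) < pb C0 (‖a N ξ‖)⁻¹ := by
      by_contra hcon
      push Not at hcon
      apply hV
      refine ⟨q, hq1, by exact_mod_cast hq2.trans hcon, ?_⟩
      obtain ⟨hD, hR⟩ := PC1_round q hq1 ξ
      refine ⟨_, hD, fun l => ?_⟩
      have hRl := hR l
      obtain ⟨δ, hδ⟩ : ∃ δ : ℝ, δ = |ξ l - (round ((q : ℝ) * ξ l) : ℝ) / q| := ⟨_, rfl⟩
      rw [← hδ] at hRl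
      change |ξ l - (round ((q : ℝ) * ξ l) : ℝ) / q| ≤ tau i
      rw [← hδ]
      have hδ0 : 0 ≤ δ := by rw [hδ]; exact abs_nonneg _
      have hq0 : (1 : ℝ) ≤ q := by exact_mod_cast hq1
      have h2 : δ ≤ nrm (q * ξ l) := by
        rw [← hRl]
        nlinarith
      have hN1' : (1 : ℝ) ≤ N := by exact_mod_cast hN1
      have h3 : (2 : ℝ) ^ 2 ^ i ≤ (N : ℝ) ^ ((l : ℕ) + 1) :=
        hNN.trans (le_self_pow₀ hN1' (by omega))
      have h4 : δ * 2 ^ 2 ^ i ≤ xx i :=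
        (mul_le_mul h2 h3 (by positivity) (nrm_nonneg _)).trans ((hq3 l).trans hcon)
      have h5 := tau_sq i ((le_max_right _ _).trans hi)
      have h6 := hi0 i ((le_max_left _ _).trans hi)
      rw [one_mul, pow_one, Real.rpow_one] at h6
      have ht := tau_pos i
      have h7 : (xx i : ℝ) ≤ 2 ^ i * (Qf i : ℝ) := by
        have h8 : (xx i : ℝ) ≤ Qf i := by exact_mod_cast xx_le_Qf i
        have h9 : (1 : ℝ) ≤ 2 ^ i := one_le_pow₀ (by norm_num)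
        have h10 : (0 : ℝ) ≤ Qf i := Nat.cast_nonneg _
        nlinarith
      have h8 : (xx i : ℝ) * tau i ≤ 1 :=
        (mul_le_mul_of_nonneg_right h7 ht.le).trans h6
      calc δ = δ * 2 ^ 2 ^ i * tau i ^ 2 := by
            rw [mul_assoc, mul_comm _ (tau i ^ 2), h5, mul_one]
        _ ≤ xx i * tau i ^ 2 := mul_le_mul_of_nonneg_right h4 (by positivity)
        _ = (xx i * tau i) * tau i := by ring
        _ ≤ 1 * tau i := mul_le_mul_of_nonneg_right h8 ht.le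
        _ = tau i := one_mul _
    unfold pb at h1
    rw [inv_pow, ← div_eq_mul_inv, lt_div_iff₀ (by positivity)] at h1
    have h3 : (2 : ℝ) ^ i ≤ 8 * (xx i : ℝ) ^ 4 := by exact_mod_cast pow_le_xx i
    calc ‖a N ξ‖ ^ (4 * C0) * 2 ^ i ≤ ‖a N ξ‖ ^ (4 * C0) * (8 * (xx i : ℝ) ^ 4) :=
          mul_le_mul_of_nonneg_left h3 (by positivity)
      _ = 8 * ((xx i : ℝ) * ‖a N ξ‖ ^ C0) ^ 4 := by ring
      _ ≤ 8 * (C0 : ℝ) ^ 4 := by
          apply mul_le_mul_of_nonneg_left _ (by norm_num)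
          exact pow_le_pow_left₀ (by positivity) h1.le 4
/- END PC1 -/

/- MODULE PC2 -/
private theorem PC2_M {t : ℝ} (ht : 0 ≤ t) (N : ℕ) (hN : 1 ≤ N) (ζ : Fin d → ℝ)
    (h : ∀ l, |ζ l| ≤ t) : M ζ N ≤ d * (N : ℝ) ^ d * t := by
  have hN0 : (1 : ℝ) ≤ N := by exact_mod_cast hN
  unfold M
  calc ∑ l : Fin d, |ζ l| * (N : ℝ) ^ ((l : ℕ) + 1) ≤ ∑ _l : Fin d, t * (N : ℝ) ^ d := by
        apply Finset.sum_le_sum
        intro l _
        exact mul_le_mul (h l) (pow_le_pow_right₀ hN0 (by have := l.isLt; omega))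
          (by positivity) ht
    _ = d * (N : ℝ) ^ d * t := by
        rw [Finset.sum_const, Finset.card_univ, Fintype.card_fin, nsmul_eq_mul]
        ring

private theorem PC2_xx (c : ℝ) (hc : 0 < c) (i : ℕ) :
    (xx i : ℝ) ^ (-c) ≤ (8 : ℝ) ^ (c / 4) * (2 : ℝ) ^ (-(c / 4 * i)) := by
  have h1 : (2 : ℝ) ^ i ≤ 8 * (xx i : ℝ) ^ 4 := by exact_mod_cast pow_le_xx i
  have hx : (0 : ℝ) < xx i := by exact_mod_cast xx_pos i
  have h2 : ((2 : ℝ) ^ i) ^ (c / 4) ≤ (8 * (xx i : ℝ) ^ 4) ^ (c / 4) :=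
    Real.rpow_le_rpow (by positivity) h1 (by positivity)
  rw [Real.mul_rpow (by norm_num) (by positivity), ← Real.rpow_natCast (xx i : ℝ) 4,
    ← Real.rpow_mul hx.le] at h2
  have h3 : ((4 : ℕ) : ℝ) * (c / 4) = c := by push_cast; ring
  rw [h3, ← Real.rpow_natCast 2 i, ← Real.rpow_mul (by norm_num)] at h2
  rw [Real.rpow_neg hx.le, Real.rpow_neg (by norm_num), inv_eq_one_div, inv_eq_one_div,
    mul_one_div, div_le_div_iff₀ (Real.rpow_pos_of_pos hx _)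
      (Real.rpow_pos_of_pos (by norm_num) _), one_mul, mul_comm (c / 4) (i : ℝ)]
  exact h2

private theorem PC2_two {c c' : ℝ} (h : c ≤ c') (i : ℕ) :
    (2 : ℝ) ^ (-(c' * i)) ≤ (2 : ℝ) ^ (-(c * i)) :=
  Real.rpow_le_rpow_of_exponent_le (by norm_num)
    (neg_le_neg (mul_le_mul_of_nonneg_right h (Nat.cast_nonneg _)))

private theorem PC2_tiny {B τ : ℝ} (hB : 0 ≤ B) (hτ : 0 ≤ τ) (i m : ℕ)
    (h : B * (2 ^ i * (Qf i : ℝ)) ^ (m + 1) * τ ≤ 1) :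
    B * (Qf i : ℝ) ^ m * τ ≤ (2 : ℝ) ^ (-(1 * (i : ℝ))) := by
  have hQ : (1 : ℝ) ≤ Qf i := by exact_mod_cast Qf_pos i
  have h2i : (1 : ℝ) ≤ 2 ^ i := one_le_pow₀ (by norm_num)
  rw [one_mul, Real.rpow_neg (by norm_num), Real.rpow_natCast, inv_eq_one_div,
    le_div_iff₀ (by positivity)]
  refine le_trans ?_ h
  have h3 : (Qf i : ℝ) ^ m * 2 ^ i ≤ (2 ^ i * (Qf i : ℝ)) ^ (m + 1) := by
    rw [mul_pow, mul_comm]
    apply mul_le_mul (le_self_pow₀ h2i (by omega)) (pow_le_pow_right₀ hQ (by omega))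
      (by positivity) (by positivity)
  calc B * (Qf i : ℝ) ^ m * τ * 2 ^ i = B * ((Qf i : ℝ) ^ m * 2 ^ i) * τ := by ring
    _ ≤ B * (2 ^ i * (Qf i : ℝ)) ^ (m + 1) * τ := by gcongr

/-- The complete sum with modulus Q_i is small near (1/Q_i) Z^d outside the major set. beta with
Den (Qf i) beta and |xi - beta| ≤ tau i; q = least denominator (exists_mind); q ∣ Qf i; if q ≤ xx i
then V i xi. So q > xx i, |a (Qf i) beta| = |a q beta| ≤ C q^(-c) (a_dvd, a_dec), and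
|a (Qf i) xi - a (Qf i) beta| ≤ 7 M (xi - beta) (Qf i) ≤ 7 d (Qf i)^d tau i (par_tau). -/
theorem aQ_small (d : ℕ) :
    ∃ (C c : ℝ) (i0 : ℕ), 0 < C ∧ 0 < c ∧ ∀ i : ℕ, i0 ≤ i →
      ∀ ξ : Fin d → ℝ, ¬ V i ξ → nearQ (Qf i) (tau i) ξ →
        ‖a (Qf i) ξ‖ ≤ C * (2 : ℝ) ^ (-(c * i)) := by
  obtain ⟨Ca, c, hCa, hc, hc1, hdec⟩ := a_dec d
  obtain ⟨i0, hi0⟩ := PC1_tau (7 * d) (c := 1) one_pos (d + 1)
  refine ⟨Ca * (8 : ℝ) ^ (c / 4) + 1, c / 4, i0, by positivity, by positivity, ?_⟩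
  intro i hi ξ hV hnear
  obtain ⟨β, hβ, hβξ⟩ := hnear
  have hQ1 := Qf_pos i
  obtain ⟨q, hq⟩ := exists_mind (Qf i) hQ1 β hβ
  have hqQ := mind_dvd q (Qf i) β hq hβ
  have hqx : xx i < q := by
    by_contra hcon
    push Not at hcon
    exact hV ⟨q, hq.1, hcon, β, hq.2.1, hβξ⟩
  have hxpos : (0 : ℝ) < xx i := by exact_mod_cast xx_pos i
  have h1 : ‖a (Qf i) β‖ ≤ Ca * ((8 : ℝ) ^ (c / 4) * (2 : ℝ) ^ (-(c / 4 * i))) := by
    rw [a_dvd q (Qf i) hq.1 hQ1 hqQ β hq.2.1]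
    refine (hdec q β hq).trans (mul_le_mul_of_nonneg_left ?_ hCa.le)
    refine le_trans ?_ (PC2_xx c hc i)
    exact Real.rpow_le_rpow_of_nonpos hxpos (by exact_mod_cast hqx.le) (by linarith)
  have h2 : ‖a (Qf i) ξ - a (Qf i) β‖ ≤ (2 : ℝ) ^ (-(1 * (i : ℝ))) := by
    have h3 := a_lip (Qf i) β (ξ - β)
    rw [add_sub_cancel] at h3
    refine h3.trans ?_
    have h4 := PC2_M (tau_pos i).le (Qf i) hQ1 (ξ - β) hβξ
    have h5 := hi0 i hi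
    rw [Real.rpow_one] at h5
    have h6 := PC2_tiny (by positivity) (tau_pos i).le i d h5
    calc 7 * M (ξ - β) (Qf i) ≤ 7 * (d * (Qf i : ℝ) ^ d * tau i) := by gcongr
      _ = 7 * d * (Qf i : ℝ) ^ d * tau i := by ring
      _ ≤ _ := h6
  have h3 : (2 : ℝ) ^ (-(1 * (i : ℝ))) ≤ (2 : ℝ) ^ (-(c / 4 * (i : ℝ))) :=
    PC2_two (by linarith) i
  calc ‖a (Qf i) ξ‖ = ‖a (Qf i) β + (a (Qf i) ξ - a (Qf i) β)‖ := by rw [add_sub_cancel]
    _ ≤ ‖a (Qf i) β‖ + ‖a (Qf i) ξ - a (Qf i) β‖ := norm_add_le _ _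
    _ ≤ Ca * ((8 : ℝ) ^ (c / 4) * (2 : ℝ) ^ (-(c / 4 * i))) + (2 : ℝ) ^ (-(c / 4 * (i : ℝ))) :=
        add_le_add h1 (h2.trans h3)
    _ = (Ca * (8 : ℝ) ^ (c / 4) + 1) * (2 : ℝ) ^ (-(c / 4 * i)) := by ring
/- END PC2 -/

/- MODULE PC3 -/
/-- Far from (1/Q) Z^d the box average is small: some l has |xi_l - z/Q| > t for all integers z
(otherwise choose beta), so nrm (Q xi_l) ≥ Q t, and b_dec with N^(l+1) ≥ N. -/
theorem b_far (Q : ℕ) (hQ : 1 ≤ Q) (t : ℝ) (ht : 0 < t) (ξ : Fin d → ℝ) (h : ¬ nearQ Q t ξ)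
    (N : ℕ) (hN : 1 ≤ N) : ‖b N Q ξ‖ * (2 * (N * t)) ≤ 1 := by
  obtain ⟨hD, hR⟩ := PC1_round Q hQ ξ
  have h1 : ∃ l, t < |ξ l - (round ((Q : ℝ) * ξ l) : ℝ) / Q| := by
    by_contra hcon
    push Not at hcon
    exact h ⟨_, hD, hcon⟩
  obtain ⟨l, hl⟩ := h1
  have hQ0 : (0 : ℝ) < Q := by exact_mod_cast hQ
  have hN0 : (1 : ℝ) ≤ N := by exact_mod_cast hN
  have h2 : (Q : ℝ) * t ≤ nrm (Q * ξ l) := by
    rw [← hR l]
    exact mul_le_mul_of_nonneg_left hl.le hQ0.le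
  have h3 : (N : ℝ) ≤ (N : ℝ) ^ ((l : ℕ) + 1) := le_self_pow₀ hN0 (by omega)
  have h4 : (N : ℝ) * (Q * t) ≤ (N : ℝ) ^ ((l : ℕ) + 1) * nrm (Q * ξ l) :=
    mul_le_mul h3 h2 (by positivity) (by positivity)
  have h5 : ‖b N Q ξ‖ * (2 * (N * t)) * Q ≤ 1 * Q := by
    calc ‖b N Q ξ‖ * (2 * (N * t)) * Q = ‖b N Q ξ‖ * (2 * (N * (Q * t))) := by ring
      _ ≤ ‖b N Q ξ‖ * (2 * ((N : ℝ) ^ ((l : ℕ) + 1) * nrm (Q * ξ l))) := by gcongr
      _ ≤ Q := b_dec N Q hQ ξ l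
      _ = 1 * Q := (one_mul _).symm
  exact le_of_mul_le_mul_right h5 hQ0
/- END PC3 -/

/- MODULE PC4 -/
private theorem PC4_big (C : ℝ) {c : ℝ} (hc : 0 < c) :
    ∃ i0 : ℕ, ∀ i : ℕ, i0 ≤ i → C * (2 : ℝ) ^ (-(c * i)) ≤ 1 := by
  obtain ⟨n, hn⟩ := exists_nat_ge C
  obtain ⟨i0, hi0⟩ := exists_nat_ge ((n : ℝ) / c)
  refine ⟨i0, fun i hi => ?_⟩
  rw [Real.rpow_neg (by norm_num), ← div_eq_mul_inv,
    div_le_one (Real.rpow_pos_of_pos (by norm_num) _)]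
  have h1 : (n : ℝ) ≤ c * i := by
    have h2 : (i0 : ℝ) ≤ i := by exact_mod_cast hi
    have h3 := (div_le_iff₀ hc).1 (hi0.trans h2)
    linarith
  calc C ≤ n := hn
    _ ≤ 2 ^ n := by exact_mod_cast Nat.lt_two_pow_self.le
    _ = (2 : ℝ) ^ (n : ℝ) := (Real.rpow_natCast 2 n).symm
    _ ≤ (2 : ℝ) ^ (c * i) := Real.rpow_le_rpow_of_exponent_le (by norm_num) h1

private theorem PC4_far {u : ℕ} (hu : 1 ≤ u) {i : ℕ} (hi : 1 ≤ i) (ξ : Fin d → ℝ)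
    (h : ¬ nearQ (Qf i) (tau i) ξ) {k : ℕ} (hk : 2 ^ i ≤ k) :
    2 * ‖b (Nk u k) (Qf i) ξ‖ ≤ tau i := by
  have ht := tau_pos i
  have h1 := b_far (Qf i) (Qf_pos i) (tau i) ht ξ h (Nk u k)
    ((Nat.one_le_two_pow).trans (PC1_Nk hu k))
  have h2 := tau_sq i hi
  have h3 := PC1_Nk' hu hk
  have h4 : ‖b (Nk u k) (Qf i) ξ‖ * (2 * (2 ^ 2 ^ i * tau i)) ≤ 1 := by
    refine le_trans ?_ h1
    gcongr
  calc 2 * ‖b (Nk u k) (Qf i) ξ‖ = 2 * ‖b (Nk u k) (Qf i) ξ‖ * (tau i ^ 2 * 2 ^ 2 ^ i) := by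
        rw [h2, mul_one]
    _ = ‖b (Nk u k) (Qf i) ξ‖ * (2 * (2 ^ 2 ^ i * tau i)) * tau i := by ring
    _ ≤ 1 * tau i := mul_le_mul_of_nonneg_right h4 ht.le
    _ = tau i := one_mul _

/-- Variation of E in a block outside the major set. E = a - a_Q b. The a-part: by a_small (C1 2^(-c i)
at every k ≥ 2^i, so the increments are ≤ 2 C1 2^(-c i)) and var_cnt with the constant of a_cnt
(x k = |a (Nk u (k+1)) xi - a (Nk u k) xi|), at most C' (2^(-c i))^(1/2). The model part: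
|a (Qf i) xi| * sum of |b_(k+1) - b_k|; if nearQ (Qf i) (tau i) xi use aQ_small and b_var; otherwise
b_far: |b| ≤ 1/(2 Nk tau) ≤ 2^(-2^i) * 2^(2^(i-1)), and the block has 2^i scales. -/
theorem E_var (d u : ℕ) (hu : 1 ≤ u) :
    ∃ (C c : ℝ) (i0 : ℕ), 0 < C ∧ 0 < c ∧ ∀ i : ℕ, i0 ≤ i → ∀ ξ : Fin d → ℝ, ¬ V i ξ →
      ‖E u i (2 ^ i) ξ‖
        + ∑ k ∈ Ico (2 ^ i) (2 ^ (i + 1)), ‖E u i (k + 1) ξ - E u i k ξ‖
        ≤ C * (2 : ℝ) ^ (-(c * i)) := by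
  obtain ⟨C1, c1, i1, hC1, hc1, h1⟩ := a_small d
  obtain ⟨C2, c2, i2, hC2, hc2, h2⟩ := aQ_small d
  obtain ⟨C3, hC3, h3⟩ := a_cnt d
  obtain ⟨C4, hC4, h4⟩ := var_cnt C3 hC3
  obtain ⟨C5, hC5, h5⟩ := b_var d
  obtain ⟨i3, h6⟩ := PC1_tau 2 (c := 1) one_pos 2
  obtain ⟨i4, h7⟩ := PC4_big (2 * C1) hc1
  obtain ⟨c, hcd⟩ : ∃ c, c = min (min (c1 / 2) c2) 1 := ⟨_, rfl⟩
  have hc : 0 < c := by
    rw [hcd]
    exact lt_min (lt_min (by linarith) hc2) one_pos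
  have hca : c ≤ c1 / 2 := by rw [hcd]; exact (min_le_left _ _).trans (min_le_left _ _)
  have hcb : c ≤ c2 := by rw [hcd]; exact (min_le_left _ _).trans (min_le_right _ _)
  have hcc : c ≤ 1 := by rw [hcd]; exact min_le_right _ _
  refine ⟨C1 + C4 * Real.sqrt (2 * C1) + (C2 * (1 + C5) + 1), c,
    max 1 (max (max i1 i2) (max i3 i4)), by positivity, hc, ?_⟩
  intro i hi ξ hV
  have hi1 : 1 ≤ i := (le_max_left _ _).trans hi
  have hia : i1 ≤ i := by omega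
  have hib : i2 ≤ i := by omega
  have hic : i3 ≤ i := by omega
  have hid : i4 ≤ i := by omega
  have ht := tau_pos i
  -- the exponential sums
  have ha : ∀ k, 2 ^ i ≤ k → ‖a (Nk u k) ξ‖ ≤ C1 * (2 : ℝ) ^ (-(c1 * i)) := h1 u hu i hia ξ hV
  have hpos1 : (0 : ℝ) < (2 : ℝ) ^ (-(c1 * i)) := Real.rpow_pos_of_pos (by norm_num) _
  have hasum : ∑ k ∈ Ico (2 ^ i) (2 ^ (i + 1)), ‖a (Nk u (k + 1)) ξ - a (Nk u k) ξ‖ ≤
      C4 * Real.sqrt (2 * C1 * (2 : ℝ) ^ (-(c1 * i))) := by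
    refine h4 (fun k => ‖a (Nk u (k + 1)) ξ - a (Nk u k) ξ‖) (fun k => norm_nonneg _)
      (fun D hD K => h3 u hu ξ D hD K) _ (by positivity) (h7 i hid) _ ?_
    intro k hk
    rw [Finset.mem_Ico] at hk
    have h8 := ha k hk.1
    have h9 := ha (k + 1) (by omega)
    have h10 := norm_sub_le (a (Nk u (k + 1)) ξ) (a (Nk u k) ξ)
    linarith
  have hsqrt : Real.sqrt (2 * C1 * (2 : ℝ) ^ (-(c1 * i))) =
      Real.sqrt (2 * C1) * (2 : ℝ) ^ (-(c1 / 2 * i)) := by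
    rw [Real.sqrt_mul (by positivity), Real.sqrt_eq_rpow ((2 : ℝ) ^ (-(c1 * (i : ℝ)))),
      ← Real.rpow_mul (by norm_num)]
    congr 2
    ring
  -- the model
  have hbsum : ∑ k ∈ Ico (2 ^ i) (2 ^ (i + 1)), ‖b (Nk u (k + 1)) (Qf i) ξ - b (Nk u k) (Qf i) ξ‖
      ≤ C5 := by
    refine le_trans ?_ (h5 u (Qf i) hu (Qf_pos i) ξ (2 ^ (i + 1)))
    apply Finset.sum_le_sum_of_subset_of_nonneg
    · intro k hk
      rw [Finset.mem_Ico] at hk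
      exact Finset.mem_range.2 hk.2
    · intro k _ _
      exact norm_nonneg _
  have hmod : ‖a (Qf i) ξ‖ * (‖b (Nk u (2 ^ i)) (Qf i) ξ‖ +
      ∑ k ∈ Ico (2 ^ i) (2 ^ (i + 1)), ‖b (Nk u (k + 1)) (Qf i) ξ - b (Nk u k) (Qf i) ξ‖) ≤
      (C2 * (1 + C5) + 1) * (2 : ℝ) ^ (-(c * i)) := by
    have hPc : (0 : ℝ) < (2 : ℝ) ^ (-(c * i)) := Real.rpow_pos_of_pos (by norm_num) _
    by_cases hn : nearQ (Qf i) (tau i) ξ
    · have h8 := (h2 i hib ξ hV hn).trans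
        (mul_le_mul_of_nonneg_left (PC2_two hcb i) hC2.le)
      have h9 := b_norm_le (Nk u (2 ^ i)) (Qf i) ξ
      calc ‖a (Qf i) ξ‖ * (‖b (Nk u (2 ^ i)) (Qf i) ξ‖ +
          ∑ k ∈ Ico (2 ^ i) (2 ^ (i + 1)), ‖b (Nk u (k + 1)) (Qf i) ξ - b (Nk u k) (Qf i) ξ‖)
          ≤ (C2 * (2 : ℝ) ^ (-(c * i))) * (1 + C5) := by
            apply mul_le_mul h8 (add_le_add h9 hbsum) (by positivity) (by positivity)
        _ ≤ (C2 * (1 + C5) + 1) * (2 : ℝ) ^ (-(c * i)) := by nlinarith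
    · have h8 := a_norm_le (Qf i) ξ
      have h9 : ∑ k ∈ Ico (2 ^ i) (2 ^ (i + 1)),
          ‖b (Nk u (k + 1)) (Qf i) ξ - b (Nk u k) (Qf i) ξ‖ ≤ 2 ^ i * tau i := by
        have h10 : ∀ k ∈ Ico (2 ^ i) (2 ^ (i + 1)),
            ‖b (Nk u (k + 1)) (Qf i) ξ - b (Nk u k) (Qf i) ξ‖ ≤ tau i := by
          intro k hk
          rw [Finset.mem_Ico] at hk
          have h11 := PC4_far hu hi1 ξ hn hk.1
          have h12 := PC4_far hu hi1 ξ hn (show 2 ^ i ≤ k + 1 by omega)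
          have h13 := norm_sub_le (b (Nk u (k + 1)) (Qf i) ξ) (b (Nk u k) (Qf i) ξ)
          linarith
        refine (Finset.sum_le_card_nsmul _ _ _ h10).trans (le_of_eq ?_)
        rw [Nat.card_Ico, nsmul_eq_mul, pow_succ]
        have h14 : 2 ^ i * 2 - 2 ^ i = 2 ^ i := by omega
        rw [h14]
        push_cast
        ring
      have h10 := PC4_far hu hi1 ξ hn (le_refl (2 ^ i))
      have h11 := h6 i hic
      rw [Real.rpow_one] at h11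
      have h2i : (1 : ℝ) ≤ 2 ^ i := one_le_pow₀ (by norm_num)
      have hQ : (1 : ℝ) ≤ Qf i := by exact_mod_cast Qf_pos i
      have h12 : 2 * (Qf i : ℝ) ^ 0 * (2 ^ i * tau i) ≤ (2 : ℝ) ^ (-(1 * (i : ℝ))) := by
        apply PC2_tiny (by norm_num) (by positivity) i 0
        refine le_trans ?_ h11
        have h13 : (2 : ℝ) ^ i ≤ 2 ^ i * (Qf i : ℝ) := by nlinarith
        calc 2 * (2 ^ i * (Qf i : ℝ)) ^ (0 + 1) * (2 ^ i * tau i)
            ≤ 2 * (2 ^ i * (Qf i : ℝ)) ^ (0 + 1) * ((2 ^ i * (Qf i : ℝ)) * tau i) := by gcongr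
          _ = 2 * (2 ^ i * (Qf i : ℝ)) ^ 2 * tau i := by ring
      rw [pow_zero, mul_one] at h12
      have h13 := h12.trans (PC2_two hcc i)
      have hS : 0 ≤ ‖b (Nk u (2 ^ i)) (Qf i) ξ‖ + ∑ k ∈ Ico (2 ^ i) (2 ^ (i + 1)),
          ‖b (Nk u (k + 1)) (Qf i) ξ - b (Nk u k) (Qf i) ξ‖ := by positivity
      have hS2 : ‖b (Nk u (2 ^ i)) (Qf i) ξ‖ + ∑ k ∈ Ico (2 ^ i) (2 ^ (i + 1)),
          ‖b (Nk u (k + 1)) (Qf i) ξ - b (Nk u k) (Qf i) ξ‖ ≤ (2 : ℝ) ^ (-(c * i)) := by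
        have h15 : tau i ≤ 2 ^ i * tau i := by nlinarith
        linarith
      calc ‖a (Qf i) ξ‖ * (‖b (Nk u (2 ^ i)) (Qf i) ξ‖ + ∑ k ∈ Ico (2 ^ i) (2 ^ (i + 1)),
          ‖b (Nk u (k + 1)) (Qf i) ξ - b (Nk u k) (Qf i) ξ‖) ≤ 1 * (2 : ℝ) ^ (-(c * i)) :=
            mul_le_mul h8 hS2 hS (by norm_num)
        _ ≤ (C2 * (1 + C5) + 1) * (2 : ℝ) ^ (-(c * i)) := by
            apply mul_le_mul_of_nonneg_right _ hPc.le
            have : 0 ≤ C2 * (1 + C5) := by positivity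
            linarith
  -- together
  have hE : ∀ k, ‖E u i (k + 1) ξ - E u i k ξ‖ ≤ ‖a (Nk u (k + 1)) ξ - a (Nk u k) ξ‖ +
      ‖a (Qf i) ξ‖ * ‖b (Nk u (k + 1)) (Qf i) ξ - b (Nk u k) (Qf i) ξ‖ := by
    intro k
    have h8 : E u i (k + 1) ξ - E u i k ξ = (a (Nk u (k + 1)) ξ - a (Nk u k) ξ) -
        a (Qf i) ξ * (b (Nk u (k + 1)) (Qf i) ξ - b (Nk u k) (Qf i) ξ) := by
      unfold E
      ring
    rw [h8, ← norm_mul]
    exact norm_sub_le _ _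
  have hE0 : ‖E u i (2 ^ i) ξ‖ ≤ ‖a (Nk u (2 ^ i)) ξ‖ +
      ‖a (Qf i) ξ‖ * ‖b (Nk u (2 ^ i)) (Qf i) ξ‖ := by
    unfold E
    rw [← norm_mul]
    exact norm_sub_le _ _
  have hEs : ∑ k ∈ Ico (2 ^ i) (2 ^ (i + 1)), ‖E u i (k + 1) ξ - E u i k ξ‖ ≤
      ∑ k ∈ Ico (2 ^ i) (2 ^ (i + 1)), ‖a (Nk u (k + 1)) ξ - a (Nk u k) ξ‖ +
      ‖a (Qf i) ξ‖ * ∑ k ∈ Ico (2 ^ i) (2 ^ (i + 1)),
        ‖b (Nk u (k + 1)) (Qf i) ξ - b (Nk u k) (Qf i) ξ‖ := by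
    rw [Finset.mul_sum, ← Finset.sum_add_distrib]
    exact Finset.sum_le_sum fun k _ => hE k
  have h8 := ha (2 ^ i) le_rfl
  have h9 := mul_le_mul_of_nonneg_left (PC2_two (show c ≤ c1 by linarith) i) hC1.le
  have h10 : C4 * Real.sqrt (2 * C1 * (2 : ℝ) ^ (-(c1 * i))) ≤
      C4 * Real.sqrt (2 * C1) * (2 : ℝ) ^ (-(c * i)) := by
    rw [hsqrt, ← mul_assoc]
    exact mul_le_mul_of_nonneg_left (PC2_two hca i) (by positivity)
  have h11 : (C1 + C4 * Real.sqrt (2 * C1) + (C2 * (1 + C5) + 1)) * (2 : ℝ) ^ (-(c * i)) =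
      C1 * (2 : ℝ) ^ (-(c * i)) + C4 * Real.sqrt (2 * C1) * (2 : ℝ) ^ (-(c * i)) +
      (C2 * (1 + C5) + 1) * (2 : ℝ) ^ (-(c * i)) := by ring
  rw [h11]
  rw [mul_add] at hmod
  linarith
/- END PC4 -/

/- MODULE PC5 -/
private theorem PC5_om_small {c x : ℝ} (hc : 0 < c) (hx : 0 ≤ x) (h : x ≤ 1) : om c x = x := by
  unfold om
  apply min_eq_left
  rcases hx.eq_or_lt with h0 | h0
  · rw [← h0, Real.zero_rpow (by linarith)]
  · calc x ≤ 1 := h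
      _ ≤ x ^ (-c) := Real.one_le_rpow_of_pos_of_le_one_of_nonpos h0 h (by linarith)

private theorem PC5_om_large {c x : ℝ} (hc : 0 < c) (h : 1 ≤ x) : om c x = x ^ (-c) := by
  unfold om
  apply min_eq_right
  exact (Real.rpow_le_one_of_one_le_of_nonpos h (by linarith)).trans h

private theorem PC5_om_nonneg {c x : ℝ} (hx : 0 ≤ x) : 0 ≤ om c x :=
  le_min hx (Real.rpow_nonneg hx _)

/-- E near a fraction with small denominator. m = M zeta N, N = Nk u k ≥ 2^(2^i), G = a q beta.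
b (beta + zeta) = b zeta (b_per, Den (Qf i) beta by dvd_Qf), a (Qf i) beta = G (a_dvd),
|a (Qf i) (beta + zeta) - G| ≤ 7 M zeta (Qf i) ≤ 7 d (Qf i)^d tau i (tiny).
Case m ≤ sqrt N: |a N (beta + zeta) - G a N zeta| ≤ (14 d+2) xx i (1 + sqrt N)/N (tiny), so
E = G (a N zeta - b N zeta) + tiny; |a N zeta - b N zeta| ≤ 14 m (a_one, b_one), and for m ≥ 1
|a N zeta| ≤ C1 (tau^c + m^(-c)) (a_far with q = 1, beta = 0), |b N zeta| ≤ d/m (b_dec').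
Case m > sqrt N: |a N (beta + zeta)| ≤ C1 ((q tau)^c + m^(-c)) is tiny, |b N zeta| ≤ d/m is tiny.
Tiny means ≤ 2^(-i)/4 for i large (par_growth, par_tau; tau^c * 2^(i+2) ≤ 1 for large i). -/
theorem E_near (d u : ℕ) (hu : 1 ≤ u) :
    ∃ (C c : ℝ) (i0 : ℕ), 0 < C ∧ 0 < c ∧ c ≤ 1 ∧ ∀ i : ℕ, i0 ≤ i → ∀ q : ℕ, 1 ≤ q → q ≤ xx i →
      ∀ β ζ : Fin d → ℝ, Den q β → (∀ l, |ζ l| ≤ tau i) → ∀ k : ℕ, 2 ^ i ≤ k →
        ‖E u i k (β + ζ)‖ ≤ C * ‖a q β‖ * om c (M ζ (Nk u k)) + (2 : ℝ) ^ (-(i : ℝ)) := by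
  obtain ⟨C1, c, hC1, hc, hc1, hfar⟩ := a_far d
  obtain ⟨B, hB⟩ : ∃ B : ℝ, B = 7 * d + 2 * (14 * d + 2) + 2 * C1 + d := ⟨_, rfl⟩
  have hd0 : (0 : ℝ) ≤ d := Nat.cast_nonneg _
  have hB0 : 0 ≤ B := by rw [hB]; positivity
  obtain ⟨i0, h0⟩ := PC1_tau B hc (d + 1 + 1)
  obtain ⟨i1, h1⟩ := PC1_tau 2 (c := 1) one_pos 1
  refine ⟨14 + C1 + d, c, max 1 (max i0 i1), by positivity, hc, hc1, ?_⟩
  intro i hi q hq1 hqx β ζ hβ hζ k hk
  have hi1 : 1 ≤ i := (le_max_left _ _).trans hi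
  have hia : i0 ≤ i := by omega
  have hib : i1 ≤ i := by omega
  have ht := tau_pos i
  have hQ1 := Qf_pos i
  have hQ : (1 : ℝ) ≤ Qf i := by exact_mod_cast hQ1
  have h2i : (1 : ℝ) ≤ 2 ^ i := one_le_pow₀ (by norm_num)
  have hqQ : q ∣ Qf i := dvd_Qf hq1 hqx
  have hqQ' : (q : ℝ) ≤ Qf i := by exact_mod_cast Nat.le_of_dvd hQ1 hqQ
  have hq1' : (1 : ℝ) ≤ q := by exact_mod_cast hq1
  have hNN := PC1_Nk' hu hk
  have hN1 : 1 ≤ Nk u k := (Nat.one_le_two_pow).trans (PC1_Nk hu k)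
  have hE : E u i k (β + ζ) = a (Nk u k) (β + ζ) - a (Qf i) (β + ζ) * b (Nk u k) (Qf i) (β + ζ) :=
    rfl
  obtain ⟨N, hN⟩ : ∃ N, N = Nk u k := ⟨_, rfl⟩
  rw [← hN] at hNN hN1 hE ⊢
  rw [b_per N (Qf i) β ζ (den_dvd q (Qf i) hqQ β hβ)] at hE
  have hN1' : (1 : ℝ) ≤ N := by exact_mod_cast hN1
  have hG : a (Qf i) β = a q β := a_dvd q (Qf i) hq1 hQ1 hqQ β hβ
  have hG1 : ‖a q β‖ ≤ 1 := a_norm_le q β
  have hb1 : ‖b N (Qf i) ζ‖ ≤ 1 := b_norm_le N (Qf i) ζ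
  have hm0 : 0 ≤ M ζ N := M_nonneg ζ N
  -- tau and its powers
  have h2 := h1 i hib
  rw [Real.rpow_one, pow_one] at h2
  have h2Q : tau i * (2 * (Qf i : ℝ)) ≤ 1 := by
    refine le_trans ?_ h2
    have h3 : (Qf i : ℝ) ≤ 2 ^ i * (Qf i : ℝ) := by nlinarith
    calc tau i * (2 * (Qf i : ℝ)) ≤ tau i * (2 * (2 ^ i * (Qf i : ℝ))) := by gcongr
      _ = 2 * (2 ^ i * (Qf i : ℝ)) * tau i := by ring
  have ht1 : tau i ≤ 1 := by nlinarith
  have htc0 : 0 < tau i ^ c := Real.rpow_pos_of_pos ht c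
  have htc : tau i ≤ tau i ^ c := by
    calc tau i = tau i ^ (1 : ℝ) := (Real.rpow_one _).symm
      _ ≤ tau i ^ c := Real.rpow_le_rpow_of_exponent_ge ht ht1 hc1
  obtain ⟨X, hX⟩ : ∃ X : ℝ, X = (Qf i : ℝ) ^ (d + 1) * tau i ^ c := ⟨_, rfl⟩
  have hX0 : 0 ≤ X := by rw [hX]; positivity
  have hQd : (Qf i : ℝ) ≤ (Qf i : ℝ) ^ (d + 1) := le_self_pow₀ hQ (by omega)
  have hXtc : tau i ^ c ≤ X := by
    rw [hX]
    nlinarith
  have hXQtc : (Qf i : ℝ) * tau i ^ c ≤ X := by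
    rw [hX]
    exact mul_le_mul_of_nonneg_right hQd htc0.le
  have hXQt : (Qf i : ℝ) * tau i ≤ X :=
    le_trans (mul_le_mul_of_nonneg_left htc (by positivity)) hXQtc
  have hXt : tau i ≤ X := htc.trans hXtc
  have hBX : B * X ≤ (2 : ℝ) ^ (-(i : ℝ)) := by
    have h3 := PC2_tiny hB0 htc0.le i (d + 1) (h0 i hia)
    rw [one_mul] at h3
    rw [hX, ← mul_assoc]
    exact h3
  -- first error
  have he1 : ‖a (Qf i) (β + ζ) - a q β‖ ≤ 7 * d * X := by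
    have h3 := a_lip (Qf i) β ζ
    rw [hG] at h3
    have h4 := PC2_M ht.le (Qf i) hQ1 ζ hζ
    refine h3.trans ?_
    have h5 : (Qf i : ℝ) ^ d * tau i ≤ X := by
      rw [hX]
      exact mul_le_mul (pow_le_pow_right₀ hQ (by omega)) htc ht.le (by positivity)
    calc 7 * M ζ (Qf i) ≤ 7 * (d * (Qf i : ℝ) ^ d * tau i) := by gcongr
      _ = 7 * d * ((Qf i : ℝ) ^ d * tau i) := by ring
      _ ≤ 7 * d * X := by gcongr
  have hE1 : ‖E u i k (β + ζ)‖ ≤ ‖a N (β + ζ) - a q β * b N (Qf i) ζ‖ + 7 * d * X := by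
    have h3 : E u i k (β + ζ) = (a N (β + ζ) - a q β * b N (Qf i) ζ) -
        (a (Qf i) (β + ζ) - a q β) * b N (Qf i) ζ := by
      rw [hE]
      ring
    rw [h3]
    refine (norm_sub_le _ _).trans ?_
    rw [norm_mul (a (Qf i) (β + ζ) - a q β)]
    have h4 : ‖a (Qf i) (β + ζ) - a q β‖ * ‖b N (Qf i) ζ‖ ≤ 7 * d * X * 1 :=
      mul_le_mul he1 hb1 (norm_nonneg _) (by positivity)
    linarith
  have hbm : ‖b N (Qf i) ζ‖ * M ζ N ≤ d :=
    b_dec' N (Qf i) hQ1 ζ fun l =>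
      (mul_le_mul_of_nonneg_right (hζ l) (by positivity)).trans h2Q
  -- the square root
  obtain ⟨s, hs⟩ : ∃ s : ℝ, s = Real.sqrt N := ⟨_, rfl⟩
  have hs0 : 0 ≤ s := by rw [hs]; exact Real.sqrt_nonneg _
  have hs2 : s * s = N := by rw [hs]; exact Real.mul_self_sqrt (by linarith)
  have hs1 : 1 ≤ s := by rw [hs]; exact Real.one_le_sqrt.2 hN1'
  have hst : 1 ≤ tau i * s := by
    have h3 := tau_sq i hi1
    have h4 : 1 ≤ (tau i * s) ^ 2 := by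
      calc (1 : ℝ) = tau i ^ 2 * 2 ^ 2 ^ i := h3.symm
        _ ≤ tau i ^ 2 * N := mul_le_mul_of_nonneg_left hNN (by positivity)
        _ = (tau i * s) ^ 2 := by rw [← hs2]; ring
    by_contra hcon
    push Not at hcon
    have h5 : 0 ≤ tau i * s := by positivity
    nlinarith
  have hom := PC5_om_nonneg (c := c) hm0
  rcases le_or_gt (M ζ N) s with hms | hms
  · -- near
    have h3 := a_fac q N hq1 hN1 β ζ hβ
    have h4 : (14 * d + 2) * (q : ℝ) * (1 + M ζ N) / N ≤ 2 * (14 * d + 2) * X := by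
      rw [div_le_iff₀ (by linarith)]
      have h5 : 1 + M ζ N ≤ 2 * s := by linarith
      have h6 : (q : ℝ) * s ≤ X * N := by
        calc (q : ℝ) * s ≤ (Qf i : ℝ) * s := mul_le_mul_of_nonneg_right hqQ' hs0
          _ ≤ (Qf i : ℝ) * s * (tau i * s) := le_mul_of_one_le_right (by positivity) hst
          _ = ((Qf i : ℝ) * tau i) * (s * s) := by ring
          _ ≤ X * N := by
              rw [hs2]
              exact mul_le_mul_of_nonneg_right hXQt (by linarith)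
      calc (14 * d + 2) * (q : ℝ) * (1 + M ζ N) ≤ (14 * d + 2) * (q : ℝ) * (2 * s) := by gcongr
        _ = 2 * (14 * d + 2) * ((q : ℝ) * s) := by ring
        _ ≤ 2 * (14 * d + 2) * (X * N) := by gcongr
        _ = 2 * (14 * d + 2) * X * N := by ring
    have h5 : ‖a N ζ - b N (Qf i) ζ‖ ≤ (14 + C1 + d) * om c (M ζ N) + C1 * X := by
      rcases le_or_gt (M ζ N) 1 with hm1 | hm1
      · rw [PC5_om_small hc hm0 hm1]
        have h6 := a_one N hN1 ζ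
        have h7 := b_one N (Qf i) ζ
        have h8 : a N ζ - b N (Qf i) ζ = (a N ζ - 1) - (b N (Qf i) ζ - 1) := by ring
        have h9 : 0 ≤ (C1 + d) * M ζ N := by positivity
        have h10 : 0 ≤ C1 * X := by positivity
        rw [h8]
        refine (norm_sub_le _ _).trans ?_
        linarith
      · rw [PC5_om_large hc hm1.le]
        have h6 := hfar 1 N (tau i) 0 ζ le_rfl hN1 ht.le
          (fun l => ⟨0, by simp⟩) hζ (by linarith)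
        rw [zero_add, Nat.cast_one, one_mul] at h6
        have hmc : 0 ≤ M ζ N ^ (-c) := Real.rpow_nonneg hm0 _
        have h7 : ‖b N (Qf i) ζ‖ ≤ d * M ζ N ^ (-c) := by
          have h8 : 1 ≤ M ζ N ^ (-c) * M ζ N := by
            calc (1 : ℝ) ≤ M ζ N ^ (1 - c) := Real.one_le_rpow hm1.le (by linarith)
              _ = M ζ N ^ (-c + 1) := by ring_nf
              _ = M ζ N ^ (-c) * M ζ N := Real.rpow_add_one (by linarith) _
          calc ‖b N (Qf i) ζ‖ ≤ ‖b N (Qf i) ζ‖ * (M ζ N ^ (-c) * M ζ N) :=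
                le_mul_of_one_le_right (norm_nonneg _) h8
            _ = ‖b N (Qf i) ζ‖ * M ζ N * M ζ N ^ (-c) := by ring
            _ ≤ d * M ζ N ^ (-c) := mul_le_mul_of_nonneg_right hbm hmc
        have h8 : C1 * tau i ^ c ≤ C1 * X := mul_le_mul_of_nonneg_left hXtc hC1.le
        refine (norm_sub_le _ _).trans ?_
        rw [mul_add] at h6
        rw [add_mul, add_mul]
        linarith
    have h6 : a N (β + ζ) - a q β * b N (Qf i) ζ = (a N (β + ζ) - a q β * a N ζ) +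
        a q β * (a N ζ - b N (Qf i) ζ) := by ring
    have h7 : ‖a N (β + ζ) - a q β * b N (Qf i) ζ‖ ≤ 2 * (14 * d + 2) * X +
        ‖a q β‖ * ((14 + C1 + d) * om c (M ζ N) + C1 * X) := by
      rw [h6]
      refine (norm_add_le _ _).trans (add_le_add (h3.trans h4) ?_)
      rw [norm_mul]
      exact mul_le_mul_of_nonneg_left h5 (norm_nonneg _)
    have h8 : ‖a q β‖ * (C1 * X) ≤ 1 * (C1 * X) :=
      mul_le_mul_of_nonneg_right hG1 (by positivity)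
    have h9 : 2 * (14 * d + 2) * X + C1 * X + 7 * d * X ≤ B * X := by
      have h10 : 0 ≤ (C1 + d) * X := by positivity
      rw [hB]
      linarith
    calc ‖E u i k (β + ζ)‖ ≤ _ := hE1
      _ ≤ (2 * (14 * d + 2) * X + ‖a q β‖ * ((14 + C1 + d) * om c (M ζ N) + C1 * X)) +
          7 * d * X := by linarith
      _ = (14 + C1 + d) * ‖a q β‖ * om c (M ζ N) + ‖a q β‖ * (C1 * X) +
          2 * (14 * d + 2) * X + 7 * d * X := by ring
      _ ≤ (14 + C1 + d) * ‖a q β‖ * om c (M ζ N) + B * X := by linarith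
      _ ≤ _ := by linarith
  · -- far
    have h3 := hfar q N (tau i) β ζ hq1 hN1 ht.le hβ hζ (by linarith)
    have hmpos : 0 < M ζ N := by linarith
    have htm : 1 ≤ tau i * M ζ N := hst.trans (mul_le_mul_of_nonneg_left hms.le ht.le)
    have h4 : M ζ N ^ (-c) ≤ X := by
      have h5 : (M ζ N)⁻¹ ≤ tau i := by
        rw [inv_eq_one_div, div_le_iff₀ hmpos]
        exact htm
      rw [Real.rpow_neg hm0, ← Real.inv_rpow hm0]
      exact (Real.rpow_le_rpow (by positivity) h5 hc.le).trans hXtc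
    have h5 : ((q : ℝ) * tau i) ^ c ≤ X := by
      rw [Real.mul_rpow (by positivity) ht.le]
      refine le_trans ?_ hXQtc
      apply mul_le_mul_of_nonneg_right _ htc0.le
      calc (q : ℝ) ^ c ≤ (q : ℝ) ^ (1 : ℝ) := Real.rpow_le_rpow_of_exponent_le hq1' hc1
        _ = q := Real.rpow_one _
        _ ≤ Qf i := hqQ'
    have h6 : ‖b N (Qf i) ζ‖ ≤ d * X := by
      calc ‖b N (Qf i) ζ‖ ≤ ‖b N (Qf i) ζ‖ * (tau i * M ζ N) :=
            le_mul_of_one_le_right (norm_nonneg _) htm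
        _ = ‖b N (Qf i) ζ‖ * M ζ N * tau i := by ring
        _ ≤ d * X := mul_le_mul hbm hXt ht.le hd0
    have h7 : ‖a N (β + ζ) - a q β * b N (Qf i) ζ‖ ≤ C1 * (X + X) + 1 * (d * X) := by
      refine (norm_sub_le _ _).trans (add_le_add (h3.trans ?_) ?_)
      · exact mul_le_mul_of_nonneg_left (add_le_add h5 h4) hC1.le
      · rw [norm_mul]
        exact mul_le_mul hG1 h6 (norm_nonneg _) (by norm_num)
    have h8 : C1 * (X + X) + 1 * (d * X) + 7 * d * X ≤ B * X := by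
      have h10 : 0 ≤ 2 * (14 * d + 2) * X := by positivity
      rw [hB]
      linarith
    have h9 : 0 ≤ (14 + C1 + d) * ‖a q β‖ * om c (M ζ N) := by positivity
    linarith
/- END PC5 -/

/- MODULE PC6 -/
/-- geometric sums over an injective family of exponents -/
private theorem PC6_geo {r : ℝ} (h0 : 0 ≤ r) (h1 : r < 1) {ι : Type} (s : Finset ι) (φ : ι → ℕ)
    (hφ : Set.InjOn φ s) : ∑ k ∈ s, r ^ φ k ≤ (1 - r)⁻¹ := by
  classical
  have h2 : ∑ k ∈ s, r ^ φ k = ∑ j ∈ s.image φ, r ^ j := by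
    rw [Finset.sum_image hφ]
  rw [h2]
  have h3 : s.image φ ⊆ range ((s.image φ).sup id + 1) := by
    intro j hj
    rw [Finset.mem_range]
    have := Finset.le_sup (f := id) hj
    simp only [id] at this
    omega
  refine (Finset.sum_le_sum_of_subset_of_nonneg h3 fun _ _ _ => pow_nonneg h0 _).trans ?_
  have h4 := mul_neg_geom_sum r ((s.image φ).sup id + 1)
  have h5 : 0 < 1 - r := by linarith
  rw [← one_div, le_div_iff₀ h5, mul_comm, h4]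
  have := pow_nonneg h0 ((s.image φ).sup id + 1)
  linarith

private theorem PC6_om_nonneg {c x : ℝ} (hx : 0 ≤ x) : 0 ≤ om c x :=
  le_min hx (Real.rpow_nonneg hx _)

private theorem PC6_om_le {c x : ℝ} : om c x ≤ x := min_le_left _ _

private theorem PC6_double (u k : ℕ) (ζ : Fin d → ℝ) :
    2 * M ζ (Nk u k) ≤ M ζ (Nk u (k + 1)) := by
  unfold M
  rw [Finset.mul_sum]
  refine Finset.sum_le_sum fun l _ => ?_
  have h1 : ((Nk u (k + 1) : ℕ) : ℝ) = 2 * (Nk u k : ℕ) := by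
    unfold Nk
    push_cast
    ring
  rw [h1, mul_pow]
  have h2 : (2 : ℝ) ≤ 2 ^ ((l : ℕ) + 1) := by
    calc (2 : ℝ) = 2 ^ 1 := (pow_one _).symm
      _ ≤ _ := pow_le_pow_right₀ (by norm_num) (by omega)
  have h3 : 0 ≤ |ζ l| * (Nk u k : ℝ) ^ ((l : ℕ) + 1) := by positivity
  nlinarith

private theorem PC6_iter (u : ℕ) (ζ : Fin d → ℝ) (k j : ℕ) :
    2 ^ j * M ζ (Nk u k) ≤ M ζ (Nk u (k + j)) := by
  induction j with
  | zero => simp
  | succ j ih =>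
    have h1 := PC6_double u (k + j) ζ
    calc (2 : ℝ) ^ (j + 1) * M ζ (Nk u k) = 2 * (2 ^ j * M ζ (Nk u k)) := by ring
      _ ≤ 2 * M ζ (Nk u (k + j)) := by linarith
      _ ≤ _ := h1

/-- Sum of om^2 over the scales. M zeta (Nk u (k+1)) ≥ 2 M zeta (Nk u k). om ≤ 1 always, om c x = x for
x ≤ 1, om c x = x^(-c) for x ≥ 1: geometric sums on both sides of the scale where M passes 1. -/
theorem om_sum (d : ℕ) (c : ℝ) (hc : 0 < c) (hc1 : c ≤ 1) :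
    ∃ C : ℝ, 0 < C ∧ ∀ (u : ℕ), 1 ≤ u → ∀ (ζ : Fin d → ℝ) (s : Finset ℕ),
      ∑ k ∈ s, om c (M ζ (Nk u k)) ^ 2 ≤ C := by
  classical
  have hr0 : (0 : ℝ) ≤ (2 : ℝ) ^ (-(2 * c)) := Real.rpow_nonneg (by norm_num) _
  have hr1 : (2 : ℝ) ^ (-(2 * c)) < 1 := Real.rpow_lt_one_of_one_lt_of_neg (by norm_num) (by linarith)
  have hr2 : 0 < (1 - (2 : ℝ) ^ (-(2 * c)))⁻¹ := inv_pos.2 (by linarith)
  refine ⟨(1 - (1 / 4 : ℝ))⁻¹ + (1 - (2 : ℝ) ^ (-(2 * c)))⁻¹, by positivity, fun u hu ζ s => ?_⟩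
  rw [← Finset.sum_filter_add_sum_filter_not s (fun k => M ζ (Nk u k) ≤ 1)]
  apply add_le_add
  · rcases (s.filter (fun k => M ζ (Nk u k) ≤ 1)).eq_empty_or_nonempty with he | hne
    · rw [he, Finset.sum_empty]
      norm_num
    obtain ⟨K, hK, hmax⟩ := Finset.exists_max_image _ (fun k : ℕ => k) hne
    have hK1 := (Finset.mem_filter.1 hK).2
    refine le_trans (Finset.sum_le_sum (g := fun k => (1 / 4 : ℝ) ^ (K - k)) ?_)
      (PC6_geo (by norm_num) (by norm_num) _ (fun k => K - k) ?_)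
    · intro k hk
      have h1 := hmax k hk
      obtain ⟨j, rfl⟩ := Nat.exists_eq_add_of_le h1
      have h2 := PC6_iter u ζ k j
      have h3 : M ζ (Nk u k) ≤ (1 / 2 : ℝ) ^ j := by
        rw [one_div, inv_pow, ← one_div, le_div_iff₀ (by positivity)]
        linarith
      have h4 : om c (M ζ (Nk u k)) ≤ (1 / 2 : ℝ) ^ j := PC6_om_le.trans h3
      have h5 := PC6_om_nonneg (c := c) (M_nonneg ζ (Nk u k))
      rw [Nat.add_sub_cancel_left]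
      calc om c (M ζ (Nk u k)) ^ 2 ≤ ((1 / 2 : ℝ) ^ j) ^ 2 := pow_le_pow_left₀ h5 h4 2
        _ = (1 / 4 : ℝ) ^ j := by
          rw [← pow_mul, mul_comm, pow_mul]
          norm_num
    · intro k hk k' hk' h
      have h1 := hmax k hk
      have h2 := hmax k' hk'
      simp only at h
      omega
  · rcases (s.filter (fun k => ¬ M ζ (Nk u k) ≤ 1)).eq_empty_or_nonempty with he | hne
    · rw [he, Finset.sum_empty]
      exact hr2.le
    obtain ⟨K, hK, hmin⟩ := Finset.exists_min_image _ (fun k : ℕ => k) hne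
    have hK1 := not_le.1 (Finset.mem_filter.1 hK).2
    refine le_trans (Finset.sum_le_sum (g := fun k => ((2 : ℝ) ^ (-(2 * c))) ^ (k - K)) ?_)
      (PC6_geo hr0 hr1 _ (fun k => k - K) ?_)
    · intro k hk
      have h1 := hmin k hk
      obtain ⟨j, rfl⟩ := Nat.exists_eq_add_of_le h1
      have h2 := PC6_iter u ζ K j
      have h3 : (2 : ℝ) ^ j ≤ M ζ (Nk u (K + j)) := by
        have h6 : (0 : ℝ) < 2 ^ j := by positivity
        nlinarith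
      have h5 := PC6_om_nonneg (c := c) (M_nonneg ζ (Nk u (K + j)))
      have h4 : om c (M ζ (Nk u (K + j))) ≤ ((2 : ℝ) ^ j) ^ (-c) := by
        refine (min_le_right _ _).trans ?_
        exact Real.rpow_le_rpow_of_nonpos (by positivity) h3 (by linarith)
      rw [Nat.add_sub_cancel_left]
      calc om c (M ζ (Nk u (K + j))) ^ 2 ≤ (((2 : ℝ) ^ j) ^ (-c)) ^ 2 := pow_le_pow_left₀ h5 h4 2
        _ = ((2 : ℝ) ^ (-(2 * c))) ^ j := by
          rw [← Real.rpow_natCast 2 j, ← Real.rpow_mul (by norm_num), ← Real.rpow_natCast _ 2,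
            ← Real.rpow_mul (by norm_num), ← Real.rpow_natCast _ j, ← Real.rpow_mul (by norm_num)]
          congr 1
          push_cast
          ring
    · intro k hk k' hk' h
      have h1 := hmin k hk
      have h2 := hmin k' hk'
      simp only at h
      omega

/-- If zeta is already tiny for a later block, the sum over block i is at most 2^(-i):
M zeta (Nk u k) ≤ d tau_(i+w) (u 2^(2^(i+1)))^d for k < 2^(i+1), tau_(i+w) = 2^(-2^(i+w-1)); take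
w with 2^(w-1) ≥ 2 d + 2: M ≤ d u^d 2^(-2 * 2^i) ≤ 2^(-i) for i large; om ≤ M; 2^i terms. -/
theorem om_tiny (d u : ℕ) (hu : 1 ≤ u) (c : ℝ) (hc : 0 < c) (hc1 : c ≤ 1) :
    ∃ w i0 : ℕ, 1 ≤ w ∧ ∀ i : ℕ, i0 ≤ i → ∀ ζ : Fin d → ℝ, (∀ l, |ζ l| ≤ tau (i + w)) →
      ∑ k ∈ Ico (2 ^ i) (2 ^ (i + 1)), om c (M ζ (Nk u k)) ^ 2 ≤ (2 : ℝ) ^ (-(i : ℝ)) := by
  refine ⟨2 * d + 3, d * u ^ d, by omega, fun i hi ζ hζ => ?_⟩
  have hu1 : (1 : ℝ) ≤ u := by exact_mod_cast hu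
  have hpow : (2 : ℝ) ^ (-(i : ℝ)) = (1 / 2 : ℝ) ^ i := by
    rw [Real.rpow_neg (by norm_num), Real.rpow_natCast, one_div, inv_pow]
  rw [hpow]
  -- the bound for M
  have hM : ∀ k ∈ Ico (2 ^ i) (2 ^ (i + 1)), M ζ (Nk u k) ≤ (1 / 2 : ℝ) ^ i := by
    intro k hk
    have hk2 : k ≤ 2 * 2 ^ i := by
      have := (Finset.mem_Ico.1 hk).2
      rw [pow_succ] at this
      omega
    have htau : tau (i + (2 * d + 3)) ≤ (1 / 2 : ℝ) ^ ((2 * d + 2) * 2 ^ i) := by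
      unfold tau
      apply pow_le_pow_of_le_one (by norm_num) (by norm_num)
      rw [show i + (2 * d + 3) - 1 = i + (2 * d + 2) by omega, pow_add, mul_comm]
      exact Nat.mul_le_mul_left _ Nat.lt_two_pow_self.le
    have hNk : (1 : ℝ) ≤ (Nk u k : ℕ) := by
      have : 1 ≤ Nk u k := Nat.mul_pos hu (by positivity)
      exact_mod_cast this
    have h1 : M ζ (Nk u k) ≤ ∑ l : Fin d, (1 / 2 : ℝ) ^ ((2 * d + 2) * 2 ^ i) * (Nk u k : ℝ) ^ d := by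
      unfold M
      refine Finset.sum_le_sum fun l _ => ?_
      exact mul_le_mul ((hζ l).trans htau) (pow_le_pow_right₀ hNk l.2) (by positivity)
        (by positivity)
    rw [Finset.sum_const, Finset.card_univ, Fintype.card_fin, nsmul_eq_mul] at h1
    have h2 : (Nk u k : ℝ) ^ d ≤ (u : ℝ) ^ d * 2 ^ (2 * d * 2 ^ i) := by
      unfold Nk
      push_cast
      rw [mul_pow, ← pow_mul]
      apply mul_le_mul_of_nonneg_left _ (by positivity)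
      apply pow_le_pow_right₀ (by norm_num)
      calc k * d ≤ 2 * 2 ^ i * d := Nat.mul_le_mul_right _ hk2
        _ = 2 * d * 2 ^ i := by ring
    have h3 : (1 / 2 : ℝ) ^ ((2 * d + 2) * 2 ^ i) * 2 ^ (2 * d * 2 ^ i) =
        (1 / 2 : ℝ) ^ (2 ^ i) * (1 / 2 : ℝ) ^ (2 ^ i) := by
      have h33 : (1 / 2 : ℝ) ^ (2 * d * 2 ^ i) * 2 ^ (2 * d * 2 ^ i) = 1 := by
        rw [← mul_pow]
        norm_num
      rw [show (2 * d + 2) * 2 ^ i = 2 ^ i + 2 ^ i + 2 * d * 2 ^ i by ring, pow_add _ (2 ^ i + 2 ^ i),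
        pow_add, mul_assoc, h33, mul_one]
    have h4 : ((d * u ^ d : ℕ) : ℝ) * (1 / 2 : ℝ) ^ (2 ^ i) ≤ 1 := by
      have h5 : d * u ^ d ≤ 2 ^ 2 ^ i :=
        hi.trans (Nat.lt_two_pow_self.le.trans Nat.lt_two_pow_self.le)
      have h6 : ((d * u ^ d : ℕ) : ℝ) ≤ 2 ^ 2 ^ i := by exact_mod_cast h5
      calc ((d * u ^ d : ℕ) : ℝ) * (1 / 2 : ℝ) ^ (2 ^ i)
          ≤ 2 ^ 2 ^ i * (1 / 2 : ℝ) ^ (2 ^ i) := mul_le_mul_of_nonneg_right h6 (by positivity)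
        _ = 1 := by
          rw [← mul_pow]
          norm_num
    have h7 : (1 / 2 : ℝ) ^ (2 ^ i) ≤ (1 / 2 : ℝ) ^ i :=
      pow_le_pow_of_le_one (by norm_num) (by norm_num) Nat.lt_two_pow_self.le
    have h8 : (0 : ℝ) ≤ (1 / 2 : ℝ) ^ (2 ^ i) := by positivity
    calc M ζ (Nk u k) ≤ (d : ℝ) * ((1 / 2 : ℝ) ^ ((2 * d + 2) * 2 ^ i) * (Nk u k : ℝ) ^ d) := h1
      _ ≤ (d : ℝ) * ((1 / 2 : ℝ) ^ ((2 * d + 2) * 2 ^ i) *
          ((u : ℝ) ^ d * 2 ^ (2 * d * 2 ^ i))) := by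
        apply mul_le_mul_of_nonneg_left _ (Nat.cast_nonneg d)
        exact mul_le_mul_of_nonneg_left h2 (by positivity)
      _ = ((d : ℝ) * (u : ℝ) ^ d) * ((1 / 2 : ℝ) ^ ((2 * d + 2) * 2 ^ i) * 2 ^ (2 * d * 2 ^ i)) := by
        ring
      _ = (((d * u ^ d : ℕ) : ℝ) * (1 / 2 : ℝ) ^ (2 ^ i)) * (1 / 2 : ℝ) ^ (2 ^ i) := by
        rw [h3]
        push_cast
        ring
      _ ≤ 1 * (1 / 2 : ℝ) ^ (2 ^ i) := mul_le_mul_of_nonneg_right h4 h8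
      _ ≤ _ := by rw [one_mul]; exact h7
  refine (Finset.sum_le_sum (g := fun _ => (1 / 2 : ℝ) ^ i * (1 / 2 : ℝ) ^ i) ?_).trans ?_
  · intro k hk
    have h1 := PC6_om_nonneg (c := c) (M_nonneg ζ (Nk u k))
    have h2 : om c (M ζ (Nk u k)) ≤ (1 / 2 : ℝ) ^ i := PC6_om_le.trans (hM k hk)
    rw [sq]
    exact mul_le_mul h2 h2 h1 (by positivity)
  · rw [Finset.sum_const, Nat.card_Ico, nsmul_eq_mul,
      show 2 ^ (i + 1) - 2 ^ i = 2 ^ i by rw [pow_succ]; omega]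
    push_cast
    rw [← mul_assoc, ← mul_pow]
    norm_num
/- END PC6 -/

/- MODULE PC7 -/
/-- Separation of the fractions of two blocks: den_sep gives 1/(q q') ≤ 2 tau i, so
q' ≥ 1/(2 tau i xx i) ≥ 2 xx i ≥ 2 q for i large (par_tau). -/
theorem frac_sep (d : ℕ) :
    ∃ i0 : ℕ, ∀ i i' : ℕ, i0 ≤ i → i ≤ i' → ∀ (ξ β β' : Fin d → ℝ) (q q' : ℕ), 1 ≤ q → q ≤ xx i →
      1 ≤ q' → Den q β → Den q' β' → (∀ l, |ξ l - β l| ≤ tau i) → (∀ l, |ξ l - β' l| ≤ tau i') →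
      β ≠ β' → 2 * q ≤ q' := by
  obtain ⟨i0, h0⟩ := par_tau 2
  refine ⟨i0, fun i i' hi hii ξ β β' q q' hq hqx hq' hβ hβ' hn hn' hne => ?_⟩
  obtain ⟨l, hl⟩ := den_sep q q' hq hq' β β' hβ hβ' hne
  have h1 : |β l - β' l| ≤ 2 * tau i := by
    have h2 := abs_sub_le (β l) (ξ l) (β' l)
    rw [abs_sub_comm (β l) (ξ l)] at h2
    have h3 := hn l
    have h4 := (hn' l).trans (tau_anti hii)
    linarith
  by_contra hlt
  rw [not_le] at hlt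
  have hqR : (1 : ℝ) ≤ q := by exact_mod_cast hq
  have hqR' : (1 : ℝ) ≤ q' := by exact_mod_cast hq'
  have hltR : (q' : ℝ) < 2 * q := by exact_mod_cast hlt
  have hqQ : (q : ℝ) ≤ Qf i := by exact_mod_cast hqx.trans (xx_le_Qf i)
  have htau := tau_pos i
  have h5 : 1 ≤ 2 * tau i * (q * q') := by
    have h6 := hl.trans h1
    rwa [div_le_iff₀ (by positivity)] at h6
  have h7 := h0 i hi
  have h8 : (1 : ℝ) ≤ 2 ^ i := one_le_pow₀ (by norm_num)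
  have h9 : (2 * (q : ℝ)) ^ 2 ≤ (((2 : ℕ) : ℝ) * 2 ^ i * Qf i) ^ 2 := by
    apply pow_le_pow_left₀ (by positivity)
    push_cast
    nlinarith [mul_nonneg (sub_nonneg.2 h8) (zero_le_one.trans (hqR.trans hqQ))]
  have h10 : (2 * (q : ℝ)) ^ 2 * tau i ≤ 1 :=
    (mul_le_mul_of_nonneg_right h9 htau.le).trans h7
  have h11 : tau i * ((q : ℝ) * q') < tau i * ((q : ℝ) * (2 * q)) := by
    apply mul_lt_mul_of_pos_left _ htau
    exact mul_lt_mul_of_pos_left hltR (by linarith)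
  nlinarith
/- END PC7 -/

/- MODULE PC8 -/
/-- Sum over terminal blocks, abstract form. T a finite set of indices, w ≥ 1, q : T → N such that
for i < i' in T with i + w ≤ i' one has 2 q i ≤ q i'; all q i ≥ X. Then i ↦ (i mod w, log2 (q i)) is
injective on T (same residue and i < i' imply i + w ≤ i'), so the sum of (q i)^(-2c) is at most
w * sum over r ≥ log2 X of 2^(-2 c r) ≤ w C_c X^(-2c) 2^(2c). -/
theorem term_sum (w : ℕ) (hw : 1 ≤ w) (c : ℝ) (hc : 0 < c) :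
    ∃ C : ℝ, 0 < C ∧ ∀ (T : Finset ℕ) (q : ℕ → ℕ) (X : ℕ), 1 ≤ X → (∀ i ∈ T, X ≤ q i) →
      (∀ i ∈ T, ∀ i' ∈ T, i + w ≤ i' → 2 * q i ≤ q i') →
      ∑ i ∈ T, (q i : ℝ) ^ (-(2 * c)) ≤ C * (X : ℝ) ^ (-(2 * c)) := by
  classical
  have hr0 : (0 : ℝ) < (2 : ℝ) ^ (-(2 * c)) := Real.rpow_pos_of_pos (by norm_num) _
  have hr1 : (2 : ℝ) ^ (-(2 * c)) < 1 := Real.rpow_lt_one_of_one_lt_of_neg (by norm_num) (by linarith)
  have hr2 : 0 < (1 - (2 : ℝ) ^ (-(2 * c)))⁻¹ := inv_pos.2 (by linarith)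
  have hw0 : (0 : ℝ) < w := by exact_mod_cast hw
  refine ⟨w * ((2 : ℝ) ^ (2 * c) * (1 - (2 : ℝ) ^ (-(2 * c)))⁻¹), by positivity,
    fun T q X hX hq hsep => ?_⟩
  have hX0 : (0 : ℝ) < X := by exact_mod_cast hX
  -- the powers of two
  have hpow : ∀ n : ℕ, ((2 : ℝ) ^ n) ^ (-(2 * c)) = ((2 : ℝ) ^ (-(2 * c))) ^ n := by
    intro n
    rw [← Real.rpow_natCast 2 n, ← Real.rpow_mul (by norm_num), ← Real.rpow_natCast _ n,
      ← Real.rpow_mul (by norm_num)]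
    congr 1
    ring
  have hXlog : ((2 : ℝ) ^ (-(2 * c))) ^ Nat.log 2 X ≤ (2 : ℝ) ^ (2 * c) * (X : ℝ) ^ (-(2 * c)) := by
    have h1 : (X : ℝ) ≤ 2 ^ (Nat.log 2 X + 1) := by
      exact_mod_cast (Nat.lt_pow_succ_log_self (by norm_num) X).le
    have h2 : ((2 : ℝ) ^ (Nat.log 2 X + 1)) ^ (-(2 * c)) ≤ (X : ℝ) ^ (-(2 * c)) :=
      Real.rpow_le_rpow_of_nonpos hX0 h1 (by linarith)
    rw [hpow, pow_succ] at h2
    have h3 : (2 : ℝ) ^ (2 * c) * (2 : ℝ) ^ (-(2 * c)) = 1 := by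
      rw [← Real.rpow_add (by norm_num), add_neg_cancel, Real.rpow_zero]
    calc ((2 : ℝ) ^ (-(2 * c))) ^ Nat.log 2 X
        = (2 : ℝ) ^ (2 * c) * (((2 : ℝ) ^ (-(2 * c))) ^ Nat.log 2 X * (2 : ℝ) ^ (-(2 * c))) := by
          rw [mul_comm (((2 : ℝ) ^ (-(2 * c))) ^ Nat.log 2 X), ← mul_assoc, h3, one_mul]
      _ ≤ _ := mul_le_mul_of_nonneg_left h2 (by positivity)
  -- one residue class
  have hcl : ∀ ρ ∈ range w, ∑ i ∈ T.filter (fun i => i % w = ρ), (q i : ℝ) ^ (-(2 * c)) ≤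
      (2 : ℝ) ^ (2 * c) * (1 - (2 : ℝ) ^ (-(2 * c)))⁻¹ * (X : ℝ) ^ (-(2 * c)) := by
    intro ρ _
    have h1 : ∀ i ∈ T.filter (fun i => i % w = ρ), (q i : ℝ) ^ (-(2 * c)) ≤
        ((2 : ℝ) ^ (2 * c) * (X : ℝ) ^ (-(2 * c))) *
          ((2 : ℝ) ^ (-(2 * c))) ^ (Nat.log 2 (q i) - Nat.log 2 X) := by
      intro i hi
      have hqi := hq i (Finset.mem_filter.1 hi).1
      have hq0 : q i ≠ 0 := by omega
      have h2 : (2 : ℝ) ^ Nat.log 2 (q i) ≤ q i := by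
        exact_mod_cast Nat.pow_log_le_self 2 hq0
      have h3 : (q i : ℝ) ^ (-(2 * c)) ≤ ((2 : ℝ) ^ Nat.log 2 (q i)) ^ (-(2 * c)) :=
        Real.rpow_le_rpow_of_nonpos (by positivity) h2 (by linarith)
      have h4 : Nat.log 2 X ≤ Nat.log 2 (q i) := Nat.log_mono_right hqi
      rw [hpow] at h3
      refine h3.trans ?_
      calc ((2 : ℝ) ^ (-(2 * c))) ^ Nat.log 2 (q i)
          = ((2 : ℝ) ^ (-(2 * c))) ^ Nat.log 2 X *
            ((2 : ℝ) ^ (-(2 * c))) ^ (Nat.log 2 (q i) - Nat.log 2 X) := by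
            rw [← pow_add, Nat.add_sub_cancel' h4]
        _ ≤ _ := mul_le_mul_of_nonneg_right hXlog (by positivity)
    refine (Finset.sum_le_sum h1).trans ?_
    rw [← Finset.mul_sum]
    have h5 := PC6_geo hr0.le hr1 (T.filter (fun i => i % w = ρ))
      (fun i => Nat.log 2 (q i) - Nat.log 2 X) (by
        have hlt : ∀ i ∈ T.filter (fun i => i % w = ρ), ∀ i' ∈ T.filter (fun i => i % w = ρ),
            i < i' → Nat.log 2 (q i) < Nat.log 2 (q i') := by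
          intro i hi i' hi' hii
          obtain ⟨hi1, hi2⟩ := Finset.mem_filter.1 hi
          obtain ⟨hi1', hi2'⟩ := Finset.mem_filter.1 hi'
          have h6 : i + w ≤ i' := by
            have h7 : w ∣ i' - i :=
              (Nat.modEq_iff_dvd' hii.le).1 (hi2.trans hi2'.symm)
            have h8 := Nat.le_of_dvd (by omega) h7
            omega
          have h7 := hsep i hi1 i' hi1' h6
          have hqi := hq i hi1
          calc Nat.log 2 (q i) < Nat.log 2 (q i) + 1 := Nat.lt_succ_self _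
            _ = Nat.log 2 (2 * q i) := by
              rw [mul_comm, Nat.log_mul_base (by norm_num) (by omega)]
            _ ≤ Nat.log 2 (q i') := Nat.log_mono_right h7
        intro i hi i' hi' h
        simp only at h
        have hqi := Nat.log_mono_right (b := 2) (hq i (Finset.mem_filter.1 hi).1)
        have hqi' := Nat.log_mono_right (b := 2) (hq i' (Finset.mem_filter.1 hi').1)
        rcases lt_trichotomy i i' with h9 | h9 | h9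
        · have := hlt i hi i' hi' h9
          omega
        · exact h9
        · have := hlt i' hi' i hi h9
          omega)
    calc (2 : ℝ) ^ (2 * c) * (X : ℝ) ^ (-(2 * c)) *
          ∑ i ∈ T.filter (fun i => i % w = ρ),
            ((2 : ℝ) ^ (-(2 * c))) ^ (Nat.log 2 (q i) - Nat.log 2 X)
        ≤ (2 : ℝ) ^ (2 * c) * (X : ℝ) ^ (-(2 * c)) * (1 - (2 : ℝ) ^ (-(2 * c)))⁻¹ :=
          mul_le_mul_of_nonneg_left h5 (by positivity)
      _ = _ := by ring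
  rw [← Finset.sum_fiberwise_of_maps_to (t := range w) (g := fun i => i % w)
    (fun i _ => Finset.mem_range.2 (Nat.mod_lt _ hw))]
  refine (Finset.sum_le_sum hcl).trans (le_of_eq ?_)
  rw [Finset.sum_const, Finset.card_range, nsmul_eq_mul]
  ring
/- END PC8 -/

/- MODULE PC9 -/
/-- The square function of the errors on the major sets. For i in T = {i in [i1, I) : V i xi} choose
beta_i and its least denominator q_i ≤ xx i (exists_mind, mind is ≤ the q of V), zeta_i = xi - beta_i.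
By E_near |E|^2 ≤ 2 C^2 |a q_i beta_i|^2 om^2 + 2 * 4^(-i); the second terms sum to
sum over i of 2^i * 2 * 4^(-i) ≤ 4 * 2^(-i1). With w from om_tiny call i in T terminal if
beta_(i') ≠ beta_i for all i' in T with i + w ≤ i'. Non terminal: |zeta_i| = |xi - beta_(i')| ≤
tau i' ≤ tau (i+w), om_tiny: total ≤ 2 * 2^(-i1). Terminal: for terminal i < i' with i + w ≤ i' the
fractions differ, so 2 q_i ≤ q_(i') (frac_sep), and the sum of |a q_i beta_i|^2 * C_om ≤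
C sum of q_i^(-2c) (a_dec, om_sum) ≤ C' X^(-2c) by term_sum with X = 1, or X = xx s if xi is not near
(1/Q_s) Z^d within tau i1: then q_i ≤ xx s is impossible (q_i ∣ Qf s, Den (Qf s) beta_i,
|xi - beta_i| ≤ tau i ≤ tau i1). 2^s ≤ 8 (xx s)^4. -/
theorem E_sq (d u : ℕ) (hu : 1 ≤ u) :
    ∃ (C c : ℝ) (i0 : ℕ), 0 < C ∧ 0 < c ∧ ∀ (ξ : Fin d → ℝ) (i1 I : ℕ), i0 ≤ i1 →
      ∀ T : Finset ℕ, (∀ i ∈ T, i1 ≤ i ∧ i < I ∧ V i ξ) →
        (∑ i ∈ T, ∑ k ∈ Ico (2 ^ i) (2 ^ (i + 1)), ‖E u i k ξ‖ ^ 2 ≤ C) ∧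
        ∀ s : ℕ, i0 ≤ s → s ≤ i1 → ¬ nearQ (Qf s) (tau i1) ξ →
          ∑ i ∈ T, ∑ k ∈ Ico (2 ^ i) (2 ^ (i + 1)), ‖E u i k ξ‖ ^ 2
            ≤ C * (2 : ℝ) ^ (-(c * s)) := by
  classical
  obtain ⟨C1, c1, iA, hC1, hc1, hc1', hE⟩ := E_near d u hu
  obtain ⟨C4, hC4, hom⟩ := om_sum d c1 hc1 hc1'
  obtain ⟨w, iB, hw, htiny⟩ := om_tiny d u hu c1 hc1 hc1'
  obtain ⟨iC, hsep⟩ := frac_sep d
  obtain ⟨C2, c2, hC2, hc2, hc2', hdec⟩ := a_dec d
  obtain ⟨C3, hC3, hterm⟩ := term_sum w hw c2 hc2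
  -- the general bound
  have hmain : ∀ (ξ : Fin d → ℝ) (i1 I : ℕ), max iA (max iB iC) ≤ i1 →
      ∀ T : Finset ℕ, (∀ i ∈ T, i1 ≤ i ∧ i < I ∧ V i ξ) → ∀ X : ℕ, 1 ≤ X →
      (∀ i ∈ T, ∀ (q : ℕ) (β : Fin d → ℝ), 1 ≤ q → q ≤ xx i → Den q β →
        (∀ l, |ξ l - β l| ≤ tau i) → X ≤ q) →
      ∑ i ∈ T, ∑ k ∈ Ico (2 ^ i) (2 ^ (i + 1)), ‖E u i k ξ‖ ^ 2 ≤
        (4 + 4 * C1 ^ 2) * (1 / 2 : ℝ) ^ i1 +
          2 * C1 ^ 2 * C2 ^ 2 * C4 * C3 * (X : ℝ) ^ (-(2 * c2)) := by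
    intro ξ i1 I hi1 T hT X hX hXq
    have hch : ∀ i : ℕ, ∃ (β : Fin d → ℝ) (q : ℕ), i ∈ T →
        Mind q β ∧ q ≤ xx i ∧ ∀ l, |ξ l - β l| ≤ tau i := by
      intro i
      by_cases hi : i ∈ T
      · obtain ⟨q, hq, hqx, β, hβ, hn⟩ := (hT i hi).2.2
        obtain ⟨q0, hq0⟩ := exists_mind q hq β hβ
        exact ⟨β, q0, fun _ => ⟨hq0, (hq0.2.2 q hq hβ).trans hqx, hn⟩⟩
      · exact ⟨0, 0, fun h => absurd h hi⟩
    choose β q hβq using hch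
    have hXi : ∀ i ∈ T, X ≤ q i := fun i hi =>
      hXq i hi (q i) (β i) (hβq i hi).1.1 (hβq i hi).2.1 (hβq i hi).1.2.1 (hβq i hi).2.2
    have hpow : ∀ i : ℕ, (2 : ℝ) ^ (-(i : ℝ)) = (1 / 2 : ℝ) ^ i := fun i => by
      rw [Real.rpow_neg (by norm_num), Real.rpow_natCast, one_div, inv_pow]
    -- the sum over k
    have hk : ∀ i ∈ T, ∑ k ∈ Ico (2 ^ i) (2 ^ (i + 1)), ‖E u i k ξ‖ ^ 2 ≤
        2 * C1 ^ 2 * (‖a (q i) (β i)‖ ^ 2 *
          ∑ k ∈ Ico (2 ^ i) (2 ^ (i + 1)), om c1 (M (ξ - β i) (Nk u k)) ^ 2) +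
          2 * (1 / 2 : ℝ) ^ i := by
      intro i hi
      have h1 : ∀ k ∈ Ico (2 ^ i) (2 ^ (i + 1)), ‖E u i k ξ‖ ^ 2 ≤
          2 * C1 ^ 2 * (‖a (q i) (β i)‖ ^ 2 * om c1 (M (ξ - β i) (Nk u k)) ^ 2) +
            2 * ((1 / 2 : ℝ) ^ i * (1 / 2 : ℝ) ^ i) := by
        intro k hk
        have h2 := hE i (by have := (hT i hi).1; omega) (q i) (hβq i hi).1.1 (hβq i hi).2.1 (β i)
          (ξ - β i) (hβq i hi).1.2.1 (fun l => (hβq i hi).2.2 l) k (Finset.mem_Ico.1 hk).1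
        rw [add_sub_cancel, hpow] at h2
        have h3 : ‖E u i k ξ‖ ^ 2 ≤
            (C1 * ‖a (q i) (β i)‖ * om c1 (M (ξ - β i) (Nk u k)) + (1 / 2 : ℝ) ^ i) ^ 2 :=
          pow_le_pow_left₀ (norm_nonneg _) h2 2
        refine h3.trans ?_
        nlinarith [sq_nonneg (C1 * ‖a (q i) (β i)‖ * om c1 (M (ξ - β i) (Nk u k)) - (1 / 2 : ℝ) ^ i)]
      refine (Finset.sum_le_sum h1).trans (le_of_eq ?_)
      rw [Finset.sum_add_distrib, ← Finset.mul_sum, ← Finset.mul_sum, Finset.sum_const,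
        Nat.card_Ico, nsmul_eq_mul, show 2 ^ (i + 1) - 2 ^ i = 2 ^ i by rw [pow_succ]; omega]
      congr 1
      push_cast
      have h4 : (2 : ℝ) ^ i * (1 / 2 : ℝ) ^ i = 1 := by
        rw [← mul_pow]
        norm_num
      calc (2 : ℝ) ^ i * (2 * ((1 / 2 : ℝ) ^ i * (1 / 2 : ℝ) ^ i))
          = ((2 : ℝ) ^ i * (1 / 2 : ℝ) ^ i) * (2 * (1 / 2 : ℝ) ^ i) := by ring
        _ = _ := by rw [h4, one_mul]
    -- geometric sums over the blocks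
    have hgeo : ∀ S : Finset ℕ, S ⊆ T → ∑ i ∈ S, (1 / 2 : ℝ) ^ i ≤ 2 * (1 / 2 : ℝ) ^ i1 := by
      intro S hS
      have h1 : ∀ i ∈ S, (1 / 2 : ℝ) ^ i = (1 / 2 : ℝ) ^ i1 * (1 / 2 : ℝ) ^ (i - i1) := by
        intro i hi
        rw [← pow_add, Nat.add_sub_cancel' (hT i (hS hi)).1]
      rw [Finset.sum_congr rfl h1, ← Finset.mul_sum]
      have h2 := PC6_geo (r := (1 / 2 : ℝ)) (by norm_num) (by norm_num) S (fun i => i - i1) (by
        intro i hi i' hi' h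
        have h3 := (hT i (hS hi)).1
        have h4 := (hT i' (hS hi')).1
        simp only at h
        omega)
      have h3 : (1 - (1 / 2 : ℝ))⁻¹ = 2 := by norm_num
      rw [h3] at h2
      have h4 : (0 : ℝ) ≤ (1 / 2 : ℝ) ^ i1 := by positivity
      nlinarith
    -- terminal blocks
    have ha1 : ∀ i, ‖a (q i) (β i)‖ ^ 2 ≤ 1 := fun i => by
      have := a_norm_le (q i) (β i)
      have h0 := norm_nonneg (a (q i) (β i))
      nlinarith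
    have hOm0 : ∀ i, 0 ≤ ∑ k ∈ Ico (2 ^ i) (2 ^ (i + 1)), om c1 (M (ξ - β i) (Nk u k)) ^ 2 :=
      fun i => Finset.sum_nonneg fun _ _ => sq_nonneg _
    have hsplit : ∑ i ∈ T, ‖a (q i) (β i)‖ ^ 2 *
        ∑ k ∈ Ico (2 ^ i) (2 ^ (i + 1)), om c1 (M (ξ - β i) (Nk u k)) ^ 2 ≤
        C2 ^ 2 * C4 * C3 * (X : ℝ) ^ (-(2 * c2)) + 2 * (1 / 2 : ℝ) ^ i1 := by
      rw [← Finset.sum_filter_add_sum_filter_not T
        (fun i => ∀ i' ∈ T, i + w ≤ i' → β i' ≠ β i)]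
      apply add_le_add
      · have h1 : ∀ i ∈ T.filter (fun i => ∀ i' ∈ T, i + w ≤ i' → β i' ≠ β i),
            ‖a (q i) (β i)‖ ^ 2 *
              ∑ k ∈ Ico (2 ^ i) (2 ^ (i + 1)), om c1 (M (ξ - β i) (Nk u k)) ^ 2 ≤
            C2 ^ 2 * C4 * (q i : ℝ) ^ (-(2 * c2)) := by
          intro i hi
          have hiT := (Finset.mem_filter.1 hi).1
          have h2 := hdec (q i) (β i) (hβq i hiT).1
          have hq1 : (0 : ℝ) < q i := by exact_mod_cast (hβq i hiT).1.1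
          have h3 : ‖a (q i) (β i)‖ ^ 2 ≤ C2 ^ 2 * (q i : ℝ) ^ (-(2 * c2)) := by
            refine (pow_le_pow_left₀ (norm_nonneg _) h2 2).trans (le_of_eq ?_)
            rw [mul_pow, ← Real.rpow_natCast ((q i : ℝ) ^ (-c2)) 2, ← Real.rpow_mul hq1.le]
            congr 2
            push_cast
            ring
          have h4 := hom u hu (ξ - β i) (Ico (2 ^ i) (2 ^ (i + 1)))
          calc ‖a (q i) (β i)‖ ^ 2 *
                ∑ k ∈ Ico (2 ^ i) (2 ^ (i + 1)), om c1 (M (ξ - β i) (Nk u k)) ^ 2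
              ≤ C2 ^ 2 * (q i : ℝ) ^ (-(2 * c2)) * C4 :=
                mul_le_mul h3 h4 (hOm0 i) (by positivity)
            _ = _ := by ring
        refine (Finset.sum_le_sum h1).trans ?_
        rw [← Finset.mul_sum]
        have h5 := hterm (T.filter (fun i => ∀ i' ∈ T, i + w ≤ i' → β i' ≠ β i)) q X hX
          (fun i hi => hXi i (Finset.mem_filter.1 hi).1) (by
            intro i hi i' hi' hii
            obtain ⟨hiT, hterm'⟩ := Finset.mem_filter.1 hi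
            have hiT' := (Finset.mem_filter.1 hi').1
            exact hsep i i' (by have := (hT i hiT).1; omega) (by omega) ξ (β i) (β i') (q i) (q i')
              (hβq i hiT).1.1 (hβq i hiT).2.1 (hβq i' hiT').1.1 (hβq i hiT).1.2.1
              (hβq i' hiT').1.2.1 (hβq i hiT).2.2 (hβq i' hiT').2.2
              (fun h => hterm' i' hiT' hii h.symm))
        calc C2 ^ 2 * C4 * ∑ i ∈ T.filter (fun i => ∀ i' ∈ T, i + w ≤ i' → β i' ≠ β i),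
              (q i : ℝ) ^ (-(2 * c2))
            ≤ C2 ^ 2 * C4 * (C3 * (X : ℝ) ^ (-(2 * c2))) :=
              mul_le_mul_of_nonneg_left h5 (by positivity)
          _ = _ := by ring
      · refine le_trans (Finset.sum_le_sum (g := fun i => (1 / 2 : ℝ) ^ i) ?_)
          (hgeo _ (Finset.filter_subset _ _))
        intro i hi
        obtain ⟨hiT, hnt⟩ := Finset.mem_filter.1 hi
        push Not at hnt
        obtain ⟨i', hiT', hii, hβ⟩ := hnt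
        have h2 := htiny i (by have := (hT i hiT).1; omega) (ξ - β i) (fun l => by
          rw [← hβ]
          exact ((hβq i' hiT').2.2 l).trans (tau_anti hii))
        rw [hpow] at h2
        calc ‖a (q i) (β i)‖ ^ 2 *
              ∑ k ∈ Ico (2 ^ i) (2 ^ (i + 1)), om c1 (M (ξ - β i) (Nk u k)) ^ 2
            ≤ 1 * (1 / 2 : ℝ) ^ i := mul_le_mul (ha1 i) h2 (hOm0 i) (by norm_num)
          _ = _ := one_mul _
    refine (Finset.sum_le_sum hk).trans ?_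
    rw [Finset.sum_add_distrib, ← Finset.mul_sum, ← Finset.mul_sum]
    have h6 := hgeo T (Finset.Subset.refl T)
    have h7 := mul_le_mul_of_nonneg_left hsplit (by positivity : (0 : ℝ) ≤ 2 * C1 ^ 2)
    nlinarith
  -- the two statements
  have h8pos : (1 : ℝ) ≤ (8 : ℝ) ^ (c2 / 2) := Real.one_le_rpow (by norm_num) (by linarith)
  have hK2 : 0 < 2 * C1 ^ 2 * C2 ^ 2 * C4 * C3 := by positivity
  refine ⟨(4 + 4 * C1 ^ 2) + 2 * C1 ^ 2 * C2 ^ 2 * C4 * C3 * (8 : ℝ) ^ (c2 / 2), c2 / 2,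
    max iA (max iB iC), by positivity, by linarith, fun ξ i1 I hi1 T hT => ⟨?_, ?_⟩⟩
  · have h1 := hmain ξ i1 I hi1 T hT 1 le_rfl (fun _ _ _ _ hq _ _ _ => hq)
    rw [Nat.cast_one, Real.one_rpow, mul_one] at h1
    have h2 : (1 / 2 : ℝ) ^ i1 ≤ 1 := pow_le_one₀ (by norm_num) (by norm_num)
    have h3 : (0 : ℝ) < 4 + 4 * C1 ^ 2 := by positivity
    nlinarith
  · intro s _ hs1 hnear
    have h1 := hmain ξ i1 I hi1 T hT (xx s) (xx_pos s) (by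
      intro i hi q β hq _ hβ hn
      by_contra hlt
      rw [not_le] at hlt
      apply hnear
      exact ⟨β, den_dvd q (Qf s) (dvd_Qf hq hlt.le) β hβ,
        fun l => (hn l).trans (tau_anti (hT i hi).1)⟩)
    have hxs : (0 : ℝ) < xx s := by exact_mod_cast xx_pos s
    have h2 : (2 : ℝ) ^ (-(c2 / 2 * s)) = ((2 : ℝ) ^ s) ^ (-(c2 / 2)) := by
      rw [← Real.rpow_natCast 2 s, ← Real.rpow_mul (by norm_num)]
      congr 1
      ring
    have h3 : ((xx s : ℕ) : ℝ) ^ (-(2 * c2)) ≤ (8 : ℝ) ^ (c2 / 2) * (2 : ℝ) ^ (-(c2 / 2 * s)) := by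
      have h4 : (2 : ℝ) ^ s / 8 ≤ (xx s : ℝ) ^ 4 := by
        rw [div_le_iff₀ (by norm_num), mul_comm]
        exact_mod_cast pow_le_xx s
      have h5 : ((xx s : ℝ) ^ 4) ^ (-(c2 / 2)) ≤ ((2 : ℝ) ^ s / 8) ^ (-(c2 / 2)) :=
        Real.rpow_le_rpow_of_nonpos (by positivity) h4 (by linarith)
      have h6 : ((xx s : ℝ) ^ 4) ^ (-(c2 / 2)) = (xx s : ℝ) ^ (-(2 * c2)) := by
        rw [← Real.rpow_natCast (xx s : ℝ) 4, ← Real.rpow_mul hxs.le]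
        congr 1
        push_cast
        ring
      rw [h6, Real.div_rpow (by positivity) (by norm_num), ← h2, Real.rpow_neg (by norm_num : (0 : ℝ) ≤ 8),
        div_inv_eq_mul] at h5
      exact h5.trans (le_of_eq (mul_comm _ _))
    have h7 : (1 / 2 : ℝ) ^ i1 ≤ (2 : ℝ) ^ (-(c2 / 2 * s)) := by
      have h8 : (1 / 2 : ℝ) ^ i1 ≤ (1 / 2 : ℝ) ^ s :=
        pow_le_pow_of_le_one (by norm_num) (by norm_num) hs1
      refine h8.trans ?_
      have h9 : (1 / 2 : ℝ) ^ s = (2 : ℝ) ^ (-(s : ℝ)) := by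
        rw [Real.rpow_neg (by norm_num), Real.rpow_natCast, one_div, inv_pow]
      rw [h9]
      apply Real.rpow_le_rpow_of_exponent_le (by norm_num)
      have h10 : (0 : ℝ) ≤ s := Nat.cast_nonneg s
      nlinarith
    have h11 : (0 : ℝ) < 4 + 4 * C1 ^ 2 := by positivity
    have h12 := mul_le_mul_of_nonneg_left h3 hK2.le
    have h13 := mul_le_mul_of_nonneg_left h7 h11.le
    nlinarith
/- END PC9 -/

/- MODULE PD1 -/
private theorem PD1_pow (A j m : ℕ) (Q : ℕ) (hA : 1 ≤ A) (hQ : 1 ≤ Q) (hm : m ≤ A) :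
    (A : ℝ) * 2 ^ j * (Q : ℝ) ^ m ≤ ((A : ℝ) * 2 ^ j * Q) ^ A := by
  have hA1 : (1 : ℝ) ≤ A := by exact_mod_cast hA
  have hQ1 : (1 : ℝ) ≤ Q := by exact_mod_cast hQ
  have h2 : (1 : ℝ) ≤ 2 ^ j := one_le_pow₀ (by norm_num)
  rw [mul_pow, mul_pow]
  have e1 : (A : ℝ) ≤ (A : ℝ) ^ A := le_self_pow₀ hA1 (by omega)
  have e2 : (2 : ℝ) ^ j ≤ ((2 : ℝ) ^ j) ^ A := le_self_pow₀ h2 (by omega)
  have e3 : (Q : ℝ) ^ m ≤ (Q : ℝ) ^ A := pow_le_pow_right₀ hQ1 hm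
  exact mul_le_mul (mul_le_mul e1 e2 (by positivity) (by positivity)) e3 (by positivity)
    (by positivity)

private theorem PD1_Mle (Q : ℕ) (hQ : 1 ≤ Q) (ζ : Fin d → ℝ) (t : ℝ) (h : ∀ l, |ζ l| ≤ t) :
    M ζ Q ≤ d * (Q : ℝ) ^ d * t := by
  have hQ1 : (1 : ℝ) ≤ Q := by exact_mod_cast hQ
  unfold M
  calc ∑ l, |ζ l| * (Q : ℝ) ^ ((l : ℕ) + 1) ≤ ∑ _l : Fin d, t * (Q : ℝ) ^ d := by
        refine Finset.sum_le_sum fun l _ => ?_
        refine mul_le_mul (h l) (pow_le_pow_right₀ hQ1 l.2) (by positivity) ?_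
        exact (abs_nonneg _).trans (h l)
    _ = d * (Q : ℝ) ^ d * t := by
        simp
        ring

/-- gm is small: for xi in U j, q = least denominator of beta; q does not divide Qf (j-1), so
q > xx (j-1) (dvd_Qf), |a (Qf j) beta| = |a q beta| ≤ C q^(-c), and
|a (Qf j) xi - a (Qf j) beta| ≤ 7 d (Qf j)^d tau j. -/
theorem gm_small (d : ℕ) :
    ∃ (C c : ℝ) (i0 : ℕ), 0 < C ∧ 0 < c ∧ ∀ j : ℕ, i0 ≤ j → 1 ≤ j → ∀ ξ : Fin d → ℝ,
      ‖gm j ξ‖ ≤ C * (2 : ℝ) ^ (-(c * j)) := by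
  obtain ⟨C1, c1, hC1, hc1, hc1', hdec⟩ := a_dec d
  obtain ⟨i0, hi0⟩ := par_tau (7 * d + 1)
  refine ⟨2 * C1 + 1, c1 / 4, i0, by positivity, by positivity, fun j hj hj1 ξ => ?_⟩
  have hR : (0 : ℝ) < (2 : ℝ) ^ (-(c1 / 4 * j)) := by positivity
  unfold gm
  split_ifs with hU
  swap
  · rw [norm_zero]
    positivity
  obtain ⟨β, hβ, hβ', hd⟩ := hU
  have hQ := Qf_pos j
  obtain ⟨q, hq⟩ := exists_mind (Qf j) hQ β hβ
  have hq1 : 1 ≤ q := hq.1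
  have hqQ : q ∣ Qf j := mind_dvd q (Qf j) β hq hβ
  have haq : a (Qf j) β = a q β := a_dvd q (Qf j) hq1 hQ hqQ β hq.2.1
  have hqx : xx (j - 1) < q := by
    by_contra hcon
    push Not at hcon
    exact hβ' (den_dvd q (Qf (j - 1)) (dvd_Qf hq1 hcon) β hq.2.1)
  -- the main term
  have hx1 : (1 : ℝ) ≤ xx (j - 1) := by exact_mod_cast xx_pos (j - 1)
  have hxp : (0 : ℝ) < xx (j - 1) := by linarith
  have hpow : (2 : ℝ) ^ (j - 1) ≤ 8 * (xx (j - 1) : ℝ) ^ 4 := by exact_mod_cast pow_le_xx (j - 1)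
  have hxlow : (2 : ℝ) ^ (((j : ℝ) - 4) / 4) ≤ xx (j - 1) := by
    have e1 : ((2 : ℝ) ^ (((j : ℝ) - 4) / 4)) ^ 4 ≤ (xx (j - 1) : ℝ) ^ 4 := by
      rw [← Real.rpow_natCast, ← Real.rpow_mul (by norm_num)]
      have e2 : ((j : ℝ) - 4) / 4 * ((4 : ℕ) : ℝ) = ((j - 1 : ℕ) : ℝ) - 3 := by
        rw [Nat.cast_sub hj1]
        push_cast
        ring
      rw [e2, Real.rpow_sub (by norm_num), Real.rpow_natCast]
      have e3 : (2 : ℝ) ^ (3 : ℝ) = 8 := by norm_num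
      rw [e3]
      linarith
    exact le_of_pow_le_pow_left₀ (by norm_num) hxp.le e1
  have hmain : ‖a q β‖ ≤ 2 * C1 * (2 : ℝ) ^ (-(c1 / 4 * j)) := by
    refine (hdec q β hq).trans ?_
    have e1 : (q : ℝ) ^ (-c1) ≤ ((2 : ℝ) ^ (((j : ℝ) - 4) / 4)) ^ (-c1) := by
      refine Real.rpow_le_rpow_of_nonpos (by positivity) ?_ (by linarith)
      refine hxlow.trans ?_
      exact_mod_cast hqx.le
    have e2 : ((2 : ℝ) ^ (((j : ℝ) - 4) / 4)) ^ (-c1)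
        = (2 : ℝ) ^ c1 * (2 : ℝ) ^ (-(c1 / 4 * j)) := by
      rw [← Real.rpow_mul (by norm_num), ← Real.rpow_add (by norm_num)]
      congr 1
      ring
    have e3 : (2 : ℝ) ^ c1 ≤ 2 := by
      calc (2 : ℝ) ^ c1 ≤ (2 : ℝ) ^ (1 : ℝ) :=
            Real.rpow_le_rpow_of_exponent_le (by norm_num) hc1'
        _ = 2 := by norm_num
    calc C1 * (q : ℝ) ^ (-c1) ≤ C1 * (2 * (2 : ℝ) ^ (-(c1 / 4 * j))) := by
          refine mul_le_mul_of_nonneg_left ?_ hC1.le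
          rw [e2] at e1
          exact e1.trans (mul_le_mul_of_nonneg_right e3 hR.le)
      _ = 2 * C1 * (2 : ℝ) ^ (-(c1 / 4 * j)) := by ring
  -- the tiny term
  have htiny : ‖a (Qf j) ξ - a (Qf j) β‖ ≤ (2 : ℝ) ^ (-(c1 / 4 * j)) := by
    have e0 : ξ = β + (ξ - β) := by abel
    have e1 : ‖a (Qf j) ξ - a (Qf j) β‖ ≤ 7 * M (ξ - β) (Qf j) := by
      have := a_lip (Qf j) β (ξ - β)
      rwa [← e0] at this
    have e2 := PD1_Mle (Qf j) hQ (ξ - β) (tau j) hd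
    have e3 := hi0 j hj
    have e4 := PD1_pow (7 * d + 1) j d (Qf j) (by omega) hQ (by omega)
    have htp := tau_pos j
    have e5 : 7 * (d * (Qf j : ℝ) ^ d * tau j) * 2 ^ j ≤ 1 := by
      refine le_trans ?_ e3
      refine le_trans ?_ (mul_le_mul_of_nonneg_right e4 htp.le)
      have e6 : (7 * d : ℝ) ≤ ((7 * d + 1 : ℕ) : ℝ) := by
        push_cast
        linarith
      calc 7 * (d * (Qf j : ℝ) ^ d * tau j) * 2 ^ j = (7 * d) * (2 ^ j * (Qf j : ℝ) ^ d * tau j) := by ring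
        _ ≤ ((7 * d + 1 : ℕ) : ℝ) * (2 ^ j * (Qf j : ℝ) ^ d * tau j) :=
            mul_le_mul_of_nonneg_right e6 (by positivity)
        _ = _ := by ring
    have e7 : (2 : ℝ) ^ (-(j : ℝ)) ≤ (2 : ℝ) ^ (-(c1 / 4 * j)) := by
      refine Real.rpow_le_rpow_of_exponent_le (by norm_num) ?_
      have : (0 : ℝ) ≤ j := by positivity
      nlinarith
    refine le_trans ?_ e7
    rw [Real.rpow_neg (by norm_num), Real.rpow_natCast]
    rw [← one_div, le_div_iff₀ (by positivity)]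
    refine le_trans ?_ e5
    refine mul_le_mul_of_nonneg_right ?_ (by positivity)
    linarith
  calc ‖a (Qf j) ξ‖ = ‖a q β + (a (Qf j) ξ - a (Qf j) β)‖ := by rw [haq]; congr 1; ring
    _ ≤ ‖a q β‖ + ‖a (Qf j) ξ - a (Qf j) β‖ := norm_add_le _ _
    _ ≤ (2 * C1 + 1) * (2 : ℝ) ^ (-(c1 / 4 * j)) := by linarith
/- END PD1 -/

/- MODULE PD2 -/
private theorem PD2_sum_le (M0 : ℕ) (hM : 1 ≤ M0) (ζ : Fin d → ℝ) :
    M ζ M0 ≤ (M0 : ℝ) ^ d * ∑ l, |ζ l| := by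
  unfold M
  rw [Finset.mul_sum]
  refine Finset.sum_le_sum fun l _ => ?_
  rw [mul_comm]
  refine mul_le_mul_of_nonneg_right ?_ (abs_nonneg _)
  have h1 : (1 : ℝ) ≤ M0 := by exact_mod_cast hM
  exact pow_le_pow_right₀ h1 l.2

private theorem PD2_le_M (N : ℕ) (hN : 1 ≤ N) (ζ : Fin d → ℝ) :
    (N : ℝ) * ∑ l, |ζ l| ≤ M ζ N := by
  unfold M
  rw [Finset.mul_sum]
  refine Finset.sum_le_sum fun l _ => ?_
  rw [mul_comm]
  refine mul_le_mul_of_nonneg_left ?_ (abs_nonneg _)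
  have h1 : (1 : ℝ) ≤ N := by exact_mod_cast hN
  exact le_self_pow₀ h1 (by omega)

/-- RR is tiny, with geometric decay in k. Write Q = Qf j, Q' = Qf (j-1), Q' ∣ Q, N = Nk u k ≥ 2^k.
Three cases.
(i) xi in U j: RR = - a Q' xi * b N Q' xi; some l has Q' beta_l not an integer while Q beta_l is, so
nrm (Q' beta_l) ≥ 1/Q, nrm (Q' xi_l) ≥ 1/Q - Q' tau j ≥ 1/(2Q); b_dec: |b| ≤ Q'/(2 N /(2Q)) ≤ Q^2/N.
(ii) not U j, but near (1/Q) Z^d within tau j: the beta has Den Q' beta. gm = 0, zeta = xi - beta,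
RR = a Q (beta+zeta) b N Q zeta - a Q' (beta+zeta) b N Q' zeta; a Q beta = a Q' beta =: G (a_dvd),
|a Q (beta+zeta) - G| |b N Q zeta| ≤ 7 M zeta Q |b N Q zeta| ≤ 7 Q^d (M zeta N/N) |b| ≤ 7 d Q^d/N
(b_dec', M zeta Q ≤ Q^d * sum |zeta_l| and N sum |zeta_l| ≤ M zeta N), the same for Q', and
|b N Q zeta - b N Q' zeta| ≤ 8 d Q/N (b_cmp).
(iii) not near (1/Q) Z^d within tau j: also not near (1/Q') Z^d; b_far twice: ≤ 1/(2 N tau j) each.
In all cases ≤ C Q^(d+2)/N + 1/(N tau j) ≤ 2^(-j) 2^(2^j)/2^k for j ≥ i0 (par_growth, par_tau;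
1/tau j = 2^(2^(j-1))). -/
theorem RR_small (d u : ℕ) (hu : 1 ≤ u) :
    ∃ i0 : ℕ, ∀ j : ℕ, i0 ≤ j → 1 ≤ j → ∀ k : ℕ, 2 ^ j ≤ k → ∀ ξ : Fin d → ℝ,
      ‖RR u j k ξ‖ * 2 ^ j * 2 ^ k ≤ 2 ^ 2 ^ j := by
  obtain ⟨i1, hi1⟩ := par_growth (22 * d + 2)
  obtain ⟨i2, hi2⟩ := par_tau 2
  refine ⟨max i1 i2, fun j hj hj1 k hk ξ => ?_⟩
  have hgr0 := hi1 j ((le_max_left _ _).trans hj)
  have htau := hi2 j ((le_max_right _ _).trans hj)
  have hQ : 1 ≤ Qf j := Qf_pos j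
  have hQ' : 1 ≤ Qf (j - 1) := Qf_pos (j - 1)
  have hdvd : Qf (j - 1) ∣ Qf j := Qf_dvd (Nat.sub_le j 1)
  have hQQ : Qf (j - 1) ≤ Qf j := Nat.le_of_dvd hQ hdvd
  have hQ1 : (1 : ℝ) ≤ Qf j := by exact_mod_cast hQ
  have hQ1' : (1 : ℝ) ≤ Qf (j - 1) := by exact_mod_cast hQ'
  have hQQ1 : (Qf (j - 1) : ℝ) ≤ Qf j := by exact_mod_cast hQQ
  have htp := tau_pos j
  have hN : 1 ≤ Nk u k := Nat.mul_pos hu (by positivity)
  have hN2 : (2 : ℝ) ^ k ≤ Nk u k := by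
    unfold Nk
    push_cast
    have h1 : (1 : ℝ) ≤ u := by exact_mod_cast hu
    have h2 : (0 : ℝ) < 2 ^ k := by positivity
    nlinarith
  have hN1 : (1 : ℝ) ≤ Nk u k := by exact_mod_cast hN
  have h2j : (0 : ℝ) < 2 ^ j := by positivity
  -- growth for a power of Q
  have hgr : (22 * d + 2 : ℝ) * 2 ^ j * (Qf j : ℝ) ^ (d + 2) ≤ 2 ^ 2 ^ j := by
    rcases Nat.eq_zero_or_pos d with rfl | hdpos
    · have e1 := PD1_pow 2 j 2 (Qf j) (by omega) hQ le_rfl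
      have e2 : (((2 : ℕ) : ℝ) * 2 ^ j * (Qf j : ℝ)) ^ 2 ≤ 2 ^ 2 ^ j := by exact_mod_cast hgr0
      have e3 := e1.trans e2
      push_cast at e3
      simpa using e3
    · have e1 := PD1_pow (22 * d + 2) j (d + 2) (Qf j) (by omega) hQ (by omega)
      have e2 : (((22 * d + 2 : ℕ) : ℝ) * 2 ^ j * (Qf j : ℝ)) ^ (22 * d + 2) ≤ 2 ^ 2 ^ j := by
        exact_mod_cast hgr0
      have e3 := e1.trans e2
      push_cast at e3
      exact e3
  -- it is enough to bound N |RR| by a power of Q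
  have hfin : ‖RR u j k ξ‖ * Nk u k ≤ (22 * d + 2) * (Qf j : ℝ) ^ (d + 2) →
      ‖RR u j k ξ‖ * 2 ^ j * 2 ^ k ≤ 2 ^ 2 ^ j := by
    intro h
    calc ‖RR u j k ξ‖ * 2 ^ j * 2 ^ k = (‖RR u j k ξ‖ * 2 ^ k) * 2 ^ j := by ring
      _ ≤ (‖RR u j k ξ‖ * Nk u k) * 2 ^ j := by
          refine mul_le_mul_of_nonneg_right ?_ h2j.le
          exact mul_le_mul_of_nonneg_left hN2 (norm_nonneg _)
      _ ≤ ((22 * d + 2) * (Qf j : ℝ) ^ (d + 2)) * 2 ^ j := mul_le_mul_of_nonneg_right h h2j.le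
      _ = (22 * d + 2 : ℝ) * 2 ^ j * (Qf j : ℝ) ^ (d + 2) := by ring
      _ ≤ 2 ^ 2 ^ j := hgr
  -- Q tau is small
  have hQt : 2 * (Qf j : ℝ) ^ 2 * tau j ≤ 1 := by
    refine le_trans ?_ htau
    have e1 := PD1_pow 2 j 2 (Qf j) (by omega) hQ le_rfl
    have e2 : (1 : ℝ) ≤ 2 ^ j := one_le_pow₀ (by norm_num)
    refine mul_le_mul_of_nonneg_right (le_trans ?_ e1) htp.le
    push_cast
    have e3 : (0 : ℝ) < (Qf j : ℝ) ^ 2 := by positivity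
    nlinarith
  by_cases hU : U j ξ
  · -- case (i)
    apply hfin
    have hRR : RR u j k ξ = -(a (Qf (j - 1)) ξ * b (Nk u k) (Qf (j - 1)) ξ) := by
      unfold RR gm
      rw [if_pos hU]
      ring
    obtain ⟨β, hβ, hβ', hd⟩ := hU
    unfold Den at hβ'
    push Not at hβ'
    obtain ⟨l, hl⟩ := hβ'
    obtain ⟨z0, hz0⟩ := hβ l
    have hlow : 1 / (Qf j : ℝ) ≤ nrm ((Qf (j - 1) : ℝ) * β l) := by
      by_contra hcon
      push Not at hcon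
      obtain ⟨w, hw⟩ := exists_nrm ((Qf (j - 1) : ℝ) * β l)
      rw [hw] at hcon
      have e1 : |((((Qf (j - 1) : ℕ) : ℤ) * z0 - ((Qf j : ℕ) : ℤ) * w : ℤ) : ℝ)| < 1 := by
        have e2 : ((((Qf (j - 1) : ℕ) : ℤ) * z0 - ((Qf j : ℕ) : ℤ) * w : ℤ) : ℝ)
            = (Qf j : ℝ) * ((Qf (j - 1) : ℝ) * β l - w) := by
          push_cast
          rw [← hz0]
          ring
        rw [e2, abs_mul, abs_of_pos (by linarith)]
        rw [lt_div_iff₀ (by linarith)] at hcon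
        linarith
      have e3 : (((Qf (j - 1) : ℕ) : ℤ) * z0 - ((Qf j : ℕ) : ℤ) * w : ℤ) = 0 := by
        rw [← Int.cast_abs] at e1
        have e4 : |(((Qf (j - 1) : ℕ) : ℤ) * z0 - ((Qf j : ℕ) : ℤ) * w : ℤ)| < 1 := by exact_mod_cast e1
        exact Int.abs_lt_one_iff.mp e4
      have e5 : (((Qf (j - 1) : ℕ) : ℤ) * z0 - ((Qf j : ℕ) : ℤ) * w : ℤ)
          = ((0 : ℤ) : ℝ) := by exact_mod_cast e3
      push_cast at e5
      apply hl w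
      have e6 : (Qf j : ℝ) * ((Qf (j - 1) : ℝ) * β l - w) = 0 := by
        rw [← hz0] at e5
        linarith
      rcases mul_eq_zero.mp e6 with h | h
      · linarith
      · linarith
    have hlow2 : 1 / (2 * (Qf j : ℝ)) ≤ nrm ((Qf (j - 1) : ℝ) * ξ l) := by
      have e1 : nrm ((Qf (j - 1) : ℝ) * β l)
          ≤ nrm ((Qf (j - 1) : ℝ) * ξ l) + nrm ((Qf (j - 1) : ℝ) * (ξ l - β l)) := by
        have := nrm_sub_le ((Qf (j - 1) : ℝ) * ξ l) ((Qf (j - 1) : ℝ) * (ξ l - β l))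
        refine le_trans (le_of_eq ?_) this
        congr 1
        ring
      have e2 : nrm ((Qf (j - 1) : ℝ) * (ξ l - β l)) ≤ (Qf j : ℝ) * tau j := by
        refine (nrm_le_abs _).trans ?_
        rw [abs_mul, abs_of_pos (by linarith)]
        exact mul_le_mul hQQ1 (hd l) (abs_nonneg _) (by linarith)
      have e3 : (Qf j : ℝ) * tau j ≤ 1 / (2 * (Qf j : ℝ)) := by
        rw [le_div_iff₀ (by positivity)]
        calc (Qf j : ℝ) * tau j * (2 * Qf j) = 2 * (Qf j : ℝ) ^ 2 * tau j := by ring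
          _ ≤ 1 := hQt
      have e4 : 1 / (2 * (Qf j : ℝ)) + 1 / (2 * (Qf j : ℝ)) = 1 / (Qf j : ℝ) := by
        field_simp
        norm_num
      linarith
    have hb := b_dec (Nk u k) (Qf (j - 1)) hQ' ξ l
    have hNl : (Nk u k : ℝ) ≤ (Nk u k : ℝ) ^ ((l : ℕ) + 1) := le_self_pow₀ hN1 (by omega)
    have hb2 : ‖b (Nk u k) (Qf (j - 1)) ξ‖ * ((Nk u k : ℝ) / Qf j) ≤ Qf (j - 1) := by
      refine le_trans ?_ hb
      refine mul_le_mul_of_nonneg_left ?_ (norm_nonneg _)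
      calc (Nk u k : ℝ) / Qf j = 2 * ((Nk u k : ℝ) * (1 / (2 * (Qf j : ℝ)))) := by
            field_simp
        _ ≤ 2 * ((Nk u k : ℝ) ^ ((l : ℕ) + 1) * nrm ((Qf (j - 1) : ℝ) * ξ l)) := by
            refine mul_le_mul_of_nonneg_left ?_ (by norm_num)
            exact mul_le_mul hNl hlow2 (by positivity) (by positivity)
    have hb3 : ‖b (Nk u k) (Qf (j - 1)) ξ‖ * Nk u k ≤ (Qf j : ℝ) ^ 2 := by
      have e1 : ‖b (Nk u k) (Qf (j - 1)) ξ‖ * Nk u k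
          = (‖b (Nk u k) (Qf (j - 1)) ξ‖ * ((Nk u k : ℝ) / Qf j)) * Qf j := by
        field_simp
      rw [e1]
      nlinarith
    rw [hRR, norm_neg, norm_mul]
    have ha := a_norm_le (Qf (j - 1)) ξ
    have hb0 := norm_nonneg (b (Nk u k) (Qf (j - 1)) ξ)
    calc ‖a (Qf (j - 1)) ξ‖ * ‖b (Nk u k) (Qf (j - 1)) ξ‖ * Nk u k
        ≤ 1 * ‖b (Nk u k) (Qf (j - 1)) ξ‖ * Nk u k := by
          refine mul_le_mul_of_nonneg_right ?_ (by linarith)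
          exact mul_le_mul_of_nonneg_right ha hb0
      _ ≤ (Qf j : ℝ) ^ 2 := by rw [one_mul]; exact hb3
      _ ≤ (Qf j : ℝ) ^ (d + 2) := pow_le_pow_right₀ hQ1 (by omega)
      _ ≤ (22 * d + 2) * (Qf j : ℝ) ^ (d + 2) := by
          have e1 : (0 : ℝ) < (Qf j : ℝ) ^ (d + 2) := by positivity
          have e2 : (0 : ℝ) ≤ d := by positivity
          nlinarith
  by_cases hnear : nearQ (Qf j) (tau j) ξ
  · -- case (ii)
    apply hfin
    obtain ⟨β, hβ, hd⟩ := hnear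
    have hβ' : Den (Qf (j - 1)) β := by
      by_contra hcon
      exact hU ⟨β, hβ, hcon, hd⟩
    have hRR : RR u j k ξ = a (Qf j) ξ * b (Nk u k) (Qf j) ξ
        - a (Qf (j - 1)) ξ * b (Nk u k) (Qf (j - 1)) ξ := by
      unfold RR gm
      rw [if_neg hU]
      ring
    have e0 : ξ = β + (ξ - β) := by abel
    set ζ := ξ - β with hζ
    have hG : a (Qf j) β = a (Qf (j - 1)) β := a_dvd (Qf (j - 1)) (Qf j) hQ' hQ hdvd β hβ'
    have hζ2 : ∀ l, |ζ l| * (2 * Qf j) ≤ 1 := by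
      intro l
      have e1 : |ζ l| ≤ tau j := hd l
      calc |ζ l| * (2 * Qf j) ≤ tau j * (2 * (Qf j : ℝ) ^ 2) := by
            refine mul_le_mul e1 ?_ (by positivity) htp.le
            nlinarith
        _ ≤ 1 := by linarith
    have hζ2' : ∀ l, |ζ l| * (2 * Qf (j - 1)) ≤ 1 := by
      intro l
      refine le_trans ?_ (hζ2 l)
      exact mul_le_mul_of_nonneg_left (by linarith) (abs_nonneg _)
    have hs1 : ∀ q : ℕ, 1 ≤ q → (∀ l, |ζ l| * (2 * q) ≤ 1) → q ≤ Qf j → Den q β →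
        ‖(a q (β + ζ) - a q β) * b (Nk u k) q ζ‖ * Nk u k ≤ 7 * d * (Qf j : ℝ) ^ d := by
      intro q hq hq2 hqQ hDq
      have f1 := a_lip q β ζ
      have f2 := PD2_sum_le q hq ζ
      have f3 := PD2_le_M (Nk u k) hN ζ
      have f4 := b_dec' (Nk u k) q hq ζ hq2
      have f0 := norm_nonneg (b (Nk u k) q ζ)
      have f5 : (q : ℝ) ^ d ≤ (Qf j : ℝ) ^ d := by
        refine pow_le_pow_left₀ (by positivity) ?_ d
        exact_mod_cast hqQ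
      rw [norm_mul]
      calc ‖a q (β + ζ) - a q β‖ * ‖b (Nk u k) q ζ‖ * Nk u k
          ≤ (7 * ((q : ℝ) ^ d * ∑ l, |ζ l|)) * ‖b (Nk u k) q ζ‖ * Nk u k := by
            refine mul_le_mul_of_nonneg_right (mul_le_mul_of_nonneg_right ?_ f0) (by linarith)
            linarith
        _ = 7 * (q : ℝ) ^ d * (‖b (Nk u k) q ζ‖ * (Nk u k * ∑ l, |ζ l|)) := by ring
        _ ≤ 7 * (q : ℝ) ^ d * (‖b (Nk u k) q ζ‖ * M ζ (Nk u k)) := by
            refine mul_le_mul_of_nonneg_left ?_ (by positivity)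
            exact mul_le_mul_of_nonneg_left f3 f0
        _ ≤ 7 * (q : ℝ) ^ d * d := mul_le_mul_of_nonneg_left f4 (by positivity)
        _ ≤ 7 * (Qf j : ℝ) ^ d * d := by
            refine mul_le_mul_of_nonneg_right ?_ (by positivity)
            linarith
        _ = 7 * d * (Qf j : ℝ) ^ d := by ring
    have hs3 : ‖a (Qf (j - 1)) β * (b (Nk u k) (Qf j) ζ - b (Nk u k) (Qf (j - 1)) ζ)‖ * Nk u k
        ≤ 8 * d * Qf j := by
      have g1 := b_cmp (Nk u k) (Qf (j - 1)) (Qf j) hN hQ' hQ hdvd ζ hζ2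
      have g2 := a_norm_le (Qf (j - 1)) β
      rw [norm_mul, norm_sub_rev]
      calc ‖a (Qf (j - 1)) β‖ * ‖b (Nk u k) (Qf (j - 1)) ζ - b (Nk u k) (Qf j) ζ‖ * Nk u k
          ≤ 1 * (8 * d * Qf j / Nk u k) * Nk u k := by
            refine mul_le_mul_of_nonneg_right ?_ (by linarith)
            exact mul_le_mul g2 g1 (norm_nonneg _) (by norm_num)
        _ = 8 * d * Qf j := by
            field_simp
    have hsplit : RR u j k ξ = (a (Qf j) (β + ζ) - a (Qf j) β) * b (Nk u k) (Qf j) ζ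
        - (a (Qf (j - 1)) (β + ζ) - a (Qf (j - 1)) β) * b (Nk u k) (Qf (j - 1)) ζ
        + a (Qf (j - 1)) β * (b (Nk u k) (Qf j) ζ - b (Nk u k) (Qf (j - 1)) ζ) := by
      rw [hRR, e0, b_per (Nk u k) (Qf j) β ζ hβ, b_per (Nk u k) (Qf (j - 1)) β ζ hβ', hG]
      ring
    have k1 := hs1 (Qf j) hQ hζ2 le_rfl hβ
    have k2 := hs1 (Qf (j - 1)) hQ' hζ2' hQQ hβ'
    have k3 : ‖RR u j k ξ‖ ≤ ‖(a (Qf j) (β + ζ) - a (Qf j) β) * b (Nk u k) (Qf j) ζ‖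
        + ‖(a (Qf (j - 1)) (β + ζ) - a (Qf (j - 1)) β) * b (Nk u k) (Qf (j - 1)) ζ‖
        + ‖a (Qf (j - 1)) β * (b (Nk u k) (Qf j) ζ - b (Nk u k) (Qf (j - 1)) ζ)‖ := by
      rw [hsplit]
      refine (norm_add_le _ _).trans (add_le_add ?_ le_rfl)
      exact norm_sub_le _ _
    have k4 := mul_le_mul_of_nonneg_right k3 (by linarith : (0 : ℝ) ≤ Nk u k)
    have k5 : (Qf j : ℝ) ^ d ≤ (Qf j : ℝ) ^ (d + 2) := pow_le_pow_right₀ hQ1 (by omega)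
    have k6 : (Qf j : ℝ) ≤ (Qf j : ℝ) ^ (d + 2) := le_self_pow₀ hQ1 (by omega)
    have k7 : (0 : ℝ) ≤ d := by positivity
    have k8 : (d : ℝ) * (Qf j : ℝ) ^ d ≤ d * (Qf j : ℝ) ^ (d + 2) :=
      mul_le_mul_of_nonneg_left k5 k7
    have k9 : (d : ℝ) * (Qf j : ℝ) ≤ d * (Qf j : ℝ) ^ (d + 2) :=
      mul_le_mul_of_nonneg_left k6 k7
    have k10 : (0 : ℝ) ≤ (Qf j : ℝ) ^ (d + 2) := by positivity
    nlinarith
  · -- case (iii)
    have hnear' : ¬ nearQ (Qf (j - 1)) (tau j) ξ := by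
      rintro ⟨β, hβ, hd⟩
      exact hnear ⟨β, den_dvd _ _ hdvd β hβ, hd⟩
    have hRR : RR u j k ξ = a (Qf j) ξ * b (Nk u k) (Qf j) ξ
        - a (Qf (j - 1)) ξ * b (Nk u k) (Qf (j - 1)) ξ := by
      unfold RR gm
      rw [if_neg hU]
      ring
    have f1 := b_far (Qf j) hQ (tau j) htp ξ hnear (Nk u k) hN
    have f2 := b_far (Qf (j - 1)) hQ' (tau j) htp ξ hnear' (Nk u k) hN
    have f3 : ‖RR u j k ξ‖ ≤ ‖b (Nk u k) (Qf j) ξ‖ + ‖b (Nk u k) (Qf (j - 1)) ξ‖ := by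
      rw [hRR]
      refine (norm_sub_le _ _).trans ?_
      rw [norm_mul, norm_mul]
      have g1 := a_norm_le (Qf j) ξ
      have g2 := a_norm_le (Qf (j - 1)) ξ
      have g3 := norm_nonneg (b (Nk u k) (Qf j) ξ)
      have g4 := norm_nonneg (b (Nk u k) (Qf (j - 1)) ξ)
      nlinarith
    have f4 : ‖RR u j k ξ‖ * (Nk u k * tau j) ≤ 1 := by
      have g1 : (0 : ℝ) ≤ Nk u k * tau j := by positivity
      have g2 := mul_le_mul_of_nonneg_right f3 g1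
      nlinarith
    have f5 : (2 : ℝ) ^ j * tau j ≤ 1 := by
      refine le_trans ?_ htau
      have e1 := PD1_pow 2 j 0 (Qf j) (by omega) hQ (by omega)
      push_cast at e1
      refine mul_le_mul_of_nonneg_right (le_trans ?_ e1) htp.le
      nlinarith
    have f6 := tau_sq j hj1
    have f7 : (2 : ℝ) ^ j ≤ tau j * 2 ^ 2 ^ j := by
      calc (2 : ℝ) ^ j = 2 ^ j * (tau j ^ 2 * 2 ^ 2 ^ j) := by rw [f6, mul_one]
        _ = (2 ^ j * tau j) * (tau j * 2 ^ 2 ^ j) := by ring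
        _ ≤ 1 * (tau j * 2 ^ 2 ^ j) := mul_le_mul_of_nonneg_right f5 (by positivity)
        _ = tau j * 2 ^ 2 ^ j := one_mul _
    calc ‖RR u j k ξ‖ * 2 ^ j * 2 ^ k ≤ ‖RR u j k ξ‖ * (tau j * 2 ^ 2 ^ j) * Nk u k := by
          refine mul_le_mul ?_ hN2 (by positivity) (by positivity)
          exact mul_le_mul_of_nonneg_left f7 (norm_nonneg _)
      _ = (‖RR u j k ξ‖ * (Nk u k * tau j)) * 2 ^ 2 ^ j := by ring
      _ ≤ 1 * 2 ^ 2 ^ j := mul_le_mul_of_nonneg_right f4 (by positivity)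
      _ = 2 ^ 2 ^ j := one_mul _
/- END PD2 -/

/- MODULE PD3 -/
private theorem PD3_sum_le (M0 : ℕ) (hM : 1 ≤ M0) (ζ : Fin d → ℝ) :
    M ζ M0 ≤ (M0 : ℝ) ^ d * ∑ l, |ζ l| := by
  unfold M
  rw [Finset.mul_sum]
  refine Finset.sum_le_sum fun l _ => ?_
  rw [mul_comm]
  refine mul_le_mul_of_nonneg_right ?_ (abs_nonneg _)
  have h1 : (1 : ℝ) ≤ M0 := by exact_mod_cast hM
  exact pow_le_pow_right₀ h1 l.2

private theorem PD3_le_M (N : ℕ) (hN : 1 ≤ N) (ζ : Fin d → ℝ) :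
    (N : ℝ) * ∑ l, |ζ l| ≤ M ζ N := by
  unfold M
  rw [Finset.mul_sum]
  refine Finset.sum_le_sum fun l _ => ?_
  rw [mul_comm]
  refine mul_le_mul_of_nonneg_left ?_ (abs_nonneg _)
  have h1 : (1 : ℝ) ≤ N := by exact_mod_cast hN
  exact le_self_pow₀ h1 (by omega)

private theorem PD3_round (Q : ℕ) (hQ : 1 ≤ Q) (ξ : Fin d → ℝ) :
    ∃ β ζ : Fin d → ℝ, ξ = β + ζ ∧ Den Q β ∧ ∀ l, |ζ l| * (2 * Q) ≤ 1 := by
  have hQ0 : (0 : ℝ) < Q := by exact_mod_cast hQ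
  refine ⟨fun l => (round ((Q : ℝ) * ξ l) : ℝ) / Q, fun l => ξ l - (round ((Q : ℝ) * ξ l) : ℝ) / Q,
    ?_, ?_, ?_⟩
  · funext l
    simp
  · intro l
    refine ⟨round ((Q : ℝ) * ξ l), ?_⟩
    field_simp
  · intro l
    have h := abs_sub_round ((Q : ℝ) * ξ l)
    have h2 : |ξ l - (round ((Q : ℝ) * ξ l) : ℝ) / Q| * Q = |(Q : ℝ) * ξ l - round ((Q : ℝ) * ξ l)| := by
      rw [← abs_of_pos hQ0, ← abs_mul, abs_of_pos hQ0]
      congr 1
      field_simp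
    calc |ξ l - (round ((Q : ℝ) * ξ l) : ℝ) / Q| * (2 * Q)
        = 2 * (|ξ l - (round ((Q : ℝ) * ξ l) : ℝ) / Q| * Q) := by ring
      _ ≤ 1 := by rw [h2]; linarith

/-- The filter 1 - b M0 Q kills the box averages at larger scales:
|b N Q xi| |1 - b M0 Q xi| * N ≤ 8 d M0^d... Choose beta with Q beta integral and |xi_l - beta_l| ≤
1/(2Q) for all l (rounding), zeta = xi - beta; |1 - b M0 Q zeta| ≤ 7 M zeta M0,
M zeta M0 ≤ M0^d * sum |zeta_l|, N * sum |zeta_l| ≤ M zeta N, |b N Q zeta| M zeta N ≤ d. -/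
theorem b_filter (Q N M0 : ℕ) (hQ : 1 ≤ Q) (hN : 1 ≤ N) (hM : 1 ≤ M0) (ξ : Fin d → ℝ) :
    ‖b N Q ξ * (1 - b M0 Q ξ)‖ * N ≤ 7 * d * (M0 : ℝ) ^ d := by
  obtain ⟨β, ζ, rfl, hβ, hζ⟩ := PD3_round Q hQ ξ
  rw [b_per N Q β ζ hβ, b_per M0 Q β ζ hβ, norm_mul, norm_sub_rev]
  have h1 := b_one M0 Q ζ
  have h2 := PD3_sum_le M0 hM ζ
  have h3 := PD3_le_M N hN ζ
  have h4 := b_dec' N Q hQ ζ hζ
  have h0 : 0 ≤ ‖b N Q ζ‖ := norm_nonneg _
  have hM0 : (0 : ℝ) ≤ (M0 : ℝ) ^ d := by positivity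
  have hN0 : (0 : ℝ) ≤ N := by positivity
  calc ‖b N Q ζ‖ * ‖b M0 Q ζ - 1‖ * N ≤ ‖b N Q ζ‖ * (7 * ((M0 : ℝ) ^ d * ∑ l, |ζ l|)) * N := by
        refine mul_le_mul_of_nonneg_right (mul_le_mul_of_nonneg_left ?_ h0) hN0
        linarith
    _ = 7 * (M0 : ℝ) ^ d * (‖b N Q ζ‖ * (N * ∑ l, |ζ l|)) := by ring
    _ ≤ 7 * (M0 : ℝ) ^ d * d := by
        refine mul_le_mul_of_nonneg_left ?_ (by positivity)
        exact (mul_le_mul_of_nonneg_left h3 h0).trans h4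
    _ = 7 * d * (M0 : ℝ) ^ d := by ring

/-- the filter is small near (1/Q) Z^d -/
theorem b_filter_near (Q M0 : ℕ) (hM : 1 ≤ M0) (t : ℝ) (ht : 0 ≤ t) (ξ : Fin d → ℝ)
    (h : nearQ Q t ξ) : ‖1 - b M0 Q ξ‖ ≤ 7 * d * (M0 : ℝ) ^ d * t := by
  obtain ⟨β, hβ, hd⟩ := h
  have he : ξ = β + (ξ - β) := by abel
  rw [he, b_per M0 Q β (ξ - β) hβ, norm_sub_rev]
  have h1 := b_one M0 Q (ξ - β)
  have h2 := PD3_sum_le M0 hM (ξ - β)
  have h3 : ∑ l, |(ξ - β) l| ≤ d * t := by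
    refine (Finset.sum_le_sum fun l _ => hd l).trans (le_of_eq ?_)
    simp
  have hM0 : (0 : ℝ) ≤ (M0 : ℝ) ^ d := by positivity
  calc ‖b M0 Q (ξ - β) - 1‖ ≤ 7 * ((M0 : ℝ) ^ d * (d * t)) := by
        have := mul_le_mul_of_nonneg_left h3 hM0
        linarith
    _ = 7 * d * (M0 : ℝ) ^ d * t := by ring
/- END PD3 -/

end Pool.Agent.GsF
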