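import Mathlib

/-!
The definitions used in the statement of the theorem: powers of a transformation, ergodic Gaussian
systems, exhausting sigma-algebras, factor maps, Furstenberg systems of bounded sequences.
-/

namespace Pool.Agent.GsF

open Finset MeasureTheory Filter Topology ProbabilityTheory

/-- integer powers of an invertible transformation -/
def pw {W : Type*} [MeasurableSpace W] (R : W ≃ᵐ W) (n : ℤ) : W → W :=
  ⇑((R.toEquiv : Equiv.Perm W) ^ n)

/-- An ergodic Gaussian system: R is ergodic, the functions X_i o R^n form a centred Gaussian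
process and generate the sigma-algebra modulo null sets. -/
structure GSys {W : Type*} [MeasurableSpace W] (ω : Measure W) (R : W ≃ᵐ W) (X : ℕ → W → ℝ) :
    Prop where
  erg : Ergodic R ω
  meas : ∀ i, Measurable (X i)
  gauss : IsGaussianProcess (fun (q : ℕ × ℤ) w => X q.1 (pw R q.2 w)) ω
  mean : ∀ i, ∫ w, X i w ∂ω = 0
  gen : ∀ A : Set W, MeasurableSet A → ∃ A' : Set W,
    MeasurableSet[⨆ q : ℕ × ℤ, MeasurableSpace.comap (fun w => X q.1 (pw R q.2 w)) inferInstance] A' ∧
      A =ᵐ[ω] A'

/-- the n-th member of the decreasing family generated by a sigma-algebra: all sets S^(-n) A -/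
@[reducible] def Al {Y : Type*} (A : MeasurableSpace Y) [mY : MeasurableSpace Y] (S : Y ≃ᵐ Y)
    (n : ℤ) : MeasurableSpace Y := A.comap (pw S n)

/-- an exhausting sigma-algebra: S^(-1) A is contained in A, and the S^n A generate everything
modulo null sets -/
structure Exh {Y : Type*} (A : MeasurableSpace Y) [mY : MeasurableSpace Y] (ν : Measure Y)
    (S : Y ≃ᵐ Y) : Prop where
  mp : MeasurePreserving S ν ν
  le : A ≤ mY
  dec : A.comap S ≤ A
  gen : ∀ D : Set Y, MeasurableSet D → ∃ D' : Set Y,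
    MeasurableSet[⨆ n : ℤ, Al A S n] D' ∧ D =ᵐ[ν] D'

/-- f is a factor map from (Y, nu, S) to (Z, zeta, Q): measure preserving and equivariant a.e. -/
structure Fac {Y Z : Type*} [MeasurableSpace Y] [MeasurableSpace Z] (ν : Measure Y) (S : Y ≃ᵐ Y)
    (ζ : Measure Z) (Q : Z ≃ᵐ Z) (f : Y → Z) : Prop where
  mp : MeasurePreserving f ν ζ
  eq : ∀ᵐ y ∂ν, f (S y) = Q (f y)

/-- the bounded sequence a(1), a(2), .. extended by 0 to the integers, as a point of D^Z, where D is
the closed disc of radius C -/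
def seqPt (C : ℝ) (hC : 0 ≤ C) (a : ℕ → ℂ) (ha : ∀ n, ‖a n‖ ≤ C) :
    ℤ → Metric.closedBall (0 : ℂ) C :=
  fun m => if 1 ≤ m then ⟨a m.toNat, by simpa using ha _⟩ else ⟨0, by simpa using hC⟩

/-- the means of the Dirac measures at the shifts sigma^n x, 1 ≤ n ≤ N, converge weakly to mu along
the full sequence N → infinity: mu is the unique Furstenberg system of x -/
def UniqueFurstenberg (C : ℝ) (x : ℤ → Metric.closedBall (0 : ℂ) C)
    (μ : Measure (ℤ → Metric.closedBall (0 : ℂ) C)) : Prop :=
  ∀ φ : C((ℤ → Metric.closedBall (0 : ℂ) C), ℝ),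
    Tendsto (fun N : ℕ => (∑ n ∈ Finset.Icc 1 N, φ (fun m => x (m + (n : ℤ)))) / (N : ℝ)) atTop
      (𝓝 (∫ z, φ z ∂μ))

end Pool.Agent.GsF
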