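import Pool.Agent.GsF.Fin
import Pool.Agent.GsF.Pt

/-!
The maximal theorem on the finite groups (Z/R)^d, uniformly in R.
-/

namespace Pool.Agent.GsF

open Finset
open scoped NNReal

variable {d : ℕ}

/- MODULE TA -/
private theorem TA_geom (c : ℝ) (hc : 0 < c) (s I : ℕ) :
    ∑ j ∈ Ioo s I, (2 : ℝ) ^ (-(c * j)) ≤ (2 : ℝ) ^ (-(c * s)) / (1 - (2 : ℝ) ^ (-c)) := by
  set r : ℝ := (2 : ℝ) ^ (-c) with hr
  have hr0 : 0 < r := by positivity
  have hr1 : r < 1 := by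
    rw [hr]
    exact Real.rpow_lt_one_of_one_lt_of_neg (by norm_num) (by linarith)
  have hpow : ∀ j : ℕ, (2 : ℝ) ^ (-(c * j)) = r ^ j := by
    intro j
    rw [hr, ← Real.rpow_natCast, ← Real.rpow_mul (by norm_num)]
    congr 1
    ring
  simp_rw [hpow]
  have h1 : ∑ j ∈ Ioo s I, r ^ j ≤ ∑ j ∈ Ico s I, r ^ j := by
    refine Finset.sum_le_sum_of_subset_of_nonneg ?_ fun _ _ _ => by positivity
    intro j hj
    rw [Finset.mem_Ioo] at hj
    rw [Finset.mem_Ico]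
    omega
  refine h1.trans ?_
  rw [Finset.sum_Ico_eq_sum_range]
  simp_rw [pow_add]
  rw [← Finset.mul_sum]
  rw [mul_comm, ← one_div_mul_eq_div]
  refine mul_le_mul_of_nonneg_right ?_ (by positivity)
  rw [geom_sum_eq (by linarith)]
  rw [show (r ^ (I - s) - 1) / (r - 1) = (1 - r ^ (I - s)) / (1 - r) by
    rw [← neg_div_neg_eq]; congr 1 <;> ring]
  have : 0 ≤ r ^ (I - s) := by positivity
  exact div_le_div_of_nonneg_right (by linarith) (by linarith)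

private theorem TA_two (j I : ℕ) : ∑ k ∈ Ico (2 ^ j) (2 ^ I), (2 : ℝ) ^ 2 ^ j / 2 ^ k ≤ 2 := by
  rw [Finset.sum_Ico_eq_sum_range]
  have h1 : ∀ k : ℕ, (2 : ℝ) ^ 2 ^ j / 2 ^ (2 ^ j + k) = (1 / 2) ^ k := by
    intro k
    rw [pow_add]
    field_simp
    rw [← mul_pow]
    norm_num
  simp_rw [h1]
  rw [geom_sum_eq (by norm_num)]
  have : (0 : ℝ) ≤ (1 / 2) ^ (2 ^ I - 2 ^ j) := by positivity
  rw [div_le_iff_of_neg (by norm_num)]
  linarith

private theorem TA_tel (u k : ℕ) (ξ : Fin d → ℝ) (s : ℕ) : ∀ i : ℕ, s ≤ i →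
    a (Qf i) ξ * b (Nk u k) (Qf i) ξ - a (Qf s) ξ * b (Nk u k) (Qf s) ξ
      = ∑ j ∈ Ioc s i, (gm j ξ * b (Nk u k) (Qf j) ξ + RR u j k ξ) := by
  intro i hi
  induction i, hi using Nat.le_induction with
  | base => simp
  | succ i hi ih =>
    have e1 : Ioc s (i + 1) = insert (i + 1) (Ioc s i) := by
      ext j
      simp only [Finset.mem_Ioc, Finset.mem_insert]
      omega
    rw [e1, Finset.sum_insert (by simp), ← ih]
    unfold RR
    rw [Nat.add_sub_cancel]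
    ring

/-- The models: telescoping over the blocks. For k in block i (2^i ≤ k < 2^(i+1)), s ≤ i:
a (Qf i) b (Nk u k) (Qf i) = a (Qf s) b (Nk u k) (Qf s) + sum over s < j ≤ i of
(gm j * b (Nk u k) (Qf j) + RR u j k) (definition of RR). So on [2^i1, 2^I) the maximal function of
the difference is at most sum over s < j < I of [maximal function over k ≥ 2^j of
Bg (Nk u k) (Qf j) (Tm gm_j g)] + sum over k of |Tm RR g|. hl_box and gm_small: 2^d C 2^(-c j) |g|.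
RR_small: |RR u j k| ≤ 2^(-j) 2^(2^j - k), summed over k ≥ 2^j: ≤ 2 * 2^(-j) |g|. Here blk k is the
block of k: Nat.log 2 k. -/
theorem model_mx (d u : ℕ) (hu : 1 ≤ u) :
    ∃ (C c : ℝ) (i0 : ℕ), 0 < C ∧ 0 < c ∧ ∀ (R : ℕ) [NeZero R] (s i1 I : ℕ), i0 ≤ s → s ≤ i1 →
      ∀ g : (Fin d → ZMod R) → ℂ,
        l2 (mx (Ico (2 ^ i1) (2 ^ I)) (fun k =>
          Tm (fun r => a (Qf (Nat.log 2 k)) (fr r) * b (Nk u k) (Qf (Nat.log 2 k)) (fr r)
            - a (Qf s) (fr r) * b (Nk u k) (Qf s) (fr r)) g))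
          ≤ C * (2 : ℝ) ^ (-(c * s)) * Real.sqrt (n2 g) := by
  obtain ⟨C1, c1, j1, hC1, hc1, hgm⟩ := gm_small d
  obtain ⟨j2, hRR⟩ := RR_small d u hu
  set c := min c1 1 with hc
  have hc0 : 0 < c := lt_min hc1 one_pos
  have hr1 : (2 : ℝ) ^ (-c) < 1 := Real.rpow_lt_one_of_one_lt_of_neg (by norm_num) (by linarith)
  have hK : 0 < 1 - (2 : ℝ) ^ (-c) := by linarith
  refine ⟨(2 ^ d * C1 + 2) / (1 - (2 : ℝ) ^ (-c)), c, max j1 j2, by positivity, hc0,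
    fun R _ s i1 I hs hsi g => ?_⟩
  set n := Real.sqrt (n2 g) with hn
  have hn0 : 0 ≤ n := Real.sqrt_nonneg _
  set S := Ico (2 ^ i1) (2 ^ I) with hS
  -- the two majorants
  let A : ℕ → (Fin d → ZMod R) → ℝ := fun j =>
    mx S (fun k => Bg (Nk u k) (Qf j) (Tm (fun r => gm j (fr r)) g))
  let B : ℕ → (Fin d → ZMod R) → ℝ := fun j x =>
    ∑ k ∈ Ico (2 ^ j) (2 ^ I), ‖Tm (fun r => RR u j k (fr r)) g x‖
  have hpt : ∀ x, mx S (fun k =>
          Tm (fun r => a (Qf (Nat.log 2 k)) (fr r) * b (Nk u k) (Qf (Nat.log 2 k)) (fr r)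
            - a (Qf s) (fr r) * b (Nk u k) (Qf s) (fr r)) g) x
        ≤ ∑ j ∈ Ioo s I, (A j x + B j x) := by
    intro x
    have hA0 : ∀ j, 0 ≤ A j x := fun j => mx_nonneg _ _ _
    have hB0 : ∀ j, 0 ≤ B j x := fun j => Finset.sum_nonneg fun _ _ => norm_nonneg _
    refine mx_le _ _ _ _ (Finset.sum_nonneg fun j _ => add_nonneg (hA0 j) (hB0 j)) fun k hk => ?_
    have hk' := hk
    rw [hS, Finset.mem_Ico] at hk'
    have hkpos : k ≠ 0 := by
      have : 0 < 2 ^ i1 := by positivity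
      omega
    have hki : i1 ≤ Nat.log 2 k := (Nat.le_log_iff_pow_le (by norm_num) hkpos).mpr hk'.1
    have hkI : Nat.log 2 k < I := (Nat.log_lt_iff_lt_pow (by norm_num) hkpos).mpr hk'.2
    set i := Nat.log 2 k with hi
    have hfun : (fun r : Fin d → ZMod R => a (Qf i) (fr r) * b (Nk u k) (Qf i) (fr r)
            - a (Qf s) (fr r) * b (Nk u k) (Qf s) (fr r))
        = fun r => ∑ j ∈ Ioc s i, (gm j (fr r) * b (Nk u k) (Qf j) (fr r) + RR u j k (fr r)) := by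
      funext r
      exact TA_tel u k (fr r) s i (hsi.trans hki)
    have hval : Tm (fun r : Fin d → ZMod R => a (Qf i) (fr r) * b (Nk u k) (Qf i) (fr r)
            - a (Qf s) (fr r) * b (Nk u k) (Qf s) (fr r)) g x
        = ∑ j ∈ Ioc s i, (Bg (Nk u k) (Qf j) (Tm (fun r => gm j (fr r)) g) x
            + Tm (fun r => RR u j k (fr r)) g x) := by
      rw [hfun, Tm_sum]
      refine Finset.sum_congr rfl fun j _ => ?_
      rw [Tm_add, Bg_eq, Tm_mul]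
      have e9 : (fun r : Fin d → ZMod R => gm j (fr r) * b (Nk u k) (Qf j) (fr r))
          = fun r => b (Nk u k) (Qf j) (fr r) * gm j (fr r) := by
        funext r
        exact mul_comm _ _
      rw [e9]
    show ‖Tm (fun r : Fin d → ZMod R => a (Qf i) (fr r) * b (Nk u k) (Qf i) (fr r)
            - a (Qf s) (fr r) * b (Nk u k) (Qf s) (fr r)) g x‖ ≤ _
    rw [hval]
    refine (norm_sum_le _ _).trans ?_
    have hsub : Ioc s i ⊆ Ioo s I := by
      intro j hj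
      rw [Finset.mem_Ioc] at hj
      rw [Finset.mem_Ioo]
      omega
    refine le_trans (Finset.sum_le_sum fun j hj => ?_)
      (Finset.sum_le_sum_of_subset_of_nonneg hsub fun j _ _ => add_nonneg (hA0 j) (hB0 j))
    refine (norm_add_le _ _).trans (add_le_add ?_ ?_)
    · exact le_mx S (fun k => Bg (Nk u k) (Qf j) (Tm (fun r => gm j (fr r)) g)) x k hk
    · rw [Finset.mem_Ioc] at hj
      refine Finset.single_le_sum (f := fun k => ‖Tm (fun r => RR u j k (fr r)) g x‖)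
        (fun _ _ => norm_nonneg _) ?_
      rw [Finset.mem_Ico]
      refine ⟨?_, hk'.2⟩
      exact (Nat.pow_le_pow_right (by norm_num) hj.2).trans (Nat.pow_log_le_self 2 hkpos)
  -- the l2 norm of A
  have hA : ∀ j ∈ Ioo s I, l2 (A j) ≤ 2 ^ d * C1 * (2 : ℝ) ^ (-(c * j)) * n := by
    intro j hj
    rw [Finset.mem_Ioo] at hj
    have hj1 : j1 ≤ j := (le_max_left _ _).trans (hs.trans hj.1.le)
    have hg : ∀ r : Fin d → ZMod R, ‖gm j (fr r)‖ ≤ C1 * (2 : ℝ) ^ (-(c * j)) := by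
      intro r
      refine (hgm j hj1 (by omega) (fr r)).trans ?_
      refine mul_le_mul_of_nonneg_left ?_ hC1.le
      refine Real.rpow_le_rpow_of_exponent_le (by norm_num) ?_
      have h1 : c ≤ c1 := min_le_left _ _
      have h2 : (0 : ℝ) ≤ j := by positivity
      nlinarith
    refine (hl_box u (Qf j) S _).trans ?_
    have h3 := n2_Tm_le (fun r => gm j (fr r)) (C1 * (2 : ℝ) ^ (-(c * j))) (by positivity) hg g
    have h4 := Real.sqrt_le_sqrt h3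
    rw [Real.sqrt_mul (by positivity), Real.sqrt_sq (by positivity)] at h4
    calc 2 ^ d * Real.sqrt (n2 (Tm (fun r => gm j (fr r)) g))
        ≤ 2 ^ d * (C1 * (2 : ℝ) ^ (-(c * j)) * Real.sqrt (n2 g)) :=
          mul_le_mul_of_nonneg_left h4 (by positivity)
      _ = 2 ^ d * C1 * (2 : ℝ) ^ (-(c * j)) * n := by ring
  -- the l2 norm of B
  have hB : ∀ j ∈ Ioo s I, l2 (B j) ≤ 2 * (2 : ℝ) ^ (-(c * j)) * n := by
    intro j hj
    rw [Finset.mem_Ioo] at hj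
    have hj2 : j2 ≤ j := (le_max_right _ _).trans (hs.trans hj.1.le)
    have h1 : l2 (B j) ≤ ∑ k ∈ Ico (2 ^ j) (2 ^ I),
        l2 (fun x => ‖Tm (fun r => RR u j k (fr r)) g x‖) := l2_sum_le _ _
    have h2 : ∀ k ∈ Ico (2 ^ j) (2 ^ I), l2 (fun x => ‖Tm (fun r => RR u j k (fr r)) g x‖)
        ≤ ((2 : ℝ) ^ 2 ^ j / 2 ^ k) * ((2 : ℝ) ^ (-(c * j)) * n) := by
      intro k hk
      rw [Finset.mem_Ico] at hk
      rw [l2_norm]
      have hb : ∀ r : Fin d → ZMod R, ‖RR u j k (fr r)‖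
          ≤ ((2 : ℝ) ^ 2 ^ j / 2 ^ k) * (2 : ℝ) ^ (-(c * j)) := by
        intro r
        have h3 := hRR j hj2 (by omega) k hk.1 (fr r)
        have h4 : (2 : ℝ) ^ (-(j : ℝ)) ≤ (2 : ℝ) ^ (-(c * j)) := by
          refine Real.rpow_le_rpow_of_exponent_le (by norm_num) ?_
          have h5 : c ≤ 1 := min_le_right _ _
          have h6 : (0 : ℝ) ≤ j := by positivity
          nlinarith
        refine le_trans ?_ (mul_le_mul_of_nonneg_left h4 (by positivity))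
        rw [Real.rpow_neg (by norm_num), Real.rpow_natCast, ← div_eq_mul_inv, div_div,
          le_div_iff₀ (by positivity)]
        calc ‖RR u j k (fr r)‖ * (2 ^ k * 2 ^ j) = ‖RR u j k (fr r)‖ * 2 ^ j * 2 ^ k := by ring
          _ ≤ 2 ^ 2 ^ j := h3
      have h3 := n2_Tm_le (fun r => RR u j k (fr r)) _ (by positivity) hb g
      have h4 := Real.sqrt_le_sqrt h3
      rw [Real.sqrt_mul (by positivity), Real.sqrt_sq (by positivity)] at h4
      refine h4.trans (le_of_eq ?_)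
      ring
    calc l2 (B j) ≤ ∑ k ∈ Ico (2 ^ j) (2 ^ I),
          ((2 : ℝ) ^ 2 ^ j / 2 ^ k) * ((2 : ℝ) ^ (-(c * j)) * n) :=
          h1.trans (Finset.sum_le_sum h2)
      _ = (∑ k ∈ Ico (2 ^ j) (2 ^ I), (2 : ℝ) ^ 2 ^ j / 2 ^ k) * ((2 : ℝ) ^ (-(c * j)) * n) := by
          rw [Finset.sum_mul]
      _ ≤ 2 * ((2 : ℝ) ^ (-(c * j)) * n) :=
          mul_le_mul_of_nonneg_right (TA_two j I) (by positivity)
      _ = 2 * (2 : ℝ) ^ (-(c * j)) * n := by ring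
  -- assembly
  calc l2 (mx S (fun k =>
          Tm (fun r => a (Qf (Nat.log 2 k)) (fr r) * b (Nk u k) (Qf (Nat.log 2 k)) (fr r)
            - a (Qf s) (fr r) * b (Nk u k) (Qf s) (fr r)) g))
      ≤ l2 (fun x => ∑ j ∈ Ioo s I, (A j x + B j x)) := by
        refine l2_mono _ _ (fun x => mx_nonneg _ _ _) hpt
    _ ≤ ∑ j ∈ Ioo s I, l2 (fun x => A j x + B j x) := l2_sum_le _ _
    _ ≤ ∑ j ∈ Ioo s I, ((2 ^ d * C1 + 2) * n) * (2 : ℝ) ^ (-(c * j)) := by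
        refine Finset.sum_le_sum fun j hj => ?_
        refine (l2_add_le _ _).trans ?_
        have h1 := hA j hj
        have h2 := hB j hj
        calc l2 (A j) + l2 (B j) ≤ _ := add_le_add h1 h2
          _ = ((2 ^ d * C1 + 2) * n) * (2 : ℝ) ^ (-(c * j)) := by ring
    _ = ((2 ^ d * C1 + 2) * n) * ∑ j ∈ Ioo s I, (2 : ℝ) ^ (-(c * j)) := by
        rw [Finset.mul_sum]
    _ ≤ ((2 ^ d * C1 + 2) * n) * ((2 : ℝ) ^ (-(c * s)) / (1 - (2 : ℝ) ^ (-c))) :=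
        mul_le_mul_of_nonneg_left (TA_geom c hc0 s I) (by positivity)
    _ = (2 ^ d * C1 + 2) / (1 - (2 : ℝ) ^ (-c)) * (2 : ℝ) ^ (-(c * s)) * n := by
        ring
/- END TA -/

/- MODULE TB -/
private theorem TB_sum (c : ℝ) (hc : 0 < c) :
    ∃ K : ℝ, 0 < K ∧ ∀ i1 I : ℕ,
      ∑ i ∈ Ico i1 I, ((i : ℝ) + 1) * (2 : ℝ) ^ (-(c * i)) ≤ K * (2 : ℝ) ^ (-(c / 2 * i1)) := by
  have hr0 : (0 : ℝ) < (2 : ℝ) ^ (-(c / 2)) := Real.rpow_pos_of_pos (by norm_num) _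
  have hr1 : (2 : ℝ) ^ (-(c / 2)) < 1 :=
    Real.rpow_lt_one_of_one_lt_of_neg (by norm_num) (by linarith)
  have hpow : ∀ n : ℕ, ((2 : ℝ) ^ (-(c / 2))) ^ n = (2 : ℝ) ^ (-(c / 2 * n)) := by
    intro n
    rw [← Real.rpow_natCast, ← Real.rpow_mul (by norm_num)]
    congr 1
    ring
  have hs : Summable fun n : ℕ => ((n : ℝ) + 1) * ((2 : ℝ) ^ (-(c / 2))) ^ n := by
    have h1 := summable_pow_mul_geometric_of_norm_lt_one 1
      (r := (2 : ℝ) ^ (-(c / 2))) (by rw [Real.norm_of_nonneg hr0.le]; exact hr1)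
    have h2 := summable_geometric_of_lt_one hr0.le hr1
    refine (h1.add h2).congr fun n => ?_
    ring
  have hnn : ∀ n : ℕ, 0 ≤ ((n : ℝ) + 1) * ((2 : ℝ) ^ (-(c / 2))) ^ n := fun n => by positivity
  refine ⟨∑' n : ℕ, ((n : ℝ) + 1) * ((2 : ℝ) ^ (-(c / 2))) ^ n, ?_, fun i1 I => ?_⟩
  · exact lt_of_lt_of_le (by simp) (hs.sum_le_tsum {0} fun n _ => hnn n)
  · have h1 : ∀ i ∈ Ico i1 I, ((i : ℝ) + 1) * (2 : ℝ) ^ (-(c * i)) ≤
        (((i : ℝ) + 1) * ((2 : ℝ) ^ (-(c / 2))) ^ i) * (2 : ℝ) ^ (-(c / 2 * i1)) := by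
      intro i hi
      have hi1 : (i1 : ℝ) ≤ i := by exact_mod_cast (mem_Ico.mp hi).1
      have h2 : (2 : ℝ) ^ (-(c * i)) = (2 : ℝ) ^ (-(c / 2 * i)) * (2 : ℝ) ^ (-(c / 2 * i)) := by
        rw [← Real.rpow_add (by norm_num)]
        congr 1
        ring
      have h3 : (2 : ℝ) ^ (-(c / 2 * i)) ≤ (2 : ℝ) ^ (-(c / 2 * i1)) := by
        apply Real.rpow_le_rpow_of_exponent_le (by norm_num)
        nlinarith
      rw [h2, hpow, ← mul_assoc]
      exact mul_le_mul_of_nonneg_left h3 (by positivity)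
    refine (Finset.sum_le_sum h1).trans ?_
    rw [← Finset.sum_mul]
    exact mul_le_mul_of_nonneg_right (hs.sum_le_tsum _ fun n _ => hnn n) (by positivity)

/-- The errors off the major sets: block by block with rm (m j = E u i (2^i + j) off V i, times mu),
E_var: V = 2 C 2^(-c i); sum over i ≥ i1 of (i+1) 2 C 2^(-c i) ≤ C' 2^(-c i1/2). The maximal function
over [2^i1, 2^I) is at most the sum over the blocks i1 ≤ i < I. -/
theorem err_off (d u : ℕ) (hu : 1 ≤ u) :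
    ∃ (C c : ℝ) (i0 : ℕ), 0 < C ∧ 0 < c ∧ ∀ (R : ℕ) [NeZero R] (i1 I : ℕ), i0 ≤ i1 →
      ∀ (μ : (Fin d → ZMod R) → ℂ), (∀ r, ‖μ r‖ ≤ 8) → ∀ f : (Fin d → ZMod R) → ℂ,
        l2 (mx (Ico (2 ^ i1) (2 ^ I)) (fun k =>
          Tm (fun r => open Classical in
            if V (Nat.log 2 k) (fr r) then 0 else E u (Nat.log 2 k) k (fr r) * μ r) f))
          ≤ C * (2 : ℝ) ^ (-(c * i1)) * Real.sqrt (n2 f) := by
  classical
  obtain ⟨C, c, i0, hC, hc, hE⟩ := E_var d u hu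
  obtain ⟨K, hK, hsum⟩ := TB_sum c hc
  refine ⟨8 * C * K, c / 2, i0, by positivity, by positivity, ?_⟩
  intro R _ i1 I hi1 μ hμ f
  -- the block multipliers
  obtain ⟨m, hm⟩ : ∃ m : ℕ → ℕ → (Fin d → ZMod R) → ℂ, ∀ i j r,
      m i j r = if V i (fr r) then 0 else E u i (2 ^ i + j) (fr r) * μ r :=
    ⟨fun i j r => if V i (fr r) then 0 else E u i (2 ^ i + j) (fr r) * μ r, fun _ _ _ => rfl⟩
  have hblock : ∀ i, i0 ≤ i → l2 (mx (range (2 ^ i)) (fun j => Tm (m i j) f)) ≤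
      (i + 1) * (8 * (C * (2 : ℝ) ^ (-(c * i)))) * Real.sqrt (n2 f) := by
    intro i hi
    apply rm
    intro r
    by_cases hV : V i (fr r)
    · have h0 : ∀ j, m i j r = 0 := fun j => by rw [hm, if_pos hV]
      rw [h0, norm_zero, zero_add, Finset.sum_eq_zero fun j _ => by rw [h0, h0, sub_zero, norm_zero]]
      positivity
    · have h0 : ∀ j, m i j r = E u i (2 ^ i + j) (fr r) * μ r := fun j => by rw [hm, if_neg hV]
      have h1 := hE i hi (fr r) hV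
      rw [Finset.sum_Ico_eq_sum_range] at h1
      have h2 : 2 ^ (i + 1) - 2 ^ i = 2 ^ i := by
        rw [pow_succ]
        omega
      rw [h2] at h1
      have h3 : ‖m i 0 r‖ ≤ ‖E u i (2 ^ i) (fr r)‖ * 8 := by
        rw [h0, norm_mul, add_zero]
        exact mul_le_mul_of_nonneg_left (hμ r) (norm_nonneg _)
      have h4 : ∑ j ∈ range (2 ^ i), ‖m i (j + 1) r - m i j r‖ ≤
          (∑ j ∈ range (2 ^ i), ‖E u i (2 ^ i + j + 1) (fr r) - E u i (2 ^ i + j) (fr r)‖) * 8 := by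
        rw [Finset.sum_mul]
        refine Finset.sum_le_sum fun j _ => ?_
        rw [h0, h0, ← sub_mul, norm_mul, ← add_assoc]
        exact mul_le_mul_of_nonneg_left (hμ r) (norm_nonneg _)
      nlinarith
  have hpt : ∀ x, mx (Ico (2 ^ i1) (2 ^ I)) (fun k =>
      Tm (fun r => if V (Nat.log 2 k) (fr r) then 0 else E u (Nat.log 2 k) k (fr r) * μ r) f) x ≤
      ∑ i ∈ Ico i1 I, mx (range (2 ^ i)) (fun j => Tm (m i j) f) x := by
    intro x
    apply mx_le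
    · exact Finset.sum_nonneg fun i _ => mx_nonneg _ _ _
    · intro k hk
      rw [mem_Ico] at hk
      have hk0 : k ≠ 0 := by
        have := pow_pos (show (0 : ℕ) < 2 by norm_num) i1
        omega
      have h1 : 2 ^ Nat.log 2 k ≤ k := Nat.pow_log_le_self 2 hk0
      have h2 : k < 2 ^ (Nat.log 2 k + 1) := Nat.lt_pow_succ_log_self (by norm_num) k
      have h3 : i1 ≤ Nat.log 2 k := Nat.le_log_of_pow_le (by norm_num) hk.1
      have h4 : Nat.log 2 k < I := Nat.log_lt_of_lt_pow hk0 hk.2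
      have h5 : k = 2 ^ Nat.log 2 k + (k - 2 ^ Nat.log 2 k) := by omega
      have h6 : k - 2 ^ Nat.log 2 k ∈ range (2 ^ Nat.log 2 k) := by
        rw [mem_range]
        rw [pow_succ] at h2
        omega
      have h7 : (fun r => if V (Nat.log 2 k) (fr r) then (0 : ℂ) else E u (Nat.log 2 k) k (fr r) * μ r) =
          m (Nat.log 2 k) (k - 2 ^ Nat.log 2 k) := by
        funext r
        rw [hm, ← h5]
      rw [h7]
      refine le_trans (le_mx _ (fun j => Tm (m (Nat.log 2 k) j) f) x _ h6) ?_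
      exact Finset.single_le_sum (f := fun i => mx (range (2 ^ i)) (fun j => Tm (m i j) f) x)
        (fun i _ => mx_nonneg _ _ _) (mem_Ico.mpr ⟨h3, h4⟩)
  refine le_trans (l2_mono _ _ (fun x => mx_nonneg _ _ _) hpt) ?_
  refine le_trans (l2_sum_le _ _) ?_
  refine le_trans (Finset.sum_le_sum fun i hi => hblock i (hi1.trans (mem_Ico.mp hi).1)) ?_
  rw [← Finset.sum_mul]
  refine mul_le_mul_of_nonneg_right ?_ (Real.sqrt_nonneg _)
  have h9 := hsum i1 I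
  have h10 : ∑ i ∈ Ico i1 I, ((i : ℝ) + 1) * (8 * (C * (2 : ℝ) ^ (-(c * i)))) =
      8 * C * ∑ i ∈ Ico i1 I, ((i : ℝ) + 1) * (2 : ℝ) ^ (-(c * i)) := by
    rw [Finset.mul_sum]
    refine Finset.sum_congr rfl fun i _ => ?_
    ring
  rw [h10, mul_assoc (8 * C) K]
  exact mul_le_mul_of_nonneg_left h9 (by positivity)
/- END TB -/

/- MODULE TC -/
private theorem TC_blocks (F : ℕ → ℕ → ℝ) (i1 I : ℕ) :
    ∑ k ∈ Ico (2 ^ i1) (2 ^ I), F (Nat.log 2 k) k =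
      ∑ i ∈ Ico i1 I, ∑ k ∈ Ico (2 ^ i) (2 ^ (i + 1)), F i k := by
  have hmaps : ∀ k ∈ Ico (2 ^ i1) (2 ^ I), Nat.log 2 k ∈ Ico i1 I := by
    intro k hk
    rw [mem_Ico] at hk
    have hk0 : k ≠ 0 := by
      have := pow_pos (show (0 : ℕ) < 2 by norm_num) i1
      omega
    exact mem_Ico.mpr ⟨Nat.le_log_of_pow_le (by norm_num) hk.1, Nat.log_lt_of_lt_pow hk0 hk.2⟩
  rw [← Finset.sum_fiberwise_of_maps_to hmaps]
  refine Finset.sum_congr rfl fun i hi => ?_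
  rw [mem_Ico] at hi
  refine Finset.sum_congr ?_ ?_
  · ext k
    rw [mem_filter, mem_Ico, mem_Ico]
    constructor
    · rintro ⟨hk, h⟩
      have hk0 : k ≠ 0 := by
        have := pow_pos (show (0 : ℕ) < 2 by norm_num) i1
        omega
      rw [← h]
      exact ⟨Nat.pow_log_le_self 2 hk0, Nat.lt_pow_succ_log_self (by norm_num) k⟩
    · rintro ⟨h1, h2⟩
      refine ⟨⟨le_trans (Nat.pow_le_pow_right (by norm_num) hi.1) h1,
        lt_of_lt_of_le h2 (Nat.pow_le_pow_right (by norm_num) hi.2)⟩, ?_⟩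
      exact (Nat.log_eq_iff (Or.inr ⟨by norm_num, by
        have := pow_pos (show (0 : ℕ) < 2 by norm_num) i
        omega⟩)).mpr ⟨h1, h2⟩
  · intro k hk
    rw [mem_Ico] at hk
    have h1 : Nat.log 2 k = i := (Nat.log_eq_iff (Or.inr ⟨by norm_num, by
        have := pow_pos (show (0 : ℕ) < 2 by norm_num) i
        omega⟩)).mpr hk
    rw [h1]

/-- The errors on the major sets: l2_mx_sq, n2_Tm_sum_le and E_sq: for every r the sum over k of
|E mu|^2 over the k whose block i has V i (fr r) is at most C (2^(-c s) + rho^2) * const: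
if nearQ (Qf s) (tau i1) (fr r) then |mu| ≤ rho and the first bound of E_sq, otherwise |mu| ≤ 8 and
the second. Square root: sqrt (x + y) ≤ sqrt x + sqrt y. -/
theorem err_on (d u : ℕ) (hu : 1 ≤ u) :
    ∃ (C c : ℝ) (i0 : ℕ), 0 < C ∧ 0 < c ∧ ∀ (R : ℕ) [NeZero R] (s i1 I : ℕ), i0 ≤ s → s ≤ i1 →
      ∀ (μ : (Fin d → ZMod R) → ℂ) (ρ : ℝ), 0 ≤ ρ → (∀ r, ‖μ r‖ ≤ 8) →
        (∀ r, nearQ (Qf s) (tau i1) (fr r) → ‖μ r‖ ≤ ρ) → ∀ f : (Fin d → ZMod R) → ℂ,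
        l2 (mx (Ico (2 ^ i1) (2 ^ I)) (fun k =>
          Tm (fun r => open Classical in
            if V (Nat.log 2 k) (fr r) then E u (Nat.log 2 k) k (fr r) * μ r else 0) f))
          ≤ C * ((2 : ℝ) ^ (-(c * s)) + ρ) * Real.sqrt (n2 f) := by
  classical
  obtain ⟨C, c, i0, hC, hc, hE⟩ := E_sq d u hu
  refine ⟨8 * Real.sqrt C, c / 2, i0, by positivity, by positivity, ?_⟩
  intro R _ s i1 I hs hsi μ ρ hρ hμ hμρ f
  have h2pos : ∀ x : ℝ, (0 : ℝ) < (2 : ℝ) ^ x := fun x => Real.rpow_pos_of_pos (by norm_num) x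
  -- the pointwise bound of the square function
  have hpt : ∀ r : Fin d → ZMod R, ∑ k ∈ Ico (2 ^ i1) (2 ^ I),
      ‖(if V (Nat.log 2 k) (fr r) then E u (Nat.log 2 k) k (fr r) * μ r else 0 : ℂ)‖ ^ 2 ≤
        64 * C * ((2 : ℝ) ^ (-(c / 2 * s)) + ρ) ^ 2 := by
    intro r
    rw [TC_blocks (fun i k => ‖(if V i (fr r) then E u i k (fr r) * μ r else 0 : ℂ)‖ ^ 2) i1 I]
    have h1 : ∑ i ∈ Ico i1 I, ∑ k ∈ Ico (2 ^ i) (2 ^ (i + 1)),
        ‖(if V i (fr r) then E u i k (fr r) * μ r else 0 : ℂ)‖ ^ 2 =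
        (∑ i ∈ (Ico i1 I).filter (fun i => V i (fr r)), ∑ k ∈ Ico (2 ^ i) (2 ^ (i + 1)),
          ‖E u i k (fr r)‖ ^ 2) * ‖μ r‖ ^ 2 := by
      rw [Finset.sum_mul, Finset.sum_filter]
      refine Finset.sum_congr rfl fun i _ => ?_
      by_cases hV : V i (fr r)
      · simp only [if_pos hV, Finset.sum_mul, norm_mul, mul_pow]
      · simp [if_neg hV]
    rw [h1]
    have hT : ∀ i ∈ (Ico i1 I).filter (fun i => V i (fr r)), i1 ≤ i ∧ i < I ∧ V i (fr r) := by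
      intro i hi
      rw [mem_filter, mem_Ico] at hi
      exact ⟨hi.1.1, hi.1.2, hi.2⟩
    obtain ⟨hA, hB⟩ := hE (fr r) i1 I (hs.trans hsi) _ hT
    have hsq' : ((2 : ℝ) ^ (-(c / 2 * s))) ^ 2 = (2 : ℝ) ^ (-(c * s)) := by
      rw [← Real.rpow_natCast, ← Real.rpow_mul (by norm_num)]
      congr 1
      push_cast
      ring
    have hp := h2pos (-(c / 2 * s))
    by_cases hn : nearQ (Qf s) (tau i1) (fr r)
    · have h2 : ‖μ r‖ ^ 2 ≤ ρ ^ 2 := pow_le_pow_left₀ (norm_nonneg _) (hμρ r hn) 2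
      refine (mul_le_mul hA h2 (by positivity) hC.le).trans ?_
      nlinarith [mul_pos hC hp, mul_nonneg (mul_pos hC hp).le hρ, sq_nonneg ρ, mul_nonneg hC.le (sq_nonneg ρ),
        mul_nonneg hC.le (sq_nonneg ((2 : ℝ) ^ (-(c / 2 * s))))]
    · have h2 : ‖μ r‖ ^ 2 ≤ 8 ^ 2 := pow_le_pow_left₀ (norm_nonneg _) (hμ r) 2
      have h3 := hB s hs hsi hn
      refine (mul_le_mul h3 h2 (by positivity) (by positivity)).trans ?_
      rw [← hsq']
      nlinarith [mul_pos hC hp, mul_nonneg (mul_pos hC hp).le hρ, mul_nonneg hC.le (sq_nonneg ρ)]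
  have h5 := n2_Tm_sum_le (Ico (2 ^ i1) (2 ^ I)) (fun k r =>
    (if V (Nat.log 2 k) (fr r) then E u (Nat.log 2 k) k (fr r) * μ r else 0 : ℂ))
    (64 * C * ((2 : ℝ) ^ (-(c / 2 * s)) + ρ) ^ 2) hpt f
  refine (l2_mx_sq _ _ _ h5).trans ?_
  have hn2 : 0 ≤ n2 f := Finset.sum_nonneg fun x _ => by positivity
  rw [Real.sqrt_mul (by positivity), Real.sqrt_mul (by positivity), Real.sqrt_mul (by norm_num),
    Real.sqrt_sq (add_nonneg (h2pos _).le hρ)]
  have h64 : Real.sqrt 64 = 8 := by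
    rw [show (64 : ℝ) = 8 ^ 2 by norm_num]
    exact Real.sqrt_sq (by norm_num)
  rw [h64]
/- END TC -/

/- MODULE TD -/
/-- The core estimate: Ag (Nk u k) = Tm a, a (Nk u k) = E u i k + a (Qf i) b (Nk u k) (Qf i) with
i = Nat.log 2 k; model_mx for g = Tm mu f (n2_Tm_le), err_off, err_on; exponent c = min, and
2^(-c i1) ≤ 2^(-c s). (Ag_eq, Bg_eq, Tm_mul, Tm_add, Tm_sub.) -/
theorem core (d u : ℕ) (hu : 1 ≤ u) :
    ∃ (C c : ℝ) (i0 : ℕ), 0 < C ∧ 0 < c ∧ ∀ (R : ℕ) [NeZero R] (s i1 I : ℕ), i0 ≤ s → s ≤ i1 →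
      ∀ (μ : (Fin d → ZMod R) → ℂ) (ρ : ℝ), 0 ≤ ρ → (∀ r, ‖μ r‖ ≤ 8) →
        (∀ r, nearQ (Qf s) (tau i1) (fr r) → ‖μ r‖ ≤ ρ) → ∀ f : (Fin d → ZMod R) → ℂ,
        l2 (mx (Ico (2 ^ i1) (2 ^ I)) (fun k => Tm (fun r => (a (Nk u k) (fr r)
            - a (Qf s) (fr r) * b (Nk u k) (Qf s) (fr r)) * μ r) f))
          ≤ C * ((2 : ℝ) ^ (-(c * s)) + ρ) * Real.sqrt (n2 f) := by
  classical
  obtain ⟨C1, c1, j1, hC1, hc1, h1⟩ := model_mx d u hu
  obtain ⟨C2, c2, j2, hC2, hc2, h2⟩ := err_off d u hu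
  obtain ⟨C3, c3, j3, hC3, hc3, h3⟩ := err_on d u hu
  refine ⟨8 * C1 + C2 + C3, min c1 (min c2 c3), max j1 (max j2 j3), by positivity,
    lt_min hc1 (lt_min hc2 hc3), ?_⟩
  intro R _ s i1 I hs hsi μ ρ hρ hμ hμρ f
  have hs1 : j1 ≤ s := (le_max_left _ _).trans hs
  have hs2 : j2 ≤ s := (le_max_left _ _).trans ((le_max_right _ _).trans hs)
  have hs3 : j3 ≤ s := (le_max_right _ _).trans ((le_max_right _ _).trans hs)
  have hexp : ∀ c' : ℝ, 0 < c' → min c1 (min c2 c3) ≤ c' → ∀ t : ℕ, s ≤ t →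
      (2 : ℝ) ^ (-(c' * t)) ≤ (2 : ℝ) ^ (-(min c1 (min c2 c3) * s)) := by
    intro c' hc' hle t ht
    apply Real.rpow_le_rpow_of_exponent_le (by norm_num)
    have ht' : (s : ℝ) ≤ t := by exact_mod_cast ht
    have hs0 : (0 : ℝ) ≤ s := Nat.cast_nonneg s
    have : min c1 (min c2 c3) * s ≤ c' * t := mul_le_mul hle ht' hs0 hc'.le
    linarith
  have e1 := hexp c1 hc1 (min_le_left _ _) s le_rfl
  have e2 := hexp c2 hc2 ((min_le_right _ _).trans (min_le_left _ _)) i1 hsi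
  have e3 := hexp c3 hc3 ((min_le_right _ _).trans (min_le_right _ _)) s le_rfl
  have b1 := h1 R s i1 I hs1 hsi (Tm μ f)
  have b2 := h2 R i1 I (hs2.trans hsi) μ hμ f
  have b3 := h3 R s i1 I hs3 hsi μ ρ hρ hμ hμρ f
  have hn2 : 0 ≤ n2 f := Finset.sum_nonneg fun x _ => by positivity
  have hg : Real.sqrt (n2 (Tm μ f)) ≤ 8 * Real.sqrt (n2 f) := by
    have h := n2_Tm_le μ 8 (by norm_num) hμ f
    calc Real.sqrt (n2 (Tm μ f)) ≤ Real.sqrt (8 ^ 2 * n2 f) := Real.sqrt_le_sqrt h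
      _ = 8 * Real.sqrt (n2 f) := by
        rw [Real.sqrt_mul (by norm_num), Real.sqrt_sq (by norm_num)]
  -- the decomposition
  obtain ⟨v1, hv1⟩ : ∃ v : ℕ → (Fin d → ZMod R) → ℂ, v = fun k =>
    Tm (fun r => a (Qf (Nat.log 2 k)) (fr r) * b (Nk u k) (Qf (Nat.log 2 k)) (fr r)
            - a (Qf s) (fr r) * b (Nk u k) (Qf s) (fr r)) (Tm μ f) := ⟨_, rfl⟩
  obtain ⟨v2, hv2⟩ : ∃ v : ℕ → (Fin d → ZMod R) → ℂ, v = fun k =>
          Tm (fun r =>
            if V (Nat.log 2 k) (fr r) then 0 else E u (Nat.log 2 k) k (fr r) * μ r) f := ⟨_, rfl⟩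
  obtain ⟨v3, hv3⟩ : ∃ v : ℕ → (Fin d → ZMod R) → ℂ, v = fun k =>
          Tm (fun r =>
            if V (Nat.log 2 k) (fr r) then E u (Nat.log 2 k) k (fr r) * μ r else 0) f := ⟨_, rfl⟩
  have hdec : ∀ k, Tm (fun r => (a (Nk u k) (fr r)
      - a (Qf s) (fr r) * b (Nk u k) (Qf s) (fr r)) * μ r) f =
      fun x => v1 k x + (v2 k x + v3 k x) := by
    intro k
    have hv1k : v1 k = Tm (fun r => (a (Qf (Nat.log 2 k)) (fr r) * b (Nk u k) (Qf (Nat.log 2 k)) (fr r)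
            - a (Qf s) (fr r) * b (Nk u k) (Qf s) (fr r)) * μ r) f := by
      rw [hv1]
      exact Tm_mul _ _ _
    have hv23 : (fun x => v2 k x + v3 k x) = Tm (fun r => E u (Nat.log 2 k) k (fr r) * μ r) f := by
      rw [hv2, hv3, ← Tm_add]
      congr 1
      funext r
      by_cases hV : V (Nat.log 2 k) (fr r)
      · rw [if_pos hV, if_pos hV, zero_add]
      · rw [if_neg hV, if_neg hV, add_zero]
    have hx : (fun x => v1 k x + (v2 k x + v3 k x)) =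
        fun x => v1 k x + Tm (fun r => E u (Nat.log 2 k) k (fr r) * μ r) f x := by
      funext x
      rw [← congrFun hv23 x]
    rw [hx, hv1k, ← Tm_add]
    congr 1
    funext r
    unfold E
    ring
  have hpt : ∀ x, mx (Ico (2 ^ i1) (2 ^ I)) (fun k => Tm (fun r => (a (Nk u k) (fr r)
      - a (Qf s) (fr r) * b (Nk u k) (Qf s) (fr r)) * μ r) f) x ≤
      mx (Ico (2 ^ i1) (2 ^ I)) v1 x +
        (mx (Ico (2 ^ i1) (2 ^ I)) v2 x + mx (Ico (2 ^ i1) (2 ^ I)) v3 x) := by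
    intro x
    apply mx_le
    · exact add_nonneg (mx_nonneg _ _ _) (add_nonneg (mx_nonneg _ _ _) (mx_nonneg _ _ _))
    · intro k hk
      rw [hdec]
      refine (norm_add_le _ _).trans (add_le_add (le_mx _ _ _ _ hk) ?_)
      exact (norm_add_le _ _).trans (add_le_add (le_mx _ _ _ _ hk) (le_mx _ _ _ _ hk))
  refine le_trans (l2_mono _ _ (fun x => mx_nonneg _ _ _) hpt) ?_
  refine le_trans (l2_add_le _ _) ?_
  refine le_trans (add_le_add_right (l2_add_le _ _) _) ?_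
  rw [← hv1] at b1
  rw [← hv2] at b2
  rw [← hv3] at b3
  have hE0 : 0 ≤ (2 : ℝ) ^ (-(min c1 (min c2 c3) * s)) := (Real.rpow_pos_of_pos (by norm_num) _).le
  have hq0 := Real.sqrt_nonneg (n2 f)
  have f1 : l2 (mx (Ico (2 ^ i1) (2 ^ I)) v1) ≤
      8 * C1 * (2 : ℝ) ^ (-(min c1 (min c2 c3) * s)) * Real.sqrt (n2 f) := by
    refine b1.trans ?_
    calc C1 * (2 : ℝ) ^ (-(c1 * s)) * Real.sqrt (n2 (Tm μ f)) ≤
        C1 * (2 : ℝ) ^ (-(min c1 (min c2 c3) * s)) * (8 * Real.sqrt (n2 f)) :=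
          mul_le_mul (mul_le_mul_of_nonneg_left e1 hC1.le) hg (Real.sqrt_nonneg _) (by positivity)
      _ = _ := by ring
  have f2 : l2 (mx (Ico (2 ^ i1) (2 ^ I)) v2) ≤
      C2 * (2 : ℝ) ^ (-(min c1 (min c2 c3) * s)) * Real.sqrt (n2 f) :=
    b2.trans (mul_le_mul_of_nonneg_right (mul_le_mul_of_nonneg_left e2 hC2.le) hq0)
  have f3 : l2 (mx (Ico (2 ^ i1) (2 ^ I)) v3) ≤
      C3 * ((2 : ℝ) ^ (-(min c1 (min c2 c3) * s)) + ρ) * Real.sqrt (n2 f) :=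
    b3.trans (mul_le_mul_of_nonneg_right (mul_le_mul_of_nonneg_left (by linarith) hC3.le) hq0)
  have f4 : 0 ≤ (8 * C1 + C2) * ρ * Real.sqrt (n2 f) := by positivity
  linarith [f1, f2, f3, f4]
/- END TD -/

/- MODULE TE -/
/-- BOURGAIN'S MAXIMAL INEQUALITY on (Z/R)^d, scales 2^k. For k < 2^i0: 2^i0 operators of norm ≤ 1
(l2_mx_sq). For k ≥ 2^i0: core with u = 1, s = i1 = i0, mu = 1, rho = 1, plus the model
Ag (Qf s) (Bg (2^k) (Qf s) f) whose maximal function is that of Bg (2^k) (Qf s) (Tm (a (Qf s)) f):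
hl_box. (s an arbitrary finite set of k: contained in some range; mx is monotone in the set.) -/
theorem maximal_grp (d : ℕ) :
    ∃ C : ℝ, 0 < C ∧ ∀ (R : ℕ) [NeZero R] (s : Finset ℕ) (f : (Fin d → ZMod R) → ℂ),
      l2 (mx s (fun k => Ag (2 ^ k) f)) ≤ C * Real.sqrt (n2 f) := by
  classical
  obtain ⟨C, c, i0, hC, hc, hcore⟩ := core d 1 le_rfl
  refine ⟨Real.sqrt ((2 : ℝ) ^ i0) + (C * ((2 : ℝ) ^ (-(c * i0)) + 1) + 2 ^ d), by positivity, ?_⟩
  intro R _ s f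
  have hn2 : 0 ≤ n2 f := Finset.sum_nonneg fun x _ => by positivity
  -- a bound for the indices
  obtain ⟨I, hI⟩ : ∃ I : ℕ, ∀ k ∈ s, k < 2 ^ I := by
    refine ⟨s.sup id, fun k hk => ?_⟩
    exact lt_of_le_of_lt (Finset.le_sup (f := id) hk) Nat.lt_two_pow_self
  have hNk : ∀ k, Nk 1 k = 2 ^ k := fun k => by unfold Nk; exact one_mul _
  -- the first scales
  have hfirst : l2 (mx (range (2 ^ i0)) (fun k => Ag (2 ^ k) f)) ≤
      Real.sqrt ((2 : ℝ) ^ i0) * Real.sqrt (n2 f) := by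
    rw [← Real.sqrt_mul (by positivity)]
    apply l2_mx_sq
    have h1 : ∀ k ∈ range (2 ^ i0), n2 (Ag (2 ^ k) f) ≤ n2 f := by
      intro k _
      rw [Ag_eq]
      have h := n2_Tm_le (fun r => a (2 ^ k) (fr r)) 1 zero_le_one (fun r => a_norm_le _ _) f
      rwa [one_pow, one_mul] at h
    refine (Finset.sum_le_sum h1).trans ?_
    rw [Finset.sum_const, card_range, nsmul_eq_mul]
    push_cast
    exact le_rfl
  -- the other scales
  have hc1 := hcore R i0 i0 I le_rfl le_rfl (fun _ => 1) 1 zero_le_one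
    (fun r => by rw [norm_one]; norm_num) (fun r _ => by rw [norm_one]) f
  have hbox := hl_box (R := R) (d := d) 1 (Qf i0) (Ico (2 ^ i0) (2 ^ I)) (Tm (fun r => a (Qf i0) (fr r)) f)
  have hg : Real.sqrt (n2 (Tm (fun r => a (Qf i0) (fr r)) f)) ≤ Real.sqrt (n2 f) := by
    apply Real.sqrt_le_sqrt
    have h := n2_Tm_le (fun r : Fin d → ZMod R => a (Qf i0) (fr r)) 1 zero_le_one
      (fun r => a_norm_le _ _) f
    rwa [one_pow, one_mul] at h
  have hdec : ∀ k, Ag (2 ^ k) f = fun x =>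
      Tm (fun r => (a (Nk 1 k) (fr r) - a (Qf i0) (fr r) * b (Nk 1 k) (Qf i0) (fr r)) * 1) f x +
        Bg (Nk 1 k) (Qf i0) (Tm (fun r => a (Qf i0) (fr r)) f) x := by
    intro k
    rw [Bg_eq, Tm_mul, ← Tm_add, Ag_eq, hNk]
    congr 1
    funext r
    ring
  have hpt : ∀ x, mx s (fun k => Ag (2 ^ k) f) x ≤
      mx (range (2 ^ i0)) (fun k => Ag (2 ^ k) f) x +
        (mx (Ico (2 ^ i0) (2 ^ I)) (fun k => Tm (fun r => (a (Nk 1 k) (fr r) -
          a (Qf i0) (fr r) * b (Nk 1 k) (Qf i0) (fr r)) * 1) f) x +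
        mx (Ico (2 ^ i0) (2 ^ I)) (fun k =>
          Bg (Nk 1 k) (Qf i0) (Tm (fun r => a (Qf i0) (fr r)) f)) x) := by
    intro x
    have hA := mx_nonneg (range (2 ^ i0)) (fun k => Ag (2 ^ k) f) x
    have hB := mx_nonneg (Ico (2 ^ i0) (2 ^ I)) (fun k => Tm (fun r => (a (Nk 1 k) (fr r) -
          a (Qf i0) (fr r) * b (Nk 1 k) (Qf i0) (fr r)) * 1) f) x
    have hD := mx_nonneg (Ico (2 ^ i0) (2 ^ I)) (fun k =>
          Bg (Nk 1 k) (Qf i0) (Tm (fun r => a (Qf i0) (fr r)) f)) x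
    apply mx_le
    · exact add_nonneg hA (add_nonneg hB hD)
    · intro k hk
      by_cases hk0 : k < 2 ^ i0
      · have h := le_mx (range (2 ^ i0)) (fun k => Ag (2 ^ k) f) x k (mem_range.mpr hk0)
        refine le_trans h ?_
        linarith
      · have hk1 : k ∈ Ico (2 ^ i0) (2 ^ I) := mem_Ico.mpr ⟨not_lt.mp hk0, hI k hk⟩
        have h1 := le_mx (Ico (2 ^ i0) (2 ^ I)) (fun k => Tm (fun r => (a (Nk 1 k) (fr r) -
          a (Qf i0) (fr r) * b (Nk 1 k) (Qf i0) (fr r)) * 1) f) x k hk1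
        have h2 := le_mx (Ico (2 ^ i0) (2 ^ I)) (fun k =>
          Bg (Nk 1 k) (Qf i0) (Tm (fun r => a (Qf i0) (fr r)) f)) x k hk1
        rw [hdec]
        refine (norm_add_le _ _).trans ?_
        linarith
  refine le_trans (l2_mono _ _ (fun x => mx_nonneg _ _ _) hpt) ?_
  refine le_trans (l2_add_le _ _) ?_
  refine le_trans (add_le_add_right (l2_add_le _ _) _) ?_
  have h5 : (2 : ℝ) ^ d * Real.sqrt (n2 (Tm (fun r : Fin d → ZMod R => a (Qf i0) (fr r)) f)) ≤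
      2 ^ d * Real.sqrt (n2 f) := mul_le_mul_of_nonneg_left hg (by positivity)
  have h6 := hbox.trans h5
  have e1 : l2 (fun x => mx (range (2 ^ i0)) (fun k => Ag (2 ^ k) f) x) ≤
      Real.sqrt ((2 : ℝ) ^ i0) * Real.sqrt (n2 f) := hfirst
  rw [add_mul, add_mul]
  exact add_le_add e1 (add_le_add hc1 h6)
/- END TE -/

/- MODULE TG -/
/-- DECAY. s ≥ i0, M0 ≥ 1. Let i1 ≥ s be so large that 7 d M0^d tau i1 ≤ 2^(-c s) and K0 = 2^i1, K0 so
large that 7 d M0^d * 2 * 2^(-K0) ≤ 2^(-c s). f - Bg M0 (Qf s) f = Tm mu f with mu = 1 - b M0 (Qf s),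
|mu| ≤ 2; b_filter_near: rho = 2^(-c s). Then core, and for the model part
|a (Qf s)| |b (Nk u k) (Qf s) mu| ≤ 7 d M0^d/2^k (b_filter), so the sum over k ≥ K0 is small. -/
theorem decay_grp (d u : ℕ) (hu : 1 ≤ u) :
    ∃ (C c : ℝ) (i0 : ℕ), 0 < C ∧ 0 < c ∧ ∀ s : ℕ, i0 ≤ s → ∀ M0 : ℕ, 1 ≤ M0 →
      ∃ K0 : ℕ, ∀ (R : ℕ) [NeZero R] (t : Finset ℕ) (f : (Fin d → ZMod R) → ℂ),
        (∀ k ∈ t, K0 ≤ k) →
        l2 (mx t (fun k => Ag (Nk u k) (fun x => f x - Bg M0 (Qf s) f x)))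
          ≤ C * (2 : ℝ) ^ (-(c * s)) * Real.sqrt (n2 f) := by
  classical
  obtain ⟨C, c, i0, hC, hc, hcore⟩ := core d u hu
  refine ⟨2 * C + 1, c, i0, by positivity, hc, ?_⟩
  intro s hs M0 hM0
  obtain ⟨ε, hε⟩ : ∃ ε : ℝ, ε = (2 : ℝ) ^ (-(c * s)) := ⟨_, rfl⟩
  have hε0 : 0 < ε := by rw [hε]; exact Real.rpow_pos_of_pos (by norm_num) _
  obtain ⟨A, hA⟩ : ∃ A : ℝ, A = 7 * d * (M0 : ℝ) ^ d := ⟨_, rfl⟩
  have hA0 : 0 ≤ A := by rw [hA]; positivity
  -- the parameters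
  obtain ⟨n, hn⟩ : ∃ n : ℕ, (1 / 2 : ℝ) ^ n < ε / (2 * A + 1) :=
    exists_pow_lt_of_lt_one (by positivity) (by norm_num)
  have hn2 : (2 * A + 1) * (1 / 2 : ℝ) ^ n ≤ ε := by
    rw [lt_div_iff₀ (by positivity)] at hn
    linarith
  have hn1 : A * (1 / 2 : ℝ) ^ n ≤ ε := by
    have : 0 ≤ (A + 1) * (1 / 2 : ℝ) ^ n := by positivity
    nlinarith
  have hn3 : 2 * A * (1 / 2 : ℝ) ^ n ≤ ε := by
    have : 0 ≤ (1 / 2 : ℝ) ^ n := by positivity
    nlinarith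
  obtain ⟨i1, hi1⟩ : ∃ i1 : ℕ, i1 = max s (n + 1) := ⟨_, rfl⟩
  have hsi : s ≤ i1 := by rw [hi1]; exact le_max_left _ _
  have hni : n + 1 ≤ i1 := by rw [hi1]; exact le_max_right _ _
  have htau : A * tau i1 ≤ ε := by
    refine le_trans (mul_le_mul_of_nonneg_left ?_ hA0) hn1
    unfold tau
    refine pow_le_pow_of_le_one (by norm_num) (by norm_num) ?_
    have : i1 - 1 < 2 ^ (i1 - 1) := Nat.lt_two_pow_self
    omega
  refine ⟨2 ^ i1, ?_⟩
  intro R _ t f ht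
  have hf2 : 0 ≤ n2 f := Finset.sum_nonneg fun x _ => by positivity
  obtain ⟨I, hI⟩ : ∃ I : ℕ, ∀ k ∈ t, k < 2 ^ I :=
    ⟨t.sup id, fun k hk => lt_of_le_of_lt (Finset.le_sup (f := id) hk) Nat.lt_two_pow_self⟩
  have hsub : t ⊆ Ico (2 ^ i1) (2 ^ I) := fun k hk => mem_Ico.mpr ⟨ht k hk, hI k hk⟩
  -- the filter
  obtain ⟨μ, hμ⟩ : ∃ μ : (Fin d → ZMod R) → ℂ, μ = fun r => 1 - b M0 (Qf s) (fr r) := ⟨_, rfl⟩
  have hμ8 : ∀ r, ‖μ r‖ ≤ 8 := by
    intro r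
    rw [hμ]
    refine (norm_sub_le _ _).trans ?_
    have h1 := b_norm_le M0 (Qf s) (fr r)
    rw [norm_one]
    linarith
  have hμρ : ∀ r, nearQ (Qf s) (tau i1) (fr r) → ‖μ r‖ ≤ ε := by
    intro r hr
    have h1 := b_filter_near (Qf s) M0 hM0 (tau i1) (tau_pos i1).le (fr r) hr
    rw [← hA] at h1
    rw [hμ]
    exact h1.trans htau
  have hfil : (fun x => f x - Bg M0 (Qf s) f x) = Tm μ f := by
    rw [hμ, Bg_eq, Tm_sub, Tm_one]
  have hc1 := hcore R s i1 I hs hsi μ ε hε0.le hμ8 hμρ f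
  -- the model part
  obtain ⟨w, hw⟩ : ∃ w : ℕ → (Fin d → ZMod R) → ℂ, w = fun k =>
    Tm (fun r => a (Qf s) (fr r) * (b (Nk u k) (Qf s) (fr r) * μ r)) f := ⟨_, rfl⟩
  have hNk1 : ∀ k, 1 ≤ Nk u k := fun k => by
    unfold Nk
    exact Nat.mul_pos hu (Nat.pow_pos (by norm_num))
  have hwk : ∀ k, n2 (w k) ≤ (A ^ 2 * (1 / 4 : ℝ) ^ k) * n2 f := by
    intro k
    have h1 := n2_Tm_le (fun r : Fin d → ZMod R =>
      a (Qf s) (fr r) * (b (Nk u k) (Qf s) (fr r) * μ r)) (A * (1 / 2 : ℝ) ^ k) (by positivity)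
      (fun r => by
        rw [norm_mul]
        have h2 := b_filter (Qf s) (Nk u k) M0 (Qf_pos s) (hNk1 k) hM0 (fr r)
        rw [← hA] at h2
        have h3 : (2 : ℝ) ^ k ≤ (Nk u k : ℕ) := by
          unfold Nk
          push_cast
          have hu' : (1 : ℝ) ≤ u := by exact_mod_cast hu
          have : (0 : ℝ) < 2 ^ k := by positivity
          nlinarith
        have h4 : ‖b (Nk u k) (Qf s) (fr r) * μ r‖ ≤ A * (1 / 2 : ℝ) ^ k := by
          rw [hμ]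
          have h5 : ‖b (Nk u k) (Qf s) (fr r) * (1 - b M0 (Qf s) (fr r))‖ * 2 ^ k ≤ A :=
            (mul_le_mul_of_nonneg_left h3 (norm_nonneg _)).trans h2
          rw [one_div, inv_pow, ← div_eq_mul_inv, le_div_iff₀ (by positivity)]
          exact h5
        calc ‖a (Qf s) (fr r)‖ * ‖b (Nk u k) (Qf s) (fr r) * μ r‖ ≤ 1 * (A * (1 / 2 : ℝ) ^ k) :=
              mul_le_mul (a_norm_le _ _) h4 (norm_nonneg _) zero_le_one
          _ = _ := one_mul _) f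
    rw [hw]
    refine h1.trans (le_of_eq ?_)
    rw [mul_pow, ← pow_mul, mul_comm k 2, pow_mul]
    norm_num
  have hwsum : l2 (mx t w) ≤ ε * Real.sqrt (n2 f) := by
    have h1 : ∑ k ∈ t, n2 (w k) ≤ ε ^ 2 * n2 f := by
      refine (Finset.sum_le_sum fun k _ => hwk k).trans ?_
      rw [← Finset.sum_mul, ← Finset.mul_sum]
      refine mul_le_mul_of_nonneg_right ?_ hf2
      have h2 : ∑ k ∈ t, (1 / 4 : ℝ) ^ k ≤ (1 / 4 : ℝ) ^ (2 ^ i1) / (1 - 1 / 4) :=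
        (Finset.sum_le_sum_of_subset_of_nonneg hsub fun _ _ _ => by positivity).trans
          (geom_sum_Ico_le_of_lt_one (by norm_num) (by norm_num))
      have h3 : (1 / 4 : ℝ) ^ (2 ^ i1) ≤ ((1 / 2 : ℝ) ^ n) ^ 2 := by
        rw [← pow_mul, mul_comm n 2, pow_mul]
        have h4 : n ≤ 2 ^ i1 := by
          have : i1 < 2 ^ i1 := Nat.lt_two_pow_self
          omega
        have h5 : (1 / 4 : ℝ) ^ (2 ^ i1) ≤ (1 / 4 : ℝ) ^ n :=
          pow_le_pow_of_le_one (by norm_num) (by norm_num) h4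
        refine h5.trans (le_of_eq ?_)
        norm_num
      have h6 : ∑ k ∈ t, (1 / 4 : ℝ) ^ k ≤ 4 * ((1 / 2 : ℝ) ^ n) ^ 2 := by
        refine h2.trans ?_
        rw [div_le_iff₀ (by norm_num)]
        have : 0 ≤ ((1 / 2 : ℝ) ^ n) ^ 2 := by positivity
        linarith
      calc A ^ 2 * ∑ k ∈ t, (1 / 4 : ℝ) ^ k ≤ A ^ 2 * (4 * ((1 / 2 : ℝ) ^ n) ^ 2) :=
            mul_le_mul_of_nonneg_left h6 (by positivity)
        _ = (2 * A * (1 / 2 : ℝ) ^ n) ^ 2 := by ring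
        _ ≤ ε ^ 2 := pow_le_pow_left₀ (by positivity) hn3 2
    refine (l2_mx_sq _ _ _ h1).trans (le_of_eq ?_)
    rw [Real.sqrt_mul (by positivity), Real.sqrt_sq hε0.le]
  -- assembly
  obtain ⟨v, hv⟩ : ∃ v : ℕ → (Fin d → ZMod R) → ℂ, v = fun k =>
    Tm (fun r => (a (Nk u k) (fr r) - a (Qf s) (fr r) * b (Nk u k) (Qf s) (fr r)) * μ r) f := ⟨_, rfl⟩
  have hdec : ∀ k, Ag (Nk u k) (fun x => f x - Bg M0 (Qf s) f x) = fun x => v k x + w k x := by
    intro k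
    rw [hfil, Ag_eq, Tm_mul, hv, hw, ← Tm_add]
    congr 1
    funext r
    ring
  have hpt : ∀ x, mx t (fun k => Ag (Nk u k) (fun x => f x - Bg M0 (Qf s) f x)) x ≤
      mx (Ico (2 ^ i1) (2 ^ I)) v x + mx t w x := by
    intro x
    apply mx_le
    · exact add_nonneg (mx_nonneg _ _ _) (mx_nonneg _ _ _)
    · intro k hk
      rw [hdec]
      exact (norm_add_le _ _).trans (add_le_add (le_mx _ _ _ _ (hsub hk)) (le_mx _ _ _ _ hk))
  refine le_trans (l2_mono _ _ (fun x => mx_nonneg _ _ _) hpt) ?_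
  refine le_trans (l2_add_le _ _) ?_
  rw [← hv, ← hε] at hc1
  have e1 : l2 (mx (Ico (2 ^ i1) (2 ^ I)) v) ≤ C * (ε + ε) * Real.sqrt (n2 f) := hc1
  rw [← hε]
  have e2 : l2 (fun x => mx (Ico (2 ^ i1) (2 ^ I)) v x) ≤ C * (ε + ε) * Real.sqrt (n2 f) := e1
  have e3 : l2 (fun x => mx t w x) ≤ ε * Real.sqrt (n2 f) := hwsum
  refine (add_le_add e2 e3).trans (le_of_eq ?_)
  ring
/- END TG -/

end Pool.Agent.GsF
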