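import Pool.Agent.GsF.Ga

/-!
Exhausting sigma-algebras: pointwise convergence of the averages reduces to the tail.
-/

namespace Pool.Agent.GsF

open Finset MeasureTheory Filter Topology ProbabilityTheory Polynomial

variable {Y : Type*} {A : MeasurableSpace Y} [mY : MeasurableSpace Y]

/-- a tail function: measurable modulo null sets with respect to all S^(-n) A -/
def TailF {Y : Type*} (A : MeasurableSpace Y) [mY : MeasurableSpace Y] (ν : Measure Y)
    (S : Y ≃ᵐ Y) (f : Y → ℂ) : Prop :=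
  ∀ n : ℤ, AEStronglyMeasurable[Al A S n] f ν

/- MODULE UA1 -/
theorem Al_le {ν : Measure Y} {S : Y ≃ᵐ Y} (h : Exh A ν S) (n : ℤ) :
    Al A S n ≤ mY := by
  exact (MeasurableSpace.comap_mono h.le).trans (pw_meas S n).comap_le

/-- the family is decreasing -/
theorem Al_anti {ν : Measure Y} {S : Y ≃ᵐ Y} (h : Exh A ν S) {m n : ℤ}
    (hmn : m ≤ n) : Al A S n ≤ Al A S m := by
  have h1 : ∀ t : ℕ, A.comap (pw S (t : ℤ)) ≤ A := by
    intro t
    induction t with
    | zero =>
      have h2 : pw S ((0 : ℕ) : ℤ) = id := funext fun y => pw_zero S y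
      rw [h2, MeasurableSpace.comap_id]
    | succ t ih =>
      have h2 : pw S ((t + 1 : ℕ) : ℤ) = S ∘ pw S (t : ℤ) := by
        funext y
        have h3 : ((t + 1 : ℕ) : ℤ) = 1 + (t : ℤ) := by
          push_cast
          ring
        rw [h3, pw_add, pw_one]
        rfl
      rw [h2, ← MeasurableSpace.comap_comp]
      exact (MeasurableSpace.comap_mono h.dec).trans ih
  obtain ⟨t, ht⟩ := Int.eq_ofNat_of_zero_le (sub_nonneg.2 hmn)
  have h2 : pw S n = pw S (t : ℤ) ∘ pw S m := by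
    funext y
    have h3 : n = (t : ℤ) + m := by
      rw [← ht]
      ring
    rw [h3, pw_add]
    rfl
  show A.comap (pw S n) ≤ A.comap (pw S m)
  rw [h2, ← MeasurableSpace.comap_comp]
  exact MeasurableSpace.comap_mono (h1 t)

/-- composing with S^t shifts the index -/
theorem Al_comp (S : Y ≃ᵐ Y) (n t : ℤ) :
    (Al A S n).comap (pw S t) = Al A S (n + t) := by
  have h2 : pw S (n + t) = pw S n ∘ pw S t := funext fun y => pw_add S n t y
  show (A.comap (pw S n)).comap (pw S t) = A.comap (pw S (n + t))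
  rw [h2, MeasurableSpace.comap_comp]

theorem Al_meas_comp (S : Y ≃ᵐ Y) (n t : ℤ) (f : Y → ℂ)
    (hf : StronglyMeasurable[Al A S n] f) :
    StronglyMeasurable[Al A S (n + t)] (fun y => f (pw S t y)) := by
  rw [← Al_comp S n t]
  exact hf.comp_measurable (comap_measurable (pw S t))

theorem tail_comp {ν : Measure Y} {S : Y ≃ᵐ Y} (h : Exh A ν S)
    (f : Y → ℂ) (hf : TailF A ν S f) (t : ℤ) : TailF A ν S (fun y => f (pw S t y)) := by
  intro n
  obtain ⟨g, hg, hfg⟩ := hf (n - t)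
  refine ⟨fun y => g (pw S t y), ?_, ?_⟩
  · have h1 := Al_meas_comp S (n - t) t g hg
    rw [sub_add_cancel] at h1
    exact h1
  · exact (pw_mp ν S h.mp t).quasiMeasurePreserving.ae_eq_comp hfg
/- END UA1 -/

/- MODULE UA2 -/
/-- Approximation from the past: g = E(f | Al (-m)) (Levy upward, Mathlib tendsto_eLpNorm_condExp;
gen), |g| ≤ B after truncation / because conditional expectations of bounded functions are bounded. -/
theorem approx_up {ν : Measure Y} [IsProbabilityMeasure ν] {S : Y ≃ᵐ Y}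
    (h : Exh A ν S) (f : Y → ℂ) (hf : Measurable f) (B : ℝ) (hB : ∀ y, ‖f y‖ ≤ B) :
    Tendsto (fun m : ℕ => ∫ y, ‖f y - (ν[f | Al A S (-(m : ℤ))]) y‖ ^ 2 ∂ν) atTop (𝓝 0) := by
  have hfi : Integrable f ν := Integrable.of_bound hf.aestronglyMeasurable B (Eventually.of_forall hB)
  let F : Filtration ℕ mY :=
    { seq := fun m => Al A S (-(m : ℤ))
      mono' := fun i j hij => Al_anti h (by
        have h1 : (i : ℤ) ≤ j := by exact_mod_cast hij
        linarith)
      le' := fun m => Al_le h _ }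
  have hsup : (⨆ n : ℤ, Al A S n) ≤ ⨆ m : ℕ, F m := by
    refine iSup_le fun n => ?_
    refine le_trans ?_ (le_iSup (fun m : ℕ => (F m : MeasurableSpace Y)) n.natAbs)
    exact Al_anti h (by omega)
  have hFle : (⨆ m : ℕ, (F m : MeasurableSpace Y)) ≤ mY := iSup_le fun m => F.le m
  have hself : ν[f | ⨆ m : ℕ, (F m : MeasurableSpace Y)] =ᵐ[ν] f := by
    refine Integrable.ae_eq_of_forall_setIntegral_eq _ _ integrable_condExp hfi fun D hD _ => ?_
    obtain ⟨D', hD', hDD'⟩ := h.gen D hD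
    rw [setIntegral_congr_set hDD', setIntegral_condExp hFle hfi (hsup _ hD'), setIntegral_congr_set hDD']
  have hT : ∀ T : ℂ →L[ℝ] ℝ, ∀ᵐ y ∂ν, Tendsto (fun m : ℕ => T ((ν[f | F m]) y)) atTop (𝓝 (T (f y))) := by
    intro T
    have h1 : ∀ m : ℕ, T ∘ ν[f | F m] =ᵐ[ν] ν[T ∘ f | F m] := fun m => T.comp_condExp_comm hfi
    have h2 : T ∘ ν[f | ⨆ m : ℕ, (F m : MeasurableSpace Y)] =ᵐ[ν]
        ν[T ∘ f | ⨆ m : ℕ, (F m : MeasurableSpace Y)] := T.comp_condExp_comm hfi
    filter_upwards [ae_all_iff.2 h1, h2, hself, tendsto_ae_condExp (μ := ν) (ℱ := F) (T ∘ f)]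
      with y h3 h4 h5 h6
    have h7 : (ν[T ∘ f | ⨆ m : ℕ, (F m : MeasurableSpace Y)]) y = T (f y) := by
      rw [← h4]
      show T _ = _
      rw [h5]
    rw [h7] at h6
    exact h6.congr fun m => (h3 m).symm
  have hlim : ∀ᵐ y ∂ν, Tendsto (fun m : ℕ => ‖f y - (ν[f | Al A S (-(m : ℤ))]) y‖ ^ 2) atTop (𝓝 0) := by
    filter_upwards [hT Complex.reCLM, hT Complex.imCLM] with y h1 h2
    have h3 : Tendsto (fun m : ℕ => ((Complex.reCLM ((ν[f | F m]) y) : ℝ) : ℂ) +
        ((Complex.imCLM ((ν[f | F m]) y) : ℝ) : ℂ) * Complex.I) atTop (𝓝 (((Complex.reCLM (f y) : ℝ) : ℂ) +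
        ((Complex.imCLM (f y) : ℝ) : ℂ) * Complex.I)) :=
      ((Complex.continuous_ofReal.tendsto _).comp h1).add
        (((Complex.continuous_ofReal.tendsto _).comp h2).mul_const _)
    have h4 : Tendsto (fun m : ℕ => (ν[f | F m]) y) atTop (𝓝 (f y)) := by
      have h5 : ∀ z : ℂ, ((Complex.reCLM z : ℝ) : ℂ) + ((Complex.imCLM z : ℝ) : ℂ) * Complex.I = z :=
        fun z => Complex.re_add_im z
      simp only [h5] at h3
      exact h3
    have h5 := ((tendsto_const_nhds (x := f y)).sub h4).norm.pow 2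
    rw [sub_self, norm_zero, zero_pow two_ne_zero] at h5
    exact h5
  have hdom := tendsto_integral_of_dominated_convergence (μ := ν)
    (F := fun (m : ℕ) y => ‖f y - (ν[f | Al A S (-(m : ℤ))]) y‖ ^ 2) (f := fun _ => (0 : ℝ))
    (fun _ => (2 * B) ^ 2) (fun m => ?_) (integrable_const _) (fun m => ?_) hlim
  · rw [integral_zero] at hdom
    exact hdom
  · exact ((hf.aestronglyMeasurable.sub
      (stronglyMeasurable_condExp.mono (Al_le h _)).aestronglyMeasurable).norm.pow 2)
  · filter_upwards [ae_bdd_norm_condExp_of_ae_bdd_norm (m := Al A S (-(m : ℤ)))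
      (Eventually.of_forall hB : ∀ᵐ y ∂ν, ‖f y‖ ≤ B)] with y hy
    rw [norm_pow, norm_norm]
    have h1 := norm_sub_le (f y) ((ν[f | Al A S (-(m : ℤ))]) y)
    have h2 := hB y
    exact pow_le_pow_left₀ (norm_nonneg _) (by linarith) 2
/- END UA2 -/

/- MODULE UA3 -/
private theorem UA3_norm {ν : Measure Y} (w : Lp ℂ 2 ν) : ∫ y, ‖w y‖ ^ 2 ∂ν = ‖w‖ ^ 2 := by
  have h1 := L2.inner_def (𝕜 := ℂ) w w
  rw [inner_self_eq_norm_sq_to_K] at h1
  simp only [inner_self_eq_norm_sq_to_K] at h1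
  have h2 : (((‖w‖ ^ 2 : ℝ)) : ℂ) = ((∫ y, ‖w y‖ ^ 2 ∂ν : ℝ) : ℂ) := by
    rw [← integral_complex_ofReal]
    push_cast
    exact h1
  exact (Complex.ofReal_injective h2).symm

/-- Reversed martingale convergence in L^2. The L^2 projections E(f | Al M) are decreasing in M, so
|E(f | Al M)|_2 decreases and the sequence is Cauchy (Pythagoras); the limit fb is measurable for all
Al n (closedness of the subspaces), bounded by B, has the same integral. -/
theorem approx_down {ν : Measure Y} [IsProbabilityMeasure ν] {S : Y ≃ᵐ Y}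
    (h : Exh A ν S) (f : Y → ℂ) (hf : Measurable f) (B : ℝ) (hB : ∀ y, ‖f y‖ ≤ B) :
    ∃ fb : Y → ℂ, Measurable fb ∧ (∀ y, ‖fb y‖ ≤ B) ∧ TailF A ν S fb ∧
      ∫ y, fb y ∂ν = ∫ y, f y ∂ν ∧
      Tendsto (fun m : ℕ => ∫ y, ‖(ν[f | Al A S (m : ℤ)]) y - fb y‖ ^ 2 ∂ν) atTop (𝓝 0) := by
  classical
  obtain ⟨y0⟩ : Nonempty Y := ν.nonempty_of_neZero
  have hB0 : 0 ≤ B := (norm_nonneg _).trans (hB y0)
  have hfm : MemLp f 2 ν := MemLp.of_bound hf.aestronglyMeasurable B (Eventually.of_forall hB)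
  have hle : ∀ m : ℕ, Al A S (m : ℤ) ≤ mY := fun m => Al_le h _
  let x : Lp ℂ 2 ν := hfm.toLp f
  let U : ℕ → Submodule ℂ (Lp ℂ 2 ν) := fun m => lpMeas ℂ ℂ (Al A S (m : ℤ)) 2 ν
  have hUc : ∀ m, CompleteSpace (U m) := fun m => by
    have : Fact (Al A S (m : ℤ) ≤ mY) := ⟨hle m⟩
    exact inferInstanceAs (CompleteSpace (lpMeas ℂ ℂ (Al A S (m : ℤ)) 2 ν))
  have hproj : ∀ m, ((U m).starProjection x : Y → ℂ) =ᵐ[ν] ν[f | Al A S (m : ℤ)] := fun m =>
    hfm.condExpL2_ae_eq_condExp (𝕜 := ℂ) (hle m)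
  have hmem : ∀ (m : ℕ) (w : Lp ℂ 2 ν), w ∈ U m ↔ AEStronglyMeasurable[Al A S (m : ℤ)] w ν :=
    fun m w => mem_lpMeas_iff_aestronglyMeasurable
  have hmono : Monotone fun m => (U m)ᗮ := by
    intro i j hij
    refine Submodule.orthogonal_le fun w hw => ?_
    rw [hmem] at hw ⊢
    exact hw.mono (Al_anti h (by exact_mod_cast hij))
  obtain ⟨z, hz⟩ : ∃ z, Tendsto (fun m => (U m).starProjection x) atTop (𝓝 z) := by
    have hconv := Submodule.starProjection_tendsto_closure_iSup (fun m => (U m)ᗮ) hmono x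
    refine ⟨x - _, ((tendsto_const_nhds (x := x)).sub hconv).congr fun m => ?_⟩
    have h1 := (U m).starProjection_add_starProjection_orthogonal x
    rw [← h1]
    simp
  have hzm : ∀ n : ℤ, AEStronglyMeasurable[Al A S n] z ν := by
    intro n
    refine (isClosed_aestronglyMeasurable (F := ℂ) (p := 2) (μ := ν) (Al_le h n)).mem_of_tendsto hz ?_
    filter_upwards [eventually_ge_atTop n.toNat] with m hm
    have h1 : AEStronglyMeasurable[Al A S (m : ℤ)] ((U m).starProjection x) ν :=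
      (hmem m _).1 (Submodule.starProjection_apply_mem _ _)
    exact h1.mono (Al_anti h (by omega))
  obtain ⟨ns, -, hns⟩ := (tendstoInMeasure_of_tendsto_Lp hz).exists_seq_tendsto_ae
  have hEB : ∀ m : ℕ, ∀ᵐ y ∂ν, ‖((U m).starProjection x : Y → ℂ) y‖ ≤ B := by
    intro m
    filter_upwards [hproj m, ae_bdd_norm_condExp_of_ae_bdd_norm (m := Al A S (m : ℤ))
      (Eventually.of_forall hB : ∀ᵐ y ∂ν, ‖f y‖ ≤ B)] with y h1 h2
    rw [h1]
    exact h2
  have hzB : ∀ᵐ y ∂ν, ‖z y‖ ≤ B := by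
    filter_upwards [hns, ae_all_iff.2 hEB] with y h1 h2
    exact le_of_tendsto h1.norm (Eventually.of_forall fun i => h2 (ns i))
  have hzint : ∫ y, z y ∂ν = ∫ y, f y ∂ν := by
    have h1 := tendsto_integral_of_dominated_convergence (μ := ν)
      (F := fun (i : ℕ) => ((U (ns i)).starProjection x : Y → ℂ)) (f := (z : Y → ℂ)) (fun _ => B)
      (fun i => Lp.aestronglyMeasurable _) (integrable_const _) (fun i => hEB (ns i)) hns
    refine tendsto_nhds_unique h1 (tendsto_const_nhds.congr fun i => ?_)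
    rw [integral_congr_ae (hproj (ns i)), integral_condExp (hle _)]
  have hzs : StronglyMeasurable (z : Y → ℂ) := Lp.stronglyMeasurable z
  let fb : Y → ℂ := fun y => if ‖z y‖ ≤ B then z y else 0
  have hfbz : fb =ᵐ[ν] z := by
    filter_upwards [hzB] with y hy
    exact if_pos hy
  refine ⟨fb, ?_, ?_, ?_, ?_, ?_⟩
  · exact Measurable.ite (measurableSet_le hzs.measurable.norm measurable_const) hzs.measurable
      measurable_const
  · intro y
    show ‖if ‖z y‖ ≤ B then z y else 0‖ ≤ B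
    split_ifs with h1
    · exact h1
    · rw [norm_zero]
      exact hB0
  · intro n
    exact (hzm n).congr hfbz.symm
  · rw [integral_congr_ae hfbz, hzint]
  · have h1 : Tendsto (fun m => ‖(U m).starProjection x - z‖ ^ 2) atTop (𝓝 0) := by
      have h2 := ((hz.sub (tendsto_const_nhds (x := z))).norm).pow 2
      rw [sub_self, norm_zero, zero_pow two_ne_zero] at h2
      exact h2
    refine h1.congr fun m => ?_
    rw [← UA3_norm]
    refine integral_congr_ae ?_
    filter_upwards [Lp.coeFn_sub ((U m).starProjection x) z, hproj m, hfbz] with y h2 h3 h4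
    rw [h2, h4]
    show ‖((U m).starProjection x : Y → ℂ) y - z y‖ ^ 2 = _
    rw [h3]
/- END UA3 -/

/- MODULE UA4 -/
private theorem UA4_sq (ν : Measure Y) [IsProbabilityMeasure ν] (v : ℕ → Y → ℂ)
    (hv : ∀ n, AEStronglyMeasurable (v n) ν) (B : ℝ) (hB : ∀ n y, ‖v n y‖ ≤ B)
    (h : ∀ n n' : ℕ, n ≠ n' → ∫ y, v n y * (starRingEnd ℂ) (v n' y) ∂ν = 0) (N : ℕ) :
    ∫ y, ‖∑ n ∈ range N, v n y‖ ^ 2 ∂ν ≤ N * B ^ 2 := by
  have hs : ∀ N, AEStronglyMeasurable (fun y => ∑ n ∈ range N, v n y) ν := fun N =>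
    Finset.aestronglyMeasurable_fun_sum _ fun n _ => hv n
  have hsB : ∀ N y, ‖∑ n ∈ range N, v n y‖ ≤ N * B := by
    intro N y
    refine (norm_sum_le _ _).trans ?_
    refine (Finset.sum_le_sum fun n _ => hB n y).trans ?_
    rw [Finset.sum_const, card_range, nsmul_eq_mul]
  have hi : ∀ N, Integrable (fun y => ‖∑ n ∈ range N, v n y‖ ^ 2) ν := by
    intro N
    refine Integrable.of_bound ((hs N).norm.pow 2) ((N * B) ^ 2) (Eventually.of_forall fun y => ?_)
    rw [norm_pow, norm_norm]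
    exact pow_le_pow_left₀ (norm_nonneg _) (hsB N y) 2
  have hj : Integrable (fun y => ‖v N y‖ ^ 2) ν := by
    refine Integrable.of_bound ((hv N).norm.pow 2) (B ^ 2) (Eventually.of_forall fun y => ?_)
    rw [norm_pow, norm_norm]
    exact pow_le_pow_left₀ (norm_nonneg _) (hB N y) 2
  clear hj
  induction N with
  | zero => simp
  | succ N ih =>
    have hj : Integrable (fun y => ‖v N y‖ ^ 2) ν := by
      refine Integrable.of_bound ((hv N).norm.pow 2) (B ^ 2) (Eventually.of_forall fun y => ?_)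
      rw [norm_pow, norm_norm]
      exact pow_le_pow_left₀ (norm_nonneg _) (hB N y) 2
    have hk : ∀ n, Integrable (fun y => v N y * (starRingEnd ℂ) (v n y)) ν := by
      intro n
      refine Integrable.of_bound ((hv N).mul (Complex.continuous_conj.comp_aestronglyMeasurable (hv n)))
        (B * B) (Eventually.of_forall fun y => ?_)
      rw [norm_mul, RCLike.norm_conj]
      exact mul_le_mul (hB N y) (hB n y) (norm_nonneg _) ((norm_nonneg _).trans (hB N y))
    have hcross : ∫ y, v N y * (starRingEnd ℂ) (∑ n ∈ range N, v n y) ∂ν = 0 := by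
      have h1 : (fun y => v N y * (starRingEnd ℂ) (∑ n ∈ range N, v n y)) =
          fun y => ∑ n ∈ range N, v N y * (starRingEnd ℂ) (v n y) := by
        funext y
        rw [map_sum, Finset.mul_sum]
      rw [h1, integral_finsetSum _ fun n _ => hk n]
      refine Finset.sum_eq_zero fun n hn => h N n ?_
      rw [Finset.mem_range] at hn
      omega
    have hci : Integrable (fun y => v N y * (starRingEnd ℂ) (∑ n ∈ range N, v n y)) ν := by
      have h1 : (fun y => v N y * (starRingEnd ℂ) (∑ n ∈ range N, v n y)) =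
          fun y => ∑ n ∈ range N, v N y * (starRingEnd ℂ) (v n y) := by
        funext y
        rw [map_sum, Finset.mul_sum]
      rw [h1]
      exact integrable_finsetSum _ fun n _ => hk n
    have hre : ∫ y, (v N y * (starRingEnd ℂ) (∑ n ∈ range N, v n y)).re ∂ν = 0 := by
      have h1 : ∫ y, (v N y * (starRingEnd ℂ) (∑ n ∈ range N, v n y)).re ∂ν =
          (∫ y, v N y * (starRingEnd ℂ) (∑ n ∈ range N, v n y) ∂ν).re := integral_re hci
      rw [h1, hcross]
      rfl
    have hexp : (fun y => ‖∑ n ∈ range (N + 1), v n y‖ ^ 2) = fun y =>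
        (‖∑ n ∈ range N, v n y‖ ^ 2 + ‖v N y‖ ^ 2) +
          2 * (v N y * (starRingEnd ℂ) (∑ n ∈ range N, v n y)).re := by
      funext y
      rw [Finset.sum_range_succ, add_comm, Complex.sq_norm, Complex.sq_norm, Complex.sq_norm,
        Complex.normSq_add]
      ring
    have hle : ∫ y, ‖v N y‖ ^ 2 ∂ν ≤ B ^ 2 := by
      have h1 := integral_mono hj (integrable_const (B ^ 2)) fun y =>
        pow_le_pow_left₀ (norm_nonneg _) (hB N y) 2
      rw [integral_const, probReal_univ, one_smul] at h1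
      exact h1
    have e1 : ∫ y, ((‖∑ n ∈ range N, v n y‖ ^ 2 + ‖v N y‖ ^ 2) +
        2 * (v N y * (starRingEnd ℂ) (∑ n ∈ range N, v n y)).re) ∂ν =
        ∫ y, (‖∑ n ∈ range N, v n y‖ ^ 2 + ‖v N y‖ ^ 2) ∂ν +
          ∫ y, 2 * (v N y * (starRingEnd ℂ) (∑ n ∈ range N, v n y)).re ∂ν :=
      integral_add ((hi N).add hj) (hci.re.const_mul 2)
    have e2 : ∫ y, (‖∑ n ∈ range N, v n y‖ ^ 2 + ‖v N y‖ ^ 2) ∂ν =
        ∫ y, ‖∑ n ∈ range N, v n y‖ ^ 2 ∂ν + ∫ y, ‖v N y‖ ^ 2 ∂ν := integral_add (hi N) hj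
    have e3 : ∫ y, 2 * (v N y * (starRingEnd ℂ) (∑ n ∈ range N, v n y)).re ∂ν = 0 := by
      rw [integral_const_mul, hre, mul_zero]
    rw [hexp, e1, e2, e3]
    push_cast
    linarith

private theorem UA4_det (s : ℕ → ℂ) (B : ℝ) (hB : ∀ n, ‖s (n + 1) - s n‖ ≤ B)
    (h : Tendsto (fun m : ℕ => ‖s ((m + 1) ^ 2)‖ / ((m : ℝ) + 1) ^ 2) atTop (𝓝 0)) :
    Tendsto (fun N : ℕ => s N / (N : ℂ)) atTop (𝓝 0) := by
  have hB0 : 0 ≤ B := (norm_nonneg _).trans (hB 0)
  have hstep : ∀ n t : ℕ, ‖s (n + t)‖ ≤ ‖s n‖ + t * B := by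
    intro n t
    induction t with
    | zero => simp
    | succ t ih =>
      have h1 := norm_add_le (s (n + t)) (s (n + t + 1) - s (n + t))
      rw [add_sub_cancel] at h1
      have h2 := hB (n + t)
      rw [← add_assoc]
      push_cast
      linarith
  have hsq : Tendsto (fun N : ℕ => Nat.sqrt N - 1) atTop atTop := by
    refine tendsto_atTop_atTop.2 fun b => ⟨(b + 1) * (b + 1), fun a ha => ?_⟩
    have := Nat.le_sqrt.2 ha
    omega
  have hb : Tendsto (fun N : ℕ => ‖s (((Nat.sqrt N - 1 : ℕ) + 1) ^ 2)‖ /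
      (((Nat.sqrt N - 1 : ℕ) : ℝ) + 1) ^ 2 + 2 * B * (1 / (((Nat.sqrt N - 1 : ℕ) : ℝ) + 1)))
      atTop (𝓝 0) := by
    have h1 := (h.comp hsq).add ((tendsto_one_div_add_atTop_nhds_zero_nat.comp hsq).const_mul (2 * B))
    rw [mul_zero, add_zero] at h1
    exact h1
  rw [tendsto_zero_iff_norm_tendsto_zero]
  refine squeeze_zero' (Eventually.of_forall fun N => norm_nonneg _) ?_ hb
  filter_upwards [eventually_ge_atTop 1] with N hN
  have hm1 : 1 ≤ Nat.sqrt N := Nat.le_sqrt.2 (by omega)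
  obtain ⟨m, hm⟩ : ∃ m, Nat.sqrt N = m + 1 := ⟨Nat.sqrt N - 1, by omega⟩
  have h1 : (m + 1) * (m + 1) ≤ N := by
    have := Nat.sqrt_le N
    rw [hm] at this
    exact this
  have h2 : N < (m + 1 + 1) * (m + 1 + 1) := by
    have := Nat.lt_succ_sqrt N
    rw [hm] at this
    exact this
  obtain ⟨t, rfl⟩ := Nat.exists_eq_add_of_le h1
  have ht : t ≤ 2 * (m + 1) := by nlinarith
  rw [hm, Nat.add_sub_cancel, norm_div, Complex.norm_natCast]
  have h3 := hstep ((m + 1) * (m + 1)) t
  have h4 : (0 : ℝ) < ((m : ℝ) + 1) ^ 2 := by positivity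
  have h5 : (((m : ℝ) + 1) ^ 2) ≤ (((m + 1) * (m + 1) + t : ℕ) : ℝ) := by
    push_cast
    have : (0 : ℝ) ≤ t := Nat.cast_nonneg t
    nlinarith
  have h6 : (t : ℝ) ≤ 2 * ((m : ℝ) + 1) := by exact_mod_cast ht
  have h7 : ‖s ((m + 1) * (m + 1) + t)‖ ≤ ‖s ((m + 1) ^ 2)‖ + 2 * ((m : ℝ) + 1) * B := by
    rw [pow_two]
    have := mul_le_mul_of_nonneg_right h6 hB0
    linarith
  calc ‖s ((m + 1) * (m + 1) + t)‖ / (((m + 1) * (m + 1) + t : ℕ) : ℝ)
      ≤ (‖s ((m + 1) ^ 2)‖ + 2 * ((m : ℝ) + 1) * B) / ((m : ℝ) + 1) ^ 2 :=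
        div_le_div₀ (by positivity) h7 h4 h5
    _ = ‖s ((m + 1) ^ 2)‖ / ((m : ℝ) + 1) ^ 2 + 2 * B * (1 / ((m : ℝ) + 1)) := by
        have h8 : (m : ℝ) + 1 ≠ 0 := by positivity
        field_simp

private theorem UA4_main (ν : Measure Y) [IsProbabilityMeasure ν] (v : ℕ → Y → ℂ)
    (hv : ∀ n, AEStronglyMeasurable (v n) ν) (B : ℝ) (hB : ∀ n y, ‖v n y‖ ≤ B)
    (h : ∀ n n' : ℕ, n ≠ n' → ∫ y, v n y * (starRingEnd ℂ) (v n' y) ∂ν = 0) :
    ∀ᵐ y ∂ν, Tendsto (fun N : ℕ => (∑ n ∈ range N, v n y) / (N : ℂ)) atTop (𝓝 0) := by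
  have hs : ∀ N, AEStronglyMeasurable (fun y => ∑ n ∈ range N, v n y) ν := fun N =>
    Finset.aestronglyMeasurable_fun_sum _ fun n _ => hv n
  have hsB : ∀ N y, ‖∑ n ∈ range N, v n y‖ ≤ N * B := by
    intro N y
    refine (norm_sum_le _ _).trans ?_
    refine (Finset.sum_le_sum fun n _ => hB n y).trans ?_
    rw [Finset.sum_const, card_range, nsmul_eq_mul]
  let a : ℕ → Y → ℝ := fun m y => (‖∑ n ∈ range ((m + 1) ^ 2), v n y‖ / ((m : ℝ) + 1) ^ 2) ^ 2
  have ham : ∀ m, AEStronglyMeasurable (a m) ν := fun m =>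
    (((hs ((m + 1) ^ 2)).norm.aemeasurable.div_const _).pow_const 2).aestronglyMeasurable
  have hai : ∀ m, Integrable (a m) ν := by
    intro m
    refine Integrable.of_bound (ham m) (B ^ 2) (Eventually.of_forall fun y => ?_)
    show ‖(‖∑ n ∈ range ((m + 1) ^ 2), v n y‖ / ((m : ℝ) + 1) ^ 2) ^ 2‖ ≤ B ^ 2
    rw [Real.norm_of_nonneg (by positivity)]
    refine pow_le_pow_left₀ (by positivity) ?_ 2
    rw [div_le_iff₀ (by positivity)]
    have := hsB ((m + 1) ^ 2) y
    push_cast at this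
    linarith
  have hab : ∀ m, ∫ y, a m y ∂ν ≤ B ^ 2 * (1 / ((m : ℝ) + 1) ^ 2) := by
    intro m
    have h1 := UA4_sq ν v hv B hB h ((m + 1) ^ 2)
    have h2 : ∫ y, a m y ∂ν = (∫ y, ‖∑ n ∈ range ((m + 1) ^ 2), v n y‖ ^ 2 ∂ν) / (((m : ℝ) + 1) ^ 2) ^ 2 := by
      rw [← integral_div]
      refine integral_congr_ae (Eventually.of_forall fun y => ?_)
      exact div_pow _ _ _
    rw [h2, div_le_iff₀ (by positivity)]
    refine h1.trans (le_of_eq ?_)
    push_cast
    have h8 : (m : ℝ) + 1 ≠ 0 := by positivity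
    field_simp
  have hsum : Summable fun m : ℕ => B ^ 2 * (1 / ((m : ℝ) + 1) ^ 2) := by
    refine Summable.mul_left _ ?_
    have h1 := (summable_nat_add_iff 1).2 (Real.summable_one_div_nat_pow (p := 2).2 one_lt_two)
    refine h1.congr fun m => ?_
    push_cast
    rfl
  have hlint : ∫⁻ y, ∑' m, ENNReal.ofReal (a m y) ∂ν ≠ ⊤ := by
    rw [lintegral_tsum fun m => (ham m).aemeasurable.ennreal_ofReal]
    refine ne_top_of_le_ne_top hsum.tsum_ofReal_ne_top (ENNReal.tsum_le_tsum fun m => ?_)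
    rw [← ofReal_integral_eq_lintegral_ofReal (hai m) (Eventually.of_forall fun y => by positivity)]
    exact ENNReal.ofReal_le_ofReal (hab m)
  have hae := ae_lt_top' (AEMeasurable.tsum fun m => (ham m).aemeasurable.ennreal_ofReal) hlint
  filter_upwards [hae] with y hy
  have h1 := ENNReal.tendsto_atTop_zero_of_tsum_ne_top hy.ne
  have h2 : Tendsto (fun m => a m y) atTop (𝓝 0) := by
    have h3 := (ENNReal.tendsto_toReal ENNReal.zero_ne_top).comp h1
    refine h3.congr fun m => ?_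
    exact ENNReal.toReal_ofReal (by positivity)
  have h3 : Tendsto (fun m : ℕ => ‖∑ n ∈ range ((m + 1) ^ 2), v n y‖ / ((m : ℝ) + 1) ^ 2) atTop (𝓝 0) := by
    have h4 := (Real.continuous_sqrt.tendsto 0).comp h2
    rw [Real.sqrt_zero] at h4
    refine h4.congr fun m => ?_
    exact Real.sqrt_sq (by positivity)
  refine UA4_det (fun N => ∑ n ∈ range N, v n y) B (fun n => ?_) h3
  show ‖∑ k ∈ range (n + 1), v k y - ∑ k ∈ range n, v k y‖ ≤ B
  rw [Finset.sum_range_succ, add_sub_cancel_left]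
  exact hB n y

/-- Law of large numbers for bounded, eventually orthogonal functions: int |(1/N) sum u_n|^2 ≤ C/N, so
along N = m^2 the averages converge a.e. (sum of C/m^2 finite), and between squares the averages
change by O(1/m). -/
theorem orth_slln (ν : Measure Y) [IsProbabilityMeasure ν] (u : ℕ → Y → ℂ)
    (hu : ∀ n, AEStronglyMeasurable (u n) ν) (B : ℝ) (hB : ∀ n y, ‖u n y‖ ≤ B) (n0 : ℕ)
    (h : ∀ n n' : ℕ, n0 ≤ n → n0 ≤ n' → n ≠ n' →
      ∫ y, u n y * (starRingEnd ℂ) (u n' y) ∂ν = 0) :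
    ∀ᵐ y ∂ν, Tendsto (fun N : ℕ => (∑ n ∈ range N, u n y) / (N : ℂ)) atTop (𝓝 0) := by
  classical
  let v : ℕ → Y → ℂ := fun n y => if n < n0 then 0 else u n y
  have hv0 : ∀ n y, n < n0 → v n y = 0 := fun n y hn => if_pos hn
  have hv1 : ∀ n y, ¬ n < n0 → v n y = u n y := fun n y hn => if_neg hn
  have hvm : ∀ n, AEStronglyMeasurable (v n) ν := by
    intro n
    by_cases hn : n < n0
    · have h1 : v n = fun _ => 0 := funext fun y => hv0 n y hn
      rw [h1]
      exact aestronglyMeasurable_const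
    · have h1 : v n = u n := funext fun y => hv1 n y hn
      rw [h1]
      exact hu n
  have hvB : ∀ n y, ‖v n y‖ ≤ B := by
    intro n y
    by_cases hn : n < n0
    · rw [hv0 n y hn, norm_zero]
      exact (norm_nonneg _).trans (hB n y)
    · rw [hv1 n y hn]
      exact hB n y
  have hvo : ∀ n n' : ℕ, n ≠ n' → ∫ y, v n y * (starRingEnd ℂ) (v n' y) ∂ν = 0 := by
    intro n n' hne
    by_cases hn : n < n0
    · have h1 : (fun y => v n y * (starRingEnd ℂ) (v n' y)) = fun _ => 0 := by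
        funext y
        rw [hv0 n y hn, zero_mul]
      rw [h1, integral_zero]
    · by_cases hn' : n' < n0
      · have h1 : (fun y => v n y * (starRingEnd ℂ) (v n' y)) = fun _ => 0 := by
          funext y
          rw [hv0 n' y hn', map_zero, mul_zero]
        rw [h1, integral_zero]
      · have h1 : (fun y => v n y * (starRingEnd ℂ) (v n' y)) = fun y => u n y * (starRingEnd ℂ) (u n' y) := by
          funext y
          rw [hv1 n y hn, hv1 n' y hn']
        rw [h1]
        exact h n n' (not_lt.1 hn) (not_lt.1 hn') hne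
  filter_upwards [UA4_main ν v hvm B hvB hvo] with y hy
  have h1 : Tendsto (fun N : ℕ => (∑ n ∈ range n0, u n y) / (N : ℂ)) atTop (𝓝 0) :=
    tendsto_const_div_atTop_nhds_zero_nat _
  have h2 := hy.add h1
  rw [add_zero] at h2
  refine h2.congr' ?_
  filter_upwards [eventually_ge_atTop n0] with N hN
  rw [← add_div]
  congr 1
  have h3 : ∀ n, u n y = v n y + if n < n0 then u n y else 0 := by
    intro n
    by_cases hn : n < n0
    · rw [hv0 n y hn, if_pos hn, zero_add]
    · rw [hv1 n y hn, if_neg hn, add_zero]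
  have h4 : ∑ n ∈ range N, u n y = ∑ n ∈ range N, v n y + ∑ n ∈ range N, if n < n0 then u n y else 0 := by
    rw [← Finset.sum_add_distrib]
    exact Finset.sum_congr rfl fun n _ => h3 n
  rw [h4, ← Finset.sum_filter]
  congr 2
  ext n
  rw [Finset.mem_filter, Finset.mem_range, Finset.mem_range]
  omega
/- END UA4 -/

/- MODULE UA5 -/
/-- Orthogonality. g with E(g | Al M) = 0; G bounded and measurable for Al (t + M) modulo null sets.
int g(S^t y) G(y) = int g(y) G(S^(-t) y) and G o S^(-t) is measurable for Al M: the integral is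
int E(g | Al M) (G o S^(-t)) = 0. -/
theorem orth_basic {ν : Measure Y} [IsProbabilityMeasure ν] {S : Y ≃ᵐ Y}
    (h : Exh A ν S) (g G : Y → ℂ) (hg : Measurable g) (B : ℝ) (hgB : ∀ y, ‖g y‖ ≤ B)
    (hGB : ∀ y, ‖G y‖ ≤ B) (M t : ℤ) (h0 : ν[g | Al A S M] =ᵐ[ν] 0)
    (hG : AEStronglyMeasurable[Al A S (t + M)] G ν) :
    ∫ y, g (pw S t y) * G y ∂ν = 0 := by
  have hle := Al_le h M
  have hmp := pw_mp ν S h.mp (-t)
  have hback : ∀ y, pw S t (pw S (-t) y) = y := by
    intro y
    rw [← pw_add, add_neg_cancel, pw_zero]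
  have hG0 : AEStronglyMeasurable G ν := hG.mono (Al_le h (t + M))
  have hgi : Integrable g ν := Integrable.of_bound hg.aestronglyMeasurable B (Eventually.of_forall hgB)
  have hG' : AEStronglyMeasurable[Al A S M] (fun y => G (pw S (-t) y)) ν := by
    obtain ⟨G1, h1, h2⟩ := hG
    refine ⟨fun y => G1 (pw S (-t) y), ?_, hmp.quasiMeasurePreserving.ae_eq_comp h2⟩
    have h3 := Al_meas_comp S (t + M) (-t) G1 h1
    have h4 : t + M + -t = M := by ring
    rw [h4] at h3
    exact h3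
  have hG'0 : AEStronglyMeasurable (fun y => G (pw S (-t) y)) ν := hG'.mono hle
  have hint : Integrable (fun y => g y * G (pw S (-t) y)) ν := by
    refine Integrable.of_bound (hg.aestronglyMeasurable.mul hG'0) (B * B) (Eventually.of_forall fun y => ?_)
    rw [norm_mul]
    exact mul_le_mul (hgB y) (hGB _) (norm_nonneg _) ((norm_nonneg _).trans (hgB y))
  have h1 : ∫ y, g (pw S t y) * G y ∂ν = ∫ y, g y * G (pw S (-t) y) ∂ν := by
    have h2 : AEStronglyMeasurable (fun y => g (pw S t y) * G y) (ν.map (pw S (-t))) := by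
      rw [hmp.map_eq]
      exact (hg.comp (pw_meas S t)).aestronglyMeasurable.mul hG0
    have h3 := integral_map hmp.measurable.aemeasurable h2
    rw [hmp.map_eq] at h3
    rw [h3]
    refine integral_congr_ae (Eventually.of_forall fun y => ?_)
    show g (pw S t (pw S (-t) y)) * G (pw S (-t) y) = _
    rw [hback]
  have h2 : ν[fun y => g y * G (pw S (-t) y) | Al A S M] =ᵐ[ν]
      fun y => (ν[g | Al A S M]) y * G (pw S (-t) y) :=
    condExp_bilin_of_aestronglyMeasurable_right (ContinuousLinearMap.mul ℝ ℂ) hG' hint hgi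
  rw [h1, ← integral_condExp hle, integral_congr_ae h2]
  refine integral_eq_zero_of_ae ?_
  filter_upwards [h0] with y hy
  rw [hy]
  exact zero_mul _
/- END UA5 -/

/- MODULE UA6 -/
/-- The polynomial times. leadingCoeff > 0: p(n+1) - p(n) has degree ≥ 1 and positive leading
coefficient, so it exceeds M for n large; the other case symmetric. -/
theorem poly_times (p : ℤ[X]) (hp : 2 ≤ p.natDegree) :
    (∀ M : ℤ, ∃ n0 : ℕ, ∀ n n' : ℕ, n0 ≤ n → n < n' → p.eval (n : ℤ) + M ≤ p.eval (n' : ℤ)) ∨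
    (∀ M : ℤ, ∃ n0 : ℕ, ∀ n n' : ℕ, n0 ≤ n → n < n' → p.eval (n' : ℤ) + M ≤ p.eval (n : ℤ)) := by
  set P : ℝ[X] := p.map (Int.castRingHom ℝ) with hP
  have hev : ∀ n : ℤ, P.eval (n : ℝ) = ((p.eval n : ℤ) : ℝ) := by
    intro n
    rw [hP, eval_intCast_map]
    rfl
  set r : ℝ[X] := P.comp (X + C 1) - P with hr
  have hrev : ∀ x : ℝ, r.eval x = P.eval (x + 1) - P.eval x := by
    intro x
    rw [hr, eval_sub, eval_comp, eval_add, eval_X, eval_C]
  have hdeg : 0 < r.degree := by
    by_contra hc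
    have h1 : r = C (r.coeff 0) := eq_C_of_degree_le_zero (not_lt.1 hc)
    have h2 : ∀ n : ℕ, P.eval (n : ℝ) = P.eval 0 + r.coeff 0 * n := by
      intro n
      induction n with
      | zero => simp
      | succ n ih =>
        have h3 := hrev (n : ℝ)
        rw [h1, eval_C] at h3
        push_cast
        linarith
    have h3 : P = C (P.eval 0) + C (r.coeff 0) * X := by
      refine Polynomial.eq_of_infinite_eval_eq _ _ ?_
      refine Set.Infinite.mono ?_ (Set.infinite_range_of_injective (Nat.cast_injective (R := ℝ)))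
      rintro _ ⟨n, rfl⟩
      show P.eval (n : ℝ) = eval (n : ℝ) (C (P.eval 0) + C (r.coeff 0) * X)
      rw [h2, eval_add, eval_mul, eval_C, eval_C, eval_X]
    have h4 : P.natDegree ≤ 1 := by
      rw [h3, add_comm]
      exact natDegree_linear_le
    have h5 : P.natDegree = p.natDegree := natDegree_map_eq_of_injective Int.cast_injective p
    omega
  have key : ∀ (s : ℤ), (Tendsto (fun x => s * r.eval x) atTop atTop) → ∀ M : ℤ, ∃ n0 : ℕ, ∀ n n' : ℕ,
      n0 ≤ n → n < n' → s * p.eval (n : ℤ) + M ≤ s * p.eval (n' : ℤ) := by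
    intro s hs M
    have h1 := (hs.comp tendsto_natCast_atTop_atTop).eventually_ge_atTop ((max M 0 : ℤ) : ℝ)
    obtain ⟨n0, hn0⟩ := eventually_atTop.1 h1
    have h2 : ∀ n : ℕ, n0 ≤ n → max M 0 ≤ s * p.eval ((n : ℤ) + 1) - s * p.eval (n : ℤ) := by
      intro n hn
      have h3 : ((max M 0 : ℤ) : ℝ) ≤ s * r.eval (n : ℝ) := hn0 n hn
      rw [hrev] at h3
      have h4 := hev ((n : ℤ) + 1)
      have h5 := hev (n : ℤ)
      push_cast at h4 h5
      rw [h4, h5] at h3
      have h6 : ((max M 0 : ℤ) : ℝ) ≤ ((s * p.eval ((n : ℤ) + 1) - s * p.eval (n : ℤ) : ℤ) : ℝ) := by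
        rw [Int.cast_sub, Int.cast_mul, Int.cast_mul]
        linarith
      exact_mod_cast h6
    refine ⟨n0, fun n n' hn hnn' => ?_⟩
    obtain ⟨t, rfl⟩ := Nat.exists_eq_add_of_lt hnn'
    clear hnn'
    induction t with
    | zero =>
      have h3 := h2 n hn
      have h4 := le_max_left M 0
      have h5 : ((n + 0 + 1 : ℕ) : ℤ) = (n : ℤ) + 1 := by
        push_cast
        ring
      rw [h5]
      linarith
    | succ t ih =>
      have h3 := h2 (n + t + 1) (by omega)
      have h4 := le_max_right M 0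
      have h5 : ((n + (t + 1) + 1 : ℕ) : ℤ) = ((n + t + 1 : ℕ) : ℤ) + 1 := by
        push_cast
        ring
      rw [h5]
      linarith
  rcases le_or_gt 0 r.leadingCoeff with h | h
  · left
    intro M
    have h1 := tendsto_atTop_of_leadingCoeff_nonneg r hdeg h
    obtain ⟨n0, hn0⟩ := key 1 (by simpa using h1) M
    exact ⟨n0, fun n n' h2 h3 => by simpa using hn0 n n' h2 h3⟩
  · right
    intro M
    have h1 := tendsto_atBot_of_leadingCoeff_nonpos r hdeg h.le
    have h2 : Tendsto (fun x => ((-1 : ℤ) : ℝ) * r.eval x) atTop atTop := by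
      have h3 := tendsto_neg_atBot_atTop.comp h1
      refine h3.congr fun x => ?_
      show - r.eval x = _
      push_cast
      ring
    obtain ⟨n0, hn0⟩ := key (-1) h2 M
    refine ⟨n0, fun n n' h3 h4 => ?_⟩
    have h5 := hn0 n n' h3 h4
    linarith
/- END UA6 -/

/- MODULE UA7 -/
private theorem UA7_prod {ν : Measure Y} (m' : MeasurableSpace Y) {ι : Type*} (s : Finset ι)
    (F : ι → Y → ℂ) (hF : ∀ i ∈ s, AEStronglyMeasurable[m'] (F i) ν) :
    AEStronglyMeasurable[m'] (fun y => ∏ i ∈ s, F i y) ν := by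
  classical
  induction s using Finset.induction_on with
  | empty =>
    simp only [Finset.prod_empty]
    exact aestronglyMeasurable_const
  | insert i s hi ih =>
    simp only [Finset.prod_insert hi]
    exact (hF i (Finset.mem_insert_self i s)).mul (ih fun j hj => hF j (Finset.mem_insert_of_mem hj))

private theorem UA7_comp {ν : Measure Y} {S : Y ≃ᵐ Y} (h : Exh A ν S) (F : Y → ℂ) (a t : ℤ)
    (hF : AEStronglyMeasurable[Al A S a] F ν) :
    AEStronglyMeasurable[Al A S (a + t)] (fun y => F (pw S t y)) ν := by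
  obtain ⟨g, hg, hfg⟩ := hF
  exact ⟨fun y => g (pw S t y), Al_meas_comp S a t g hg,
    (pw_mp ν S h.mp t).quasiMeasurePreserving.ae_eq_comp hfg⟩

/-- Vanishing part. f_j0 = g with E(g | Al M) = 0, g measurable for Al (-m); the f_i, i in I, are
measurable for Al (-m), all other f_i (i ≠ j0, i not in I) are tail functions. Times: tm n i. If for
large n all i in I have tm n i ≥ tm n j0 + M + m, and for large n ≠ n' either all i in I or i = j0
satisfy tm n' i ≥ tm n j0 + M + m, or the same with n, n' exchanged, then u_n = prod f_i o S^(tm n i)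
are orthogonal for large n: in the first case u_n conj(u_n') = g o S^(tm n j0) * G with G measurable
for Al (tm n j0 + M) (Al_meas_comp, Al_anti, tail_comp, m ≥ 0), orth_basic; orth_slln. -/
theorem vanish {ν : Measure Y} [IsProbabilityMeasure ν] {S : Y ≃ᵐ Y}
    (h : Exh A ν S) (k : ℕ) (tm : ℕ → Fin (k + 1) → ℤ) (f : Fin (k + 1) → Y → ℂ)
    (hf : ∀ i, Measurable (f i)) (B : ℝ) (hB : ∀ i y, ‖f i y‖ ≤ B) (j0 : Fin (k + 1))
    (I : Finset (Fin (k + 1))) (hI : j0 ∉ I) (m M : ℕ)
    (h0 : ν[f j0 | Al A S (M : ℤ)] =ᵐ[ν] 0)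
    (hj0 : AEStronglyMeasurable[Al A S (-(m : ℤ))] (f j0) ν)
    (hfI : ∀ i ∈ I, AEStronglyMeasurable[Al A S (-(m : ℤ))] (f i) ν)
    (hft : ∀ i, i ≠ j0 → i ∉ I → TailF A ν S (f i))
    (n0 : ℕ)
    (ht1 : ∀ n : ℕ, n0 ≤ n → ∀ i ∈ I, tm n j0 + M + m ≤ tm n i)
    (ht2 : ∀ n n' : ℕ, n0 ≤ n → n0 ≤ n' → n ≠ n' →
      (∀ i ∈ insert j0 I, tm n j0 + M + m ≤ tm n' i) ∨
      (∀ i ∈ insert j0 I, tm n' j0 + M + m ≤ tm n i)) :
    ∀ᵐ y ∂ν, Tendsto (fun N : ℕ => (∑ n ∈ range N, ∏ i, f i (pw S (tm n i) y)) / (N : ℂ))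
      atTop (𝓝 0) := by
  classical
  obtain ⟨y0⟩ : Nonempty Y := ν.nonempty_of_neZero
  have hB1 : 1 ≤ max B 1 := le_max_right _ _
  have hBB : ∀ i y, ‖f i y‖ ≤ max B 1 := fun i y => (hB i y).trans (le_max_left _ _)
  have hB0 : 0 ≤ max B 1 := zero_le_one.trans hB1
  let u : ℕ → Y → ℂ := fun n y => ∏ i, f i (pw S (tm n i) y)
  have hu : ∀ n, Measurable (u n) := fun n =>
    Finset.measurable_fun_prod _ fun i _ => (hf i).comp (pw_meas S _)
  have hpB : ∀ (s : Finset (Fin (k + 1))) (n : ℕ) (y : Y),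
      ‖∏ i ∈ s, f i (pw S (tm n i) y)‖ ≤ max B 1 ^ (k + 1) := by
    intro s n y
    rw [norm_prod]
    refine (Finset.prod_le_prod (fun _ _ => norm_nonneg _) fun i _ => hBB i _).trans ?_
    rw [Finset.prod_const]
    refine pow_le_pow_right₀ hB1 ?_
    have := Finset.card_le_univ s
    rw [Fintype.card_fin] at this
    exact this
  have huB : ∀ n y, ‖u n y‖ ≤ max B 1 ^ (k + 1) := fun n y => hpB univ n y
  have key : ∀ n n' : ℕ, n0 ≤ n → (∀ i ∈ insert j0 I, tm n j0 + M + m ≤ tm n' i) →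
      ∫ y, u n y * (starRingEnd ℂ) (u n' y) ∂ν = 0 := by
    intro n n' hn hnn'
    have hA : ∀ i, AEStronglyMeasurable[Al A S (-(m : ℤ))] (f i) ν → ∀ t : ℤ, tm n j0 + M + m ≤ t →
        AEStronglyMeasurable[Al A S (tm n j0 + M)] (fun y => f i (pw S t y)) ν := by
      intro i hi t ht
      exact (UA7_comp h (f i) (-(m : ℤ)) t hi).mono (Al_anti h (by linarith))
    have hG1 : ∀ i ∈ univ.erase j0,
        AEStronglyMeasurable[Al A S (tm n j0 + M)] (fun y => f i (pw S (tm n i) y)) ν := by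
      intro i hi
      by_cases hiI : i ∈ I
      · exact hA i (hfI i hiI) _ (ht1 n hn i hiI)
      · exact tail_comp h (f i) (hft i (Finset.ne_of_mem_erase hi) hiI) _ _
    have hG2 : ∀ i ∈ (univ : Finset (Fin (k + 1))),
        AEStronglyMeasurable[Al A S (tm n j0 + M)] (fun y => f i (pw S (tm n' i) y)) ν := by
      intro i _
      by_cases hij : i = j0
      · rw [hij]
        exact hA j0 hj0 _ (hnn' j0 (Finset.mem_insert_self _ _))
      · by_cases hiI : i ∈ I
        · exact hA i (hfI i hiI) _ (hnn' i (Finset.mem_insert_of_mem hiI))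
        · exact tail_comp h (f i) (hft i hij hiI) _ _
    have hG : AEStronglyMeasurable[Al A S (tm n j0 + M)] (fun y =>
        (∏ i ∈ univ.erase j0, f i (pw S (tm n i) y)) * (starRingEnd ℂ) (u n' y)) ν := by
      have hP1 : AEStronglyMeasurable[Al A S (tm n j0 + M)]
          (fun y => ∏ i ∈ univ.erase j0, f i (pw S (tm n i) y)) ν :=
        UA7_prod _ _ _ hG1
      have hP2 : AEStronglyMeasurable[Al A S (tm n j0 + M)] (fun y => ∏ i, f i (pw S (tm n' i) y)) ν :=
        UA7_prod _ _ _ hG2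
      have hP3 : AEStronglyMeasurable[Al A S (tm n j0 + M)] (fun y => (starRingEnd ℂ) (u n' y)) ν :=
        Complex.continuous_conj.comp_aestronglyMeasurable hP2
      exact hP1.mul hP3
    have h1 : (fun y => u n y * (starRingEnd ℂ) (u n' y)) = fun y => f j0 (pw S (tm n j0) y) *
        ((∏ i ∈ univ.erase j0, f i (pw S (tm n i) y)) * (starRingEnd ℂ) (u n' y)) := by
      funext y
      show (∏ i, f i (pw S (tm n i) y)) * _ = _
      rw [← Finset.mul_prod_erase univ (fun i => f i (pw S (tm n i) y)) (Finset.mem_univ j0), mul_assoc]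
    rw [h1]
    refine orth_basic h (f j0) _ (hf j0) (max B 1 ^ (k + 1) * max B 1 ^ (k + 1)) (fun y => ?_) (fun y => ?_)
      M (tm n j0) h0 hG
    · refine (hBB j0 y).trans ?_
      have h2 : max B 1 ≤ max B 1 ^ (k + 1) := le_self_pow₀ hB1 (Nat.succ_ne_zero k)
      have h3 : 1 ≤ max B 1 ^ (k + 1) := one_le_pow₀ hB1
      nlinarith
    · rw [norm_mul, RCLike.norm_conj]
      exact mul_le_mul (hpB _ n y) (huB n' y) (norm_nonneg _) (by positivity)
  refine orth_slln ν u (fun n => (hu n).aestronglyMeasurable) _ huB n0 fun n n' hn hn' hne => ?_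
  rcases ht2 n n' hn hn' hne with h1 | h1
  · exact key n n' hn h1
  · have h2 := key n' n hn' h1
    have h3 : (fun y => u n y * (starRingEnd ℂ) (u n' y)) =
        fun y => (starRingEnd ℂ) (u n' y * (starRingEnd ℂ) (u n y)) := by
      funext y
      rw [map_mul, Complex.conj_conj, mul_comm]
    rw [h3, integral_conj, h2, map_zero]
/- END UA7 -/

/- MODULE UA8 -/
private theorem UA8_ver {ν : Measure Y} [IsProbabilityMeasure ν] {S : Y ≃ᵐ Y}
    (f : Y → ℂ) (B : ℝ) (hB0 : 0 ≤ B) (hB : ∀ y, ‖f y‖ ≤ B) (n : ℤ) :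
    ∃ g : Y → ℂ, StronglyMeasurable[Al A S n] g ∧ (∀ y, ‖g y‖ ≤ B) ∧ g =ᵐ[ν] ν[f | Al A S n] := by
  classical
  have hm : StronglyMeasurable[Al A S n] (ν[f | Al A S n]) := stronglyMeasurable_condExp
  refine ⟨fun y => if ‖(ν[f | Al A S n]) y‖ ≤ B then (ν[f | Al A S n]) y else 0, ?_, ?_, ?_⟩
  · exact StronglyMeasurable.ite (hm.norm.measurableSet_le stronglyMeasurable_const) hm
      stronglyMeasurable_const
  · intro y
    show ‖if ‖(ν[f | Al A S n]) y‖ ≤ B then (ν[f | Al A S n]) y else 0‖ ≤ B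
    split_ifs with h1
    · exact h1
    · rw [norm_zero]
      exact hB0
  · filter_upwards [ae_bdd_norm_condExp_of_ae_bdd_norm (m := Al A S n)
      (Eventually.of_forall hB : ∀ᵐ y ∂ν, ‖f y‖ ≤ B)] with y hy
    exact if_pos hy

private theorem UA8_int {ν : Measure Y} [IsProbabilityMeasure ν] {S : Y ≃ᵐ Y} (h : Exh A ν S)
    (f g : Y → ℂ) (B : ℝ) (hB : ∀ y, ‖f y‖ ≤ B) (hg : Measurable g)
    (hgB : ∀ y, ‖g y‖ ≤ B) (n : ℤ) :
    Integrable (fun y => ‖g y - (ν[f | Al A S n]) y‖ ^ 2) ν := by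
  have hm : AEStronglyMeasurable (ν[f | Al A S n]) ν :=
    (stronglyMeasurable_condExp.mono (Al_le h n)).aestronglyMeasurable
  refine Integrable.of_bound ((hg.aestronglyMeasurable.sub hm).norm.pow 2) ((2 * B) ^ 2) ?_
  filter_upwards [ae_bdd_norm_condExp_of_ae_bdd_norm (m := Al A S n)
    (Eventually.of_forall hB : ∀ᵐ y ∂ν, ‖f y‖ ≤ B)] with y hy
  rw [norm_pow, norm_norm]
  have h1 := norm_sub_le (g y) ((ν[f | Al A S n]) y)
  have h2 := hgB y
  exact pow_le_pow_left₀ (norm_nonneg _) (by linarith) 2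

omit mY in
private theorem UA8_prod {k : ℕ} (f : Fin (k + 1) → Y → ℂ) (j0 : Fin (k + 1)) (a : Y → ℂ)
    (z : Fin (k + 1) → Y) : ∏ i, (Function.update f j0 a) i (z i) =
      a (z j0) * ∏ i ∈ univ.erase j0, f i (z i) := by
  rw [← Finset.mul_prod_erase univ (fun i => (Function.update f j0 a) i (z i)) (Finset.mem_univ j0),
    Function.update_self]
  congr 1
  refine Finset.prod_congr rfl fun i hi => ?_
  rw [Function.update_of_ne (Finset.ne_of_mem_erase hi)]

/-- One step. Let f be given, i ≠ j0 not in I tail functions, and let fb be the tail part of f j0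
(approx_down). If the averages converge for f with f j0 replaced by fb (hypothesis hb) then they
converge for f. Linear in the slot j0: it remains to show that the averages for f with f j0 replaced by
f j0 - fb tend to 0 a.e. Approximate (conv_approx, prod_max): f i (i in I) by E(f i | Al (-m)),
f j0 - fb by g = E(f j0 | Al (-m)) - E(f j0 | Al M) (approx_up, approx_down), bounded by 2 B,
E(g | Al M) = 0 (tower, Al M ≤ Al (-m)); choose measurable bounded versions; vanish with
tm n i = p(n + i), whose hypotheses follow from poly_times: increasing case I = {i | j0 < i},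
decreasing case I = {i | i < j0}. -/
theorem tail_step {ν : Measure Y} [IsProbabilityMeasure ν] {S : Y ≃ᵐ Y}
    (h : Exh A ν S) (p : ℤ[X]) (hp : 2 ≤ p.natDegree) (k : ℕ) (f : Fin (k + 1) → Y → ℂ)
    (hf : ∀ i, Measurable (f i)) (B : ℝ) (hB : ∀ i y, ‖f i y‖ ≤ B) (j0 : Fin (k + 1))
    (I : Finset (Fin (k + 1)))
    (hI : (I = univ.filter (fun i => j0 < i) ∧
        ∀ M : ℤ, ∃ n0 : ℕ, ∀ n n' : ℕ, n0 ≤ n → n < n' → p.eval (n : ℤ) + M ≤ p.eval (n' : ℤ)) ∨
      (I = univ.filter (fun i => i < j0) ∧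
        ∀ M : ℤ, ∃ n0 : ℕ, ∀ n n' : ℕ, n0 ≤ n → n < n' → p.eval (n' : ℤ) + M ≤ p.eval (n : ℤ)))
    (hft : ∀ i, i ≠ j0 → i ∉ I → TailF A ν S (f i)) (L : ℂ)
    (hb : ∀ fb : Y → ℂ, Measurable fb → (∀ y, ‖fb y‖ ≤ B) → TailF A ν S fb →
      ∫ y, fb y ∂ν = ∫ y, f j0 y ∂ν →
      ∀ᵐ y ∂ν, Tendsto (fun N : ℕ => (∑ n ∈ range N,
        ∏ i, (Function.update f j0 fb) i (pw S (p.eval ((n : ℤ) + (i : ℕ))) y)) / (N : ℂ))
        atTop (𝓝 L)) :
    ∀ᵐ y ∂ν, Tendsto (fun N : ℕ => (∑ n ∈ range N,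
        ∏ i, f i (pw S (p.eval ((n : ℤ) + (i : ℕ))) y)) / (N : ℂ)) atTop (𝓝 L) := by
  classical
  obtain ⟨y0⟩ : Nonempty Y := ν.nonempty_of_neZero
  have hB0 : 0 ≤ B := (norm_nonneg _).trans (hB j0 y0)
  have hjI : j0 ∉ I := by
    rcases hI with ⟨rfl, -⟩ | ⟨rfl, -⟩
    · simp
    · simp
  obtain ⟨fb, hfbm, hfbB, hfbT, hfbi, hfbl⟩ := approx_down h (f j0) (hf j0) B (hB j0)
  have hmain := hb fb hfbm hfbB hfbT hfbi
  have hFm : ∀ i, Measurable ((Function.update f j0 fun y => f j0 y - fb y) i) := by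
    intro i
    by_cases hi : i = j0
    · rw [hi, Function.update_self]
      exact (hf j0).sub hfbm
    · rw [Function.update_of_ne hi]
      exact hf i
  have hFB : ∀ i y, ‖(Function.update f j0 fun y => f j0 y - fb y) i y‖ ≤ 2 * B + 1 := by
    intro i y
    by_cases hi : i = j0
    · rw [hi, Function.update_self]
      have h1 := norm_sub_le (f j0 y) (fb y)
      have h2 := hB j0 y
      have h3 := hfbB y
      linarith
    · rw [Function.update_of_ne hi]
      have h2 := hB i y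
      linarith
  suffices hdiff : ∀ᵐ y ∂ν, Tendsto (fun N : ℕ => (∑ n ∈ range N,
      ∏ i, (Function.update f j0 fun y => f j0 y - fb y) i (pw S (p.eval ((n : ℤ) + (i : ℕ))) y)) /
        (N : ℂ)) atTop (𝓝 0) by
    filter_upwards [hmain, hdiff] with y h1 h2
    have h3 := h1.add h2
    rw [add_zero] at h3
    refine h3.congr fun N => ?_
    rw [← add_div, ← Finset.sum_add_distrib]
    congr 1
    refine Finset.sum_congr rfl fun n _ => ?_
    rw [UA8_prod f j0 fb, UA8_prod f j0 (fun y => f j0 y - fb y), ← add_mul, add_sub_cancel,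
      Finset.mul_prod_erase univ (fun i => f i (pw S (p.eval ((n : ℤ) + (i : ℕ))) y)) (Finset.mem_univ j0)]
  obtain ⟨C, hC, hmax⟩ := prod_max (W := Y) p k
  refine conv_approx ν (fun N y => (∑ n ∈ range N,
      ∏ i, (Function.update f j0 fun y => f j0 y - fb y) i (pw S (p.eval ((n : ℤ) + (i : ℕ))) y)) /
        (N : ℂ)) 0 (fun N => (Finset.measurable_fun_sum _ fun n _ => Finset.measurable_fun_prod _
          fun i _ => (hFm i).comp (pw_meas S _)).div_const _) fun ε hε => ?_
  have hq1 : 1 ≤ 2 * B + 1 := by linarith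
  have hP0 : 0 < C * (((2 * B + 1) ^ (k + 1) * (2 * B + 1) ^ (k + 1)) ^ 2) * ((k : ℝ) + 1) := by positivity
  obtain ⟨δ, hδ, hδe⟩ : ∃ δ : ℝ, 0 < δ ∧
      C * (((2 * B + 1) ^ (k + 1) * (2 * B + 1) ^ (k + 1)) ^ 2) * ((k : ℝ) + 1) * δ = ε :=
    ⟨ε / (C * (((2 * B + 1) ^ (k + 1) * (2 * B + 1) ^ (k + 1)) ^ 2) * ((k : ℝ) + 1)),
      div_pos hε hP0, mul_div_cancel₀ ε hP0.ne'⟩
  obtain ⟨m, hm⟩ : ∃ m : ℕ, ∀ i, ∫ y, ‖f i y - (ν[f i | Al A S (-(m : ℤ))]) y‖ ^ 2 ∂ν < δ / 4 :=
    (eventually_all.2 fun i => (tendsto_order.1 (approx_up h (f i) (hf i) B (hB i))).2 (δ / 4)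
      (by positivity)).exists
  obtain ⟨M, hM⟩ : ∃ M : ℕ, ∫ y, ‖(ν[f j0 | Al A S (M : ℤ)]) y - fb y‖ ^ 2 ∂ν < δ / 4 :=
    ((tendsto_order.1 hfbl).2 (δ / 4) (by positivity)).exists
  choose gm hgm1 hgm2 hgm3 using fun i => UA8_ver (A := A) (S := S) (ν := ν) (f i) B hB0 (hB i) (-(m : ℤ))
  obtain ⟨gM, hgM1, hgM2, hgM3⟩ := UA8_ver (A := A) (S := S) (ν := ν) (f j0) B hB0 (hB j0) (M : ℤ)
  have hgM1' : StronglyMeasurable[Al A S (-(m : ℤ))] gM := hgM1.mono (Al_anti h (by omega))
  let g : Fin (k + 1) → Y → ℂ := fun i =>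
    if i = j0 then fun y => gm j0 y - gM y else if i ∈ I then gm i else f i
  have hg0 : g j0 = fun y => gm j0 y - gM y := if_pos rfl
  have hgI : ∀ i ∈ I, g i = gm i := by
    intro i hi
    have h1 : i ≠ j0 := fun h2 => hjI (h2 ▸ hi)
    show (if i = j0 then _ else _) = _
    rw [if_neg h1, if_pos hi]
  have hgo : ∀ i, i ≠ j0 → i ∉ I → g i = f i := by
    intro i h1 h2
    show (if i = j0 then _ else _) = _
    rw [if_neg h1, if_neg h2]
  have hgm : ∀ i, Measurable (g i) := by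
    intro i
    by_cases h1 : i = j0
    · rw [h1, hg0]
      exact (((hgm1 j0).mono (Al_le h _)).measurable).sub ((hgM1.mono (Al_le h _)).measurable)
    · by_cases h2 : i ∈ I
      · rw [hgI i h2]
        exact ((hgm1 i).mono (Al_le h _)).measurable
      · rw [hgo i h1 h2]
        exact hf i
  have hgB : ∀ i y, ‖g i y‖ ≤ 2 * B + 1 := by
    intro i y
    by_cases h1 : i = j0
    · rw [h1, hg0]
      have h2 := norm_sub_le (gm j0 y) (gM y)
      have h3 := hgm2 j0 y
      have h4 := hgM2 y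
      show ‖gm j0 y - gM y‖ ≤ _
      linarith
    · by_cases h2 : i ∈ I
      · rw [hgI i h2]
        have h3 := hgm2 i y
        linarith
      · rw [hgo i h1 h2]
        have h3 := hB i y
        linarith
  obtain ⟨H, hH1, hH2, hH3, hH4, hH5⟩ := hmax ν S h.mp (Function.update f j0 fun y => f j0 y - fb y) g
    (fun _ => 2 * B + 1) (fun _ => 2 * B + 1) hFm hgm hFB hgB
  refine ⟨fun N y => (∑ n ∈ range N, ∏ i, g i (pw S (p.eval ((n : ℤ) + (i : ℕ))) y)) / (N : ℂ), 0, H,
    ?_, hH1, hH2, hH3, ?_, ?_, Eventually.of_forall fun y N => hH5 N y⟩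
  · rw [sub_zero, norm_zero]
    exact hε.le
  · refine hH4.trans ?_
    have hj : ∀ j : Fin (k + 1), ∫ y, ‖(Function.update f j0 fun y => f j0 y - fb y) j y - g j y‖ ^ 2 ∂ν ≤ δ := by
      intro j
      by_cases h1 : j = j0
      · subst h1
        rw [Function.update_self, hg0]
        have hi1 : Integrable (fun y => ‖f j y - (ν[f j | Al A S (-(m : ℤ))]) y‖ ^ 2) ν :=
          UA8_int h (f j) (f j) B (hB j) (hf j) (hB j) _
        have hi2 : Integrable (fun y => ‖(ν[f j | Al A S (M : ℤ)]) y - fb y‖ ^ 2) ν := by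
          have h2 := UA8_int h (f j) fb B (hB j) hfbm hfbB (M : ℤ)
          simp only [norm_sub_rev] at h2 ⊢
          exact h2
        have h3 : ∫ y, ‖(f j y - fb y) - (gm j y - gM y)‖ ^ 2 ∂ν ≤
            ∫ y, (2 * ‖f j y - (ν[f j | Al A S (-(m : ℤ))]) y‖ ^ 2 +
              2 * ‖(ν[f j | Al A S (M : ℤ)]) y - fb y‖ ^ 2) ∂ν := by
          refine integral_mono_of_nonneg (Eventually.of_forall fun y => by positivity)
            ((hi1.const_mul 2).add (hi2.const_mul 2)) ?_
          filter_upwards [hgm3 j, hgM3] with y h4 h5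
          rw [h4, h5]
          have h6 : f j y - fb y - ((ν[f j | Al A S (-(m : ℤ))]) y - (ν[f j | Al A S (M : ℤ)]) y) =
              (f j y - (ν[f j | Al A S (-(m : ℤ))]) y) + ((ν[f j | Al A S (M : ℤ)]) y - fb y) := by ring
          rw [h6]
          have h7 := norm_add_le (f j y - (ν[f j | Al A S (-(m : ℤ))]) y) ((ν[f j | Al A S (M : ℤ)]) y - fb y)
          have h8 := norm_nonneg ((f j y - (ν[f j | Al A S (-(m : ℤ))]) y) +
            ((ν[f j | Al A S (M : ℤ)]) y - fb y))
          nlinarith [sq_nonneg (‖f j y - (ν[f j | Al A S (-(m : ℤ))]) y‖ -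
            ‖(ν[f j | Al A S (M : ℤ)]) y - fb y‖)]
        rw [integral_add (hi1.const_mul 2) (hi2.const_mul 2), integral_const_mul, integral_const_mul] at h3
        have h4 := hm j
        linarith
      · rw [Function.update_of_ne h1]
        by_cases h2 : j ∈ I
        · rw [hgI j h2]
          have h3 : ∫ y, ‖f j y - gm j y‖ ^ 2 ∂ν = ∫ y, ‖f j y - (ν[f j | Al A S (-(m : ℤ))]) y‖ ^ 2 ∂ν := by
            refine integral_congr_ae ?_
            filter_upwards [hgm3 j] with y h4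
            rw [h4]
          rw [h3]
          have h4 := hm j
          linarith
        · rw [hgo j h1 h2]
          simp only [sub_self, norm_zero, ne_eq, OfNat.ofNat_ne_zero, not_false_eq_true, zero_pow,
            integral_zero]
          exact hδ.le
    have hcoef : ∀ j : Fin (k + 1), ((∏ i ∈ univ.filter (· < j), (fun _ => 2 * B + 1) i) *
        ∏ i ∈ univ.filter (j < ·), (fun _ => 2 * B + 1) i) ^ 2 ≤
          ((2 * B + 1) ^ (k + 1) * (2 * B + 1) ^ (k + 1)) ^ 2 := by
      intro j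
      have hc : ∀ s : Finset (Fin (k + 1)), ∏ i ∈ s, (fun _ : Fin (k + 1) => 2 * B + 1) i ≤
          (2 * B + 1) ^ (k + 1) := by
        intro s
        rw [Finset.prod_const]
        refine pow_le_pow_right₀ hq1 ?_
        have := Finset.card_le_univ s
        rw [Fintype.card_fin] at this
        exact this
      have hc0 : ∀ s : Finset (Fin (k + 1)), 0 ≤ ∏ i ∈ s, (fun _ : Fin (k + 1) => 2 * B + 1) i := by
        intro s
        refine Finset.prod_nonneg fun i _ => ?_
        show 0 ≤ 2 * B + 1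
        linarith
      exact pow_le_pow_left₀ (mul_nonneg (hc0 _) (hc0 _)) (mul_le_mul (hc _) (hc _) (hc0 _) (by positivity)) 2
    rw [← hδe]
    have hsum : ∑ j : Fin (k + 1), ((∏ i ∈ univ.filter (· < j), (fun _ => 2 * B + 1) i) *
        ∏ i ∈ univ.filter (j < ·), (fun _ => 2 * B + 1) i) ^ 2 *
          ∫ y, ‖(Function.update f j0 fun y => f j0 y - fb y) j y - g j y‖ ^ 2 ∂ν ≤
        ∑ _j : Fin (k + 1), ((2 * B + 1) ^ (k + 1) * (2 * B + 1) ^ (k + 1)) ^ 2 * δ :=
      Finset.sum_le_sum fun j _ => mul_le_mul (hcoef j) (hj j)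
        (integral_nonneg fun y => by positivity) (by positivity)
    rw [Finset.sum_const, card_univ, Fintype.card_fin, nsmul_eq_mul] at hsum
    refine (mul_le_mul_of_nonneg_left hsum hC.le).trans (le_of_eq ?_)
    push_cast
    ring
  · have h0 : ν[g j0 | Al A S (M : ℤ)] =ᵐ[ν] 0 := by
      have hfi : Integrable (f j0) ν :=
        Integrable.of_bound (hf j0).aestronglyMeasurable B (Eventually.of_forall (hB j0))
      have h1 : g j0 =ᵐ[ν] ν[f j0 | Al A S (-(m : ℤ))] - ν[f j0 | Al A S (M : ℤ)] := by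
        rw [hg0]
        filter_upwards [hgm3 j0, hgM3] with y h2 h3
        rw [h2, h3]
        rfl
      refine (condExp_congr_ae h1).trans ?_
      refine (condExp_sub integrable_condExp integrable_condExp _).trans ?_
      have h2 : ν[ν[f j0 | Al A S (-(m : ℤ))] | Al A S (M : ℤ)] =ᵐ[ν] ν[f j0 | Al A S (M : ℤ)] :=
        condExp_condExp_of_le (Al_anti h (by omega)) (Al_le h _)
      have h3 : ν[ν[f j0 | Al A S (M : ℤ)] | Al A S (M : ℤ)] =ᵐ[ν] ν[f j0 | Al A S (M : ℤ)] :=
        condExp_condExp_of_le le_rfl (Al_le h _)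
      filter_upwards [h2, h3] with y h4 h5
      show (ν[ν[f j0 | Al A S (-(m : ℤ))] | Al A S (M : ℤ)]) y -
        (ν[ν[f j0 | Al A S (M : ℤ)] | Al A S (M : ℤ)]) y = 0
      rw [h4, h5, sub_self]
    have hj0 : AEStronglyMeasurable[Al A S (-(m : ℤ))] (g j0) ν := by
      rw [hg0]
      exact ((hgm1 j0).sub hgM1').aestronglyMeasurable
    have hfI : ∀ i ∈ I, AEStronglyMeasurable[Al A S (-(m : ℤ))] (g i) ν := by
      intro i hi
      rw [hgI i hi]
      exact (hgm1 i).aestronglyMeasurable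
    have hft' : ∀ i, i ≠ j0 → i ∉ I → TailF A ν S (g i) := by
      intro i h1 h2
      rw [hgo i h1 h2]
      exact hft i h1 h2
    rcases hI with ⟨hI, hp'⟩ | ⟨hI, hp'⟩
    · obtain ⟨n0, hn0⟩ := hp' (M + m)
      refine vanish h k (fun n i => p.eval ((n : ℤ) + (i : ℕ))) g hgm (2 * B + 1) hgB j0 I hjI m M h0 hj0
        hfI hft' n0 (fun n hn i hi => ?_) (fun n n' hn hn' hne => ?_)
      · rw [hI, Finset.mem_filter] at hi
        have h1 := hn0 (n + j0) (n + i) (by omega) (by have := hi.2; omega)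
        push_cast at h1
        linarith
      · rcases lt_or_gt_of_ne hne with h1 | h1
        · left
          intro i hi
          have h2 : j0 ≤ i := by
            rcases Finset.mem_insert.1 hi with h3 | h3
            · exact h3.ge
            · rw [hI, Finset.mem_filter] at h3
              exact h3.2.le
          have h3 := hn0 (n + j0) (n' + i) (by omega) (by have : (j0 : ℕ) ≤ i := h2; omega)
          push_cast at h3
          linarith
        · right
          intro i hi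
          have h2 : j0 ≤ i := by
            rcases Finset.mem_insert.1 hi with h3 | h3
            · exact h3.ge
            · rw [hI, Finset.mem_filter] at h3
              exact h3.2.le
          have h3 := hn0 (n' + j0) (n + i) (by omega) (by have : (j0 : ℕ) ≤ i := h2; omega)
          push_cast at h3
          linarith
    · obtain ⟨n0, hn0⟩ := hp' (M + m)
      refine vanish h k (fun n i => p.eval ((n : ℤ) + (i : ℕ))) g hgm (2 * B + 1) hgB j0 I hjI m M h0 hj0
        hfI hft' n0 (fun n hn i hi => ?_) (fun n n' hn hn' hne => ?_)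
      · rw [hI, Finset.mem_filter] at hi
        have h1 := hn0 (n + i) (n + j0) (by omega) (by have := hi.2; omega)
        push_cast at h1
        linarith
      · rcases lt_or_gt_of_ne hne with h1 | h1
        · right
          intro i hi
          have h2 : i ≤ j0 := by
            rcases Finset.mem_insert.1 hi with h3 | h3
            · exact h3.le
            · rw [hI, Finset.mem_filter] at h3
              exact h3.2.le
          have h3 := hn0 (n + i) (n' + j0) (by omega) (by have : (i : ℕ) ≤ j0 := h2; omega)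
          push_cast at h3
          linarith
        · left
          intro i hi
          have h2 : i ≤ j0 := by
            rcases Finset.mem_insert.1 hi with h3 | h3
            · exact h3.le
            · rw [hI, Finset.mem_filter] at h3
              exact h3.2.le
          have h3 := hn0 (n' + i) (n + j0) (by omega) (by have : (i : ℕ) ≤ j0 := h2; omega)
          push_cast at h3
          linarith
/- END UA8 -/

/- MODULE UA9 -/
/-- REDUCTION TO THE TAIL. Induction over the number of tail functions, in the order j0 = 0, 1, .., k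
in the increasing case and j0 = k, .., 0 in the decreasing case (poly_times). -/
theorem tail_reduce {ν : Measure Y} [IsProbabilityMeasure ν] {S : Y ≃ᵐ Y}
    (h : Exh A ν S) (p : ℤ[X]) (hp : 2 ≤ p.natDegree) (k : ℕ) (B : ℝ)
    (hb : ∀ fb : Fin (k + 1) → Y → ℂ, (∀ i, Measurable (fb i)) → (∀ i y, ‖fb i y‖ ≤ B) →
      (∀ i, TailF A ν S (fb i)) →
      ∀ᵐ y ∂ν, Tendsto (fun N : ℕ => (∑ n ∈ range N,
        ∏ i, fb i (pw S (p.eval ((n : ℤ) + (i : ℕ))) y)) / (N : ℂ))
        atTop (𝓝 (∏ i, ∫ y, fb i y ∂ν)))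
    (f : Fin (k + 1) → Y → ℂ) (hf : ∀ i, Measurable (f i)) (hB : ∀ i y, ‖f i y‖ ≤ B) :
    ∀ᵐ y ∂ν, Tendsto (fun N : ℕ => (∑ n ∈ range N,
        ∏ i, f i (pw S (p.eval ((n : ℤ) + (i : ℕ))) y)) / (N : ℂ))
        atTop (𝓝 (∏ i, ∫ y, f i y ∂ν)) := by
  classical
  have hstep : ∀ (j0 : Fin (k + 1)) (f : Fin (k + 1) → Y → ℂ) (fb : Y → ℂ),
      ∫ y, fb y ∂ν = ∫ y, f j0 y ∂ν →
      ∏ i, ∫ y, (Function.update f j0 fb) i y ∂ν = ∏ i, ∫ y, f i y ∂ν := by
    intro j0 f fb h1
    refine Finset.prod_congr rfl fun i _ => ?_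
    by_cases hi : i = j0
    · rw [hi, Function.update_self, h1]
    · rw [Function.update_of_ne hi]
  have hupm : ∀ (j0 : Fin (k + 1)) (f : Fin (k + 1) → Y → ℂ) (fb : Y → ℂ), (∀ i, Measurable (f i)) →
      Measurable fb → ∀ i, Measurable ((Function.update f j0 fb) i) := by
    intro j0 f fb h1 h2 i
    by_cases hi : i = j0
    · rw [hi, Function.update_self]
      exact h2
    · rw [Function.update_of_ne hi]
      exact h1 i
  have hupB : ∀ (j0 : Fin (k + 1)) (f : Fin (k + 1) → Y → ℂ) (fb : Y → ℂ), (∀ i y, ‖f i y‖ ≤ B) →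
      (∀ y, ‖fb y‖ ≤ B) → ∀ i y, ‖(Function.update f j0 fb) i y‖ ≤ B := by
    intro j0 f fb h1 h2 i y
    by_cases hi : i = j0
    · rw [hi, Function.update_self]
      exact h2 y
    · rw [Function.update_of_ne hi]
      exact h1 i y
  rcases poly_times p hp with hinc | hdec
  · have key : ∀ t : ℕ, t ≤ k + 1 → ∀ f : Fin (k + 1) → Y → ℂ, (∀ i, Measurable (f i)) →
        (∀ i y, ‖f i y‖ ≤ B) → (∀ i : Fin (k + 1), (i : ℕ) + t < k + 1 → TailF A ν S (f i)) →
        ∀ᵐ y ∂ν, Tendsto (fun N : ℕ => (∑ n ∈ range N,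
          ∏ i, f i (pw S (p.eval ((n : ℤ) + (i : ℕ))) y)) / (N : ℂ))
          atTop (𝓝 (∏ i, ∫ y, f i y ∂ν)) := by
      intro t
      induction t with
      | zero =>
        intro _ f hf hB hT
        exact hb f hf hB fun i => hT i (by omega)
      | succ t ih =>
        intro ht f hf hB hT
        have hlt : k - t < k + 1 := by omega
        refine tail_step h p hp k f hf B hB ⟨k - t, hlt⟩
          (univ.filter (fun i => (⟨k - t, hlt⟩ : Fin (k + 1)) < i)) (Or.inl ⟨rfl, hinc⟩)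
          (fun i hi hiI => hT i ?_) _ (fun fb h1 h2 h3 h4 => ?_)
        · have h5 : ¬ (⟨k - t, hlt⟩ : Fin (k + 1)) < i := fun h6 =>
            hiI (Finset.mem_filter.2 ⟨Finset.mem_univ _, h6⟩)
          have h6 : i < (⟨k - t, hlt⟩ : Fin (k + 1)) := lt_of_le_of_ne (not_lt.1 h5) hi
          have h7 : (i : ℕ) < k - t := h6
          omega
        · rw [← hstep ⟨k - t, hlt⟩ f fb h4]
          refine ih (by omega) _ (hupm _ f fb hf h1) (hupB _ f fb hB h2) fun i hi => ?_
          by_cases hij : i = ⟨k - t, hlt⟩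
          · rw [hij, Function.update_self]
            exact h3
          · rw [Function.update_of_ne hij]
            refine hT i ?_
            have h7 : (i : ℕ) ≠ k - t := fun h8 => hij (Fin.ext h8)
            omega
    exact key (k + 1) le_rfl f hf hB fun i hi => absurd hi (by omega)
  · have key : ∀ t : ℕ, t ≤ k + 1 → ∀ f : Fin (k + 1) → Y → ℂ, (∀ i, Measurable (f i)) →
        (∀ i y, ‖f i y‖ ≤ B) → (∀ i : Fin (k + 1), t ≤ (i : ℕ) → TailF A ν S (f i)) →
        ∀ᵐ y ∂ν, Tendsto (fun N : ℕ => (∑ n ∈ range N,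
          ∏ i, f i (pw S (p.eval ((n : ℤ) + (i : ℕ))) y)) / (N : ℂ))
          atTop (𝓝 (∏ i, ∫ y, f i y ∂ν)) := by
      intro t
      induction t with
      | zero =>
        intro _ f hf hB hT
        exact hb f hf hB fun i => hT i (Nat.zero_le _)
      | succ t ih =>
        intro ht f hf hB hT
        have hlt : t < k + 1 := by omega
        refine tail_step h p hp k f hf B hB ⟨t, hlt⟩
          (univ.filter (fun i => i < (⟨t, hlt⟩ : Fin (k + 1)))) (Or.inr ⟨rfl, hdec⟩)
          (fun i hi hiI => hT i ?_) _ (fun fb h1 h2 h3 h4 => ?_)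
        · have h5 : ¬ i < (⟨t, hlt⟩ : Fin (k + 1)) := fun h6 =>
            hiI (Finset.mem_filter.2 ⟨Finset.mem_univ _, h6⟩)
          have h6 : (⟨t, hlt⟩ : Fin (k + 1)) < i := lt_of_le_of_ne (not_lt.1 h5) (Ne.symm hi)
          have h7 : t < (i : ℕ) := h6
          omega
        · rw [← hstep ⟨t, hlt⟩ f fb h4]
          refine ih (by omega) _ (hupm _ f fb hf h1) (hupB _ f fb hB h2) fun i hi => ?_
          by_cases hij : i = ⟨t, hlt⟩
          · rw [hij, Function.update_self]
            exact h3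
          · rw [Function.update_of_ne hij]
            refine hT i ?_
            have h7 : (i : ℕ) ≠ t := fun h8 => hij (Fin.ext h8)
            omega
    exact key (k + 1) le_rfl f hf hB fun i hi => absurd hi (by omega)
/- END UA9 -/

end Pool.Agent.GsF
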